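import Mathlib

/-!
# MP_ca1492_al, D4, GLDefs: the groups `N ≤ B` of `GL (Fin n) F`, the anti-involution `σ`,
permutation matrices, diagonal matrices, the character `psi`
-/

open Matrix Topology

namespace PC.GK

/-- a compact open subring and an element whose powers exhaust and shrink `F` -/
structure LFData (F : Type) [Field F] [TopologicalSpace F] where
  O : Subring F
  p : F
  O_open : IsOpen (O : Set F)
  O_cpt : IsCompact (O : Set F)
  p_ne : p ≠ 0
  p_mem : p ∈ O
  exh : ∀ x : F, ∃ j : ℕ, p ^ j * x ∈ O
  small : ∀ U ∈ 𝓝 (0 : F), ∃ j : ℕ, ∀ x ∈ O, p ^ j * x ∈ U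

variable {F : Type} [Field F] {n : ℕ}

/-- upper triangular invertible matrices -/
def BB (F : Type) [Field F] (n : ℕ) : Subgroup (GL (Fin n) F) where
  carrier := {g | (∀ i j, j < i → g.1 i j = 0) ∧ ∀ i j, j < i → g⁻¹.1 i j = 0}
  mul_mem' := by
    intro a b ha hb
    refine ⟨fun i j hij => ?_, fun i j hij => ?_⟩
    · rw [Units.val_mul, Matrix.mul_apply]
      refine Finset.sum_eq_zero fun k _ => ?_
      rcases lt_or_ge k i with h | h
      · rw [ha.1 i k h, zero_mul]
      · rw [hb.1 k j (lt_of_lt_of_le hij h), mul_zero]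
    · rw [_root_.mul_inv_rev, Units.val_mul, Matrix.mul_apply]
      refine Finset.sum_eq_zero fun k _ => ?_
      rcases lt_or_ge k i with h | h
      · rw [hb.2 i k h, zero_mul]
      · rw [ha.2 k j (lt_of_lt_of_le hij h), mul_zero]
  one_mem' := by
    refine ⟨fun i j hij => ?_, fun i j hij => ?_⟩
    · rw [Units.val_one, Matrix.one_apply_ne (ne_of_gt hij)]
    · rw [inv_one, Units.val_one, Matrix.one_apply_ne (ne_of_gt hij)]
  inv_mem' := by
    intro a ha
    refine ⟨ha.2, fun i j hij => ?_⟩
    rw [inv_inv]
    exact ha.1 i j hij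

/-- upper unitriangular matrices -/
def NN (F : Type) [Field F] (n : ℕ) : Subgroup (GL (Fin n) F) where
  carrier := {g | g ∈ BB F n ∧ ∀ i, g.1 i i = 1}
  mul_mem' := by
    intro a b ha hb
    refine ⟨(BB F n).mul_mem ha.1 hb.1, fun i => ?_⟩
    rw [Units.val_mul, Matrix.mul_apply, Finset.sum_eq_single i]
    · rw [ha.2 i, hb.2 i, mul_one]
    · intro k _ hk
      rcases lt_or_gt_of_ne hk with h | h
      · rw [ha.1.1 i k h, zero_mul]
      · rw [hb.1.1 k i h, mul_zero]
    · simp
  one_mem' := ⟨(BB F n).one_mem, fun i => by rw [Units.val_one, Matrix.one_apply_eq]⟩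
  inv_mem' := by
    intro a ha
    refine ⟨(BB F n).inv_mem ha.1, fun i => ?_⟩
    have h : (a * a⁻¹).1 i i = 1 := by rw [mul_inv_cancel, Units.val_one, Matrix.one_apply_eq]
    rw [Units.val_mul, Matrix.mul_apply, Finset.sum_eq_single i] at h
    · rw [ha.2 i, one_mul] at h
      exact h
    · intro k _ hk
      rcases lt_or_gt_of_ne hk with h' | h'
      · rw [ha.1.1 i k h', zero_mul]
      · rw [ha.1.2 k i h', mul_zero]
    · simp

/-- the matrix `w₀ gᵗ w₀`: reflection in the antidiagonal -/
def antit (A : Matrix (Fin n) (Fin n) F) : Matrix (Fin n) (Fin n) F :=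
  Matrix.of fun i j => A j.rev i.rev

theorem antit_mul (A C : Matrix (Fin n) (Fin n) F) : antit (A * C) = antit C * antit A := by
  ext i j
  simp only [antit, Matrix.of_apply, Matrix.mul_apply]
  rw [← Equiv.sum_comp Fin.revPerm]
  exact Finset.sum_congr rfl fun k _ => by simp [mul_comm]

theorem antit_one : antit (1 : Matrix (Fin n) (Fin n) F) = 1 := by
  ext i j
  simp only [antit, Matrix.of_apply, Matrix.one_apply, Fin.rev_inj]
  by_cases h : i = j
  · simp [h]
  · simp [h, Ne.symm h]

/-- the anti-involution `σ g = w₀ gᵗ w₀` -/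
def sg (g : GL (Fin n) F) : GL (Fin n) F where
  val := antit g.1
  inv := antit g⁻¹.1
  val_inv := by rw [← antit_mul, ← Units.val_mul, inv_mul_cancel, Units.val_one, antit_one]
  inv_val := by rw [← antit_mul, ← Units.val_mul, mul_inv_cancel, Units.val_one, antit_one]

/-- the permutation matrix with `1` at the places `(w j, j)` -/
def pm (F : Type) [Field F] (w : Equiv.Perm (Fin n)) : GL (Fin n) F where
  val := Matrix.of fun i j => if i = w j then 1 else 0
  inv := Matrix.of fun i j => if j = w i then 1 else 0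
  val_inv := by
    ext i j
    simp only [Matrix.mul_apply, Matrix.of_apply, Matrix.one_apply, mul_ite, mul_one, mul_zero]
    by_cases h : i = j
    · subst h
      rw [Finset.sum_eq_single (w.symm i)]
      · simp
      · intro k _ hk
        have : i ≠ w k := fun h' => hk (by rw [h', Equiv.symm_apply_apply])
        simp [this]
      · simp
    · rw [if_neg h]
      refine Finset.sum_eq_zero fun k _ => ?_
      by_cases h1 : j = w k
      · have : i ≠ w k := fun h' => h (h'.trans h1.symm)
        simp [this]
      · simp [h1]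
  inv_val := by
    ext i j
    simp only [Matrix.mul_apply, Matrix.of_apply, Matrix.one_apply, mul_ite, mul_one, mul_zero]
    by_cases h : i = j
    · subst h
      rw [Finset.sum_eq_single (w i)]
      · simp
      · intro k _ hk
        simp [hk]
      · simp
    · rw [if_neg h]
      refine Finset.sum_eq_zero fun k _ => ?_
      by_cases h1 : k = w i
      · have : k ≠ w j := fun h' => h (w.injective (h1.symm.trans h'))
        simp [this]
      · simp [h1]

/-- diagonal matrices -/
def dg (t : Fin n → Fˣ) : GL (Fin n) F where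
  val := Matrix.diagonal fun i => (t i : F)
  inv := Matrix.diagonal fun i => ((t i)⁻¹ : Fˣ)
  val_inv := by rw [Matrix.diagonal_mul_diagonal]; simp
  inv_val := by rw [Matrix.diagonal_mul_diagonal]; simp

/-- the sum of the entries next to the diagonal -/
def sd (g : GL (Fin n) F) : F := ∑ i : Fin n, if h : i.1 + 1 < n then g.1 i ⟨i.1 + 1, h⟩ else 0

/-- the generic character -/
def psi (ψ : AddChar F ℂ) (g : GL (Fin n) F) : ℂ := ψ (sd g)

/-- the monomial matrices -/
def MM (F : Type) [Field F] (n : ℕ) : Set (GL (Fin n) F) :=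
  {g | ∃ (t : Fin n → Fˣ) (w : Equiv.Perm (Fin n)), g = dg t * pm F w}

end PC.GK
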