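import Mathlib
import Pool.Agent.Lib.MP_ca1492_al.D4.GLDefs
import Pool.Agent.Lib.MP_ca1492_al.P.ParD

namespace PC.GK
end PC.GK

/-!
# MP_ca1492_al, D4, BlkDefs: two blocks in `GL (Fin n) F`

`blk n d i = (i < d)`, `od n d i = 0` for `i < d` and `1` for `i ≥ d`; `lev F (blk n d)` the block
diagonal matrices, `PP F n d` the block upper triangular matrices, `UU F n d` the unipotent radical
(`P/GLDefs.lean`), `wsw` the block swap: `i ↦ i + d` for `i < n - d` and `i ↦ i - (n - d)` otherwise.
-/

open Topology Pool.Agent.Lib.MP_ca1492_al.P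

namespace PC.D4

open PC.GK (NN sg psi pm)

/-- the colouring with the two blocks `[0, d)` and `[d, n)` -/
def blk (n d : ℕ) : Fin n → Bool := fun i => decide (i.1 < d)

/-- the order function of the two blocks -/
def od (n d : ℕ) : Fin n → ℤ := fun i => if i.1 < d then 0 else 1

/-- the constant colouring -/
def one (n : ℕ) : Fin n → Unit := fun _ => ()

theorem blk_iff (n d : ℕ) (i j : Fin n) :
    blk n d i = blk n d j ↔ one n i = one n j ∧ od n d i = od n d j := by
  by_cases h : i.1 < d <;> by_cases h' : j.1 < d <;> simp [blk, od, one, h, h']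

/-- block upper triangular matrices -/
abbrev PP (F : Type) [Field F] (n d : ℕ) : Subgroup (GL (Fin n) F) := upp F (one n) (od n d)

/-- the unipotent radical -/
abbrev UU (F : Type) [Field F] (n d : ℕ) : Subgroup (GL (Fin n) F) := uni F (one n) (od n d)

/-- the block swap -/
def wsw (n d : ℕ) (hd : d ≤ n) : Equiv.Perm (Fin n) where
  toFun i := if h : i.1 < n - d then ⟨i.1 + d, by omega⟩ else ⟨i.1 - (n - d), by omega⟩
  invFun i := if h : i.1 < d then ⟨i.1 + (n - d), by omega⟩ else ⟨i.1 - d, by omega⟩
  left_inv i := by
    by_cases h : i.1 < n - d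
    · simp [h]
    · have h1 : i.1 - (n - d) < d := by omega
      ext
      simp only [h, dite_false, h1, dite_true]
      omega
  right_inv i := by
    by_cases h : i.1 < d
    · simp [h]
    · have h1 : i.1 - d < n - d := by omega
      ext
      simp only [h, dite_false, h1, dite_true]
      omega

/-- the action of `PP` through the block diagonal part -/
noncomputable def tauOf {F : Type} [Field F] {n d : ℕ} {W : Type} [AddCommGroup W] [Module ℂ W]
    (σ : Representation ℂ (lev F (blk n d)) W) (g : GL (Fin n) F) : W →ₗ[ℂ] W := by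
  classical
  exact if h : ∃ m : lev F (blk n d), ∃ u ∈ UU F n d, g = m.1 * u then σ h.choose
    else LinearMap.id

/-- the whole group as `lev` of the constant colouring -/
def toTop {F : Type} [Field F] {n : ℕ} : GL (Fin n) F →* lev F (one n) where
  toFun g := ⟨g, fun _ _ h => absurd rfl h⟩
  map_one' := rfl
  map_mul' _ _ := rfl

/-- representations of `lev F (one n)` as representations of `GL (Fin n) F` -/
def toGL {F : Type} [Field F] {n : ℕ} {V : Type} [AddCommGroup V] [Module ℂ V]
    (π : Representation ℂ (lev F (one n)) V) : Representation ℂ (GL (Fin n) F) V :=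
  π.comp toTop

/-- the parabolic datum of the two blocks -/
noncomputable def D2 (F : Type) [Field F] [ValuativeRel F] [TopologicalSpace F]
    [IsNonarchimedeanLocalField F] (n d : ℕ) : PD (lev F (one n)) (lev F (blk n d)) :=
  parD (blk n d) (one n) (od n d) (blk_iff n d)

end PC.D4
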