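import Mathlib
import Pool.Agent.Lib.MP_ca1492_al.D4.BlkDefs
import Pool.Agent.Lib.MP_ca1492_al.P.CNorm
import Pool.Agent.Lib.MP_ca1492_al.P.CTwo

/-!
# MP_ca1492_al, D4, Sgn: the two orders of the two blocks, normalised induction

`odS n d true = od n d`, `odS n d false = - od n d`; `DS F n d s` the parabolic datum,
`XnS s ρ`, `InS s ρ` the normalised induced representation of `ρ`.
-/

open Topology Pool.Agent.Lib.MP_ca1492_al.P

namespace PC.D4

/-- the order function of the two blocks with a sign -/
def odS (n d : ℕ) (s : Bool) : Fin n → ℤ := fun i => if s = true then od n d i else - od n d i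

theorem odS_not (n d : ℕ) (s : Bool) : (fun i => - odS n d s i) = odS n d (!s) := by
  cases s <;> funext i <;> simp [odS]

theorem blkS_iff (n d : ℕ) (s : Bool) (i j : Fin n) :
    blk n d i = blk n d j ↔ one n i = one n j ∧ odS n d s i = odS n d s j := by
  cases s
  · have : odS n d false i = odS n d false j ↔ od n d i = od n d j := by simp [odS]
    rw [this]
    exact blk_iff n d i j
  · have : odS n d true i = odS n d true j ↔ od n d i = od n d j := by simp [odS]
    rw [this]
    exact blk_iff n d i j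

noncomputable section

variable (F : Type) [Field F] [ValuativeRel F] [TopologicalSpace F]
  [IsNonarchimedeanLocalField F]

/-- the parabolic datum for the order `odS n d s` -/
def DS (n d : ℕ) (s : Bool) : PD (lev F (one n)) (lev F (blk n d)) :=
  parD (blk n d) (one n) (odS n d s) (blkS_iff n d s)

theorem DS_true (n d : ℕ) : DS F n d true = D2 F n d := rfl

variable {F}
variable {n d : ℕ} {W W' : Type} [AddCommGroup W] [Module ℂ W] [AddCommGroup W'] [Module ℂ W']

/-- normalisation -/
def nsg (s : Bool) (ρ : Representation ℂ (lev F (blk n d)) W) :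
    Representation ℂ (lev F (blk n d)) W :=
  twist (dlh (blk n d) (one n) (odS n d s) (blkS_iff n d s)) ρ

/-- the space of the normalised induced representation -/
abbrev XnS (s : Bool) (ρ : Representation ℂ (lev F (blk n d)) W) :
    Submodule ℂ (lev F (one n) → W) := (DS F n d s).IndSp (nsg s ρ)

/-- the normalised induced representation -/
abbrev InS (s : Bool) (ρ : Representation ℂ (lev F (blk n d)) W) :
    Representation ℂ (lev F (one n)) (XnS s ρ) := (DS F n d s).Ind (nsg s ρ)

/-- evaluation at `1` -/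
def evS (s : Bool) (ρ : Representation ℂ (lev F (blk n d)) W) : XnS s ρ →ₗ[ℂ] W where
  toFun f := f.1 1
  map_add' _ _ := rfl
  map_smul' _ _ := rfl

theorem evS_apply (s : Bool) (ρ : Representation ℂ (lev F (blk n d)) W) (f : XnS s ρ) :
    evS s ρ f = f.1 1 := rfl

theorem evS_equi (s : Bool) (ρ : Representation ℂ (lev F (blk n d)) W) (m : lev F (blk n d))
    (f : XnS s ρ) : evS s ρ (InS s ρ ⟨m.1, (DS F n d s).hM m.2⟩ f) = nsg s ρ m (evS s ρ f) := by
  have h := f.2.1 m.1 m.2 1 (DS F n d s).N.one_mem 1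
  have e : (⟨m.1, (DS F n d s).hM m.2⟩ : lev F (one n)) *
      ⟨1, (DS F n d s).hN (DS F n d s).N.one_mem⟩ * 1 = 1 * ⟨m.1, (DS F n d s).hM m.2⟩ := by
    ext
    simp
  rw [e] at h
  exact h

theorem evS_kerJ (s : Bool) (ρ : Representation ℂ (lev F (blk n d)) W) (f : XnS s ρ)
    (hf : f ∈ (DS F n d s).kerJ (InS s ρ)) : evS s ρ f = 0 := by
  have h1 : (DS F n d s).kerJ (InS s ρ) ≤ LinearMap.ker (evS s ρ) := by
    refine Submodule.span_le.2 ?_
    rintro x ⟨u, hu, v, rfl⟩
    rw [SetLike.mem_coe, LinearMap.mem_ker, map_sub, sub_eq_zero]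
    have h := v.2.1 1 (lev F (blk n d)).one_mem u hu 1
    have e : (⟨1, (DS F n d s).hM (lev F (blk n d)).one_mem⟩ : lev F (one n)) *
        ⟨u, (DS F n d s).hN hu⟩ * 1 = 1 * ⟨u, (DS F n d s).hN hu⟩ := by
      ext
      simp
    rw [e] at h
    refine h.trans ?_
    have : (⟨1, (lev F (blk n d)).one_mem⟩ : lev F (blk n d)) = 1 := rfl
    rw [this, map_one]
    rfl
  exact h1 hf

/-- an equivariant map which composes to zero with the evaluation is zero -/
theorem evS_zero {V : Type} [AddCommGroup V] [Module ℂ V] (s : Bool)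
    (ρ : Representation ℂ (lev F (blk n d)) W) (π : Representation ℂ (lev F (one n)) V)
    (A : V →ₗ[ℂ] XnS s ρ) (hA : Equi π (InS s ρ) A) (v : V)
    (h : ∀ g, evS s ρ (A (π g v)) = 0) : A v = 0 := by
  apply Subtype.ext
  funext g
  have h1 := h g
  rw [hA g v] at h1
  have h2 : (A v).1 (1 * g) = 0 := h1
  rw [one_mul] at h2
  exact h2

theorem nsg_smooth (s : Bool) (ρ : Representation ℂ (lev F (blk n d)) W) (hρ : IsSm ρ) :
    IsSm (nsg s ρ) := smooth_twist ρ hρ _ (dlh_open _ _ _ _)

/-- the swap of the two blocks -/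
theorem wsw_swap (hd : d ≤ n) (hn : n = d + d) (h1 : 1 ≤ d) :
    IsSwap (one n) (blk n d) (wsw n d hd) where
  hcb _ := rfl
  hc i j := by
    subst hn
    simp only [wsw, blk, Equiv.coe_fn_mk, Nat.add_sub_cancel]
    by_cases hi : i.1 < d <;> by_cases hj : j.1 < d
    · simp [hi, hj]
    · have : j.1 - d < d := by omega
      simp [hi, hj, this]
    · have : i.1 - d < d := by omega
      simp [hi, hj, this]
    · have h2 : j.1 - d < d := by omega
      have h3 : i.1 - d < d := by omega
      simp [hi, hj, h2, h3]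
  ne := by
    subst hn
    refine ⟨⟨0, by omega⟩, ?_⟩
    simp only [wsw, blk, Equiv.coe_fn_mk, Nat.add_sub_cancel]
    have : (0 : ℕ) < d := by omega
    simp [this]

/-- `ρ` is not isomorphic to its conjugate by the swap of the blocks (for `n = 2 d`) -/
def NIso (hd : d ≤ n) (ρ : Representation ℂ (lev F (blk n d)) W) : Prop :=
  ∀ T : W →ₗ[ℂ] W, (∀ m m' : lev F (blk n d),
    m'.1 = permG F (wsw n d hd) * m.1 * (permG F (wsw n d hd))⁻¹ →
    ∀ e, T (ρ m e) = ρ m' (T e)) → T = 0

end

end PC.D4
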