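import Mathlib
import Pool.Agent.Lib.MP_ca1492_al.D4.Sgn
import Pool.Agent.Lib.MP_ca1492_al.P.IndEx
import Pool.Agent.Lib.MP_ca1492_al.P.PairI

/-!
# MP_ca1492_al, D4, DPair: dual pairs of representations, transposed maps

`Pai π π' b`: `b` is an invariant pairing with both kernels zero.

* `pai_surj`: `π` admissible, `l` a smooth functional, fixed by an open compact subgroup `K`
  (`HasCO`). `b (v, v') = b (avg K v, v')` for `v' ∈ fix π' K` (mean over a finite set of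
  representatives, `avg_sum`), and the same on the other side. So `fix π' K → (fix π K)^*` and
  `fix π K → (fix π' K)^*` are injective; `fix π K` is finite dimensional, hence `fix π' K` as well
  and the dimensions are equal; so there is `v' ∈ fix π' K` with `l v = b v v'` for `v ∈ fix π K`, and
  then for all `v` (both sides do not change if `v` is replaced by `avg K v`).
* `pai_transp`: `f' ↦ (f ↦ b₂ (A f) f')` is a smooth functional; take the unique representing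
  vector (right kernel zero gives uniqueness, hence linearity and equivariance).
* `pai_ind`: `ipair` for `σ = nsg s ρ`, `σ' = nsg s ρ'` (`dlh_sq`).
-/

open Topology Pool.Agent.Lib.MP_ca1492_al.P

namespace PC.D4

noncomputable section

section Abs

variable {G : Type} [Group G] {V V' V₂ V₂' : Type} [AddCommGroup V] [Module ℂ V]
  [AddCommGroup V'] [Module ℂ V'] [AddCommGroup V₂] [Module ℂ V₂] [AddCommGroup V₂'] [Module ℂ V₂']

/-- an invariant pairing with both kernels zero -/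
structure Pai (π : Representation ℂ G V) (π' : Representation ℂ G V') (b : V →ₗ[ℂ] V' →ₗ[ℂ] ℂ) :
    Prop where
  inv : ∀ g v v', b (π g v) (π' g v') = b v v'
  left : ∀ v, (∀ v', b v v' = 0) → v = 0
  right : ∀ v', (∀ v, b v v' = 0) → v' = 0

theorem Pai.flip {π : Representation ℂ G V} {π' : Representation ℂ G V'}
    {b : V →ₗ[ℂ] V' →ₗ[ℂ] ℂ} (h : Pai π π' b) : Pai π' π b.flip where
  inv g v' v := h.inv g v v'
  left v' hv := h.right v' hv
  right v hv := h.left v hv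

variable [TopologicalSpace G] [IsTopologicalGroup G]

omit [IsTopologicalGroup G] [TopologicalSpace G] in
theorem DPair_inv (π : Representation ℂ G V) (π' : Representation ℂ G V')
    (b : V →ₗ[ℂ] V' →ₗ[ℂ] ℂ) (h : Pai π π' b) (K : Subgroup G) (v' : V') (hv' : v' ∈ fix π' K) :
    ∀ k ∈ K, ∀ v, b.flip v' (π k v) = b.flip v' v := by
  intro k hk v
  show b (π k v) v' = b v v'
  have h1 := h.inv k v v'
  rw [hv' k hk] at h1
  exact h1

/-- the pairing on the invariants -/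
def DPair_R (π : Representation ℂ G V) (π' : Representation ℂ G V')
    (b : V →ₗ[ℂ] V' →ₗ[ℂ] ℂ) (K : Subgroup G) : fix π' K →ₗ[ℂ] Module.Dual ℂ (fix π K) where
  toFun v' := (b.flip v'.1) ∘ₗ (fix π K).subtype
  map_add' x y := by
    refine LinearMap.ext fun v => ?_
    show b v.1 (x.1 + y.1) = b v.1 x.1 + b v.1 y.1
    rw [map_add]
  map_smul' c x := by
    refine LinearMap.ext fun v => ?_
    show b v.1 (c • x.1) = c • b v.1 x.1
    rw [map_smul]

theorem DPair_R_inj (π : Representation ℂ G V) (π' : Representation ℂ G V') (hπ : IsSm π)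
    (b : V →ₗ[ℂ] V' →ₗ[ℂ] ℂ) (h : Pai π π' b) (K : Subgroup G) (hK : IsCompact (K : Set G)) :
    Function.Injective (DPair_R π π' b K) := by
  rw [← LinearMap.ker_eq_bot, LinearMap.ker_eq_bot']
  intro v' hv'
  refine Subtype.ext (h.right v'.1 fun v => ?_)
  have e : b (avg π K v) v'.1 = b v v'.1 :=
    Dual_inv_avg π hπ K hK (b.flip v'.1) (DPair_inv π π' b h K v'.1 v'.2) v
  have e2 : b (avg π K v) v'.1 = 0 :=
    LinearMap.congr_fun hv' ⟨avg π K v, avg_mem_fix π hπ K hK v⟩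
  rw [← e, e2]

/-- every smooth functional is represented -/
theorem pai_surj (hB : HasCO G) (π : Representation ℂ G V) (π' : Representation ℂ G V')
    (hπ : IsSm π) (hπ' : IsSm π') (ha : Adm π) (b : V →ₗ[ℂ] V' →ₗ[ℂ] ℂ) (h : Pai π π' b)
    (l : dualSp π) : ∃ v', ∀ v, l.1 v = b v v' := by
  obtain ⟨U, hU, hl⟩ := l.2
  obtain ⟨K, hKo, hKc, hKs⟩ := hB (U : Set G) (hU.mem_nhds U.one_mem)
  have hf : FiniteDimensional ℂ (fix π K) := ha K hKo
  have hi := DPair_R_inj π π' hπ b h K hKc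
  have hi' := DPair_R_inj π' π hπ' b.flip h.flip K hKc
  have hf' : FiniteDimensional ℂ (fix π' K) := FiniteDimensional.of_injective _ hi
  have h1 := LinearMap.finrank_le_finrank_of_injective hi
  have h2 := LinearMap.finrank_le_finrank_of_injective hi'
  have d1 : Module.finrank ℂ (Module.Dual ℂ (fix π K)) = Module.finrank ℂ (fix π K) :=
    Subspace.dual_finrank_eq
  have d2 : Module.finrank ℂ (Module.Dual ℂ (fix π' K)) = Module.finrank ℂ (fix π' K) :=
    Subspace.dual_finrank_eq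
  have heq : Module.finrank ℂ (fix π' K) = Module.finrank ℂ (Module.Dual ℂ (fix π K)) := by
    omega
  have hs : Function.Surjective (DPair_R π π' b K) :=
    (LinearMap.injective_iff_surjective_of_finrank_eq_finrank heq).1 hi
  obtain ⟨v', hv'⟩ := hs (l.1 ∘ₗ (fix π K).subtype)
  refine ⟨v'.1, fun v => ?_⟩
  have e : b (avg π K v) v'.1 = b v v'.1 :=
    Dual_inv_avg π hπ K hKc (b.flip v'.1) (DPair_inv π π' b h K v'.1 v'.2) v
  have e2 : b (avg π K v) v'.1 = l.1 (avg π K v) :=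
    LinearMap.congr_fun hv' ⟨avg π K v, avg_mem_fix π hπ K hKc v⟩
  have e3 : l.1 (avg π K v) = l.1 v :=
    Dual_inv_avg π hπ K hKc l.1 (fun k hk w => hl k (hKs hk) w) v
  rw [← e3, ← e2, e]

theorem pai_adm (hB : HasCO G) (π : Representation ℂ G V) (π' : Representation ℂ G V')
    (hπ : IsSm π) (hπ' : IsSm π') (ha : Adm π) (b : V →ₗ[ℂ] V' →ₗ[ℂ] ℂ) (h : Pai π π' b) :
    Adm π' := by
  intro U hU
  obtain ⟨K, hKo, hKc, hKs⟩ := hB (U : Set G) (hU.mem_nhds U.one_mem)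
  have hf : FiniteDimensional ℂ (fix π K) := ha K hKo
  have hi := DPair_R_inj π π' hπ b h K hKc
  have hf' : FiniteDimensional ℂ (fix π' K) := FiniteDimensional.of_injective _ hi
  exact Submodule.finiteDimensional_of_le (S₂ := fix π' K) (fun v hv k hk => hv k (hKs hk))

/-- the transposed map -/
theorem pai_transp (hB : HasCO G) (π : Representation ℂ G V) (π' : Representation ℂ G V')
    (hπ : IsSm π) (hπ' : IsSm π') (ha : Adm π) (b : V →ₗ[ℂ] V' →ₗ[ℂ] ℂ) (h : Pai π π' b)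
    (π₂ : Representation ℂ G V₂) (π₂' : Representation ℂ G V₂') (hπ₂' : IsSm π₂')
    (b₂ : V₂ →ₗ[ℂ] V₂' →ₗ[ℂ] ℂ) (h₂ : Pai π₂ π₂' b₂) (A : V →ₗ[ℂ] V₂) (hA : Equi π π₂ A) :
    ∃ A' : V₂' →ₗ[ℂ] V', Equi π₂' π' A' ∧ ∀ v v', b₂ (A v) v' = b v (A' v') := by
  have hex : ∀ f' : V₂', ∃ v' : V', ∀ v, b₂ (A v) f' = b v v' := by
    intro f'
    refine pai_surj hB π π' hπ hπ' ha b h ⟨b₂.flip f' ∘ₗ A, stabV π₂' f', hπ₂' f', ?_⟩
    intro u hu v
    show b₂ (A (π u v)) f' = b₂ (A v) f'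
    have h1 : π₂' u f' = f' := hu
    have h3 := h₂.inv u (A v) f'
    rw [h1] at h3
    rw [hA u v]
    exact h3
  choose A' hA' using hex
  have huniq : ∀ x y : V', (∀ v, b v x = b v y) → x = y := by
    intro x y hxy
    rw [← sub_eq_zero]
    refine h.right _ fun v => ?_
    rw [map_sub, hxy v, sub_self]
  refine ⟨{ toFun := A'
            map_add' := ?_
            map_smul' := ?_ }, ?_, fun v v' => hA' v' v⟩
  · intro x y
    refine huniq _ _ fun v => ?_
    rw [map_add, ← hA', ← hA', ← hA', map_add]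
  · intro c x
    refine huniq _ _ fun v => ?_
    rw [RingHom.id_apply, map_smul, ← hA', ← hA', map_smul]
  · intro g x
    show A' (π₂' g x) = π' g (A' x)
    refine huniq _ _ fun v => ?_
    have h1 := h₂.inv g (A (π g⁻¹ v)) x
    have h2 := h.inv g (π g⁻¹ v) (A' x)
    have h3 : ∀ v, π g (π g⁻¹ v) = v := fun v => by
      rw [← Module.End.mul_apply, ← map_mul, mul_inv_cancel, map_one, Module.End.one_apply]
    rw [← hA g (π g⁻¹ v), h3] at h1
    rw [h3] at h2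
    rw [← hA', h1, h2, hA']

end Abs

section Ind

variable {F : Type} [Field F] [ValuativeRel F] [TopologicalSpace F]
  [IsNonarchimedeanLocalField F]
variable {n d : ℕ} {W W' : Type} [AddCommGroup W] [Module ℂ W] [AddCommGroup W'] [Module ℂ W']

theorem InS_smooth (s : Bool) (ρ : Representation ℂ (lev F (blk n d)) W) :
    IsSm (InS s ρ) := (DS F n d s).ind_smooth (nsg s ρ)

theorem DPair_adm (s : Bool) (ρ : Representation ℂ (lev F (blk n d)) W) (ha : Adm ρ) :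
    Adm (nsg s ρ) := by
  intro U hU
  have hk : IsOpen ((dlh (F := F) (blk n d) (one n) (odS n d s) (blkS_iff n d s)).ker :
      Set (lev F (blk n d))) := dlh_open _ _ _ _
  have := ha (U ⊓ (dlh (F := F) (blk n d) (one n) (odS n d s) (blkS_iff n d s)).ker)
    (hU.inter hk)
  refine Submodule.finiteDimensional_of_le (S₂ := fix ρ
    (U ⊓ (dlh (F := F) (blk n d) (one n) (odS n d s) (blkS_iff n d s)).ker)) ?_
  rintro v hv k ⟨hk1, hk2⟩
  have h1 : ((dlh (blk n d) (one n) (odS n d s) (blkS_iff n d s) k : ℂˣ) : ℂ) • ρ k v = v :=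
    hv k hk1
  have h2 : dlh (blk n d) (one n) (odS n d s) (blkS_iff n d s) k = 1 := hk2
  rw [h2] at h1
  simpa using h1

theorem InS_adm (s : Bool) (ρ : Representation ℂ (lev F (blk n d)) W) (hρ : IsSm ρ)
    (ha : Adm ρ) : Adm (InS s ρ) :=
  ind_adm (blk n d) (one n) (odS n d s) (blkS_iff n d s) (nsg s ρ) (nsg_smooth s ρ hρ)
    (DPair_adm s ρ ha)

/-- the pairing of the induced representations -/
def bS (s : Bool) (ρ : Representation ℂ (lev F (blk n d)) W)
    (ρ' : Representation ℂ (lev F (blk n d)) W') (β : W →ₗ[ℂ] W' →ₗ[ℂ] ℂ) :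
    XnS s ρ →ₗ[ℂ] XnS s ρ' →ₗ[ℂ] ℂ :=
  ipair (blk n d) (one n) (odS n d s) (blkS_iff n d s) (nsg s ρ) (nsg s ρ') β

theorem pai_ind (s : Bool) (ρ : Representation ℂ (lev F (blk n d)) W)
    (ρ' : Representation ℂ (lev F (blk n d)) W') (hρ : IsSm ρ) (hρ' : IsSm ρ')
    (β : W →ₗ[ℂ] W' →ₗ[ℂ] ℂ) (h : Pai ρ ρ' β) : Pai (InS s ρ) (InS s ρ') (bS s ρ ρ' β) := by
  have hβ : ∀ (m : lev F (blk n d)) (e : W) (e' : W'), β (nsg s ρ m e) (nsg s ρ' m e') =
      (dlt (blk n d) (one n) (odS n d s) (blkS_iff n d s) m : ℂ) * β e e' := by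
    intro m e e'
    have h1 : β (((dlh (blk n d) (one n) (odS n d s) (blkS_iff n d s) m : ℂˣ) : ℂ) • ρ m e)
        (((dlh (blk n d) (one n) (odS n d s) (blkS_iff n d s) m : ℂˣ) : ℂ) • ρ' m e') =
        (((dlh (blk n d) (one n) (odS n d s) (blkS_iff n d s) m : ℂˣ) : ℂ) *
          ((dlh (blk n d) (one n) (odS n d s) (blkS_iff n d s) m : ℂˣ) : ℂ)) * β e e' := by
      rw [map_smul, map_smul, LinearMap.smul_apply, h.inv m e e', smul_eq_mul, smul_eq_mul,
        mul_assoc]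
    rw [← Units.val_mul, dlh_sq] at h1
    exact h1
  exact ⟨fun g f f' => ipair_inv (blk n d) (one n) (odS n d s) (blkS_iff n d s) (nsg s ρ)
      (nsg s ρ') β hβ g f f',
    fun f h0 => ipair_left (blk n d) (one n) (odS n d s) (blkS_iff n d s) (nsg s ρ)
      (nsg s ρ') β hβ (nsg_smooth s ρ' hρ') h.left f h0,
    fun f' h0 => ipair_right (blk n d) (one n) (odS n d s) (blkS_iff n d s) (nsg s ρ)
      (nsg s ρ') β hβ (nsg_smooth s ρ hρ) h.right f' h0⟩

/-- induced maps -/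
def mapS {W₂ : Type} [AddCommGroup W₂] [Module ℂ W₂] (s : Bool)
    (ρ : Representation ℂ (lev F (blk n d)) W) (ρ₂ : Representation ℂ (lev F (blk n d)) W₂)
    (T : W →ₗ[ℂ] W₂) (hT : Equi ρ ρ₂ T) : XnS s ρ →ₗ[ℂ] XnS s ρ₂ :=
  (DS F n d s).IndMap (nsg s ρ) (nsg s ρ₂) T (by
    intro m e
    show T ((dlh (blk n d) (one n) (odS n d s) (blkS_iff n d s) m : ℂ) • ρ m e) =
      (dlh (blk n d) (one n) (odS n d s) (blkS_iff n d s) m : ℂ) • ρ₂ m (T e)
    rw [map_smul, hT])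

theorem mapS_apply {W₂ : Type} [AddCommGroup W₂] [Module ℂ W₂] (s : Bool)
    (ρ : Representation ℂ (lev F (blk n d)) W) (ρ₂ : Representation ℂ (lev F (blk n d)) W₂)
    (T : W →ₗ[ℂ] W₂) (hT : Equi ρ ρ₂ T) (f : XnS s ρ) (g : lev F (one n)) :
    (mapS s ρ ρ₂ T hT f).1 g = T (f.1 g) := rfl

theorem mapS_equi {W₂ : Type} [AddCommGroup W₂] [Module ℂ W₂] (s : Bool)
    (ρ : Representation ℂ (lev F (blk n d)) W) (ρ₂ : Representation ℂ (lev F (blk n d)) W₂)
    (T : W →ₗ[ℂ] W₂) (hT : Equi ρ ρ₂ T) : Equi (InS s ρ) (InS s ρ₂) (mapS s ρ ρ₂ T hT) := by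
  intro g f
  rfl

theorem mapS_surj {W₂ : Type} [AddCommGroup W₂] [Module ℂ W₂] (s : Bool)
    (ρ : Representation ℂ (lev F (blk n d)) W) (ρ₂ : Representation ℂ (lev F (blk n d)) W₂)
    (hρ : IsSm ρ) (hρ₂ : IsSm ρ₂) (T : W →ₗ[ℂ] W₂) (hT : Equi ρ ρ₂ T)
    (hs : Function.Surjective T) : Function.Surjective (mapS s ρ ρ₂ T hT) :=
  ind_surj (blk n d) (one n) (odS n d s) (blkS_iff n d s) (nsg s ρ) (nsg s ρ₂)
    (nsg_smooth s ρ hρ) (nsg_smooth s ρ₂ hρ₂) T _ hs

/-- adjoint maps induce adjoint maps -/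
theorem bS_map {W₂ W₂' : Type} [AddCommGroup W₂] [Module ℂ W₂] [AddCommGroup W₂'] [Module ℂ W₂']
    (s : Bool) (ρ : Representation ℂ (lev F (blk n d)) W)
    (ρ' : Representation ℂ (lev F (blk n d)) W') (ρ₂ : Representation ℂ (lev F (blk n d)) W₂)
    (ρ₂' : Representation ℂ (lev F (blk n d)) W₂') (β : W →ₗ[ℂ] W' →ₗ[ℂ] ℂ)
    (β₂ : W₂ →ₗ[ℂ] W₂' →ₗ[ℂ] ℂ) (T : W →ₗ[ℂ] W₂) (hT : Equi ρ ρ₂ T) (T' : W₂' →ₗ[ℂ] W')
    (hT' : Equi ρ₂' ρ' T') (hTT : ∀ e e', β₂ (T e) e' = β e (T' e')) (f : XnS s ρ)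
    (f' : XnS s ρ₂') :
    bS s ρ₂ ρ₂' β₂ (mapS s ρ ρ₂ T hT f) f' = bS s ρ ρ' β f (mapS s ρ₂' ρ' T' hT' f') :=
  ipair_map (blk n d) (one n) (odS n d s) (blkS_iff n d s) (nsg s ρ) (nsg s ρ') (nsg s ρ₂)
    (nsg s ρ₂') β β₂ T _ T' _ hTT f f'

end Ind

end

end PC.D4
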