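import Mathlib
import Pool.Agent.Lib.MP_ca1492_al.D4.DPair

/-!
# MP_ca1492_al, D4, Dbl: the self-extension `dbl z ρ` of `ρ` by the unramified character direction

`dbl z ρ m (v, w) = (ρ m v + z * lam m • ρ m w, ρ m w)`, `lam m = vl m true - vl m false`;
`inlS f = (f, 0)`, `qS (f, g) = g`, exact sequence `0 → XnS s ρ → XnS s (dbl z ρ) → XnS s ρ → 0`.

* `dbl_smooth`: the stabilizer of `(v, w)` contains `stab v ⊓ stab w ⊓ {lam = 0}` (`vl_Kc`).
* `dbl_cusp`: `lam = 0` on `uni` (`vl_uni`), so `dbl z ρ n (v, w) - (v, w) = (ρ n v - v, ρ n w - w)`; the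
  span of these vectors is everything (`(v, 0)` and `(0, w)` separately).
* `dbl_adm`: `(v, w) ∈ fix K ⇒ w ∈ fix K`; the kernel of `(v, w) ↦ w` on `fix K` is `fix K`; finite
  dimensional (`Module.Finite` of an extension, `FiniteDimensional` via an injection into
  `fix × fix` on a smaller open subgroup where `lam = 0`: `K ⊓ {lam = 0}` is open and
  `fix (dbl) (K ⊓ ..) = fix × fix`).
* `dbl_pai`: `dblB β (v, w) (v', w') = β v w' + β w v'`.
-/

open Topology Pool.Agent.Lib.MP_ca1492_al.P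

namespace PC.D4

noncomputable section

variable {F : Type} [Field F] [ValuativeRel F] [TopologicalSpace F]
  [IsNonarchimedeanLocalField F]
variable {n d : ℕ} {W W' : Type} [AddCommGroup W] [Module ℂ W] [AddCommGroup W'] [Module ℂ W']

/-- the difference of the valuations of the determinants of the two blocks -/
def lam (m : lev F (blk n d)) : ℤ := vl (blk n d) m.1 true - vl (blk n d) m.1 false

theorem lam_mul (m m' : lev F (blk n d)) : lam (m * m') = lam m + lam m' := by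
  unfold lam
  rw [Subgroup.coe_mul, vl_mul (blk n d) m.1 m'.1 m.2 m'.2, vl_mul (blk n d) m.1 m'.1 m.2 m'.2]
  ring

theorem lam_one : lam (1 : lev F (blk n d)) = 0 := by
  unfold lam
  rw [OneMemClass.coe_one, vl_one, vl_one, sub_zero]

/-- the self-extension -/
def dbl (z : ℂ) (ρ : Representation ℂ (lev F (blk n d)) W) :
    Representation ℂ (lev F (blk n d)) (W × W) where
  toFun m := (ρ m ∘ₗ LinearMap.fst ℂ W W + (z * (lam m : ℂ)) • (ρ m ∘ₗ LinearMap.snd ℂ W W)).prod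
    (ρ m ∘ₗ LinearMap.snd ℂ W W)
  map_one' := by
    rw [lam_one]
    ext <;> simp
  map_mul' := by
    intro a b
    apply LinearMap.ext
    rintro ⟨v, w⟩
    refine Prod.ext ?_ ?_
    · show ρ (a * b) v + (z * (lam (a * b) : ℂ)) • ρ (a * b) w =
        ρ a (ρ b v + (z * (lam b : ℂ)) • ρ b w) + (z * (lam a : ℂ)) • ρ a (ρ b w)
      rw [lam_mul, map_mul, Module.End.mul_apply, Module.End.mul_apply, map_add, map_smul,
        add_assoc, ← add_smul]
      congr 2
      push_cast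
      ring
    · show ρ (a * b) w = ρ a (ρ b w)
      rw [map_mul, Module.End.mul_apply]

theorem dbl_apply (z : ℂ) (ρ : Representation ℂ (lev F (blk n d)) W) (m : lev F (blk n d))
    (v w : W) : dbl z ρ m (v, w) = (ρ m v + (z * (lam m : ℂ)) • ρ m w, ρ m w) := rfl

theorem Dbl_lam0 {m : lev F (blk n d)} (h : m.1 ∈ lev0 F (blk n d)) : lam m = 0 := by
  unfold lam
  rw [h.2, h.2, sub_zero]

theorem Dbl_apply0 (z : ℂ) (ρ : Representation ℂ (lev F (blk n d)) W) {m : lev F (blk n d)}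
    (h : m.1 ∈ lev0 F (blk n d)) (v w : W) : dbl z ρ m (v, w) = (ρ m v, ρ m w) := by
  rw [dbl_apply, Dbl_lam0 h, Int.cast_zero, mul_zero, zero_smul, add_zero]

theorem dbl_smooth (z : ℂ) (ρ : Representation ℂ (lev F (blk n d)) W) (hρ : IsSm ρ) :
    IsSm (dbl z ρ) := by
  rintro ⟨v, w⟩
  have h1 : IsOpen ((stabV ρ v ⊓ stabV ρ w ⊓ (lev0 F (blk n d)).subgroupOf (lev F (blk n d)) :
      Subgroup (lev F (blk n d))) : Set (lev F (blk n d))) :=
    ((hρ v).inter (hρ w)).inter (lev0_open (blk n d))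
  have h2 : stabV ρ v ⊓ stabV ρ w ⊓ (lev0 F (blk n d)).subgroupOf (lev F (blk n d)) ≤
      stabV (dbl z ρ) (v, w) := by
    rintro g ⟨⟨hv, hw⟩, hl⟩
    show dbl z ρ g (v, w) = (v, w)
    rw [Dbl_apply0 z ρ (Subgroup.mem_subgroupOf.1 hl)]
    exact Prod.ext hv hw
  exact Subgroup.isOpen_mono h2 h1

theorem dbl_cusp (z : ℂ) (ρ : Representation ℂ (lev F (blk n d)) W) (hc : Cusp (blk n d) ρ) :
    Cusp (blk n d) (dbl z ρ) := by
  intro o ho
  have h := hc o ho
  have key : ∀ (u : GL (Fin n) F) (hu : u ∈ (stdD F (blk n d) o).N) (v w : W),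
      ((ρ ⟨u, (stdD F (blk n d) o).hN hu⟩ v - v, ρ ⟨u, (stdD F (blk n d) o).hN hu⟩ w - w) :
        W × W) ∈ (stdD F (blk n d) o).kerJ (dbl z ρ) := by
    intro u hu v w
    refine Submodule.subset_span ⟨u, hu, (v, w), ?_⟩
    have hl : ((⟨u, (stdD F (blk n d) o).hN hu⟩ : lev F (blk n d))).1 ∈ lev0 F (blk n d) :=
      uni_le_lev0 (blk n d) o hu
    rw [Dbl_apply0 z ρ hl]
    rfl
  have h1 : (⊤ : Submodule ℂ W) ≤
      ((stdD F (blk n d) o).kerJ (dbl z ρ)).comap (LinearMap.inl ℂ W W) := by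
    rw [← h]
    refine Submodule.span_le.2 ?_
    rintro x ⟨u, hu, v, rfl⟩
    have h3 := key u hu v 0
    rw [map_zero, sub_zero] at h3
    exact h3
  have h2 : (⊤ : Submodule ℂ W) ≤
      ((stdD F (blk n d) o).kerJ (dbl z ρ)).comap (LinearMap.inr ℂ W W) := by
    rw [← h]
    refine Submodule.span_le.2 ?_
    rintro x ⟨u, hu, v, rfl⟩
    have h3 := key u hu 0 v
    rw [map_zero, sub_zero] at h3
    exact h3
  refine eq_top_iff.2 ?_
  rintro ⟨v, w⟩ -
  have hv : (LinearMap.inl ℂ W W) v ∈ (stdD F (blk n d) o).kerJ (dbl z ρ) :=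
    h1 (Submodule.mem_top : v ∈ (⊤ : Submodule ℂ W))
  have hw : (LinearMap.inr ℂ W W) w ∈ (stdD F (blk n d) o).kerJ (dbl z ρ) :=
    h2 (Submodule.mem_top : w ∈ (⊤ : Submodule ℂ W))
  have h3 := Submodule.add_mem _ hv hw
  rw [LinearMap.inl_apply, LinearMap.inr_apply, Prod.mk_add_mk, add_zero, zero_add] at h3
  exact h3

theorem dbl_adm (z : ℂ) (ρ : Representation ℂ (lev F (blk n d)) W) (ha : Adm ρ) :
    Adm (dbl z ρ) := by
  intro K hK
  have hK' : IsOpen ((K ⊓ (lev0 F (blk n d)).subgroupOf (lev F (blk n d)) :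
      Subgroup (lev F (blk n d))) : Set (lev F (blk n d))) := hK.inter (lev0_open (blk n d))
  have := ha _ hK'
  have key : ∀ x : fix (dbl z ρ) K,
      x.1.1 ∈ fix ρ (K ⊓ (lev0 F (blk n d)).subgroupOf (lev F (blk n d))) ∧
      x.1.2 ∈ fix ρ (K ⊓ (lev0 F (blk n d)).subgroupOf (lev F (blk n d))) := by
    rintro ⟨⟨v, w⟩, hx⟩
    have h1 : ∀ k ∈ K ⊓ (lev0 F (blk n d)).subgroupOf (lev F (blk n d)),
        (ρ k v, ρ k w) = ((v, w) : W × W) := by
      rintro k ⟨hk, hl⟩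
      rw [← Dbl_apply0 z ρ (Subgroup.mem_subgroupOf.1 hl)]
      exact hx k hk
    exact ⟨fun k hk => congrArg Prod.fst (h1 k hk), fun k hk => congrArg Prod.snd (h1 k hk)⟩
  refine Module.Finite.of_injective
    (((LinearMap.fst ℂ W W ∘ₗ (fix (dbl z ρ) K).subtype).codRestrict
      (fix ρ (K ⊓ (lev0 F (blk n d)).subgroupOf (lev F (blk n d)))) fun x => (key x).1).prod
    ((LinearMap.snd ℂ W W ∘ₗ (fix (dbl z ρ) K).subtype).codRestrict
      (fix ρ (K ⊓ (lev0 F (blk n d)).subgroupOf (lev F (blk n d)))) fun x => (key x).2)) ?_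
  intro x y hxy
  have h1 := congrArg (fun p => (p.1 : W)) hxy
  have h2 := congrArg (fun p => (p.2 : W)) hxy
  exact Subtype.ext (Prod.ext h1 h2)

/-- the pairing of the self-extensions -/
def dblB (β : W →ₗ[ℂ] W' →ₗ[ℂ] ℂ) : (W × W) →ₗ[ℂ] (W' × W') →ₗ[ℂ] ℂ :=
  LinearMap.mk₂ ℂ (fun x x' => β x.1 x'.2 + β x.2 x'.1)
    (by intros; simp only [Prod.fst_add, Prod.snd_add, map_add, LinearMap.add_apply]; ring)
    (by intros; simp only [Prod.smul_fst, Prod.smul_snd, map_smul, LinearMap.smul_apply,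
      smul_eq_mul]; ring)
    (by intros; simp only [Prod.fst_add, Prod.snd_add, map_add]; ring)
    (by intros; simp only [Prod.smul_fst, Prod.smul_snd, map_smul, smul_eq_mul]; ring)

theorem dblB_apply (β : W →ₗ[ℂ] W' →ₗ[ℂ] ℂ) (v w : W) (v' w' : W') :
    dblB β (v, w) (v', w') = β v w' + β w v' := rfl

theorem dbl_pai (z z' : ℂ) (hz : z + z' = 0) (ρ : Representation ℂ (lev F (blk n d)) W)
    (ρ' : Representation ℂ (lev F (blk n d)) W') (β : W →ₗ[ℂ] W' →ₗ[ℂ] ℂ) (h : Pai ρ ρ' β) :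
    Pai (dbl z ρ) (dbl z' ρ') (dblB β) where
  inv m x x' := by
    obtain ⟨v, w⟩ := x
    obtain ⟨v', w'⟩ := x'
    rw [dbl_apply, dbl_apply, dblB_apply, dblB_apply]
    simp only [map_add, map_smul, LinearMap.add_apply, LinearMap.smul_apply, smul_eq_mul, h.inv]
    linear_combination ((lam m : ℤ) : ℂ) * β w w' * hz
  left x hx := by
    obtain ⟨v, w⟩ := x
    have h1 : v = 0 := h.left v fun w' => by
      have := hx (0, w')
      rw [dblB_apply, map_zero, add_zero] at this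
      exact this
    have h2 : w = 0 := h.left w fun v' => by
      have := hx (v', 0)
      rw [dblB_apply, map_zero, zero_add] at this
      exact this
    rw [h1, h2]
    rfl
  right x' hx := by
    obtain ⟨v', w'⟩ := x'
    have h1 : v' = 0 := h.right v' fun w => by
      have := hx (0, w)
      rw [dblB_apply, map_zero, LinearMap.zero_apply, zero_add] at this
      exact this
    have h2 : w' = 0 := h.right w' fun v => by
      have := hx (v, 0)
      rw [dblB_apply, map_zero, LinearMap.zero_apply, add_zero] at this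
      exact this
    rw [h1, h2]
    rfl

/-! ## induced representations -/

theorem inl_equi (z : ℂ) (ρ : Representation ℂ (lev F (blk n d)) W) :
    Equi ρ (dbl z ρ) (LinearMap.inl ℂ W W) := by
  intro m v
  rw [LinearMap.inl_apply, LinearMap.inl_apply, dbl_apply, map_zero, smul_zero, add_zero]

theorem snd_equi (z : ℂ) (ρ : Representation ℂ (lev F (blk n d)) W) :
    Equi (dbl z ρ) ρ (LinearMap.snd ℂ W W) := by
  rintro m ⟨v, w⟩
  rfl

/-- `f ↦ (f, 0)` -/
def inlS (s : Bool) (z : ℂ) (ρ : Representation ℂ (lev F (blk n d)) W) :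
    XnS s ρ →ₗ[ℂ] XnS s (dbl z ρ) := mapS s ρ (dbl z ρ) (LinearMap.inl ℂ W W) (inl_equi z ρ)

/-- `(f, g) ↦ g` -/
def qS (s : Bool) (z : ℂ) (ρ : Representation ℂ (lev F (blk n d)) W) :
    XnS s (dbl z ρ) →ₗ[ℂ] XnS s ρ := mapS s (dbl z ρ) ρ (LinearMap.snd ℂ W W) (snd_equi z ρ)

theorem inlS_equi (s : Bool) (z : ℂ) (ρ : Representation ℂ (lev F (blk n d)) W) :
    Equi (InS s ρ) (InS s (dbl z ρ)) (inlS s z ρ) := mapS_equi _ _ _ _ _

theorem qS_equi (s : Bool) (z : ℂ) (ρ : Representation ℂ (lev F (blk n d)) W) :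
    Equi (InS s (dbl z ρ)) (InS s ρ) (qS s z ρ) := mapS_equi _ _ _ _ _

theorem inlS_inj (s : Bool) (z : ℂ) (ρ : Representation ℂ (lev F (blk n d)) W) :
    Function.Injective (inlS s z ρ) := by
  intro f f' h
  apply Subtype.ext
  funext g
  have := congrFun (congrArg Subtype.val h) g
  exact congrArg Prod.fst this

theorem qS_surj (s : Bool) (z : ℂ) (ρ : Representation ℂ (lev F (blk n d)) W) (hρ : IsSm ρ) :
    Function.Surjective (qS s z ρ) :=
  mapS_surj s (dbl z ρ) ρ (dbl_smooth z ρ hρ) hρ _ _ fun w => ⟨(0, w), rfl⟩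

theorem qS_inlS (s : Bool) (z : ℂ) (ρ : Representation ℂ (lev F (blk n d)) W) (f : XnS s ρ) :
    qS s z ρ (inlS s z ρ f) = 0 := rfl

/-- exactness -/
theorem qS_ker (s : Bool) (z : ℂ) (ρ : Representation ℂ (lev F (blk n d)) W)
    (f : XnS s (dbl z ρ)) (h : qS s z ρ f = 0) : ∃ f₀ : XnS s ρ, inlS s z ρ f₀ = f := by
  have h0 : ∀ g, (f.1 g).2 = 0 := fun g => congrFun (congrArg Subtype.val h) g
  have h1 : ∀ g, f.1 g = ((f.1 g).1, 0) := fun g => Prod.ext rfl (h0 g)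
  refine ⟨⟨fun g => (f.1 g).1, ?_, ?_⟩, ?_⟩
  · intro m hm u hu g
    have h2 := f.2.1 m hm u hu g
    have h3 : nsg s (dbl z ρ) ⟨m, hm⟩ (f.1 g) = (nsg s ρ ⟨m, hm⟩ (f.1 g).1, 0) := by
      rw [h1 g]
      show (dlh (blk n d) (one n) (odS n d s) (blkS_iff n d s) ⟨m, hm⟩ : ℂ) •
          dbl z ρ ⟨m, hm⟩ ((f.1 g).1, 0) =
        ((dlh (blk n d) (one n) (odS n d s) (blkS_iff n d s) ⟨m, hm⟩ : ℂ) •
          ρ ⟨m, hm⟩ (f.1 g).1, 0)
      rw [dbl_apply, map_zero, smul_zero, add_zero, Prod.smul_mk, smul_zero]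
    exact congrArg Prod.fst (h2.trans h3)
  · obtain ⟨U, hU, h2⟩ := f.2.2
    exact ⟨U, hU, fun g u hu => congrArg Prod.fst (h2 g u hu)⟩
  · apply Subtype.ext
    funext g
    exact (h1 g).symm

theorem evS_inlS (s : Bool) (z : ℂ) (ρ : Representation ℂ (lev F (blk n d)) W) (f : XnS s ρ) :
    evS s (dbl z ρ) (inlS s z ρ f) = (evS s ρ f, 0) := rfl

theorem evS_qS (s : Bool) (z : ℂ) (ρ : Representation ℂ (lev F (blk n d)) W)
    (f : XnS s (dbl z ρ)) : evS s ρ (qS s z ρ f) = (evS s (dbl z ρ) f).2 := rfl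

/-- the pairing and `inlS`, `qS` -/
theorem bS_inl (s : Bool) (z z' : ℂ) (ρ : Representation ℂ (lev F (blk n d)) W)
    (ρ' : Representation ℂ (lev F (blk n d)) W') (β : W →ₗ[ℂ] W' →ₗ[ℂ] ℂ) (f : XnS s ρ)
    (f' : XnS s (dbl z' ρ')) :
    bS s (dbl z ρ) (dbl z' ρ') (dblB β) (inlS s z ρ f) f' = bS s ρ ρ' β f (qS s z' ρ' f') :=
  bS_map s ρ ρ' (dbl z ρ) (dbl z' ρ') β (dblB β) _ (inl_equi z ρ) _ (snd_equi z' ρ')
    (by
      rintro e ⟨v', w'⟩
      show dblB β (e, 0) (v', w') = β e w'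
      rw [dblB_apply, map_zero, LinearMap.zero_apply, add_zero]) f f'

theorem bS_flip (s : Bool) (ρ : Representation ℂ (lev F (blk n d)) W)
    (ρ' : Representation ℂ (lev F (blk n d)) W') (β : W →ₗ[ℂ] W' →ₗ[ℂ] ℂ) (f : XnS s ρ)
    (f' : XnS s ρ') : bS s ρ' ρ β.flip f' f = bS s ρ ρ' β f f' := rfl

theorem dblB_flip (β : W →ₗ[ℂ] W' →ₗ[ℂ] ℂ) : dblB β.flip = (dblB β).flip := by
  apply LinearMap.ext
  rintro ⟨v', w'⟩
  apply LinearMap.ext
  rintro ⟨v, w⟩
  rw [LinearMap.flip_apply, dblB_apply, dblB_apply, LinearMap.flip_apply, LinearMap.flip_apply,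
    add_comm]

end

end PC.D4
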