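import Mathlib
import Pool.Agent.Lib.MP_ca1492_al.P.Jac

/-!
# MP_ca1492_al, D4, Lat: stable subspaces and kernels of Jacquet modules, abstract lemmas

`π` a representation on `V`, `K`, `N` subspaces. Uniqueness of the proper nonzero stable subspace in
the two cases (A) (two Jacquet modules, irreducible) and (B) (one Jacquet module of length two).
-/

open Topology Pool.Agent.Lib.MP_ca1492_al.P

namespace PC.D4

section Ker

variable {G : Type} [Group G] [TopologicalSpace G] [IsTopologicalGroup G]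
  {H M : Subgroup G} (D : PD H M)
variable {V : Type} [AddCommGroup V] [Module ℂ V]

theorem avg_stab (π : Representation ℂ H V) (hπ : IsSm π) (K : Subgroup H)
    (hK : IsCompact (K : Set H)) (W : Submodule ℂ V) (hW : Stab π W) (x : V) (hx : x ∈ W) :
    avg π K x ∈ W := by
  obtain ⟨U, hU, hv, -⟩ := Avg_open_fix₂ π hπ x x
  obtain ⟨s, -, -, -, hs⟩ := avg_sum K hK U hU
  rw [hs V π x hv]
  exact W.smul_mem _ (W.sum_mem fun k _ => hW k x hx)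

theorem sub_avg_kerJ (π : Representation ℂ H V) (hπ : IsSm π) (K : Subgroup G)
    (hK : K ≤ D.N) (hc : IsCompact (K : Set G)) (x : V) :
    x - avg π (K.subgroupOf H) x ∈ D.kerJ π := by
  have hcH := PD.compact_subgroupOf K (hK.trans D.hN) hc
  refine (D.mem_kerJ_iff π hπ _).2 ⟨K, hK, hc, ?_⟩
  have h1 := (avgL π hπ (K.subgroupOf H) hcH).map_sub x (avg π (K.subgroupOf H) x)
  change avg π (K.subgroupOf H) _ = avg π (K.subgroupOf H) _ - avg π (K.subgroupOf H) _ at h1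
  rw [h1, avg_mono π hπ _ _ hcH hcH le_rfl, sub_self]

/-- `kerJ` and intersections of stable subspaces -/
theorem kerJ_inf (π : Representation ℂ H V) (hπ : IsSm π) (W₁ W₂ : Submodule ℂ V)
    (h₁ : Stab π W₁) (h₂ : Stab π W₂) :
    (W₁ ⊔ D.kerJ π) ⊓ (W₂ ⊔ D.kerJ π) ≤ (W₁ ⊓ W₂) ⊔ D.kerJ π := by
  rintro x ⟨hx₁, hx₂⟩
  obtain ⟨w₁, hw₁, k₁, hk₁, rfl⟩ := Submodule.mem_sup.1 hx₁
  obtain ⟨w₂, hw₂, k₂, hk₂, e⟩ := Submodule.mem_sup.1 hx₂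
  obtain ⟨K, hK, hc, hz⟩ := by
    classical
    exact D.kerJ_finset π hπ {k₁, k₂} (by simp [hk₁, hk₂])
  have hcH := PD.compact_subgroupOf K (hK.trans D.hN) hc
  have z₁ : avg π (K.subgroupOf H) k₁ = 0 := hz k₁ (by simp)
  have z₂ : avg π (K.subgroupOf H) k₂ = 0 := hz k₂ (by simp)
  have e₁ : avg π (K.subgroupOf H) (w₁ + k₁) = avg π (K.subgroupOf H) w₁ := by
    rw [avg_add π hπ _ hcH, z₁, add_zero]
  have e₂ : avg π (K.subgroupOf H) (w₁ + k₁) = avg π (K.subgroupOf H) w₂ := by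
    rw [← e, avg_add π hπ _ hcH, z₂, add_zero]
  refine Submodule.mem_sup.2 ⟨avg π (K.subgroupOf H) (w₁ + k₁), ⟨?_, ?_⟩,
    (w₁ + k₁) - avg π (K.subgroupOf H) (w₁ + k₁), sub_avg_kerJ D π hπ K hK hc _, by abel⟩
  · rw [e₁]
    exact avg_stab π hπ _ hcH W₁ h₁ w₁ hw₁
  · rw [e₂]
    exact avg_stab π hπ _ hcH W₂ h₂ w₂ hw₂

/-- exactness: elements of `t E` which lie in `kerJ` come from `E ⊓ kerJ` -/
theorem kerJ_lift {V' : Type} [AddCommGroup V'] [Module ℂ V'] (π : Representation ℂ H V)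
    (π' : Representation ℂ H V') (hπ : IsSm π) (hπ' : IsSm π')
    (t : V →ₗ[ℂ] V') (ht : Equi π π' t) (E : Submodule ℂ V) (hE : Stab π E) (x : V) (hx : x ∈ E)
    (h : t x ∈ D.kerJ π') : ∃ g ∈ E, g ∈ D.kerJ π ∧ t g = t x := by
  obtain ⟨K, hK, hc, hz⟩ := (D.mem_kerJ_iff π' hπ' _).1 h
  have hcH := PD.compact_subgroupOf K (hK.trans D.hN) hc
  refine ⟨x - avg π (K.subgroupOf H) x, E.sub_mem hx (avg_stab π hπ _ hcH E hE x hx),
    sub_avg_kerJ D π hπ K hK hc x, ?_⟩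
  rw [map_sub, avg_equi π π' hπ hπ' _ hcH t ht, hz, sub_zero]

/-- exactness for a stable subspace -/
theorem kerJ_sub (π : Representation ℂ H V) (hπ : IsSm π) (E : Submodule ℂ V) (hE : Stab π E)
    (x : E) (h : x.1 ∈ D.kerJ π) : x ∈ D.kerJ (subRep π E hE) := by
  obtain ⟨K, hK, hc, hz⟩ := (D.mem_kerJ_iff π hπ _).1 h
  have hcH := PD.compact_subgroupOf K (hK.trans D.hN) hc
  refine (D.mem_kerJ_iff _ (smooth_sub π hπ E hE) _).2 ⟨K, hK, hc, ?_⟩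
  apply Subtype.ext
  have := avg_equi (subRep π E hE) π (smooth_sub π hπ E hE) hπ _ hcH E.subtype
    (fun g v => rfl) x
  exact this.trans hz

end Ker

section Lat

variable {G : Type} [Group G] {V : Type} [AddCommGroup V] [Module ℂ V]
  (π : Representation ℂ G V)

/-- case (A): two kernels -/
structure LatA (K₁ K₂ : Submodule ℂ V) : Prop where
  d1 : ∀ W₁ W₂, Stab π W₁ → Stab π W₂ → (W₁ ⊔ K₁) ⊓ (W₂ ⊔ K₁) ≤ (W₁ ⊓ W₂) ⊔ K₁
  m1 : ∀ T : V →ₗ[ℂ] V, Equi π π T → ∀ x ∈ K₁, T x ∈ K₁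
  a : ∀ W, Stab π W → W ≠ ⊥ → W ⊔ K₁ = ⊤
  b : ∀ W, Stab π W → W ≤ K₂ ∨ W ⊔ K₂ = ⊤
  c : ∀ W₁ W₂, Stab π W₁ → Stab π W₂ → W₁ ≤ W₂ → W₂ ≤ W₁ ⊔ K₁ → W₂ ≤ W₁ ⊔ K₂ → W₂ ≤ W₁
  ne : K₁ ≠ ⊤

/-- case (B): one kernel `K`, of length two: `K ≤ N` -/
structure LatB (K N : Submodule ℂ V) : Prop where
  le : K ≤ N
  d1 : ∀ W₁ W₂, Stab π W₁ → Stab π W₂ → (W₁ ⊔ K) ⊓ (W₂ ⊔ K) ≤ (W₁ ⊓ W₂) ⊔ K
  a : ∀ W, Stab π W → W ≠ ⊥ → W ⊔ N = ⊤
  b : ∀ W, Stab π W → W ⊓ N ≤ K ∨ N ≤ W ⊔ K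
  c : ∀ W₁ W₂, Stab π W₁ → Stab π W₂ → W₁ ≤ W₂ → W₂ ≤ W₁ ⊔ K → W₂ ≤ W₁
  f : ∀ T : V →ₗ[ℂ] V, Equi π π T → ∀ x ∈ N, T x ∈ N
  ne : N ≠ ⊤
  nle : ¬ N ≤ K

theorem stab_inf {W₁ W₂ : Submodule ℂ V} (h₁ : Stab π W₁) (h₂ : Stab π W₂) :
    Stab π (W₁ ⊓ W₂) := fun g v hv => ⟨h₁ g v hv.1, h₂ g v hv.2⟩

theorem stab_sup {W₁ W₂ : Submodule ℂ V} (h₁ : Stab π W₁) (h₂ : Stab π W₂) :
    Stab π (W₁ ⊔ W₂) := by
  intro g v hv
  obtain ⟨a, ha, b, hb, rfl⟩ := Submodule.mem_sup.1 hv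
  rw [map_add]
  exact Submodule.add_mem_sup (h₁ g a ha) (h₂ g b hb)

theorem stab_top : Stab π (⊤ : Submodule ℂ V) := fun _ _ _ => Submodule.mem_top

theorem latA_le {K₁ K₂ : Submodule ℂ V} (L : LatA π K₁ K₂) (W : Submodule ℂ V) (hW : Stab π W)
    (h0 : W ≠ ⊥) (h1 : W ≠ ⊤) : W ≤ K₂ := by
  rcases L.b W hW with h | h
  · exact h
  · exact absurd (eq_top_iff.2 (L.c W ⊤ hW (stab_top π) le_top (L.a W hW h0).ge h.ge)) h1

theorem latA_uniq' {K₁ K₂ : Submodule ℂ V} (L : LatA π K₁ K₂) (W₁ W₂ : Submodule ℂ V)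
    (h₁ : Stab π W₁) (h₂ : Stab π W₂) (h10 : W₁ ≠ ⊥) (h11 : W₁ ≠ ⊤) (h20 : W₂ ≠ ⊥) :
    W₁ ≤ W₂ := by
  have h3 : W₁ ≤ W₁ ⊓ W₂ := by
    refine L.c _ _ (stab_inf π h₁ h₂) h₁ inf_le_left ?_ ?_
    · refine le_trans ?_ (L.d1 W₁ W₂ h₁ h₂)
      rw [L.a W₁ h₁ h10, L.a W₂ h₂ h20]
      simp
    · exact (latA_le π L W₁ h₁ h10 h11).trans le_sup_right
  exact h3.trans inf_le_right

theorem latA_T {K₁ K₂ : Submodule ℂ V} (L : LatA π K₁ K₂) (U : Submodule ℂ V)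
    (hU : Stab π U) (h0 : U ≠ ⊥) (T : V →ₗ[ℂ] V) (hT : Equi π π T) (hTU : ∀ u ∈ U, T u = 0) :
    T = 0 := by
  by_contra hne
  have hW : Stab π (LinearMap.range T) := by
    rintro g _ ⟨v, rfl⟩
    exact ⟨π g v, hT g v⟩
  have h1 := L.a _ hW (fun h => hne (LinearMap.range_eq_bot.1 h))
  apply L.ne
  rw [eq_top_iff, ← h1]
  refine sup_le ?_ le_rfl
  rintro _ ⟨v, rfl⟩
  have hv : v ∈ U ⊔ K₁ := by
    rw [L.a U hU h0]
    exact Submodule.mem_top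
  obtain ⟨u, hu, k, hk, rfl⟩ := Submodule.mem_sup.1 hv
  rw [map_add, hTU u hu, zero_add]
  exact L.m1 T hT k hk

theorem latB_le {K N : Submodule ℂ V} (L : LatB π K N) (W : Submodule ℂ V) (hW : Stab π W)
    (h0 : W ≠ ⊥) (h1 : W ≠ ⊤) : W ⊓ N ≤ K := by
  rcases L.b W hW with h | h
  · exact h
  · refine absurd (eq_top_iff.2 (L.c W ⊤ hW (stab_top π) le_top ?_)) h1
    rw [← L.a W hW h0]
    exact sup_le le_sup_left h

/-- a nonzero stable subspace of a stable proper subspace is equal to it -/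
theorem latB_eq {K N : Submodule ℂ V} (L : LatB π K N) (W X : Submodule ℂ V) (hW : Stab π W)
    (hX : Stab π X) (hWX : W ≤ X) (h0 : W ≠ ⊥) (h1 : X ≠ ⊤) : X ≤ W := by
  have hX0 : X ≠ ⊥ := fun h => h0 (le_bot_iff.1 (hWX.trans h.le))
  refine L.c W X hW hX hWX ?_
  intro x hx
  have hx' : x ∈ W ⊔ N := by
    rw [L.a W hW h0]
    exact Submodule.mem_top
  obtain ⟨w, hw, m, hm, rfl⟩ := Submodule.mem_sup.1 hx'
  refine Submodule.add_mem_sup hw (latB_le π L X hX hX0 h1 ⟨?_, hm⟩)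
  have := X.sub_mem hx (hWX hw)
  simpa using this

theorem latB_T {K N : Submodule ℂ V} (L : LatB π K N) (U : Submodule ℂ V)
    (hU : Stab π U) (h0 : U ≠ ⊥) (T : V →ₗ[ℂ] V) (hT : Equi π π T) (hTU : ∀ u ∈ U, T u = 0) :
    T = 0 := by
  by_contra hne
  have hW : Stab π (LinearMap.range T) := by
    rintro g _ ⟨v, rfl⟩
    exact ⟨π g v, hT g v⟩
  have h1 := L.a _ hW (fun h => hne (LinearMap.range_eq_bot.1 h))
  apply L.ne
  rw [eq_top_iff, ← h1]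
  refine sup_le ?_ le_rfl
  rintro _ ⟨v, rfl⟩
  have hv : v ∈ U ⊔ N := by
    rw [L.a U hU h0]
    exact Submodule.mem_top
  obtain ⟨u, hu, k, hk, rfl⟩ := Submodule.mem_sup.1 hv
  rw [map_add, hTU u hu, zero_add]
  exact L.f T hT k hk

theorem latB_uniq' {K N : Submodule ℂ V} (L : LatB π K N) (W₁ W₂ : Submodule ℂ V)
    (h₁ : Stab π W₁) (h₂ : Stab π W₂) (h10 : W₁ ≠ ⊥) (h11 : W₁ ≠ ⊤) (h20 : W₂ ≠ ⊥)
    (h21 : W₂ ≠ ⊤) : W₁ ≤ W₂ := by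
  by_cases hX : W₁ ⊔ W₂ = ⊤
  · by_cases hY : W₁ ⊓ W₂ = ⊥
    · exfalso
      have hc : IsCompl W₂ W₁ := ⟨disjoint_iff.2 (by rw [inf_comm]; exact hY),
        codisjoint_iff.2 (by rw [sup_comm]; exact hX)⟩
      -- the projection to `W₁` along `W₂`
      set T : V →ₗ[ℂ] V := W₁.subtype ∘ₗ W₁.projectionOnto W₂ hc.symm with hTdef
      have hT1 : ∀ x, T x ∈ W₁ := fun x => (W₁.projectionOnto W₂ hc.symm x).2
      have hT2 : ∀ x, x - T x ∈ W₂ := by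
        intro x
        have := Submodule.projectionOnto_apply_eq_zero_iff hc.symm (x := x - T x)
        rw [← this, map_sub, sub_eq_zero]
        exact (Submodule.projectionOnto_apply_left hc.symm (W₁.projectionOnto W₂ hc.symm x)).symm
      have huniq : ∀ x a b, a ∈ W₁ → b ∈ W₂ → x = a + b → T x = a := by
        rintro x a b ha hb rfl
        have e1 : T (a + b) - a ∈ W₁ := W₁.sub_mem (hT1 _) ha
        have e2 : T (a + b) - a ∈ W₂ := by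
          have := W₂.sub_mem hb (hT2 (a + b))
          have e : b - (a + b - T (a + b)) = T (a + b) - a := by abel
          rwa [e] at this
        have e3 : T (a + b) - a ∈ W₁ ⊓ W₂ := ⟨e1, e2⟩
        rw [hY] at e3
        exact sub_eq_zero.1 ((Submodule.mem_bot ℂ).1 e3)
      have hTe : Equi π π T := by
        intro g x
        refine huniq _ _ (π g (x - T x)) (h₁ g _ (hT1 x)) (h₂ g _ (hT2 x)) ?_
        rw [← map_add]
        congr 1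
        abel
      apply L.nle
      intro x hx
      have k1 : T x ∈ K := latB_le π L W₁ h₁ h10 h11 ⟨hT1 x, L.f T hTe x hx⟩
      have k2 : x - T x ∈ K :=
        latB_le π L W₂ h₂ h20 h21 ⟨hT2 x, N.sub_mem hx (L.f T hTe x hx)⟩
      have := K.add_mem k1 k2
      simpa using this
    · have := latB_eq π L (W₁ ⊓ W₂) W₁ (stab_inf π h₁ h₂) h₁ inf_le_left hY h11
      exact this.trans inf_le_right
  · exact le_sup_left.trans (latB_eq π L W₂ (W₁ ⊔ W₂) h₂ (stab_sup π h₁ h₂) le_sup_right h20 hX)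

/-- the linear algebra lemma for the operator `t` -/
theorem lin_L (K N E R : Submodule ℂ V) (t : V →ₗ[ℂ] V) (hKN : K ≤ N)
    (hN : ∀ x ∈ N, t x ∈ N) (hex : ∀ x ∈ E, t x ∈ K → ∃ g ∈ E, g ∈ K ∧ t g = t x)
    (h1 : ∀ x ∈ E, t x = 0 → x ∈ R) (h2 : ∀ x ∈ E, t x ∈ R) (h3 : ∀ x ∈ R, x ∈ N → x ∈ K) :
    ∀ x ∈ E, x ∈ N → x ∈ K := by
  intro x hx hxN
  obtain ⟨g, hg, hgK, e⟩ := hex x hx (h3 _ (h2 x hx) (hN x hxN))
  have h4 : x - g ∈ R := h1 _ (E.sub_mem hx hg) (by rw [map_sub, e, sub_self])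
  have h5 := K.add_mem (h3 _ h4 (N.sub_mem hxN (hKN hgK))) hgK
  simpa using h5

end Lat

end PC.D4
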