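import Mathlib
import Pool.Agent.Lib.MP_ca1492_al.D4.Sgn

/-!
# MP_ca1492_al, D4, TwoB: the normalised induced representation, basic facts

`nsg s ρ` is a twist of `ρ` by a character which is trivial on the unipotent elements.
* `evS_surj`: `eval_surj`.
* `nsg_irr`: a subspace is stable under `twist χ ρ` iff it is stable under `ρ`.
* `nsg_cusp`: `dlh = 1` on the elements of `uni F (blk n d) o` (every element of `uni` lies in a compact
  subgroup `K` of `lev F (blk n d)` by `PD.exh`; `dlh` is a positive real valued character with open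
  kernel (`dlh_open`), so it is trivial on compact subgroups; or `dlh_vl` and `vl_uni`), so the
  spanning vectors of `kerJ` are the same for `ρ` and for the twist.
* `nsg_adm`: `fix (twist χ ρ) K ≤ fix ρ (K ⊓ ker χ)`, `dlh_open`.
* `evS_irr`: the image of a stable subspace under `evS` is stable under `nsg s ρ` (`evS_equi`), and
  nonzero if `U ≠ ⊥` (`evS_zero` with `A` the inclusion of the subrepresentation).
-/

open Topology Pool.Agent.Lib.MP_ca1492_al.P

namespace PC.D4

noncomputable section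

variable {F : Type} [Field F] [ValuativeRel F] [TopologicalSpace F]
  [IsNonarchimedeanLocalField F]
variable {n d : ℕ} {W : Type} [AddCommGroup W] [Module ℂ W]

theorem evS_surj (s : Bool) (ρ : Representation ℂ (lev F (blk n d)) W) (hρ : IsSm ρ) :
    Function.Surjective (evS s ρ) := by
  intro e
  obtain ⟨f, hf⟩ := eval_surj (one n) (blk n d) (odS n d s) (blkS_iff n d s) (nsg s ρ)
    (nsg_smooth s ρ hρ) e
  exact ⟨f, hf⟩

theorem TwoB_stab {G : Type} [Group G] {V : Type} [AddCommGroup V] [Module ℂ V] (χ : G →* ℂˣ)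
    (π : Representation ℂ G V) (U : Submodule ℂ V) (h : Stab (twist χ π) U) : Stab π U := by
  intro g v hv
  have h1 : (χ g : ℂ) • π g v ∈ U := h g v hv
  have h2 := U.smul_mem ((χ g : ℂ)⁻¹) h1
  rwa [smul_smul, inv_mul_cancel₀ (Units.ne_zero _), one_smul] at h2

theorem nsg_irr (s : Bool) (ρ : Representation ℂ (lev F (blk n d)) W) (hi : Irr ρ) :
    Irr (nsg s ρ) :=
  ⟨hi.1, fun U hU => hi.2 U (TwoB_stab _ ρ U hU)⟩

/-- the normalising character is trivial on unipotent elements -/
theorem TwoB_dlh_uni (s : Bool) (o : Fin n → ℤ) (g : GL (Fin n) F)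
    (hg : g ∈ uni F (blk n d) o) (hm : g ∈ lev F (blk n d)) :
    dlh (blk n d) (one n) (odS n d s) (blkS_iff n d s) ⟨g, hm⟩ = 1 := by
  classical
  set e : Bool → ℤ := fun b => if h : ∃ i, blk n d i = b then
    dg (patO (one n) (odS n d s)) h.choose else 0 with he'
  have he : ∀ i, e (blk n d i) = dg (patO (one n) (odS n d s)) i := by
    intro i
    have h : ∃ j, blk n d j = blk n d i := ⟨i, rfl⟩
    have h1 : e (blk n d i) = dg (patO (one n) (odS n d s)) h.choose := dif_pos h
    have h2 : odS n d s h.choose = odS n d s i := ((blkS_iff n d s _ _).1 h.choose_spec).2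
    rw [h1]
    unfold dg
    have h3 : (Finset.univ.filter fun j => (patO (one n) (odS n d s)).r h.choose j) =
        Finset.univ.filter fun j => (patO (one n) (odS n d s)).r i j := by
      refine Finset.filter_congr fun j _ => ?_
      show (one n h.choose = one n j ∧ odS n d s h.choose < odS n d s j) ↔
        (one n i = one n j ∧ odS n d s i < odS n d s j)
      rw [h2]
    have h4 : (Finset.univ.filter fun j => (patO (one n) (odS n d s)).r j h.choose) =
        Finset.univ.filter fun j => (patO (one n) (odS n d s)).r j i := by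
      refine Finset.filter_congr fun j _ => ?_
      show (one n j = one n h.choose ∧ odS n d s j < odS n d s h.choose) ↔
        (one n j = one n i ∧ odS n d s j < odS n d s i)
      rw [h2]
    rw [h3, h4]
  apply Units.ext
  rw [dlh_vl (blk n d) (one n) (odS n d s) (blkS_iff n d s) e he ⟨g, hm⟩]
  have h5 : ∑ x ∈ Finset.univ.image (blk n d), e x * vl (blk n d) g x = 0 :=
    Finset.sum_eq_zero fun x _ => by rw [vl_uni (blk n d) o g hg x, mul_zero]
  show (((qF F : ℝ) ^ (((- ∑ x ∈ Finset.univ.image (blk n d), e x * vl (blk n d) g x : ℤ) : ℝ)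
    / 2) : ℝ) : ℂ) = 1
  rw [h5]
  simp

theorem nsg_cusp (s : Bool) (ρ : Representation ℂ (lev F (blk n d)) W) (hc : Cusp (blk n d) ρ) :
    Cusp (blk n d) (nsg s ρ) := by
  intro o ho
  rw [← top_le_iff, ← hc o ho]
  refine Submodule.span_le.2 ?_
  rintro x ⟨u, hu, v, rfl⟩
  refine Submodule.subset_span ⟨u, hu, v, ?_⟩
  have h1 : dlh (blk n d) (one n) (odS n d s) (blkS_iff n d s)
      ⟨u, (stdD F (blk n d) o).hN hu⟩ = 1 := TwoB_dlh_uni s o u hu _
  show _ = ((dlh (blk n d) (one n) (odS n d s) (blkS_iff n d s)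
      ⟨u, (stdD F (blk n d) o).hN hu⟩ : ℂ) • ρ ⟨u, (stdD F (blk n d) o).hN hu⟩ v) - v
  rw [h1, Units.val_one, one_smul]

theorem nsg_adm (s : Bool) (ρ : Representation ℂ (lev F (blk n d)) W) (ha : Adm ρ) :
    Adm (nsg s ρ) := by
  intro K hK
  have h1 : IsOpen (((K ⊓ (dlh (F := F) (blk n d) (one n) (odS n d s)
      (blkS_iff n d s)).ker : Subgroup (lev F (blk n d)))) : Set (lev F (blk n d))) :=
    hK.inter (dlh_open _ _ _ _)
  haveI := ha _ h1
  refine Submodule.finiteDimensional_of_le (S₂ := fix ρ (K ⊓ (dlh (F := F) (blk n d) (one n)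
    (odS n d s) (blkS_iff n d s)).ker)) ?_
  intro v hv k hk
  have h2 : (dlh (blk n d) (one n) (odS n d s) (blkS_iff n d s) k : ℂ) • ρ k v = v := hv k hk.1
  have h3 : dlh (blk n d) (one n) (odS n d s) (blkS_iff n d s) k = 1 := hk.2
  rwa [h3, Units.val_one, one_smul] at h2

theorem evS_irr (s : Bool) (ρ : Representation ℂ (lev F (blk n d)) W) (hi : Irr ρ)
    (U : Submodule ℂ (XnS s ρ)) (hU : Stab (InS s ρ) U) (h0 : U ≠ ⊥) (e : W) :
    ∃ f ∈ U, evS s ρ f = e := by
  have hst : Stab (nsg s ρ) (U.map (evS s ρ)) := by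
    rintro m _ ⟨f, hf, rfl⟩
    rw [← evS_equi]
    exact ⟨_, hU _ f hf, rfl⟩
  rcases (nsg_irr s ρ hi).2 _ hst with h | h
  · exfalso
    apply h0
    rw [eq_bot_iff]
    intro f hf
    have hA : Equi (V := ↥U) (subRep (InS s ρ) U hU) (InS s ρ) U.subtype := by
      intro g v
      rfl
    have h1 := evS_zero (V := ↥U) s ρ (subRep (InS s ρ) U hU) U.subtype hA ⟨f, hf⟩ (by
      intro g
      have h2 : evS s ρ (U.subtype ((subRep (InS s ρ) U hU) g ⟨f, hf⟩)) ∈ U.map (evS s ρ) :=
        ⟨_, (subRep (InS s ρ) U hU g ⟨f, hf⟩).2, rfl⟩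
      rw [h] at h2
      exact (Submodule.mem_bot ℂ).1 h2)
    exact (Submodule.mem_bot ℂ).2 h1
  · have h1 : e ∈ U.map (evS s ρ) := by
      rw [h]
      exact Submodule.mem_top
    obtain ⟨f, hf, hfe⟩ := h1
    exact ⟨f, hf, hfe⟩

end

end PC.D4
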