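import Mathlib
import Pool.Agent.Lib.MP_ca1492_al.D4.Lat
import Pool.Agent.Lib.MP_ca1492_al.D4.TwoB
import Pool.Agent.Lib.MP_ca1492_al.P.FaithB

/-!
# MP_ca1492_al, D4, TwoC: faithfulness

`faith_X`: `W₁ ≤ W₂` stable, `W₂ ≤ W₁ ⊔ kerJ` for both orders. Apply `faith_jac` (`P/FaithB.lean`) with
`X₁ = W₂`, `π` = the quotient `quoRep` of `subRep W₂` by `W₁.comap W₂.subtype`, `p = mkQ`. If
`W₂ ≤ W₁` fails the quotient is not zero, so there is an order `o` with `kerJ_o (quotient) ≠ ⊤`. The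
condition `h` says that `o` takes a value `a` on `[0, d)` and a value `b ≠ a` on `[d, n)`; so
`uni F (one n) o = uni F (one n) (odS n d s')` with `s' = decide (a < b)`, hence the kernels for `o`
and for `DS s'` are equal (`kerJ` depends only on the subgroup `N`). But `kerJ_{s'}(quotient) = ⊤`: for
`x ∈ W₂`, `x = w + k`, `w ∈ W₁`, `k = x - w ∈ W₂ ⊓ kerJ`, so `k ∈ kerJ (subRep W₂)` (`kerJ_sub` in
`D4/Lat.lean`) and the image of `k` lies in `kerJ (quotient)` (`PD.kerJ_map`).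
-/

open Topology Pool.Agent.Lib.MP_ca1492_al.P

namespace PC.D4

noncomputable section

variable {F : Type} [Field F] [ValuativeRel F] [TopologicalSpace F]
  [IsNonarchimedeanLocalField F]
variable {n d : ℕ} {W : Type} [AddCommGroup W] [Module ℂ W]

/-- two orders with the same comparisons have the same unipotent group -/
theorem TwoC_uni_le (o o' : Fin n → ℤ) (he : ∀ i j, o' i = o' j → o i = o j)
    (hl : ∀ i j, o' j < o' i → o j < o i) : uni F (one n) o ≤ uni F (one n) o' := by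
  intro g hg
  exact ⟨⟨hg.1.1, fun i j hij => hg.1.2 i j (hl i j hij)⟩, fun i j hij => hg.2 i j (he i j hij)⟩

theorem TwoC_uni (hd1 : 1 ≤ d) (hd : d < n) (o : Fin n → ℤ)
    (h : ∀ i j, blk n d i = blk n d j ↔ one n i = one n j ∧ o i = o j) :
    ∃ s' : Bool, uni F (one n) o = uni F (one n) (odS n d s') := by
  have hn : 0 < n := by omega
  -- the two values
  obtain ⟨a, b, hab, hv⟩ : ∃ a b : ℤ, a ≠ b ∧ ∀ i : Fin n, o i = if i.1 < d then a else b := by
    refine ⟨o ⟨0, hn⟩, o ⟨d, hd⟩, ?_, fun i => ?_⟩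
    · intro he
      have := (h ⟨0, hn⟩ ⟨d, hd⟩).2 ⟨rfl, he⟩
      simp [blk] at this
      omega
    · split_ifs with hi
      · refine ((h i ⟨0, hn⟩).1 ?_).2
        have h0 : (0 : ℕ) < d := by omega
        simp [blk, hi, h0]
      · refine ((h i ⟨d, hd⟩).1 ?_).2
        simp [blk, hi]
  have key : ∀ s' : Bool, (∀ i j, o j < o i ↔ odS n d s' j < odS n d s' i) →
      uni F (one n) o = uni F (one n) (odS n d s') := by
    intro s' hlt
    have heq : ∀ i j, o i = o j ↔ odS n d s' i = odS n d s' j := by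
      intro i j
      have h1 := h i j
      have h2 := blkS_iff n d s' i j
      constructor
      · intro hij
        exact (h2.1 (h1.2 ⟨rfl, hij⟩)).2
      · intro hij
        exact (h1.1 (h2.2 ⟨rfl, hij⟩)).2
    exact le_antisymm (TwoC_uni_le o _ (fun i j => (heq i j).2) (fun i j => (hlt i j).2))
      (TwoC_uni_le _ o (fun i j => (heq i j).1) (fun i j => (hlt i j).1))
  rcases lt_or_gt_of_ne hab with hlt | hlt
  · refine ⟨true, key true fun i j => ?_⟩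
    rw [hv i, hv j]
    by_cases hi : i.1 < d <;> by_cases hj : j.1 < d <;> simp [odS, od, hi, hj] <;> omega
  · refine ⟨false, key false fun i j => ?_⟩
    rw [hv i, hv j]
    by_cases hi : i.1 < d <;> by_cases hj : j.1 < d <;> simp [odS, od, hi, hj] <;> omega

/-- `kerJ` depends only on the unipotent group -/
theorem TwoC_kerJ {G : Type} [Group G] [TopologicalSpace G] {H M : Subgroup G} (D D' : PD H M)
    {V : Type} [AddCommGroup V] [Module ℂ V] (π : Representation ℂ H V) (h : D.N = D'.N) :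
    D'.kerJ π ≤ D.kerJ π := by
  unfold PD.kerJ
  rw [Submodule.span_le]
  rintro x ⟨u, hu, v, rfl⟩
  exact Submodule.subset_span ⟨u, by rw [h]; exact hu, v, rfl⟩

theorem TwoC_gen {G : Type} [Group G] [TopologicalSpace G] [IsTopologicalGroup G]
    {H M : Subgroup G} {V : Type} [AddCommGroup V] [Module ℂ V] (D : Bool → PD H M)
    (π : Representation ℂ H V) (hπ : IsSm π) (W₁ W₂ : Submodule ℂ V) (h₁ : Stab π W₁)
    (h₂ : Stab π W₂) (h12 : W₁ ≤ W₂) (hT : ∀ s', W₂ ≤ W₁ ⊔ (D s').kerJ π)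
    (hf : ∀ (Q : Type) [AddCommGroup Q] [Module ℂ Q] (τ : Representation ℂ H Q)
      (p : W₂ →ₗ[ℂ] Q), Equi (subRep π W₂ h₂) τ p → Function.Surjective p → (∃ v : Q, v ≠ 0) →
      ∃ s', (D s').kerJ τ ≠ ⊤) : W₂ ≤ W₁ := by
  by_contra hne
  have hU : Stab (subRep π W₂ h₂) (W₁.comap W₂.subtype) := by
    intro g x hx
    exact h₁ g x.1 hx
  obtain ⟨x, hx2, hx1⟩ := SetLike.not_le_iff_exists.1 hne
  obtain ⟨s', hk⟩ := hf (W₂ ⧸ W₁.comap W₂.subtype)
    (quoRep (subRep π W₂ h₂) (W₁.comap W₂.subtype) hU) (W₁.comap W₂.subtype).mkQ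
    (fun g x => rfl) (Submodule.mkQ_surjective _)
    ⟨Submodule.Quotient.mk ⟨x, hx2⟩, fun h0 => hx1
      ((Submodule.Quotient.mk_eq_zero (W₁.comap W₂.subtype)).1 h0)⟩
  apply hk
  rw [eq_top_iff]
  rintro y -
  obtain ⟨⟨z, hz⟩, rfl⟩ := Submodule.Quotient.mk_surjective _ y
  obtain ⟨w, hw, k, hkk, e⟩ := Submodule.mem_sup.1 (hT s' hz)
  have hk2 : k ∈ W₂ := by
    have := W₂.sub_mem hz (h12 hw)
    rw [← e] at this
    simpa using this
  have h3 := kerJ_sub (D s') π hπ W₂ h₂ ⟨k, hk2⟩ hkk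
  have h4 := PD.kerJ_map (D s') (subRep π W₂ h₂)
    (quoRep (subRep π W₂ h₂) (W₁.comap W₂.subtype) hU) (W₁.comap W₂.subtype).mkQ
    (fun g x => rfl) h3
  have h5 : (Submodule.Quotient.mk (⟨z, hz⟩ : W₂) : W₂ ⧸ W₁.comap W₂.subtype) =
      (W₁.comap W₂.subtype).mkQ ⟨k, hk2⟩ := by
    rw [Submodule.mkQ_apply, Submodule.Quotient.eq]
    show z - k ∈ W₁
    rw [← e]
    simpa using hw
  rw [h5]
  exact h4

theorem faith_X (hd1 : 1 ≤ d) (hd : d < n) (s : Bool)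
    (ρ : Representation ℂ (lev F (blk n d)) W) (hρ : IsSm ρ) (hc : Cusp (blk n d) ρ)
    (W₁ W₂ : Submodule ℂ (XnS s ρ)) (h₁ : Stab (InS s ρ) W₁) (h₂ : Stab (InS s ρ) W₂)
    (h12 : W₁ ≤ W₂) (hT : ∀ s', W₂ ≤ W₁ ⊔ (DS F n d s').kerJ (InS s ρ)) : W₂ ≤ W₁ := by
  refine TwoC_gen (DS F n d) (InS s ρ) (PD.ind_smooth (DS F n d s) (nsg s ρ)) W₁ W₂ h₁ h₂ h12 hT
    fun Q _ _ τ p hp hps hQ => ?_
  obtain ⟨o, h, hk⟩ := faith_jac (one n) (blk n d) (odS n d s) (blkS_iff n d s) (nsg s ρ)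
    (nsg_smooth s ρ hρ) (nsg_cusp s ρ hc) W₂ h₂ τ p hp hps hQ
  obtain ⟨s', hs'⟩ := TwoC_uni (F := F) hd1 hd o h
  refine ⟨s', fun ht => hk ?_⟩
  rw [eq_top_iff, ← ht]
  exact TwoC_kerJ (parD (blk n d) (one n) o h) (DS F n d s') _ hs'

end

end PC.D4
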