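import Mathlib
import Pool.Agent.Lib.MP_ca1492_al.D4.TwoC

/-!
# MP_ca1492_al, D4, TwoD: the lattice facts for `n ≠ 2 d`

No swap exists if `n ≠ 2 d` (a swap maps the block `[0, d)` bijectively to `[d, n)`: cardinalities).
`K₁ = kerJ_s = ker evS` by `two_same` (`P/CTwo.lean`, `x₀ = ()`, `TwoB (one n) (blk n d) ()` is clear since
`Bool` has two elements; `σ = nsg s ρ`), `K₂ = kerJ_{!s}`. `d1`: `kerJ_inf`; `m1`: `PD.kerJ_map`; `a`:
`evS_irr`; `b`: `two_opp` for the order `o = odS n d s`, the map `Λ` with kernel `K₂` (use `odS_not`;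
`kerJ` depends only on the subgroup `uni`); the image of `W` under `Λ` is stable under `σ` since
`cfac ≠ 0` (if `cfac m = 0` then `Λ (Ind σ m f) = 0` for all `f`, `Ind σ m` is onto, so `Λ = 0`, but `Λ` is
onto and the space of `ρ` is not `0`); so it is `⊥` or `⊤` by irreducibility. `c`: `faith_X`. `ne`:
`evS_surj`.
-/

open Topology Pool.Agent.Lib.MP_ca1492_al.P

namespace PC.D4

noncomputable section

variable {F : Type} [Field F] [ValuativeRel F] [TopologicalSpace F]
  [IsNonarchimedeanLocalField F]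
variable {n d : ℕ} {W : Type} [AddCommGroup W] [Module ℂ W]

theorem TwoD_twoB (n d : ℕ) : TwoB (one n) (blk n d) () where
  one _ _ _ h := absurd rfl h
  two i j k _ _ _ := by
    cases blk n d i <;> cases blk n d j <;> cases blk n d k <;> simp

/-- no swap for `n ≠ 2 d` -/
theorem TwoD_noswap (hd : d < n) (hn : n ≠ d + d) (w : Equiv.Perm (Fin n)) :
    ¬ IsSwap (one n) (blk n d) w := by
  intro hw
  -- `w` exchanges the two classes
  have h1 : ∀ i j : Fin n, blk n d i ≠ blk n d j → blk n d (w i) = blk n d j :=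
    fun i j hij => CTwo_swap (one n) (blk n d) () (TwoD_twoB n d) w hw i j rfl hij
  have h2 : ∀ i : Fin n, blk n d (w i) ≠ blk n d i := by
    obtain ⟨l, hl⟩ := hw.ne
    intro i hi
    by_cases hil : blk n d i = blk n d l
    · exact hl ((((hw.hc i l).2 hil).symm.trans hi).trans hil)
    · exact hil (hi.symm.trans (h1 i l hil))
  have h3 : ∀ i : Fin n, (w i).1 < d ↔ ¬ i.1 < d := by
    intro i
    have h4 := h2 i
    by_cases ha : (w i).1 < d <;> by_cases hb : i.1 < d <;> simp_all [blk]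
  have h5 : (Finset.univ.filter fun i : Fin n => i.1 < d).card =
      (Finset.univ.filter fun i : Fin n => ¬ i.1 < d).card := by
    refine Finset.card_bij (fun i _ => w.symm i) ?_ ?_ ?_
    · intro i hi
      rw [Finset.mem_filter] at hi ⊢
      refine ⟨Finset.mem_univ _, ?_⟩
      rw [← h3, Equiv.apply_symm_apply]
      exact hi.2
    · intro i _ j _ hij
      exact w.symm.injective hij
    · intro i hi
      rw [Finset.mem_filter] at hi
      exact ⟨w i, Finset.mem_filter.2 ⟨Finset.mem_univ _, (h3 i).2 hi.2⟩,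
        Equiv.symm_apply_apply w i⟩
  have h6 : (Finset.univ.filter fun i : Fin n => i.1 < d).card +
      (Finset.univ.filter fun i : Fin n => ¬ i.1 < d).card = n := by
    rw [Finset.card_filter_add_card_filter_not, Finset.card_univ, Fintype.card_fin]
  have h7 : (Finset.univ.filter fun i : Fin n => i.1 < d).card = d := by
    rw [Fin.card_filter_val_lt]
    omega
  omega

/-- `kerJ` depends only on the subgroup `N` -/
theorem TwoD_kerJ_congr {G : Type} [Group G] [TopologicalSpace G] {H M : Subgroup G}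
    {V : Type} [AddCommGroup V] [Module ℂ V] (D D' : PD H M) (h : D.N = D'.N)
    (π : Representation ℂ H V) : D.kerJ π = D'.kerJ π := by
  unfold PD.kerJ
  congr 1
  ext x
  constructor
  · rintro ⟨u, hu, v, rfl⟩
    exact ⟨u, h ▸ hu, v, rfl⟩
  · rintro ⟨u, hu, v, rfl⟩
    exact ⟨u, h ▸ hu, v, rfl⟩

theorem TwoD_opp_iff (n d : ℕ) (s : Bool) (i j : Fin n) :
    blk n d i = blk n d j ↔ one n i = one n j ∧
      (fun i => - odS n d s i) i = (fun i => - odS n d s i) j := by
  rw [odS_not]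
  exact blkS_iff n d (!s) i j

theorem TwoD_kerJ_opp {V : Type} [AddCommGroup V] [Module ℂ V] (s : Bool)
    (π : Representation ℂ (lev F (one n)) V) :
    (parD (F := F) (blk n d) (one n) (fun i => - odS n d s i) (TwoD_opp_iff n d s)).kerJ π =
      (DS F n d (!s)).kerJ π := by
  refine TwoD_kerJ_congr _ _ ?_ π
  show uni F (one n) (fun i => - odS n d s i) = uni F (one n) (odS n d (!s))
  rw [odS_not]

/-- the map for the opposite order -/
theorem TwoD_opp (hd : d < n) (hn : n ≠ d + d) (s : Bool)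
    (ρ : Representation ℂ (lev F (blk n d)) W) (hρ : IsSm ρ) (hc : Cusp (blk n d) ρ) :
    ∃ Λ : XnS s ρ →ₗ[ℂ] W, Function.Surjective Λ ∧
      (∀ f, Λ f = 0 ↔ f ∈ (DS F n d (!s)).kerJ (InS s ρ)) ∧
      ∀ m : lev F (blk n d), ∃ q : ℂ, ∀ f,
        Λ (InS s ρ ⟨m.1, (DS F n d s).hM m.2⟩ f) = q • nsg s ρ m (Λ f) := by
  obtain ⟨Λ, hΛs, hΛk, hΛe, -⟩ := two_opp (one n) (blk n d) () (TwoD_twoB n d) (odS n d s)
    (blkS_iff n d s) (TwoD_opp_iff n d s) (nsg s ρ) (nsg_smooth s ρ hρ) (nsg_cusp s ρ hc)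
    (TwoD_noswap hd hn)
  rw [TwoD_kerJ_opp] at hΛk
  exact ⟨Λ, hΛs, hΛk, fun m => ⟨_, fun f => hΛe f ⟨m.1, (DS F n d s).hM m.2⟩ m.2⟩⟩

theorem latA_X (hd1 : 1 ≤ d) (hd : d < n) (hn : n ≠ d + d) (s : Bool)
    (ρ : Representation ℂ (lev F (blk n d)) W) (hρ : IsSm ρ) (hi : Irr ρ)
    (hc : Cusp (blk n d) ρ) :
    LatA (InS s ρ) ((DS F n d s).kerJ (InS s ρ)) ((DS F n d (!s)).kerJ (InS s ρ)) := by
  have hsm : IsSm (nsg s ρ) := nsg_smooth s ρ hρ
  have hcu : Cusp (blk n d) (nsg s ρ) := nsg_cusp s ρ hc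
  have hir : Irr (nsg s ρ) := nsg_irr s ρ hi
  have hsI : IsSm (InS s ρ) := PD.ind_smooth _ _
  have hno : ∀ w : Equiv.Perm (Fin n), ¬ IsSwap (one n) (blk n d) w :=
    TwoD_noswap hd hn
  have hsame : ∀ f : XnS s ρ, f ∈ (DS F n d s).kerJ (InS s ρ) ↔ evS s ρ f = 0 := fun f =>
    two_same (one n) (blk n d) () (TwoD_twoB n d) (odS n d s) (blkS_iff n d s) (nsg s ρ)
      hsm hcu hno f
  obtain ⟨Λ, hΛs, hΛk, hΛe⟩ := TwoD_opp hd hn s ρ hρ hc
  refine ⟨kerJ_inf (DS F n d s) (InS s ρ) hsI,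
    fun T hT x hx => (DS F n d s).kerJ_map _ _ T hT hx, ?_, ?_, ?_, ?_⟩
  · -- `a`
    intro U hU h0
    rw [eq_top_iff]
    intro x _
    obtain ⟨f, hf, he⟩ := evS_irr s ρ hi U hU h0 (evS s ρ x)
    have h1 : x - f ∈ (DS F n d s).kerJ (InS s ρ) := by
      rw [hsame, map_sub, he, sub_self]
    have h2 := Submodule.add_mem_sup hf h1
    rwa [add_sub_cancel] at h2
  · -- `b`
    intro U hU
    have hst : Stab (nsg s ρ) (U.map Λ) := by
      rintro m _ ⟨f, hf, rfl⟩
      obtain ⟨q, hq⟩ := hΛe m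
      have hq0 : q ≠ 0 := by
        rintro rfl
        obtain ⟨⟨v, hv⟩, -⟩ := hir
        obtain ⟨g, rfl⟩ := hΛs v
        have h2 := hq (InS s ρ ⟨m.1, (DS F n d s).hM m.2⟩⁻¹ g)
        rw [zero_smul] at h2
        apply hv
        refine Eq.trans ?_ h2
        rw [← Module.End.mul_apply, ← map_mul, mul_inv_cancel, map_one, Module.End.one_apply]
      have h3 : nsg s ρ m (Λ f) = q⁻¹ • Λ (InS s ρ ⟨m.1, (DS F n d s).hM m.2⟩ f) := by
        rw [hq, smul_smul, inv_mul_cancel₀ hq0, one_smul]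
      rw [h3]
      exact Submodule.smul_mem _ _ ⟨_, hU _ f hf, rfl⟩
    rcases hir.2 _ hst with h | h
    · left
      intro f hf
      rw [← hΛk]
      exact (Submodule.mem_bot ℂ).1 (h ▸ Submodule.mem_map_of_mem hf)
    · right
      rw [eq_top_iff]
      intro x _
      have hx : Λ x ∈ U.map Λ := by
        rw [h]
        exact Submodule.mem_top
      obtain ⟨f, hf, he⟩ := hx
      have h1 : x - f ∈ (DS F n d (!s)).kerJ (InS s ρ) := by
        rw [← hΛk, map_sub, he, sub_self]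
      have h2 := Submodule.add_mem_sup hf h1
      rwa [add_sub_cancel] at h2
  · -- `c`
    intro W₁ W₂ h₁ h₂ h12 hk1 hk2
    refine faith_X hd1 hd s ρ hρ hc W₁ W₂ h₁ h₂ h12 fun s' => ?_
    by_cases hs : s' = s
    · rw [hs]
      exact hk1
    · have : s' = !s := by
        cases s <;> cases s' <;> simp_all
      rw [this]
      exact hk2
  · -- `ne`
    intro h
    obtain ⟨⟨v, hv⟩, -⟩ := hi
    obtain ⟨f, hf⟩ := evS_surj s ρ hρ v
    apply hv
    rw [← hf, ← hsame, h]
    exact Submodule.mem_top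

end

end PC.D4
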