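import Mathlib
import Pool.Agent.Lib.MP_ca1492_al.P.Loc

/-!
# MP_ca1492_al, D4, DPDefs: definitions for the derived pairings

`lat F m`, `ordF`, `qF`, `Kc` are those of `P/Loc.lean`, `P/Cong.lean`: `lat F 0` is the ring of
integers, `lat F m` is decreasing in `m`.

All subgroups live inside one `GL (Fin n) F`; they are described by conditions on the entries.
The index `m` (`1 ≤ m ≤ n`) is the size of the upper left block (`m = n - k` for the `k`-th
derivative).
* `UU n m`: upper unitriangular matrices which differ from `1` only in the columns `j ≥ m`;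
* `psi ψ n m u = ψ (sum of u (j-1) j over j ≥ m)`;
* `PP n m`: `diag(p, 1)` with `p` of size `m` with last row `(0 .. 0 1)`;
* `GG n m`: `diag(g, 1)` with `g` of size `m`.
-/

open Topology Matrix ValuativeRel

set_option linter.unusedSectionVars false

namespace PC.DP

open Pool.Agent.Lib.MP_ca1492_al.P

variable (F : Type) [Field F] [ValuativeRel F] [TopologicalSpace F] [IsNonarchimedeanLocalField F]
variable (ι : Type) [Fintype ι]

/-! ## lattices, index, norm -/

/-- the lattice of the vectors with all coordinates in `lat F m` -/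
def Lat (m : ℤ) : AddSubgroup (ι → F) where
  carrier := {x | ∀ i, x i ∈ lat F m}
  zero_mem' := fun _ => (lat F m).zero_mem
  add_mem' := fun hx hy i => (lat F m).add_mem (hx i) (hy i)
  neg_mem' := fun hx i => (lat F m).neg_mem (hx i)

/-- the index of two consecutive lattices (it is `qF ^ card ι`, but we do not need it) -/
noncomputable def QQ : ℕ := (Lat F ι 1).relIndex (Lat F ι 0)

open Classical in
/-- the normalised absolute value -/
noncomputable def nrm (x : F) : ℝ := if x = 0 then 0 else (qF F : ℝ) ^ (-ordF F x)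

variable {F ι}

theorem mem_Lat {m : ℤ} {x : ι → F} : x ∈ Lat F ι m ↔ ∀ i, x i ∈ lat F m := Iff.rfl

/-! ## the integral over compact open subgroups of `ι → F` -/

section Integral

variable {W : Type*} [AddCommGroup W] [Module ℂ W]

/-- `f` is invariant under `Lat m` on `L` -/
def Inv (m : ℤ) (L : AddSubgroup (ι → F)) (f : (ι → F) → W) : Prop :=
  ∀ x ∈ L, ∀ y ∈ Lat F ι m, f (x + y) = f x

/-- `f` is uniformly locally constant on `L` -/
def LCo (L : AddSubgroup (ι → F)) (f : (ι → F) → W) : Prop := ∃ m, Inv m L f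

/-- `L` is compact and open -/
def Cp (L : AddSubgroup (ι → F)) : Prop := ∃ m m', Lat F ι m ≤ L ∧ L ≤ Lat F ι m'

/-- `R` is a system of representatives of `L / Lat m` -/
def Rep (m : ℤ) (L : AddSubgroup (ι → F)) (R : Finset (ι → F)) : Prop :=
  (∀ r ∈ R, r ∈ L) ∧ ∀ x ∈ L, ∃! r, r ∈ R ∧ x - r ∈ Lat F ι m

open Classical in
/-- the integral of `f` over `L`, normalised by `vol (Lat 0) = 1`: the value of
`QQ ^ (-m) * ∑ r ∈ L / Lat m, f r` for any `m` with `Lat m ≤ L` such that `f` is invariant under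
`Lat m` on `L` -/
noncomputable def I (L : AddSubgroup (ι → F)) (f : (ι → F) → W) : W :=
  if h : ∃ w : W, ∃ m : ℤ, Lat F ι m ≤ L ∧ Inv m L f ∧ ∃ R : Finset (ι → F), Rep m L R ∧
    w = ((QQ F ι : ℂ) ^ (-m)) • ∑ r ∈ R, f r then h.choose else 0

end Integral

/-! ## characters and the stable integral -/

/-- an additive character which is trivial on the integers, but not on the next lattice -/
structure Std (ψ : AddChar F ℂ) : Prop where
  triv : ∀ x ∈ lat F 0, ψ x = 1
  ntriv : ∃ x ∈ lat F (-1), ψ x ≠ 1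

/-- `φ` is uniformly locally constant and invariant under the maps `x ↦ x + (w ⬝ᵥ x) • u`,
`u ∈ Lat 0` and `w ∈ Lat r` -/
def Gd (r : ℤ) (φ : (ι → F) → ℂ) : Prop :=
  LCo ⊤ φ ∧ ∀ u ∈ Lat F ι 0, ∀ w ∈ Lat F ι r, ∀ x, φ (x + (w ⬝ᵥ x) • u) = φ x

/-- the function `x ↦ ψ (x e)⁻¹ * φ x` -/
noncomputable def tw (ψ : AddChar F ℂ) (e : ι) (φ : (ι → F) → ℂ) : (ι → F) → ℂ :=
  fun x => (ψ (x e))⁻¹ * φ x

open Classical in
/-- the stable integral of `ψ (x e)⁻¹ * φ x` over `ι → F`: the value of the integral over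
`Lat (-j)` for all large `j` -/
noncomputable def SI (ψ : AddChar F ℂ) (e : ι) (φ : (ι → F) → ℂ) : ℂ :=
  if h : ∃ w : ℂ, ∃ r : ℤ, ∀ j, r ≤ j → I (Lat F ι (-j)) (tw ψ e φ) = w then h.choose else 0

/-! ## subgroups of `GL (Fin n) F` -/

variable (F) in
/-- `diag(g, 1)` with `g` of size `m` -/
def GG (n m : ℕ) : Set (GL (Fin n) F) :=
  {p | ∀ i j : Fin n, (m ≤ i.val ∨ m ≤ j.val) → p.val i j = (1 : Matrix (Fin n) (Fin n) F) i j}

variable (F) in
/-- `diag(p, 1)` with `p` of size `m` and last row `(0 .. 0 1)` -/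
def PP (n m : ℕ) : Set (GL (Fin n) F) :=
  {p | ∀ i j : Fin n, (m ≤ i.val + 1 ∨ m ≤ j.val) →
    p.val i j = (1 : Matrix (Fin n) (Fin n) F) i j}

variable (F) in
/-- upper unitriangular matrices, nontrivial only in the columns `j ≥ m` -/
def UU (n m : ℕ) : Set (GL (Fin n) F) :=
  {u | ∀ i j : Fin n, (j ≤ i ∨ j.val < m) → u.val i j = (1 : Matrix (Fin n) (Fin n) F) i j}

/-- `ψ (sum of the entries u (j-1) j with j ≥ m)` -/
noncomputable def psi (ψ : AddChar F ℂ) (n m : ℕ) (u : GL (Fin n) F) : ℂ :=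
  ψ (∑ i : Fin n, ∑ j : Fin n, if i.val + 1 = j.val ∧ m ≤ j.val then u.val i j else 0)

/-- the index type of the column group number `m` (0-based): the rows `i < m` -/
abbrev Ix (n m : ℕ) : Type := {i : Fin n // i.val < m}

/-- the matrix `1 + (column x above the diagonal in column m)` -/
def colM (n m : ℕ) (x : Ix n m → F) : Matrix (Fin n) (Fin n) F :=
  fun i j => if i = j then 1 else if h : i.val < m ∧ j.val = m then x ⟨i, h.1⟩ else 0

/-- the upper left block of size `m` -/
def blk {n : ℕ} (m : ℕ) (p : GL (Fin n) F) : Matrix (Ix n m) (Ix n m) F :=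
  fun i j => p.val i.val j.val

/-- the matrix `diag(A, 1)`, `A` of size `m` -/
def ext {n m : ℕ} (A : Matrix (Ix n m) (Ix n m) F) : Matrix (Fin n) (Fin n) F :=
  fun i j => if h : i.val < m ∧ j.val < m then A ⟨i, h.1⟩ ⟨j, h.2⟩ else if i = j then 1 else 0

/-! ## twisted coinvariants, pairings -/

section Rep

variable {V V' : Type*} [AddCommGroup V] [Module ℂ V] [AddCommGroup V'] [Module ℂ V']

/-- the span of the vectors `π u v - χ u • v`, `u ∈ S` -/
def Ksp {G : Type*} [Group G] (π : Representation ℂ G V) (S : Set G) (χ : G → ℂ) :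
    Submodule ℂ V :=
  Submodule.span ℂ {w | ∃ u ∈ S, ∃ v : V, w = π u v - χ u • v}

variable {n : ℕ}

/-- `K_m`: kernel of the projection to the `(UU m, psi m)`-coinvariants -/
noncomputable def KK (ψ : AddChar F ℂ) (m : ℕ) (π : Representation ℂ (GL (Fin n) F) V) :
    Submodule ℂ V := Ksp π (UU F n m) (psi ψ n m)

/-- `KT_m`: kernel of the projection to the `(UU m, theta m)`-coinvariants,
`theta m = psi (m + 1)` restricted to `UU m` -/
noncomputable def KT (ψ : AddChar F ℂ) (m : ℕ) (π : Representation ℂ (GL (Fin n) F) V) :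
    Submodule ℂ V := Ksp π (UU F n m) (psi ψ n (m + 1))

/-- the derived pairing of level `m` (`m = n - k`) -/
structure IsDP (ψ : AddChar F ℂ) (m : ℕ) (π : Representation ℂ (GL (Fin n) F) V)
    (π' : Representation ℂ (GL (Fin n) F) V') (b bm : V →ₗ[ℂ] V' →ₗ[ℂ] ℂ) : Prop where
  left : ∀ u ∈ UU F n m, ∀ v v', bm (π u v) v' = psi ψ n m u * bm v v'
  right : ∀ u ∈ UU F n m, ∀ v v', bm v (π' u v') = (psi ψ n m u)⁻¹ * bm v v'
  equi : ∀ p ∈ PP F n m, ∀ v v',
    bm (π p v) (π' p v') = ((nrm F p.val.det : ℝ) : ℂ) ^ (n - m) * bm v v'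
  ker : ∀ v, (∀ v', bm v v' = 0) → v ∈ KK ψ m π
  comm : ∀ (T : V →ₗ[ℂ] V) (T' : V' →ₗ[ℂ] V'), (∀ g v, T (π g v) = π g (T v)) →
    (∀ g v', T' (π' g v') = π' g (T' v')) → (∀ v v', b (T v) v' = b v (T' v')) →
    ∀ v v', bm (T v) v' = bm v (T' v')

end Rep

end PC.DP
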