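import Mathlib
import Pool.Agent.Lib.MP_ca1492_al.D4.DPDefs
import Pool.Agent.Lib.MP_ca1492_al.D4.Sgn

/-!
# MP_ca1492_al, D4, TwoA: Jacquet modules for the two orders, permutation matrices, `KT`

* `kerJ_conj`: `u ∈ uni (-od n d)` has its nontrivial entries at `(i, j)`, `j < d ≤ i`; conjugation by
  the permutation matrix of `(wsw n d hd)⁻¹` moves it to `(i - d, j + (n - d))` (`permG_conj`), so it
  maps `uni (odS n d false)` onto `uni (od n (n - d))`. Then `π w (π u v - v) = π (w u w⁻¹) (π w v) -
  π w v`, and the same for the inverse direction.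
* `kerJ_conj'`: the same for `n = d + d` (subst), `n - d = d`, `DS true = D2`.
* `kerJ_le_KT`: `uni (one n) (od n m) ⊆ UU F n m`, and `psi ψ n (m + 1) = 1` on it (all entries
  `(j - 1, j)`, `j ≥ m + 1` vanish because `j - 1 ≥ m`: off diagonal entries of `uni` are at
  `(i, j)` with `i < m ≤ j`).
* `dead`: `all_dead` with `c₂ = blk n m`: suppose `blk n d (w i) = blk n d (w j) → blk n m i = blk n m j`
  for all `i, j`. Then `{i | w i < d}` (`d` elements) is contained in `[0, m)` or in `[m, n)`, and
  its complement (`n - d` elements) as well. Since both `[0, m)` and `[m, n)` are not empty, one of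
  the two is equal to `[0, m)`: `m = d` or `m = n - d`.
-/

open Topology Pool.Agent.Lib.MP_ca1492_al.P

namespace PC.D4

noncomputable section

variable {F : Type} [Field F] [ValuativeRel F] [TopologicalSpace F]
  [IsNonarchimedeanLocalField F]
variable {n d : ℕ} {V W : Type} [AddCommGroup V] [Module ℂ V] [AddCommGroup W] [Module ℂ W]

/-- the permutation matrix which moves the second block in front -/
def wG (F : Type) [Field F] (n d : ℕ) (hd : d ≤ n) : GL (Fin n) F :=
  permG F (wsw n d hd)⁻¹

theorem TwoA_uni (w : Equiv.Perm (Fin n)) (o₁ o₂ : Fin n → ℤ) (c : ℤ)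
    (hw : ∀ i, o₂ (w i) = o₁ i + c) (u : GL (Fin n) F) (hu : u ∈ uni F (one n) o₁) :
    permG F w * u * (permG F w)⁻¹ ∈ uni F (one n) o₂ := by
  refine ⟨⟨fun i j h => absurd rfl h, fun i j hij => ?_⟩, fun i j hij => ?_⟩
  · obtain ⟨i, rfl⟩ := w.surjective i
    obtain ⟨j, rfl⟩ := w.surjective j
    rw [permG_conj]
    rw [hw, hw] at hij
    exact hu.1.2 i j (by omega)
  · obtain ⟨i, rfl⟩ := w.surjective i
    obtain ⟨j, rfl⟩ := w.surjective j
    rw [permG_conj]
    rw [hw, hw] at hij
    rw [hu.2 i j (by omega), Matrix.one_apply, Matrix.one_apply]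
    simp

theorem TwoA_uni' (w : Equiv.Perm (Fin n)) (o₁ o₂ : Fin n → ℤ) (c : ℤ)
    (hw : ∀ i, o₂ (w i) = o₁ i + c) (u : GL (Fin n) F) (hu : u ∈ uni F (one n) o₂) :
    (permG F w)⁻¹ * u * permG F w ∈ uni F (one n) o₁ := by
  have key : ∀ i j, (((permG F w)⁻¹ * u * permG F w : GL (Fin n) F) : Matrix (Fin n) (Fin n) F) i j =
      (u : Matrix (Fin n) (Fin n) F) (w i) (w j) := by
    intro i j
    rw [← permG_conj w ((permG F w)⁻¹ * u * permG F w) i j]
    have : permG F w * ((permG F w)⁻¹ * u * permG F w) * (permG F w)⁻¹ = u := by group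
    rw [this]
  refine ⟨⟨fun i j h => absurd rfl h, fun i j hij => ?_⟩, fun i j hij => ?_⟩
  · rw [key]
    exact hu.1.2 (w i) (w j) (by rw [hw, hw]; omega)
  · rw [key, hu.2 (w i) (w j) (by rw [hw, hw]; omega), Matrix.one_apply, Matrix.one_apply]
    simp

theorem TwoA_tr {M₁ M₂ : Subgroup (GL (Fin n) F)} (D₁ : PD (lev F (one n)) M₁)
    (D₂ : PD (lev F (one n)) M₂) (g : GL (Fin n) F) (hg : ∀ u ∈ D₁.N, g * u * g⁻¹ ∈ D₂.N)
    (π : Representation ℂ (lev F (one n)) V) (x : V) (hx : x ∈ D₁.kerJ π) :
    π (toTop g) x ∈ D₂.kerJ π := by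
  refine Submodule.span_induction (p := fun x _ => π (toTop g) x ∈ D₂.kerJ π) ?_ ?_ ?_ ?_ hx
  · rintro x ⟨u, hu, v, rfl⟩
    refine Submodule.subset_span ⟨g * u * g⁻¹, hg u hu, π (toTop g) v, ?_⟩
    rw [map_sub]
    congr 1
    rw [← Module.End.mul_apply, ← Module.End.mul_apply, ← map_mul, ← map_mul]
    congr 2
    apply Subtype.ext
    show g * u = g * u * g⁻¹ * g
    group
  · rw [map_zero]; exact Submodule.zero_mem _
  · intro x y _ _ h1 h2
    rw [map_add]
    exact Submodule.add_mem _ h1 h2
  · intro c x _ h1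
    rw [map_smul]
    exact Submodule.smul_mem _ _ h1

theorem TwoA_conj {ι₁ ι₂ : Type} (c₁ : Fin n → ι₁) (o₁ : Fin n → ℤ)
    (h₁ : ∀ i j, c₁ i = c₁ j ↔ one n i = one n j ∧ o₁ i = o₁ j) (c₂ : Fin n → ι₂) (o₂ : Fin n → ℤ)
    (h₂ : ∀ i j, c₂ i = c₂ j ↔ one n i = one n j ∧ o₂ i = o₂ j) (w : Equiv.Perm (Fin n)) (c : ℤ)
    (hw : ∀ i, o₂ (w i) = o₁ i + c) (π : Representation ℂ (lev F (one n)) V) (x : V) :
    x ∈ (parD c₁ (one n) o₁ h₁).kerJ π ↔
      π (toTop (permG F w)) x ∈ (parD c₂ (one n) o₂ h₂).kerJ π := by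
  constructor
  · intro hx
    exact TwoA_tr _ _ (permG F w) (fun u hu => TwoA_uni w o₁ o₂ c hw u hu) π x hx
  · intro hx
    have h := TwoA_tr (parD c₂ (one n) o₂ h₂) (parD c₁ (one n) o₁ h₁) (permG F w)⁻¹
      (fun u hu => by
        have h3 := TwoA_uni' w o₁ o₂ c hw u hu
        rw [inv_inv]
        exact h3) π _ hx
    have e : π (toTop (permG F w)⁻¹) (π (toTop (permG F w)) x) = x := by
      rw [← Module.End.mul_apply, ← map_mul, ← map_mul, inv_mul_cancel, map_one, map_one,
        Module.End.one_apply]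
    rw [e] at h
    exact h

theorem kerJ_conj (hd : d ≤ n) (π : Representation ℂ (lev F (one n)) V) (x : V) :
    x ∈ (DS F n d false).kerJ π ↔ π (toTop (wG F n d hd)) x ∈ (D2 F n (n - d)).kerJ π := by
  refine TwoA_conj (blk n d) (odS n d false) (blkS_iff n d false) (blk n (n - d)) (od n (n - d))
    (blk_iff n (n - d)) (wsw n d hd)⁻¹ 1 (fun i => ?_) π x
  have e : ((wsw n d hd)⁻¹ i) = if h : i.1 < d then ⟨i.1 + (n - d), by omega⟩
      else ⟨i.1 - d, by omega⟩ := rfl
  rw [e]
  by_cases h : i.1 < d
  · simp [h, od, odS]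
  · have h3 : i.1 - d < n - d := by omega
    simp [h, od, odS, h3]

theorem kerJ_conj' (hd : d ≤ n) (hn : n = d + d) (s : Bool)
    (π : Representation ℂ (lev F (one n)) V) (x : V) :
    x ∈ (DS F n d (!s)).kerJ π ↔ π (toTop (permG F (wsw n d hd))) x ∈ (DS F n d s).kerJ π := by
  have hw : ∀ i, od n d (wsw n d hd i) = - od n d i + 1 := by
    intro i
    subst hn
    have e : (wsw (d + d) d hd i) = if h : i.1 < d + d - d then ⟨i.1 + d, by omega⟩
      else ⟨i.1 - (d + d - d), by omega⟩ := rfl
    rw [e]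
    by_cases h : i.1 < d
    · simp [h, od]
    · have h3 : i.1 - d < d := by omega
      simp [h, od, h3]
  cases s
  · refine TwoA_conj (blk n d) (odS n d true) (blkS_iff n d true) (blk n d) (odS n d false)
      (blkS_iff n d false) (wsw n d hd) (-1) (fun i => ?_) π x
    simp only [odS, if_true, Bool.false_eq_true, if_false, hw]
    ring
  · refine TwoA_conj (blk n d) (odS n d false) (blkS_iff n d false) (blk n d) (odS n d true)
      (blkS_iff n d true) (wsw n d hd) 1 (fun i => ?_) π x
    simp only [odS, if_true, Bool.false_eq_true, if_false, hw]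

/-- the swap has square `1` for `n = 2 d` -/
theorem permG_wsw_sq (hd : d ≤ n) (hn : n = d + d) :
    permG F (wsw n d hd) * permG F (wsw n d hd) = 1 := by
  have hw : ∀ i, wsw n d hd (wsw n d hd i) = i := by
    intro i
    subst hn
    apply Fin.ext
    have e : ∀ i, ((wsw (d + d) d hd i)).1 = if i.1 < d + d - d then i.1 + d
      else i.1 - (d + d - d) := by
      intro i
      show ((if h : i.1 < d + d - d then (⟨i.1 + d, by omega⟩ : Fin (d + d))
        else ⟨i.1 - (d + d - d), by omega⟩) : Fin (d + d)).1 = _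
      split_ifs <;> rfl
    rw [e, e]
    by_cases h : i.1 < d + d - d
    · rw [if_pos h, if_neg (by omega)]
      omega
    · rw [if_neg h, if_pos (by omega)]
      omega
  apply Units.ext
  ext i j
  rw [Units.val_mul, Matrix.mul_apply, Finset.sum_eq_single (wsw n d hd j)]
  · show (if wsw n d hd (wsw n d hd j) = i then (1 : F) else 0) *
      (if wsw n d hd j = wsw n d hd j then (1 : F) else 0) = (1 : Matrix (Fin n) (Fin n) F) i j
    rw [if_pos rfl, mul_one, hw, Matrix.one_apply]
    by_cases h : i = j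
    · rw [if_pos h, if_pos h.symm]
    · rw [if_neg h, if_neg (fun h' => h h'.symm)]
  · intro k _ hk
    show _ * (if wsw n d hd j = k then (1 : F) else 0) = 0
    rw [if_neg (fun h => hk h.symm), mul_zero]
  · intro h
    exact absurd (Finset.mem_univ _) h

theorem kerJ_le_KT (ψ : AddChar F ℂ) (m : ℕ) (π : Representation ℂ (lev F (one n)) V) :
    (D2 F n m).kerJ π ≤ PC.DP.KT ψ m (toGL π) := by
  refine Submodule.span_le.2 ?_
  rintro x ⟨u, hu, v, rfl⟩
  have hu' : u ∈ uni F (one n) (od n m) := hu
  refine Submodule.subset_span ⟨u, ?_, v, ?_⟩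
  · intro i j hij
    rcases lt_trichotomy (od n m i) (od n m j) with h | h | h
    · exfalso
      unfold od at h
      split_ifs at h with h1 h2 h2 <;> simp at h
      rcases hij with h3 | h3
      · have : j.1 ≤ i.1 := h3
        omega
      · omega
    · exact hu'.2 i j h
    · rw [hu'.1.2 i j h, Matrix.one_apply_ne]
      rintro rfl
      exact lt_irrefl _ h
  · have h1 : PC.DP.psi ψ n (m + 1) u = 1 := by
      unfold PC.DP.psi
      rw [Finset.sum_eq_zero, AddChar.map_zero_eq_one]
      intro i _
      refine Finset.sum_eq_zero fun j _ => ?_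
      split_ifs with h
      · have h3 : od n m i = od n m j := by
          unfold od
          rw [if_neg (by omega), if_neg (by omega)]
        rw [hu'.2 i j h3, Matrix.one_apply_ne]
        rintro rfl
        omega
      · rfl
    rw [h1, one_smul]
    rfl

theorem TwoA_card (n k : ℕ) (hk : k ≤ n) :
    (Finset.univ.filter (fun i : Fin n => i.1 < k)).card = k := by
  have h : Finset.univ.filter (fun i : Fin n => i.1 < k) =
      Finset.univ.map (Fin.castLEEmb hk) := by
    ext i
    simp only [Finset.mem_filter, Finset.mem_univ, true_and, Finset.mem_map]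
    constructor
    · intro hi
      exact ⟨⟨i.1, hi⟩, rfl⟩
    · rintro ⟨j, rfl⟩
      exact j.2
  rw [h, Finset.card_map, Finset.card_univ, Fintype.card_fin]

theorem dead (hd : d ≤ n) (s : Bool) (σ : Representation ℂ (lev F (blk n d)) W) (hσ : IsSm σ)
    (hc : Cusp (blk n d) σ) (m : ℕ) (h1 : 1 ≤ m) (h2 : m < n) (h3 : m ≠ d) (h4 : m ≠ n - d) :
    (D2 F n m).kerJ ((DS F n d s).Ind σ) = ⊤ := by
  refine all_dead (one n) (blk n d) (odS n d s) (blkS_iff n d s) (blk n m) (od n m) (blk_iff n m)
    σ hσ hc (fun w _ hl => ?_)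
  have hi0 : blk n m ⟨0, by omega⟩ = true := decide_eq_true (show 0 < m by omega)
  have hi1 : blk n m ⟨m, h2⟩ = false := decide_eq_false (show ¬ m < m by omega)
  have hcard : ∀ k, k ≤ n → (Finset.univ.filter (fun i : Fin n => i.1 < k)).card = k :=
    fun k hk => TwoA_card n k hk
  have hwc : (Finset.univ.filter (fun i : Fin n => (w i).1 < d)).card = d := by
    refine Eq.trans ?_ (hcard d hd)
    refine Finset.card_bij (fun i _ => w i) ?_ ?_ ?_
    · intro i hi
      simpa using hi
    · intro i _ j _ h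
      exact w.injective h
    · intro j hj
      exact ⟨w.symm j, by simpa using hj, by simp⟩
  have hne : blk n d (w ⟨0, by omega⟩) ≠ blk n d (w ⟨m, h2⟩) := by
    intro h
    have := hl _ _ h
    rw [hi0, hi1] at this
    exact absurd this (by decide)
  cases h5 : blk n d (w ⟨0, by omega⟩)
  · have h6 : blk n d (w ⟨m, h2⟩) = true := by
      rw [h5] at hne
      cases h7 : blk n d (w ⟨m, h2⟩)
      · exact absurd h7.symm hne
      · rfl
    have h8 : ∀ i : Fin n, i.1 < m ↔ ¬ (w i).1 < d := by
      intro i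
      cases h9 : blk n d (w i)
      · have h10 := hl i _ (h9.trans h5.symm)
        rw [hi0] at h10
        exact ⟨fun _ => of_decide_eq_false h9, fun _ => of_decide_eq_true h10⟩
      · have h10 := hl i _ (h9.trans h6.symm)
        rw [hi1] at h10
        exact ⟨fun h => absurd h (of_decide_eq_false h10), fun h => absurd (of_decide_eq_true h9) h⟩
    apply h4
    have h11 := hcard m h2.le
    have h12 := Finset.card_filter_add_card_filter_not (s := (Finset.univ : Finset (Fin n)))
      (fun i : Fin n => (w i).1 < d)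
    rw [hwc, Finset.card_univ, Fintype.card_fin] at h12
    have h13 : Finset.univ.filter (fun i : Fin n => i.1 < m) =
        Finset.univ.filter (fun i : Fin n => ¬ (w i).1 < d) := by
      ext i
      simp only [Finset.mem_filter, Finset.mem_univ, true_and]
      exact h8 i
    rw [h13] at h11
    omega
  · have h6 : blk n d (w ⟨m, h2⟩) = false := by
      rw [h5] at hne
      cases h7 : blk n d (w ⟨m, h2⟩)
      · rfl
      · exact absurd h7.symm hne
    have h8 : ∀ i : Fin n, i.1 < m ↔ (w i).1 < d := by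
      intro i
      cases h9 : blk n d (w i)
      · have h10 := hl i _ (h9.trans h6.symm)
        rw [hi1] at h10
        exact ⟨fun h => absurd h (of_decide_eq_false h10), fun h => absurd h (of_decide_eq_false h9)⟩
      · have h10 := hl i _ (h9.trans h5.symm)
        rw [hi0] at h10
        exact ⟨fun _ => of_decide_eq_true h9, fun _ => of_decide_eq_true h10⟩
    apply h3
    have h11 := hcard m h2.le
    have h13 : Finset.univ.filter (fun i : Fin n => i.1 < m) =
        Finset.univ.filter (fun i : Fin n => (w i).1 < d) := by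
      ext i
      simp only [Finset.mem_filter, Finset.mem_univ, true_and]
      exact h8 i
    rw [h13] at h11
    omega

/-- the index of the derivative belonging to the order `s` -/
def idx (n d : ℕ) (s : Bool) : ℕ := if s = true then d else n - d

/-- the matrix which moves the order `s` to the standard order -/
def gS (F : Type) [Field F] (n d : ℕ) (hd : d ≤ n) (s : Bool) : GL (Fin n) F :=
  if s = true then 1 else wG F n d hd

theorem kerJ_KT (ψ : AddChar F ℂ) (hd : d ≤ n) (s : Bool)
    (π : Representation ℂ (lev F (one n)) V) (x : V) (hx : x ∈ (DS F n d s).kerJ π) :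
    toGL π (gS F n d hd s) x ∈ PC.DP.KT ψ (idx n d s) (toGL π) := by
  cases s
  · exact kerJ_le_KT ψ (n - d) π ((kerJ_conj hd π x).1 hx)
  · have h := kerJ_le_KT ψ d π (show x ∈ (D2 F n d).kerJ π from hx)
    have e : toGL π (gS F n d hd true) x = x := by
      show toGL π 1 x = x
      rw [map_one, Module.End.one_apply]
    rw [e]
    exact h

end

end PC.D4
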