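import Mathlib
import Pool.Agent.Lib.MP_ca1492_al.D4.TwoA
import Pool.Agent.Lib.MP_ca1492_al.D4.TwoC

/-!
# MP_ca1492_al, D4, TwoE: the lattice facts for `n = 2 d`

`K = kerJ_s`, `N = ker evS`, `two_same_swap` (`P/CTwo.lean`) with the swap `wsw n d hd` (`wsw_swap`),
`σ = nsg s ρ`. `le`: `evS_kerJ`; `d1`: `kerJ_inf`; `a`: `evS_irr`.
`b`: the image under `Λ` of `W ⊓ N` is stable under `m ↦ σ (w m w⁻¹)` (`cfac ≠ 0` because of
`cfac_half`), so it is `⊥` or `⊤`; if it is `⊥` then `W ⊓ N ≤ K`; if it is `⊤` then for `x ∈ N` there is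
`y ∈ W ⊓ N` with `Λ x = Λ y`, `x - y ∈ K`.
`c`: `faith_X` with the second condition by `kerJ_conj'` (`W₁`, `W₂` are stable).
`f`: let `T` be equivariant. `φ : W → W`, `φ (Λ x) = ev (T x)` for `x ∈ N` (well defined:
`Λ x = 0 ⇒ x ∈ K ⇒ T x ∈ K ⇒ ev (T x) = 0`; `Λ : N → W` onto).
`φ (cfac m * dlh (w m w⁻¹) • ρ (w m w⁻¹) e) = dlh m • ρ m (φ e)`, and `cfac_half` gives (`dlh m ≠ 0`)
`φ (ρ (w m w⁻¹) e) = ρ m (φ e)`; apply `NIso` (with `m' = w m w⁻¹`, `m = w m' w⁻¹` as `w² = 1`,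
`permG_wsw_sq`): `φ = 0`. `ne`: `evS_surj`. `nle`: `Λ` maps `N` onto `W ≠ 0` and kills `K ⊓ N`.
-/

open Topology Pool.Agent.Lib.MP_ca1492_al.P

namespace PC.D4

noncomputable section

variable {F : Type} [Field F] [ValuativeRel F] [TopologicalSpace F]
  [IsNonarchimedeanLocalField F]
variable {n d : ℕ} {W : Type} [AddCommGroup W] [Module ℂ W]

/-- the facts on the live cell, in the normalised form -/
theorem TwoE_lam (hd1 : 1 ≤ d) (hd : d ≤ n) (hn : n = d + d) (s : Bool)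
    (ρ : Representation ℂ (lev F (blk n d)) W) (hρ : IsSm ρ) (hc : Cusp (blk n d) ρ) :
    ∃ Λ : XnS s ρ →ₗ[ℂ] W,
      (∀ e : W, ∃ f : XnS s ρ, evS s ρ f = 0 ∧ Λ f = e) ∧
      (∀ f : XnS s ρ, evS s ρ f = 0 → (Λ f = 0 ↔ f ∈ (DS F n d s).kerJ (InS s ρ))) ∧
      ∀ (f : XnS s ρ) (m m' : lev F (blk n d)),
        m'.1 = permG F (wsw n d hd) * m.1 * (permG F (wsw n d hd))⁻¹ → evS s ρ f = 0 →
        ∃ a : ℂ, a ≠ 0 ∧ a * (dlh (blk n d) (one n) (odS n d s) (blkS_iff n d s) m' : ℂ) =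
            (dlh (blk n d) (one n) (odS n d s) (blkS_iff n d s) m : ℂ) ∧
          Λ (InS s ρ ⟨m.1, (DS F n d s).hM m.2⟩ f) = a • nsg s ρ m' (Λ f) := by
  have hT : TwoB (one n) (blk n d) () := by
    refine ⟨fun i j _ h => absurd rfl h, fun i j k _ _ _ => ?_⟩
    cases blk n d i <;> cases blk n d j <;> cases blk n d k <;> simp
  have hs := wsw_swap hd hn hd1
  obtain ⟨-, Λ, h1, h2, h3, -⟩ := two_same_swap (F := F) (one n) (blk n d) () hT (odS n d s)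
    (blkS_iff n d s) (nsg s ρ) (nsg_smooth s ρ hρ) (nsg_cusp s ρ hc) (wsw n d hd) hs
  refine ⟨Λ, h1, h2, fun f m m' hm hf => ?_⟩
  have e' : m' = ⟨permG F (wsw n d hd) * m.1 * (permG F (wsw n d hd))⁻¹,
      permG_conj_mem (blk n d) (blk n d) (wsw n d hd) hs.hc m.1 m.2⟩ := Subtype.ext hm
  have h4 := cfac_half (F := F) (one n) (blk n d) (odS n d s) (blkS_iff n d s) (blk n d)
    (odS n d s) (blkS_iff n d s) (wsw n d hd) hs.hcb hs.hc ⟨m.1, (DS F n d s).hM m.2⟩ m.2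
  refine ⟨cfac (one n) (odS n d s) (blk n d) (odS n d s) (blkS_iff n d s) (wsw n d hd) hs.hcb
    ⟨m.1, (DS F n d s).hM m.2⟩, ?_, ?_, ?_⟩
  · intro h0
    rw [h0, zero_mul] at h4
    exact (dlh (blk n d) (one n) (odS n d s) (blkS_iff n d s) ⟨m.1, m.2⟩).ne_zero h4.symm
  · rw [e']
    exact h4
  · rw [e']
    exact h3 f ⟨m.1, (DS F n d s).hM m.2⟩ m.2 hf

theorem latB_X (hd1 : 1 ≤ d) (hd : d ≤ n) (hn : n = d + d) (s : Bool)
    (ρ : Representation ℂ (lev F (blk n d)) W) (hρ : IsSm ρ) (hi : Irr ρ)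
    (hc : Cusp (blk n d) ρ) (hni : NIso hd ρ) :
    LatB (InS s ρ) ((DS F n d s).kerJ (InS s ρ)) (LinearMap.ker (evS s ρ)) := by
  obtain ⟨Λ, h1, h2, h3⟩ := TwoE_lam hd1 hd hn s ρ hρ hc
  have hsm : IsSm (InS s ρ) := PD.ind_smooth _ _
  have hw2 := permG_wsw_sq (F := F) hd hn
  have hwi : (permG F (wsw n d hd))⁻¹ = permG F (wsw n d hd) := inv_eq_of_mul_eq_one_left hw2
  -- conjugation by the swap on the Levi subgroup
  have hcj : ∀ m : lev F (blk n d), ∃ m' : lev F (blk n d),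
      m'.1 = permG F (wsw n d hd) * m.1 * (permG F (wsw n d hd))⁻¹ ∧
      m.1 = permG F (wsw n d hd) * m'.1 * (permG F (wsw n d hd))⁻¹ := by
    intro m
    refine ⟨⟨_, permG_conj_mem (blk n d) (blk n d) (wsw n d hd) (wsw_swap hd hn hd1).hc m.1 m.2⟩,
      rfl, ?_⟩
    show m.1 = permG F (wsw n d hd) * (permG F (wsw n d hd) * m.1 * (permG F (wsw n d hd))⁻¹) *
      (permG F (wsw n d hd))⁻¹
    rw [hwi]
    have : permG F (wsw n d hd) * (permG F (wsw n d hd) * m.1 * permG F (wsw n d hd)) *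
      permG F (wsw n d hd) = (permG F (wsw n d hd) * permG F (wsw n d hd)) * m.1 *
        (permG F (wsw n d hd) * permG F (wsw n d hd)) := by group
    rw [this, hw2, one_mul, mul_one]
  refine ⟨?_, ?_, ?_, ?_, ?_, ?_, ?_, ?_⟩
  · -- le
    intro f hf
    exact evS_kerJ s ρ f hf
  · -- d1
    intro W₁ W₂ hW₁ hW₂
    exact kerJ_inf (DS F n d s) (InS s ρ) hsm W₁ W₂ hW₁ hW₂
  · -- a
    intro U hU h0
    rw [eq_top_iff]
    intro x _
    obtain ⟨f, hf, he⟩ := evS_irr s ρ hi U hU h0 (evS s ρ x)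
    refine Submodule.mem_sup.2 ⟨f, hf, x - f, ?_, by abel⟩
    rw [LinearMap.mem_ker, map_sub, he, sub_self]
  · -- b
    intro U hU
    have hst : Stab (nsg s ρ) ((U ⊓ LinearMap.ker (evS s ρ)).map Λ) := by
      rintro m _ ⟨f, hf, rfl⟩
      obtain ⟨m', -, hm⟩ := hcj m
      have hf0 : evS s ρ f = 0 := LinearMap.mem_ker.1 hf.2
      obtain ⟨a, ha, -, e⟩ := h3 f m' m hm hf0
      refine ⟨a⁻¹ • (InS s ρ ⟨m'.1, (DS F n d s).hM m'.2⟩ f), Submodule.smul_mem _ _ ⟨?_, ?_⟩, ?_⟩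
      · exact hU _ f hf.1
      · show _ ∈ LinearMap.ker (evS s ρ)
        rw [LinearMap.mem_ker, evS_equi, hf0, map_zero]
      · rw [map_smul, e, smul_smul, inv_mul_cancel₀ ha, one_smul]
    rcases (nsg_irr s ρ hi).2 _ hst with h | h
    · left
      rintro f ⟨hf1, hf2⟩
      have h4 : Λ f ∈ (U ⊓ LinearMap.ker (evS s ρ)).map Λ :=
        Submodule.mem_map_of_mem ⟨hf1, hf2⟩
      rw [h, Submodule.mem_bot] at h4
      exact (h2 f (LinearMap.mem_ker.1 hf2)).1 h4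
    · right
      intro x hx
      have h4 : Λ x ∈ (U ⊓ LinearMap.ker (evS s ρ)).map Λ := by
        rw [h]
        exact Submodule.mem_top
      obtain ⟨y, hy, e⟩ := h4
      have hx0 : evS s ρ x = 0 := LinearMap.mem_ker.1 hx
      have hy0 : evS s ρ y = 0 := LinearMap.mem_ker.1 hy.2
      refine Submodule.mem_sup.2 ⟨y, hy.1, x - y, ?_, by abel⟩
      refine (h2 (x - y) ?_).1 ?_
      · rw [map_sub, hx0, hy0, sub_self]
      · rw [map_sub, e, sub_self]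
  · -- c
    intro W₁ W₂ hW₁ hW₂ h12 hK
    have hdn : d < n := by omega
    refine faith_X hd1 hdn s ρ hρ hc W₁ W₂ hW₁ hW₂ h12 fun s' => ?_
    have hother : W₂ ≤ W₁ ⊔ (DS F n d (!s)).kerJ (InS s ρ) := by
      intro x hx
      have hx' := hK (hW₂ (toTop (permG F (wsw n d hd))) x hx)
      obtain ⟨a, ha, k, hk, e⟩ := Submodule.mem_sup.1 hx'
      have hinv : ∀ y, InS s ρ (toTop (permG F (wsw n d hd)))
          (InS s ρ (toTop (permG F (wsw n d hd))) y) = y := by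
        intro y
        rw [← Module.End.mul_apply, ← map_mul, ← map_mul, hw2, map_one, map_one,
          Module.End.one_apply]
      refine Submodule.mem_sup.2 ⟨InS s ρ (toTop (permG F (wsw n d hd))) a, hW₁ _ a ha,
        InS s ρ (toTop (permG F (wsw n d hd))) k, ?_, ?_⟩
      · rw [kerJ_conj' hd hn s, hinv]
        exact hk
      · rw [← map_add, e, hinv]
    rcases Bool.eq_or_eq_not s' s with hs' | hs'
    · rw [hs']
      exact hK
    · rw [hs']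
      exact hother
  · -- f
    intro T hT x hx
    have hx0 : evS s ρ x = 0 := LinearMap.mem_ker.1 hx
    obtain ⟨r, hr⟩ : ∃ r : W →ₗ[ℂ] LinearMap.ker (evS s ρ),
        (Λ.domRestrict (LinearMap.ker (evS s ρ))) ∘ₗ r = LinearMap.id := by
      refine LinearMap.exists_rightInverse_of_surjective _ ?_
      rw [LinearMap.range_eq_top]
      intro e
      obtain ⟨f, hf, he⟩ := h1 e
      exact ⟨⟨f, LinearMap.mem_ker.2 hf⟩, he⟩
    have hr' : ∀ e, Λ (r e).1 = e := fun e => LinearMap.congr_fun hr e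
    obtain ⟨φ, hφ⟩ : ∃ φ : W →ₗ[ℂ] W, ∀ e, φ e = evS s ρ (T (r e).1) :=
      ⟨evS s ρ ∘ₗ T ∘ₗ (LinearMap.ker (evS s ρ)).subtype ∘ₗ r, fun _ => rfl⟩
    have hφ' : ∀ y, evS s ρ y = 0 → φ (Λ y) = evS s ρ (T y) := by
      intro y hy
      rw [hφ, ← sub_eq_zero, ← map_sub, ← map_sub]
      refine evS_kerJ s ρ _ (PD.kerJ_map (DS F n d s) (InS s ρ) (InS s ρ) T hT ?_)
      refine (h2 _ ?_).1 ?_
      · rw [map_sub, hy, sub_zero]
        exact LinearMap.mem_ker.1 (r (Λ y)).2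
      · rw [map_sub, hr', sub_self]
    have hφ0 : φ = 0 := by
      refine hni φ fun m m' hm e => ?_
      obtain ⟨m'', hm1, hm2⟩ := hcj m
      have hmm : m'' = m' := Subtype.ext (hm1.trans hm.symm)
      rw [hmm] at hm2
      obtain ⟨f, hf, rfl⟩ := h1 e
      obtain ⟨a, ha, ha', e1⟩ := h3 f m' m hm2 hf
      have h5 := hφ' (InS s ρ ⟨m'.1, (DS F n d s).hM m'.2⟩ f) (by rw [evS_equi, hf, map_zero])
      rw [e1, hT, evS_equi, ← hφ' f hf, map_smul] at h5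
      -- `a • φ (nsg m e) = nsg m' (φ e)`
      have h6 : nsg s ρ m (Λ f) =
          (dlh (blk n d) (one n) (odS n d s) (blkS_iff n d s) m : ℂ) • ρ m (Λ f) := rfl
      have h7 : nsg s ρ m' (φ (Λ f)) =
          (dlh (blk n d) (one n) (odS n d s) (blkS_iff n d s) m' : ℂ) • ρ m' (φ (Λ f)) := rfl
      rw [h6, h7, map_smul, smul_smul, ha'] at h5
      have h8 : (dlh (blk n d) (one n) (odS n d s) (blkS_iff n d s) m' : ℂ) ≠ 0 :=
        (dlh (blk n d) (one n) (odS n d s) (blkS_iff n d s) m').ne_zero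
      exact smul_right_injective W h8 h5
    rw [LinearMap.mem_ker, ← hφ' x hx0, hφ0, LinearMap.zero_apply]
  · -- ne
    intro h
    obtain ⟨v, hv⟩ := hi.1
    obtain ⟨f, hf⟩ := evS_surj s ρ hρ v
    apply hv
    rw [← hf]
    exact LinearMap.mem_ker.1 (by rw [h]; exact Submodule.mem_top)
  · -- nle
    intro h
    obtain ⟨v, hv⟩ := hi.1
    obtain ⟨f, hf, he⟩ := h1 v
    apply hv
    rw [← he]
    exact (h2 f hf).2 (h (LinearMap.mem_ker.2 hf))

end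

end PC.D4
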