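import Mathlib
import Pool.Agent.Lib.MP_ca1492_al.D4.Sgn

/-!
# MP_ca1492_al, D4, TwoG: conjugation of the modulus character by the swap

`dlh` is the square root of `mdl (uni ..)`; conjugation by `permG (wsw n d hd)` maps `uni (odS s)` onto
`uni (odS !s)` (`permG_conj`), use `mdl_conj`; or use `dlh_vl` for both sides.
-/

open Topology Pool.Agent.Lib.MP_ca1492_al.P

namespace PC.D4

noncomputable section

variable {F : Type} [Field F] [ValuativeRel F] [TopologicalSpace F]
  [IsNonarchimedeanLocalField F]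
variable {n d : ℕ} {W : Type} [AddCommGroup W] [Module ℂ W]

omit [ValuativeRel F] [TopologicalSpace F] [IsNonarchimedeanLocalField F] in
theorem TwoG_uni_congr {κ ι : Type} [Fintype κ] [DecidableEq κ] (cb : κ → ι) (o o' : κ → ℤ)
    (h : ∀ i j, o i < o j ↔ o' i < o' j) : uni F cb o = uni F cb o' := by
  have h2 : ∀ i j, o i = o j ↔ o' i = o' j := by
    intro i j
    have h3 := h i j
    have h4 := h j i
    constructor
    · intro h5
      have a1 : ¬ o' i < o' j := fun h6 => absurd (h3.2 h6) (by omega)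
      have a2 : ¬ o' j < o' i := fun h6 => absurd (h4.2 h6) (by omega)
      omega
    · intro h5
      have a1 : ¬ o i < o j := fun h6 => absurd (h3.1 h6) (by omega)
      have a2 : ¬ o j < o i := fun h6 => absurd (h4.1 h6) (by omega)
      omega
  ext g
  constructor
  · rintro ⟨⟨h5, h6⟩, h7⟩
    exact ⟨⟨h5, fun i j hij => h6 i j ((h j i).2 hij)⟩, fun i j hij => h7 i j ((h2 i j).2 hij)⟩
  · rintro ⟨⟨h5, h6⟩, h7⟩
    exact ⟨⟨h5, fun i j hij => h6 i j ((h j i).1 hij)⟩, fun i j hij => h7 i j ((h2 i j).1 hij)⟩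

theorem TwoG_blk (hd : d ≤ n) (hn : n = d + d) (i : Fin n) :
    ((wsw n d hd i).1 < d) ↔ ¬ (i.1 < d) := by
  have h0 := i.2
  show ((if h : i.1 < n - d then (⟨i.1 + d, by omega⟩ : Fin n) else ⟨i.1 - (n - d), by omega⟩).1 < d)
    ↔ ¬ (i.1 < d)
  by_cases h : i.1 < n - d
  · rw [dif_pos h]
    simp only
    omega
  · rw [dif_neg h]
    simp only
    omega

theorem dlh_conj (hd : d ≤ n) (hn : n = d + d) (s : Bool) (m m' : lev F (blk n d))
    (hm : m'.1 = permG F (wsw n d hd) * m.1 * (permG F (wsw n d hd))⁻¹) :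
    dlh (blk n d) (one n) (odS n d (!s)) (blkS_iff n d (!s)) m' =
      dlh (blk n d) (one n) (odS n d s) (blkS_iff n d s) m := by
  apply Units.ext
  rw [dlh_val, dlh_val]
  congr 2
  have h1 : ∀ i j, blk n d (wsw n d hd i) = blk n d (wsw n d hd j) ↔ blk n d i = blk n d j := by
    intro i j
    have hi := TwoG_blk hd hn i
    have hj := TwoG_blk hd hn j
    unfold blk
    by_cases h : i.1 < d <;> by_cases h' : j.1 < d <;> simp [h, h', hi, hj]
  rw [hm, mdl_uni_conj (one n) (blk n d) (odS n d (!s)) (blkS_iff n d (!s)) (blk n d) (odS n d s)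
    (blkS_iff n d s) (wsw n d hd) (fun _ => rfl) h1 m.1 m.2]
  rw [TwoG_uni_congr (F := F) (one n) (fun i => odS n d (!s) (wsw n d hd i)) (odS n d s)]
  intro i j
  have hi := TwoG_blk hd hn i
  have hj := TwoG_blk hd hn j
  cases s <;> by_cases h : i.1 < d <;> by_cases h' : j.1 < d <;> simp [odS, od, h, h', hi, hj]

end

end PC.D4
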