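import Mathlib
import Pool.Agent.Lib.MP_ca1492_al.D4.TwoD
import Pool.Agent.Lib.MP_ca1492_al.D4.TwoE
import Pool.Agent.Lib.MP_ca1492_al.D4.TwoG

/-!
# MP_ca1492_al, D4, IrrInj: an injective operator to the opposite induced representation forces
irreducibility
-/

open Topology Pool.Agent.Lib.MP_ca1492_al.P

namespace PC.D4

noncomputable section

section Abs

variable {G : Type} [Group G] {V V' W : Type} [AddCommGroup V] [Module ℂ V] [AddCommGroup V']
  [Module ℂ V'] [AddCommGroup W] [Module ℂ W]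

/-- factorisation through a surjection -/
theorem IrrInj_fac {U W' : Type} [AddCommGroup U] [Module ℂ U] [AddCommGroup W'] [Module ℂ W']
    (E : U →ₗ[ℂ] W) (hE : Function.Surjective E) (Φ : U →ₗ[ℂ] W') (h : ∀ u, E u = 0 → Φ u = 0) :
    ∃ θ : W →ₗ[ℂ] W', ∀ u, θ (E u) = Φ u := by
  have hle : LinearMap.ker E ≤ LinearMap.ker Φ := fun u hu => h u hu
  refine ⟨(LinearMap.ker E).liftQ Φ hle ∘ₗ
    (E.quotKerEquivOfSurjective hE).symm.toLinearMap, fun u => ?_⟩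
  have e : (E.quotKerEquivOfSurjective hE).symm (E u) = (LinearMap.ker E).mkQ u := by
    rw [LinearEquiv.symm_apply_eq]
    rfl
  show (LinearMap.ker E).liftQ Φ hle ((E.quotKerEquivOfSurjective hE).symm (E u)) = _
  rw [e]
  rfl

theorem IrrInj_th (π : Representation ℂ G V) (A : V →ₗ[ℂ] V') (ev : V →ₗ[ℂ] W)
    (ev' : V' →ₗ[ℂ] W) (U : Submodule ℂ V) (w : G) (hs : ∀ e, ∃ f ∈ U, ev f = e)
    (hk : ∀ u ∈ U, ev u = 0 → ev' (A (π w u)) = 0) :
    ∃ θ : W →ₗ[ℂ] W, ∀ u ∈ U, θ (ev u) = ev' (A (π w u)) := by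
  obtain ⟨θ, hθ⟩ := IrrInj_fac (ev ∘ₗ U.subtype) (fun e => by
    obtain ⟨f, hf, he⟩ := hs e
    exact ⟨⟨f, hf⟩, he⟩) (ev' ∘ₗ A ∘ₗ (π w) ∘ₗ U.subtype) (fun u hu => hk u.1 u.2 hu)
  exact ⟨θ, fun u hu => hθ ⟨u, hu⟩⟩

/-- the core of the argument in the case of equal blocks -/
theorem IrrInj_core {M : Type} [Group M] (π : Representation ℂ G V) (π' : Representation ℂ G V')
    (A : V →ₗ[ℂ] V') (hA : Equi π π' A) (ev : V →ₗ[ℂ] W) (ev' : V' →ₗ[ℂ] W)
    (ρ : Representation ℂ M W) (i : M → G) (a a' : M → ℂˣ) (U : Submodule ℂ V)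
    (hU : Stab π U) (w : G) (R : M → M → Prop)
    (hR : ∀ m m', R m m' → w * i m = i m' * w) (haa : ∀ m m', R m m' → a' m' = a m)
    (h1 : ∀ m f, ev (π (i m) f) = (a m : ℂ) • ρ m (ev f))
    (h2 : ∀ m f, ev' (π' (i m) f) = (a' m : ℂ) • ρ m (ev' f))
    (hno : ∀ T : W →ₗ[ℂ] W, (∀ m m', R m m' → ∀ e, T (ρ m e) = ρ m' (T e)) → T = 0)
    (hs : ∀ e, ∃ f ∈ U, ev f = e) (hk : ∀ u ∈ U, ev u = 0 → ev' (A (π w u)) = 0) :
    ∀ u ∈ U, ∀ g, ev' (A (π g u)) = 0 := by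
  obtain ⟨θ, hθ⟩ := IrrInj_th π A ev ev' U w hs hk
  have hT : θ = 0 := by
    refine hno θ fun m m' hm e => ?_
    obtain ⟨f, hf, rfl⟩ := hs e
    have e1 := hθ (π (i m) f) (hU _ f hf)
    have e2 : A (π w (π (i m) f)) = π' (i m') (A (π w f)) := by
      rw [← hA, ← Module.End.mul_apply, ← map_mul, hR m m' hm, map_mul, Module.End.mul_apply]
    rw [e2, h1, h2, map_smul, ← hθ f hf, haa m m' hm] at e1
    exact (smul_right_injective W (Units.ne_zero (a m))) e1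
  intro u hu g
  have e1 := hθ (π (w⁻¹ * g) u) (hU _ u hu)
  rw [hT, LinearMap.zero_apply, ← Module.End.mul_apply, ← map_mul, mul_inv_cancel_left] at e1
  exact e1.symm

end Abs

variable {F : Type} [Field F] [ValuativeRel F] [TopologicalSpace F]
  [IsNonarchimedeanLocalField F]
variable {n d : ℕ} {W : Type} [AddCommGroup W] [Module ℂ W]

theorem IrrInj_ev (s : Bool) (ρ : Representation ℂ (lev F (blk n d)) W)
    {V : Type} [AddCommGroup V] [Module ℂ V] (π : Representation ℂ (lev F (one n)) V)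
    (A : V →ₗ[ℂ] XnS s ρ) (hA : Equi π (InS s ρ) A) (u : V)
    (hu : u ∈ (DS F n d s).kerJ π) : evS s ρ (A u) = 0 := by
  apply evS_kerJ
  have h := PD.kerJ_map (DS F n d s) π (InS s ρ) A hA
  exact Submodule.mem_comap.1 (h hu)

/-- THEOREM (iii) -/
theorem irr_of_inj (hd1 : 1 ≤ d) (hd : d < n) (s : Bool)
    (ρ : Representation ℂ (lev F (blk n d)) W) (hρ : IsSm ρ) (hi : Irr ρ)
    (hc : Cusp (blk n d) ρ) (hni : n = d + d → NIso hd.le ρ)
    (A : XnS s ρ →ₗ[ℂ] XnS (!s) ρ) (hA : Equi (InS s ρ) (InS (!s) ρ) A)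
    (hinj : Function.Injective A) : Irr (InS s ρ) := by
  refine ⟨?_, fun U hU => ?_⟩
  · obtain ⟨w0, hw0⟩ := hi.1
    obtain ⟨f, hf⟩ := evS_surj s ρ hρ w0
    refine ⟨f, fun h => hw0 ?_⟩
    rw [← hf, h, map_zero]
  by_contra hcon
  push Not at hcon
  obtain ⟨h0, h1⟩ := hcon
  have key : ∀ u ∈ U, ∀ g, evS (!s) ρ (A (InS s ρ g u)) = 0 := by
    by_cases hn : n = d + d
    · have L := latB_X hd1 hd.le hn s ρ hρ hi hc (hni hn)
      have hle := latB_le _ L U hU h0 h1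
      refine IrrInj_core (InS s ρ) (InS (!s) ρ) A hA (evS s ρ) (evS (!s) ρ) ρ
        (fun m => ⟨m.1, (DS F n d s).hM m.2⟩)
        (dlh (blk n d) (one n) (odS n d s) (blkS_iff n d s))
        (dlh (blk n d) (one n) (odS n d (!s)) (blkS_iff n d (!s))) U hU
        (toTop (permG F (wsw n d hd.le)))
        (fun m m' => m'.1 = permG F (wsw n d hd.le) * m.1 * (permG F (wsw n d hd.le))⁻¹)
        (fun m m' hm => ?_) (fun m m' hm => dlh_conj hd.le hn s m m' hm)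
        (fun m f => evS_equi s ρ m f) (fun m f => evS_equi (!s) ρ m f) (hni hn)
        (evS_irr s ρ hi U hU h0) (fun u hu hu0 => ?_)
      · apply Subtype.ext
        show permG F (wsw n d hd.le) * m.1 = m'.1 * permG F (wsw n d hd.le)
        rw [hm]
        group
      · refine IrrInj_ev (!s) ρ (InS s ρ) A hA _ ?_
        have h2 := (kerJ_conj' hd.le hn (!s) (InS s ρ) u).1
        rw [Bool.not_not] at h2
        exact h2 (hle ⟨hu, hu0⟩)
    · have L := latA_X hd1 hd hn s ρ hρ hi hc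
      have hle := latA_le _ L U hU h0 h1
      intro u hu g
      exact IrrInj_ev (!s) ρ (InS s ρ) A hA _ (hle (hU g u hu))
  apply h0
  rw [eq_bot_iff]
  intro u hu
  have h2 := evS_zero (!s) ρ (InS s ρ) A hA u (key u hu)
  exact (Submodule.mem_bot ℂ).2 (hinj (h2.trans (map_zero A).symm))

end

end PC.D4
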