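import Mathlib
import Pool.Agent.Lib.MP_ca1492_al.D4.DPDefs

/-!
# MP_ca1492_al, D4, DPMat: the column groups and the block subgroups

`colG n m x` is the matrix `1 + (x in column m)` as an element of `GL (Fin n) F`,
`extG h` is `diag(A, 1)`. All proofs are entrywise: split `Fin n` by `i.val < m`, `i.val = m`,
`m < i.val`. The sum `∑ k : Fin n, if k.val < m then g k else 0` is `∑ k : Ix n m, g k`
(`Finset.sum_subtype` / `Finset.sum_dite`).
-/

open Topology Matrix ValuativeRel

set_option linter.unusedSectionVars false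

namespace PC.DP

open Pool.Agent.Lib.MP_ca1492_al.P

variable {F : Type} [Field F] [ValuativeRel F] [TopologicalSpace F] [IsNonarchimedeanLocalField F]
variable {n m : ℕ}

/-- the matrix with the column `x` above the diagonal in column `m` -/
def DPMat_X (n m : ℕ) (x : Ix n m → F) : Matrix (Fin n) (Fin n) F :=
  fun i j => if h : i.val < m ∧ j.val = m then x ⟨i, h.1⟩ else 0

theorem DPMat_colM (x : Ix n m → F) : colM n m x = 1 + DPMat_X n m x := by
  funext i j
  show (if i = j then (1 : F) else if h : i.val < m ∧ j.val = m then x ⟨i, h.1⟩ else 0) =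
    (1 : Matrix (Fin n) (Fin n) F) i j + (if h : i.val < m ∧ j.val = m then x ⟨i, h.1⟩ else 0)
  by_cases hij : i = j
  · subst hij
    rw [if_pos rfl, Matrix.one_apply_eq, dif_neg (by omega), add_zero]
  · rw [if_neg hij, Matrix.one_apply_ne hij, zero_add]

theorem DPMat_X_mul (x y : Ix n m → F) : DPMat_X n m x * DPMat_X n m y = 0 := by
  funext i j
  rw [Matrix.mul_apply]
  refine Finset.sum_eq_zero fun k _ => ?_
  by_cases h : k.val = m
  · have : DPMat_X n m y k j = 0 := dif_neg (by omega)
    rw [this, mul_zero]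
  · have : DPMat_X n m x i k = 0 := dif_neg (by omega)
    rw [this, zero_mul]

theorem DPMat_X_add (x y : Ix n m → F) :
    DPMat_X n m (x + y) = DPMat_X n m x + DPMat_X n m y := by
  funext i j
  show (if h : i.val < m ∧ j.val = m then (x + y) ⟨i, h.1⟩ else 0) =
    (if h : i.val < m ∧ j.val = m then x ⟨i, h.1⟩ else 0) +
      (if h : i.val < m ∧ j.val = m then y ⟨i, h.1⟩ else 0)
  by_cases h : i.val < m ∧ j.val = m
  · rw [dif_pos h, dif_pos h, dif_pos h]
    rfl
  · rw [dif_neg h, dif_neg h, dif_neg h, add_zero]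

theorem colM_add (x y : Ix n m → F) : colM n m x * colM n m y = colM n m (x + y) := by
  rw [DPMat_colM, DPMat_colM, DPMat_colM, DPMat_X_add, add_mul, mul_add, mul_add, DPMat_X_mul]
  simp only [mul_one, one_mul, add_zero]
  abel

theorem colM_zero : colM n m (0 : Ix n m → F) = 1 := by
  funext i j
  show (if i = j then (1 : F) else if h : i.val < m ∧ j.val = m then
    (0 : Ix n m → F) ⟨i, h.1⟩ else 0) = _
  by_cases hij : i = j
  · rw [if_pos hij, hij, Matrix.one_apply_eq]
  · rw [if_neg hij, Matrix.one_apply_ne hij]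
    by_cases h : i.val < m ∧ j.val = m
    · rw [dif_pos h]
      rfl
    · rw [dif_neg h]

/-- the column group -/
def colG (n m : ℕ) (x : Ix n m → F) : GL (Fin n) F where
  val := colM n m x
  inv := colM n m (-x)
  val_inv := by rw [colM_add, add_neg_cancel, colM_zero]
  inv_val := by rw [colM_add, neg_add_cancel, colM_zero]

theorem colG_add (x y : Ix n m → F) : colG n m (x + y) = colG n m x * colG n m y := by
  ext i j
  rw [Units.val_mul]
  exact congrFun (congrFun (colM_add x y).symm i) j

theorem colG_zero : colG n m (0 : Ix n m → F) = 1 := by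
  ext i j
  rw [Units.val_one]
  exact congrFun (congrFun colM_zero i) j

theorem DPMat_ext (A : Matrix (Ix n m) (Ix n m) F) :
    ext A = (Matrix.fromBlocks A 0 0 (1 : Matrix {i : Fin n // ¬ i.val < m}
      {i : Fin n // ¬ i.val < m} F)).submatrix (Equiv.sumCompl (fun i : Fin n => i.val < m)).symm
        (Equiv.sumCompl (fun i : Fin n => i.val < m)).symm := by
  funext i j
  show (if h : i.val < m ∧ j.val < m then A ⟨i, h.1⟩ ⟨j, h.2⟩ else if i = j then 1 else 0) = _
  have e1 : ∀ (l : Fin n) (hl : l.val < m),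
      (Equiv.sumCompl (fun i : Fin n => i.val < m)).symm l = Sum.inl ⟨l, hl⟩ := fun l hl =>
    Equiv.sumCompl_symm_apply_of_pos (p := fun i : Fin n => i.val < m) hl
  have e2 : ∀ (l : Fin n) (hl : ¬ l.val < m),
      (Equiv.sumCompl (fun i : Fin n => i.val < m)).symm l = Sum.inr ⟨l, hl⟩ := fun l hl =>
    Equiv.sumCompl_symm_apply_of_neg (p := fun i : Fin n => i.val < m) hl
  rw [Matrix.submatrix_apply]
  by_cases hi : i.val < m
  · by_cases hj : j.val < m
    · rw [dif_pos ⟨hi, hj⟩, e1 i hi, e1 j hj, Matrix.fromBlocks_apply₁₁]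
    · rw [dif_neg (by omega), e1 i hi, e2 j hj, Matrix.fromBlocks_apply₁₂, if_neg ?_]
      · rfl
      · rintro rfl
        exact hj hi
  · by_cases hj : j.val < m
    · rw [dif_neg (by omega), e2 i hi, e1 j hj, Matrix.fromBlocks_apply₂₁, if_neg ?_]
      · rfl
      · rintro rfl
        exact hi hj
    · rw [dif_neg (by omega), e2 i hi, e2 j hj, Matrix.fromBlocks_apply₂₂, Matrix.one_apply]
      by_cases hij : i = j
      · rw [if_pos hij, if_pos (Subtype.ext hij)]
      · rw [if_neg hij, if_neg fun h => hij (congrArg Subtype.val h)]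

theorem ext_mul (A B : Matrix (Ix n m) (Ix n m) F) : ext (A * B) = ext A * ext B := by
  rw [DPMat_ext, DPMat_ext A, DPMat_ext B, Matrix.submatrix_mul_equiv,
    Matrix.fromBlocks_multiply]
  simp

theorem ext_one : ext (1 : Matrix (Ix n m) (Ix n m) F) = 1 := by
  rw [DPMat_ext, Matrix.fromBlocks_one, Matrix.submatrix_one_equiv]

theorem det_ext (A : Matrix (Ix n m) (Ix n m) F) : (ext A).det = A.det := by
  rw [DPMat_ext, Matrix.det_submatrix_equiv_self, Matrix.det_fromBlocks_zero₂₁, Matrix.det_one,
    mul_one]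

/-- `diag(A, 1)` as an element of `GL (Fin n) F` -/
noncomputable def extG (A : Matrix (Ix n m) (Ix n m) F) (h : A.det ≠ 0) : GL (Fin n) F where
  val := ext A
  inv := ext A⁻¹
  val_inv := by rw [← ext_mul, Matrix.mul_nonsing_inv _ (Ne.isUnit h), ext_one]
  inv_val := by rw [← ext_mul, Matrix.nonsing_inv_mul _ (Ne.isUnit h), ext_one]

theorem extG_mem (A : Matrix (Ix n m) (Ix n m) F) (h : A.det ≠ 0) : extG A h ∈ GG F n m := by
  intro i j hij
  show (if h : i.val < m ∧ j.val < m then A ⟨i, h.1⟩ ⟨j, h.2⟩ else if i = j then 1 else 0) = _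
  rw [dif_neg (by omega), Matrix.one_apply]

theorem blk_extG (A : Matrix (Ix n m) (Ix n m) F) (h : A.det ≠ 0) : blk m (extG A h) = A := by
  funext i j
  show (if h : i.val.val < m ∧ j.val.val < m then A ⟨i.val, h.1⟩ ⟨j.val, h.2⟩ else
    if i.val = j.val then 1 else 0) = _
  rw [dif_pos ⟨i.2, j.2⟩]

theorem det_blk {p : GL (Fin n) F} (hp : p ∈ GG F n m) : (blk m p).det = p.val.det := by
  rw [← det_ext]
  congr 1
  funext i j
  show (if h : i.val < m ∧ j.val < m then p.val i j else if i = j then 1 else 0) = _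
  by_cases h : i.val < m ∧ j.val < m
  · rw [dif_pos h]
  · rw [dif_neg h, hp i j (by omega), Matrix.one_apply]

theorem PP_sub_GG : PP F n m ⊆ GG F n m := by
  intro p hp i j hij
  exact hp i j (by omega)

theorem GG_sub_PP : GG F n m ⊆ PP F n (m + 1) := by
  intro p hp i j hij
  exact hp i j (by omega)

theorem colG_mem_PP (x : Ix n m → F) : colG n m x ∈ PP F n (m + 1) := by
  intro i j hij
  show (if i = j then (1 : F) else if h : i.val < m ∧ j.val = m then x ⟨i, h.1⟩ else 0) = _
  rw [dif_neg (by omega), Matrix.one_apply]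

theorem colG_mem_UU (x : Ix n m → F) : colG n m x ∈ UU F n m := by
  intro i j hij
  show (if i = j then (1 : F) else if h : i.val < m ∧ j.val = m then x ⟨i, h.1⟩ else 0) = _
  rw [dif_neg ?_, Matrix.one_apply]
  rintro ⟨h1, h2⟩
  rcases hij with h | h
  · have : j.val ≤ i.val := h
    omega
  · omega

theorem UU_mono {m' : ℕ} (h : m ≤ m') : UU F n m' ⊆ UU F n m := by
  intro u hu i j hij
  exact hu i j (hij.imp_right fun h' => lt_of_lt_of_le h' h)

theorem UU_mul {u v : GL (Fin n) F} (hu : u ∈ UU F n m) (hv : v ∈ UU F n m) :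
    u * v ∈ UU F n m := by
  intro i j hij
  rw [Units.val_mul, Matrix.mul_apply]
  by_cases hj : j.val < m
  · have : ∀ k ∈ Finset.univ, u.val i k * v.val k j =
        u.val i k * (1 : Matrix (Fin n) (Fin n) F) k j := fun k _ => by
      rw [hv k j (Or.inr hj)]
    rw [Finset.sum_congr rfl this, ← Matrix.mul_apply, Matrix.mul_one]
    exact hu i j (Or.inr hj)
  · have hji : j ≤ i := hij.resolve_right hj
    rw [Finset.sum_eq_single i]
    · rw [hu i i (Or.inl le_rfl), hv i j (Or.inl hji), Matrix.one_apply_eq, one_mul]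
    · intro k _ hk
      rcases lt_or_gt_of_ne hk with h | h
      · rw [hu i k (Or.inl h.le), Matrix.one_apply_ne hk.symm, zero_mul]
      · have h2 : j < k := lt_of_le_of_lt hji h
        rw [hv k j (Or.inl h2.le), Matrix.one_apply_ne h2.ne', mul_zero]
    · intro h
      exact absurd (Finset.mem_univ i) h

theorem UU_inv {u : GL (Fin n) F} (hu : u ∈ UU F n m) : u⁻¹ ∈ UU F n m := by
  have hwu : ((u⁻¹ : GL (Fin n) F).val * u.val) = 1 := by
    rw [← Units.val_mul, inv_mul_cancel, Units.val_one]
  have htri : ∀ i j : Fin n, j < i → (u⁻¹ : GL (Fin n) F).val i j = 0 := by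
    have h1 : Matrix.BlockTriangular u.val (id : Fin n → Fin n) := fun i j h => by
      have h' : j < i := h
      rw [hu i j (Or.inl h'.le), Matrix.one_apply_ne h'.ne']
    have : Invertible u.val := u.invertible
    have h2 := Matrix.blockTriangular_inv_of_blockTriangular h1
    intro i j h
    have h3 : (u⁻¹ : GL (Fin n) F).val = (u.val)⁻¹ := Matrix.coe_units_inv u
    rw [h3]
    exact h2 h
  intro i j hij
  by_cases hj : j.val < m
  · have h4 := congrFun (congrFun hwu i) j
    rw [Matrix.mul_apply] at h4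
    have : ∀ k ∈ Finset.univ, (u⁻¹ : GL (Fin n) F).val i k * u.val k j =
        (u⁻¹ : GL (Fin n) F).val i k * (1 : Matrix (Fin n) (Fin n) F) k j := fun k _ => by
      rw [hu k j (Or.inr hj)]
    rw [Finset.sum_congr rfl this, ← Matrix.mul_apply, Matrix.mul_one] at h4
    exact h4
  · have hji : j ≤ i := hij.resolve_right hj
    rcases hji.lt_or_eq with h | h
    · rw [htri i j h, Matrix.one_apply_ne h.ne']
    · subst h
      have h4 := congrFun (congrFun hwu j) j
      rw [Matrix.mul_apply, Finset.sum_eq_single j] at h4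
      · rw [hu j j (Or.inl le_rfl), Matrix.one_apply_eq, mul_one] at h4
        rw [h4, Matrix.one_apply_eq]
      · intro k _ hk
        rcases lt_or_gt_of_ne hk with h | h
        · rw [htri j k h, zero_mul]
        · rw [hu k j (Or.inl h.le), Matrix.one_apply_ne h.ne', mul_zero]
      · intro h
        exact absurd (Finset.mem_univ j) h

theorem UU_self {u : GL (Fin n) F} (hu : u ∈ UU F n n) : u = 1 := by
  refine Units.ext (Matrix.ext fun i j => ?_)
  rw [hu i j (Or.inr j.2), Units.val_one]

end PC.DP
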