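import Mathlib
import Pool.Agent.Lib.MP_ca1492_al.D4.DPMat

/-!
# MP_ca1492_al, D4, DPMatB: conjugation and the characters `psi`

* `psi_mul`: for unitriangular `u`, `v`: `(u * v) i (i+1) = u i (i+1) + v i (i+1)`.
* `UU_decomp`: `x i = u i m` for `i < m`, `u' = u * colG (-x)`: column `m` of `u'` is the unit
  vector, the other columns of `u * colG (-x)` are those of `u` (right multiplication by
  `colG (-x)` subtracts `∑ x k • (column k)`, and the columns `k < m` of `u` are unit vectors).
* `PP_conj`: `p ∈ PP (m + 1)` acts on the rows `i ≤ m` only, its row `m` is the unit vector; the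
  columns `j ≤ m` of `u ∈ UU (m + 1)` are unit vectors. `(p u p⁻¹) i j` for `j > m` is
  `∑ k ≤ m, p i k * u k j` for `i ≤ m`, equals `u m j` for `i = m`, and is `u i j` for `i > m`.
* `GG_conj`: `p ∈ GG m`: `p * colG x * p⁻¹ = colG (blk m p *ᵥ x)`.
* `blk_last`: the last row of the block of `p ∈ PP m` is `(0 .. 0 1)`.
-/

open Topology Matrix ValuativeRel

set_option linter.unusedSectionVars false

namespace PC.DP

open Pool.Agent.Lib.MP_ca1492_al.P

variable {F : Type} [Field F] [ValuativeRel F] [TopologicalSpace F] [IsNonarchimedeanLocalField F]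
variable {n m : ℕ}

namespace DPMatBAux

theorem superdiag {u v : GL (Fin n) F} (hu : u ∈ UU F n m) (hv : v ∈ UU F n m) {i j : Fin n}
    (hij : i.val + 1 = j.val) : (u * v).val i j = u.val i j + v.val i j := by
  have hne : i ≠ j := by
    rintro rfl
    omega
  rw [Units.val_mul, Matrix.mul_apply, Finset.sum_eq_add i j hne]
  · rw [hu i i (Or.inl le_rfl), hv j j (Or.inl le_rfl), Matrix.one_apply_eq, Matrix.one_apply_eq,
      one_mul, mul_one, add_comm]
  · rintro k - ⟨h1, h2⟩
    rcases lt_or_gt_of_ne h1 with h | h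
    · rw [hu i k (Or.inl h.le), Matrix.one_apply_ne h1.symm, zero_mul]
    · have h3 : j ≤ k := by
        have := Fin.lt_def.1 h
        exact Fin.le_def.2 (by omega)
      rw [hv k j (Or.inl h3), Matrix.one_apply_ne h2, mul_zero]
  · exact fun h => absurd (Finset.mem_univ _) h
  · exact fun h => absurd (Finset.mem_univ _) h

theorem sum_Ix (g : Ix n m → F) :
    (∑ k : Fin n, if h : k.val < m then g ⟨k, h⟩ else 0) = ∑ k : Ix n m, g k := by
  have h1 : ∑ k : Ix n m, g k =
      ∑ k : Ix n m, (fun k : Fin n => if h : k.val < m then g ⟨k, h⟩ else 0) k.val :=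
    Finset.sum_congr rfl fun k _ => by
      show g k = if h : k.val.val < m then g ⟨k.val, h⟩ else 0
      rw [dif_pos k.2]
  rw [h1, ← Finset.sum_subtype (Finset.univ.filter fun k : Fin n => k.val < m) (by simp)
    (fun k : Fin n => if h : k.val < m then g ⟨k, h⟩ else 0), Finset.sum_filter]
  refine Finset.sum_congr rfl fun k _ => ?_
  by_cases hk : k.val < m
  · rw [if_pos hk]
  · rw [if_neg hk, dif_neg hk]

theorem colM_eq (x : Ix n m → F) (k j : Fin n) :
    colM n m x k j = (1 : Matrix (Fin n) (Fin n) F) k j +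
      if h : k.val < m ∧ j.val = m then x ⟨k, h.1⟩ else 0 := by
  unfold colM
  by_cases hkj : k = j
  · subst hkj
    rw [if_pos rfl, Matrix.one_apply_eq, dif_neg (by omega), add_zero]
  · rw [if_neg hkj, Matrix.one_apply_ne hkj, zero_add]

theorem mul_colM (A : Matrix (Fin n) (Fin n) F) (x : Ix n m → F) (i j : Fin n) :
    (A * colM n m x) i j = A i j + if j.val = m then ∑ k : Ix n m, A i k.val * x k else 0 := by
  rw [Matrix.mul_apply]
  have h1 : ∀ k, A i k * colM n m x k j = A i k * (1 : Matrix (Fin n) (Fin n) F) k j +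
      A i k * (if h : k.val < m ∧ j.val = m then x ⟨k, h.1⟩ else 0) := fun k => by
    rw [colM_eq, mul_add]
  rw [Finset.sum_congr rfl (fun k _ => h1 k), Finset.sum_add_distrib, ← Matrix.mul_apply,
    Matrix.mul_one]
  congr 1
  by_cases hj : j.val = m
  · rw [if_pos hj, ← sum_Ix]
    refine Finset.sum_congr rfl fun k _ => ?_
    by_cases hk : k.val < m
    · rw [dif_pos ⟨hk, hj⟩, dif_pos hk]
    · rw [dif_neg (fun h => hk h.1), dif_neg hk, mul_zero]
  · rw [if_neg hj]
    refine Finset.sum_eq_zero fun k _ => ?_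
    rw [dif_neg (fun h => hj h.2), mul_zero]

theorem row_inv {p : GL (Fin n) F} {i : Fin n}
    (h : ∀ j, p.val i j = (1 : Matrix (Fin n) (Fin n) F) i j) (j : Fin n) :
    p⁻¹.val i j = (1 : Matrix (Fin n) (Fin n) F) i j := by
  have h1 : ((1 : Matrix (Fin n) (Fin n) F) * p⁻¹.val) i j = (p.val * p⁻¹.val) i j := by
    rw [Matrix.mul_apply, Matrix.mul_apply]
    exact Finset.sum_congr rfl fun k _ => by rw [h k]
  rw [Matrix.one_mul] at h1
  rw [h1, ← Units.val_mul, mul_inv_cancel, Units.val_one]

theorem col_inv {p : GL (Fin n) F} {j : Fin n}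
    (h : ∀ i, p.val i j = (1 : Matrix (Fin n) (Fin n) F) i j) (i : Fin n) :
    p⁻¹.val i j = (1 : Matrix (Fin n) (Fin n) F) i j := by
  have h1 : (p⁻¹.val * (1 : Matrix (Fin n) (Fin n) F)) i j = (p⁻¹.val * p.val) i j := by
    rw [Matrix.mul_apply, Matrix.mul_apply]
    exact Finset.sum_congr rfl fun k _ => by rw [h k]
  rw [Matrix.mul_one] at h1
  rw [h1, ← Units.val_mul, inv_mul_cancel, Units.val_one]

end DPMatBAux

open DPMatBAux

theorem psi_mul (ψ : AddChar F ℂ) (m' : ℕ) {u v : GL (Fin n) F} (hu : u ∈ UU F n m)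
    (hv : v ∈ UU F n m) : psi ψ n m' (u * v) = psi ψ n m' u * psi ψ n m' v := by
  unfold psi
  rw [← AddChar.map_add_eq_mul, ← Finset.sum_add_distrib]
  congr 1
  refine Finset.sum_congr rfl fun i _ => ?_
  rw [← Finset.sum_add_distrib]
  refine Finset.sum_congr rfl fun j _ => ?_
  by_cases h : i.val + 1 = j.val ∧ m' ≤ j.val
  · rw [if_pos h, if_pos h, if_pos h, superdiag hu hv h.1]
  · rw [if_neg h, if_neg h, if_neg h, add_zero]

theorem psi_one (ψ : AddChar F ℂ) : psi ψ n m (1 : GL (Fin n) F) = 1 := by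
  unfold psi
  rw [Finset.sum_eq_zero, AddChar.map_zero_eq_one]
  intro i _
  refine Finset.sum_eq_zero fun j _ => ?_
  by_cases h : i.val + 1 = j.val ∧ m ≤ j.val
  · rw [if_pos h, Units.val_one, Matrix.one_apply_ne]
    rintro rfl
    omega
  · rw [if_neg h]

theorem psi_ne_zero (ψ : AddChar F ℂ) (u : GL (Fin n) F) : psi ψ n m u ≠ 0 := by
  unfold psi
  intro h
  have h1 := AddChar.map_add_eq_mul ψ
    (∑ i : Fin n, ∑ j : Fin n, if i.val + 1 = j.val ∧ m ≤ j.val then u.val i j else 0)
    (-(∑ i : Fin n, ∑ j : Fin n, if i.val + 1 = j.val ∧ m ≤ j.val then u.val i j else 0))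
  rw [h, add_neg_cancel, AddChar.map_zero_eq_one, zero_mul] at h1
  exact one_ne_zero h1

theorem psi_colG (ψ : AddChar F ℂ) (hm : m < n) (e : Ix n m) (he : e.val.val + 1 = m)
    (x : Ix n m → F) : psi ψ n m (colG n m x) = ψ (x e) := by
  unfold psi
  congr 1
  rw [Finset.sum_eq_single e.val, Finset.sum_eq_single (⟨m, hm⟩ : Fin n)]
  · rw [if_pos ⟨he, le_rfl⟩]
    show colM n m x e.val ⟨m, hm⟩ = x e
    rw [colM_eq, Matrix.one_apply_ne, dif_pos ⟨e.2, rfl⟩, zero_add]
    intro h
    have := congrArg Fin.val h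
    simp only at this
    omega
  · intro j _ hj
    rw [if_neg]
    rintro ⟨h1, -⟩
    exact hj (Fin.ext (by simp only; omega))
  · exact fun h => absurd (Finset.mem_univ _) h
  · intro i _ hi
    refine Finset.sum_eq_zero fun j _ => ?_
    by_cases h : i.val + 1 = j.val ∧ m ≤ j.val
    · rw [if_pos h]
      show colM n m x i j = 0
      rw [colM_eq, Matrix.one_apply_ne, dif_neg, zero_add]
      · rintro ⟨h1, h2⟩
        exact hi (Fin.ext (by omega))
      · rintro rfl
        omega
    · rw [if_neg h]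
  · exact fun h => absurd (Finset.mem_univ _) h

theorem psi_colG_succ (ψ : AddChar F ℂ) (x : Ix n m → F) :
    psi ψ n (m + 1) (colG n m x) = 1 := by
  unfold psi
  rw [Finset.sum_eq_zero, AddChar.map_zero_eq_one]
  intro i _
  refine Finset.sum_eq_zero fun j _ => ?_
  by_cases h : i.val + 1 = j.val ∧ m + 1 ≤ j.val
  · rw [if_pos h]
    show colM n m x i j = 0
    rw [colM_eq, Matrix.one_apply_ne, dif_neg, zero_add]
    · rintro ⟨h1, h2⟩
      omega
    · rintro rfl
      omega
  · rw [if_neg h]

theorem psi_succ (ψ : AddChar F ℂ) {u : GL (Fin n) F} (hu : u ∈ UU F n (m + 1)) :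
    psi ψ n (m + 1) u = psi ψ n m u := by
  unfold psi
  congr 1
  refine Finset.sum_congr rfl fun i _ => Finset.sum_congr rfl fun j _ => ?_
  by_cases h : i.val + 1 = j.val ∧ m + 1 ≤ j.val
  · rw [if_pos h, if_pos ⟨h.1, by omega⟩]
  · rw [if_neg h]
    by_cases h' : i.val + 1 = j.val ∧ m ≤ j.val
    · rw [if_pos h', hu i j (Or.inr (by omega)), Matrix.one_apply_ne]
      rintro rfl
      omega
    · rw [if_neg h']

theorem UU_decomp (hm : m < n) {u : GL (Fin n) F} (hu : u ∈ UU F n m) :
    ∃ u' ∈ UU F n (m + 1), ∃ x : Ix n m → F, u = u' * colG n m x := by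
  refine ⟨u * colG n m (-fun k => u.val k.val ⟨m, hm⟩), ?_, fun k => u.val k.val ⟨m, hm⟩, ?_⟩
  · intro i j hij
    show (u.val * colM n m (-fun k => u.val k.val ⟨m, hm⟩)) i j = _
    rw [mul_colM]
    by_cases hj : j.val = m
    · have hj' : (⟨m, hm⟩ : Fin n) = j := Fin.ext hj.symm
      rw [if_pos hj, hj']
      by_cases hi : i.val < m
      · have h1 : ∑ k : Ix n m, u.val i k.val * (-fun k : Ix n m => u.val k.val j) k =
            - u.val i j := by
          rw [Finset.sum_eq_single (⟨i, hi⟩ : Ix n m)]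
          · rw [hu i i (Or.inl le_rfl), Matrix.one_apply_eq, one_mul]
            rfl
          · intro k _ hk
            rw [hu i k.val (Or.inr k.2), Matrix.one_apply_ne, zero_mul]
            rintro rfl
            exact hk rfl
          · exact fun h => absurd (Finset.mem_univ _) h
        rw [h1, add_neg_cancel, Matrix.one_apply_ne]
        rintro rfl
        omega
      · rw [Finset.sum_eq_zero, add_zero]
        · exact hu i j (Or.inl (Fin.le_def.2 (by omega)))
        · intro k _
          rw [hu i k.val (Or.inr k.2), Matrix.one_apply_ne, zero_mul]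
          rintro rfl
          exact hi k.2
    · rw [if_neg hj, add_zero]
      exact hu i j (by omega)
  · rw [mul_assoc, ← colG_add, neg_add_cancel, colG_zero, mul_one]

theorem PP_conj (ψ : AddChar F ℂ) (hm : m < n) {p u : GL (Fin n) F} (hp : p ∈ PP F n (m + 1))
    (hu : u ∈ UU F n (m + 1)) :
    p * u * p⁻¹ ∈ UU F n (m + 1) ∧ psi ψ n (m + 1) (p * u * p⁻¹) = psi ψ n (m + 1) u := by
  have hrow : ∀ i : Fin n, m ≤ i.val → ∀ j, p.val i j = (1 : Matrix (Fin n) (Fin n) F) i j :=
    fun i hi j => hp i j (Or.inl (by omega))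
  have hcol : ∀ j : Fin n, m + 1 ≤ j.val → ∀ i,
      p.val i j = (1 : Matrix (Fin n) (Fin n) F) i j := fun j hj i => hp i j (Or.inr hj)
  have key1 : ∀ i j : Fin n, m + 1 ≤ j.val → (p * u * p⁻¹).val i j = (p * u).val i j := by
    intro i j hj
    rw [Units.val_mul (p * u), Matrix.mul_apply, Finset.sum_eq_single j]
    · rw [col_inv (hcol j hj) j, Matrix.one_apply_eq, mul_one]
    · intro l _ hl
      rw [col_inv (hcol j hj) l, Matrix.one_apply_ne hl, mul_zero]
    · exact fun h => absurd (Finset.mem_univ _) h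
  have key2 : ∀ i j : Fin n, j.val < m + 1 →
      (p * u * p⁻¹).val i j = (1 : Matrix (Fin n) (Fin n) F) i j := by
    intro i j hj
    have h1 : ∀ l, (p * u).val i l * p⁻¹.val l j = p.val i l * p⁻¹.val l j := by
      intro l
      by_cases hl : l.val < m + 1
      · congr 1
        rw [Units.val_mul, Matrix.mul_apply, Finset.sum_eq_single l]
        · rw [hu l l (Or.inl le_rfl), Matrix.one_apply_eq, mul_one]
        · intro k _ hk
          rw [hu k l (Or.inr hl), Matrix.one_apply_ne hk, mul_zero]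
        · exact fun h => absurd (Finset.mem_univ _) h
      · rw [row_inv (hrow l (by omega)) j, Matrix.one_apply_ne, mul_zero, mul_zero]
        rintro rfl
        exact hl hj
    rw [Units.val_mul (p * u), Matrix.mul_apply, Finset.sum_congr rfl (fun l _ => h1 l),
      ← Matrix.mul_apply, ← Units.val_mul, mul_inv_cancel, Units.val_one]
  have key3 : ∀ i j : Fin n, m ≤ i.val → (p * u).val i j = u.val i j := by
    intro i j hi
    rw [Units.val_mul, Matrix.mul_apply, Finset.sum_eq_single i]
    · rw [hrow i hi i, Matrix.one_apply_eq, one_mul]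
    · intro l _ hl
      rw [hrow i hi l, Matrix.one_apply_ne hl.symm, zero_mul]
    · exact fun h => absurd (Finset.mem_univ _) h
  constructor
  · intro i j hij
    by_cases hj : j.val < m + 1
    · exact key2 i j hj
    · have h1 : j.val ≤ i.val := by
        rcases hij with h | h
        · exact Fin.le_def.1 h
        · exact absurd h hj
      rw [key1 i j (by omega), key3 i j (by omega)]
      exact hu i j (Or.inl (Fin.le_def.2 h1))
  · unfold psi
    congr 1
    refine Finset.sum_congr rfl fun i _ => Finset.sum_congr rfl fun j _ => ?_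
    by_cases h : i.val + 1 = j.val ∧ m + 1 ≤ j.val
    · rw [if_pos h, if_pos h, key1 i j h.2, key3 i j (by omega)]
    · rw [if_neg h, if_neg h]

theorem GG_conj {p : GL (Fin n) F} (hp : p ∈ GG F n m) (x : Ix n m → F) :
    p * colG n m x * p⁻¹ = colG n m (blk m p *ᵥ x) := by
  rw [mul_inv_eq_iff_eq_mul]
  ext i j
  show (p.val * colM n m x) i j = (colM n m (blk m p *ᵥ x) * p.val) i j
  rw [mul_colM, Matrix.mul_apply]
  have h1 : ∀ k, colM n m (blk m p *ᵥ x) i k * p.val k j =
      (1 : Matrix (Fin n) (Fin n) F) i k * p.val k j +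
        (if h : i.val < m ∧ k.val = m then (blk m p *ᵥ x) ⟨i, h.1⟩ else 0) *
          (1 : Matrix (Fin n) (Fin n) F) k j := by
    intro k
    rw [colM_eq, add_mul]
    congr 1
    by_cases h : i.val < m ∧ k.val = m
    · rw [hp k j (Or.inl h.2.ge)]
    · rw [dif_neg h, zero_mul, zero_mul]
  rw [Finset.sum_congr rfl (fun k _ => h1 k), Finset.sum_add_distrib, ← Matrix.mul_apply,
    Matrix.one_mul]
  congr 1
  rw [Finset.sum_eq_single j]
  · rw [Matrix.one_apply_eq, mul_one]
    by_cases hj : j.val = m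
    · rw [if_pos hj]
      by_cases hi : i.val < m
      · rw [dif_pos ⟨hi, hj⟩]
        rfl
      · rw [dif_neg (fun h => hi h.1)]
        refine Finset.sum_eq_zero fun k _ => ?_
        rw [hp i k.val (Or.inl (by omega)), Matrix.one_apply_ne, zero_mul]
        rintro rfl
        exact hi k.2
    · rw [if_neg hj, dif_neg (fun h => hj h.2)]
  · intro k _ hk
    rw [Matrix.one_apply_ne hk, mul_zero]
  · exact fun h => absurd (Finset.mem_univ _) h

theorem blk_last {p : GL (Fin n) F} (hp : p ∈ PP F n m) (e : Ix n m) (he : e.val.val + 1 = m)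
    (x : Ix n m → F) : (blk m p *ᵥ x) e = x e := by
  show (∑ k : Ix n m, p.val e.val k.val * x k) = x e
  rw [Finset.sum_eq_single e]
  · rw [hp e.val e.val (Or.inl he.ge), Matrix.one_apply_eq, one_mul]
  · intro k _ hk
    rw [hp e.val k.val (Or.inl he.ge), Matrix.one_apply_ne, zero_mul]
    intro h
    exact hk (Subtype.ext h.symm)
  · exact fun h => absurd (Finset.mem_univ _) h

end PC.DP
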