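import Mathlib
import Pool.Agent.Lib.MP_ca1492_al.D4.DPDefs

/-!
# MP_ca1492_al, D4, DPRk: rank one perturbations of the identity

For `u ∈ Lat 0`, `w ∈ Lat r`, `1 ≤ r`: `s = 1 + w ⬝ᵥ u` satisfies `s ≠ 0`, `ordF s = 0`
(`w ⬝ᵥ u ∈ lat r ≤ lat 1`), `σ x = x + (w ⬝ᵥ x) • u` has the inverse
`x - (s⁻¹ * (w ⬝ᵥ x)) • u`, i.e. the same form with `w' = -(s⁻¹ • w) ∈ Lat r`.
`σ (Lat m) ⊆ Lat m` because `(w ⬝ᵥ x) • u ∈ Lat (r + m + 0) ≤ Lat m`; the same for the inverse.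
-/

open Topology Matrix ValuativeRel

set_option linter.unusedSectionVars false

namespace PC.DP

open Pool.Agent.Lib.MP_ca1492_al.P

variable {F : Type} [Field F] [ValuativeRel F] [TopologicalSpace F] [IsNonarchimedeanLocalField F]
variable {ι : Type} [Fintype ι]

theorem DPRk_dot {r m : ℤ} {w x : ι → F} (hw : w ∈ Lat F ι r) (hx : x ∈ Lat F ι m) :
    w ⬝ᵥ x ∈ lat F (r + m) :=
  (lat F (r + m)).sum_mem fun i _ => lat_mul (hw i) (hx i)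

theorem DPRk_one_lat : (1 : F) ∈ lat F 0 := Or.inr (le_of_eq (ordF_one (F := F)).symm)

theorem DPRk_one_nlat : (1 : F) ∉ lat F 1 := by
  rintro (h | h)
  · exact one_ne_zero h
  · rw [ordF_one] at h
    omega

theorem unit_dot {r : ℤ} (hr : 1 ≤ r) {u w : ι → F} (hu : u ∈ Lat F ι 0) (hw : w ∈ Lat F ι r) :
    1 + w ⬝ᵥ u ≠ 0 ∧ ordF F (1 + w ⬝ᵥ u) = 0 := by
  have hd : w ⬝ᵥ u ∈ lat F 1 := lat_anti (by omega) (DPRk_dot hw hu)
  have h1 : 1 + w ⬝ᵥ u ≠ 0 := by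
    intro h
    have h2 : (1 : F) = -(w ⬝ᵥ u) := eq_neg_of_add_eq_zero_left h
    apply DPRk_one_nlat (F := F)
    rw [h2]
    exact (lat F 1).neg_mem hd
  refine ⟨h1, le_antisymm ?_ ?_⟩
  · by_contra hcon
    push Not at hcon
    have h3 : 1 + w ⬝ᵥ u ∈ lat F 1 := Or.inr (by omega)
    have h4 := (lat F 1).sub_mem h3 hd
    rw [add_sub_cancel_right] at h4
    exact DPRk_one_nlat h4
  · have h3 : 1 + w ⬝ᵥ u ∈ lat F 0 :=
      (lat F 0).add_mem DPRk_one_lat (lat_anti (by omega) hd)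
    rcases h3 with h4 | h4
    · exact absurd h4 h1
    · exact h4

theorem DPRk_mem {r m : ℤ} (hr : 0 ≤ r) {u w x : ι → F} (hu : u ∈ Lat F ι 0)
    (hw : w ∈ Lat F ι r) (hx : x ∈ Lat F ι m) : x + (w ⬝ᵥ x) • u ∈ Lat F ι m := by
  intro i
  refine (lat F m).add_mem (hx i) ?_
  exact lat_anti (by omega) (lat_mul (DPRk_dot hw hx) (hu i))

theorem exists_rk {r : ℤ} (hr : 1 ≤ r) {u w : ι → F} (hu : u ∈ Lat F ι 0) (hw : w ∈ Lat F ι r) :
    ∃ σ : (ι → F) ≃+ (ι → F), (∀ x, σ x = x + (w ⬝ᵥ x) • u) ∧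
      (∀ (m : ℤ) (x : ι → F), x ∈ Lat F ι m ↔ σ x ∈ Lat F ι m) ∧
      ∃ w' ∈ Lat F ι r, ∀ x, σ.symm x = x + (w' ⬝ᵥ x) • u := by
  obtain ⟨hs0, hs⟩ := unit_dot hr hu hw
  set s : F := 1 + w ⬝ᵥ u with hsdef
  have hw' : -(s⁻¹ • w) ∈ Lat F ι r := by
    refine (Lat F ι r).neg_mem fun i => ?_
    have h1 : s⁻¹ ∈ lat F 0 := Or.inr (by rw [ordF_inv, hs, neg_zero])
    exact lat_anti (by omega) (lat_mul h1 (hw i))
  have hdot : ∀ x : ι → F, (-(s⁻¹ • w)) ⬝ᵥ x = -(s⁻¹ * (w ⬝ᵥ x)) := by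
    intro x
    rw [neg_dotProduct, smul_dotProduct, smul_eq_mul]
  have hdu : w ⬝ᵥ u = s - 1 := by rw [hsdef]; ring
  let σ : (ι → F) ≃+ (ι → F) :=
    { toFun := fun x => x + (w ⬝ᵥ x) • u
      invFun := fun x => x + ((-(s⁻¹ • w)) ⬝ᵥ x) • u
      left_inv := by
        intro x
        show x + (w ⬝ᵥ x) • u + ((-(s⁻¹ • w)) ⬝ᵥ (x + (w ⬝ᵥ x) • u)) • u = x
        rw [hdot, dotProduct_add, dotProduct_smul, hdu, smul_eq_mul, add_assoc, ← add_smul]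
        have h1 : w ⬝ᵥ x + -(s⁻¹ * (w ⬝ᵥ x + w ⬝ᵥ x * (s - 1))) = 0 := by
          field_simp
          ring
        rw [h1, zero_smul, add_zero]
      right_inv := by
        intro x
        show x + ((-(s⁻¹ • w)) ⬝ᵥ x) • u + (w ⬝ᵥ (x + ((-(s⁻¹ • w)) ⬝ᵥ x) • u)) • u = x
        rw [hdot, dotProduct_add, dotProduct_smul, hdu, smul_eq_mul, add_assoc, ← add_smul]
        have h1 : -(s⁻¹ * w ⬝ᵥ x) + (w ⬝ᵥ x + -(s⁻¹ * w ⬝ᵥ x) * (s - 1)) = 0 := by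
          field_simp
          ring
        rw [h1, zero_smul, add_zero]
      map_add' := by
        intro x y
        show x + y + (w ⬝ᵥ (x + y)) • u = x + (w ⬝ᵥ x) • u + (y + (w ⬝ᵥ y) • u)
        rw [dotProduct_add, add_smul]
        abel }
  have hσ : ∀ x, σ x = x + (w ⬝ᵥ x) • u := fun x => rfl
  have hσ' : ∀ x, σ.symm x = x + ((-(s⁻¹ • w)) ⬝ᵥ x) • u := fun x => rfl
  refine ⟨σ, hσ, fun m x => ⟨fun hx => ?_, fun hx => ?_⟩, -(s⁻¹ • w), hw', hσ'⟩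
  · rw [hσ]
    exact DPRk_mem (by omega) hu hw hx
  · have h1 := DPRk_mem (by omega : 0 ≤ r) hu hw' hx
    rw [← hσ', AddEquiv.symm_apply_apply] at h1
    exact h1

theorem rk_mem {r m : ℤ} (hr : 0 ≤ r) {u w x : ι → F} (hu : u ∈ Lat F ι 0)
    (hw : w ∈ Lat F ι r) (hx : x ∈ Lat F ι m) : x + (w ⬝ᵥ x) • u ∈ Lat F ι m :=
  DPRk_mem hr hu hw hx

theorem nrm_unit {x : F} (hx : x ≠ 0) (h : ordF F x = 0) : nrm F x = 1 := by
  unfold nrm
  rw [if_neg hx, h, neg_zero, _root_.zpow_zero]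

variable (F) in
theorem DPRk_q_pos : 0 < (qF F : ℝ) := by
  have := one_lt_qF (F := F)
  exact_mod_cast (by omega : 0 < qF F)

theorem nrm_mul (x y : F) : nrm F (x * y) = nrm F x * nrm F y := by
  unfold nrm
  by_cases hx : x = 0
  · rw [hx, zero_mul, if_pos rfl, zero_mul]
  · by_cases hy : y = 0
    · rw [hy, mul_zero, if_pos rfl, mul_zero]
    · rw [if_neg (mul_ne_zero hx hy), if_neg hx, if_neg hy, ordF_mul x y hx hy, neg_add,
        zpow_add₀ (DPRk_q_pos F).ne']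

theorem nrm_pos {x : F} (hx : x ≠ 0) : 0 < nrm F x := by
  unfold nrm
  rw [if_neg hx]
  exact zpow_pos (DPRk_q_pos F) _

theorem nrm_one : nrm F 1 = 1 := nrm_unit one_ne_zero ordF_one

theorem nrm_inv (x : F) : nrm F x⁻¹ = (nrm F x)⁻¹ := by
  unfold nrm
  by_cases hx : x = 0
  · rw [hx, _root_.inv_zero, if_pos rfl, _root_.inv_zero]
  · rw [if_neg hx, if_neg (_root_.inv_ne_zero hx), ordF_inv, ← _root_.zpow_neg]

end PC.DP
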