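import Mathlib
import Pool.Agent.Lib.MP_ca1492_al.D4.DPMat
import Pool.Agent.Lib.MP_ca1492_al.D4.DPRk
import Pool.Agent.Lib.MP_ca1492_al.P.Base
import Pool.Agent.Lib.MP_ca1492_al.P.Cong

/-!
# MP_ca1492_al, D4, DPTop: small elements of the column group and rank one matrices

* `colG_mem_Kc`: the entries of `colM x - 1` are `0` or `x i`; the inverse is `colG (-x)`.
* `rkM u w = 1 + u wᵀ` (`vecMulVec u w`), `rkM u w *ᵥ x = x + (w ⬝ᵥ x) • u`,
  `det (rkM u w) = 1 + w ⬝ᵥ u` (`Matrix.det_one_add_replicateCol_mul_replicateRow` or similar), the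
  inverse is `rkM u (-(s⁻¹ • w))`, `s = 1 + w ⬝ᵥ u`.
* `small`: smoothness gives an open stabilizer of `v` and of `v'`; `Kc_basis`.
-/

open Topology Matrix ValuativeRel

set_option linter.unusedSectionVars false

namespace PC.DP

open Pool.Agent.Lib.MP_ca1492_al.P

variable {F : Type} [Field F] [ValuativeRel F] [TopologicalSpace F] [IsNonarchimedeanLocalField F]
variable {n m : ℕ}

/-- `1 + u wᵀ` -/
def rkM {ι : Type} [Fintype ι] [DecidableEq ι] (u w : ι → F) : Matrix ι ι F :=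
  1 + Matrix.vecMulVec u w

theorem rkM_mulVec {ι : Type} [Fintype ι] [DecidableEq ι] (u w x : ι → F) :
    rkM u w *ᵥ x = x + (w ⬝ᵥ x) • u := by
  unfold rkM
  rw [Matrix.add_mulVec, Matrix.one_mulVec, Matrix.vecMulVec_mulVec]
  congr 1
  ext i
  simp [mul_comm]

theorem det_rkM {ι : Type} [Fintype ι] [DecidableEq ι] (u w : ι → F) :
    (rkM u w).det = 1 + w ⬝ᵥ u := by
  unfold rkM
  rw [Matrix.vecMulVec_eq Unit, Matrix.det_one_add_replicateCol_mul_replicateRow]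

theorem DPTop_lat_natCast {r : ℕ} {x : F} (hx : x ∈ lat F ((r : ℕ) : ℤ)) : x ∈ lat F r := hx

theorem DPTop_colM_sub {r : ℕ} {x : Ix n m → F} (hx : x ∈ Lat F (Ix n m) r) (i j : Fin n) :
    (colM n m x - 1) i j ∈ lat F r := by
  rw [Matrix.sub_apply, colM, Matrix.one_apply]
  by_cases h : i = j
  · rw [if_pos h, if_pos h, sub_self]
    exact (lat F r).zero_mem
  · rw [if_neg h, if_neg h, sub_zero]
    by_cases h2 : i.val < m ∧ j.val = m
    · rw [dif_pos h2]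
      exact hx _
    · rw [dif_neg h2]
      exact (lat F r).zero_mem

theorem colG_mem_Kc {r : ℕ} {x : Ix n m → F} (hx : x ∈ Lat F (Ix n m) r) :
    colG n m x ∈ Kc F (Fin n) r :=
  ⟨fun i j => DPTop_colM_sub hx i j, fun i j => DPTop_colM_sub ((Lat F (Ix n m) r).neg_mem hx) i j⟩

theorem DPTop_ext_sub {r : ℕ} {A : Matrix (Ix n m) (Ix n m) F}
    (hA : ∀ i j, (A - 1) i j ∈ lat F r) (i j : Fin n) : (ext A - 1) i j ∈ lat F r := by
  rw [Matrix.sub_apply, ext, Matrix.one_apply]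
  by_cases h : i.val < m ∧ j.val < m
  · rw [dif_pos h]
    have h1 := hA ⟨i, h.1⟩ ⟨j, h.2⟩
    rw [Matrix.sub_apply, Matrix.one_apply] at h1
    by_cases h2 : i = j
    · subst h2
      rw [if_pos rfl] at h1 ⊢
      exact h1
    · rw [if_neg h2]
      rw [if_neg (fun h3 => h2 (congrArg Subtype.val h3))] at h1
      exact h1
  · rw [dif_neg h, sub_self]
    exact (lat F r).zero_mem

theorem DPTop_rkM_sub {ι : Type} [Fintype ι] [DecidableEq ι] {r : ℕ} {u w : ι → F}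
    (hu : u ∈ Lat F ι 0) (hw : w ∈ Lat F ι r) (i j : ι) : (rkM u w - 1) i j ∈ lat F r := by
  unfold rkM
  rw [add_sub_cancel_left, Matrix.vecMulVec_apply]
  have h := lat_mul (hu i) (hw j)
  rwa [zero_add] at h

theorem DPTop_rkM_mul {ι : Type} [Fintype ι] [DecidableEq ι] (u w : ι → F)
    (h : 1 + w ⬝ᵥ u ≠ 0) : rkM u w * rkM u (-((1 + w ⬝ᵥ u)⁻¹ • w)) = 1 := by
  unfold rkM
  obtain ⟨s, hs⟩ : ∃ s, s = 1 + w ⬝ᵥ u := ⟨_, rfl⟩
  rw [← hs] at h ⊢
  have hd : w ⬝ᵥ u = s - 1 := by rw [hs]; ring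
  ext i j
  rw [Matrix.mul_add, Matrix.add_mul, Matrix.add_mul, Matrix.one_mul, Matrix.mul_one,
    Matrix.one_mul, Matrix.vecMulVec_mul_vecMulVec]
  simp only [Matrix.add_apply, Matrix.vecMulVec_apply, Pi.neg_apply, Pi.smul_apply, smul_eq_mul]
  rw [hd]
  field_simp
  ring

theorem rk_mem_Kc {r : ℕ} (hr : 1 ≤ r) {u w : Ix n m → F} (hu : u ∈ Lat F (Ix n m) 0)
    (hw : w ∈ Lat F (Ix n m) r) (h : (rkM u w).det ≠ 0) :
    extG (rkM u w) h ∈ Kc F (Fin n) r := by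
  refine ⟨fun i j => DPTop_ext_sub (DPTop_rkM_sub hu hw) i j, fun i j => ?_⟩
  obtain ⟨h1, h2⟩ := unit_dot (by exact_mod_cast hr : (1 : ℤ) ≤ r) hu hw
  have hinv : (rkM u w)⁻¹ = rkM u (-((1 + w ⬝ᵥ u)⁻¹ • w)) :=
    Matrix.inv_eq_right_inv (DPTop_rkM_mul u w h1)
  have hw' : -((1 + w ⬝ᵥ u)⁻¹ • w) ∈ Lat F (Ix n m) r := by
    refine (Lat F (Ix n m) r).neg_mem fun k => ?_
    have h3 : (1 + w ⬝ᵥ u)⁻¹ ∈ lat F 0 := by
      rw [mem_lat, ordF_inv, h2]
      right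
      simp
    have h4 := lat_mul h3 (hw k)
    rwa [zero_add] at h4
  have h5 : (((extG (rkM u w) h)⁻¹ : GL (Fin n) F) : Matrix (Fin n) (Fin n) F) =
      ext (rkM u (-((1 + w ⬝ᵥ u)⁻¹ • w))) := by
    rw [← hinv]
    rfl
  rw [h5]
  exact DPTop_ext_sub (DPTop_rkM_sub hu hw') i j

/-- the two ways in which smoothness is used -/
theorem small {V : Type} [AddCommGroup V] [Module ℂ V] (π : Representation ℂ (GL (Fin n) F) V)
    (hπ : IsSm π) (v : V) (m : ℕ) :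
    ∃ r : ℕ, 1 ≤ r ∧ (∀ x ∈ Lat F (Ix n m) r, π (colG n m x) v = v) ∧
      ∀ u ∈ Lat F (Ix n m) 0, ∀ w ∈ Lat F (Ix n m) r, ∀ h : (rkM u w).det ≠ 0,
        π (extG (rkM u w) h) v = v := by
  have hopen := hπ v
  have hnhds : {g : GL (Fin n) F | π g v = v} ∈ nhds (1 : GL (Fin n) F) :=
    hopen.mem_nhds (by simp)
  obtain ⟨m₀, hm₀⟩ := Kc_basis _ hnhds
  have hsub : ∀ g ∈ Kc F (Fin n) (max 1 m₀), π g v = v := fun g hg =>
    hm₀ (Kc_anti (le_max_right 1 m₀) hg)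
  refine ⟨max 1 m₀, le_max_left _ _, fun x hx => hsub _ (colG_mem_Kc hx), fun u hu w hw h =>
    hsub _ (rk_mem_Kc (le_max_left _ _) hu hw h)⟩

end PC.DP
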