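import Mathlib
import Pool.Agent.Lib.MP_ca1492_al.D4.DPDefs

/-!
# MP_ca1492_al, D4, DPLat: the lattices `Lat F ι m`, representatives

Everything from `P/Loc.lean` coordinatewise (`lat_anti`, `lat_isOpen`, `lat_isCompact`,
`lat_basis`, `mem_lat`).
* `Lat_relIndex`: multiplication by an element `ϖ ^ m` with `ordF = m` is an additive automorphism
  of `ι → F` which carries `Lat 0` to `Lat m` and `Lat 1` to `Lat (m + 1)`; use
  `AddSubgroup.relIndex_map_map_of_injective` or similar.
* `QQ_pos`: `Lat 0` is compact and `Lat 1` is open, so the index is finite (a compact group has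
  finite quotient by an open subgroup: `AddSubgroup.quotient_finite_of_isOpen`).
* `exists_rep`: `L / Lat m` is finite because `Lat m' / Lat m` is; take `Quotient.out`
  representatives (compare `reps` in `GKAvg.lean`).
* `rep_card`: `R → L / Lat m` is a bijection.
-/

open Topology Matrix ValuativeRel

set_option linter.unusedSectionVars false

namespace PC.DP

open Pool.Agent.Lib.MP_ca1492_al.P

variable {F : Type} [Field F] [ValuativeRel F] [TopologicalSpace F] [IsNonarchimedeanLocalField F]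
variable {ι : Type} [Fintype ι]

theorem Lat_anti {m m' : ℤ} (h : m ≤ m') : Lat F ι m' ≤ Lat F ι m := by
  exact fun x hx i => lat_anti h (hx i)

theorem exists_mem_Lat (x : ι → F) : ∃ m : ℤ, x ∈ Lat F ι m := by
  obtain ⟨m, hm⟩ := (Set.finite_range (fun i => ordF F (x i))).bddBelow
  exact ⟨m, fun i => Or.inr (hm ⟨i, rfl⟩)⟩

theorem smul_mem_Lat {m m' : ℤ} {c : F} {x : ι → F} (hc : c ∈ lat F m) (hx : x ∈ Lat F ι m') :
    c • x ∈ Lat F ι (m + m') := by
  exact fun i => lat_mul hc (hx i)

theorem dot_mem_lat {m m' : ℤ} {x y : ι → F} (hx : x ∈ Lat F ι m) (hy : y ∈ Lat F ι m') :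
    x ⬝ᵥ y ∈ lat F (m + m') := by
  exact AddSubgroup.sum_mem _ fun i _ => lat_mul (hx i) (hy i)

theorem Lat_isOpen (m : ℤ) : IsOpen (Lat F ι m : Set (ι → F)) := by
  have h : (Lat F ι m : Set (ι → F)) = Set.pi Set.univ (fun _ => (lat F m : Set F)) := by
    ext x
    simp only [SetLike.mem_coe, Set.mem_pi, Set.mem_univ, true_implies]
    exact Iff.rfl
  rw [h]
  exact isOpen_set_pi Set.finite_univ fun _ _ => lat_isOpen m

theorem Lat_isCompact (m : ℤ) : IsCompact (Lat F ι m : Set (ι → F)) := by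
  have h : (Lat F ι m : Set (ι → F)) = Set.pi Set.univ (fun _ => (lat F m : Set F)) := by
    ext x
    simp only [SetLike.mem_coe, Set.mem_pi, Set.mem_univ, true_implies]
    exact Iff.rfl
  rw [h]
  exact isCompact_univ_pi fun _ => lat_isCompact m

theorem Lat_basis (s : Set (ι → F)) (hs : s ∈ 𝓝 (0 : ι → F)) :
    ∃ m : ℕ, (Lat F ι m : Set (ι → F)) ⊆ s := by
  rw [nhds_pi, Filter.mem_pi] at hs
  obtain ⟨J, _, t, ht, hts⟩ := hs
  choose m hm using fun i => lat_basis (t i) (ht i)
  obtain ⟨k, hk⟩ := (Set.finite_range m).bddAbove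
  refine ⟨k, fun x hx => hts fun i _ => hm i ?_⟩
  have h1 : m i ≤ k := hk ⟨i, rfl⟩
  exact lat_anti (by exact_mod_cast h1) (hx i)

theorem QQ_pos : 0 < QQ F ι := by
  have h1 : CompactSpace (Lat F ι 0) := isCompact_iff_compactSpace.mp (Lat_isCompact 0)
  have h2 : IsOpen (((Lat F ι 1).addSubgroupOf (Lat F ι 0) : AddSubgroup (Lat F ι 0)) :
      Set (Lat F ι 0)) := (Lat_isOpen 1).preimage continuous_subtype_val
  have h3 : Finite (Lat F ι 0 ⧸ (Lat F ι 1).addSubgroupOf (Lat F ι 0)) :=
    AddSubgroup.quotient_finite_of_isOpen _ h2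
  exact Nat.card_pos

theorem Lat_relIndex (m : ℤ) : (Lat F ι (m + 1)).relIndex (Lat F ι m) = QQ F ι := by
  obtain ⟨c, hc, hcm⟩ := ordF_surj (F := F) m
  let f : (ι → F) →+ (ι → F) :=
    { toFun := fun x => c • x
      map_zero' := smul_zero c
      map_add' := fun x y => smul_add c x y }
  have hf : Function.Injective f := smul_right_injective _ hc
  have key : ∀ k : ℤ, Lat F ι (m + k) = (Lat F ι k).map f := by
    intro k
    ext x
    rw [AddSubgroup.mem_map]
    constructor
    · intro hx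
      refine ⟨c⁻¹ • x, fun i => ?_, ?_⟩
      · have h1 : c⁻¹ * x i ∈ lat F (-m + (m + k)) :=
          lat_mul (Or.inr (by rw [ordF_inv, hcm])) (hx i)
        rwa [neg_add_cancel_left] at h1
      · exact smul_inv_smul₀ hc x
    · rintro ⟨y, hy, rfl⟩ i
      exact lat_mul (Or.inr hcm.ge) (hy i)
  have h0 := key 0
  rw [add_zero] at h0
  rw [key 1, h0, AddSubgroup.relIndex_map_map_of_injective _ _ hf]
  rfl

theorem Lat_relIndex_pow (m : ℤ) (k : ℕ) :
    (Lat F ι (m + k)).relIndex (Lat F ι m) = QQ F ι ^ k := by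
  induction k with
  | zero => simp
  | succ k ih =>
    have h1 := AddSubgroup.relIndex_mul_relIndex (Lat F ι (m + (k + 1 : ℕ))) (Lat F ι (m + k))
      (Lat F ι m) (Lat_anti (by push_cast; linarith)) (Lat_anti (by linarith))
    rw [← h1, ih]
    have h2 := Lat_relIndex (F := F) (ι := ι) (m + k)
    have h3 : m + ((k + 1 : ℕ) : ℤ) = m + k + 1 := by
      push_cast
      ring
    rw [h3, h2, pow_succ']

theorem DPLat_relIndex_ne {m m' : ℤ} {L : AddSubgroup (ι → F)} (h' : L ≤ Lat F ι m') :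
    (Lat F ι m).relIndex L ≠ 0 := by
  intro h
  have h1 := AddSubgroup.relIndex_eq_zero_of_le_right h' h
  have h2 : m ≤ m' + ((m - m').toNat : ℕ) := by
    have := Int.self_le_toNat (m - m')
    linarith
  have h3 := AddSubgroup.relIndex_dvd_of_le_left (Lat F ι m') (Lat_anti (F := F) (ι := ι) h2)
  rw [h1, Lat_relIndex_pow, zero_dvd_iff] at h3
  exact (pow_pos QQ_pos _).ne' h3

theorem exists_rep {m m' : ℤ} {L : AddSubgroup (ι → F)} (h' : L ≤ Lat F ι m') :
    ∃ R : Finset (ι → F), Rep m L R := by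
  classical
  let N : AddSubgroup L := (Lat F ι m).addSubgroupOf L
  have h1 : N.index ≠ 0 := DPLat_relIndex_ne h'
  have h2 : N.FiniteIndex := ⟨h1⟩
  have h3 : Finite (L ⧸ N) := AddSubgroup.finite_quotient_of_finiteIndex
  have h4 : Fintype (L ⧸ N) := Fintype.ofFinite _
  refine ⟨Finset.univ.image (fun q : L ⧸ N => ((Quotient.out q : L) : ι → F)), ?_, ?_⟩
  · intro r hr
    obtain ⟨q, -, rfl⟩ := Finset.mem_image.mp hr
    exact (Quotient.out q : L).2
  · intro x hx
    have key : ∀ q : L ⧸ N, x - ((Quotient.out q : L) : ι → F) ∈ Lat F ι m ↔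
        q = QuotientAddGroup.mk ⟨x, hx⟩ := by
      intro q
      have h5 : q = QuotientAddGroup.mk (Quotient.out q : L) := (Quotient.out_eq q).symm
      constructor
      · intro h
        rw [h5, QuotientAddGroup.eq, AddSubgroup.mem_addSubgroupOf]
        have : ((-(Quotient.out q : L) + ⟨x, hx⟩ : L) : ι → F) =
            x - ((Quotient.out q : L) : ι → F) := by
          rw [AddSubgroup.coe_add, AddSubgroup.coe_neg]
          abel
        rw [this]
        exact h
      · intro h
        rw [h5, QuotientAddGroup.eq, AddSubgroup.mem_addSubgroupOf] at h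
        have : ((-(Quotient.out q : L) + ⟨x, hx⟩ : L) : ι → F) =
            x - ((Quotient.out q : L) : ι → F) := by
          rw [AddSubgroup.coe_add, AddSubgroup.coe_neg]
          abel
        rw [this] at h
        exact h
    refine ⟨((Quotient.out (QuotientAddGroup.mk ⟨x, hx⟩ : L ⧸ N) : L) : ι → F),
      ⟨Finset.mem_image_of_mem _ (Finset.mem_univ _), (key _).mpr rfl⟩, ?_⟩
    rintro r ⟨hr, hxr⟩
    obtain ⟨q, -, rfl⟩ := Finset.mem_image.mp hr
    rw [(key q).mp hxr]

theorem rep_card {m : ℤ} {L : AddSubgroup (ι → F)} {R : Finset (ι → F)} (hR : Rep m L R) :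
    R.card = (Lat F ι m).relIndex L := by
  classical
  let N : AddSubgroup L := (Lat F ι m).addSubgroupOf L
  have hsub : ∀ a b : L, (QuotientAddGroup.mk a : L ⧸ N) = QuotientAddGroup.mk b ↔
      (b : ι → F) - a ∈ Lat F ι m := by
    intro a b
    rw [QuotientAddGroup.eq, AddSubgroup.mem_addSubgroupOf]
    have : ((-a + b : L) : ι → F) = (b : ι → F) - a := by
      rw [AddSubgroup.coe_add, AddSubgroup.coe_neg]
      abel
    rw [this]
  let f : R → L ⧸ N := fun r => QuotientAddGroup.mk ⟨r.1, hR.1 r.1 r.2⟩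
  have hf : Function.Bijective f := by
    constructor
    · intro a b hab
      have h1 := (hsub _ _).mp hab
      obtain ⟨r, -, hr⟩ := hR.2 b.1 (hR.1 b.1 b.2)
      have h2 := hr a.1 ⟨a.2, h1⟩
      have h3 := hr b.1 ⟨b.2, by rw [sub_self]; exact (Lat F ι m).zero_mem⟩
      exact Subtype.ext (h2.trans h3.symm)
    · intro q
      obtain ⟨x, rfl⟩ := QuotientAddGroup.mk_surjective q
      obtain ⟨r, ⟨hr, hxr⟩, -⟩ := hR.2 x.1 x.2
      exact ⟨⟨r, hr⟩, (hsub _ _).mpr hxr⟩
  have h4 := Nat.card_eq_of_bijective f hf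
  rw [Nat.card_eq_fintype_card, Fintype.card_coe] at h4
  exact h4

theorem Cp_Lat (m : ℤ) : Cp (Lat F ι m) := ⟨m, m, le_rfl, le_rfl⟩

end PC.DP
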