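import Mathlib
import Pool.Agent.Lib.MP_ca1492_al.D4.DPLat

/-!
# MP_ca1492_al, D4, DPI: the integral is well defined

`I_eq`: let `(m, R)` and `(m₁, R₁)` be two admissible choices, say `m ≤ m₁`, so
`Lat m₁ ≤ Lat m ≤ L`. Every `r₁ ∈ R₁` is congruent modulo `Lat m` to exactly one `r ∈ R`, and
`f r₁ = f r`. The fibre over `r` is, after translation by `-r`, a system of representatives of
`Lat m / Lat m₁`: it has `QQ ^ (m₁ - m)` elements (`rep_card`, `Lat_relIndex_pow`). Hence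
`∑ R₁ = QQ ^ (m₁ - m) * ∑ R`. Then `I` unfolds by `Exists.choose_spec`.
-/

open Topology Matrix ValuativeRel

set_option linter.unusedSectionVars false

namespace PC.DP

open Pool.Agent.Lib.MP_ca1492_al.P

variable {F : Type} [Field F] [ValuativeRel F] [TopologicalSpace F] [IsNonarchimedeanLocalField F]
variable {ι : Type} [Fintype ι]
variable {W : Type*} [AddCommGroup W] [Module ℂ W]

open Classical in
/-- the translated fibre is a system of representatives -/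
theorem dpi_fibre {m m₁ : ℤ} (hm : m ≤ m₁) {L : AddSubgroup (ι → F)} (h : Lat F ι m ≤ L)
    {R₁ : Finset (ι → F)} (hR₁ : Rep m₁ L R₁) {r : ι → F} (hr : r ∈ L) :
    (R₁.filter (fun r₁ => r₁ - r ∈ Lat F ι m)).card = QQ F ι ^ (m₁ - m).toNat := by
  have hle : Lat F ι m₁ ≤ Lat F ι m := Lat_anti hm
  have hrep : Rep m₁ (Lat F ι m)
      ((R₁.filter (fun r₁ => r₁ - r ∈ Lat F ι m)).image (fun r₁ => r₁ - r)) := by
    constructor
    · intro y hy
      rw [Finset.mem_image] at hy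
      obtain ⟨r₁, hr₁, rfl⟩ := hy
      exact (Finset.mem_filter.1 hr₁).2
    · intro x hx
      have hxL : x + r ∈ L := L.add_mem (h hx) hr
      obtain ⟨r₁, ⟨h1, h2⟩, h3⟩ := hR₁.2 (x + r) hxL
      refine ⟨r₁ - r, ⟨?_, ?_⟩, ?_⟩
      · rw [Finset.mem_image]
        refine ⟨r₁, Finset.mem_filter.2 ⟨h1, ?_⟩, rfl⟩
        have h4 : r₁ - r = x - (x + r - r₁) := by abel
        rw [h4]
        exact (Lat F ι m).sub_mem hx (hle h2)
      · have h4 : x - (r₁ - r) = x + r - r₁ := by abel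
        rw [h4]
        exact h2
      · rintro y ⟨hy1, hy2⟩
        rw [Finset.mem_image] at hy1
        obtain ⟨r₂, hr₂, rfl⟩ := hy1
        have h5 : r₂ = r₁ := by
          refine h3 r₂ ⟨(Finset.mem_filter.1 hr₂).1, ?_⟩
          have h6 : x + r - r₂ = x - (r₂ - r) := by abel
          rw [h6]
          exact hy2
        rw [h5]
  have h1 := rep_card hrep
  rw [Finset.card_image_of_injective _ (fun a b hab => sub_left_inj.1 hab)] at h1
  rw [h1]
  have h2 := Lat_relIndex_pow (F := F) (ι := ι) m (m₁ - m).toNat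
  rw [show m + ((m₁ - m).toNat : ℤ) = m₁ by omega] at h2
  exact h2

theorem sum_rep {m m₁ : ℤ} (hm : m ≤ m₁) {L : AddSubgroup (ι → F)} (h : Lat F ι m ≤ L)
    {f : (ι → F) → W} (hf : Inv m L f) {R R₁ : Finset (ι → F)} (hR : Rep m L R)
    (hR₁ : Rep m₁ L R₁) :
    ∑ r ∈ R₁, f r = ((QQ F ι : ℂ) ^ (m₁ - m)) • ∑ r ∈ R, f r := by
  classical
  have h1 : ∑ r₁ ∈ R₁, f r₁ =
      ∑ r ∈ R, ∑ r₁ ∈ R₁, if r₁ - r ∈ Lat F ι m then f r₁ else 0 := by
    rw [Finset.sum_comm]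
    refine Finset.sum_congr rfl fun r₁ hr₁ => ?_
    obtain ⟨r, ⟨h2, h3⟩, h4⟩ := hR.2 r₁ (hR₁.1 r₁ hr₁)
    rw [Finset.sum_eq_single_of_mem r h2]
    · rw [if_pos h3]
    · intro r' hr' hne
      rw [if_neg]
      intro h5
      exact hne (h4 r' ⟨hr', h5⟩)
  rw [h1, Finset.smul_sum]
  refine Finset.sum_congr rfl fun r hr => ?_
  rw [← Finset.sum_filter]
  have h2 : ∑ r₁ ∈ R₁.filter (fun r₁ => r₁ - r ∈ Lat F ι m), f r₁ =
      ∑ _r₁ ∈ R₁.filter (fun r₁ => r₁ - r ∈ Lat F ι m), f r := by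
    refine Finset.sum_congr rfl fun r₁ hr₁ => ?_
    have h3 := hf r (hR.1 r hr) (r₁ - r) (Finset.mem_filter.1 hr₁).2
    rw [show r + (r₁ - r) = r₁ by abel] at h3
    exact h3
  rw [h2, Finset.sum_const, dpi_fibre hm h hR₁ (hR.1 r hr), ← Nat.cast_smul_eq_nsmul ℂ]
  congr 1
  rw [Nat.cast_pow, ← zpow_natCast]
  congr 1
  omega

theorem dpi_QQ_ne : ((QQ F ι : ℕ) : ℂ) ≠ 0 :=
  Nat.cast_ne_zero.2 (QQ_pos (F := F) (ι := ι)).ne'

theorem dpi_eq {m m₁ : ℤ} (hm : m ≤ m₁) {L : AddSubgroup (ι → F)} (h : Lat F ι m ≤ L)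
    {f : (ι → F) → W} (hf : Inv m L f) {R R₁ : Finset (ι → F)} (hR : Rep m L R)
    (hR₁ : Rep m₁ L R₁) :
    ((QQ F ι : ℂ) ^ (-m₁)) • ∑ r ∈ R₁, f r = ((QQ F ι : ℂ) ^ (-m)) • ∑ r ∈ R, f r := by
  rw [sum_rep hm h hf hR hR₁, smul_smul, ← zpow_add₀ dpi_QQ_ne]
  congr 2
  omega

theorem I_eq {m : ℤ} {L : AddSubgroup (ι → F)} (h : Lat F ι m ≤ L) {f : (ι → F) → W}
    (hf : Inv m L f) {R : Finset (ι → F)} (hR : Rep m L R) :
    I L f = ((QQ F ι : ℂ) ^ (-m)) • ∑ r ∈ R, f r := by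
  classical
  have hex : ∃ w : W, ∃ m : ℤ, Lat F ι m ≤ L ∧ Inv m L f ∧ ∃ R : Finset (ι → F), Rep m L R ∧
      w = ((QQ F ι : ℂ) ^ (-m)) • ∑ r ∈ R, f r := ⟨_, m, h, hf, R, hR, rfl⟩
  unfold I
  rw [dif_pos hex]
  obtain ⟨m', h', hf', R', hR', he⟩ := hex.choose_spec
  rw [he]
  rcases le_total m m' with hle | hle
  · exact dpi_eq hle h hf hR hR'
  · exact (dpi_eq hle h' hf' hR' hR).symm

theorem Inv.mono {m m₁ : ℤ} (hm : m ≤ m₁) {L : AddSubgroup (ι → F)} {f : (ι → F) → W}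
    (hf : Inv m L f) : Inv m₁ L f :=
  fun x hx y hy => hf x hx y (Lat_anti hm hy)

theorem LCo.mono {L L' : AddSubgroup (ι → F)} (h : L' ≤ L) {f : (ι → F) → W} (hf : LCo L f) :
    LCo L' f := by
  obtain ⟨m, hm⟩ := hf
  exact ⟨m, fun x hx y hy => hm x (h hx) y hy⟩

/-- the general form in which the integral is used: for compact open `L` and finitely many
functions one can take a common `m` and a common `R` -/
theorem exists_common {L : AddSubgroup (ι → F)} (hL : Cp L) {α : Type*} (s : Finset α)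
    (f : α → (ι → F) → W) (hf : ∀ a ∈ s, LCo L (f a)) (m₀ : ℤ) :
    ∃ m : ℤ, m₀ ≤ m ∧ Lat F ι m ≤ L ∧ (∀ a ∈ s, Inv m L (f a)) ∧
      ∃ R : Finset (ι → F), Rep m L R := by
  classical
  have hM : ∃ M : ℤ, ∀ a ∈ s, Inv M L (f a) := by
    induction s using Finset.induction_on with
    | empty => exact ⟨0, fun a ha => absurd ha (Finset.notMem_empty a)⟩
    | insert b s _ ih =>
      obtain ⟨M, hM⟩ := ih (fun a ha => hf a (Finset.mem_insert_of_mem ha))
      obtain ⟨M', hM'⟩ := hf b (Finset.mem_insert_self _ _)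
      refine ⟨max M M', fun a ha => ?_⟩
      rcases Finset.mem_insert.1 ha with h1 | h1
      · rw [h1]
        exact Inv.mono (le_max_right _ _) hM'
      · exact Inv.mono (le_max_left _ _) (hM a h1)
  obtain ⟨M, hM⟩ := hM
  obtain ⟨k, k', hk, hk'⟩ := hL
  refine ⟨max (max m₀ k) M, ?_, ?_, ?_, exists_rep hk'⟩
  · exact le_trans (le_max_left _ _) (le_max_left _ _)
  · exact le_trans (Lat_anti (le_trans (le_max_right _ _) (le_max_left _ _))) hk
  · exact fun a ha => Inv.mono (le_max_right _ _) (hM a ha)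

end PC.DP
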