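import Mathlib
import Pool.Agent.Lib.MP_ca1492_al.D4.DPI

/-!
# MP_ca1492_al, D4, DPIa: linearity of the integral

All statements: take a common `m` and `R` (`exists_common`) and use `I_eq`.
* `I_sub`: take a common `m`, `R'` for `L'`, extend `R'` to a system `R` for `L` or: filter a
  system `R` for `L` by `r ∈ L'`; it is a system for `L'` because `Lat m ≤ L'`.
-/

open Topology Matrix ValuativeRel

set_option linter.unusedSectionVars false

namespace PC.DP

open Pool.Agent.Lib.MP_ca1492_al.P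

variable {F : Type} [Field F] [ValuativeRel F] [TopologicalSpace F] [IsNonarchimedeanLocalField F]
variable {ι : Type} [Fintype ι]
variable {W W' : Type*} [AddCommGroup W] [Module ℂ W] [AddCommGroup W'] [Module ℂ W']
variable {L L' : AddSubgroup (ι → F)}

/-- a common choice for one function -/
theorem DPIa_one (hL : Cp L) {f : (ι → F) → W} (hf : LCo L f) (m₀ : ℤ) :
    ∃ m : ℤ, m₀ ≤ m ∧ Lat F ι m ≤ L ∧ Inv m L f ∧ ∃ R : Finset (ι → F), Rep m L R := by
  obtain ⟨m, h0, h1, h2, h3⟩ := exists_common hL (Finset.univ : Finset Unit) (fun _ => f)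
    (fun _ _ => hf) m₀
  exact ⟨m, h0, h1, h2 () (Finset.mem_univ _), h3⟩

theorem I_congr (hL : Cp L) {f g : (ι → F) → W} (hf : LCo L f) (h : ∀ x ∈ L, f x = g x) :
    I L f = I L g := by
  obtain ⟨m, -, h1, h2, R, hR⟩ := DPIa_one hL hf 0
  have h3 : Inv m L g := by
    intro x hx y hy
    rw [← h x hx, ← h (x + y) (L.add_mem hx (h1 hy))]
    exact h2 x hx y hy
  rw [I_eq h1 h2 hR, I_eq h1 h3 hR]
  congr 1
  exact Finset.sum_congr rfl fun r hr => h r (hR.1 r hr)

theorem I_add (hL : Cp L) {f g : (ι → F) → W} (hf : LCo L f) (hg : LCo L g) :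
    I L (fun x => f x + g x) = I L f + I L g := by
  obtain ⟨m, -, h1, h2, R, hR⟩ := exists_common hL (Finset.univ : Finset Bool)
    (fun b => if b = true then f else g) (by
      intro b _
      cases b
      · exact hg
      · exact hf) 0
  have hf' : Inv m L f := h2 true (Finset.mem_univ _)
  have hg' : Inv m L g := h2 false (Finset.mem_univ _)
  have h3 : Inv m L (fun x => f x + g x) := by
    intro x hx y hy
    change f (x + y) + g (x + y) = f x + g x
    rw [hf' x hx y hy, hg' x hx y hy]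
  rw [I_eq h1 hf' hR, I_eq h1 hg' hR, I_eq h1 h3 hR, Finset.sum_add_distrib, smul_add]

theorem I_smul (hL : Cp L) {f : (ι → F) → W} (hf : LCo L f) (c : ℂ) :
    I L (fun x => c • f x) = c • I L f := by
  obtain ⟨m, -, h1, h2, R, hR⟩ := DPIa_one hL hf 0
  have h3 : Inv m L (fun x => c • f x) := by
    intro x hx y hy
    change c • f (x + y) = c • f x
    rw [h2 x hx y hy]
  rw [I_eq h1 h2 hR, I_eq h1 h3 hR, ← Finset.smul_sum, smul_comm]

theorem I_sum (hL : Cp L) {α : Type*} (s : Finset α) (f : α → (ι → F) → W)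
    (hf : ∀ a ∈ s, LCo L (f a)) : I L (fun x => ∑ a ∈ s, f a x) = ∑ a ∈ s, I L (f a) := by
  obtain ⟨m, -, h1, h2, R, hR⟩ := exists_common hL s f hf 0
  have h3 : Inv m L (fun x => ∑ a ∈ s, f a x) := by
    intro x hx y hy
    change ∑ a ∈ s, f a (x + y) = ∑ a ∈ s, f a x
    exact Finset.sum_congr rfl fun a ha => h2 a ha x hx y hy
  rw [I_eq h1 h3 hR, Finset.sum_congr rfl fun a ha => I_eq h1 (h2 a ha) hR, ← Finset.smul_sum,
    Finset.sum_comm]

theorem I_map (hL : Cp L) {f : (ι → F) → W} (hf : LCo L f) (T : W →ₗ[ℂ] W') :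
    I L (fun x => T (f x)) = T (I L f) := by
  obtain ⟨m, -, h1, h2, R, hR⟩ := DPIa_one hL hf 0
  have h3 : Inv m L (fun x => T (f x)) := by
    intro x hx y hy
    change T (f (x + y)) = T (f x)
    rw [h2 x hx y hy]
  rw [I_eq h1 h2 hR, I_eq h1 h3 hR, map_smul, map_sum]

theorem I_const (m : ℤ) (w : W) : I (Lat F ι m) (fun _ => w) = ((QQ F ι : ℂ) ^ (-m)) • w := by
  have h3 : Inv m (Lat F ι m) (fun _ => w) := fun _ _ _ _ => rfl
  have hR : Rep m (Lat F ι m) {(0 : ι → F)} := by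
    refine ⟨fun r hr => ?_, fun x hx => ⟨0, ⟨Finset.mem_singleton_self _, ?_⟩, fun y hy => ?_⟩⟩
    · rw [Finset.mem_singleton] at hr
      rw [hr]
      exact (Lat F ι m).zero_mem
    · rw [sub_zero]
      exact hx
    · exact Finset.mem_singleton.1 hy.1
  rw [I_eq le_rfl h3 hR, Finset.sum_singleton]

/-- if `f` vanishes on `L` outside `L'`, only `L'` matters -/
theorem I_sub (hL : Cp L) (hL' : Cp L') (h : L' ≤ L) {f : (ι → F) → W} (hf : LCo L f)
    (h0 : ∀ x ∈ L, x ∉ L' → f x = 0) : I L f = I L' f := by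
  classical
  obtain ⟨m₀, -, hm₀, -⟩ := DPIa_one hL' (LCo.mono h hf) 0
  obtain ⟨m, hm, h1, h2, R, hR⟩ := DPIa_one hL hf m₀
  have hmL' : Lat F ι m ≤ L' := (Lat_anti hm).trans hm₀
  have h3 : Inv m L' f := fun x hx y hy => h2 x (h hx) y hy
  have hR' : Rep m L' (R.filter (fun r => r ∈ L')) := by
    refine ⟨fun r hr => (Finset.mem_filter.1 hr).2, fun x hx => ?_⟩
    obtain ⟨r, ⟨hr1, hr2⟩, hr3⟩ := hR.2 x (h hx)
    refine ⟨r, ⟨Finset.mem_filter.2 ⟨hr1, ?_⟩, hr2⟩, fun y hy =>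
      hr3 y ⟨(Finset.mem_filter.1 hy.1).1, hy.2⟩⟩
    have h4 : x - (x - r) ∈ L' := L'.sub_mem hx (hmL' hr2)
    rwa [sub_sub_cancel] at h4
  rw [I_eq h1 h2 hR, I_eq hmL' h3 hR', Finset.sum_filter]
  congr 1
  refine Finset.sum_congr rfl fun r hr => ?_
  split_ifs with h5
  · rfl
  · exact h0 r (hR.1 r hr) h5

/-- the integral is in every subspace which contains the values -/
theorem I_mem (hL : Cp L) {f : (ι → F) → W} (hf : LCo L f) (U : Submodule ℂ W)
    (h : ∀ x ∈ L, f x ∈ U) : I L f ∈ U := by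
  obtain ⟨m, -, h1, h2, R, hR⟩ := DPIa_one hL hf 0
  rw [I_eq h1 h2 hR]
  exact U.smul_mem _ (U.sum_mem fun r hr => h r (hR.1 r hr))

end PC.DP
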