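import Mathlib
import Pool.Agent.Lib.MP_ca1492_al.D4.DPI

/-!
# MP_ca1492_al, D4, DPIb: invariance of the integral, characters, Fubini

* `I_trans`: `R + x₀` (or `R - x₀`) is again a system of representatives of `L / Lat m`
  (`Finset.map` / `Finset.image`, `Finset.sum_image`).
* `I_aut`: `σ` maps a system of representatives to a system of representatives.
* `I_char`: `I L χ = χ x₀ * I L χ` by translation.
* `I_fubini`: take a common `m` for both variables and systems `R`, `R'`; both sides are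
  `QQ ^ (-2 m) • ∑ r ∈ R, ∑ r' ∈ R', f r r'` (the inner integral is an invariant function of the
  outer variable; `I_eq` twice; `Finset.sum_comm`).
-/

open Topology Matrix ValuativeRel

set_option linter.unusedSectionVars false

namespace PC.DP

open Pool.Agent.Lib.MP_ca1492_al.P

variable {F : Type} [Field F] [ValuativeRel F] [TopologicalSpace F] [IsNonarchimedeanLocalField F]
variable {ι : Type} [Fintype ι]
variable {W : Type*} [AddCommGroup W] [Module ℂ W]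
variable {L L' : AddSubgroup (ι → F)}

theorem DPIb_common (hL : Cp L) {f : (ι → F) → W} (hf : LCo L f) (m₀ : ℤ) :
    ∃ m : ℤ, m₀ ≤ m ∧ Lat F ι m ≤ L ∧ Inv m L f ∧ ∃ R : Finset (ι → F), Rep m L R := by
  obtain ⟨m, h1, h2, h3, R, hR⟩ := exists_common hL (Finset.univ : Finset Unit) (fun _ => f)
    (fun _ _ => hf) m₀
  exact ⟨m, h1, h2, h3 () (Finset.mem_univ ()), R, hR⟩

theorem I_trans (hL : Cp L) {f : (ι → F) → W} (hf : LCo L f) {x₀ : ι → F} (hx : x₀ ∈ L) :
    I L (fun x => f (x + x₀)) = I L f := by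
  classical
  obtain ⟨m, -, hm, hi, R, hR⟩ := DPIb_common hL hf 0
  have hi' : Inv m L (fun x => f (x + x₀)) := by
    intro x hxL y hy
    show f (x + y + x₀) = f (x + x₀)
    rw [add_right_comm]
    exact hi _ (L.add_mem hxL hx) y hy
  have hR' : Rep m L (R.image (fun r => r + x₀)) := by
    refine ⟨fun r hr => ?_, fun x hxL => ?_⟩
    · obtain ⟨r', h1, rfl⟩ := Finset.mem_image.1 hr
      exact L.add_mem (hR.1 r' h1) hx
    · obtain ⟨r, ⟨h1, h2⟩, h3⟩ := hR.2 (x - x₀) (L.sub_mem hxL hx)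
      refine ⟨r + x₀, ⟨Finset.mem_image_of_mem _ h1, ?_⟩, ?_⟩
      · rw [show x - (r + x₀) = x - x₀ - r by abel]
        exact h2
      · rintro s ⟨hs1, hs2⟩
        obtain ⟨r', h4, rfl⟩ := Finset.mem_image.1 hs1
        have h5 : r' = r := h3 r' ⟨h4, by
          rw [show x - x₀ - r' = x - (r' + x₀) by abel]
          exact hs2⟩
        rw [h5]
  rw [I_eq hm hi' hR, I_eq hm hi hR', Finset.sum_image (fun a _ b _ h => add_right_cancel h)]

theorem I_aut (hL : Cp L) {f : (ι → F) → W} (hf : LCo L f) (σ : (ι → F) ≃+ (ι → F))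
    (hσ : ∀ (m : ℤ) (x : ι → F), x ∈ Lat F ι m ↔ σ x ∈ Lat F ι m)
    (hσL : ∀ x, x ∈ L ↔ σ x ∈ L) : I L (fun x => f (σ x)) = I L f := by
  classical
  obtain ⟨m, -, hm, hi, R, hR⟩ := DPIb_common hL hf 0
  have hi' : Inv m L (fun x => f (σ x)) := by
    intro x hxL y hy
    show f (σ (x + y)) = f (σ x)
    rw [map_add]
    exact hi _ ((hσL x).1 hxL) _ ((hσ m y).1 hy)
  have hR' : Rep m L (R.image σ) := by
    refine ⟨fun r hr => ?_, fun x hxL => ?_⟩
    · obtain ⟨r', h1, rfl⟩ := Finset.mem_image.1 hr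
      exact (hσL r').1 (hR.1 r' h1)
    · have hx' : σ (σ.symm x) = x := σ.apply_symm_apply x
      obtain ⟨r, ⟨h1, h2⟩, h3⟩ := hR.2 (σ.symm x) ((hσL _).2 (by rw [hx']; exact hxL))
      refine ⟨σ r, ⟨Finset.mem_image_of_mem _ h1, ?_⟩, ?_⟩
      · have h4 := (hσ m _).1 h2
        rw [map_sub, hx'] at h4
        exact h4
      · rintro s ⟨hs1, hs2⟩
        obtain ⟨r', h4, rfl⟩ := Finset.mem_image.1 hs1
        have h5 : r' = r := h3 r' ⟨h4, by
          rw [hσ m, map_sub, hx']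
          exact hs2⟩
        rw [h5]
  rw [I_eq hm hi' hR, I_eq hm hi hR', Finset.sum_image (fun a _ b _ h => σ.injective h)]

theorem I_char (hL : Cp L) (χ : (ι → F) → ℂ) (hχ : ∀ x ∈ L, ∀ y ∈ L, χ (x + y) = χ x * χ y)
    (hl : LCo L χ) (h : ∃ x ∈ L, χ x ≠ 1) : I L χ = 0 := by
  obtain ⟨x₀, hx, hne⟩ := h
  obtain ⟨m, -, hm, hi, R, hR⟩ := DPIb_common hL hl 0
  have hi' : Inv m L (fun x => χ (x + x₀)) := by
    intro x hxL y hy
    show χ (x + y + x₀) = χ (x + x₀)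
    rw [add_right_comm]
    exact hi _ (L.add_mem hxL hx) y hy
  have h1 := I_trans hL hl hx
  have h2 : I L (fun x => χ (x + x₀)) = χ x₀ * I L χ := by
    have h4 : ∑ r ∈ R, χ (r + x₀) = χ x₀ * ∑ r ∈ R, χ r := by
      rw [Finset.mul_sum]
      refine Finset.sum_congr rfl fun r hr => ?_
      rw [hχ r (hR.1 r hr) x₀ hx, mul_comm]
    rw [I_eq hm hi' hR, I_eq hm hi hR, smul_eq_mul, smul_eq_mul, h4, mul_left_comm]
  rw [h2] at h1
  have h3 : (χ x₀ - 1) * I L χ = 0 := by rw [sub_mul, one_mul, h1, sub_self]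
  exact (mul_eq_zero.1 h3).resolve_left (sub_ne_zero.2 hne)

theorem I_fubini (hL : Cp L) (hL' : Cp L') (f : (ι → F) → (ι → F) → W)
    (hf : ∃ m : ℤ, ∀ x ∈ L, ∀ x' ∈ L', ∀ y ∈ Lat F ι m,
      f (x + y) x' = f x x' ∧ f x (x' + y) = f x x') :
    I L (fun x => I L' (fun x' => f x x')) = I L' (fun x' => I L (fun x => f x x')) := by
  obtain ⟨m, hf⟩ := hf
  have hx0 : (0 : ι → F) ∈ L := L.zero_mem
  have hx0' : (0 : ι → F) ∈ L' := L'.zero_mem
  -- a system for `L`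
  obtain ⟨m₁, hm₁, h₁, -, R, hR⟩ := DPIb_common hL (f := fun x => f x 0)
    ⟨m, fun x hx y hy => (hf x hx 0 hx0' y hy).1⟩ m
  obtain ⟨m₂, hm₂, h₂, -, R', hR'⟩ := DPIb_common hL' (f := fun x' => f 0 x')
    ⟨m, fun x' hx' y hy => (hf 0 hx0 x' hx' y hy).2⟩ m
  have hi₂ : ∀ x ∈ L, Inv m₂ L' (fun x' => f x x') := by
    intro x hx
    have h3 : Inv m L' (fun x' => f x x') := fun x' hx' y hy => (hf x hx x' hx' y hy).2
    exact h3.mono hm₂
  have hi₁ : ∀ x' ∈ L', Inv m₁ L (fun x => f x x') := by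
    intro x' hx'
    have h3 : Inv m L (fun x => f x x') := fun x hx y hy => (hf x hx x' hx' y hy).1
    exact h3.mono hm₁
  have e₂ : ∀ x ∈ L, I L' (fun x' => f x x') = ((QQ F ι : ℂ) ^ (-m₂)) • ∑ r' ∈ R', f x r' :=
    fun x hx => I_eq h₂ (hi₂ x hx) hR'
  have e₁ : ∀ x' ∈ L', I L (fun x => f x x') = ((QQ F ι : ℂ) ^ (-m₁)) • ∑ r ∈ R, f r x' :=
    fun x' hx' => I_eq h₁ (hi₁ x' hx') hR
  have j₁ : Inv m₁ L (fun x => I L' (fun x' => f x x')) := by
    intro x hx y hy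
    show I L' (fun x' => f (x + y) x') = I L' (fun x' => f x x')
    rw [e₂ x hx, e₂ (x + y) (L.add_mem hx (h₁ hy))]
    congr 1
    exact Finset.sum_congr rfl fun r' hr' => hi₁ r' (hR'.1 r' hr') x hx y hy
  have j₂ : Inv m₂ L' (fun x' => I L (fun x => f x x')) := by
    intro x' hx' y hy
    show I L (fun x => f x (x' + y)) = I L (fun x => f x x')
    rw [e₁ x' hx', e₁ (x' + y) (L'.add_mem hx' (h₂ hy))]
    congr 1
    exact Finset.sum_congr rfl fun r hr => hi₂ r (hR.1 r hr) x' hx' y hy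
  rw [I_eq h₁ j₁ hR, I_eq h₂ j₂ hR', Finset.sum_congr rfl fun r hr => e₂ r (hR.1 r hr),
    Finset.sum_congr rfl fun r' hr' => e₁ r' (hR'.1 r' hr'), ← Finset.smul_sum, ← Finset.smul_sum,
    Finset.sum_comm, smul_comm]

end PC.DP
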