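import Mathlib
import Pool.Agent.Lib.MP_ca1492_al.D4.DPIa
import Pool.Agent.Lib.MP_ca1492_al.D4.DPIb

/-!
# MP_ca1492_al, D4, DPChar: orthogonality of characters

* `std_iff`: if `x ∉ lat (-r)` then `x ≠ 0`, `ordF x < -r`; let `y ∈ lat (-1)` with `ψ y ≠ 1`
  (then `y ≠ 0`, `ordF y = -1` because `ψ` is trivial on `lat 0`), `c = y / x` has
  `ordF c = -1 - ordF x ≥ r`, `ψ (c * x) ≠ 1`.
* `char_iff`: take `w = Pi.single i c` for a bad coordinate `i` (`single_dotProduct`).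
* `char_orth`: `I_char` or `I_const` + `I_congr`.
* `inversion` (used for Lemma 2): for a function `h` on `ι → F` (values in a complex vector space)
  which is invariant under `Lat m` for some `m`, and `-r ≤ ...`: by `I_fubini`
  `I (Lat (-i)) (fun y => I (Lat (-J)) (fun x => (ψ (y ⬝ᵥ x))⁻¹ • h x))`
  `= I (Lat (-J)) (fun x => (I (Lat (-i)) (fun y => (ψ (y ⬝ᵥ x))⁻¹)) • h x)`
  `= QQ ^ i • I (Lat i) h` (for `i ≥ -J`), by `char_orth` for `-x` and `I_sub`.
-/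

open Topology Matrix ValuativeRel

set_option linter.unusedSectionVars false

namespace PC.DP

open Pool.Agent.Lib.MP_ca1492_al.P

variable {F : Type} [Field F] [ValuativeRel F] [TopologicalSpace F] [IsNonarchimedeanLocalField F]
variable {ι : Type} [Fintype ι]

theorem std_iff {ψ : AddChar F ℂ} (hψ : Std ψ) (r : ℤ) (x : F) :
    (∀ c ∈ lat F r, ψ (c * x) = 1) ↔ x ∈ lat F (-r) := by
  constructor
  · intro h
    by_contra hx
    rw [mem_lat, not_or, not_le] at hx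
    obtain ⟨hx0, hxr⟩ := hx
    obtain ⟨y, hy, hy1⟩ := hψ.ntriv
    have hy0 : y ≠ 0 := by
      rintro rfl
      exact hy1 (AddChar.map_zero_eq_one ψ)
    have hyo : -1 ≤ ordF F y := (mem_lat.mp hy).resolve_left hy0
    have hc : y * x⁻¹ ∈ lat F r := by
      rw [mem_lat]
      right
      rw [ordF_mul y x⁻¹ hy0 (inv_ne_zero hx0), ordF_inv]
      omega
    have h1 := h _ hc
    rw [mul_assoc, inv_mul_cancel₀ hx0, mul_one] at h1
    exact hy1 h1
  · intro hx c hc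
    apply hψ.triv
    have h1 := lat_mul hc hx
    rwa [add_neg_cancel] at h1

theorem char_iff {ψ : AddChar F ℂ} (hψ : Std ψ) (r : ℤ) (x : ι → F) :
    (∀ w ∈ Lat F ι r, ψ (w ⬝ᵥ x) = 1) ↔ x ∈ Lat F ι (-r) := by
  classical
  constructor
  · intro h
    rw [mem_Lat]
    intro i
    rw [← std_iff hψ]
    intro c hc
    have hw : (Pi.single i c : ι → F) ∈ Lat F ι r := by
      rw [mem_Lat]
      intro j
      by_cases hj : j = i
      · subst hj
        rw [Pi.single_eq_same]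
        exact hc
      · rw [Pi.single_eq_of_ne hj]
        exact (lat F r).zero_mem
    have h1 := h _ hw
    rwa [single_dotProduct] at h1
  · intro hx w hw
    apply hψ.triv
    have h1 := dot_mem_lat hw hx
    rwa [add_neg_cancel] at h1

/-- the characters are locally constant, on all of `ι → F` -/
theorem char_lco {ψ : AddChar F ℂ} (hψ : Std ψ) (x : ι → F) :
    LCo ⊤ (fun w : ι → F => ψ (w ⬝ᵥ x)) := by
  obtain ⟨m, hm⟩ := exists_mem_Lat x
  refine ⟨-m, fun w _ y hy => ?_⟩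
  change ψ ((w + y) ⬝ᵥ x) = ψ (w ⬝ᵥ x)
  rw [add_dotProduct, AddChar.map_add_eq_mul]
  have h1 := dot_mem_lat hy hm
  rw [neg_add_cancel] at h1
  rw [hψ.triv _ h1, mul_one]

theorem char_lco_inv {ψ : AddChar F ℂ} (hψ : Std ψ) (x : ι → F) :
    LCo ⊤ (fun w : ι → F => (ψ (w ⬝ᵥ x))⁻¹) := by
  obtain ⟨m, hm⟩ := char_lco hψ x
  exact ⟨m, fun w hw y hy => congrArg (fun z : ℂ => z⁻¹) (hm w hw y hy)⟩

open Classical in
theorem char_orth {ψ : AddChar F ℂ} (hψ : Std ψ) (r : ℤ) (x : ι → F) :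
    I (Lat F ι r) (fun w => ψ (w ⬝ᵥ x)) = if x ∈ Lat F ι (-r) then (QQ F ι : ℂ) ^ (-r) else 0 := by
  have hl : LCo (Lat F ι r) (fun w : ι → F => ψ (w ⬝ᵥ x)) := (char_lco hψ x).mono le_top
  by_cases hx : x ∈ Lat F ι (-r)
  · rw [if_pos hx, I_congr (Cp_Lat r) hl (g := fun _ => (1 : ℂ))
      (fun w hw => (char_iff hψ r x).mpr hx w hw), I_const, smul_eq_mul, mul_one]
  · rw [if_neg hx]
    refine I_char (Cp_Lat r) _ ?_ hl ?_
    · intro a _ b _
      change ψ ((a + b) ⬝ᵥ x) = ψ (a ⬝ᵥ x) * ψ (b ⬝ᵥ x)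
      rw [add_dotProduct, AddChar.map_add_eq_mul]
    · by_contra hcon
      push Not at hcon
      exact hx ((char_iff hψ r x).mp hcon)

open Classical in
theorem char_orth_inv {ψ : AddChar F ℂ} (hψ : Std ψ) (r : ℤ) (x : ι → F) :
    I (Lat F ι r) (fun w => (ψ (w ⬝ᵥ x))⁻¹) =
      if x ∈ Lat F ι (-r) then (QQ F ι : ℂ) ^ (-r) else 0 := by
  have h1 : (fun w : ι → F => (ψ (w ⬝ᵥ x))⁻¹) = fun w : ι → F => ψ (w ⬝ᵥ (-x)) := by
    funext w
    rw [dotProduct_neg, AddChar.map_neg_eq_inv]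
  rw [h1, char_orth hψ r (-x)]
  by_cases hx : x ∈ Lat F ι (-r)
  · rw [if_pos hx, if_pos ((Lat F ι (-r)).neg_mem hx)]
  · rw [if_neg hx, if_neg (fun h => hx (by simpa using (Lat F ι (-r)).neg_mem h))]

theorem inversion {W : Type*} [AddCommGroup W] [Module ℂ W] {ψ : AddChar F ℂ} (hψ : Std ψ)
    (h : (ι → F) → W) (hh : LCo ⊤ h) (i J : ℤ) (hiJ : -J ≤ i) :
    I (Lat F ι (-i)) (fun y => I (Lat F ι (-J)) (fun x => (ψ (y ⬝ᵥ x))⁻¹ • h x)) =
      ((QQ F ι : ℂ) ^ i) • I (Lat F ι i) h := by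
  classical
  obtain ⟨m, hm⟩ := hh
  have hfub := I_fubini (Cp_Lat (F := F) (ι := ι) (-i)) (Cp_Lat (F := F) (ι := ι) (-J))
    (fun y x => (ψ (y ⬝ᵥ x))⁻¹ • h x) (by
      refine ⟨max J (max i m), fun y hy x hx z hz => ⟨?_, ?_⟩⟩
      · change (ψ ((y + z) ⬝ᵥ x))⁻¹ • h x = (ψ (y ⬝ᵥ x))⁻¹ • h x
        have h1 : z ⬝ᵥ x ∈ lat F 0 := by
          have h2 := dot_mem_lat (Lat_anti (le_max_left J (max i m)) hz) hx
          rwa [add_neg_cancel] at h2
        rw [add_dotProduct, AddChar.map_add_eq_mul, hψ.triv _ h1, mul_one]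
      · change (ψ (y ⬝ᵥ (x + z)))⁻¹ • h (x + z) = (ψ (y ⬝ᵥ x))⁻¹ • h x
        have h1 : y ⬝ᵥ z ∈ lat F 0 := by
          have h2 := dot_mem_lat hy
            (Lat_anti ((le_max_left i m).trans (le_max_right J (max i m))) hz)
          rwa [neg_add_cancel] at h2
        rw [dotProduct_add, AddChar.map_add_eq_mul, hψ.triv _ h1, mul_one,
          hm x (AddSubgroup.mem_top x) z
            (Lat_anti ((le_max_right i m).trans (le_max_right J (max i m))) hz)])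
  rw [hfub]
  have hinner : ∀ x : ι → F, I (Lat F ι (-i)) (fun y => (ψ (y ⬝ᵥ x))⁻¹ • h x) =
      (if x ∈ Lat F ι i then (QQ F ι : ℂ) ^ i else 0) • h x := by
    intro x
    have h1 := I_map (Cp_Lat (F := F) (ι := ι) (-i))
      (LCo.mono (le_top : Lat F ι (-i) ≤ ⊤) (char_lco_inv hψ x))
      (LinearMap.toSpanSingleton ℂ W (h x))
    simp only [LinearMap.toSpanSingleton_apply] at h1
    rw [h1, char_orth_inv hψ (-i) x, neg_neg]
  have h2 : (fun x => I (Lat F ι (-i)) (fun y => (ψ (y ⬝ᵥ x))⁻¹ • h x)) =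
      fun x => (if x ∈ Lat F ι i then (QQ F ι : ℂ) ^ i else 0) • h x := funext hinner
  have hl : LCo ⊤ (fun x => (if x ∈ Lat F ι i then (QQ F ι : ℂ) ^ i else 0) • h x) := by
    refine ⟨max i m, fun x _ y hy => ?_⟩
    have hy1 : y ∈ Lat F ι i := Lat_anti (le_max_left i m) hy
    have h3 : (x + y ∈ Lat F ι i) ↔ (x ∈ Lat F ι i) :=
      ⟨fun h4 => by simpa using (Lat F ι i).sub_mem h4 hy1,
        fun h4 => (Lat F ι i).add_mem h4 hy1⟩
    have h4 : h (x + y) = h x :=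
      hm x (AddSubgroup.mem_top x) y (Lat_anti (le_max_right i m) hy)
    change (if x + y ∈ Lat F ι i then (QQ F ι : ℂ) ^ i else 0) • h (x + y) =
      (if x ∈ Lat F ι i then (QQ F ι : ℂ) ^ i else 0) • h x
    rw [h4]
    by_cases hx : x ∈ Lat F ι i
    · rw [if_pos (h3.mpr hx), if_pos hx]
    · rw [if_neg (fun h5 => hx (h3.mp h5)), if_neg hx]
  change I (Lat F ι (-J)) (fun x => I (Lat F ι (-i)) (fun y => (ψ (y ⬝ᵥ x))⁻¹ • h x)) = _
  rw [h2, I_sub (Cp_Lat (-J)) (Cp_Lat i) (Lat_anti hiJ) (hl.mono le_top)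
    (fun x _ hx => by rw [if_neg hx, zero_smul]),
    I_congr (Cp_Lat i) (hl.mono le_top) (g := fun x => ((QQ F ι : ℂ) ^ i) • h x)
      (fun x hx => by rw [if_pos hx]),
    I_smul (Cp_Lat i) (LCo.mono le_top ⟨m, hm⟩)]

end PC.DP
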