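import Mathlib
import Pool.Agent.Lib.MP_ca1492_al.D4.DPChar

/-!
# MP_ca1492_al, D4, DPX: smooth modules over the vector group `ι → F`

`XAct ρ`: `ρ` is an action of the additive group `ι → F` with open stabilizers.
`ee ψ ρ y j w = I (Lat (-j)) (fun x => (ψ (y ⬝ᵥ x))⁻¹ • ρ x w)`.
* `ee_shift`: `ρ x₀ - ψ (y ⬝ᵥ x₀)` is killed by `ee y j` for `x₀ ∈ Lat (-j)`:
  `I (fun x => (ψ (y ⬝ᵥ x))⁻¹ • ρ (x + x₀) w) = ψ (y ⬝ᵥ x₀) • ee y j w` (`I_trans`).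
* `jl`: span induction; every generator is killed for large `j`, finite sums too.
* `ee_mono`: if `ee y j w = 0` then `ee y J w = 0` for `J ≥ j`: `ee y J` of `ee y j w` is
  `QQ ^ j • ee y J w`: `I_map` (apply the linear map `ee y J`, linear on the smooth module by
  `I_add`, `I_smul`) and `ee_shift` (`ee y J (ρ x w) = ψ (y ⬝ᵥ x) • ee y J w`).
* `ee_near`: `ee y' j = ee y j` for `y' - y ∈ Lat j` (`char_iff`).
* `lemma2`: let `w` be fixed by `Lat i`. The set `Lat (-i)` is compact and every `y` has a `j_y` with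
  `ee y j_y w = 0`, hence `ee y' j_y w = 0` on the open set `y + Lat j_y`; finite subcover,
  `J = max`, `J ≥ -i`: `ee y J w = 0` for all `y ∈ Lat (-i)`. `inversion` for
  `h x = ρ x w`: `0 = QQ ^ i • I (Lat i) h = w` (`I_const`, `I_congr`).
-/

open Topology Matrix ValuativeRel

set_option linter.unusedSectionVars false

namespace PC.DP

open Pool.Agent.Lib.MP_ca1492_al.P

variable {F : Type} [Field F] [ValuativeRel F] [TopologicalSpace F] [IsNonarchimedeanLocalField F]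
variable {ι : Type} [Fintype ι]
variable {M : Type*} [AddCommGroup M] [Module ℂ M]

/-- a smooth action of the additive group `ι → F` -/
structure XAct (ρ : (ι → F) → M →ₗ[ℂ] M) : Prop where
  zero : ∀ w, ρ 0 w = w
  add : ∀ x y w, ρ (x + y) w = ρ x (ρ y w)
  sm : ∀ w, ∃ r : ℤ, ∀ x ∈ Lat F ι r, ρ x w = w

/-- the unnormalised projector to the `ψ (y ⬝ᵥ ·)`-part over `Lat (-j)` -/
noncomputable def ee (ψ : AddChar F ℂ) (ρ : (ι → F) → M →ₗ[ℂ] M) (y : ι → F) (j : ℤ) (w : M) : M :=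
  I (Lat F ι (-j)) (fun x => (ψ (y ⬝ᵥ x))⁻¹ • ρ x w)

/-- the span of the `ρ x v - ψ (y ⬝ᵥ x) • v` -/
def kX (ψ : AddChar F ℂ) (ρ : (ι → F) → M →ₗ[ℂ] M) (y : ι → F) : Submodule ℂ M :=
  Submodule.span ℂ {w | ∃ (x : ι → F) (v : M), w = ρ x v - ψ (y ⬝ᵥ x) • v}

/-! ### auxiliary lemmas -/

theorem dpx_psi_ne (ψ : AddChar F ℂ) (a : F) : ψ a ≠ 0 := by
  intro h
  have h1 : ψ (a + -a) = ψ a * ψ (-a) := AddChar.map_add_eq_mul ψ a (-a)
  rw [add_neg_cancel, AddChar.map_zero_eq_one, h, zero_mul] at h1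
  exact one_ne_zero h1

theorem dpx_lco {ψ : AddChar F ℂ} (hψ : Std ψ) {ρ : (ι → F) → M →ₗ[ℂ] M} (hρ : XAct ρ)
    (y : ι → F) (w : M) : LCo ⊤ (fun x : ι → F => (ψ (y ⬝ᵥ x))⁻¹ • ρ x w) := by
  obtain ⟨r, hr⟩ := hρ.sm w
  obtain ⟨m, hm⟩ := char_lco_inv hψ y
  refine ⟨max r m, ?_⟩
  intro x hx z hz
  have h1 : (ψ (y ⬝ᵥ (x + z)))⁻¹ = (ψ (y ⬝ᵥ x))⁻¹ := by
    have h2 := hm x hx z (Lat_anti (le_max_right r m) hz)
    rw [dotProduct_comm y, dotProduct_comm y]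
    exact h2
  have h3 : ρ (x + z) w = ρ x w := by
    rw [hρ.add, hr z (Lat_anti (le_max_left r m) hz)]
  show (ψ (y ⬝ᵥ (x + z)))⁻¹ • ρ (x + z) w = (ψ (y ⬝ᵥ x))⁻¹ • ρ x w
  rw [h1, h3]

theorem dpx_lco' {ψ : AddChar F ℂ} (hψ : Std ψ) {ρ : (ι → F) → M →ₗ[ℂ] M} (hρ : XAct ρ)
    (y : ι → F) (w : M) (L : AddSubgroup (ι → F)) :
    LCo L (fun x : ι → F => (ψ (y ⬝ᵥ x))⁻¹ • ρ x w) :=
  (dpx_lco hψ hρ y w).mono le_top

/-- composition with a map -/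
theorem dpx_lco_comp {W W' : Type*} {L : AddSubgroup (ι → F)} {f : (ι → F) → W}
    (hf : LCo L f) (T : W → W') : LCo L (fun x => T (f x)) := by
  obtain ⟨m, hm⟩ := hf
  exact ⟨m, fun x hx z hz => congrArg T (hm x hx z hz)⟩

/-- the projector is linear -/
noncomputable def dpx_eeL {ψ : AddChar F ℂ} (hψ : Std ψ) {ρ : (ι → F) → M →ₗ[ℂ] M}
    (hρ : XAct ρ) (y : ι → F) (j : ℤ) : M →ₗ[ℂ] M where
  toFun := ee ψ ρ y j
  map_add' w w' := by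
    have h1 : ee ψ ρ y j (w + w') = I (Lat F ι (-j)) (fun x => (ψ (y ⬝ᵥ x))⁻¹ • ρ x w +
        (ψ (y ⬝ᵥ x))⁻¹ • ρ x w') := by
      unfold ee
      congr 1
      funext x
      rw [map_add, smul_add]
    rw [h1, I_add (Cp_Lat _) (dpx_lco' hψ hρ y w _) (dpx_lco' hψ hρ y w' _)]
    rfl
  map_smul' c w := by
    have h1 : ee ψ ρ y j (c • w) = I (Lat F ι (-j)) (fun x => c • ((ψ (y ⬝ᵥ x))⁻¹ • ρ x w)) := by
      unfold ee
      congr 1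
      funext x
      rw [map_smul, smul_comm]
    rw [h1, I_smul (Cp_Lat _) (dpx_lco' hψ hρ y w _) c]
    rfl

theorem dpx_eeL_apply {ψ : AddChar F ℂ} (hψ : Std ψ) {ρ : (ι → F) → M →ₗ[ℂ] M}
    (hρ : XAct ρ) (y : ι → F) (j : ℤ) (w : M) : dpx_eeL hψ hρ y j w = ee ψ ρ y j w := rfl

theorem ee_shift {ψ : AddChar F ℂ} (hψ : Std ψ) {ρ : (ι → F) → M →ₗ[ℂ] M} (hρ : XAct ρ)
    (y : ι → F) {j : ℤ} {x₀ : ι → F} (hx : x₀ ∈ Lat F ι (-j)) (w : M) :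
    ee ψ ρ y j (ρ x₀ w) = ψ (y ⬝ᵥ x₀) • ee ψ ρ y j w := by
  have hf := dpx_lco' hψ hρ y w (Lat F ι (-j))
  have h1 := I_trans (Cp_Lat (-j)) hf hx
  have h2 : ee ψ ρ y j (ρ x₀ w) = I (Lat F ι (-j)) (fun x => ψ (y ⬝ᵥ x₀) •
      ((ψ (y ⬝ᵥ (x + x₀)))⁻¹ • ρ (x + x₀) w)) := by
    unfold ee
    congr 1
    funext x
    rw [hρ.add, smul_smul, dotProduct_add, AddChar.map_add_eq_mul, mul_inv,
      mul_comm (ψ (y ⬝ᵥ x))⁻¹, ← mul_assoc, mul_inv_cancel₀ (dpx_psi_ne ψ _), one_mul]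
  have h3 : LCo (Lat F ι (-j)) (fun x => (ψ (y ⬝ᵥ (x + x₀)))⁻¹ • ρ (x + x₀) w) := by
    obtain ⟨m, hm⟩ := hf
    refine ⟨m, fun x hxx z hz => ?_⟩
    have h4 := hm (x + x₀) ((Lat F ι (-j)).add_mem hxx hx) z hz
    have h5 : x + z + x₀ = x + x₀ + z := by abel
    show (ψ (y ⬝ᵥ (x + z + x₀)))⁻¹ • ρ (x + z + x₀) w = _
    rw [h5]
    exact h4
  rw [h2, I_smul (Cp_Lat _) h3]
  have h6 : I (Lat F ι (-j)) (fun x => (ψ (y ⬝ᵥ (x + x₀)))⁻¹ • ρ (x + x₀) w) =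
      ee ψ ρ y j w := h1
  rw [h6]

theorem dpx_QQ_ne : (QQ F ι : ℂ) ≠ 0 := by
  have := QQ_pos (F := F) (ι := ι)
  exact_mod_cast this.ne'

theorem ee_mono {ψ : AddChar F ℂ} (hψ : Std ψ) {ρ : (ι → F) → M →ₗ[ℂ] M} (hρ : XAct ρ)
    (y : ι → F) {j J : ℤ} (h : j ≤ J) {w : M} (h0 : ee ψ ρ y j w = 0) : ee ψ ρ y J w = 0 := by
  have hf := dpx_lco' hψ hρ y w (Lat F ι (-j))
  have h1 : dpx_eeL hψ hρ y J (ee ψ ρ y j w) =
      I (Lat F ι (-j)) (fun x => dpx_eeL hψ hρ y J ((ψ (y ⬝ᵥ x))⁻¹ • ρ x w)) :=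
    (I_map (Cp_Lat _) hf (dpx_eeL hψ hρ y J)).symm
  have h2 : I (Lat F ι (-j)) (fun x => dpx_eeL hψ hρ y J ((ψ (y ⬝ᵥ x))⁻¹ • ρ x w)) =
      I (Lat F ι (-j)) (fun _ => ee ψ ρ y J w) := by
    apply I_congr (Cp_Lat _) (dpx_lco_comp hf _)
    intro x hx
    have hx' : x ∈ Lat F ι (-J) := Lat_anti (by omega) hx
    rw [map_smul, dpx_eeL_apply, ee_shift hψ hρ y hx', smul_smul,
      inv_mul_cancel₀ (dpx_psi_ne ψ _), one_smul]
  rw [h2, I_const, h0, map_zero] at h1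
  have h3 := h1.symm
  rw [smul_eq_zero] at h3
  rcases h3 with h3 | h3
  · exact absurd h3 (zpow_ne_zero _ dpx_QQ_ne)
  · exact h3

/-- Jacquet-Langlands -/
theorem jl {ψ : AddChar F ℂ} (hψ : Std ψ) {ρ : (ι → F) → M →ₗ[ℂ] M} (hρ : XAct ρ)
    {y : ι → F} {w : M} (hw : w ∈ kX ψ ρ y) : ∃ j : ℤ, ee ψ ρ y j w = 0 := by
  unfold kX at hw
  induction hw using Submodule.span_induction with
  | mem w h =>
    obtain ⟨x, v, rfl⟩ := h
    obtain ⟨m, hm⟩ := exists_mem_Lat x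
    refine ⟨-m, ?_⟩
    have hx : x ∈ Lat F ι (- -m) := by rwa [neg_neg]
    have h1 : ee ψ ρ y (-m) (ρ x v - ψ (y ⬝ᵥ x) • v) =
        ee ψ ρ y (-m) (ρ x v) - ψ (y ⬝ᵥ x) • ee ψ ρ y (-m) v := by
      rw [← dpx_eeL_apply hψ hρ, map_sub, map_smul]
      rfl
    rw [h1, ee_shift hψ hρ y hx, sub_self]
  | zero => exact ⟨0, by rw [← dpx_eeL_apply hψ hρ, map_zero]⟩
  | add w w' _ _ h h' =>
    obtain ⟨j, hj⟩ := h
    obtain ⟨j', hj'⟩ := h'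
    refine ⟨max j j', ?_⟩
    rw [← dpx_eeL_apply hψ hρ, map_add, dpx_eeL_apply, dpx_eeL_apply,
      ee_mono hψ hρ y (le_max_left j j') hj, ee_mono hψ hρ y (le_max_right j j') hj', add_zero]
  | smul c w _ h =>
    obtain ⟨j, hj⟩ := h
    exact ⟨j, by rw [← dpx_eeL_apply hψ hρ, map_smul, dpx_eeL_apply, hj, smul_zero]⟩

theorem ee_near {ψ : AddChar F ℂ} (hψ : Std ψ) {ρ : (ι → F) → M →ₗ[ℂ] M} (hρ : XAct ρ)
    {y y' : ι → F} {j : ℤ} (h : y' - y ∈ Lat F ι j) (w : M) :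
    ee ψ ρ y' j w = ee ψ ρ y j w := by
  unfold ee
  apply I_congr (Cp_Lat _) (dpx_lco' hψ hρ y' w _)
  intro x hx
  have h1 : ψ ((y' - y) ⬝ᵥ x) = 1 := (char_iff hψ j x).mpr hx _ h
  have h2 : y' ⬝ᵥ x = y ⬝ᵥ x + (y' - y) ⬝ᵥ x := by
    rw [← add_dotProduct]
    congr 1
    abel
  rw [h2, AddChar.map_add_eq_mul, h1, mul_one]

/-- a vector whose spectral projections all vanish is zero -/
theorem lemma2 {ψ : AddChar F ℂ} (hψ : Std ψ) {ρ : (ι → F) → M →ₗ[ℂ] M} (hρ : XAct ρ)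
    {w : M} (h : ∀ y : ι → F, ∃ j : ℤ, ee ψ ρ y j w = 0) : w = 0 := by
  obtain ⟨i, hi⟩ := hρ.sm w
  choose jj hjj using h
  -- a finite subcover
  have hU : ∀ y ∈ (Lat F ι (-i) : Set (ι → F)), {y' | y' - y ∈ Lat F ι (jj y)} ∈ 𝓝 y := by
    intro y _
    have h1 : IsOpen {y' : ι → F | y' - y ∈ Lat F ι (jj y)} :=
      (Lat_isOpen (jj y)).preimage (continuous_id.sub continuous_const)
    refine h1.mem_nhds ?_
    show y - y ∈ Lat F ι (jj y)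
    rw [sub_self]
    exact (Lat F ι (jj y)).zero_mem
  obtain ⟨t, -, ht⟩ := (Lat_isCompact (F := F) (ι := ι) (-i)).elim_nhds_subcover _ hU
  classical
  obtain ⟨J, hJ⟩ := (insert (-i) (t.image jj)).exists_le
  have hJi : -i ≤ J := hJ _ (Finset.mem_insert_self _ _)
  have hzero : ∀ y ∈ Lat F ι (-i), ee ψ ρ y J w = 0 := by
    intro y hy
    have h2 := ht hy
    rw [Set.mem_iUnion₂] at h2
    obtain ⟨z, hz, hz2⟩ := h2
    have h3 : ee ψ ρ y (jj z) w = 0 := by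
      rw [ee_near hψ hρ hz2 w]
      exact hjj z
    exact ee_mono hψ hρ y
      (hJ _ (Finset.mem_insert_of_mem (Finset.mem_image_of_mem _ hz))) h3
  have hlh : LCo ⊤ (fun x : ι → F => ρ x w) := by
    refine ⟨i, fun x _ z hz => ?_⟩
    show ρ (x + z) w = ρ x w
    rw [hρ.add, hi z hz]
  have hinv := inversion hψ (fun x : ι → F => ρ x w) hlh i J (by omega)
  have hL : I (Lat F ι (-i)) (fun y => I (Lat F ι (-J)) (fun x => (ψ (y ⬝ᵥ x))⁻¹ • ρ x w)) =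
      I (Lat F ι (-i)) (fun _ => (0 : M)) := by
    apply I_congr (Cp_Lat _)
    · refine ⟨-i, fun x hx z hz => ?_⟩
      have e1 := hzero (x + z) ((Lat F ι (-i)).add_mem hx hz)
      have e2 := hzero x hx
      exact e1.trans e2.symm
    · intro y hy
      exact hzero y hy
  have hR : I (Lat F ι i) (fun x : ι → F => ρ x w) = I (Lat F ι i) (fun _ => w) :=
    I_congr (Cp_Lat _) (hlh.mono le_top) (fun x hx => hi x hx)
  rw [hL, hR, I_const, I_const, smul_zero, smul_smul, _root_.zpow_neg,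
    mul_inv_cancel₀ (zpow_ne_zero _ dpx_QQ_ne), one_smul] at hinv
  exact hinv.symm

end PC.DP
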