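import Mathlib
import Pool.Agent.Lib.MP_ca1492_al.D4.DPMatB
import Pool.Agent.Lib.MP_ca1492_al.D4.DPTop
import Pool.Agent.Lib.MP_ca1492_al.D4.DPX

/-!
# MP_ca1492_al, D4, DPDeg: THEOREM DEG

`1 ≤ m < n`. `M = V ⧸ KK (m + 1)`, `ρ x` = the map induced by `π (colG x)` (it preserves
`KK (m + 1)` because `colG x ∈ PP (m + 1)`: `PP_conj`); every `p ∈ PP (m + 1)` acts on `M`.
* `KK_eq`: `KK m` is the preimage in `V` of `kX ψ ρ E`, `E = Pi.single e 1`; `KT m` is the preimage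
  of `kX ψ ρ 0` (`UU_decomp`, `psi_colG`, `psi_colG_succ`, `psi_succ`, `psi_mul`).
* `transitive`: for `y ≠ 0` there is `A`, `det A ≠ 0`, with `(A x) e = y ⬝ᵥ x`: an invertible matrix
  whose row `e` is `y`.
  `ρ (A x) = P ρ x P⁻¹`, `P` the action of `extG A` (`GG_conj`, `blk_extG`), so
  `kX ψ ρ y = P⁻¹ (kX ψ ρ E)`. So if `KK m = ⊤` then `kX ψ ρ y = ⊤` for all `y ≠ 0`.
* `deg_a`: all `kX ψ ρ y = ⊤`; `jl` and `lemma2`: every `w ∈ M` is `0`.
* `deg_b`: `w = ρ x₀ v - v ∈ kX ψ ρ 0`: `jl` for `y = 0`, and for `y ≠ 0` because `kX ψ ρ y = ⊤`;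
  `lemma2`: `w = 0`.
-/

open Topology Matrix ValuativeRel

set_option linter.unusedSectionVars false

namespace PC.DP

open Pool.Agent.Lib.MP_ca1492_al.P

variable {F : Type} [Field F] [ValuativeRel F] [TopologicalSpace F] [IsNonarchimedeanLocalField F]
variable {n m : ℕ}
variable {V : Type} [AddCommGroup V] [Module ℂ V]

theorem exists_row {ι : Type} [Fintype ι] [DecidableEq ι] (e : ι) (y : ι → F) (hy : y ≠ 0) :
    ∃ A : Matrix ι ι F, A.det ≠ 0 ∧ ∀ x, (A *ᵥ x) e = y ⬝ᵥ x := by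
  obtain ⟨i, hi⟩ : ∃ i, y i ≠ 0 := by
    by_contra h
    push Not at h
    exact hy (funext h)
  have hd : ((1 : Matrix ι ι F).updateRow i y).det = y i := by
    have h1 := congrFun (congrFun (congrArg DFunLike.coe (Matrix.cramer_one (n := ι) (α := F))) y) i
    rw [Matrix.cramer_apply] at h1
    rw [← Matrix.det_transpose, ← Matrix.updateCol_transpose, Matrix.transpose_one, h1]
    rfl
  refine ⟨((1 : Matrix ι ι F).updateRow i y).submatrix (Equiv.swap e i) id, ?_, fun x => ?_⟩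
  · rw [Matrix.det_permute, hd]
    refine mul_ne_zero ?_ hi
    rcases Int.units_eq_one_or (Equiv.Perm.sign (Equiv.swap e i)) with h | h <;> rw [h] <;> simp
  · change (fun j => (((1 : Matrix ι ι F).updateRow i y).submatrix (Equiv.swap e i) id) e j) ⬝ᵥ x
      = y ⬝ᵥ x
    congr 1
    funext j
    rw [Matrix.submatrix_apply, Equiv.swap_apply_left, Matrix.updateRow_self]
    rfl

/-- `KK (m + 1)` is contained in `KK m` -/
theorem KK_succ_le (ψ : AddChar F ℂ) (π : Representation ℂ (GL (Fin n) F) V) :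
    KK ψ (m + 1) π ≤ KK ψ m π := by
  refine Submodule.span_le.2 ?_
  rintro w ⟨u, hu, v, rfl⟩
  refine Submodule.subset_span ⟨u, UU_mono (Nat.le_succ m) hu, v, ?_⟩
  rw [psi_succ ψ hu]

theorem KK_succ_le_KT (ψ : AddChar F ℂ) (π : Representation ℂ (GL (Fin n) F) V) :
    KK ψ (m + 1) π ≤ KT ψ m π := by
  refine Submodule.span_le.2 ?_
  rintro w ⟨u, hu, v, rfl⟩
  exact Submodule.subset_span ⟨u, UU_mono (Nat.le_succ m) hu, v, rfl⟩

/-- `PP (m + 1)` preserves `KK (m + 1)` -/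
theorem PP_KK (ψ : AddChar F ℂ) (hm : m < n) (π : Representation ℂ (GL (Fin n) F) V)
    {p : GL (Fin n) F} (hp : p ∈ PP F n (m + 1)) :
    KK ψ (m + 1) π ≤ (KK ψ (m + 1) π).comap (π p) := by
  refine Submodule.span_le.2 ?_
  rintro w ⟨u, hu, v, rfl⟩
  rw [SetLike.mem_coe, Submodule.mem_comap]
  obtain ⟨h1, h2⟩ := PP_conj ψ hm hp hu
  refine Submodule.subset_span ⟨p * u * p⁻¹, h1, π p v, ?_⟩
  rw [h2, map_sub, map_smul]
  congr 1
  rw [← Module.End.mul_apply, ← Module.End.mul_apply, ← map_mul, ← map_mul, inv_mul_cancel_right]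

/-- the action of the column group on `V ⧸ KK (m + 1)` -/
noncomputable def rh (ψ : AddChar F ℂ) (hm : m < n) (π : Representation ℂ (GL (Fin n) F) V)
    (x : Ix n m → F) : (V ⧸ KK ψ (m + 1) π) →ₗ[ℂ] (V ⧸ KK ψ (m + 1) π) :=
  (KK ψ (m + 1) π).mapQ (KK ψ (m + 1) π) (π (colG n m x)) (PP_KK ψ hm π (colG_mem_PP x))

theorem rh_mk (ψ : AddChar F ℂ) (hm : m < n) (π : Representation ℂ (GL (Fin n) F) V)
    (x : Ix n m → F) (v : V) :
    rh ψ hm π x ((KK ψ (m + 1) π).mkQ v) = (KK ψ (m + 1) π).mkQ (π (colG n m x) v) := rfl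

theorem rh_act (ψ : AddChar F ℂ) (hm : m < n) (π : Representation ℂ (GL (Fin n) F) V)
    (hπ : IsSm π) : XAct (rh ψ hm π) where
  zero w := by
    obtain ⟨v, rfl⟩ := Submodule.mkQ_surjective _ w
    rw [rh_mk, colG_zero, map_one, Module.End.one_apply]
  add x y w := by
    obtain ⟨v, rfl⟩ := Submodule.mkQ_surjective _ w
    rw [rh_mk, rh_mk, rh_mk, colG_add, map_mul, Module.End.mul_apply]
  sm w := by
    obtain ⟨v, rfl⟩ := Submodule.mkQ_surjective _ w
    obtain ⟨r, -, h, -⟩ := small π hπ v m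
    refine ⟨r, fun x hx => ?_⟩
    rw [rh_mk, h x hx]

/-- the generators of a twisted space, modulo `KK (m + 1)` -/
theorem KK_kX (ψ : AddChar F ℂ) (hm : m < n) (π : Representation ℂ (GL (Fin n) F) V)
    (e : Ix n m) (he : e.val.val + 1 = m) (hK : KK ψ m π = ⊤) :
    kX ψ (rh ψ hm π) (Pi.single e 1) = ⊤ := by
  have h1 : KK ψ m π ≤ (kX ψ (rh ψ hm π) (Pi.single e 1)).comap (KK ψ (m + 1) π).mkQ := by
    refine Submodule.span_le.2 ?_
    rintro w ⟨u, hu, v, rfl⟩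
    obtain ⟨u', hu', x, rfl⟩ := UU_decomp hm hu
    have hc : π (u' * colG n m x) v - psi ψ n m (u' * colG n m x) • v =
        (π u' (π (colG n m x) v) - psi ψ n (m + 1) u' • π (colG n m x) v) +
          psi ψ n m u' • (π (colG n m x) v - psi ψ n m (colG n m x) • v) := by
      rw [psi_mul ψ m (UU_mono (Nat.le_succ m) hu') (colG_mem_UU x), psi_succ ψ hu', map_mul,
        Module.End.mul_apply, smul_sub, smul_smul]
      abel
    rw [SetLike.mem_coe, Submodule.mem_comap, hc, map_add]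
    have h0 : (KK ψ (m + 1) π).mkQ
        (π u' (π (colG n m x) v) - psi ψ n (m + 1) u' • π (colG n m x) v) = 0 := by
      rw [← LinearMap.mem_ker, Submodule.ker_mkQ]
      exact Submodule.subset_span ⟨u', hu', _, rfl⟩
    rw [h0, zero_add, map_smul]
    refine Submodule.smul_mem _ _ (Submodule.subset_span ⟨x, (KK ψ (m + 1) π).mkQ v, ?_⟩)
    rw [map_sub, map_smul, rh_mk, psi_colG ψ hm e he, single_one_dotProduct]
  rw [hK] at h1
  refine eq_top_iff.2 fun w _ => ?_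
  obtain ⟨v, rfl⟩ := Submodule.mkQ_surjective _ w
  exact h1 (Submodule.mem_top)

theorem KT_kX (ψ : AddChar F ℂ) (hm : m < n) (π : Representation ℂ (GL (Fin n) F) V) :
    KT ψ m π ≤ (kX ψ (rh ψ hm π) 0).comap (KK ψ (m + 1) π).mkQ := by
  refine Submodule.span_le.2 ?_
  rintro w ⟨u, hu, v, rfl⟩
  obtain ⟨u', hu', x, rfl⟩ := UU_decomp hm hu
  have hc : π (u' * colG n m x) v - psi ψ n (m + 1) (u' * colG n m x) • v =
      (π u' (π (colG n m x) v) - psi ψ n (m + 1) u' • π (colG n m x) v) +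
        psi ψ n (m + 1) u' • (π (colG n m x) v - v) := by
    rw [psi_mul ψ (m + 1) (UU_mono (Nat.le_succ m) hu') (colG_mem_UU x), psi_colG_succ, mul_one,
      map_mul, Module.End.mul_apply, smul_sub]
    abel
  rw [SetLike.mem_coe, Submodule.mem_comap, hc, map_add]
  have h0 : (KK ψ (m + 1) π).mkQ
      (π u' (π (colG n m x) v) - psi ψ n (m + 1) u' • π (colG n m x) v) = 0 := by
    rw [← LinearMap.mem_ker, Submodule.ker_mkQ]
    exact Submodule.subset_span ⟨u', hu', _, rfl⟩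
  rw [h0, zero_add, map_smul]
  refine Submodule.smul_mem _ _ (Submodule.subset_span ⟨x, (KK ψ (m + 1) π).mkQ v, ?_⟩)
  rw [map_sub, rh_mk, zero_dotProduct, AddChar.map_zero_eq_one, one_smul]

/-- transitivity of the action on the nonzero characters -/
theorem kX_top (ψ : AddChar F ℂ) (hm : m < n) (π : Representation ℂ (GL (Fin n) F) V)
    (e : Ix n m) (he : e.val.val + 1 = m) (hK : KK ψ m π = ⊤) (y : Ix n m → F) (hy : y ≠ 0) :
    kX ψ (rh ψ hm π) y = ⊤ := by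
  obtain ⟨A, hA, hAx⟩ := exists_row e y hy
  have hu : IsUnit A.det := Ne.isUnit hA
  have hB : A⁻¹.det ≠ 0 := by
    rw [Matrix.det_nonsing_inv]
    exact (Ring.inverse_unit hu.unit ▸ (hu.unit⁻¹).ne_zero)
  have hq := GG_sub_PP (extG_mem A⁻¹ hB)
  have h1 : kX ψ (rh ψ hm π) (Pi.single e 1) ≤ (kX ψ (rh ψ hm π) y).comap
      ((KK ψ (m + 1) π).mapQ (KK ψ (m + 1) π) (π (extG A⁻¹ hB)) (PP_KK ψ hm π hq)) := by
    refine Submodule.span_le.2 ?_
    rintro w ⟨x, w, rfl⟩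
    obtain ⟨v, rfl⟩ := Submodule.mkQ_surjective _ w
    rw [SetLike.mem_coe, Submodule.mem_comap]
    refine Submodule.subset_span ⟨A⁻¹ *ᵥ x, (KK ψ (m + 1) π).mkQ (π (extG A⁻¹ hB) v), ?_⟩
    have hx : y ⬝ᵥ (A⁻¹ *ᵥ x) = x e := by
      rw [← hAx, Matrix.mulVec_mulVec, Matrix.mul_nonsing_inv _ hu, Matrix.one_mulVec]
    have hg : extG A⁻¹ hB * colG n m x = colG n m (A⁻¹ *ᵥ x) * extG A⁻¹ hB := by
      have := GG_conj (extG_mem A⁻¹ hB) x
      rw [blk_extG] at this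
      rw [← this, inv_mul_cancel_right]
    rw [rh_mk, map_sub, map_smul, rh_mk, hx, single_one_dotProduct]
    change (KK ψ (m + 1) π).mkQ (π (extG A⁻¹ hB) (π (colG n m x) v)) - _ = _
    rw [← Module.End.mul_apply, ← map_mul, hg, map_mul, Module.End.mul_apply]
    rfl
  rw [KK_kX ψ hm π e he hK] at h1
  refine eq_top_iff.2 fun w _ => ?_
  obtain ⟨v, rfl⟩ := Submodule.mkQ_surjective _ w
  have h2 := h1 (Submodule.mem_top (x := (KK ψ (m + 1) π).mkQ (π (extG A⁻¹ hB)⁻¹ v)))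
  rw [Submodule.mem_comap] at h2
  have h3 : π (extG A⁻¹ hB) (π (extG A⁻¹ hB)⁻¹ v) = v := by
    rw [← Module.End.mul_apply, ← map_mul, mul_inv_cancel, map_one, Module.End.one_apply]
  change (KK ψ (m + 1) π).mkQ (π (extG A⁻¹ hB) (π (extG A⁻¹ hB)⁻¹ v)) ∈ _ at h2
  rwa [h3] at h2

/-- THEOREM DEG (a) -/
theorem deg_a {ψ : AddChar F ℂ} (hψ : Std ψ) (h1 : 1 ≤ m) (hm : m < n)
    (π : Representation ℂ (GL (Fin n) F) V) (hπ : IsSm π) (hK : KK ψ m π = ⊤)
    (hT : KT ψ m π = ⊤) : KK ψ (m + 1) π = ⊤ := by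
  have he : ((⟨⟨m - 1, by omega⟩, by simp only; omega⟩ : Ix n m).val.val) + 1 = m := by
    simp only
    omega
  refine eq_top_iff.2 fun v _ => ?_
  have hv : (KK ψ (m + 1) π).mkQ v = 0 := by
    refine lemma2 hψ (rh_act ψ hm π hπ) fun y => jl hψ (rh_act ψ hm π hπ) (y := y) ?_
    by_cases hy : y = 0
    · subst hy
      have := KT_kX ψ hm π
      rw [hT] at this
      exact this (Submodule.mem_top (x := v))
    · rw [kX_top ψ hm π _ he hK y hy]
      exact Submodule.mem_top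
  rwa [← LinearMap.mem_ker, Submodule.ker_mkQ] at hv

/-- THEOREM DEG (b) -/
theorem deg_b {ψ : AddChar F ℂ} (hψ : Std ψ) (h1 : 1 ≤ m) (hm : m < n)
    (π : Representation ℂ (GL (Fin n) F) V) (hπ : IsSm π) (hK : KK ψ m π = ⊤) :
    KT ψ m π = KK ψ (m + 1) π ∧
      ∀ (x : Ix n m → F) (v : V), π (colG n m x) v - v ∈ KK ψ (m + 1) π := by
  have he : ((⟨⟨m - 1, by omega⟩, by simp only; omega⟩ : Ix n m).val.val) + 1 = m := by
    simp only
    omega
  have hx : ∀ (x : Ix n m → F) (v : V), π (colG n m x) v - v ∈ KK ψ (m + 1) π := by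
    intro x v
    have hv : (KK ψ (m + 1) π).mkQ (π (colG n m x) v - v) = 0 := by
      refine lemma2 hψ (rh_act ψ hm π hπ) fun y => jl hψ (rh_act ψ hm π hπ) (y := y) ?_
      by_cases hy : y = 0
      · subst hy
        refine Submodule.subset_span ⟨x, (KK ψ (m + 1) π).mkQ v, ?_⟩
        rw [map_sub, rh_mk, zero_dotProduct, AddChar.map_zero_eq_one, one_smul]
      · rw [kX_top ψ hm π _ he hK y hy]
        exact Submodule.mem_top
    rwa [← LinearMap.mem_ker, Submodule.ker_mkQ] at hv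
  refine ⟨le_antisymm ?_ (KK_succ_le_KT ψ π), hx⟩
  refine Submodule.span_le.2 ?_
  rintro w ⟨u, hu, v, rfl⟩
  obtain ⟨u', hu', x, rfl⟩ := UU_decomp hm hu
  have hc : π (u' * colG n m x) v - psi ψ n (m + 1) (u' * colG n m x) • v =
      (π u' (π (colG n m x) v) - psi ψ n (m + 1) u' • π (colG n m x) v) +
        psi ψ n (m + 1) u' • (π (colG n m x) v - v) := by
    rw [psi_mul ψ (m + 1) (UU_mono (Nat.le_succ m) hu') (colG_mem_UU x), psi_colG_succ, mul_one,
      map_mul, Module.End.mul_apply, smul_sub]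
    abel
  rw [SetLike.mem_coe, hc]
  exact Submodule.add_mem _ (Submodule.subset_span ⟨u', hu', _, rfl⟩)
    (Submodule.smul_mem _ _ (hx x v))

end PC.DP
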