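import Mathlib

/-!
# MP_ca1492_al, D4, Gelfand-Kazhdan theorem (abstract form): definitions

`G` is a locally profinite group. `GKData G` collects two closed subgroups `N ≤ B`, a character
`ψ` of `N`, an anti-involution `σ` and a set `M` of representatives (monomial matrices).
The theorem `GK` (file `GKMain`): a linear functional on the locally constant compactly supported
functions on `G` which is `ψ`-equivariant under `N` on both sides is invariant under `σ`.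
-/

open Topology

namespace PC.GK

/-- locally constant functions with compact support -/
def IsS {X : Type*} [TopologicalSpace X] (f : X → ℂ) : Prop :=
  IsLocallyConstant f ∧ HasCompactSupport f

variable {G : Type*} [Group G] [TopologicalSpace G]

/-- a point is relevant if the character is trivial on its stabiliser in `N × N` -/
def Rel (N : Subgroup G) (ψ : G → ℂ) (g : G) : Prop :=
  ∀ a ∈ N, ∀ b ∈ N, a * g * b = g → ψ a * ψ b = 1

/-- the orbit of `x` under `B` on the left and `N` on the right -/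
def orb (B N : Subgroup G) (x : G) : Set G := {y | ∃ b ∈ B, ∃ n ∈ N, y = b * x * n}

/-- a good subgroup: a compact subgroup of `N` stable under `σ` -/
def Good (N : Subgroup G) (σ : G → G) (N' : Subgroup G) : Prop :=
  N' ≤ N ∧ IsCompact (N' : Set G) ∧ ∀ a ∈ N', σ a ∈ N'

/-- the data of the Gelfand-Kazhdan theorem -/
structure Data (G : Type*) [Group G] [TopologicalSpace G] where
  N : Subgroup G
  B : Subgroup G
  ψ : G → ℂ
  σ : G → G
  M : Set G
  W : Finset G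
  N_le : N ≤ B
  N_closed : IsClosed (N : Set G)
  B_closed : IsClosed (B : Set G)
  norm : ∀ b ∈ B, ∀ n ∈ N, b * n * b⁻¹ ∈ N
  ψ_mul : ∀ a ∈ N, ∀ b ∈ N, ψ (a * b) = ψ a * ψ b
  ψ_one : ψ 1 = 1
  ψ_loc : ∃ U ∈ 𝓝 (1 : G), ∀ a ∈ N, a ∈ U → ψ a = 1
  σ_cont : Continuous σ
  σ_inv : ∀ g, σ (σ g) = g
  σ_mul : ∀ g h, σ (g * h) = σ h * σ g
  σ_N : ∀ a ∈ N, σ a ∈ N
  ψ_σ : ∀ a ∈ N, ψ (σ a) = ψ a
  /-- every compact subset of `N` lies in a good subgroup -/
  exh : ∀ K : Set G, IsCompact K → K ⊆ N → ∃ N' : Subgroup G, Good N σ N' ∧ K ⊆ N'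
  /-- finitely many orbits of `B × N` -/
  fin : ∀ g, ∃ w ∈ W, g ∈ orb B N w
  /-- `σ` maps orbits into orbits -/
  σ_orb : ∀ g, ∀ b ∈ B, ∀ n ∈ N, σ (b * g * n) ∈ orb B N (σ g)
  /-- compact parts of an orbit: the `N`-components stay in a compact subgroup -/
  comp : ∀ w ∈ W, ∀ K : Set (G × G), IsCompact K → (∀ p ∈ K, p.1 ∈ B ∧ p.2 ∈ N) →
    ∃ N' : Subgroup G, Good N σ N' ∧
      ∀ p ∈ K, ∃ m ∈ M, ∃ a ∈ N', ∃ c ∈ N', p.1 * w * p.2 = a * m * c
  /-- relevant representatives are fixed by `σ` -/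
  fix : ∀ m ∈ M, Rel N ψ m → σ m = m

/-- bi-equivariant functionals (only their values on `IsS` functions matter) -/
def Equi (N : Subgroup G) (ψ : G → ℂ) (D : (G → ℂ) →ₗ[ℂ] ℂ) : Prop :=
  ∀ f : G → ℂ, IsS f → ∀ a ∈ N,
    D (fun x => f (a * x)) = (ψ a)⁻¹ * D f ∧ D (fun x => f (x * a)) = (ψ a)⁻¹ * D f

/-- `D` is supported on the closed set `X` -/
def Supp (X : Set G) (D : (G → ℂ) →ₗ[ℂ] ℂ) : Prop :=
  ∀ f : G → ℂ, IsS f → (∀ x ∈ X, f x = 0) → D f = 0

/-- stable under `B` on the left and `N` on the right -/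
def Stab (B N : Subgroup G) (X : Set G) : Prop := ∀ x ∈ X, ∀ b ∈ B, ∀ n ∈ N, b * x * n ∈ X

/-- openness of the orbit map at `x`, relative to `X` -/
def Op (B N : Subgroup G) (X : Set G) (x : G) : Prop :=
  ∀ U ∈ 𝓝 (1 : G), ∃ V ∈ 𝓝 x, ∀ y ∈ V, y ∈ X → ∃ b ∈ B, b ∈ U ∧ ∃ n ∈ N, n ∈ U ∧ y = b * x * n

/-- locally uniformly irrelevant at `x`, relative to `X` -/
def LI (N : Subgroup G) (ψ : G → ℂ) (X : Set G) (x : G) : Prop :=
  ∃ K : Set G, IsCompact K ∧ K ⊆ N ∧ ∃ V ∈ 𝓝 x, ∀ y ∈ V, y ∈ X →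
    ∃ a ∈ K, ∃ b ∈ K, a * y * b = y ∧ ψ a * ψ b ≠ 1

/-- the average of `f` over the finite set `R` on both sides -/
noncomputable def av (ψ : G → ℂ) (σ : G → G) (R : Finset G) (f : G → ℂ) : G → ℂ := fun x =>
  ((R.card : ℂ)⁻¹) ^ 2 * ∑ a ∈ R, ∑ b ∈ R, ψ a * ψ b * f (a * x * σ b)

end PC.GK
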