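import Mathlib
import Pool.Agent.Lib.MP_ca1492_al.D4.GKDefs
import Pool.Agent.Lib.MP_ca1492_al.D4.GLDefs

/-!
# MP_ca1492_al, D4, Exh: compact subsets of `N` lie in compact subgroups stable under `sg`

`N_j = {a ∈ N | ∀ i < k, p ^ (j * (k - i)) * a i k ∈ O and the same for a⁻¹}`. It is a subgroup
(`(a b) i k = ∑ a i l * b l k` and `j (l - i) + j (k - l) = j (k - i)`), stable under `sg`
(`(rev i) - (rev k) = k - i`), closed and contained in the compact set of all `g` with
`g`, `g⁻¹` having all entries in `p ^ (-j n) O` (closed embedding of units into `M × Mᵐᵒᵖ`), hence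
compact. A compact `K ⊆ N` has all entries (of `a` and `a⁻¹`) in a compact subset of `F`, which
is covered by the increasing open sets `{x | p ^ j * x ∈ O}`; so `K ⊆ N_j` for large `j`.
-/

open Topology

namespace PC.GK

variable {F : Type} [Field F] [TopologicalSpace F] [IsTopologicalRing F] [T2Space F] {n : ℕ}

theorem exh_mono (d : LFData F) {a b : ℕ} (hab : a ≤ b) {x : F} (hx : d.p ^ a * x ∈ d.O) :
    d.p ^ b * x ∈ d.O := by
  obtain ⟨c, rfl⟩ := Nat.exists_eq_add_of_le hab
  have e : d.p ^ (a + c) * x = d.p ^ c * (d.p ^ a * x) := by ring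
  rw [e]
  exact d.O.mul_mem (d.O.pow_mem d.p_mem c) hx

/-- a continuous function on a compact set has values in some `p ^ (-j) O` -/
theorem exh_bd (d : LFData F) {X : Type*} [TopologicalSpace X] {K : Set X} (hK : IsCompact K)
    {h : X → F} (hh : Continuous h) : ∃ j : ℕ, ∀ g ∈ K, d.p ^ j * h g ∈ d.O := by
  have hopen : ∀ j : ℕ, IsOpen {g | d.p ^ j * h g ∈ d.O} := fun j =>
    d.O_open.preimage (continuous_const.mul hh)
  have hcov : K ⊆ ⋃ j : ℕ, {g | d.p ^ j * h g ∈ d.O} := by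
    intro g _
    obtain ⟨j, hj⟩ := d.exh (h g)
    exact Set.mem_iUnion.2 ⟨j, hj⟩
  have hdir : Directed (· ⊆ ·) (fun j : ℕ => {g | d.p ^ j * h g ∈ d.O}) := by
    intro a b
    exact ⟨max a b, fun g hg => exh_mono d (le_max_left a b) hg,
      fun g hg => exh_mono d (le_max_right a b) hg⟩
  obtain ⟨j, hj⟩ := hK.elim_directed_cover _ hopen hcov hdir
  exact ⟨j, fun g hg => hj hg⟩

theorem exh_bd_fin (d : LFData F) {X : Type*} [TopologicalSpace X] {K : Set X} (hK : IsCompact K)
    {ι : Type*} [Fintype ι] {h : ι → X → F} (hh : ∀ i, Continuous (h i)) :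
    ∃ j : ℕ, ∀ i, ∀ g ∈ K, d.p ^ j * h i g ∈ d.O := by
  choose f hf using fun i => exh_bd d hK (hh i)
  refine ⟨Finset.univ.sup f, fun i g hg => ?_⟩
  exact exh_mono d (Finset.le_sup (f := f) (Finset.mem_univ i)) (hf i g hg)

/-- the entry condition -/
def exhC (d : LFData F) (j : ℕ) (A : Matrix (Fin n) (Fin n) F) : Prop :=
  (∀ i k, k < i → A i k = 0) ∧ (∀ i, A i i = 1) ∧
    ∀ i k : Fin n, i < k → d.p ^ (j * ((k : ℕ) - (i : ℕ))) * A i k ∈ d.O

theorem exhC_le {d : LFData F} {j : ℕ} {A : Matrix (Fin n) (Fin n) F} (h : exhC d j A)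
    {i k : Fin n} (hik : i ≤ k) : d.p ^ (j * ((k : ℕ) - (i : ℕ))) * A i k ∈ d.O := by
  rcases eq_or_lt_of_le hik with h1 | h1
  · subst h1
    rw [Nat.sub_self, mul_zero, pow_zero, one_mul, h.2.1]
    exact d.O.one_mem
  · exact h.2.2 i k h1

theorem exhC_one (d : LFData F) (j : ℕ) : exhC d j (1 : Matrix (Fin n) (Fin n) F) := by
  refine ⟨fun i k h => ?_, fun i => ?_, fun i k h => ?_⟩
  · exact Matrix.one_apply_ne (ne_of_gt h)
  · exact Matrix.one_apply_eq i
  · rw [Matrix.one_apply_ne (ne_of_lt h), mul_zero]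
    exact d.O.zero_mem

theorem exhC_mul {d : LFData F} {j : ℕ} {A C : Matrix (Fin n) (Fin n) F} (hA : exhC d j A)
    (hC : exhC d j C) : exhC d j (A * C) := by
  refine ⟨fun i k h => ?_, fun i => ?_, fun i k h => ?_⟩
  · rw [Matrix.mul_apply]
    refine Finset.sum_eq_zero fun l _ => ?_
    rcases lt_or_ge l i with h1 | h1
    · rw [hA.1 i l h1, zero_mul]
    · rw [hC.1 l k (lt_of_lt_of_le h h1), mul_zero]
  · rw [Matrix.mul_apply, Finset.sum_eq_single i]
    · rw [hA.2.1 i, hC.2.1 i, mul_one]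
    · intro l _ hl
      rcases lt_or_gt_of_ne hl with h1 | h1
      · rw [hA.1 i l h1, zero_mul]
      · rw [hC.1 l i h1, mul_zero]
    · intro h1
      exact absurd (Finset.mem_univ i) h1
  · rw [Matrix.mul_apply, Finset.mul_sum]
    refine d.O.sum_mem fun l _ => ?_
    rcases lt_or_ge l i with h1 | h1
    · rw [hA.1 i l h1, zero_mul, mul_zero]
      exact d.O.zero_mem
    rcases lt_or_ge k l with h2 | h2
    · rw [hC.1 l k h2, mul_zero, mul_zero]
      exact d.O.zero_mem
    have h1' : (i : ℕ) ≤ l := h1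
    have h2' : (l : ℕ) ≤ k := h2
    have e1 : j * ((k : ℕ) - (i : ℕ)) = j * ((l : ℕ) - (i : ℕ)) + j * ((k : ℕ) - (l : ℕ)) := by
      rw [← mul_add]
      congr 1
      omega
    have e2 : d.p ^ (j * ((k : ℕ) - (i : ℕ))) * (A i l * C l k) =
        (d.p ^ (j * ((l : ℕ) - (i : ℕ))) * A i l) * (d.p ^ (j * ((k : ℕ) - (l : ℕ))) * C l k) := by
      rw [e1, pow_add]
      ring
    rw [e2]
    exact d.O.mul_mem (exhC_le hA h1) (exhC_le hC h2)

theorem exhC_antit {d : LFData F} {j : ℕ} {A : Matrix (Fin n) (Fin n) F} (hA : exhC d j A) :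
    exhC d j (antit A) := by
  refine ⟨fun i k h => ?_, fun i => ?_, fun i k h => ?_⟩
  · show A k.rev i.rev = 0
    exact hA.1 _ _ (Fin.rev_lt_rev.2 h)
  · show A i.rev i.rev = 1
    exact hA.2.1 _
  · show d.p ^ (j * ((k : ℕ) - (i : ℕ))) * A k.rev i.rev ∈ d.O
    have h1 : k.rev < i.rev := Fin.rev_lt_rev.2 h
    have h2 := hA.2.2 _ _ h1
    have e : ((i.rev : Fin n) : ℕ) - ((k.rev : Fin n) : ℕ) = (k : ℕ) - (i : ℕ) := by
      rw [Fin.val_rev, Fin.val_rev]
      have := i.isLt
      have := k.isLt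
      have h' : (i : ℕ) < k := h
      omega
    rw [e] at h2
    exact h2

/-- the subgroups `N_j` -/
def exhN (d : LFData F) (n j : ℕ) : Subgroup (GL (Fin n) F) where
  carrier := {g | exhC d j g.1 ∧ exhC d j g⁻¹.1}
  mul_mem' := by
    intro a b ha hb
    refine ⟨?_, ?_⟩
    · rw [Units.val_mul]
      exact exhC_mul ha.1 hb.1
    · rw [_root_.mul_inv_rev, Units.val_mul]
      exact exhC_mul hb.2 ha.2
  one_mem' := by
    refine ⟨exhC_one d j, ?_⟩
    rw [inv_one]
    exact exhC_one d j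
  inv_mem' := by
    intro a ha
    refine ⟨ha.2, ?_⟩
    rw [inv_inv]
    exact ha.1

theorem exhC_closed (d : LFData F) (j : ℕ) :
    IsClosed {A : Matrix (Fin n) (Fin n) F | exhC d j A} := by
  have hO : IsClosed (d.O : Set F) := d.O_cpt.isClosed
  have hent : ∀ i k : Fin n, Continuous (fun A : Matrix (Fin n) (Fin n) F => A i k) :=
    fun i k => (continuous_apply k).comp (continuous_apply i)
  have h1 : IsClosed {A : Matrix (Fin n) (Fin n) F | ∀ i k, k < i → A i k = 0} := by
    simp only [Set.ofPred_forall]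
    refine isClosed_iInter fun i => isClosed_iInter fun k => isClosed_iInter fun _ => ?_
    exact isClosed_eq (hent i k) continuous_const
  have h2 : IsClosed {A : Matrix (Fin n) (Fin n) F | ∀ i, A i i = 1} := by
    simp only [Set.ofPred_forall]
    refine isClosed_iInter fun i => ?_
    exact isClosed_eq (hent i i) continuous_const
  have h3 : IsClosed {A : Matrix (Fin n) (Fin n) F |
      ∀ i k : Fin n, i < k → d.p ^ (j * ((k : ℕ) - (i : ℕ))) * A i k ∈ d.O} := by
    simp only [Set.ofPred_forall]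
    refine isClosed_iInter fun i => isClosed_iInter fun k => isClosed_iInter fun _ => ?_
    exact hO.preimage (continuous_const.mul (hent i k))
  exact h1.inter (h2.inter h3)

theorem exhN_compact (d : LFData F) (n j : ℕ) : IsCompact (exhN d n j : Set (GL (Fin n) F)) := by
  obtain ⟨D, hDdef⟩ : ∃ D : Set F, D = {x : F | d.p ^ (j * n) * x ∈ d.O} := ⟨_, rfl⟩
  have hD : IsCompact D := by
    have e : D = (fun y => (d.p ^ (j * n))⁻¹ * y) '' (d.O : Set F) := by
      rw [hDdef]
      ext x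
      constructor
      · intro hx
        refine ⟨d.p ^ (j * n) * x, hx, ?_⟩
        show (d.p ^ (j * n))⁻¹ * (d.p ^ (j * n) * x) = x
        rw [← mul_assoc, inv_mul_cancel₀ (pow_ne_zero _ d.p_ne), one_mul]
      · rintro ⟨y, hy, rfl⟩
        show d.p ^ (j * n) * ((d.p ^ (j * n))⁻¹ * y) ∈ d.O
        rw [← mul_assoc, mul_inv_cancel₀ (pow_ne_zero _ d.p_ne), one_mul]
        exact hy
    rw [e]
    exact d.O_cpt.image (continuous_const.mul continuous_id)
  obtain ⟨S, hSdef⟩ : ∃ S : Set (Matrix (Fin n) (Fin n) F), S = {A | ∀ i k, A i k ∈ D} := ⟨_, rfl⟩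
  have hS : IsCompact S := by
    have e : S = Set.univ.pi (fun _ : Fin n => Set.univ.pi (fun _ : Fin n => D)) := by
      rw [hSdef]
      apply Set.Subset.antisymm
      · intro A hA i _ k _
        exact hA i k
      · intro A hA i k
        exact hA i (Set.mem_univ i) k (Set.mem_univ k)
    rw [e]
    exact isCompact_univ_pi (fun _ => isCompact_univ_pi (fun _ => hD))
  have hCS : ∀ A : Matrix (Fin n) (Fin n) F, exhC d j A → A ∈ S := by
    intro A hA
    rw [hSdef]
    intro i k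
    rw [hDdef]
    show d.p ^ (j * n) * A i k ∈ d.O
    rcases lt_or_ge k i with h | h
    · rw [hA.1 i k h, mul_zero]
      exact d.O.zero_mem
    · refine exh_mono d ?_ (exhC_le hA h)
      exact Nat.mul_le_mul_left j (by have := k.isLt; omega)
  have hcl : IsClosed (exhN d n j : Set (GL (Fin n) F)) := by
    have e : (exhN d n j : Set (GL (Fin n) F)) =
        (fun g : GL (Fin n) F => g.1) ⁻¹' {A | exhC d j A} ∩
          (fun g : GL (Fin n) F => g⁻¹.1) ⁻¹' {A | exhC d j A} := rfl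
    rw [e]
    exact ((exhC_closed d j).preimage Units.continuous_val).inter
      ((exhC_closed d j).preimage (Units.continuous_val.comp continuous_inv))
  have hce : Topology.IsClosedEmbedding (Units.embedProduct (Matrix (Fin n) (Fin n) F)) :=
    Units.isClosedEmbedding_embedProduct
  have hcpt : IsCompact ((Units.embedProduct (Matrix (Fin n) (Fin n) F)) ⁻¹'
      (S ×ˢ (MulOpposite.unop ⁻¹' S))) := by
    refine hce.isCompact_preimage (hS.prod ?_)
    exact (MulOpposite.opHomeomorph.symm.isCompact_preimage).2 hS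
  refine IsCompact.of_isClosed_subset hcpt hcl ?_
  rintro g ⟨hg1, hg2⟩
  exact ⟨hCS _ hg1, hCS _ hg2⟩

theorem exh_NN (d : LFData F) (K : Set (GL (Fin n) F)) (hK : IsCompact K) (hKN : K ⊆ NN F n) :
    ∃ N' : Subgroup (GL (Fin n) F), Good (NN F n) sg N' ∧ K ⊆ N' := by
  have hent : ∀ i k : Fin n, Continuous (fun A : Matrix (Fin n) (Fin n) F => A i k) :=
    fun i k => (continuous_apply k).comp (continuous_apply i)
  obtain ⟨j1, hj1⟩ := exh_bd_fin d hK (ι := Fin n × Fin n)
    (h := fun q g => g.1 q.1 q.2) (fun q => (hent q.1 q.2).comp Units.continuous_val)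
  obtain ⟨j2, hj2⟩ := exh_bd_fin d hK (ι := Fin n × Fin n)
    (h := fun q g => g⁻¹.1 q.1 q.2)
    (fun q => (hent q.1 q.2).comp (Units.continuous_val.comp continuous_inv))
  obtain ⟨j, hj⟩ : ∃ j, j = max j1 j2 := ⟨_, rfl⟩
  have hle : ∀ i k : Fin n, i < k → j ≤ j * ((k : ℕ) - (i : ℕ)) := by
    intro i k hik
    have h' : (i : ℕ) < k := hik
    have h1 : 1 ≤ (k : ℕ) - (i : ℕ) := by omega
    exact Nat.le_mul_of_pos_right j h1
  refine ⟨exhN d n j, ⟨?_, exhN_compact d n j, ?_⟩, ?_⟩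
  · rintro g ⟨h1, h2⟩
    exact ⟨⟨h1.1, h2.1⟩, h1.2.1⟩
  · rintro g ⟨h1, h2⟩
    exact ⟨exhC_antit h1, exhC_antit h2⟩
  · intro g hg
    have hgN := hKN hg
    have hgN' := (NN F n).inv_mem hgN
    refine ⟨⟨hgN.1.1, hgN.2, fun i k hik => ?_⟩, ⟨hgN'.1.1, hgN'.2, fun i k hik => ?_⟩⟩
    · refine exh_mono d (le_trans ?_ (hle i k hik)) (hj1 (i, k) g hg)
      rw [hj]
      exact le_max_left _ _
    · refine exh_mono d (le_trans ?_ (hle i k hik)) (hj2 (i, k) g hg)
      rw [hj]
      exact le_max_right _ _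

end PC.GK
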