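import Mathlib
import Pool.Agent.Lib.MP_ca1492_al.D4.GLDefs

/-!
# MP_ca1492_al, D4, LF: a nonarchimedean local field has `LFData`

`O = 𝒪[F]` (the valuation ring `ValuativeRel.valuation F`, `Valuation.integer`), compact by
`IsNonarchimedeanLocalField` (`isCompact_closedBall`), open; `p` any element with `0 < v p < 1`.
`exh`: the value group is archimedean (rank one), `v p ^ j` tends to `0`, so `v (p ^ j * x) ≤ 1`
for large `j`. `small`: `IsValuativeTopology.hasBasis_nhds_zero'`.
-/

open Topology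

namespace PC.GK

theorem LF_arch (F : Type) [Field F] [ValuativeRel F] [TopologicalSpace F]
    [IsNonarchimedeanLocalField F] (p : F) (hp0 : p ≠ 0)
    (hp1 : ValuativeRel.valuation F p < 1) (γ : ValuativeRel.ValueGroupWithZero F) (hγ : γ ≠ 0) :
    ∃ j : ℕ, (ValuativeRel.valuation F p) ^ j < γ := by
  set v := ValuativeRel.valuation F with hv
  haveI : MulArchimedean (ValuativeRel.ValueGroupWithZero F) :=
    ValuativeRel.isRankLeOne_iff_mulArchimedean.mp inferInstance
  have hvp : v p ≠ 0 := (Valuation.ne_zero_iff v).2 hp0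
  have h1 : 1 < (v p)⁻¹ := (one_lt_inv₀ (zero_lt_iff.2 hvp)).2 hp1
  obtain ⟨n, hn⟩ := MulArchimedean.arch (γ⁻¹) h1
  refine ⟨n + 1, ?_⟩
  have h2 : (v p) ^ n ≤ γ := by
    rw [inv_pow] at hn
    exact (inv_le_inv₀ (zero_lt_iff.2 hγ) (zero_lt_iff.2 (pow_ne_zero n hvp))).1 hn
  have h3 : (v p) ^ (n + 1) < (v p) ^ n := by
    rw [pow_succ]
    exact mul_lt_of_lt_one_right (zero_lt_iff.2 (pow_ne_zero n hvp)) hp1
  exact lt_of_lt_of_le h3 h2

theorem exists_LFData (F : Type) [Field F] [ValuativeRel F] [TopologicalSpace F]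
    [IsNonarchimedeanLocalField F] : Nonempty (LFData F) := by
  set v := ValuativeRel.valuation F with hv
  obtain ⟨p, hp0, hp1⟩ := Valuation.IsNontrivial.exists_lt_one (v := v)
  have hvp : p ≠ 0 := hp0
  refine ⟨{ O := v.integer, p := p, O_open := ?_, O_cpt := ?_, p_ne := hvp, p_mem := ?_,
            exh := ?_, small := ?_ }⟩
  · have h0 : (v.integer : Set F) ∈ 𝓝 (0 : F) := by
      rw [(IsValuativeTopology.hasBasis_nhds_zero' F).mem_iff]
      refine ⟨1, one_ne_zero, fun x hx => ?_⟩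
      have hx' : v x < 1 := hx
      exact (Valuation.mem_integer_iff v x).2 (le_of_lt hx')
    exact AddSubgroup.isOpen_of_mem_nhds v.integer.toAddSubgroup h0
  · exact IsNonarchimedeanLocalField.isCompact_closedBall F 1
  · exact le_of_lt hp1
  · intro x
    by_cases hx : x = 0
    · exact ⟨0, by rw [hx, mul_zero]; exact Subring.zero_mem _⟩
    · have hvx : v x ≠ 0 := (Valuation.ne_zero_iff v).2 hx
      obtain ⟨j, hj⟩ := LF_arch F p hvp hp1 ((v x)⁻¹) (inv_ne_zero hvx)
      refine ⟨j, ?_⟩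
      show v (p ^ j * x) ≤ 1
      rw [map_mul, map_pow]
      have h1 : (v p) ^ j * v x ≤ (v x)⁻¹ * v x := mul_le_mul_left (le_of_lt hj) _
      rwa [inv_mul_cancel₀ hvx] at h1
  · intro U hU
    obtain ⟨γ, hγ, hsub⟩ := (IsValuativeTopology.hasBasis_nhds_zero' F).mem_iff.1 hU
    obtain ⟨j, hj⟩ := LF_arch F p hvp hp1 γ hγ
    refine ⟨j, fun x hx => hsub ?_⟩
    show v (p ^ j * x) < γ
    rw [map_mul, map_pow]
    have hx' : v x ≤ 1 := hx
    have h1 : (v p) ^ j * v x ≤ (v p) ^ j * 1 := mul_le_mul_right hx' _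
    rw [mul_one] at h1
    exact lt_of_le_of_lt h1 hj

theorem t2_of_local (F : Type) [Field F] [ValuativeRel F] [TopologicalSpace F]
    [IsNonarchimedeanLocalField F] : T2Space F := by
  apply IsTopologicalAddGroup.t2Space_of_zero_sep
  intro x hx
  have hvx : ValuativeRel.valuation F x ≠ 0 := (Valuation.ne_zero_iff _).2 hx
  refine ⟨{y | ValuativeRel.valuation F y < ValuativeRel.valuation F x},
    (IsValuativeTopology.hasBasis_nhds_zero' F).mem_iff.2 ⟨_, hvx, fun y hy => hy⟩, ?_⟩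
  intro h
  have h' : ValuativeRel.valuation F x < ValuativeRel.valuation F x := h
  exact lt_irrefl _ h'

/-- `ℚ / ℤ → ℝ / ℤ` -/
noncomputable def LF_ratCircle : AddCircle (1 : ℚ) →+ AddCircle (1 : ℝ) :=
  QuotientAddGroup.map _ _ ((Rat.castHom ℝ).toAddMonoidHom) (by
    rintro _ ⟨n, rfl⟩
    refine ⟨n, ?_⟩
    simp)

theorem LF_ratCircle_inj : Function.Injective LF_ratCircle := by
  rw [injective_iff_map_eq_zero]
  intro q hq
  obtain ⟨r, rfl⟩ := QuotientAddGroup.mk_surjective q
  have h1 : (((Rat.castHom ℝ).toAddMonoidHom r : ℝ) : AddCircle (1 : ℝ)) = 0 := hq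
  rw [AddCircle.coe_eq_zero_iff] at h1
  obtain ⟨n, hn⟩ := h1
  refine (AddCircle.coe_eq_zero_iff (1 : ℚ)).2 ⟨n, ?_⟩
  have h2 : ((n : ℚ) : ℝ) = (r : ℝ) := by
    simpa using hn
  have h3 : (n : ℚ) = r := by exact_mod_cast h2
  rw [← h3]
  simp

/-- a nontrivial locally constant additive character, trivial on `O` and nontrivial on `p⁻¹ O`:
a character of `(p⁻¹ O) / O` extends to `F / O` because `ℚ / ℤ` is divisible
(`CharacterModule.exists_character_apply_ne_zero_of_ne_zero`) -/
theorem exists_addChar {F : Type} [Field F] [TopologicalSpace F] (d : LFData F) (x : F)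
    (hx : x ∉ d.O) : ∃ ψ : AddChar F ℂ, (∀ y ∈ d.O, ψ y = 1) ∧ ψ x ≠ 1 := by
  set A := F ⧸ d.O.toAddSubgroup with hA
  have hx0 : (QuotientAddGroup.mk x : A) ≠ 0 := by
    intro h
    exact hx ((QuotientAddGroup.eq_zero_iff x).1 h)
  obtain ⟨c, hc⟩ := CharacterModule.exists_character_apply_ne_zero_of_ne_zero hx0
  set g : F →+ AddCircle (1 : ℝ) :=
    LF_ratCircle.comp ((show A →+ AddCircle (1 : ℚ) from c).comp (QuotientAddGroup.mk' _)) with hg
  refine ⟨{ toFun := fun y => ((AddCircle.toCircle (g y) : Circle) : ℂ)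
            map_zero_eq_one' := by rw [map_zero, AddCircle.toCircle_zero]; rfl
            map_add_eq_mul' := fun a b => by
              rw [map_add, AddCircle.toCircle_add]; rfl }, ?_, ?_⟩
  · intro y hy
    have h1 : g y = 0 := by
      have h2 : (QuotientAddGroup.mk y : A) = 0 := (QuotientAddGroup.eq_zero_iff y).2 hy
      show LF_ratCircle ((show A →+ AddCircle (1 : ℚ) from c) (QuotientAddGroup.mk y)) = 0
      rw [h2, map_zero, map_zero]
    show ((AddCircle.toCircle (g y) : Circle) : ℂ) = 1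
    rw [h1, AddCircle.toCircle_zero]
    rfl
  · intro h
    have h1 : ((AddCircle.toCircle (g x) : Circle) : ℂ) = 1 := h
    have h2 : AddCircle.toCircle (g x) = 1 := Subtype.ext h1
    rw [← AddCircle.toCircle_zero (T := 1)] at h2
    have h3 : g x = 0 := AddCircle.injective_toCircle one_ne_zero h2
    have h4 : LF_ratCircle ((show A →+ AddCircle (1 : ℚ) from c) (QuotientAddGroup.mk x)) = 0 := h3
    exact hc (LF_ratCircle_inj (h4.trans (map_zero _).symm))

end PC.GK
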