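import Mathlib
import Pool.Agent.Lib.MP_ca1492_al.D4.DPMatB
import Pool.Agent.Lib.MP_ca1492_al.D4.Exh
import Pool.Agent.Lib.MP_ca1492_al.D4.LF
import Pool.Agent.Lib.MP_ca1492_al.P.Cong
import Pool.Agent.Lib.MP_ca1492_al.P.Jac

/-!
# MP_ca1492_al, D4, DPEx: THEOREM EX (exactness of the twisted coinvariants)

For a stable subspace `W` of a smooth representation the kernel `KK m` of `W` is the intersection of
`W` with the kernel `KK m` of `V`; the same for `KT m`. Proof: `V` twisted by `psi⁻¹` is a smooth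
representation of the subgroup `UUs`, which is a union of compact subgroups; `PD.jac_inj`.
-/

open Topology Matrix ValuativeRel

set_option linter.unusedSectionVars false

namespace PC.DP

open Pool.Agent.Lib.MP_ca1492_al.P

variable {F : Type} [Field F] [ValuativeRel F] [TopologicalSpace F] [IsNonarchimedeanLocalField F]
variable {n m : ℕ}
variable {V : Type} [AddCommGroup V] [Module ℂ V]

variable (F) in
/-- `UU` as a subgroup -/
def UUs (n m : ℕ) : Subgroup (GL (Fin n) F) where
  carrier := UU F n m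
  mul_mem' := fun ha hb => UU_mul ha hb
  one_mem' := fun _ _ _ => rfl
  inv_mem' := fun ha => UU_inv ha

theorem mem_UUs {u : GL (Fin n) F} : u ∈ UUs F n m ↔ u ∈ UU F n m := Iff.rfl

/-- `psi⁻¹` as a character of `UUs` -/
noncomputable def psiU (ψ : AddChar F ℂ) (n m m' : ℕ) : UUs F n m →* ℂˣ where
  toFun u := (Units.mk0 (psi ψ n m' u.1) (psi_ne_zero ψ u.1))⁻¹
  map_one' := by
    rw [inv_eq_one]
    apply Units.ext
    exact psi_one ψ
  map_mul' := by
    intro a b
    rw [← mul_inv, _root_.inv_inj]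
    apply Units.ext
    exact psi_mul ψ m' a.2 b.2

theorem DPEx_closed : IsClosed (UUs F n m : Set (GL (Fin n) F)) := by
  have : T2Space F := PC.GK.t2_of_local F
  have h : (UUs F n m : Set (GL (Fin n) F)) = ⋂ i : Fin n, ⋂ j : Fin n,
      {u | (j ≤ i ∨ j.val < m) → u.val i j = (1 : Matrix (Fin n) (Fin n) F) i j} := by
    ext u
    simp only [Set.mem_iInter]
    exact Iff.rfl
  rw [h]
  refine isClosed_iInter fun i => isClosed_iInter fun j => ?_
  by_cases hij : j ≤ i ∨ j.val < m
  · have e : {u : GL (Fin n) F | (j ≤ i ∨ j.val < m) →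
        u.val i j = (1 : Matrix (Fin n) (Fin n) F) i j} =
        {u | u.val i j = (1 : Matrix (Fin n) (Fin n) F) i j} := by
      ext u
      exact ⟨fun h => h hij, fun h _ => h⟩
    rw [e]
    refine isClosed_eq ?_ continuous_const
    have hent : Continuous (fun A : Matrix (Fin n) (Fin n) F => A i j) :=
      (continuous_apply j).comp (continuous_apply i)
    exact hent.comp Units.continuous_val
  · have e : {u : GL (Fin n) F | (j ≤ i ∨ j.val < m) →
        u.val i j = (1 : Matrix (Fin n) (Fin n) F) i j} = Set.univ := by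
      ext u
      exact ⟨fun _ => trivial, fun _ h => absurd h hij⟩
    rw [e]
    exact isClosed_univ

/-- the parabolic datum `H = N = UUs`, `M = 1` -/
def pdU (F : Type) [Field F] [ValuativeRel F] [TopologicalSpace F] [IsNonarchimedeanLocalField F]
    (n m : ℕ) : PD (UUs F n m) (⊥ : Subgroup (GL (Fin n) F)) where
  N := UUs F n m
  hM := bot_le
  hN := le_rfl
  norm := by
    intro g hg u hu
    rw [Subgroup.mem_bot] at hg
    subst hg
    simpa using hu
  disj := fun g hg _ => Subgroup.mem_bot.1 hg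
  exh := by
    intro C hC hCN
    have : T2Space F := PC.GK.t2_of_local F
    obtain ⟨d⟩ := PC.GK.exists_LFData F
    have hsub : C ⊆ PC.GK.NN F n := by
      intro u hu
      have h1 : u ∈ UU F n m := hCN hu
      have h2 : u⁻¹ ∈ UU F n m := UU_inv h1
      refine ⟨⟨fun i j hij => ?_, fun i j hij => ?_⟩, fun i => ?_⟩
      · have := h1 i j (Or.inl hij.le)
        rw [Matrix.one_apply_ne (ne_of_gt hij)] at this
        exact this
      · have := h2 i j (Or.inl hij.le)
        rw [Matrix.one_apply_ne (ne_of_gt hij)] at this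
        exact this
      · have := h1 i i (Or.inl le_rfl)
        rw [Matrix.one_apply_eq] at this
        exact this
    obtain ⟨N', hN', hC'⟩ := PC.GK.exh_NN d C hC hsub
    refine ⟨N' ⊓ UUs F n m, inf_le_right, ?_, fun u hu => ⟨hC' hu, hCN hu⟩⟩
    exact hN'.2.1.inter_right DPEx_closed

/-- the twisted restriction to `UUs` -/
noncomputable def twU (ψ : AddChar F ℂ) (m m' : ℕ) (π : Representation ℂ (GL (Fin n) F) V) :
    Representation ℂ (UUs F n m) V := twist (psiU ψ n m m') (res (UUs F n m) π)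

theorem DPEx_sm {ψ : AddChar F ℂ} (hψ : Std ψ) (m m' : ℕ)
    {π : Representation ℂ (GL (Fin n) F) V} (hπ : IsSm π) : IsSm (twU ψ m m' π) := by
  refine smooth_twist _ (smooth_res π hπ _) _ ?_
  have hle : (Kc F (Fin n) 0).subgroupOf (UUs F n m) ≤ (psiU ψ n m m').ker := by
    intro u hu
    have h1 : u.1 ∈ Kc F (Fin n) 0 := hu
    rw [MonoidHom.mem_ker]
    show (Units.mk0 (psi ψ n m' u.1) (psi_ne_zero ψ u.1))⁻¹ = 1
    rw [inv_eq_one]
    apply Units.ext
    refine hψ.triv _ ?_
    refine (lat F 0).sum_mem fun i _ => (lat F 0).sum_mem fun j _ => ?_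
    split_ifs with hc
    · have h2 := h1.1 i j
      rw [Matrix.sub_apply, Matrix.one_apply_ne, sub_zero] at h2
      · exact h2
      · rintro rfl
        omega
    · exact (lat F 0).zero_mem
  exact Subgroup.isOpen_mono hle ((Kc_isOpen 0).preimage continuous_subtype_val)

theorem DPEx_ker (ψ : AddChar F ℂ) (m m' : ℕ) (π : Representation ℂ (GL (Fin n) F) V) :
    (pdU F n m).kerJ (twU ψ m m' π) = Ksp π (UU F n m) (psi ψ n m') := by
  have key : ∀ (u : GL (Fin n) F) (hu : u ∈ UUs F n m) (v : V),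
      twU ψ m m' π ⟨u, hu⟩ v - v = (psi ψ n m' u)⁻¹ • (π u v - psi ψ n m' u • v) := by
    intro u hu v
    rw [smul_sub, smul_smul, inv_mul_cancel₀ (psi_ne_zero ψ u), one_smul]
    rfl
  apply le_antisymm
  · refine Submodule.span_le.2 ?_
    rintro x ⟨u, hu, v, rfl⟩
    rw [key u hu v]
    exact Submodule.smul_mem _ _ (Submodule.subset_span ⟨u, hu, v, rfl⟩)
  · refine Submodule.span_le.2 ?_
    rintro x ⟨u, hu, v, rfl⟩
    have h1 : twU ψ m m' π ⟨u, hu⟩ v - v ∈ (pdU F n m).kerJ (twU ψ m m' π) :=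
      Submodule.subset_span ⟨u, hu, v, rfl⟩
    rw [key u hu v] at h1
    have h2 : psi ψ n m' u ≠ 0 := psi_ne_zero ψ u
    exact (Submodule.smul_mem_iff _ (inv_ne_zero h2)).1 h1

theorem DPEx_gen {ψ : AddChar F ℂ} (hψ : Std ψ) (m' : ℕ)
    (π : Representation ℂ (GL (Fin n) F) V) (hπ : IsSm π) (W : Submodule ℂ V) (hW : Stab π W)
    (x : W) (hx : (x : V) ∈ Ksp π (UU F n m) (psi ψ n m')) :
    x ∈ Ksp (subRep π W hW) (UU F n m) (psi ψ n m') := by
  rw [← DPEx_ker ψ m m' π] at hx
  rw [← DPEx_ker ψ m m' (subRep π W hW)]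
  have hf : Equi (twU ψ m m' (subRep π W hW)) (twU ψ m m' π) W.subtype := fun g v => rfl
  have hi := (pdU F n m).jac_inj (twU ψ m m' (subRep π W hW)) (twU ψ m m' π)
    (DPEx_sm hψ m m' (smooth_sub π hπ W hW)) (DPEx_sm hψ m m' hπ) W.subtype hf
    W.injective_subtype
  have h1 : (pdU F n m).JMap (twU ψ m m' (subRep π W hW)) (twU ψ m m' π) W.subtype hf
      (Submodule.Quotient.mk x) = 0 := by
    rw [PD.jac_JMap_mk, Submodule.Quotient.mk_eq_zero]
    exact hx
  rw [← Submodule.Quotient.mk_eq_zero]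
  exact hi (h1.trans (map_zero _).symm)

/-- THEOREM EX for `KK` -/
theorem ex_KK {ψ : AddChar F ℂ} (hψ : Std ψ)
    (π : Representation ℂ (GL (Fin n) F) V) (hπ : IsSm π) (W : Submodule ℂ V) (hW : Stab π W)
    (x : W) (hx : (x : V) ∈ KK ψ m π) : x ∈ KK ψ m (subRep π W hW) :=
  DPEx_gen hψ m π hπ W hW x hx

/-- THEOREM EX for `KT` -/
theorem ex_KT {ψ : AddChar F ℂ} (hψ : Std ψ)
    (π : Representation ℂ (GL (Fin n) F) V) (hπ : IsSm π) (W : Submodule ℂ V) (hW : Stab π W)
    (x : W) (hx : (x : V) ∈ KT ψ m π) : x ∈ KT ψ m (subRep π W hW) :=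
  DPEx_gen hψ (m + 1) π hπ W hW x hx

end PC.DP
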