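import Mathlib
import Pool.Agent.Lib.MP_ca1492_al.D4.DPI
import Pool.Agent.Lib.MP_ca1492_al.D4.DPRk

/-!
# MP_ca1492_al, D4, DPJac: change of variables for the integral

`JacP A`: for all compact open `L`, `L'` with `x ∈ L ↔ A x ∈ L'` and `f` locally constant on `L'`:
`I L (f ∘ A) = |det A|⁻¹ • I L' f`.

Proof of `I_jac` by `Matrix.diagonal_transvection_induction_of_det_ne_zero`:
* products: `JacP A`, `JacP B` give `JacP (A * B)` (intermediate subgroup: the image `B L`);
* `A` with `x ∈ Lat m ↔ A x ∈ Lat m` for all `m` and `ordF (det A) = 0`: as in `I_aut` (`A` maps a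
  system of representatives of `L / Lat m` to one of `L' / Lat m`): transvections `1 + c E_{ij}`
  with `c ∈ lat 0`, diagonal matrices with unit entries;
* the diagonal matrix `D` with entry `ϖ` (`ordF ϖ = 1`) at the place `i` and `1` elsewhere:
  `Lat (m + 1) ≤ D (Lat m) ≤ Lat m` and `D (Lat m)` has index `qF` in `Lat m`: the map
  `Lat m → lat m / lat (m + 1)`, `x ↦ x i`, is onto with kernel `D (Lat m)` (`lat_index`).
  If `f` is invariant under `Lat m` then `f ∘ D` is invariant under `Lat m`,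
  `I L (f ∘ D) = QQ ^ (-m) ∑_{L / Lat m} f (D r)`, the `D r` are representatives of
  `L' / D (Lat m)`, each class of `L' / Lat m` is hit `qF` times. So the factor is
  `qF = |ϖ|⁻¹`.
* general diagonal matrices: products of these and their inverses (`JacP A → JacP A⁻¹`) and
  diagonal matrices with unit entries (`x = ϖ ^ k * unit`);
* general transvections: `1 + c E_{ij} = d (1 + c' E_{ij}) d⁻¹`, `d` diagonal, `c' ∈ lat 0`.
-/

open Topology Matrix ValuativeRel

set_option linter.unusedSectionVars false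

namespace PC.DP

open Pool.Agent.Lib.MP_ca1492_al.P

variable {F : Type} [Field F] [ValuativeRel F] [TopologicalSpace F] [IsNonarchimedeanLocalField F]
variable {ι : Type} [Fintype ι] [DecidableEq ι]

/-- the change of variables formula for the matrix `A` -/
def JacP (A : Matrix ι ι F) : Prop :=
  ∀ (L L' : AddSubgroup (ι → F)), Cp L → Cp L' → (∀ x, x ∈ L ↔ A *ᵥ x ∈ L') →
    ∀ f : (ι → F) → ℂ, LCo L' f →
      I L (fun x => f (A *ᵥ x)) = ((nrm F A.det)⁻¹ : ℝ) * I L' f

theorem mulVec_bound (A : Matrix ι ι F) : ∃ k : ℤ, ∀ (m : ℤ) (x : ι → F), x ∈ Lat F ι m →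
    A *ᵥ x ∈ Lat F ι (m + k) := by
  choose k hk using fun i => exists_mem_Lat (A i)
  refine ⟨-∑ i, ((k i).natAbs : ℤ), fun m x hx i => ?_⟩
  have h1 : -∑ i, ((k i).natAbs : ℤ) ≤ k i := by
    have h2 : ((k i).natAbs : ℤ) ≤ ∑ i, ((k i).natAbs : ℤ) :=
      Finset.single_le_sum (f := fun i => ((k i).natAbs : ℤ)) (fun _ _ => Int.natCast_nonneg _)
        (Finset.mem_univ i)
    omega
  have h3 := dot_mem_lat (hk i) hx
  have h4 : (A *ᵥ x) i = A i ⬝ᵥ x := rfl
  rw [h4]
  exact lat_anti (by omega) h3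

theorem DPJac_cancel {A : Matrix ι ι F} (hA : A.det ≠ 0) (x : ι → F) : A *ᵥ (A⁻¹ *ᵥ x) = x := by
  rw [Matrix.mulVec_mulVec, Matrix.mul_nonsing_inv _ (isUnit_iff_ne_zero.2 hA), Matrix.one_mulVec]

theorem DPJac_cancel' {A : Matrix ι ι F} (hA : A.det ≠ 0) (x : ι → F) : A⁻¹ *ᵥ (A *ᵥ x) = x := by
  rw [Matrix.mulVec_mulVec, Matrix.nonsing_inv_mul _ (isUnit_iff_ne_zero.2 hA), Matrix.one_mulVec]

/-- the preimage of a subgroup -/
def DPJac_pre (A : Matrix ι ι F) (L : AddSubgroup (ι → F)) : AddSubgroup (ι → F) :=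
  L.comap (Matrix.mulVecLin A).toAddMonoidHom

theorem DPJac_mem_pre {A : Matrix ι ι F} {L : AddSubgroup (ι → F)} {x : ι → F} :
    x ∈ DPJac_pre A L ↔ A *ᵥ x ∈ L := Iff.rfl

theorem DPJac_Cp {A : Matrix ι ι F} (hA : A.det ≠ 0) {L : AddSubgroup (ι → F)} (hL : Cp L) :
    Cp (DPJac_pre A L) := by
  obtain ⟨m, m', h, h'⟩ := hL
  obtain ⟨k, hk⟩ := mulVec_bound A
  obtain ⟨k', hk'⟩ := mulVec_bound A⁻¹
  refine ⟨m - k, m' + k', fun x hx => ?_, fun x hx => ?_⟩
  · rw [DPJac_mem_pre]
    have := hk _ x hx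
    rw [sub_add_cancel] at this
    exact h this
  · rw [DPJac_mem_pre] at hx
    have := hk' _ _ (h' hx)
    rw [DPJac_cancel' hA] at this
    exact this

theorem DPJac_LCo {A : Matrix ι ι F} {L L' : AddSubgroup (ι → F)}
    (h : ∀ x, x ∈ L → A *ᵥ x ∈ L') {f : (ι → F) → ℂ} (hf : LCo L' f) :
    LCo L (fun x => f (A *ᵥ x)) := by
  obtain ⟨m, hm⟩ := hf
  obtain ⟨k, hk⟩ := mulVec_bound A
  refine ⟨m - k, fun x hx y hy => ?_⟩
  change f (A *ᵥ (x + y)) = f (A *ᵥ x)
  rw [Matrix.mulVec_add]
  refine hm _ (h x hx) _ ?_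
  have := hk _ y hy
  rw [sub_add_cancel] at this
  exact this

theorem JacP.mul {A B : Matrix ι ι F} (hA : A.det ≠ 0) (hB : B.det ≠ 0) (h : JacP A)
    (h' : JacP B) : JacP (A * B) := by
  intro L L' hL hL' hLL f hf
  have hC := DPJac_Cp hA hL'
  have h1 : ∀ x, x ∈ L ↔ B *ᵥ x ∈ DPJac_pre A L' := by
    intro x
    rw [DPJac_mem_pre, Matrix.mulVec_mulVec]
    exact hLL x
  have h2 := h' L (DPJac_pre A L') hL hC h1 (fun x => f (A *ᵥ x))
    (DPJac_LCo (fun x hx => hx) hf)
  have h3 := h (DPJac_pre A L') L' hC hL' (fun x => Iff.rfl) f hf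
  simp only [Matrix.mulVec_mulVec] at h2
  rw [h2, h3, Matrix.det_mul, nrm_mul, ← mul_assoc, ← Complex.ofReal_mul, mul_inv,
    mul_comm (nrm F A.det)⁻¹]

theorem JacP.inv {A : Matrix ι ι F} (hA : A.det ≠ 0) (h : JacP A) : JacP A⁻¹ := by
  intro L L' hL hL' hLL f hf
  have h1 : ∀ x, x ∈ L' ↔ A *ᵥ x ∈ L := by
    intro x
    rw [hLL, DPJac_cancel' hA]
  have h2 := h L' L hL' hL h1 (fun x => f (A⁻¹ *ᵥ x)) (DPJac_LCo (fun x hx => (hLL x).1 hx) hf)
  simp only [DPJac_cancel' hA] at h2
  have h3 : ((nrm F A.det : ℝ) : ℂ) ≠ 0 := Complex.ofReal_ne_zero.2 (nrm_pos hA).ne'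
  rw [Matrix.det_nonsing_inv, Ring.inverse_eq_inv', nrm_inv, inv_inv, h2, Complex.ofReal_inv,
    mul_inv_cancel_left₀ h3]

/-- the basic formula for integral matrices -/
theorem DPJac_core {A : Matrix ι ι F} (hA : A.det ≠ 0)
    (hl : ∀ (m : ℤ) (x : ι → F), x ∈ Lat F ι m → A *ᵥ x ∈ Lat F ι m)
    {L L' : AddSubgroup (ι → F)} (hL : Cp L) (hL' : Cp L') (hLL : ∀ x, x ∈ L ↔ A *ᵥ x ∈ L')
    {f : (ι → F) → ℂ} (hf : LCo L' f) :
    ∃ m : ℤ, I L (fun x => f (A *ᵥ x)) =
      ((Lat F ι m).relIndex (DPJac_pre A (Lat F ι m)) : ℂ) * I L' f := by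
  classical
  obtain ⟨m, -, hm, hinv, R', hR'⟩ := exists_common hL' (Finset.univ : Finset Unit)
    (fun _ => f) (fun _ _ => hf) 0
  have hinv := hinv () (Finset.mem_univ _)
  obtain ⟨-, m'', -, hm''⟩ := hL
  obtain ⟨R, hR⟩ := exists_rep (m := m) hm''
  refine ⟨m, ?_⟩
  have hmL : Lat F ι m ≤ L := fun x hx => (hLL x).2 (hm (hl m x hx))
  have hinvA : Inv m L (fun x => f (A *ᵥ x)) := by
    intro x hx y hy
    change f (A *ᵥ (x + y)) = f (A *ᵥ x)
    rw [Matrix.mulVec_add]
    exact hinv _ ((hLL x).1 hx) _ (hl m y hy)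
  rw [I_eq hmL hinvA hR, I_eq hm hinv hR']
  have hex : ∀ r ∈ R, ∃ r' ∈ R', A *ᵥ r - r' ∈ Lat F ι m := by
    intro r hr
    obtain ⟨r', ⟨h1, h2⟩, -⟩ := hR'.2 _ ((hLL r).1 (hR.1 r hr))
    exact ⟨r', h1, h2⟩
  choose! g hg1 hg2 using hex
  have hsum := Finset.sum_fiberwise_of_maps_to hg1 (fun r => f (A *ᵥ r))
  have hcard : ∀ r' ∈ R', (R.filter (fun r => g r = r')).card =
      (Lat F ι m).relIndex (DPJac_pre A (Lat F ι m)) := by
    intro r' hr'
    have hinj : Set.InjOn (fun r => r - A⁻¹ *ᵥ r')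
        ((R.filter (fun r => g r = r') : Finset (ι → F)) : Set (ι → F)) :=
      fun a _ b _ hab => sub_left_injective hab
    rw [← Finset.card_image_of_injOn hinj]
    refine rep_card ⟨?_, ?_⟩
    · intro s hs
      rw [Finset.mem_image] at hs
      obtain ⟨r, hr, rfl⟩ := hs
      rw [Finset.mem_filter] at hr
      rw [DPJac_mem_pre, Matrix.mulVec_sub, DPJac_cancel hA, ← hr.2]
      exact hg2 r hr.1
    · intro x hx
      rw [DPJac_mem_pre] at hx
      have hxL : x + A⁻¹ *ᵥ r' ∈ L := by
        rw [hLL, Matrix.mulVec_add, DPJac_cancel hA]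
        exact L'.add_mem (hm hx) (hR'.1 r' hr')
      obtain ⟨r, ⟨hr1, hr2⟩, hr3⟩ := hR.2 _ hxL
      have hgr : g r = r' := by
        have h1 := hl m _ hr2
        rw [Matrix.mulVec_sub, Matrix.mulVec_add, DPJac_cancel hA] at h1
        have h2 : A *ᵥ r - r' ∈ Lat F ι m := by
          have h3 := (Lat F ι m).sub_mem hx h1
          have h4 : A *ᵥ x - (A *ᵥ x + r' - A *ᵥ r) = A *ᵥ r - r' := by abel
          rwa [h4] at h3
        exact (hR'.2 _ ((hLL r).1 (hR.1 r hr1))).unique ⟨hg1 r hr1, hg2 r hr1⟩ ⟨hr', h2⟩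
      refine ⟨r - A⁻¹ *ᵥ r', ⟨Finset.mem_image.2 ⟨r, Finset.mem_filter.2 ⟨hr1, hgr⟩, rfl⟩, ?_⟩,
        ?_⟩
      · have h4 : x - (r - A⁻¹ *ᵥ r') = x + A⁻¹ *ᵥ r' - r := by abel
        rw [h4]
        exact hr2
      · rintro s ⟨hs1, hs2⟩
        rw [Finset.mem_image] at hs1
        obtain ⟨r₂, hr₂, rfl⟩ := hs1
        rw [Finset.mem_filter] at hr₂
        have h4 : x - (r₂ - A⁻¹ *ᵥ r') = x + A⁻¹ *ᵥ r' - r₂ := by abel
        rw [h4] at hs2
        rw [hr3 r₂ ⟨hr₂.1, hs2⟩]
  have hfib : ∀ r' ∈ R', ∑ r ∈ R with g r = r', f (A *ᵥ r) =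
      ((Lat F ι m).relIndex (DPJac_pre A (Lat F ι m)) : ℂ) * f r' := by
    intro r' hr'
    rw [← hcard r' hr', ← nsmul_eq_mul, ← Finset.sum_const]
    refine Finset.sum_congr rfl fun r hr => ?_
    rw [Finset.mem_filter] at hr
    have h1 := hinv r' (hR'.1 r' hr') (A *ᵥ r - r') (by rw [← hr.2]; exact hg2 r hr.1)
    rw [add_sub_cancel] at h1
    exact h1
  rw [← hsum, Finset.sum_congr rfl hfib, ← Finset.mul_sum, smul_eq_mul, smul_eq_mul]
  ring

theorem jac_integral {A : Matrix ι ι F} (hA : A.det ≠ 0) (h : ordF F A.det = 0)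
    (hl : ∀ (m : ℤ) (x : ι → F), x ∈ Lat F ι m ↔ A *ᵥ x ∈ Lat F ι m) : JacP A := by
  intro L L' hL hL' hLL f hf
  obtain ⟨m, hm⟩ := DPJac_core hA (fun m x => (hl m x).1) hL hL' hLL hf
  have h1 : DPJac_pre A (Lat F ι m) = Lat F ι m := by
    ext x
    rw [DPJac_mem_pre]
    exact (hl m x).symm
  rw [hm, h1, AddSubgroup.relIndex_self, nrm_unit hA h]
  simp

theorem jac_unif {ϖ : F} (h0 : ϖ ≠ 0) (h1 : ordF F ϖ = 1) (i : ι) :
    JacP (Matrix.diagonal (Function.update (fun _ => (1 : F)) i ϖ)) := by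
  have hdet : (Matrix.diagonal (Function.update (fun _ => (1 : F)) i ϖ)).det = ϖ := by
    rw [Matrix.det_diagonal, Finset.prod_update_of_mem (Finset.mem_univ i)]
    simp
  have happ : ∀ (x : ι → F) (j : ι),
      (Matrix.diagonal (Function.update (fun _ => (1 : F)) i ϖ) *ᵥ x) j =
        if j = i then ϖ * x j else x j := by
    intro x j
    rw [Matrix.mulVec_diagonal, Function.update_apply]
    split_ifs
    · rfl
    · rw [one_mul]
  intro L L' hL hL' hLL f hf
  obtain ⟨m, hm⟩ := DPJac_core (by rw [hdet]; exact h0) (by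
    intro m x hx j
    rw [happ]
    split_ifs with hj
    · have h3 := lat_mul (show ϖ ∈ lat F 1 from Or.inr h1.ge) (hx j)
      exact lat_anti (by omega) h3
    · exact hx j) hL hL' hLL hf
  have hidx : (Lat F ι m).relIndex (DPJac_pre
      (Matrix.diagonal (Function.update (fun _ => (1 : F)) i ϖ)) (Lat F ι m)) = qF F := by
    have e1 : Lat F ι m = (lat F m).comap (Pi.evalAddMonoidHom (fun _ : ι => F) i) ⊓
        DPJac_pre (Matrix.diagonal (Function.update (fun _ => (1 : F)) i ϖ)) (Lat F ι m) := by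
      ext x
      rw [AddSubgroup.mem_inf, AddSubgroup.mem_comap, DPJac_mem_pre]
      constructor
      · intro hx
        refine ⟨hx i, fun j => ?_⟩
        rw [happ]
        split_ifs with hj
        · have h3 := lat_mul (show ϖ ∈ lat F 1 from Or.inr h1.ge) (hx j)
          exact lat_anti (by omega) h3
        · exact hx j
      · rintro ⟨hx1, hx2⟩ j
        by_cases hj : j = i
        · subst hj
          exact hx1
        · have := hx2 j
          rw [happ, if_neg hj] at this
          exact this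
    have e2 : (DPJac_pre (Matrix.diagonal (Function.update (fun _ => (1 : F)) i ϖ))
        (Lat F ι m)).map (Pi.evalAddMonoidHom (fun _ : ι => F) i) = lat F (m - 1) := by
      ext c
      rw [AddSubgroup.mem_map]
      constructor
      · rintro ⟨x, hx, rfl⟩
        rw [DPJac_mem_pre] at hx
        have h3 := hx i
        rw [happ, if_pos rfl] at h3
        have h4 : ϖ⁻¹ ∈ lat F (-1) := Or.inr (by rw [ordF_inv, h1])
        have h5 := lat_mul h4 h3
        rw [inv_mul_cancel_left₀ h0] at h5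
        exact lat_anti (by omega) h5
      · intro hc
        refine ⟨Pi.single i c, ?_, by simp⟩
        rw [DPJac_mem_pre]
        intro j
        rw [happ]
        split_ifs with hj
        · subst hj
          rw [Pi.single_eq_same]
          have h3 := lat_mul (show ϖ ∈ lat F 1 from Or.inr h1.ge) hc
          exact lat_anti (by omega) h3
        · rw [Pi.single_eq_of_ne hj]
          exact (lat F m).zero_mem
    have e3 := lat_index (F := F) (m - 1) 1
    rw [Nat.cast_one, sub_add_cancel, pow_one] at e3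
    calc (Lat F ι m).relIndex (DPJac_pre
        (Matrix.diagonal (Function.update (fun _ => (1 : F)) i ϖ)) (Lat F ι m))
        = ((lat F m).comap (Pi.evalAddMonoidHom (fun _ : ι => F) i) ⊓
          DPJac_pre (Matrix.diagonal (Function.update (fun _ => (1 : F)) i ϖ))
            (Lat F ι m)).relIndex (DPJac_pre
        (Matrix.diagonal (Function.update (fun _ => (1 : F)) i ϖ)) (Lat F ι m)) := by rw [← e1]
      _ = qF F := by rw [AddSubgroup.inf_relIndex_right, AddSubgroup.relIndex_comap, e2, e3]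
  rw [hm, hidx, hdet]
  congr 1
  unfold nrm
  rw [if_neg h0, h1, _root_.zpow_neg, inv_inv, zpow_one]
  simp

/-- diagonal matrices with unit entries -/
theorem DPJac_unit {u : ι → F} (h0 : ∀ i, u i ≠ 0) (h1 : ∀ i, ordF F (u i) = 0) :
    JacP (Matrix.diagonal u) := by
  have hdet : ∀ s : Finset ι, (∏ i ∈ s, u i) ≠ 0 ∧ ordF F (∏ i ∈ s, u i) = 0 := by
    intro s
    induction s using Finset.induction_on with
    | empty => simp [ordF_one]
    | insert a s ha ih =>
      rw [Finset.prod_insert ha]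
      exact ⟨mul_ne_zero (h0 a) ih.1, by rw [ordF_mul _ _ (h0 a) ih.1, h1 a, ih.2, add_zero]⟩
  have hd := hdet Finset.univ
  rw [← Matrix.det_diagonal] at hd
  refine jac_integral hd.1 hd.2 (fun m x => ⟨fun hx j => ?_, fun hx j => ?_⟩)
  · rw [Matrix.mulVec_diagonal]
    have h3 := lat_mul (show u j ∈ lat F 0 from Or.inr (h1 j).ge) (hx j)
    rwa [zero_add] at h3
  · have h3 := hx j
    rw [Matrix.mulVec_diagonal] at h3
    have h4 : (u j)⁻¹ ∈ lat F 0 := Or.inr (by rw [ordF_inv, h1 j, neg_zero])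
    have h5 := lat_mul h4 h3
    rwa [inv_mul_cancel_left₀ (h0 j), zero_add] at h5

theorem DPJac_upd_det (i : ι) {a : F} (ha : a ≠ 0) :
    (Matrix.diagonal (Function.update (fun _ => (1 : F)) i a)).det ≠ 0 := by
  rw [Matrix.det_diagonal, Finset.prod_update_of_mem (Finset.mem_univ i)]
  simpa using ha

theorem DPJac_upd_mul (i : ι) (a b : F) :
    Matrix.diagonal (Function.update (fun _ => (1 : F)) i (a * b)) =
      Matrix.diagonal (Function.update (fun _ => (1 : F)) i a) *
        Matrix.diagonal (Function.update (fun _ => (1 : F)) i b) := by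
  rw [Matrix.diagonal_mul_diagonal]
  congr 1
  funext j
  simp only [Function.update_apply]
  split_ifs
  · rfl
  · rw [one_mul]

theorem DPJac_one : JacP (1 : Matrix ι ι F) := by
  rw [← Matrix.diagonal_one]
  exact DPJac_unit (fun _ => one_ne_zero) (fun _ => ordF_one)

theorem DPJac_zpow {ϖ : F} (h0 : ϖ ≠ 0) (h1 : ordF F ϖ = 1) (i : ι) (k : ℤ) :
    JacP (Matrix.diagonal (Function.update (fun _ => (1 : F)) i (ϖ ^ k))) := by
  have hnat : ∀ k : ℕ, JacP (Matrix.diagonal (Function.update (fun _ => (1 : F)) i (ϖ ^ k))) := by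
    intro k
    induction k with
    | zero =>
      have : Function.update (fun _ => (1 : F)) i (ϖ ^ 0) = fun _ => 1 := by
        rw [pow_zero]
        exact Function.update_eq_self i (fun _ => (1 : F))
      rw [this, Matrix.diagonal_one]
      exact DPJac_one
    | succ k ih =>
      rw [pow_succ, DPJac_upd_mul]
      exact JacP.mul (DPJac_upd_det i (pow_ne_zero _ h0)) (DPJac_upd_det i h0) ih
        (jac_unif h0 h1 i)
  obtain ⟨n, rfl | rfl⟩ := k.eq_nat_or_neg
  · rw [zpow_natCast]
    exact hnat n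
  · have h2 := JacP.inv (DPJac_upd_det i (pow_ne_zero n h0)) (hnat n)
    have h3 : (Matrix.diagonal (Function.update (fun _ => (1 : F)) i (ϖ ^ n)))⁻¹ =
        Matrix.diagonal (Function.update (fun _ => (1 : F)) i (ϖ ^ (-(n : ℤ)))) := by
      apply Matrix.inv_eq_right_inv
      rw [← DPJac_upd_mul, _root_.zpow_neg, zpow_natCast, mul_inv_cancel₀ (pow_ne_zero n h0)]
      have : Function.update (fun _ => (1 : F)) i 1 = fun _ => 1 :=
        Function.update_eq_self i (fun _ => (1 : F))
      rw [this, Matrix.diagonal_one]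
    rw [h3] at h2
    exact h2

theorem DPJac_diag {D : ι → F} (hD : ∀ i, D i ≠ 0) : JacP (Matrix.diagonal D) := by
  obtain ⟨ϖ, h0, h1⟩ := exists_unif (F := F)
  have hord : ∀ k : ℤ, ordF F (ϖ ^ k) = k := by
    have hn : ∀ k : ℕ, ordF F (ϖ ^ k) = k := by
      intro k
      induction k with
      | zero => rw [pow_zero, ordF_one, Nat.cast_zero]
      | succ k ih =>
        rw [pow_succ, ordF_mul _ _ (pow_ne_zero _ h0) h0, ih, h1]
        push_cast
        ring
    intro k
    obtain ⟨n, rfl | rfl⟩ := k.eq_nat_or_neg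
    · rw [zpow_natCast, hn]
    · rw [_root_.zpow_neg, zpow_natCast, ordF_inv, hn]
  have hs : ∀ s : Finset ι,
      JacP (Matrix.diagonal (fun j => if j ∈ s then ϖ ^ (ordF F (D j)) else 1)) := by
    intro s
    induction s using Finset.induction_on with
    | empty =>
      have : (fun j : ι => if j ∈ (∅ : Finset ι) then ϖ ^ (ordF F (D j)) else (1 : F)) =
          fun _ => 1 := by
        funext j
        simp
      rw [this, Matrix.diagonal_one]
      exact DPJac_one
    | insert a s ha ih =>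
      have : Matrix.diagonal (fun j : ι => if j ∈ insert a s then ϖ ^ (ordF F (D j)) else (1 : F)) =
          Matrix.diagonal (fun j => if j ∈ s then ϖ ^ (ordF F (D j)) else 1) *
            Matrix.diagonal (Function.update (fun _ => (1 : F)) a (ϖ ^ (ordF F (D a)))) := by
        rw [Matrix.diagonal_mul_diagonal]
        congr 1
        funext j
        rw [Function.update_apply]
        by_cases hj : j = a
        · subst hj
          simp [ha]
        · simp [hj]
      rw [this]
      refine JacP.mul ?_ (DPJac_upd_det a (zpow_ne_zero _ h0)) ih (DPJac_zpow h0 h1 a _)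
      rw [Matrix.det_diagonal]
      refine Finset.prod_ne_zero_iff.2 fun j _ => ?_
      split_ifs
      · exact zpow_ne_zero _ h0
      · exact one_ne_zero
  have h2 := hs Finset.univ
  have h3 : JacP (Matrix.diagonal (fun j => D j * (ϖ ^ (ordF F (D j)))⁻¹)) := by
    refine DPJac_unit (fun j => mul_ne_zero (hD j) (inv_ne_zero (zpow_ne_zero _ h0))) (fun j => ?_)
    rw [ordF_mul _ _ (hD j) (inv_ne_zero (zpow_ne_zero _ h0)), ordF_inv, hord, add_neg_cancel]
  have h4 : Matrix.diagonal D = Matrix.diagonal (fun j => D j * (ϖ ^ (ordF F (D j)))⁻¹) *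
      Matrix.diagonal (fun j => if j ∈ (Finset.univ : Finset ι) then ϖ ^ (ordF F (D j)) else 1) := by
    rw [Matrix.diagonal_mul_diagonal]
    congr 1
    funext j
    rw [if_pos (Finset.mem_univ j), inv_mul_cancel_right₀ (zpow_ne_zero _ h0)]
  rw [h4]
  refine JacP.mul ?_ ?_ h3 h2
  · rw [Matrix.det_diagonal]
    exact Finset.prod_ne_zero_iff.2 fun j _ =>
      mul_ne_zero (hD j) (inv_ne_zero (zpow_ne_zero _ h0))
  · rw [Matrix.det_diagonal]
    refine Finset.prod_ne_zero_iff.2 fun j _ => ?_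
    rw [if_pos (Finset.mem_univ j)]
    exact zpow_ne_zero _ h0

/-- integral transvections -/
theorem DPJac_transv {i j : ι} (hij : i ≠ j) {c : F} (hc : c ∈ lat F 0) :
    JacP (Matrix.transvection i j c) := by
  have hmem : ∀ (c : F), c ∈ lat F 0 → ∀ (m : ℤ) (x : ι → F), x ∈ Lat F ι m →
      Matrix.transvection i j c *ᵥ x ∈ Lat F ι m := by
    intro c hc m x hx l
    rw [Matrix.transvection, Matrix.add_mulVec, Matrix.one_mulVec, Matrix.single_mulVec,
      Pi.add_apply, Function.update_apply]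
    refine (lat F m).add_mem (hx l) ?_
    split_ifs
    · have h3 := lat_mul hc (hx j)
      rwa [zero_add] at h3
    · exact (lat F m).zero_mem
  refine jac_integral ?_ ?_ (fun m x => ⟨hmem c hc m x, fun hx => ?_⟩)
  · rw [Matrix.det_transvection_of_ne i j hij]
    exact one_ne_zero
  · rw [Matrix.det_transvection_of_ne i j hij]
    exact ordF_one
  · have h3 := hmem (-c) ((lat F 0).neg_mem hc) m _ hx
    rw [Matrix.mulVec_mulVec, Matrix.transvection_mul_transvection_same i j hij, neg_add_cancel,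
      Matrix.transvection_zero, Matrix.one_mulVec] at h3
    exact h3

theorem jac {A : Matrix ι ι F} (hA : A.det ≠ 0) : JacP A := by
  refine Matrix.diagonal_transvection_induction_of_det_ne_zero JacP A hA ?_ ?_ ?_
  · intro D hD
    refine DPJac_diag fun i => ?_
    rw [Matrix.det_diagonal] at hD
    exact Finset.prod_ne_zero_iff.1 hD i (Finset.mem_univ i)
  · rintro ⟨i, j, hij, c⟩
    rw [Matrix.TransvectionStruct.toMatrix_mk]
    by_cases hc0 : c = 0
    · rw [hc0, Matrix.transvection_zero]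
      exact DPJac_one
    -- `c = a * (a⁻¹ * c)` with `a = c`
    have h1 : Matrix.transvection i j c =
        Matrix.diagonal (Function.update (fun _ => (1 : F)) i c) * Matrix.transvection i j 1 *
          Matrix.diagonal (Function.update (fun _ => (1 : F)) i c⁻¹) := by
      ext x y
      rw [Matrix.mul_diagonal, Matrix.diagonal_mul, Function.update_apply, Function.update_apply,
        Matrix.transvection, Matrix.transvection, Matrix.add_apply, Matrix.add_apply,
        Matrix.single_apply, Matrix.single_apply]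
      by_cases hx : x = i
      · subst hx
        by_cases hy : y = x
        · subst hy
          have : ¬ j = y := fun h => hij h.symm
          simp [this, hc0]
        · by_cases hy' : y = j
          · subst hy'
            simp [hij, hy]
          · have e1 : ¬ j = y := fun h => hy' h.symm
            have e2 : ¬ x = y := fun h => hy h.symm
            simp [e1, hy, Matrix.one_apply_ne e2]
      · have e1 : ¬ i = x := fun h => hx h.symm
        by_cases hy : y = i
        · subst hy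
          simp [e1, hx, Matrix.one_apply_ne hx]
        · simp [e1, hx, hy]
    rw [h1]
    have hd : (Matrix.diagonal (Function.update (fun _ => (1 : F)) i c)).det ≠ 0 :=
      DPJac_upd_det i hc0
    have hd' : (Matrix.diagonal (Function.update (fun _ => (1 : F)) i c⁻¹)).det ≠ 0 :=
      DPJac_upd_det i (inv_ne_zero hc0)
    have ht : (Matrix.transvection i j (1 : F)).det ≠ 0 := by
      rw [Matrix.det_transvection_of_ne i j hij]
      exact one_ne_zero
    have hne : ∀ {a : F}, a ≠ 0 → ∀ l, Function.update (fun _ => (1 : F)) i a l ≠ 0 := by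
      intro a ha l
      rw [Function.update_apply]
      split_ifs
      · exact ha
      · exact one_ne_zero
    refine JacP.mul (by rw [Matrix.det_mul]; exact mul_ne_zero hd ht) hd' ?_
      (DPJac_diag (hne (inv_ne_zero hc0)))
    exact JacP.mul hd ht (DPJac_diag (hne hc0)) (DPJac_transv hij (Or.inr ordF_one.ge))
  · intro A B hA hB h h'
    exact JacP.mul hA hB h h'

end PC.DP
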