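import Mathlib
import Pool.Agent.Lib.MP_ca1492_al.D4.DPChar
import Pool.Agent.Lib.MP_ca1492_al.D4.DPRk

/-!
# MP_ca1492_al, D4, DPStar: the oscillatory integral

`e : ι` is a distinguished coordinate, `E = Pi.single e 1 ∈ Lat 0`, `σ_w x = x + (w ⬝ᵥ x) • E` for
`w ∈ Lat r` (`exists_rk`), `tw ψ e φ x = (ψ (x e))⁻¹ * φ x`.

`star_gen` (key computation): let `φ` be any function such that `tw ψ e φ'` makes sense, and
`φ w` a family with `φ w (σ_w x) = φ₀ x`. Then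
`I (Lat r) (fun w => I L (tw ψ e (φ w))) = I (Lat r) (fun w => I L (fun x => tw ψ e (φ w) (σ_w x)))`
(`I_aut`, `σ_w` preserves `L`) `= I_w I_x (ψ (x e + w ⬝ᵥ x))⁻¹ * φ₀ x`
`= I_x (ψ (x e))⁻¹ * φ₀ x * I_w (ψ (w ⬝ᵥ x))⁻¹` (`I_fubini`)
`= QQ ^ (-r) * I (Lat (-r)) (tw ψ e φ₀)` (`char_orth_inv`, `I_sub`).
For `star`: `φ w = φ₀ = φ` by `Gd`, the left hand side is `QQ ^ (-r) * I L (tw ψ e φ)` by
`I_const`.
Local constancy on `L` in both variables (`L ≤ Lat m'`, so `w ⬝ᵥ x` changes by elements of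
`lat 0` if `w` changes by `Lat (-m')` and `x` changes by `Lat (-r)`).
-/

open Topology Matrix ValuativeRel

set_option linter.unusedSectionVars false

namespace PC.DP

open Pool.Agent.Lib.MP_ca1492_al.P

variable {F : Type} [Field F] [ValuativeRel F] [TopologicalSpace F] [IsNonarchimedeanLocalField F]
variable {ι : Type} [Fintype ι] [DecidableEq ι]

theorem DPStar_single (e : ι) : (Pi.single e 1 : ι → F) ∈ Lat F ι 0 := by
  intro i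
  by_cases h : i = e
  · subst h
    rw [Pi.single_eq_same]
    exact Or.inr (by rw [ordF_one])
  · rw [Pi.single_eq_of_ne h]
    exact (lat F 0).zero_mem

theorem DPStar_psi_add {ψ : AddChar F ℂ} (hψ : Std ψ) (a b : F) (hb : b ∈ lat F 0) :
    ψ (a + b) = ψ a := by
  rw [AddChar.map_add_eq_mul, hψ.triv b hb, mul_one]

theorem tw_lco {ψ : AddChar F ℂ} (hψ : Std ψ) (e : ι) {L : AddSubgroup (ι → F)}
    {φ : (ι → F) → ℂ} (hφ : LCo L φ) : LCo L (tw ψ e φ) := by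
  obtain ⟨m, hm⟩ := hφ
  refine ⟨max m 0, fun x hx y hy => ?_⟩
  have h1 : φ (x + y) = φ x := hm x hx y (Lat_anti (le_max_left _ _) hy)
  have h2 : y ∈ Lat F ι 0 := Lat_anti (le_max_right m 0) hy
  show (ψ ((x + y) e))⁻¹ * φ (x + y) = (ψ (x e))⁻¹ * φ x
  rw [h1, Pi.add_apply, DPStar_psi_add hψ _ _ (h2 e)]

/-- the integrand after the substitution -/
noncomputable def DPStar_G (ψ : AddChar F ℂ) (e : ι) (φ : (ι → F) → ℂ) (w x : ι → F) : ℂ :=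
  (ψ (w ⬝ᵥ x))⁻¹ * tw ψ e φ x

theorem DPStar_G_inv {ψ : AddChar F ℂ} (hψ : Std ψ) (e : ι) {r : ℤ}
    {L : AddSubgroup (ι → F)} (hL : Cp L) (φ : (ι → F) → ℂ) (hφ : LCo L φ) :
    ∃ m : ℤ, ∀ w ∈ Lat F ι r, ∀ x ∈ L, ∀ y ∈ Lat F ι m,
      DPStar_G ψ e φ (w + y) x = DPStar_G ψ e φ w x ∧
        DPStar_G ψ e φ w (x + y) = DPStar_G ψ e φ w x := by
  obtain ⟨m₁, m₂, h₁, h₂⟩ := hL
  obtain ⟨m₃, h₃⟩ := tw_lco hψ e hφ
  refine ⟨max (max m₃ (-r)) (-m₂), fun w hw x hx y hy => ⟨?_, ?_⟩⟩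
  · have h4 : y ⬝ᵥ x ∈ lat F 0 := by
      refine lat_anti ?_ (dot_mem_lat hy (h₂ hx))
      have := le_max_right (max m₃ (-r)) (-m₂)
      omega
    show (ψ ((w + y) ⬝ᵥ x))⁻¹ * tw ψ e φ x = (ψ (w ⬝ᵥ x))⁻¹ * tw ψ e φ x
    rw [add_dotProduct, DPStar_psi_add hψ _ _ h4]
  · have h4 : w ⬝ᵥ y ∈ lat F 0 := by
      refine lat_anti ?_ (dot_mem_lat hw hy)
      have h5 := le_max_left (max m₃ (-r)) (-m₂)
      have h6 := le_max_right m₃ (-r)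
      omega
    have h5 : y ∈ Lat F ι m₃ := Lat_anti (le_trans (le_max_left _ _) (le_max_left _ _)) hy
    show (ψ (w ⬝ᵥ (x + y)))⁻¹ * tw ψ e φ (x + y) = (ψ (w ⬝ᵥ x))⁻¹ * tw ψ e φ x
    rw [dotProduct_add, DPStar_psi_add hψ _ _ h4, h₃ x hx y h5]

/-- the substitution -/
theorem DPStar_subst {ψ : AddChar F ℂ} (hψ : Std ψ) (e : ι) {r : ℤ} (hr : 1 ≤ r)
    {L : AddSubgroup (ι → F)} (hL : Cp L)
    (hstab : ∀ w ∈ Lat F ι r, ∀ x ∈ L, x + (w ⬝ᵥ x) • Pi.single e 1 ∈ L)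
    (φ : (ι → F) → ℂ) (hφ : LCo L φ) (φ' : (ι → F) → ℂ) (w : ι → F) (hwr : w ∈ Lat F ι r)
    (hw : ∀ x ∈ L, φ' (x + (w ⬝ᵥ x) • Pi.single e 1) = φ x) :
    I L (tw ψ e φ') = I L (DPStar_G ψ e φ w) := by
  obtain ⟨σ, hσ, hσm, w', hw', hσ'⟩ := exists_rk hr (DPStar_single (F := F) e) hwr
  have hσL : ∀ x, x ∈ L ↔ σ x ∈ L := by
    intro x
    constructor
    · intro hx
      rw [hσ]
      exact hstab w hwr x hx
    · intro hx
      have h1 := hstab w' hw' (σ x) hx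
      rw [← hσ', AddEquiv.symm_apply_apply] at h1
      exact h1
  have hφ' : LCo L φ' := by
    obtain ⟨m₁, m₂, h₁, h₂⟩ := hL
    obtain ⟨m₃, h₃⟩ := hφ
    refine ⟨max m₁ m₃, fun x hx y hy => ?_⟩
    have key : ∀ z ∈ L, φ' z = φ (σ.symm z) := by
      intro z hz
      have hz' : σ.symm z ∈ L := by
        rw [hσL, AddEquiv.apply_symm_apply]
        exact hz
      have h1 := hw (σ.symm z) hz'
      rw [← hσ, AddEquiv.apply_symm_apply] at h1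
      exact h1
    have hyL : y ∈ L := h₁ (Lat_anti (le_max_left _ _) hy)
    have hy' : σ.symm y ∈ Lat F ι m₃ := by
      rw [hσm, AddEquiv.apply_symm_apply]
      exact Lat_anti (le_max_right _ _) hy
    have hx' : σ.symm x ∈ L := by
      rw [hσL, AddEquiv.apply_symm_apply]
      exact hx
    rw [key _ (L.add_mem hx hyL), key _ hx, map_add]
    exact h₃ _ hx' _ hy'
  rw [← I_aut hL (tw_lco hψ e hφ') σ hσm hσL]
  refine (I_congr hL ?_ ?_).symm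
  · obtain ⟨m, hm⟩ := DPStar_G_inv (r := r) hψ e hL φ hφ
    exact ⟨m, fun x hx y hy => (hm w hwr x hx y hy).2⟩
  · intro x hx
    have h1 : φ' (σ x) = φ x := by
      rw [hσ]
      exact hw x hx
    show (ψ (w ⬝ᵥ x))⁻¹ * ((ψ (x e))⁻¹ * φ x) = (ψ ((σ x) e))⁻¹ * φ' (σ x)
    rw [h1, hσ, Pi.add_apply, Pi.smul_apply, Pi.single_eq_same, smul_eq_mul, mul_one,
      AddChar.map_add_eq_mul, mul_inv]
    ring

theorem star_gen {ψ : AddChar F ℂ} (hψ : Std ψ) (e : ι) {r : ℤ} (hr : 1 ≤ r)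
    {L : AddSubgroup (ι → F)} (hL : Cp L)
    (hstab : ∀ w ∈ Lat F ι r, ∀ x ∈ L, x + (w ⬝ᵥ x) • Pi.single e 1 ∈ L)
    (hrL : Lat F ι (-r) ≤ L) (φ : (ι → F) → ℂ) (hφ : LCo L φ) (φw : (ι → F) → (ι → F) → ℂ)
    (hw : ∀ w ∈ Lat F ι r, ∀ x ∈ L, φw w (x + (w ⬝ᵥ x) • Pi.single e 1) = φ x) :
    I (Lat F ι r) (fun w => I L (tw ψ e (φw w))) =
      ((QQ F ι : ℂ) ^ (-r)) * I (Lat F ι (-r)) (tw ψ e φ) := by
  classical
  obtain ⟨m, hm⟩ := DPStar_G_inv (r := r) hψ e hL φ hφ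
  have hC : I (Lat F ι r) (fun w => I L (tw ψ e (φw w))) =
      I (Lat F ι r) (fun w => I L (fun x => DPStar_G ψ e φ w x)) := by
    refine (I_congr (Cp_Lat r) ?_ ?_).symm
    · refine ⟨m, fun w hwr y hy => ?_⟩
      refine (I_congr hL ?_ ?_).symm
      · exact ⟨m, fun x hx y hy => (hm w hwr x hx y hy).2⟩
      · intro x hx
        exact ((hm w hwr x hx y hy).1).symm
    · intro w hwr
      exact (DPStar_subst hψ e hr hL hstab φ hφ (φw w) w hwr (hw w hwr)).symm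
  rw [hC, I_fubini (Cp_Lat r) hL (DPStar_G ψ e φ) ⟨m, fun w hwr x hx y hy => hm w hwr x hx y hy⟩]
  have hE : ∀ x : ι → F, I (Lat F ι r) (fun w => DPStar_G ψ e φ w x) =
      tw ψ e φ x * (if x ∈ Lat F ι (-r) then (QQ F ι : ℂ) ^ (-r) else 0) := by
    intro x
    have h1 : (fun w => DPStar_G ψ e φ w x) = fun w => tw ψ e φ x • (ψ (w ⬝ᵥ x))⁻¹ := by
      funext w
      show (ψ (w ⬝ᵥ x))⁻¹ * tw ψ e φ x = tw ψ e φ x • (ψ (w ⬝ᵥ x))⁻¹
      rw [smul_eq_mul, mul_comm]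
    rw [h1, I_smul (Cp_Lat r) ((char_lco_inv hψ x).mono le_top), char_orth_inv hψ r x,
      smul_eq_mul]
  have hE' : (fun x => I (Lat F ι r) (fun w => DPStar_G ψ e φ w x)) =
      fun x => tw ψ e φ x * (if x ∈ Lat F ι (-r) then (QQ F ι : ℂ) ^ (-r) else 0) := funext hE
  rw [hE']
  have hl : LCo L (fun x => tw ψ e φ x *
      (if x ∈ Lat F ι (-r) then (QQ F ι : ℂ) ^ (-r) else 0)) := by
    obtain ⟨m₃, h₃⟩ := tw_lco hψ e hφ
    refine ⟨max m₃ (-r), fun x hx y hy => ?_⟩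
    have hy' : y ∈ Lat F ι (-r) := Lat_anti (le_max_right _ _) hy
    have h4 : x + y ∈ Lat F ι (-r) ↔ x ∈ Lat F ι (-r) :=
      AddSubgroup.add_mem_cancel_right _ hy'
    show tw ψ e φ (x + y) * (if x + y ∈ Lat F ι (-r) then (QQ F ι : ℂ) ^ (-r) else 0) =
      tw ψ e φ x * (if x ∈ Lat F ι (-r) then (QQ F ι : ℂ) ^ (-r) else 0)
    rw [h₃ x hx y (Lat_anti (le_max_left _ _) hy)]
    simp only [h4]
  rw [I_sub hL (Cp_Lat (-r)) hrL hl (fun x _ hx => by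
    show tw ψ e φ x * (if x ∈ Lat F ι (-r) then (QQ F ι : ℂ) ^ (-r) else 0) = 0
    rw [if_neg hx, mul_zero])]
  rw [I_congr (Cp_Lat (-r)) (hl.mono hrL) (g := fun x => ((QQ F ι : ℂ) ^ (-r)) • tw ψ e φ x)
    (fun x hx => by
      show tw ψ e φ x * (if x ∈ Lat F ι (-r) then (QQ F ι : ℂ) ^ (-r) else 0) =
        ((QQ F ι : ℂ) ^ (-r)) • tw ψ e φ x
      rw [if_pos hx, smul_eq_mul, mul_comm])]
  rw [I_smul (Cp_Lat (-r)) ((tw_lco hψ e hφ).mono hrL), smul_eq_mul]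

theorem star {ψ : AddChar F ℂ} (hψ : Std ψ) (e : ι) {r : ℤ} (hr : 1 ≤ r)
    {φ : (ι → F) → ℂ} (hφ : Gd r φ) {L : AddSubgroup (ι → F)} (hL : Cp L)
    (hstab : ∀ w ∈ Lat F ι r, ∀ x ∈ L, x + (w ⬝ᵥ x) • Pi.single e 1 ∈ L)
    (hrL : Lat F ι (-r) ≤ L) :
    I L (tw ψ e φ) = I (Lat F ι (-r)) (tw ψ e φ) := by
  have h1 := star_gen hψ e hr hL hstab hrL φ (hφ.1.mono le_top) (fun _ => φ)
    (fun w hwr x _ => hφ.2 _ (DPStar_single (F := F) e) w hwr x)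
  have h2 : I (Lat F ι r) (fun _ : ι → F => I L (tw ψ e φ)) =
      ((QQ F ι : ℂ) ^ (-r)) • I L (tw ψ e φ) := I_const r _
  rw [h2, smul_eq_mul] at h1
  have h3 : ((QQ F ι : ℂ) ^ (-r)) ≠ 0 := by
    apply zpow_ne_zero
    exact_mod_cast (QQ_pos (F := F) (ι := ι)).ne'
  exact mul_left_cancel₀ h3 h1

end PC.DP
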