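import Mathlib
import Pool.Agent.Lib.MP_ca1492_al.D4.DPStar

/-!
# MP_ca1492_al, D4, DPSI: properties of the stable integral

* `si_eq`: `star` with `L = Lat (-j)`, `j ≥ r` (`rk_mem`): the values stabilise; unfold `SI`.
* `si_add`, `si_smul`: `Gd` is preserved (common `r`, `Gd.mono`), `I_add`, `I_smul`.
* `si_trans`: `φ (· + x₀)` satisfies `Gd r'` for a large `r'`: with `m` such that `φ` is invariant
  under `Lat m` and `x₀ ∈ Lat m₀`: for `w ∈ Lat r'`, `r' ≥ m - m₀`, `(w ⬝ᵥ x₀) • u ∈ Lat m`, so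
  `φ (x + (w ⬝ᵥ x) • u + x₀) = φ ((x + x₀) + (w ⬝ᵥ (x + x₀)) • u) = φ (x + x₀)`. Then for large
  `j` (`x₀ ∈ Lat (-j)`) `I_trans` for the function `tw ψ e φ`:
  `tw ψ e (φ (· + x₀)) x = ψ (x₀ e) * tw ψ e φ (x + x₀)`.
* `si_ball`: choose `R` with `Gd R φ`, `R ≥ r`; `star_gen` with `L = Lat (-R')` for a large `R'`.
  For `w ∈ Lat r` let `φw w = φ ∘ σ_w⁻¹`. It is enough to know `I L (tw ψ e (φw w)) = 0` for all
  `w ∈ Lat r`, for one `L = Lat (-j)`, `j` independent of `w`: `φw w` satisfies `Gd R (φw w)`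
  because conjugation by `σ_w` preserves the class of maps `x ↦ x + (w' ⬝ᵥ x) • u'`, `u' ∈ Lat 0`,
  `w' ∈ Lat R` (`σ_w` and its transpose preserve all lattices), so `j = R` works by `si_eq`.
-/

open Topology Matrix ValuativeRel

set_option linter.unusedSectionVars false

namespace PC.DP

open Pool.Agent.Lib.MP_ca1492_al.P

variable {F : Type} [Field F] [ValuativeRel F] [TopologicalSpace F] [IsNonarchimedeanLocalField F]
variable {ι : Type} [Fintype ι] [DecidableEq ι]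

theorem DPSI_single (e : ι) : (Pi.single e (1 : F) : ι → F) ∈ Lat F ι 0 := by
  intro i
  by_cases h : i = e
  · subst h
    rw [Pi.single_eq_same, mem_lat]
    right
    rw [ordF_one]
  · rw [Pi.single_eq_of_ne h]
    exact (lat F 0).zero_mem

theorem Gd.mono {r r' : ℤ} (h : r ≤ r') {φ : (ι → F) → ℂ} (hφ : Gd r φ) : Gd r' φ :=
  ⟨hφ.1, fun u hu w hw x => hφ.2 u hu w (Lat_anti h hw) x⟩

theorem DPSI_stab {r j : ℤ} (hr : 0 ≤ r) (e : ι) :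
    ∀ w ∈ Lat F ι r, ∀ x ∈ Lat F ι j, x + (w ⬝ᵥ x) • Pi.single e 1 ∈ Lat F ι j :=
  fun _ hw _ hx => rk_mem hr (DPSI_single e) hw hx

theorem DPSI_star {ψ : AddChar F ℂ} (hψ : Std ψ) (e : ι) {r : ℤ} (hr : 1 ≤ r)
    {φ : (ι → F) → ℂ} (hφ : Gd r φ) {j : ℤ} (hj : r ≤ j) :
    I (Lat F ι (-j)) (tw ψ e φ) = I (Lat F ι (-r)) (tw ψ e φ) :=
  star hψ e hr hφ (Cp_Lat _) (DPSI_stab (by linarith) e) (Lat_anti (by linarith))

theorem si_eq {ψ : AddChar F ℂ} (hψ : Std ψ) (e : ι) {r : ℤ} (hr : 1 ≤ r)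
    {φ : (ι → F) → ℂ} (hφ : Gd r φ) {j : ℤ} (hj : r ≤ j) :
    SI ψ e φ = I (Lat F ι (-j)) (tw ψ e φ) := by
  have h : ∃ w : ℂ, ∃ r : ℤ, ∀ j, r ≤ j → I (Lat F ι (-j)) (tw ψ e φ) = w :=
    ⟨I (Lat F ι (-r)) (tw ψ e φ), r, fun j hj => DPSI_star hψ e hr hφ hj⟩
  unfold SI
  rw [dif_pos h]
  obtain ⟨r₀, hr₀⟩ := h.choose_spec
  rw [← hr₀ (max r r₀) (le_max_right _ _), DPSI_star hψ e hr hφ (le_max_left _ _),
    DPSI_star hψ e hr hφ hj]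

theorem DPSI_add {r : ℤ} {φ φ' : (ι → F) → ℂ} (hφ : Gd r φ) (hφ' : Gd r φ') :
    Gd r (fun x => φ x + φ' x) := by
  obtain ⟨m, hm⟩ := hφ.1
  obtain ⟨m', hm'⟩ := hφ'.1
  refine ⟨⟨max m m', fun x hx y hy => ?_⟩, fun u hu w hw x => ?_⟩
  · change φ (x + y) + φ' (x + y) = φ x + φ' x
    rw [hm x hx y (Lat_anti (le_max_left _ _) hy), hm' x hx y (Lat_anti (le_max_right _ _) hy)]
  · change φ _ + φ' _ = φ x + φ' x
    rw [hφ.2 u hu w hw x, hφ'.2 u hu w hw x]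

theorem DPSI_smul {r : ℤ} {φ : (ι → F) → ℂ} (hφ : Gd r φ) (c : ℂ) :
    Gd r (fun x => c * φ x) := by
  obtain ⟨m, hm⟩ := hφ.1
  refine ⟨⟨m, fun x hx y hy => ?_⟩, fun u hu w hw x => ?_⟩
  · change c * φ (x + y) = c * φ x
    rw [hm x hx y hy]
  · change c * φ _ = c * φ x
    rw [hφ.2 u hu w hw x]

theorem DPSI_lco {ψ : AddChar F ℂ} (hψ : Std ψ) (e : ι) {r : ℤ} {φ : (ι → F) → ℂ}
    (hφ : Gd r φ) (L : AddSubgroup (ι → F)) : LCo L (tw ψ e φ) :=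
  tw_lco hψ e (hφ.1.mono le_top)

theorem si_add {ψ : AddChar F ℂ} (hψ : Std ψ) (e : ι) {r r' : ℤ} (hr : 1 ≤ r)
    {φ φ' : (ι → F) → ℂ} (hφ : Gd r φ) (hφ' : Gd r' φ') :
    SI ψ e (fun x => φ x + φ' x) = SI ψ e φ + SI ψ e φ' := by
  have h1 : 1 ≤ max r r' := le_trans hr (le_max_left _ _)
  have hφ1 : Gd (max r r') φ := hφ.mono (le_max_left _ _)
  have hφ2 : Gd (max r r') φ' := hφ'.mono (le_max_right _ _)
  rw [si_eq hψ e h1 (DPSI_add hφ1 hφ2) le_rfl, si_eq hψ e h1 hφ1 le_rfl,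
    si_eq hψ e h1 hφ2 le_rfl, ← I_add (Cp_Lat _) (DPSI_lco hψ e hφ1 _) (DPSI_lco hψ e hφ2 _)]
  congr 1
  funext x
  unfold tw
  ring

theorem si_smul {ψ : AddChar F ℂ} (hψ : Std ψ) (e : ι) {r : ℤ}
    {φ : (ι → F) → ℂ} (hφ : Gd r φ) (c : ℂ) :
    SI ψ e (fun x => c * φ x) = c * SI ψ e φ := by
  have h1 : 1 ≤ max r 1 := le_max_right _ _
  have hφ1 : Gd (max r 1) φ := hφ.mono (le_max_left _ _)
  rw [si_eq hψ e h1 (DPSI_smul hφ1 c) le_rfl, si_eq hψ e h1 hφ1 le_rfl, ← smul_eq_mul,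
    ← I_smul (Cp_Lat _) (DPSI_lco hψ e hφ1 _)]
  congr 1
  funext x
  unfold tw
  rw [smul_eq_mul]
  ring

theorem DPSI_trans {r m m₀ r' : ℤ} {φ : (ι → F) → ℂ} (hφ : Gd r φ) (hm : Inv m ⊤ φ)
    {x₀ : ι → F} (hx₀ : x₀ ∈ Lat F ι m₀) (h1 : r ≤ r') (h2 : m - m₀ ≤ r') :
    Gd r' (fun x => φ (x + x₀)) := by
  refine ⟨⟨m, fun x _ y hy => ?_⟩, fun u hu w hw x => ?_⟩
  · change φ (x + y + x₀) = φ (x + x₀)
    rw [add_right_comm]
    exact hm (x + x₀) trivial y hy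
  · change φ (x + (w ⬝ᵥ x) • u + x₀) = φ (x + x₀)
    have h3 : (w ⬝ᵥ x₀) • u ∈ Lat F ι m := by
      have h4 := smul_mem_Lat (dot_mem_lat hw hx₀) hu
      exact Lat_anti (by linarith) h4
    have h5 := hφ.2 u hu w (Lat_anti h1 hw) (x + x₀)
    rw [← h5, dotProduct_add, add_smul, ← add_assoc, hm _ trivial _ h3, add_right_comm]

theorem si_trans {ψ : AddChar F ℂ} (hψ : Std ψ) (e : ι) {r : ℤ}
    {φ : (ι → F) → ℂ} (hφ : Gd r φ) (x₀ : ι → F) :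
    SI ψ e (fun x => φ (x + x₀)) = ψ (x₀ e) * SI ψ e φ := by
  obtain ⟨m, hm⟩ := hφ.1
  obtain ⟨m₀, hm₀⟩ := exists_mem_Lat x₀
  have hr1 : 1 ≤ max (max r 1) (m - m₀) := (le_max_right _ _).trans (le_max_left _ _)
  have hr2 : r ≤ max (max r 1) (m - m₀) := (le_max_left _ _).trans (le_max_left _ _)
  have hr3 : m - m₀ ≤ max (max r 1) (m - m₀) := le_max_right _ _
  generalize max (max r 1) (m - m₀) = r' at hr1 hr2 hr3
  have hg : Gd r' (fun x => φ (x + x₀)) := DPSI_trans hφ hm hm₀ hr2 hr3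
  have hφ1 : Gd r' φ := hφ.mono hr2
  have hj1 : r' ≤ max r' (-m₀) := le_max_left _ _
  have hj2 : -m₀ ≤ max r' (-m₀) := le_max_right _ _
  generalize max r' (-m₀) = j at hj1 hj2
  have hx₀ : x₀ ∈ Lat F ι (-j) := Lat_anti (by linarith) hm₀
  have hl : LCo (Lat F ι (-j)) (fun x => tw ψ e φ (x + x₀)) := by
    obtain ⟨m₁, hm₁⟩ := DPSI_lco hψ e hφ1 (Lat F ι (-j))
    refine ⟨m₁, fun x hx y hy => ?_⟩
    change tw ψ e φ (x + y + x₀) = tw ψ e φ (x + x₀)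
    rw [add_right_comm]
    exact hm₁ (x + x₀) ((Lat F ι (-j)).add_mem hx hx₀) y hy
  rw [si_eq hψ e hr1 hg hj1, si_eq hψ e hr1 hφ1 hj1,
    ← I_trans (Cp_Lat _) (DPSI_lco hψ e hφ1 _) hx₀, ← smul_eq_mul, ← I_smul (Cp_Lat _) hl]
  congr 1
  funext x
  have h0 : ψ (x₀ e) ≠ 0 := (ψ.val_isUnit _).ne_zero
  change (ψ (x e))⁻¹ * φ (x + x₀) = ψ (x₀ e) * ((ψ (x e + x₀ e))⁻¹ * φ (x + x₀))
  rw [AddChar.map_add_eq_mul, _root_.mul_inv, mul_comm (ψ (x e))⁻¹ (ψ (x₀ e))⁻¹,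
    mul_assoc (ψ (x₀ e))⁻¹, mul_inv_cancel_left₀ h0]

theorem DPSI_conj {r R : ℤ} (hr : 1 ≤ r) {φ φ' : (ι → F) → ℂ} (hφ : Gd R φ) (e : ι)
    {w : ι → F} (hw : w ∈ Lat F ι r) (h : ∀ x, φ' (x + (w ⬝ᵥ x) • Pi.single e 1) = φ x) :
    Gd R φ' := by
  obtain ⟨σ, hσ, hσL, w₁, hw₁, hσ'⟩ := exists_rk hr (DPSI_single (F := F) e) hw
  have h' : ∀ x, φ' x = φ (σ.symm x) := by
    intro x
    rw [← h (σ.symm x), ← hσ, AddEquiv.apply_symm_apply]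
  obtain ⟨m, hm⟩ := hφ.1
  refine ⟨⟨m, fun x _ y hy => ?_⟩, fun u hu v hv x => ?_⟩
  · rw [h', h', map_add]
    refine hm _ trivial _ ?_
    rw [hσL, AddEquiv.apply_symm_apply]
    exact hy
  · rw [h', h', map_add]
    have h1 : σ.symm ((v ⬝ᵥ x) • u) = (v ⬝ᵥ x) • σ.symm u := by
      rw [hσ', hσ', dotProduct_smul, smul_add, smul_assoc]
    have h2 : σ.symm u ∈ Lat F ι 0 := by
      rw [hσL, AddEquiv.apply_symm_apply]
      exact hu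
    have h3 : v ⬝ᵥ x = (v + (v ⬝ᵥ Pi.single e 1) • w) ⬝ᵥ σ.symm x := by
      have h4 : x = σ.symm x + (w ⬝ᵥ σ.symm x) • Pi.single e 1 := by
        rw [← hσ, AddEquiv.apply_symm_apply]
      conv_lhs => rw [h4]
      rw [dotProduct_add, dotProduct_smul, add_dotProduct, smul_dotProduct, smul_eq_mul,
        smul_eq_mul, mul_comm (w ⬝ᵥ σ.symm x)]
    have h5 : v + (v ⬝ᵥ Pi.single e 1) • w ∈ Lat F ι R := by
      refine (Lat F ι R).add_mem hv ?_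
      have h6 := smul_mem_Lat (dot_mem_lat hv (DPSI_single (F := F) e)) hw
      exact Lat_anti (by linarith) h6
    rw [h1, h3]
    exact hφ.2 _ h2 _ h5 _

/-- if the stable integrals of all `φ ∘ σ_w⁻¹`, `w ∈ Lat r`, vanish, then the integral over
`Lat (-r)` vanishes -/
theorem si_ball {ψ : AddChar F ℂ} (hψ : Std ψ) (e : ι) {r R : ℤ} (hr : 1 ≤ r)
    {φ : (ι → F) → ℂ} (hφ : Gd R φ)
    (h : ∀ w ∈ Lat F ι r, ∀ φ' : (ι → F) → ℂ,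
      (∀ x, φ' (x + (w ⬝ᵥ x) • Pi.single e 1) = φ x) → SI ψ e φ' = 0) :
    I (Lat F ι (-r)) (tw ψ e φ) = 0 := by
  have hR1 : R ≤ max R r := le_max_left _ _
  have hR2 : r ≤ max R r := le_max_right _ _
  generalize max R r = R' at hR1 hR2
  have hφ1 : Gd R' φ := hφ.mono hR1
  have hex : ∀ w : ι → F, ∃ φ' : (ι → F) → ℂ, w ∈ Lat F ι r →
      ∀ x, φ' (x + (w ⬝ᵥ x) • Pi.single e 1) = φ x := by
    intro w
    by_cases hw : w ∈ Lat F ι r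
    · obtain ⟨σ, hσ, _, _⟩ := exists_rk hr (DPSI_single (F := F) e) hw
      refine ⟨fun y => φ (σ.symm y), fun _ x => ?_⟩
      change φ (σ.symm _) = φ x
      rw [← hσ, AddEquiv.symm_apply_apply]
    · exact ⟨fun _ => 0, fun hw' => absurd hw' hw⟩
  choose φw hφw using hex
  have hsg := star_gen hψ e hr (Cp_Lat (-R')) (DPSI_stab (by linarith) e)
    (Lat_anti (by linarith : -R' ≤ -r)) φ (hφ.1.mono le_top) φw
    (fun w hw x _ => hφw w hw x)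
  have h0 : ∀ w ∈ Lat F ι r, I (Lat F ι (-R')) (tw ψ e (φw w)) = 0 := by
    intro w hw
    rw [← si_eq hψ e (hr.trans hR2) (DPSI_conj hr hφ1 e hw (hφw w hw)) le_rfl]
    exact h w hw _ (hφw w hw)
  have h1 : I (Lat F ι r) (fun w => I (Lat F ι (-R')) (tw ψ e (φw w))) = 0 := by
    rw [I_congr (Cp_Lat _) (g := fun _ => (0 : ℂ)) ?_ h0, I_const, smul_zero]
    refine ⟨r, fun x hx y hy => ?_⟩
    change I (Lat F ι (-R')) (tw ψ e (φw (x + y))) = I (Lat F ι (-R')) (tw ψ e (φw x))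
    rw [h0 x hx, h0 (x + y) ((Lat F ι r).add_mem hx hy)]
  rw [h1] at hsg
  rcases mul_eq_zero.1 hsg.symm with h2 | h2
  · exfalso
    have h3 : (QQ F ι : ℂ) ≠ 0 := Nat.cast_ne_zero.2 QQ_pos.ne'
    exact zpow_ne_zero _ h3 h2
  · exact h2

end PC.DP
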