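import Mathlib
import Pool.Agent.Lib.MP_ca1492_al.D4.DPJac
import Pool.Agent.Lib.MP_ca1492_al.D4.DPSI

/-!
# MP_ca1492_al, D4, DPSIJac: change of variables for the stable integral

`A` invertible with `(A x) e = x e` for all `x`. Let `Gd r φ`, `1 ≤ r`.
* `gd_comp`: `φ ∘ A` satisfies `Gd r'` for large `r'`: for `u ∈ Lat 0`, `w ∈ Lat r'`:
  `A (x + (w ⬝ᵥ x) • u) = A x + (w' ⬝ᵥ (A x)) • u'` with `u' = ϖ ^ k • A u`,
  `w' = ϖ ^ (-k) • (w ᵥ* A⁻¹)`, `k` such that `u' ∈ Lat 0` for all `u ∈ Lat 0` (`mulVec_bound`),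
  `r'` such that `w' ∈ Lat r`.
* `SI (φ ∘ A) = I (Lat (-j)) (tw ψ e (φ ∘ A))` for large `j` (`si_eq`),
  `tw ψ e (φ ∘ A) x = tw ψ e φ (A x)` because `(A x) e = x e`, `= |det A|⁻¹ I L' (tw ψ e φ)` with
  `L' = A (Lat (-j))` (`jac`), and `I L' (tw ψ e φ) = I (Lat (-R)) (tw ψ e φ) = SI φ` by `star` for
  a fixed large `R ≥ r` (such that `w ↦ A⁻¹ ...` : `x + (w ⬝ᵥ x) • E ∈ L'` for `x ∈ L'`,
  `w ∈ Lat R`: write `x = A y`: `A y + (w ⬝ᵥ A y) • E = A (y + (w ⬝ᵥ A y) • A⁻¹ E)` and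
  `(w ⬝ᵥ A y) • A⁻¹ E ∈ Lat (-j)` for `y ∈ Lat (-j)` if `R` is large, independently of `j`) and `j`
  large with `Lat (-R) ≤ L'`.
-/

open Topology Matrix ValuativeRel

set_option linter.unusedSectionVars false

namespace PC.DP

open Pool.Agent.Lib.MP_ca1492_al.P

variable {F : Type} [Field F] [ValuativeRel F] [TopologicalSpace F] [IsNonarchimedeanLocalField F]
variable {ι : Type} [Fintype ι] [DecidableEq ι]

theorem gd_comp {r : ℤ} {φ : (ι → F) → ℂ} (hφ : Gd r φ) {A : Matrix ι ι F} (hA : A.det ≠ 0) :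
    ∃ r' : ℤ, r ≤ r' ∧ Gd r' (fun x => φ (A *ᵥ x)) := by
  obtain ⟨⟨m, hm⟩, hg⟩ := hφ
  obtain ⟨k, hk⟩ := mulVec_bound A
  obtain ⟨k2, hk2⟩ := mulVec_bound (A⁻¹)ᵀ
  obtain ⟨c, hc0, hc⟩ := ordF_surj (F := F) (-k)
  have hu : IsUnit A.det := isUnit_iff_ne_zero.mpr hA
  have hinv : A⁻¹ * A = 1 := Matrix.nonsing_inv_mul A hu
  refine ⟨max r (r - k - k2), le_max_left _ _, ⟨m - k, ?_⟩, ?_⟩
  · intro x _ y hy
    have h1 := hk (m - k) y hy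
    rw [sub_add_cancel] at h1
    show φ (A *ᵥ (x + y)) = φ (A *ᵥ x)
    rw [Matrix.mulVec_add]
    exact hm _ trivial _ h1
  · intro u hu0 w hw x
    show φ (A *ᵥ (x + (w ⬝ᵥ x) • u)) = φ (A *ᵥ x)
    have hcm : c ∈ lat F (-k) := Or.inr hc.ge
    have hci : c⁻¹ ∈ lat F k := by
      refine Or.inr ?_
      rw [ordF_inv, hc, neg_neg]
    have h1 : c • (A *ᵥ u) ∈ Lat F ι 0 := by
      have := smul_mem_Lat hcm (hk 0 u hu0)
      rwa [zero_add, neg_add_cancel] at this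
    have h2 : c⁻¹ • (w ᵥ* A⁻¹) ∈ Lat F ι r := by
      have h3 := hk2 _ w hw
      rw [Matrix.mulVec_transpose] at h3
      refine Lat_anti ?_ (smul_mem_Lat hci h3)
      have := le_max_right r (r - k - k2)
      omega
    have h3 := hg _ h1 _ h2 (A *ᵥ x)
    have h4 : (c⁻¹ • (w ᵥ* A⁻¹)) ⬝ᵥ (A *ᵥ x) = c⁻¹ * (w ⬝ᵥ x) := by
      rw [smul_dotProduct, smul_eq_mul, Matrix.dotProduct_mulVec, Matrix.vecMul_vecMul, hinv,
        Matrix.vecMul_one]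
    have h5 : A *ᵥ (x + (w ⬝ᵥ x) • u) =
        A *ᵥ x + ((c⁻¹ • (w ᵥ* A⁻¹)) ⬝ᵥ (A *ᵥ x)) • (c • (A *ᵥ u)) := by
      rw [h4, Matrix.mulVec_add, Matrix.mulVec_smul, smul_smul]
      congr 2
      field_simp
    rw [h5]
    exact h3

theorem si_jac {ψ : AddChar F ℂ} (hψ : Std ψ) (e : ι) {r : ℤ}
    {φ : (ι → F) → ℂ} (hφ : Gd r φ) {A : Matrix ι ι F} (hA : A.det ≠ 0)
    (he : ∀ x, (A *ᵥ x) e = x e) :
    SI ψ e (fun x => φ (A *ᵥ x)) = ((nrm F A.det)⁻¹ : ℝ) * SI ψ e φ := by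
  have hu : IsUnit A.det := isUnit_iff_ne_zero.mpr hA
  have hinv : A⁻¹ * A = 1 := Matrix.nonsing_inv_mul A hu
  have hinv' : A * A⁻¹ = 1 := Matrix.mul_nonsing_inv A hu
  have hAi : ∀ x : ι → F, A⁻¹ *ᵥ (A *ᵥ x) = x := by
    intro x
    rw [Matrix.mulVec_mulVec, hinv, Matrix.one_mulVec]
  have hAi' : ∀ x : ι → F, A *ᵥ (A⁻¹ *ᵥ x) = x := by
    intro x
    rw [Matrix.mulVec_mulVec, hinv', Matrix.one_mulVec]
  have hφ0 : Gd (max r 1) φ := Gd.mono (le_max_left _ _) hφ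
  obtain ⟨r1, hr1, hφ1⟩ := gd_comp hφ0 hA
  have hr1' : 1 ≤ r1 := le_trans (le_max_right _ _) hr1
  obtain ⟨k, hk⟩ := mulVec_bound A
  obtain ⟨kI, hkI⟩ := mulVec_bound A⁻¹
  obtain ⟨R, hR1, hR2⟩ : ∃ R : ℤ, max r 1 ≤ R ∧ 0 ≤ R + k + kI :=
    ⟨max (max r 1) (-k - kI), le_max_left _ _, by
      have := le_max_right (max r 1) (-k - kI)
      omega⟩
  have hR0 : 1 ≤ R := le_trans (le_max_right _ _) hR1
  have hφR : Gd R φ := Gd.mono hR1 hφ0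
  obtain ⟨j, hj1, hj2⟩ : ∃ j : ℤ, r1 ≤ j ∧ R - kI ≤ j := ⟨max r1 (R - kI), le_max_left _ _,
    le_max_right _ _⟩
  have hmem : ∀ x : ι → F, x ∈ (Lat F ι (-j)).comap (Matrix.mulVecLin A⁻¹).toAddMonoidHom ↔
      A⁻¹ *ᵥ x ∈ Lat F ι (-j) := fun x => Iff.rfl
  have hCp : Cp ((Lat F ι (-j)).comap (Matrix.mulVecLin A⁻¹).toAddMonoidHom) := by
    refine ⟨-j - kI, -j + k, ?_, ?_⟩
    · intro x hx
      rw [hmem]
      have := hkI _ x hx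
      rwa [sub_add_cancel] at this
    · intro x hx
      rw [hmem] at hx
      have := hk _ _ hx
      rwa [hAi'] at this
  have hstab : ∀ w ∈ Lat F ι R,
      ∀ x ∈ (Lat F ι (-j)).comap (Matrix.mulVecLin A⁻¹).toAddMonoidHom,
      x + (w ⬝ᵥ x) • Pi.single e 1 ∈
        (Lat F ι (-j)).comap (Matrix.mulVecLin A⁻¹).toAddMonoidHom := by
    intro w hw x hx
    rw [hmem] at hx ⊢
    rw [Matrix.mulVec_add, Matrix.mulVec_smul]
    refine (Lat F ι (-j)).add_mem hx ?_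
    have hE : (Pi.single e 1 : ι → F) ∈ Lat F ι 0 := by
      intro i
      by_cases hi : i = e
      · subst hi
        rw [Pi.single_eq_same]
        exact Or.inr (by rw [ordF_one])
      · rw [Pi.single_eq_of_ne hi]
        exact (lat F 0).zero_mem
    have h1 := hk _ _ hx
    rw [hAi'] at h1
    have h2 := dot_mem_lat hw h1
    have h3 := smul_mem_Lat h2 (hkI 0 _ hE)
    exact Lat_anti (by omega) h3
  have hle : Lat F ι (-R) ≤ (Lat F ι (-j)).comap (Matrix.mulVecLin A⁻¹).toAddMonoidHom := by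
    intro x hx
    rw [hmem]
    exact Lat_anti (by omega) (hkI _ x hx)
  have hJ := jac hA (Lat F ι (-j)) _ (Cp_Lat (-j)) hCp (fun x => by rw [hmem, hAi]) (tw ψ e φ)
    (tw_lco hψ e (hφ0.1.mono le_top))
  have htw : tw ψ e (fun x => φ (A *ᵥ x)) = fun x => tw ψ e φ (A *ᵥ x) := by
    funext x
    show (ψ (x e))⁻¹ * φ (A *ᵥ x) = (ψ ((A *ᵥ x) e))⁻¹ * φ (A *ᵥ x)
    rw [he]
  rw [si_eq hψ e hr1' hφ1 hj1, htw, hJ, star hψ e hR0 hφR hCp hstab hle,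
    si_eq hψ e hR0 hφR le_rfl]

end PC.DP
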