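import Mathlib
import Pool.Agent.Lib.MP_ca1492_al.D4.DPMatB
import Pool.Agent.Lib.MP_ca1492_al.D4.DPSI
import Pool.Agent.Lib.MP_ca1492_al.D4.DPTop

/-!
# MP_ca1492_al, D4, DPStepA: helper file for DPStep

The function `phi v v' x = bm (π (colG x) v) v'`, its invariance properties, and the pairing
`newb v v' = SI ψ e (phi v v')`.
-/

open Topology Matrix ValuativeRel

set_option linter.unusedSectionVars false
set_option linter.unusedVariables false

namespace PC.DP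

open Pool.Agent.Lib.MP_ca1492_al.P

variable {F : Type} [Field F] [ValuativeRel F] [TopologicalSpace F] [IsNonarchimedeanLocalField F]
variable {n m : ℕ}
variable {V V' : Type} [AddCommGroup V] [Module ℂ V] [AddCommGroup V'] [Module ℂ V']

/-- the function `x ↦ bm (π (colG x) v) v'` -/
def phi (m : ℕ) (π : Representation ℂ (GL (Fin n) F) V) (bm : V →ₗ[ℂ] V' →ₗ[ℂ] ℂ) (v : V) (v' : V') :
    (Ix n m → F) → ℂ := fun x => bm (π (colG n m x) v) v'

theorem DPStepA_mul {G : Type*} [Group G] (π : Representation ℂ G V) (g h : G) (v : V) :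
    π (g * h) v = π g (π h v) := by
  rw [map_mul]
  rfl

theorem DPStepA_one {G : Type*} [Group G] (π : Representation ℂ G V) (v : V) :
    π 1 v = v := by
  rw [map_one]
  rfl

theorem DPStepA_inv_fix {G : Type*} [Group G] (π : Representation ℂ G V) {g : G} {v : V}
    (h : π g v = v) : π g⁻¹ v = v := by
  conv_lhs => rw [← h]
  rw [← DPStepA_mul, inv_mul_cancel, DPStepA_one]

theorem det_colG (x : Ix n m → F) : (colG n m x).val.det = 1 := by
  have h : (colM n m x).BlockTriangular id := by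
    intro i j hij
    have h1 : j < i := hij
    unfold colM
    rw [if_neg (ne_of_gt h1), dif_neg]
    rintro ⟨h2, h3⟩
    have h4 : j.val < i.val := h1
    omega
  show (colM n m x).det = 1
  rw [Matrix.det_of_upperTriangular h]
  refine Finset.prod_eq_one fun i _ => ?_
  simp [colM]

theorem phi_conj (ψ : AddChar F ℂ) (hm : m < n) {π : Representation ℂ (GL (Fin n) F) V}
    {π' : Representation ℂ (GL (Fin n) F) V'} {b bm : V →ₗ[ℂ] V' →ₗ[ℂ] ℂ}
    (h : IsDP ψ (m + 1) π π' b bm) {p : GL (Fin n) F} (hp : p ∈ GG F n m) (v : V) (v' : V')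
    (x : Ix n m → F) :
    phi m π bm (π p v) (π' p v') (blk m p *ᵥ x) =
      ((nrm F p.val.det : ℝ) : ℂ) ^ (n - (m + 1)) * phi m π bm v v' x := by
  unfold phi
  rw [← GG_conj hp, ← DPStepA_mul, inv_mul_cancel_right, DPStepA_mul, h.equi p (GG_sub_PP hp)]

theorem phi_lco (hm : m < n) {π : Representation ℂ (GL (Fin n) F) V} (hπ : IsSm π)
    (bm : V →ₗ[ℂ] V' →ₗ[ℂ] ℂ) (v : V) (v' : V') : LCo ⊤ (phi m π bm v v') := by
  obtain ⟨r, hr, h1, -⟩ := small π hπ v m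
  refine ⟨r, fun x _ y hy => ?_⟩
  unfold phi
  rw [colG_add, DPStepA_mul, h1 y hy]

theorem rk_fix (ψ : AddChar F ℂ) {π : Representation ℂ (GL (Fin n) F) V}
    {r : ℕ} (hr : 1 ≤ r) {u w : Ix n m → F} (hu : u ∈ Lat F (Ix n m) 0)
    (hw : w ∈ Lat F (Ix n m) r) :
    ∃ h : (rkM u w).det ≠ 0, nrm F (extG (rkM u w) h).val.det = 1 := by
  obtain ⟨h1, h2⟩ := unit_dot (F := F) (r := (r : ℤ)) (by exact_mod_cast hr) hu hw
  have h3 : (rkM u w).det ≠ 0 := by rwa [det_rkM]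
  refine ⟨h3, ?_⟩
  have h4 : (extG (rkM u w) h3).val.det = 1 + w ⬝ᵥ u := by
    show (ext (rkM u w)).det = _
    rw [det_ext, det_rkM]
  rw [h4]
  exact nrm_unit h1 h2

theorem gd_phi (ψ : AddChar F ℂ) (hm : m < n) {π : Representation ℂ (GL (Fin n) F) V}
    {π' : Representation ℂ (GL (Fin n) F) V'} (hπ : IsSm π) (hπ' : IsSm π')
    {b bm : V →ₗ[ℂ] V' →ₗ[ℂ] ℂ} (h : IsDP ψ (m + 1) π π' b bm) (v : V) (v' : V') :
    ∃ r : ℤ, 1 ≤ r ∧ Gd r (phi m π bm v v') := by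
  obtain ⟨r, hr, -, h2⟩ := small π hπ v m
  obtain ⟨r', hr', -, h2'⟩ := small π' hπ' v' m
  refine ⟨(max r r' : ℕ), by exact_mod_cast le_trans hr (le_max_left r r'),
    phi_lco hm hπ bm v v', fun u hu w hw x => ?_⟩
  have hw1 : w ∈ Lat F (Ix n m) r := Lat_anti (by exact_mod_cast le_max_left r r') hw
  have hw2 : w ∈ Lat F (Ix n m) r' := Lat_anti (by exact_mod_cast le_max_right r r') hw
  obtain ⟨hd, hn⟩ := rk_fix ψ (π := π) hr hu hw1
  have e1 := phi_conj ψ hm h (extG_mem (rkM u w) hd) v v' x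
  rw [h2 u hu w hw1 hd, h2' u hu w hw2 hd, blk_extG, hn, rkM_mulVec] at e1
  rw [e1]
  simp

theorem phi_add_left (π : Representation ℂ (GL (Fin n) F) V) (bm : V →ₗ[ℂ] V' →ₗ[ℂ] ℂ)
    (v w : V) (v' : V') :
    phi m π bm (v + w) v' = fun x => phi m π bm v v' x + phi m π bm w v' x := by
  funext x
  simp [phi]

theorem phi_smul_left (π : Representation ℂ (GL (Fin n) F) V) (bm : V →ₗ[ℂ] V' →ₗ[ℂ] ℂ)
    (c : ℂ) (v : V) (v' : V') :
    phi m π bm (c • v) v' = fun x => c * phi m π bm v v' x := by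
  funext x
  simp [phi]

theorem phi_add_right (π : Representation ℂ (GL (Fin n) F) V) (bm : V →ₗ[ℂ] V' →ₗ[ℂ] ℂ)
    (v : V) (v' w' : V') :
    phi m π bm v (v' + w') = fun x => phi m π bm v v' x + phi m π bm v w' x := by
  funext x
  simp [phi]

theorem phi_smul_right (π : Representation ℂ (GL (Fin n) F) V) (bm : V →ₗ[ℂ] V' →ₗ[ℂ] ℂ)
    (c : ℂ) (v : V) (v' : V') :
    phi m π bm v (c • v') = fun x => c * phi m π bm v v' x := by
  funext x
  simp [phi]

/-- the new pairing, as a function -/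
noncomputable def newf (ψ : AddChar F ℂ) (e : Ix n m) (π : Representation ℂ (GL (Fin n) F) V)
    (bm : V →ₗ[ℂ] V' →ₗ[ℂ] ℂ) (v : V) (v' : V') : ℂ := SI ψ e (phi m π bm v v')

theorem exists_newb {ψ : AddChar F ℂ} (hψ : Std ψ) (e : Ix n m) (hm : m < n)
    {π : Representation ℂ (GL (Fin n) F) V}
    {π' : Representation ℂ (GL (Fin n) F) V'} (hπ : IsSm π) (hπ' : IsSm π')
    {b bm : V →ₗ[ℂ] V' →ₗ[ℂ] ℂ} (h : IsDP ψ (m + 1) π π' b bm) :
    ∃ bn : V →ₗ[ℂ] V' →ₗ[ℂ] ℂ, ∀ v v', bn v v' = newf ψ e π bm v v' := by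
  refine ⟨LinearMap.mk₂ ℂ (newf ψ e π bm) ?_ ?_ ?_ ?_, fun v v' => rfl⟩
  · intro v w v'
    obtain ⟨r, hr, h1⟩ := gd_phi ψ hm hπ hπ' h v v'
    obtain ⟨r', hr', h2⟩ := gd_phi ψ hm hπ hπ' h w v'
    unfold newf
    rw [phi_add_left, si_add hψ e hr h1 h2]
  · intro c v v'
    obtain ⟨r, hr, h1⟩ := gd_phi ψ hm hπ hπ' h v v'
    unfold newf
    rw [phi_smul_left, si_smul hψ e h1, smul_eq_mul]
  · intro v v' w'
    obtain ⟨r, hr, h1⟩ := gd_phi ψ hm hπ hπ' h v v'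
    obtain ⟨r', hr', h2⟩ := gd_phi ψ hm hπ hπ' h v w'
    unfold newf
    rw [phi_add_right, si_add hψ e hr h1 h2]
  · intro c v v'
    obtain ⟨r, hr, h1⟩ := gd_phi ψ hm hπ hπ' h v v'
    unfold newf
    rw [phi_smul_right, si_smul hψ e h1, smul_eq_mul]

theorem phi_shift_left (π : Representation ℂ (GL (Fin n) F) V) (bm : V →ₗ[ℂ] V' →ₗ[ℂ] ℂ)
    (x₀ : Ix n m → F) (v : V) (v' : V') :
    phi m π bm (π (colG n m x₀) v) v' = fun x => phi m π bm v v' (x + x₀) := by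
  funext x
  unfold phi
  rw [colG_add, DPStepA_mul]

theorem phi_shift_right (ψ : AddChar F ℂ) (hm : m < n) {π : Representation ℂ (GL (Fin n) F) V}
    {π' : Representation ℂ (GL (Fin n) F) V'} {b bm : V →ₗ[ℂ] V' →ₗ[ℂ] ℂ}
    (h : IsDP ψ (m + 1) π π' b bm)
    (x₀ : Ix n m → F) (v : V) (v' : V') :
    phi m π bm v (π' (colG n m x₀) v') = fun x => phi m π bm v v' (x + -x₀) := by
  funext x
  unfold phi
  have e1 := h.equi (colG n m x₀) (colG_mem_PP x₀) (π (colG n m (x + -x₀)) v) v'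
  rw [det_colG, nrm_one, ← DPStepA_mul, ← colG_add] at e1
  have e2 : x₀ + (x + -x₀) = x := by abel
  rw [e2] at e1
  rw [e1]
  simp

theorem phi_U_left (ψ : AddChar F ℂ) (hm : m < n) {π : Representation ℂ (GL (Fin n) F) V}
    {π' : Representation ℂ (GL (Fin n) F) V'} {b bm : V →ₗ[ℂ] V' →ₗ[ℂ] ℂ}
    (h : IsDP ψ (m + 1) π π' b bm) {u : GL (Fin n) F} (hu : u ∈ UU F n (m + 1))
    (v : V) (v' : V') :
    phi m π bm (π u v) v' = fun x => psi ψ n (m + 1) u * phi m π bm v v' x := by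
  funext x
  unfold phi
  obtain ⟨h1, h2⟩ := PP_conj ψ hm (colG_mem_PP x) hu
  have e1 := h.left _ h1 (π (colG n m x) v) v'
  rw [← DPStepA_mul, inv_mul_cancel_right, DPStepA_mul, h2] at e1
  exact e1

theorem phi_U_right (ψ : AddChar F ℂ) (hm : m < n) {π : Representation ℂ (GL (Fin n) F) V}
    {π' : Representation ℂ (GL (Fin n) F) V'} {b bm : V →ₗ[ℂ] V' →ₗ[ℂ] ℂ}
    (h : IsDP ψ (m + 1) π π' b bm) {u : GL (Fin n) F} (hu : u ∈ UU F n (m + 1))
    (v : V) (v' : V') :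
    phi m π bm v (π' u v') = fun x => (psi ψ n (m + 1) u)⁻¹ * phi m π bm v v' x := by
  funext x
  exact h.right u hu _ v'

end PC.DP
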