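import Mathlib
import Pool.Agent.Lib.MP_ca1492_al.D4.DPSIJac
import Pool.Agent.Lib.MP_ca1492_al.D4.DPStepA

/-!
# MP_ca1492_al, D4, DPStep: from level `m + 1` to level `m`

`1 ≤ m < n`, `e` the index with `e + 1 = m`, `bm` the pairing of level `m + 1`.
`phi v v' x = bm (π (colG x) v) v'`.
* `gd_phi`: invariance under translations by small `y`: `π (colG (x + y)) v = π (colG x) v`.
  For `u ∈ Lat 0`, `w ∈ Lat r`, `A = rkM u w`, `p = extG A ∈ GG m ⊆ PP (m + 1)` fixes `v` and `v'`: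
  `phi (A x) = bm (π (p colG x p⁻¹) v) v' = bm (π p (π (colG x) v)) (π' p v')
  = |det A| ^ (n - m - 1) phi x = phi x` (`unit_dot`, `nrm_unit`, `det_rkM`, `det_blk`).
* `newb v v' = SI ψ e (phi v v')`; bilinear by `si_add`, `si_smul` (`LinearMap.mk₂`).
* `new_left`: `u = u' * colG x₀` (`UU_decomp`): `phi (π (colG x₀) v) v' x = phi v v' (x + x₀)`
  (`si_trans`, `psi_colG`); for `u' ∈ UU (m + 1)`:
  `π (colG x) (π u' v) = π (colG x u' (colG x)⁻¹) (π (colG x) v)`, `colG x ∈ PP (m + 1)`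
  (`PP_conj`, `left`), so `phi (π u' v) v' = psi (m + 1) u' * phi v v'` (`si_smul`).
* `new_right`: the same: `right` for `u'`; `bm (π (colG x) v) (π' (colG x₀) v')
  = bm (π (colG (x - x₀)) v) v'` by `equi` for `colG x₀ ∈ PP (m + 1)` (determinant `1`).
* `new_equi`: `p ∈ PP m ⊆ GG m ⊆ PP (m + 1)`: `phi (π p v) (π' p v') (A x)
  = |det p| ^ (n - m - 1) phi v v' x`, `A = blk m p` (`GG_conj`), `si_jac` with `blk_last`,
  `det_blk`.
* `new_ker`: let `newb v v' = 0` for all `v'`. Take `r` for `v` from `small`. For every `v'`: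
  `si_ball` for `phi v v'`: for `w ∈ Lat r`, `A = rkM E w` (`E = Pi.single e 1`), `p = extG A` fixes
  `v`, the function `φ' = phi v (π' p v')`: `φ' (A x) = bm (π (p colG x p⁻¹) v) (π' p v')
  = phi v v' x`, and such a `φ'` is unique because `x ↦ A x` is onto, so `SI φ' = newb v _ = 0`.
  Hence `I (Lat (-r)) (tw ψ e (phi v v')) = 0` for all `v'`. By `I_map` this is `bm v₁ v'` with
  `v₁ = I (Lat (-r)) (fun x => (ψ (x e))⁻¹ • π (colG x) v)`. So `v₁ ∈ KK (m + 1) ≤ KK m` (`ker`,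
  `psi_succ`). And `QQ ^ r • v - v₁ = I (Lat (-r)) (fun x => v - (ψ (x e))⁻¹ • π (colG x) v)` is in
  `KK m` (`I_mem`, `psi_colG`). So `v ∈ KK m`.
* `new_comm`: `phi (T v) v' = phi v (T' v')` by `comm` for `bm`.
-/

open Topology Matrix ValuativeRel

set_option linter.unusedSectionVars false
set_option linter.unusedVariables false

namespace PC.DP

open Pool.Agent.Lib.MP_ca1492_al.P

variable {F : Type} [Field F] [ValuativeRel F] [TopologicalSpace F] [IsNonarchimedeanLocalField F]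
variable {n m : ℕ}
variable {V V' : Type} [AddCommGroup V] [Module ℂ V] [AddCommGroup V'] [Module ℂ V']

theorem DPStep_single (e : Ix n m) : (Pi.single e (1 : F) : Ix n m → F) ∈ Lat F (Ix n m) 0 := by
  intro i
  by_cases h : i = e
  · subst h
    rw [Pi.single_eq_same]
    exact Or.inr (by rw [ordF_one])
  · rw [Pi.single_eq_of_ne h]
    exact (lat F 0).zero_mem

theorem KK_mono (ψ : AddChar F ℂ) (π : Representation ℂ (GL (Fin n) F) V) :
    KK ψ (m + 1) π ≤ KK ψ m π := by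
  unfold KK Ksp
  refine Submodule.span_mono ?_
  rintro w ⟨u, hu, v, rfl⟩
  exact ⟨u, UU_mono (Nat.le_succ m) hu, v, by rw [psi_succ ψ hu]⟩

theorem DPStep_left {ψ : AddChar F ℂ} (hψ : Std ψ) (e : Ix n m) (he : e.val.val + 1 = m)
    (hm : m < n) {π : Representation ℂ (GL (Fin n) F) V}
    {π' : Representation ℂ (GL (Fin n) F) V'} (hπ : IsSm π) (hπ' : IsSm π')
    {b bm : V →ₗ[ℂ] V' →ₗ[ℂ] ℂ} (h : IsDP ψ (m + 1) π π' b bm)
    {u : GL (Fin n) F} (hu : u ∈ UU F n m) (v : V) (v' : V') :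
    newf ψ e π bm (π u v) v' = psi ψ n m u * newf ψ e π bm v v' := by
  obtain ⟨u', hu', x₀, rfl⟩ := UU_decomp hm hu
  obtain ⟨r, hr, h1⟩ := gd_phi ψ hm hπ hπ' h v v'
  obtain ⟨r', hr', h2⟩ := gd_phi ψ hm hπ hπ' h (π (colG n m x₀) v) v'
  unfold newf
  rw [DPStepA_mul, phi_U_left ψ hm h hu', si_smul hψ e h2, phi_shift_left, si_trans hψ e h1,
    psi_mul ψ m (UU_mono (Nat.le_succ m) hu') (colG_mem_UU x₀), psi_colG ψ hm e he,
    psi_succ ψ hu', mul_assoc]

theorem DPStep_right {ψ : AddChar F ℂ} (hψ : Std ψ) (e : Ix n m) (he : e.val.val + 1 = m)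
    (hm : m < n) {π : Representation ℂ (GL (Fin n) F) V}
    {π' : Representation ℂ (GL (Fin n) F) V'} (hπ : IsSm π) (hπ' : IsSm π')
    {b bm : V →ₗ[ℂ] V' →ₗ[ℂ] ℂ} (h : IsDP ψ (m + 1) π π' b bm)
    {u : GL (Fin n) F} (hu : u ∈ UU F n m) (v : V) (v' : V') :
    newf ψ e π bm v (π' u v') = (psi ψ n m u)⁻¹ * newf ψ e π bm v v' := by
  obtain ⟨u', hu', x₀, rfl⟩ := UU_decomp hm hu
  obtain ⟨r, hr, h1⟩ := gd_phi ψ hm hπ hπ' h v v'
  obtain ⟨r', hr', h2⟩ := gd_phi ψ hm hπ hπ' h v (π' (colG n m x₀) v')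
  unfold newf
  rw [DPStepA_mul, phi_U_right ψ hm h hu', si_smul hψ e h2, phi_shift_right ψ hm h,
    si_trans hψ e h1, psi_mul ψ m (UU_mono (Nat.le_succ m) hu') (colG_mem_UU x₀),
    psi_colG ψ hm e he, psi_succ ψ hu', Pi.neg_apply, AddChar.map_neg_eq_inv, mul_inv, mul_assoc]

theorem DPStep_equi {ψ : AddChar F ℂ} (hψ : Std ψ) (e : Ix n m) (he : e.val.val + 1 = m)
    (hm : m < n) {π : Representation ℂ (GL (Fin n) F) V}
    {π' : Representation ℂ (GL (Fin n) F) V'} (hπ : IsSm π) (hπ' : IsSm π')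
    {b bm : V →ₗ[ℂ] V' →ₗ[ℂ] ℂ} (h : IsDP ψ (m + 1) π π' b bm)
    {p : GL (Fin n) F} (hp : p ∈ PP F n m) (v : V) (v' : V') :
    newf ψ e π bm (π p v) (π' p v') =
      ((nrm F p.val.det : ℝ) : ℂ) ^ (n - m) * newf ψ e π bm v v' := by
  have hG := PP_sub_GG hp
  have hdet : (blk m p).det = p.val.det := det_blk hG
  have hne : p.val.det ≠ 0 := by
    have := (Matrix.isUnit_iff_isUnit_det p.val).1 p.isUnit
    exact this.ne_zero
  obtain ⟨r, hr, h1⟩ := gd_phi ψ hm hπ hπ' h v v'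
  obtain ⟨r', hr', h2⟩ := gd_phi ψ hm hπ hπ' h (π p v) (π' p v')
  have e1 := si_jac hψ e h2 (A := blk m p) (by rwa [hdet]) (fun x => blk_last hp e he x)
  have e2 : (fun x => phi m π bm (π p v) (π' p v') (blk m p *ᵥ x)) =
      fun x => ((nrm F p.val.det : ℝ) : ℂ) ^ (n - (m + 1)) * phi m π bm v v' x := by
    funext x
    exact phi_conj ψ hm h hG v v' x
  rw [e2, si_smul hψ e h1, hdet] at e1
  have hpos : ((nrm F p.val.det : ℝ) : ℂ) ≠ 0 := by
    exact_mod_cast (nrm_pos hne).ne'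
  have e3 : n - m = (n - (m + 1)) + 1 := by omega
  unfold newf
  rw [e3, pow_succ, mul_assoc, mul_comm ((nrm F p.val.det : ℝ) : ℂ), ← mul_assoc, e1]
  push_cast
  field_simp

theorem DPStep_lco {ψ : AddChar F ℂ} (hψ : Std ψ) (e : Ix n m)
    {π : Representation ℂ (GL (Fin n) F) V} (hπ : IsSm π) (v : V) (L : AddSubgroup (Ix n m → F)) :
    LCo L (fun x => (ψ (x e))⁻¹ • π (colG n m x) v) := by
  obtain ⟨r, hr, h1, -⟩ := small π hπ v m
  refine ⟨r, fun x _ y hy => ?_⟩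
  have hy0 : y e ∈ lat F 0 := lat_anti (by omega) (hy e)
  show (ψ ((x + y) e))⁻¹ • π (colG n m (x + y)) v = _
  rw [colG_add, DPStepA_mul, h1 y hy, Pi.add_apply, AddChar.map_add_eq_mul, hψ.triv _ hy0,
    mul_one]

theorem DPStep_ker {ψ : AddChar F ℂ} (hψ : Std ψ) (e : Ix n m) (he : e.val.val + 1 = m)
    (hm : m < n) {π : Representation ℂ (GL (Fin n) F) V}
    {π' : Representation ℂ (GL (Fin n) F) V'} (hπ : IsSm π) (hπ' : IsSm π')
    {b bm : V →ₗ[ℂ] V' →ₗ[ℂ] ℂ} (h : IsDP ψ (m + 1) π π' b bm)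
    (v : V) (h0 : ∀ v', newf ψ e π bm v v' = 0) : v ∈ KK ψ m π := by
  obtain ⟨r, hr, -, hs⟩ := small π hπ v m
  have hr' : (1 : ℤ) ≤ (r : ℤ) := by exact_mod_cast hr
  set f : (Ix n m → F) → V := fun x => (ψ (x e))⁻¹ • π (colG n m x) v with hf
  have hL : Cp (Lat F (Ix n m) (-(r : ℤ))) := Cp_Lat _
  have hlf : LCo (Lat F (Ix n m) (-(r : ℤ))) f := DPStep_lco hψ e hπ v _
  -- step 1: all the truncated integrals vanish
  have key : ∀ v', I (Lat F (Ix n m) (-(r : ℤ))) (tw ψ e (phi m π bm v v')) = 0 := by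
    intro v'
    obtain ⟨R, hR, hG⟩ := gd_phi ψ hm hπ hπ' h v v'
    refine si_ball hψ e hr' hG ?_
    intro w hw φ' hφ'
    obtain ⟨hd, hn⟩ := rk_fix ψ (π := π) hr (DPStep_single (F := F) e) hw
    set p := extG (rkM (Pi.single e 1) w) hd with hp
    have hfix : π p v = v := hs _ (DPStep_single e) w hw hd
    have e1 : ∀ x, phi m π bm v (π' p v') (x + (w ⬝ᵥ x) • Pi.single e 1) = phi m π bm v v' x := by
      intro x
      have e2 := phi_conj ψ hm h (extG_mem (rkM (Pi.single e 1) w) hd) v v' x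
      rw [← hp, hfix, hp, blk_extG, hn, rkM_mulVec] at e2
      rw [e2]
      simp
    obtain ⟨σ, hσ, -, -⟩ := exists_rk hr' (DPStep_single (F := F) e) hw
    have e3 : φ' = phi m π bm v (π' p v') := by
      funext y
      obtain ⟨x, rfl⟩ := σ.surjective y
      rw [hσ x, hφ' x, e1 x]
    rw [e3]
    exact h0 _
  -- step 2: the vector `v₁`
  have hv1 : I (Lat F (Ix n m) (-(r : ℤ))) f ∈ KK ψ m π := by
    refine KK_mono ψ π (h.ker _ fun v' => ?_)
    have e1 := I_map hL hlf (bm.flip v')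
    rw [LinearMap.flip_apply] at e1
    rw [← e1, ← key v']
    congr 1
    funext x
    simp [hf, tw, phi]
  have hg : I (Lat F (Ix n m) (-(r : ℤ))) (fun x => f x + -v) ∈ KK ψ m π := by
    refine I_mem hL ?_ _ ?_
    · obtain ⟨m₁, h1⟩ := hlf
      exact ⟨m₁, fun x hx y hy => by
        show f (x + y) + -v = f x + -v
        rw [h1 x hx y hy]⟩
    · intro x _
      have e1 : f x + -v = (ψ (x e))⁻¹ • (π (colG n m x) v - ψ (x e) • v) := by
        have hne : ψ (x e) ≠ 0 := by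
          intro hz
          have := AddChar.map_add_eq_mul ψ (x e) (-(x e))
          rw [add_neg_cancel, AddChar.map_zero_eq_one, hz, zero_mul] at this
          exact one_ne_zero this
        rw [smul_sub, smul_smul, inv_mul_cancel₀ hne, one_smul, hf, sub_eq_add_neg]
      rw [e1]
      refine Submodule.smul_mem _ _ (Submodule.subset_span ⟨colG n m x, colG_mem_UU x, v, ?_⟩)
      rw [psi_colG ψ hm e he]
  have hc : LCo (Lat F (Ix n m) (-(r : ℤ))) (fun _ : Ix n m → F => -v) :=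
    ⟨0, fun x _ y _ => rfl⟩
  rw [I_add hL hlf hc, I_const] at hg
  have hQ : ((QQ F (Ix n m) : ℂ) ^ (- -(r : ℤ))) ≠ 0 := by
    refine zpow_ne_zero _ ?_
    exact_mod_cast (QQ_pos (F := F) (ι := Ix n m)).ne'
  have h2 := Submodule.sub_mem _ hg hv1
  rw [add_sub_cancel_left, smul_neg] at h2
  have h3 := (Submodule.neg_mem_iff _).1 h2
  exact (Submodule.smul_mem_iff _ hQ).1 h3

theorem DPStep_comm {ψ : AddChar F ℂ} (e : Ix n m)
    {π : Representation ℂ (GL (Fin n) F) V}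
    {π' : Representation ℂ (GL (Fin n) F) V'}
    {b bm : V →ₗ[ℂ] V' →ₗ[ℂ] ℂ} (h : IsDP ψ (m + 1) π π' b bm)
    (T : V →ₗ[ℂ] V) (T' : V' →ₗ[ℂ] V') (hT : ∀ g v, T (π g v) = π g (T v))
    (hT' : ∀ g v', T' (π' g v') = π' g (T' v')) (hb : ∀ v v', b (T v) v' = b v (T' v'))
    (v : V) (v' : V') : newf ψ e π bm (T v) v' = newf ψ e π bm v (T' v') := by
  unfold newf
  congr 1
  funext x
  unfold phi
  rw [← hT]
  exact h.comm T T' hT hT' hb _ _

theorem dp_step {ψ : AddChar F ℂ} (hψ : Std ψ) (h1 : 1 ≤ m) (hm : m < n)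
    (π : Representation ℂ (GL (Fin n) F) V) (π' : Representation ℂ (GL (Fin n) F) V')
    (hπ : IsSm π) (hπ' : IsSm π') (b bm : V →ₗ[ℂ] V' →ₗ[ℂ] ℂ)
    (h : IsDP ψ (m + 1) π π' b bm) :
    ∃ bn : V →ₗ[ℂ] V' →ₗ[ℂ] ℂ, IsDP ψ m π π' b bn := by
  have hlt : m - 1 < n := by omega
  let e : Ix n m := ⟨⟨m - 1, hlt⟩, by show m - 1 < m; omega⟩
  have he : e.val.val + 1 = m := by
    show m - 1 + 1 = m
    omega
  obtain ⟨bn, hbn⟩ := exists_newb hψ e hm hπ hπ' h
  refine ⟨bn, ?_, ?_, ?_, ?_, ?_⟩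
  · intro u hu v v'
    rw [hbn, hbn, DPStep_left hψ e he hm hπ hπ' h hu]
  · intro u hu v v'
    rw [hbn, hbn, DPStep_right hψ e he hm hπ hπ' h hu]
  · intro p hp v v'
    rw [hbn, hbn, DPStep_equi hψ e he hm hπ hπ' h hp]
  · intro v hv
    exact DPStep_ker hψ e he hm hπ hπ' h v fun v' => by rw [← hbn, hv v']
  · intro T T' hT hT' hb v v'
    rw [hbn, hbn]
    exact DPStep_comm e h T T' hT hT' hb v v'

end PC.DP
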