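import Mathlib
import Pool.Agent.Lib.MP_ca1492_al.D4.DPStep

/-!
# MP_ca1492_al, D4, DPMain: THEOREM DP

Decreasing induction from `m = n` (`bm = b`; `UU n n = {1}`, `psi 1 = 1`, `n - n = 0`, so `equi` is
the invariance and `KK n = ⊥` contains `v = 0`) with `dp_step`.
-/

open Topology Matrix ValuativeRel

set_option linter.unusedSectionVars false

namespace PC.DP

open Pool.Agent.Lib.MP_ca1492_al.P

variable {F : Type} [Field F] [ValuativeRel F] [TopologicalSpace F] [IsNonarchimedeanLocalField F]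
variable {n : ℕ}
variable {V V' : Type} [AddCommGroup V] [Module ℂ V] [AddCommGroup V'] [Module ℂ V']

theorem DPMain_UU {u : GL (Fin n) F} (hu : u ∈ UU F n n) : u = 1 := by
  apply Units.ext
  ext i j
  exact hu i j (Or.inr j.isLt)

theorem DPMain_psi (ψ : AddChar F ℂ) (u : GL (Fin n) F) : psi ψ n n u = 1 := by
  unfold psi
  have h : (∑ i : Fin n, ∑ j : Fin n, if i.val + 1 = j.val ∧ n ≤ j.val then u.val i j else 0) = 0 := by
    refine Finset.sum_eq_zero fun i _ => Finset.sum_eq_zero fun j _ => ?_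
    rw [if_neg]
    rintro ⟨-, hj⟩
    exact absurd j.isLt (not_lt.mpr hj)
  rw [h, AddChar.map_zero_eq_one]

theorem dp_base (ψ : AddChar F ℂ)
    (π : Representation ℂ (GL (Fin n) F) V) (π' : Representation ℂ (GL (Fin n) F) V')
    (b : V →ₗ[ℂ] V' →ₗ[ℂ] ℂ) (hb : ∀ g v v', b (π g v) (π' g v') = b v v')
    (hk : ∀ v, (∀ v', b v v' = 0) → v = 0) : IsDP ψ n π π' b b where
  left := by
    intro u hu v v'
    rw [DPMain_psi, DPMain_UU hu, map_one, one_mul, Module.End.one_apply]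
  right := by
    intro u hu v v'
    rw [DPMain_psi, DPMain_UU hu, map_one, inv_one, one_mul, Module.End.one_apply]
  equi := by
    intro p _ v v'
    rw [hb, Nat.sub_self, pow_zero, one_mul]
  ker := by
    intro v hv
    rw [hk v hv]
    exact Submodule.zero_mem _
  comm := fun T T' _ _ h v v' => h v v'

/-- THEOREM DP -/
theorem dp {ψ : AddChar F ℂ} (hψ : Std ψ)
    (π : Representation ℂ (GL (Fin n) F) V) (π' : Representation ℂ (GL (Fin n) F) V')
    (hπ : IsSm π) (hπ' : IsSm π') (b : V →ₗ[ℂ] V' →ₗ[ℂ] ℂ)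
    (hb : ∀ g v v', b (π g v) (π' g v') = b v v') (hk : ∀ v, (∀ v', b v v' = 0) → v = 0)
    {m : ℕ} (h1 : 1 ≤ m) (hm : m ≤ n) : ∃ bm : V →ₗ[ℂ] V' →ₗ[ℂ] ℂ, IsDP ψ m π π' b bm := by
  have main : ∀ (k m : ℕ), 1 ≤ m → m + k = n →
      ∃ bm : V →ₗ[ℂ] V' →ₗ[ℂ] ℂ, IsDP ψ m π π' b bm := by
    intro k
    induction k with
    | zero =>
      intro m _ hmn
      rw [Nat.add_zero] at hmn
      subst hmn
      exact ⟨b, dp_base ψ π π' b hb hk⟩
    | succ k ih =>
      intro m h1 hmn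
      obtain ⟨bm, hbm⟩ := ih (m + 1) (by omega) (by omega)
      exact dp_step hψ h1 (by omega) π π' hπ hπ' b bm hbm
  exact main (n - m) m h1 (by omega)

end PC.DP
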