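import Mathlib
import Pool.Agent.Lib.MP_ca1492_al.D4.DPDeg
import Pool.Agent.Lib.MP_ca1492_al.D4.DPEx
import Pool.Agent.Lib.MP_ca1492_al.D4.DPMain

/-!
# MP_ca1492_al, D4, Pos: the position theorem, abstract form

`π` degenerate (`KK ψ 1 π = ⊤`) with `KT ψ m π = ⊤` for all `1 ≤ m < n`, `m ≠ a`, and `π'` with
`KT ψ⁻¹ m π' = ⊤` for all `1 ≤ m < n`, `m ≠ a'`; an invariant pairing `b` with zero left kernel.
Then `a = a'` and there is a pairing on `V / KT ψ a π × V' / KT ψ⁻¹ a π'` with zero left kernel on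
which `diag(g, 1)` acts by `|det g| ^ (n - a - 1)`.
-/

open Topology Matrix ValuativeRel

namespace PC.D4

open Pool.Agent.Lib.MP_ca1492_al.P PC.DP

variable {F : Type} [Field F] [ValuativeRel F] [TopologicalSpace F] [IsNonarchimedeanLocalField F]
  {n : ℕ} {V V' : Type} [AddCommGroup V] [Module ℂ V] [AddCommGroup V'] [Module ℂ V']

theorem KK_n (ψ : AddChar F ℂ) (π : Representation ℂ (GL (Fin n) F) V) : KK ψ n π = ⊥ := by
  rw [eq_bot_iff]
  refine Submodule.span_le.2 ?_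
  rintro w ⟨u, hu, v, rfl⟩
  rw [DPMain_UU hu, DPMain_psi, map_one, Module.End.one_apply, one_smul, sub_self]
  exact Submodule.zero_mem _

/-- going up with `deg_a` -/
theorem deg_up {ψ : AddChar F ℂ} (hψ : Std ψ) (π : Representation ℂ (GL (Fin n) F) V)
    (hπ : IsSm π) (a b : ℕ) (h1 : 1 ≤ a) (hab : a ≤ b) (hb : b ≤ n) (hK : KK ψ a π = ⊤)
    (hT : ∀ m, a ≤ m → m < b → KT ψ m π = ⊤) : KK ψ b π = ⊤ := by
  induction b, hab using Nat.le_induction with
  | base => exact hK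
  | succ b hab ih =>
    refine deg_a hψ (h1.trans hab) (by omega) π hπ (ih (by omega) ?_) (hT b hab (by omega))
    intro m hm hm'
    exact hT m hm (by omega)

/-- a nonzero degenerate representation has a nonzero derivative -/
theorem pos_ne_top {ψ : AddChar F ℂ} (hψ : Std ψ) (π : Representation ℂ (GL (Fin n) F) V)
    (hπ : IsSm π) (h0 : ∃ v : V, v ≠ 0) (hn : 1 ≤ n) (hK : KK ψ 1 π = ⊤)
    (hT : ∀ m, 1 ≤ m → m < n → KT ψ m π = ⊤) : False := by
  have h := deg_up hψ π hπ 1 n le_rfl hn le_rfl hK fun m h1 h2 => hT m h1 h2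
  rw [KK_n] at h
  obtain ⟨v, hv⟩ := h0
  have : v ∈ (⊥ : Submodule ℂ V) := by
    rw [h]
    exact Submodule.mem_top
  exact hv ((Submodule.mem_bot ℂ).1 this)

theorem std_inv {ψ : AddChar F ℂ} (u : GL (Fin n) F) (m : ℕ) :
    PC.DP.psi ψ⁻¹ n m u = (PC.DP.psi ψ n m u)⁻¹ := by
  unfold PC.DP.psi
  exact AddChar.inv_apply' ψ _

/-- the pairing of the position theorem -/
theorem pos_pairing {ψ : AddChar F ℂ} (hψ : Std ψ) (π : Representation ℂ (GL (Fin n) F) V)
    (π' : Representation ℂ (GL (Fin n) F) V') (hπ : IsSm π) (hπ' : IsSm π')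
    (b : V →ₗ[ℂ] V' →ₗ[ℂ] ℂ) (hb : ∀ g v v', b (π g v) (π' g v') = b v v')
    (hk : ∀ v, (∀ v', b v v' = 0) → v = 0) (h0 : ∃ v : V, v ≠ 0)
    (hK : KK ψ 1 π = ⊤) (a : ℕ) (ha : 1 ≤ a) (han : a < n)
    (hT : ∀ m, 1 ≤ m → m < n → m ≠ a → KT ψ m π = ⊤) :
    ∃ bm : V →ₗ[ℂ] V' →ₗ[ℂ] ℂ,
      (∀ v ∈ KT ψ a π, ∀ v', bm v v' = 0) ∧
      (∀ v, ∀ v' ∈ KT ψ⁻¹ a π', bm v v' = 0) ∧
      (∀ p ∈ GG F n a, ∀ v v',
        bm (π p v) (π' p v') = ((nrm F p.val.det : ℝ) : ℂ) ^ (n - (a + 1)) * bm v v') ∧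
      (∀ v, (∀ v', bm v v' = 0) → v ∈ KT ψ a π) ∧
      (∀ (T : V →ₗ[ℂ] V) (T' : V' →ₗ[ℂ] V'), (∀ g v, T (π g v) = π g (T v)) →
        (∀ g v', T' (π' g v') = π' g (T' v')) → (∀ v v', b (T v) v' = b v (T' v')) →
        ∀ v v', bm (T v) v' = bm v (T' v')) ∧
      KT ψ a π ≠ ⊤ := by
  have hKa : KK ψ a π = ⊤ :=
    deg_up hψ π hπ 1 a le_rfl ha han.le hK fun m h1 h2 => hT m h1 (by omega) (by omega)
  obtain ⟨hTa, hcol⟩ := deg_b hψ ha han π hπ hKa
  have hTne : KT ψ a π ≠ ⊤ := by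
    intro h
    refine pos_ne_top hψ π hπ h0 (by omega) hK fun m h1 h2 => ?_
    by_cases hm : m = a
    · rw [hm, h]
    · exact hT m h1 h2 hm
  obtain ⟨bm, hbm⟩ := dp hψ π π' hπ hπ' b hb hk (m := a + 1) (by omega) (by omega)
  have hleft : ∀ v ∈ KT ψ a π, ∀ v', bm v v' = 0 := by
    rw [hTa]
    intro v hv v'
    have h1 : KK ψ (a + 1) π ≤ LinearMap.ker (bm.flip v') := by
      refine Submodule.span_le.2 ?_
      rintro w ⟨u, hu, x, rfl⟩
      rw [SetLike.mem_coe, LinearMap.mem_ker, LinearMap.flip_apply, map_sub, map_smul,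
        LinearMap.sub_apply, LinearMap.smul_apply, hbm.left u hu, smul_eq_mul, sub_self]
    exact h1 hv
  have hcolinv : ∀ (x : Ix n a → F) v v', bm v (π' (colG n a x) v') = bm v v' := by
    intro x v v'
    have h1 : bm (π (colG n a x) v) (π' (colG n a x) v') = bm v v' := by
      have hd : (colG n a x).val.det = 1 := by
        have h2 := hbm.equi (colG n a x) (colG_mem_PP x) v v'
        have h3 : (colG n a x).val.BlockTriangular id := by
          intro i j hij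
          show colM n a x i j = 0
          unfold colM
          have h4 : i ≠ j := fun h => by
            rw [h] at hij
            exact lt_irrefl _ hij
          have h5 : ¬ (i.val < a ∧ j.val = a) := by
            have : j.val < i.val := hij
            omega
          rw [if_neg h4, dif_neg h5]
        rw [Matrix.det_of_upperTriangular h3]
        refine Finset.prod_eq_one fun i _ => ?_
        show colM n a x i i = 1
        unfold colM
        rw [if_pos rfl]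
      have h2 := hbm.equi (colG n a x) (colG_mem_PP x) v v'
      rw [hd, nrm_one] at h2
      simpa using h2
    have h2 : bm (π (colG n a x) v - v) (π' (colG n a x) v') = 0 :=
      hleft _ (by rw [hTa]; exact hcol x v) _
    rw [map_sub, LinearMap.sub_apply, h1, sub_eq_zero] at h2
    exact h2.symm
  refine ⟨bm, hleft, ?_, fun p hp v v' => hbm.equi p (GG_sub_PP hp) v v', ?_, hbm.comm, hTne⟩
  · intro v v' hv'
    have h1 : KT ψ⁻¹ a π' ≤ LinearMap.ker (bm v) := by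
      refine Submodule.span_le.2 ?_
      rintro w ⟨u, hu, x, rfl⟩
      obtain ⟨u', hu', y, rfl⟩ := UU_decomp han hu
      rw [SetLike.mem_coe, LinearMap.mem_ker, map_sub, map_smul, map_mul, Module.End.mul_apply,
        hbm.right u' hu', hcolinv, std_inv,
        psi_mul ψ (a + 1) (UU_mono (Nat.le_succ a) hu') (colG_mem_UU y), psi_colG_succ, mul_one,
        smul_eq_mul, sub_self]
    exact h1 hv'
  · intro v hv
    rw [hTa]
    exact hbm.ker v hv

/-- THE POSITION THEOREM, equality of the levels -/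
theorem pos_eq {ψ : AddChar F ℂ} (hψ : Std ψ) (π : Representation ℂ (GL (Fin n) F) V)
    (π' : Representation ℂ (GL (Fin n) F) V') (hπ : IsSm π) (hπ' : IsSm π')
    (b : V →ₗ[ℂ] V' →ₗ[ℂ] ℂ) (hb : ∀ g v v', b (π g v) (π' g v') = b v v')
    (hk : ∀ v, (∀ v', b v v' = 0) → v = 0) (h0 : ∃ v : V, v ≠ 0)
    (hK : KK ψ 1 π = ⊤) (a a' : ℕ) (ha : 1 ≤ a) (han : a < n)
    (hT : ∀ m, 1 ≤ m → m < n → m ≠ a → KT ψ m π = ⊤)
    (hT' : ∀ m, 1 ≤ m → m < n → m ≠ a' → KT ψ⁻¹ m π' = ⊤) : a = a' := by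
  by_contra hne
  obtain ⟨bm, h1, h2, _, h4, _, h6⟩ := pos_pairing hψ π π' hπ hπ' b hb hk h0 hK a ha han hT
  apply h6
  rw [eq_top_iff]
  intro v _
  refine h4 v fun v' => h2 v v' ?_
  rw [hT' a ha han hne]
  exact Submodule.mem_top

/-- images of stable subspaces -/
theorem Ksp_range {G : Type} [Group G] (π : Representation ℂ G V) (S : Set G) (χ : G → ℂ)
    (h : Ksp π S χ = ⊤) (T : V →ₗ[ℂ] V) (hT : ∀ g v, T (π g v) = π g (T v))
    (hR : Stab π (LinearMap.range T)) : Ksp (subRep π (LinearMap.range T) hR) S χ = ⊤ := by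
  rw [eq_top_iff]
  rintro ⟨w, ⟨v, rfl⟩⟩ _
  have h1 : ∀ v ∈ Ksp π S χ, (⟨T v, ⟨v, rfl⟩⟩ : LinearMap.range T) ∈
      Ksp (subRep π (LinearMap.range T) hR) S χ := by
    intro v hv
    have h2 : Ksp π S χ ≤ (Ksp (subRep π (LinearMap.range T) hR) S χ).comap
        (LinearMap.rangeRestrict T) := by
      refine Submodule.span_le.2 ?_
      rintro w ⟨u, hu, x, rfl⟩
      rw [SetLike.mem_coe, Submodule.mem_comap]
      refine Submodule.subset_span ⟨u, hu, LinearMap.rangeRestrict T x, ?_⟩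
      apply Subtype.ext
      show T (π u x - χ u • x) = π u (T x) - χ u • T x
      rw [map_sub, map_smul, hT]
    exact h2 hv
  exact h1 v (by rw [h]; exact Submodule.mem_top)

/-- faithfulness: a commuting operator which maps `V` into `KT ψ a π` is zero -/
theorem pos_faith {ψ : AddChar F ℂ} (hψ : Std ψ) (π : Representation ℂ (GL (Fin n) F) V)
    (hπ : IsSm π) (hK : KK ψ 1 π = ⊤) (a : ℕ) (ha : 1 ≤ a) (han : a < n)
    (hT : ∀ m, 1 ≤ m → m < n → m ≠ a → KT ψ m π = ⊤) (T : V →ₗ[ℂ] V)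
    (hTc : ∀ g v, T (π g v) = π g (T v)) (h : ∀ v, T v ∈ KT ψ a π) : T = 0 := by
  by_contra h0
  have hR : Stab π (LinearMap.range T) := by
    rintro g _ ⟨v, rfl⟩
    exact ⟨π g v, hTc g v⟩
  refine pos_ne_top hψ (subRep π (LinearMap.range T) hR) (smooth_sub π hπ _ hR) ?_ (by omega)
    (Ksp_range π _ _ hK T hTc hR) fun m h1 h2 => ?_
  · by_contra hall
    push Not at hall
    apply h0
    ext v
    exact congrArg Subtype.val (hall ⟨T v, ⟨v, rfl⟩⟩)
  · by_cases hm : m = a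
    · subst hm
      rw [eq_top_iff]
      rintro ⟨w, ⟨v, rfl⟩⟩ _
      exact ex_KT hψ π hπ _ hR _ (h v)
    · exact Ksp_range π _ _ (hT m h1 h2 hm) T hTc hR

/-- THE POSITION THEOREM, scalars: if `z = diag(z, 1)` acts by `T` modulo `KT ψ a π` and by `S'`
modulo `KT ψ⁻¹ a π'`, `S` the adjoint of `S'`, then `S T = |det z| ^ (n - a - 1)` -/
theorem pos_scalar {ψ : AddChar F ℂ} (hψ : Std ψ) (π : Representation ℂ (GL (Fin n) F) V)
    (π' : Representation ℂ (GL (Fin n) F) V') (hπ : IsSm π) (hπ' : IsSm π')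
    (b : V →ₗ[ℂ] V' →ₗ[ℂ] ℂ) (hb : ∀ g v v', b (π g v) (π' g v') = b v v')
    (hk : ∀ v, (∀ v', b v v' = 0) → v = 0) (h0 : ∃ v : V, v ≠ 0)
    (hK : KK ψ 1 π = ⊤) (a : ℕ) (ha : 1 ≤ a) (han : a < n)
    (hT : ∀ m, 1 ≤ m → m < n → m ≠ a → KT ψ m π = ⊤)
    (z : GL (Fin n) F) (hz : z ∈ GG F n a) (T S : V →ₗ[ℂ] V) (S' : V' →ₗ[ℂ] V')
    (hTc : ∀ g v, T (π g v) = π g (T v)) (hSc : ∀ g v, S (π g v) = π g (S v))
    (hSc' : ∀ g v, S' (π' g v) = π' g (S' v)) (hS : ∀ v v', b (S v) v' = b v (S' v'))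
    (h1 : ∀ v, π z v - T v ∈ KT ψ a π) (h2 : ∀ v', π' z v' - S' v' ∈ KT ψ⁻¹ a π') (v : V) :
    S (T v) = ((nrm F z.val.det : ℝ) : ℂ) ^ (n - (a + 1)) • v := by
  obtain ⟨bm, hl, hr, he, hker, hc, _⟩ := pos_pairing hψ π π' hπ hπ' b hb hk h0 hK a ha han hT
  set lam : ℂ := ((nrm F z.val.det : ℝ) : ℂ) ^ (n - (a + 1)) with hlam
  have key : ∀ v v', bm (S (T v)) v' = lam * bm v v' := by
    intro v v'
    rw [← he z hz v v', hc S S' hSc hSc' hS]
    have e1 : bm (π z v) (π' z v') = bm (T v) (π' z v') := by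
      have := hl _ (h1 v) (π' z v')
      rw [map_sub, LinearMap.sub_apply, sub_eq_zero] at this
      exact this
    have e2 : bm (T v) (π' z v') = bm (T v) (S' v') := by
      have := hr (T v) _ (h2 v')
      rw [map_sub, sub_eq_zero] at this
      exact this
    rw [e1, e2]
  have hmem : ∀ v, (S ∘ₗ T - lam • LinearMap.id : V →ₗ[ℂ] V) v ∈ KT ψ a π := by
    intro v
    apply hker
    intro v'
    rw [LinearMap.sub_apply, LinearMap.comp_apply, LinearMap.smul_apply, LinearMap.id_apply,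
      map_sub, map_smul, LinearMap.sub_apply, LinearMap.smul_apply, key, smul_eq_mul, sub_self]
  have hz0 := pos_faith hψ π hπ hK a ha han hT (S ∘ₗ T - lam • LinearMap.id : V →ₗ[ℂ] V)
    (fun g v => by
      simp only [LinearMap.sub_apply, LinearMap.comp_apply, LinearMap.smul_apply,
        LinearMap.id_apply, hTc, hSc, map_sub, map_smul]) hmem
  have := LinearMap.congr_fun hz0 v
  simpa [sub_eq_zero] using this

/-- THE POSITION THEOREM, generalised scalars: if `(z - c)² = 0` modulo `KT ψ a π` and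
`(z - c')² = 0` modulo `KT ψ⁻¹ a π'` then `c c' = |det z| ^ (n - a - 1)` -/
theorem pos_gen {ψ : AddChar F ℂ} (hψ : Std ψ) (π : Representation ℂ (GL (Fin n) F) V)
    (π' : Representation ℂ (GL (Fin n) F) V') (hπ : IsSm π) (hπ' : IsSm π')
    (b : V →ₗ[ℂ] V' →ₗ[ℂ] ℂ) (hb : ∀ g v v', b (π g v) (π' g v') = b v v')
    (hk : ∀ v, (∀ v', b v v' = 0) → v = 0) (h0 : ∃ v : V, v ≠ 0)
    (hK : KK ψ 1 π = ⊤) (a : ℕ) (ha : 1 ≤ a) (han : a < n)
    (hT : ∀ m, 1 ≤ m → m < n → m ≠ a → KT ψ m π = ⊤)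
    (z : GL (Fin n) F) (hz : z ∈ GG F n a) (c c' : ℂ)
    (h1 : ∀ v, π z (π z v) - (2 * c) • π z v + c ^ 2 • v ∈ KT ψ a π)
    (h2 : ∀ v', π' z (π' z v') - (2 * c') • π' z v' + c' ^ 2 • v' ∈ KT ψ⁻¹ a π') :
    c * c' = ((nrm F z.val.det : ℝ) : ℂ) ^ (n - (a + 1)) := by
  obtain ⟨bm, hl, hr, he, hker, hc, hne⟩ := pos_pairing hψ π π' hπ hπ' b hb hk h0 hK a ha han hT
  set lam : ℂ := ((nrm F z.val.det : ℝ) : ℂ) ^ (n - (a + 1)) with hlam
  by_contra hcc
  apply hne
  set N : V →ₗ[ℂ] V := π z - c • LinearMap.id with hN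
  set N' : V' →ₗ[ℂ] V' := π' z - c' • LinearMap.id with hN'
  have hNN : ∀ v v', bm (N (N v)) v' = 0 := by
    intro v v'
    have e : N (N v) = π z (π z v) - (2 * c) • π z v + c ^ 2 • v := by
      simp only [hN, LinearMap.sub_apply, LinearMap.smul_apply, LinearMap.id_apply, map_sub,
        map_smul, smul_sub, smul_smul]
      rw [two_mul, add_smul, pow_two]
      abel
    rw [e]
    exact hl _ (h1 v) v'
  have hNN' : ∀ v v', bm v (N' (N' v')) = 0 := by
    intro v v'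
    have e : N' (N' v') = π' z (π' z v') - (2 * c') • π' z v' + c' ^ 2 • v' := by
      simp only [hN', LinearMap.sub_apply, LinearMap.smul_apply, LinearMap.id_apply, map_sub,
        map_smul, smul_sub, smul_smul]
      rw [two_mul, add_smul, pow_two]
      abel
    rw [e]
    exact hr v _ (h2 v')
  have key : ∀ v v', (lam - c * c') * bm v v' =
      bm (N v) (N' v') + c' * bm (N v) v' + c * bm v (N' v') := by
    intro v v'
    have e1 : bm (π z v) (π' z v') = lam * bm v v' := he z hz v v'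
    have e2 : π z v = N v + c • v := by simp [hN]
    have e3 : π' z v' = N' v' + c' • v' := by simp [hN']
    rw [e2, e3] at e1
    simp only [map_add, map_smul, LinearMap.add_apply, LinearMap.smul_apply, smul_eq_mul] at e1
    linear_combination -e1
  have hmu : lam - c * c' ≠ 0 := fun h => hcc (sub_eq_zero.1 h).symm
  have k1 : ∀ v v', bm (N v) (N' v') = 0 := by
    intro v v'
    have := key (N v) (N' v')
    rw [hNN, hNN, hNN'] at this
    simpa [hmu] using this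
  have k2 : ∀ v v', bm (N v) v' = 0 := by
    intro v v'
    have := key (N v) v'
    rw [hNN, hNN, k1] at this
    simpa [hmu] using this
  have k3 : ∀ v v', bm v (N' v') = 0 := by
    intro v v'
    have := key v (N' v')
    rw [hNN', hNN', k1] at this
    simpa [hmu] using this
  rw [eq_top_iff]
  intro v _
  apply hker
  intro v'
  have := key v v'
  rw [k1, k2, k3] at this
  simpa [hmu] using this

end PC.D4
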