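import Mathlib
import Pool.Agent.Lib.MP_ca1492_al.D4.GLDefs

/-!
# MP_ca1492_al, D4, GLAlg: algebraic and topological properties of `NN`, `BB`, `sg`, `psi`

`sd (a * b) = sd a + sd b` for unitriangular matrices (the entry `(i, i+1)` of `a * b`);
`sd (sg a) = sd a` (the entries next to the diagonal are reversed; note `sg g i j = g (rev j) (rev i)`).
`psi_loc`: `sd` is continuous and `sd 1 = 0`.
-/

open Topology

namespace PC.GK

variable {F : Type} [Field F] {n : ℕ}

theorem NN_le : NN F n ≤ BB F n := fun _ hg => hg.1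

theorem GLAlg_diag {A C : Matrix (Fin n) (Fin n) F} (hA : ∀ i j, j < i → A i j = 0)
    (hC : ∀ i j, j < i → C i j = 0) (i : Fin n) : (A * C) i i = A i i * C i i := by
  rw [Matrix.mul_apply, Finset.sum_eq_single i]
  · intro k _ hk
    rcases lt_or_gt_of_ne hk with h | h
    · rw [hA i k h, zero_mul]
    · rw [hC k i h, mul_zero]
  · intro h
    exact absurd (Finset.mem_univ _) h

theorem NN_norm : ∀ b ∈ BB F n, ∀ a ∈ NN F n, b * a * b⁻¹ ∈ NN F n := by
  intro b hb a ha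
  have h1 : b * a ∈ BB F n := (BB F n).mul_mem hb ha.1
  refine ⟨(BB F n).mul_mem h1 ((BB F n).inv_mem hb), fun i => ?_⟩
  rw [Units.val_mul, GLAlg_diag h1.1 hb.2, Units.val_mul, GLAlg_diag hb.1 ha.1.1, ha.2 i, mul_one,
    ← GLAlg_diag hb.1 hb.2, ← Units.val_mul, mul_inv_cancel, Units.val_one, Matrix.one_apply_eq]

theorem GLAlg_sd_mul {a b : GL (Fin n) F} (ha : a ∈ NN F n) (hb : b ∈ NN F n) :
    sd (a * b) = sd a + sd b := by
  unfold sd
  rw [← Finset.sum_add_distrib]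
  refine Finset.sum_congr rfl fun i _ => ?_
  by_cases h : i.1 + 1 < n
  · rw [dif_pos h, dif_pos h, dif_pos h, Units.val_mul, Matrix.mul_apply]
    have hne : i ≠ (⟨i.1 + 1, h⟩ : Fin n) := by
      intro h1
      have := congrArg Fin.val h1
      simp at this
    rw [← Finset.sum_subset (Finset.subset_univ {i, (⟨i.1 + 1, h⟩ : Fin n)}),
      Finset.sum_pair hne, ha.2 i, hb.2, one_mul, mul_one, add_comm]
    intro k _ hk
    rw [Finset.mem_insert, Finset.mem_singleton, not_or] at hk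
    rcases lt_or_gt_of_ne hk.1 with h1 | h1
    · rw [ha.1.1 i k h1, zero_mul]
    · have h2 : (⟨i.1 + 1, h⟩ : Fin n) < k := by
        have h3 : i.1 < k.1 := h1
        have h4 : k.1 ≠ i.1 + 1 := fun h5 => hk.2 (Fin.ext h5)
        rw [Fin.lt_def]
        change i.1 + 1 < k.1
        omega
      rw [hb.1.1 k _ h2, mul_zero]
  · rw [dif_neg h, dif_neg h, dif_neg h, add_zero]

theorem GLAlg_sd_one : sd (1 : GL (Fin n) F) = 0 := by
  unfold sd
  refine Finset.sum_eq_zero fun i _ => ?_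
  by_cases h : i.1 + 1 < n
  · rw [dif_pos h, Units.val_one, Matrix.one_apply_ne]
    intro h1
    have := congrArg Fin.val h1
    simp at this
  · rw [dif_neg h]

theorem psi_mul (ψ : AddChar F ℂ) : ∀ a ∈ NN F n, ∀ b ∈ NN F n,
    psi ψ (a * b) = psi ψ a * psi ψ b := by
  intro a ha b hb
  unfold psi
  rw [GLAlg_sd_mul ha hb, AddChar.map_add_eq_mul]

theorem psi_one (ψ : AddChar F ℂ) : psi ψ (1 : GL (Fin n) F) = 1 := by
  unfold psi
  rw [GLAlg_sd_one, AddChar.map_zero_eq_one]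

theorem sg_sg (g : GL (Fin n) F) : sg (sg g) = g := by
  apply Units.ext
  ext i j
  change g.1 i.rev.rev j.rev.rev = g.1 i j
  rw [Fin.rev_rev, Fin.rev_rev]

theorem sg_mul (g h : GL (Fin n) F) : sg (g * h) = sg h * sg g :=
  Units.ext (antit_mul g.1 h.1)

theorem sg_BB : ∀ a ∈ BB F n, sg a ∈ BB F n := by
  intro a ha
  refine ⟨fun i j hij => ?_, fun i j hij => ?_⟩
  · exact ha.1 j.rev i.rev (Fin.rev_lt_rev.2 hij)
  · exact ha.2 j.rev i.rev (Fin.rev_lt_rev.2 hij)

theorem sg_NN : ∀ a ∈ NN F n, sg a ∈ NN F n := by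
  intro a ha
  exact ⟨sg_BB a ha.1, fun i => ha.2 i.rev⟩

/-- the reversal of the places next to the diagonal -/
def GLAlg_e (n : ℕ) (i : Fin n) : Fin n :=
  if h : i.1 + 1 < n then ⟨n - 2 - i.1, by omega⟩ else i

theorem GLAlg_e_inv (n : ℕ) : Function.Involutive (GLAlg_e n) := by
  intro i
  by_cases h : i.1 + 1 < n
  · have h1 : GLAlg_e n i = ⟨n - 2 - i.1, by omega⟩ := dif_pos h
    have h2 : (n - 2 - i.1) + 1 < n := by omega
    rw [h1]
    have h3 : GLAlg_e n ⟨n - 2 - i.1, by omega⟩ =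
      ⟨n - 2 - (n - 2 - i.1), by omega⟩ := dif_pos h2
    rw [h3]
    apply Fin.ext
    change n - 2 - (n - 2 - i.1) = i.1
    omega
  · have h1 : GLAlg_e n i = i := dif_neg h
    rw [h1, h1]

theorem GLAlg_sd_sg (a : GL (Fin n) F) : sd (sg a) = sd a := by
  unfold sd
  rw [← Equiv.sum_comp (GLAlg_e_inv n).toPerm
    (fun i : Fin n => if h : i.1 + 1 < n then a.1 i ⟨i.1 + 1, h⟩ else 0)]
  refine Finset.sum_congr rfl fun i _ => ?_
  change _ = if h : (GLAlg_e n i).1 + 1 < n then a.1 (GLAlg_e n i) ⟨(GLAlg_e n i).1 + 1, h⟩ else 0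
  by_cases h : i.1 + 1 < n
  · have h1 : GLAlg_e n i = ⟨n - 2 - i.1, by omega⟩ := dif_pos h
    have h2 : (GLAlg_e n i).1 + 1 < n := by
      rw [h1]
      change (n - 2 - i.1) + 1 < n
      omega
    rw [dif_pos h, dif_pos h2]
    change a.1 (⟨i.1 + 1, h⟩ : Fin n).rev i.rev = _
    have h3 : (⟨i.1 + 1, h⟩ : Fin n).rev = GLAlg_e n i := by
      apply Fin.ext
      rw [h1, Fin.val_rev]
      change n - (i.1 + 1 + 1) = n - 2 - i.1
      omega
    have h4 : i.rev = ⟨(GLAlg_e n i).1 + 1, h2⟩ := by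
      apply Fin.ext
      rw [Fin.val_rev]
      change n - (i.1 + 1) = (GLAlg_e n i).1 + 1
      rw [h1]
      change n - (i.1 + 1) = n - 2 - i.1 + 1
      omega
    rw [h3, h4]
  · have h1 : GLAlg_e n i = i := dif_neg h
    rw [dif_neg h]
    have h2 : ¬ (GLAlg_e n i).1 + 1 < n := by
      rw [h1]
      exact h
    rw [dif_neg h2]

theorem psi_sg (ψ : AddChar F ℂ) : ∀ a ∈ NN F n, psi ψ (sg a) = psi ψ a := by
  intro a _
  unfold psi
  rw [GLAlg_sd_sg]

variable [TopologicalSpace F] [IsTopologicalRing F] [T2Space F]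

theorem GLAlg_cont_val (i j : Fin n) : Continuous fun g : GL (Fin n) F => g.1 i j :=
  (Units.continuous_val (M := Matrix (Fin n) (Fin n) F)).matrix_elem i j

theorem GLAlg_cont_inv (i j : Fin n) : Continuous fun g : GL (Fin n) F => g⁻¹.1 i j :=
  (Units.continuous_iff.1 continuous_id).2.matrix_elem i j

theorem sg_cont : Continuous (sg : GL (Fin n) F → GL (Fin n) F) := by
  rw [Units.continuous_iff]
  refine ⟨continuous_matrix fun i j => ?_, continuous_matrix fun i j => ?_⟩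
  · exact GLAlg_cont_val j.rev i.rev
  · exact GLAlg_cont_inv j.rev i.rev

theorem BB_closed : IsClosed (BB F n : Set (GL (Fin n) F)) := by
  have h : (BB F n : Set (GL (Fin n) F)) = (⋂ i, ⋂ j, ⋂ (_ : j < i), {g | g.1 i j = 0}) ∩
      (⋂ i, ⋂ j, ⋂ (_ : j < i), {g | g⁻¹.1 i j = 0}) := by
    ext g
    simp only [Set.mem_inter_iff, Set.mem_iInter, Set.mem_setOf_eq]
    rfl
  rw [h]
  refine IsClosed.inter ?_ ?_
  · exact isClosed_iInter fun i => isClosed_iInter fun j => isClosed_iInter fun _ =>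
      isClosed_eq (GLAlg_cont_val i j) continuous_const
  · exact isClosed_iInter fun i => isClosed_iInter fun j => isClosed_iInter fun _ =>
      isClosed_eq (GLAlg_cont_inv i j) continuous_const

theorem NN_closed : IsClosed (NN F n : Set (GL (Fin n) F)) := by
  have h : (NN F n : Set (GL (Fin n) F)) = (BB F n : Set (GL (Fin n) F)) ∩
      ⋂ i, {g | g.1 i i = 1} := by
    ext g
    simp only [Set.mem_inter_iff, Set.mem_iInter, Set.mem_setOf_eq]
    rfl
  rw [h]
  exact BB_closed.inter (isClosed_iInter fun i => isClosed_eq (GLAlg_cont_val i i) continuous_const)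

theorem psi_loc (ψ : AddChar F ℂ) (hψ : ∃ U ∈ 𝓝 (0 : F), ∀ x ∈ U, ψ x = 1) :
    ∃ U ∈ 𝓝 (1 : GL (Fin n) F), ∀ a ∈ NN F n, a ∈ U → psi ψ a = 1 := by
  obtain ⟨U, hU, h1⟩ := hψ
  have hc : Continuous (sd : GL (Fin n) F → F) := by
    unfold sd
    refine continuous_finset_sum _ fun i _ => ?_
    by_cases h : i.1 + 1 < n
    · simp only [dif_pos h]
      exact GLAlg_cont_val i ⟨i.1 + 1, h⟩
    · simp only [dif_neg h]
      exact continuous_const
  refine ⟨sd ⁻¹' U, ?_, fun a _ ha => h1 _ ha⟩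
  apply hc.continuousAt.preimage_mem_nhds
  rw [GLAlg_sd_one]
  exact hU

end PC.GK
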