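import Mathlib
import Pool.Agent.Lib.MP_ca1492_al.D4.GLDefs

/-!
# MP_ca1492_al, D4, GLTop: topology of `GL (Fin n) F`

`GL (Fin n) F` has the topology of units: `g ↦ (g, g⁻¹)` is an embedding
(`Units.isEmbedding_embedProduct`) into `M × Mᵐᵒᵖ` with closed image `{(a, b) | a b = 1 = b a}`.
`F` is locally compact (`O` is a compact neighbourhood of `0`) and the countable union of the
compact sets `p ^ (-j) O`. Nonarchimedean: the subgroups
`{g | all entries of g - 1 and g⁻¹ - 1 lie in p ^ j O}` are open and form a basis at `1`.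
-/

open Topology

set_option linter.unusedSectionVars false

namespace PC.GK

variable {F : Type} [Field F] [TopologicalSpace F] [IsTopologicalRing F] [T2Space F]

theorem lc (d : LFData F) : LocallyCompactSpace F :=
  d.O_cpt.locallyCompactSpace_of_mem_nhds_of_addGroup (d.O_open.mem_nhds d.O.zero_mem)

theorem sc (d : LFData F) : SigmaCompactSpace F := by
  refine SigmaCompactSpace.of_countable
    (Set.range fun j : ℕ => (fun x : F => (d.p ^ j)⁻¹ * x) '' (d.O : Set F))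
    (Set.countable_range _) ?_ ?_
  · rintro K ⟨j, rfl⟩
    exact d.O_cpt.image (continuous_const.mul continuous_id)
  · rw [Set.eq_univ_iff_forall]
    intro x
    obtain ⟨j, hj⟩ := d.exh x
    refine Set.mem_sUnion.2 ⟨_, ⟨j, rfl⟩, d.p ^ j * x, hj, ?_⟩
    exact inv_mul_cancel_left₀ (pow_ne_zero j d.p_ne) x

theorem gl_t2 (n : ℕ) : T2Space (GL (Fin n) F) :=
  inferInstanceAs (T2Space (Matrix (Fin n) (Fin n) F)ˣ)

theorem GLTop_mlc (d : LFData F) (n : ℕ) : LocallyCompactSpace (Matrix (Fin n) (Fin n) F) := by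
  have := lc d
  exact inferInstanceAs (LocallyCompactSpace (Fin n → Fin n → F))

theorem GLTop_msc (d : LFData F) (n : ℕ) : SigmaCompactSpace (Matrix (Fin n) (Fin n) F) := by
  have := sc d
  exact inferInstanceAs (SigmaCompactSpace (Fin n → Fin n → F))

theorem gl_lc (d : LFData F) (n : ℕ) : LocallyCompactSpace (GL (Fin n) F) := by
  have := GLTop_mlc d n
  exact inferInstanceAs (LocallyCompactSpace (Matrix (Fin n) (Fin n) F)ˣ)

theorem gl_sc (d : LFData F) (n : ℕ) : SigmaCompactSpace (GL (Fin n) F) := by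
  have := GLTop_msc d n
  have h2 : SigmaCompactSpace (Matrix (Fin n) (Fin n) F)ᵐᵒᵖ :=
    (MulOpposite.opHomeomorph (M := Matrix (Fin n) (Fin n) F)).symm.isClosedEmbedding.sigmaCompactSpace
  exact (Units.isClosedEmbedding_embedProduct (α := Matrix (Fin n) (Fin n) F)).sigmaCompactSpace

/-- the entries of `A - 1` lie in `p ^ j O` -/
def GLTop_P (d : LFData F) (n j : ℕ) (A : Matrix (Fin n) (Fin n) F) : Prop :=
  ∀ i k, (d.p ^ j)⁻¹ * (A i k - (1 : Matrix (Fin n) (Fin n) F) i k) ∈ d.O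

theorem GLTop_P_one (d : LFData F) (n j : ℕ) : GLTop_P d n j 1 := by
  intro i k
  rw [sub_self, mul_zero]
  exact d.O.zero_mem

theorem GLTop_P_mul (d : LFData F) (n j : ℕ) {A C : Matrix (Fin n) (Fin n) F}
    (hA : GLTop_P d n j A) (hC : GLTop_P d n j C) : GLTop_P d n j (A * C) := by
  intro i k
  have e : (A * C) i k - (1 : Matrix (Fin n) (Fin n) F) i k =
      ((A - 1) * (C - 1)) i k + (A i k - (1 : Matrix (Fin n) (Fin n) F) i k) +
        (C i k - (1 : Matrix (Fin n) (Fin n) F) i k) := by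
    have h : A * C - 1 = (A - 1) * (C - 1) + (A - 1) + (C - 1) := by noncomm_ring
    have h2 := congrFun (congrFun h i) k
    simpa only [Matrix.sub_apply, Matrix.add_apply] using h2
  rw [e, mul_add, mul_add]
  refine d.O.add_mem (d.O.add_mem ?_ (hA i k)) (hC i k)
  rw [Matrix.mul_apply, Finset.mul_sum]
  refine d.O.sum_mem fun l _ => ?_
  have hp : d.p ^ j ≠ 0 := pow_ne_zero j d.p_ne
  have e2 : (d.p ^ j)⁻¹ * ((A - 1) i l * (C - 1) l k) =
      ((d.p ^ j)⁻¹ * (A i l - (1 : Matrix (Fin n) (Fin n) F) i l)) *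
        (d.p ^ j * ((d.p ^ j)⁻¹ * (C l k - (1 : Matrix (Fin n) (Fin n) F) l k))) := by
    rw [Matrix.sub_apply, Matrix.sub_apply]
    field_simp
  rw [e2]
  exact d.O.mul_mem (hA i l) (d.O.mul_mem (d.O.pow_mem d.p_mem j) (hC l k))

theorem GLTop_P_open (d : LFData F) (n j : ℕ) :
    IsOpen {A : Matrix (Fin n) (Fin n) F | GLTop_P d n j A} := by
  have h : {A : Matrix (Fin n) (Fin n) F | GLTop_P d n j A} = ⋂ i : Fin n, ⋂ k : Fin n,
      (fun A : Matrix (Fin n) (Fin n) F =>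
        (d.p ^ j)⁻¹ * (A i k - (1 : Matrix (Fin n) (Fin n) F) i k)) ⁻¹' (d.O : Set F) := by
    ext A
    simp only [Set.mem_ofPred_eq, Set.mem_iInter, Set.mem_preimage, SetLike.mem_coe]
    rfl
  rw [h]
  refine isOpen_iInter_of_finite fun i => isOpen_iInter_of_finite fun k => ?_
  refine d.O_open.preimage ?_
  exact continuous_const.mul ((continuous_apply_apply i k).sub continuous_const)

/-- the congruence subgroups -/
def GLTop_H (d : LFData F) (n j : ℕ) : OpenSubgroup (GL (Fin n) F) where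
  carrier := {g | GLTop_P d n j g.1 ∧ GLTop_P d n j g⁻¹.1}
  mul_mem' := by
    intro a b ha hb
    refine ⟨?_, ?_⟩
    · rw [Units.val_mul]
      exact GLTop_P_mul d n j ha.1 hb.1
    · rw [_root_.mul_inv_rev, Units.val_mul]
      exact GLTop_P_mul d n j hb.2 ha.2
  one_mem' := by
    refine ⟨GLTop_P_one d n j, ?_⟩
    rw [inv_one]
    exact GLTop_P_one d n j
  inv_mem' := by
    intro a ha
    refine ⟨ha.2, ?_⟩
    rw [inv_inv]
    exact ha.1
  isOpen' := by
    refine IsOpen.inter ?_ ?_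
    · exact (GLTop_P_open d n j).preimage Units.continuous_val
    · exact (GLTop_P_open d n j).preimage (Units.continuous_coe_inv)

theorem GLTop_pi {n : ℕ} (a : Fin n → Fin n → F) (V : Set (Fin n → Fin n → F)) (hV : V ∈ 𝓝 a) :
    ∃ s : Fin n → Fin n → Set F, (∀ i k, s i k ∈ 𝓝 (a i k)) ∧
      ∀ x : Fin n → Fin n → F, (∀ i k, x i k ∈ s i k) → x ∈ V := by
  rw [nhds_pi, Filter.mem_pi] at hV
  obtain ⟨I, hI, t, ht, hts⟩ := hV
  have h2 : ∀ i, ∃ s : Fin n → Set F, (∀ k, s k ∈ 𝓝 (a i k)) ∧ Set.univ.pi s ⊆ t i := by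
    intro i
    have h3 := ht i
    rw [nhds_pi, Filter.mem_pi] at h3
    obtain ⟨J, hJ, s, hs, hst⟩ := h3
    exact ⟨s, hs, fun x hx => hst fun k _ => hx k (Set.mem_univ k)⟩
  choose s hs hst using h2
  exact ⟨s, hs, fun x hx => hts fun i _ => hst i fun k _ => hx i k⟩

theorem GLTop_nhds (d : LFData F) (n : ℕ) (V : Set (Matrix (Fin n) (Fin n) F))
    (hV : V ∈ 𝓝 (1 : Matrix (Fin n) (Fin n) F)) :
    ∃ j0 : ℕ, ∀ j, j0 ≤ j → ∀ A, GLTop_P d n j A → A ∈ V := by
  obtain ⟨s, hs, hsV⟩ := GLTop_pi (fun i k => (1 : Matrix (Fin n) (Fin n) F) i k) V hV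
  have h4 : (⋂ i : Fin n, ⋂ k : Fin n,
      (fun x : F => x + (1 : Matrix (Fin n) (Fin n) F) i k) ⁻¹' (s i k)) ∈ 𝓝 (0 : F) := by
    refine Filter.iInter_mem.2 fun i => Filter.iInter_mem.2 fun k => ?_
    have hc : Continuous fun x : F => x + (1 : Matrix (Fin n) (Fin n) F) i k :=
      continuous_id.add continuous_const
    refine hc.continuousAt.preimage_mem_nhds ?_
    rw [zero_add]
    exact hs i k
  obtain ⟨j0, hj0⟩ := d.small _ h4
  refine ⟨j0, fun j hj A hA => hsV A fun i k => ?_⟩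
  have hp : d.p ^ j ≠ 0 := pow_ne_zero j d.p_ne
  have h5 : d.p ^ (j - j0) * ((d.p ^ j)⁻¹ * (A i k - (1 : Matrix (Fin n) (Fin n) F) i k)) ∈ d.O :=
    d.O.mul_mem (d.O.pow_mem d.p_mem _) (hA i k)
  have h6 := hj0 _ h5
  have h7 : d.p ^ j0 * (d.p ^ (j - j0) *
      ((d.p ^ j)⁻¹ * (A i k - (1 : Matrix (Fin n) (Fin n) F) i k))) =
      A i k - (1 : Matrix (Fin n) (Fin n) F) i k := by
    rw [← mul_assoc, ← pow_add, Nat.add_sub_cancel' hj, mul_inv_cancel_left₀ hp]
  rw [h7] at h6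
  have h8 := Set.mem_iInter.1 (Set.mem_iInter.1 h6 i) k
  have h9 : A i k - (1 : Matrix (Fin n) (Fin n) F) i k +
      (1 : Matrix (Fin n) (Fin n) F) i k ∈ s i k := h8
  rw [sub_add_cancel] at h9
  exact h9

theorem gl_na (d : LFData F) (n : ℕ) : NonarchimedeanGroup (GL (Fin n) F) := by
  have htg : IsTopologicalGroup (GL (Fin n) F) :=
    inferInstanceAs (IsTopologicalGroup (Matrix (Fin n) (Fin n) F)ˣ)
  refine { htg with is_nonarchimedean := ?_ }
  intro U hU
  rw [Units.isInducing_embedProduct.nhds_eq_comap] at hU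
  obtain ⟨W, hW, hWU⟩ := Filter.mem_comap.1 hU
  rw [mem_nhds_prod_iff] at hW
  obtain ⟨V1, hV1, V2, hV2, hVW⟩ := hW
  have hV2' : MulOpposite.op ⁻¹' V2 ∈ 𝓝 (1 : Matrix (Fin n) (Fin n) F) :=
    MulOpposite.continuous_op.continuousAt.preimage_mem_nhds hV2
  obtain ⟨j1, h1⟩ := GLTop_nhds d n V1 hV1
  obtain ⟨j2, h2⟩ := GLTop_nhds d n _ hV2'
  refine ⟨GLTop_H d n (max j1 j2), fun g hg => hWU ?_⟩
  exact hVW ⟨h1 _ (le_max_left _ _) _ hg.1, h2 _ (le_max_right _ _) _ hg.2⟩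

end PC.GK
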