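import Mathlib
import Pool.Agent.Lib.MP_ca1492_al.D4.GKDefs
import Pool.Agent.Lib.MP_ca1492_al.D4.GLAlg
import Pool.Agent.Lib.MP_ca1492_al.D4.GLTop
import Pool.Agent.Lib.MP_ca1492_al.P.Dual

/-!
# MP_ca1492_al, D4, SgBas: compact open subgroups stable under `sg`

`hasCO`: an open subgroup contained in a compact neighbourhood is closed, so compact
(`gl_na`, `gl_lc`). `sg_bas`: for a compact open `K ⊆ U` take `K ∩ {x | sg x ∈ K}`.
-/

open Topology Pool.Agent.Lib.MP_ca1492_al.P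

namespace PC.D4

open PC.GK (IsS LFData NN sg psi gl_na gl_lc gl_t2)

variable {F : Type} [Field F] [TopologicalSpace F] [IsTopologicalRing F] [T2Space F]

theorem hasCO (d : LFData F) (n : ℕ) : HasCO (GL (Fin n) F) := by
  intro U hU
  have hna := gl_na d n
  have hlc := gl_lc d n
  have hT2 := gl_t2 (F := F) n
  obtain ⟨C, hC, hCU, hCc⟩ := local_compact_nhds hU
  obtain ⟨K, hK⟩ := hna.is_nonarchimedean C hC
  refine ⟨K.toSubgroup, K.isOpen, ?_, fun x hx => hCU (hK hx)⟩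
  exact hCc.of_isClosed_subset (Subgroup.isClosed_of_isOpen K.toSubgroup K.isOpen) hK

/-- the elements which the anti-involution maps to `K` -/
def SgBas_pre {F : Type} [Field F] {n : ℕ} (K : Subgroup (GL (Fin n) F)) :
    Subgroup (GL (Fin n) F) where
  carrier := {x | sg x ∈ K}
  mul_mem' := by
    intro a b ha hb
    change sg (a * b) ∈ K
    rw [PC.GK.sg_mul]
    exact K.mul_mem hb ha
  one_mem' := by
    change sg (1 : GL (Fin n) F) ∈ K
    have h : sg (1 : GL (Fin n) F) * sg 1 = sg 1 := by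
      rw [← PC.GK.sg_mul, one_mul]
    rw [mul_eq_left.mp h]
    exact K.one_mem
  inv_mem' := by
    intro a ha
    change sg a⁻¹ ∈ K
    have h1 : sg (1 : GL (Fin n) F) * sg 1 = sg 1 := by
      rw [← PC.GK.sg_mul, one_mul]
    have h2 : sg a * sg a⁻¹ = 1 := by
      rw [← PC.GK.sg_mul, inv_mul_cancel, mul_eq_left.mp h1]
    rw [eq_inv_of_mul_eq_one_right h2]
    exact K.inv_mem ha

theorem sg_bas (d : LFData F) (n : ℕ) (U : Set (GL (Fin n) F)) (hU : U ∈ 𝓝 1) :
    ∃ K : Subgroup (GL (Fin n) F), IsOpen (K : Set (GL (Fin n) F)) ∧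
      IsCompact (K : Set (GL (Fin n) F)) ∧ (∀ k ∈ K, sg k ∈ K) ∧ (K : Set (GL (Fin n) F)) ⊆ U := by
  obtain ⟨K, hKo, hKc, hKU⟩ := hasCO d n U hU
  have hpo : IsOpen (SgBas_pre K : Set (GL (Fin n) F)) := hKo.preimage PC.GK.sg_cont
  have hna := gl_na d n
  refine ⟨K ⊓ SgBas_pre K, hKo.inter hpo, ?_, ?_, fun x hx => hKU hx.1⟩
  · exact hKc.of_isClosed_subset
      (Subgroup.isClosed_of_isOpen (K ⊓ SgBas_pre K) (hKo.inter hpo)) (fun x hx => hx.1)
  · intro k hk
    refine ⟨hk.2, ?_⟩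
    change sg (sg k) ∈ K
    rw [PC.GK.sg_sg]
    exact hk.1

end PC.D4
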