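import Mathlib
import Pool.Agent.Lib.MP_ca1492_al.P.Base

/-!
# MP_ca1492_al, D4, WhDefs: Whittaker functionals, generalised vectors

Smooth representations, averages, duals: `P/Base.lean`, `P/Avg.lean`, `P/Dual.lean`
(namespace `Pool.Agent.Lib.MP_ca1492_al.P`). Functions on the group: `D4/GKDefs.lean`,
`D4/GLDefs.lean` (namespace `PC.GK`).
-/

open Topology Pool.Agent.Lib.MP_ca1492_al.P

namespace PC.D4

variable {G : Type} [Group G] {V : Type} [AddCommGroup V] [Module ℂ V]

/-- functionals which are `χ`-equivariant under `N` -/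
def Wh (π : Representation ℂ G V) (N : Subgroup G) (χ : G → ℂ) (l : V →ₗ[ℂ] ℂ) : Prop :=
  ∀ a ∈ N, ∀ v, l (π a v) = χ a * l v

/-- the span of the vectors `π a v - χ a • v`, `a ∈ N` -/
def KX (π : Representation ℂ G V) (N : Subgroup G) (χ : G → ℂ) : Submodule ℂ V :=
  Submodule.span ℂ {x | ∃ a ∈ N, ∃ v, x = π a v - χ a • v}

/-- a generalised vector: a compatible family of vectors `w K ∈ fix π K`, `χ`-equivariant
under `N` -/
structure Fam [TopologicalSpace G] (π : Representation ℂ G V) (N : Subgroup G) (χ : G → ℂ) where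
  w : Subgroup G → V
  mem : ∀ K : Subgroup G, IsOpen (K : Set G) → IsCompact (K : Set G) → w K ∈ fix π K
  compat : ∀ K K' : Subgroup G, IsOpen (K : Set G) → IsCompact (K : Set G) →
    IsOpen (K' : Set G) → K' ≤ K → avg π K (w K') = w K
  equi : ∀ a ∈ N, ∀ K : Subgroup G, IsOpen (K : Set G) → IsCompact (K : Set G) →
    π a (w K) = χ a • w (K.map (MulAut.conj a).toMonoidHom)

end PC.D4
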