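import Mathlib
import Pool.Agent.Lib.MP_ca1492_al.D4.DPDefs
import Pool.Agent.Lib.MP_ca1492_al.D4.DPair
import Pool.Agent.Lib.MP_ca1492_al.D4.LF
import Pool.Agent.Lib.MP_ca1492_al.D4.SgBas
import Pool.Agent.Lib.MP_ca1492_al.D4.WhDefs

/-!
# MP_ca1492_al, D4, Conv: from `lev F (one n)` to `GL (Fin n) F`, from `KK ψ 1` to Whittaker
functionals

* `toTop` is a homeomorphism and a group isomorphism (inverse: `Subtype.val`).
* `mem_NN_UU`: both are the upper unitriangular matrices (for `NN` use that the inverse of an upper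
  triangular matrix is upper triangular: `Matrix.blockTriangular_inv_of_blockTriangular`).
* `psi_eq`: both are `ψ` of the sum of the entries `(i, i + 1)`.
* `wh_iff`: `KK ψ 1 π` is the span of the vectors `π u v - psi u • v`.
* `wh_exists`: a linear functional which vanishes on `P` and not at `x ∉ P` (`P.mkQ`, and a
  functional on the quotient).
-/

open Topology Pool.Agent.Lib.MP_ca1492_al.P

namespace PC.D4

noncomputable section

variable {F : Type} [Field F] [ValuativeRel F] [TopologicalSpace F]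
  [IsNonarchimedeanLocalField F]
variable {n d : ℕ} {V V' W : Type} [AddCommGroup V] [Module ℂ V] [AddCommGroup V'] [Module ℂ V']
  [AddCommGroup W] [Module ℂ W]

theorem Conv_cont : Continuous (toTop : GL (Fin n) F → lev F (one n)) :=
  Continuous.subtype_mk continuous_id _

theorem toGL_smooth (π : Representation ℂ (lev F (one n)) V) (hπ : IsSm π) : IsSm (toGL π) := by
  intro v
  exact (hπ v).preimage Conv_cont

theorem toGL_adm (π : Representation ℂ (lev F (one n)) V) (ha : Adm π) : Adm (toGL π) := by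
  intro K hK
  have h := ha (K.comap (lev F (one n)).subtype) (hK.preimage continuous_subtype_val)
  have he : fix (toGL π) K = fix π (K.comap (lev F (one n)).subtype) := by
    apply le_antisymm
    · intro v hv k hk
      exact hv k.1 hk
    · intro v hv k hk
      exact hv (toTop k) hk
  rw [he]
  exact h

theorem toGL_stab (π : Representation ℂ (lev F (one n)) V) (U : Submodule ℂ V) :
    Stab (toGL π) U ↔ Stab π U :=
  ⟨fun h g v hv => h g.1 v hv, fun h g v hv => h (toTop g) v hv⟩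

theorem toGL_equi (π : Representation ℂ (lev F (one n)) V)
    (π' : Representation ℂ (lev F (one n)) V') (T : V →ₗ[ℂ] V') :
    Equi (toGL π) (toGL π') T ↔ Equi π π' T :=
  ⟨fun h g v => h g.1 v, fun h g v => h (toTop g) v⟩

theorem toGL_pai (π : Representation ℂ (lev F (one n)) V)
    (π' : Representation ℂ (lev F (one n)) V') (b : V →ₗ[ℂ] V' →ₗ[ℂ] ℂ) (h : Pai π π' b) :
    Pai (toGL π) (toGL π') b where
  inv g v v' := h.inv (toTop g) v v'
  left := h.left
  right := h.right

theorem GL_hasCO (F : Type) [Field F] [ValuativeRel F] [TopologicalSpace F]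
    [IsNonarchimedeanLocalField F] (n : ℕ) : HasCO (GL (Fin n) F) := by
  have hT2 : T2Space F := PC.GK.t2_of_local F
  obtain ⟨dF⟩ := PC.GK.exists_LFData F
  exact hasCO dF n

theorem mem_NN_UU (u : GL (Fin n) F) : u ∈ PC.GK.NN F n ↔ u ∈ PC.DP.UU F n 1 := by
  constructor
  · intro h i j hij
    have hle : j ≤ i := by
      rcases hij with h1 | h1
      · exact h1
      · rw [Fin.le_def]
        omega
    rcases lt_or_eq_of_le hle with h1 | h1
    · rw [Matrix.one_apply_ne (ne_of_gt h1)]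
      exact h.1.1 i j h1
    · rw [h1, Matrix.one_apply_eq]
      exact h.2 i
  · intro h
    have h0 : ∀ i j, j < i → u.1 i j = 0 := by
      intro i j hij
      have := h i j (Or.inl hij.le)
      rw [this, Matrix.one_apply_ne (ne_of_gt hij)]
    have hb : (u.1).BlockTriangular id := by
      intro i j hij
      exact h0 i j hij
    refine ⟨⟨h0, fun i j hij => ?_⟩, fun i => ?_⟩
    · have hi : Invertible u.1 := u.invertible
      have h2 := Matrix.blockTriangular_inv_of_blockTriangular hb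
      rw [Matrix.coe_units_inv]
      exact h2 hij
    · have := h i i (Or.inl le_rfl)
      rw [this, Matrix.one_apply_eq]

theorem psi_eq (ψ : AddChar F ℂ) (u : GL (Fin n) F) : PC.DP.psi ψ n 1 u = PC.GK.psi ψ u := by
  unfold PC.DP.psi PC.GK.psi PC.GK.sd
  congr 1
  refine Finset.sum_congr rfl fun i _ => ?_
  by_cases h : i.1 + 1 < n
  · rw [dif_pos h, Finset.sum_eq_single ⟨i.1 + 1, h⟩]
    · rw [if_pos ⟨rfl, by simp⟩]
    · intro j _ hj
      rw [if_neg]
      rintro ⟨h1, -⟩
      exact hj (Fin.ext h1.symm)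
    · simp
  · rw [dif_neg h]
    refine Finset.sum_eq_zero fun j _ => ?_
    rw [if_neg]
    rintro ⟨h1, -⟩
    have := j.2
    omega

/-- Whittaker functionals are the functionals which vanish on `KK ψ 1` -/
theorem wh_iff (ψ : AddChar F ℂ) (π : Representation ℂ (GL (Fin n) F) V) (l : V →ₗ[ℂ] ℂ) :
    Wh π (PC.GK.NN F n) (PC.GK.psi ψ) l ↔ ∀ x ∈ PC.DP.KK ψ 1 π, l x = 0 := by
  constructor
  · intro h x hx
    have hle : PC.DP.KK ψ 1 π ≤ LinearMap.ker l := by
      refine Submodule.span_le.2 ?_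
      rintro w ⟨u, hu, v, rfl⟩
      have h1 := h u ((mem_NN_UU u).2 hu) v
      rw [SetLike.mem_coe, LinearMap.mem_ker, map_sub, map_smul, h1, psi_eq, smul_eq_mul, sub_self]
    exact hle hx
  · intro h a ha v
    have h1 := h (π a v - PC.DP.psi ψ n 1 a • v)
      (Submodule.subset_span ⟨a, (mem_NN_UU a).1 ha, v, rfl⟩)
    rw [map_sub, map_smul, psi_eq, smul_eq_mul, sub_eq_zero] at h1
    exact h1

/-- separation of a vector from a subspace -/
theorem sep_fun (P : Submodule ℂ V) (x : V) (hx : x ∉ P) :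
    ∃ l : V →ₗ[ℂ] ℂ, (∀ y ∈ P, l y = 0) ∧ l x ≠ 0 := by
  obtain ⟨f, hf, hP⟩ := Submodule.exists_le_ker_of_notMem hx
  exact ⟨f, fun y hy => hP hy, hf⟩

theorem std_h1 {ψ : AddChar F ℂ} (hψ : PC.DP.Std ψ) : ∃ x, ψ x ≠ 1 := by
  obtain ⟨x, _, h⟩ := hψ.ntriv
  exact ⟨x, h⟩

theorem std_h2 {ψ : AddChar F ℂ} (hψ : PC.DP.Std ψ) : ∃ U ∈ 𝓝 (0 : F), ∀ x ∈ U, ψ x = 1 :=
  ⟨lat F 0, (lat_isOpen 0).mem_nhds (lat F 0).zero_mem, hψ.triv⟩

theorem std_symm {ψ : AddChar F ℂ} (hψ : PC.DP.Std ψ) : PC.DP.Std ψ⁻¹ := by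
  refine ⟨fun x hx => ?_, ?_⟩
  · rw [AddChar.inv_apply]
    exact hψ.triv _ ((lat F 0).neg_mem hx)
  · obtain ⟨x, hx, h⟩ := hψ.ntriv
    refine ⟨-x, (lat F (-1)).neg_mem hx, ?_⟩
    rw [AddChar.inv_apply, neg_neg]
    exact h

/-- images -/
theorem Ksp_map {G : Type} [Group G] (π : Representation ℂ G V) (π' : Representation ℂ G V')
    (S : Set G) (χ : G → ℂ) (T : V →ₗ[ℂ] V') (hT : Equi π π' T) (x : V)
    (hx : x ∈ PC.DP.Ksp π S χ) : T x ∈ PC.DP.Ksp π' S χ := by
  have hle : PC.DP.Ksp π S χ ≤ (PC.DP.Ksp π' S χ).comap T := by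
    refine Submodule.span_le.2 ?_
    rintro w ⟨u, hu, v, rfl⟩
    rw [SetLike.mem_coe, Submodule.mem_comap, map_sub, map_smul, hT u v]
    exact Submodule.subset_span ⟨u, hu, T v, rfl⟩
  exact hle hx

end

end PC.D4
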