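import Mathlib
import Pool.Agent.Lib.MP_ca1492_al.D4.Conv
import Pool.Agent.Lib.MP_ca1492_al.D4.Dbl

/-!
# MP_ca1492_al, D4, Sys: intertwining maps with zero compositions, their transposes and lifts

`Sys0`: maps `A : XnS s ρ → XnS s' ρ`, `B` back, with compositions zero, and the transposed maps
`A'`, `B'`. `Sys2`: lifts of these maps to the self-extensions `dbl`. `Sys0.swap`, `Sys0.dual`: the
symmetries. `imB`: the pairing of the images of `A` and `A'`.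
-/

open Topology Pool.Agent.Lib.MP_ca1492_al.P

namespace PC.D4

noncomputable section

section Abs

variable {G : Type} [Group G] {V₁ V₁' V₂ V₂' : Type} [AddCommGroup V₁] [Module ℂ V₁]
  [AddCommGroup V₁'] [Module ℂ V₁'] [AddCommGroup V₂] [Module ℂ V₂] [AddCommGroup V₂']
  [Module ℂ V₂']

theorem stab_range {π₁ : Representation ℂ G V₁} {π₂ : Representation ℂ G V₂} {A : V₁ →ₗ[ℂ] V₂}
    (hA : Equi π₁ π₂ A) : Stab π₂ (LinearMap.range A) := by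
  rintro g _ ⟨v, rfl⟩
  exact ⟨π₁ g v, hA g v⟩

theorem stab_ker {π₁ : Representation ℂ G V₁} {π₂ : Representation ℂ G V₂} {A : V₁ →ₗ[ℂ] V₂}
    (hA : Equi π₁ π₂ A) : Stab π₁ (LinearMap.ker A) := by
  intro g v hv
  rw [LinearMap.mem_ker] at hv ⊢
  rw [hA, hv, map_zero]

/-- the pairing of the images of two adjoint maps: `b (A f, A' f') = b₂ (A f, f')`.
Proof: choose preimages (`LinearMap.exists_rightInverse_of_surjective` for the range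
restrictions, or `Submodule.liftQ`); well defined since `A' f' = 0` implies
`b₂ (A f, f') = b₁ (f, A' f') = 0`. -/
theorem imB (π₁ : Representation ℂ G V₁) (π₁' : Representation ℂ G V₁')
    (π₂ : Representation ℂ G V₂) (π₂' : Representation ℂ G V₂') (b₁ : V₁ →ₗ[ℂ] V₁' →ₗ[ℂ] ℂ)
    (b₂ : V₂ →ₗ[ℂ] V₂' →ₗ[ℂ] ℂ) (h₁ : Pai π₁ π₁' b₁) (h₂ : Pai π₂ π₂' b₂) (A : V₁ →ₗ[ℂ] V₂)
    (A' : V₂' →ₗ[ℂ] V₁') (hA : Equi π₁ π₂ A) (hA' : Equi π₂' π₁' A')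
    (had : ∀ v v', b₂ (A v) v' = b₁ v (A' v')) :
    ∃ b : LinearMap.range A →ₗ[ℂ] LinearMap.range A' →ₗ[ℂ] ℂ,
      Pai (subRep π₂ _ (stab_range hA)) (subRep π₁' _ (stab_range hA')) b ∧
      ∀ v v', b ⟨A v, v, rfl⟩ ⟨A' v', v', rfl⟩ = b₂ (A v) v' := by
  obtain ⟨r, hr⟩ := LinearMap.exists_rightInverse_of_surjective A'.rangeRestrict
    (LinearMap.range_rangeRestrict A')
  have hr' : ∀ y : LinearMap.range A', A' (r y) = y := by
    intro y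
    have h := congrArg (fun f => ((f y : LinearMap.range A') : V₁')) hr
    simpa using h
  let b : LinearMap.range A →ₗ[ℂ] LinearMap.range A' →ₗ[ℂ] ℂ :=
    (b₂.comp (LinearMap.range A).subtype).compl₂ r
  have hb : ∀ (x : LinearMap.range A) (y : LinearMap.range A'), b x y = b₂ x (r y) :=
    fun _ _ => rfl
  have key : ∀ v v', b ⟨A v, v, rfl⟩ ⟨A' v', v', rfl⟩ = b₂ (A v) v' := by
    intro v v'
    rw [hb, had, hr', ← had]
  refine ⟨b, ⟨?_, ?_, ?_⟩, key⟩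
  · rintro g ⟨_, v, rfl⟩ ⟨_, v', rfl⟩
    rw [key]
    have h1 : subRep π₂ _ (stab_range hA) g ⟨A v, v, rfl⟩ = ⟨A (π₁ g v), π₁ g v, rfl⟩ :=
      Subtype.ext (hA g v).symm
    have h2 : subRep π₁' _ (stab_range hA') g ⟨A' v', v', rfl⟩ =
        ⟨A' (π₂' g v'), π₂' g v', rfl⟩ := Subtype.ext (hA' g v').symm
    rw [h1, h2, key, hA, h₂.inv]
  · rintro ⟨_, v, rfl⟩ hx
    have h1 : A v = 0 := h₂.left _ fun v' => by
      rw [← key v v']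
      exact hx _
    exact Subtype.ext h1
  · rintro ⟨_, v', rfl⟩ hy
    have h1 : A' v' = 0 := h₁.right _ fun v => by
      rw [← had, ← key v v']
      exact hy _
    exact Subtype.ext h1

end Abs

variable {F : Type} [Field F] [ValuativeRel F] [TopologicalSpace F]
  [IsNonarchimedeanLocalField F]
variable {n d : ℕ} {W W' : Type} [AddCommGroup W] [Module ℂ W] [AddCommGroup W'] [Module ℂ W']

/-- the representation of `GL (Fin n) F` on a stable subspace -/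
def subG {V : Type} [AddCommGroup V] [Module ℂ V] (π : Representation ℂ (lev F (one n)) V)
    (U : Submodule ℂ V) (hU : Stab π U) : Representation ℂ (GL (Fin n) F) U :=
  subRep (toGL π) U ((toGL_stab π U).2 hU)

theorem subG_smooth {V : Type} [AddCommGroup V] [Module ℂ V]
    (π : Representation ℂ (lev F (one n)) V) (hπ : IsSm π) (U : Submodule ℂ V)
    (hU : Stab π U) : IsSm (V := U) (subG π U hU) :=
  smooth_sub (toGL π) (toGL_smooth π hπ) U _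

/-- intertwining maps with zero compositions and their transposes -/
structure Sys0 (s s' : Bool) (ρ : Representation ℂ (lev F (blk n d)) W)
    (ρ' : Representation ℂ (lev F (blk n d)) W') (β : W →ₗ[ℂ] W' →ₗ[ℂ] ℂ) where
  A : XnS s ρ →ₗ[ℂ] XnS s' ρ
  B : XnS s' ρ →ₗ[ℂ] XnS s ρ
  A' : XnS s' ρ' →ₗ[ℂ] XnS s ρ'
  B' : XnS s ρ' →ₗ[ℂ] XnS s' ρ'
  eA : Equi (InS s ρ) (InS s' ρ) A
  eB : Equi (InS s' ρ) (InS s ρ) B
  eA' : Equi (InS s' ρ') (InS s ρ') A'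
  eB' : Equi (InS s ρ') (InS s' ρ') B'
  adA : ∀ f f', bS s' ρ ρ' β (A f) f' = bS s ρ ρ' β f (A' f')
  adB : ∀ f f', bS s ρ ρ' β (B f) f' = bS s' ρ ρ' β f (B' f')
  A0 : A ≠ 0
  B0 : B ≠ 0
  A0' : A' ≠ 0
  B0' : B' ≠ 0
  AB : ∀ x, A (B x) = 0
  BA : ∀ x, B (A x) = 0
  AB' : ∀ x, A' (B' x) = 0
  BA' : ∀ x, B' (A' x) = 0

namespace Sys0

variable {s s' : Bool} {ρ : Representation ℂ (lev F (blk n d)) W}
  {ρ' : Representation ℂ (lev F (blk n d)) W'} {β : W →ₗ[ℂ] W' →ₗ[ℂ] ℂ}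

/-- exchange of `A` and `B` -/
def swap (S : Sys0 s s' ρ ρ' β) : Sys0 s' s ρ ρ' β :=
  ⟨S.B, S.A, S.B', S.A', S.eB, S.eA, S.eB', S.eA', S.adB, S.adA, S.B0, S.A0, S.B0', S.A0', S.BA,
    S.AB, S.BA', S.AB'⟩

/-- exchange of `ρ` and `ρ'` -/
def dual (S : Sys0 s s' ρ ρ' β) : Sys0 s' s ρ' ρ β.flip :=
  ⟨S.A', S.B', S.A, S.B, S.eA', S.eB', S.eA, S.eB, fun f f' => (S.adA f' f).symm,
    fun f f' => (S.adB f' f).symm, S.A0', S.B0', S.A0, S.B0, S.AB', S.BA', S.AB, S.BA⟩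

/-- the image of `A` is degenerate -/
def Dg (S : Sys0 s s' ρ ρ' β) (ψ : AddChar F ℂ) : Prop :=
  PC.DP.KK (V := LinearMap.range S.A) ψ 1 (subG (InS s' ρ) _ (stab_range S.eA)) = ⊤

end Sys0

/-- lifts of the maps of a `Sys0` to the self-extensions -/
structure Sys2 (z z' : ℂ) {s s' : Bool} {ρ : Representation ℂ (lev F (blk n d)) W}
    {ρ' : Representation ℂ (lev F (blk n d)) W'} {β : W →ₗ[ℂ] W' →ₗ[ℂ] ℂ}
    (S : Sys0 s s' ρ ρ' β) where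
  A : XnS s (dbl z ρ) →ₗ[ℂ] XnS s' (dbl z ρ)
  B : XnS s' (dbl z ρ) →ₗ[ℂ] XnS s (dbl z ρ)
  A' : XnS s' (dbl z' ρ') →ₗ[ℂ] XnS s (dbl z' ρ')
  B' : XnS s (dbl z' ρ') →ₗ[ℂ] XnS s' (dbl z' ρ')
  eA : Equi (InS s (dbl z ρ)) (InS s' (dbl z ρ)) A
  eB : Equi (InS s' (dbl z ρ)) (InS s (dbl z ρ)) B
  eA' : Equi (InS s' (dbl z' ρ')) (InS s (dbl z' ρ')) A'
  eB' : Equi (InS s (dbl z' ρ')) (InS s' (dbl z' ρ')) B'
  adA : ∀ f f', bS s' (dbl z ρ) (dbl z' ρ') (dblB β) (A f) f' =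
    bS s (dbl z ρ) (dbl z' ρ') (dblB β) f (A' f')
  adB : ∀ f f', bS s (dbl z ρ) (dbl z' ρ') (dblB β) (B f) f' =
    bS s' (dbl z ρ) (dbl z' ρ') (dblB β) f (B' f')
  AB : ∀ x, A (B x) = 0
  BA : ∀ x, B (A x) = 0
  AB' : ∀ x, A' (B' x) = 0
  BA' : ∀ x, B' (A' x) = 0
  iA : ∀ f, A (inlS s z ρ f) = inlS s' z ρ (S.A f)
  iB : ∀ f, B (inlS s' z ρ f) = inlS s z ρ (S.B f)
  iA' : ∀ f, A' (inlS s' z' ρ' f) = inlS s z' ρ' (S.A' f)
  iB' : ∀ f, B' (inlS s z' ρ' f) = inlS s' z' ρ' (S.B' f)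
  qA : ∀ f, qS s' z ρ (A f) = S.A (qS s z ρ f)
  qB : ∀ f, qS s z ρ (B f) = S.B (qS s' z ρ f)
  qA' : ∀ f, qS s z' ρ' (A' f) = S.A' (qS s' z' ρ' f)
  qB' : ∀ f, qS s' z' ρ' (B' f) = S.B' (qS s z' ρ' f)

namespace Sys2

variable {s s' : Bool} {ρ : Representation ℂ (lev F (blk n d)) W}
  {ρ' : Representation ℂ (lev F (blk n d)) W'} {β : W →ₗ[ℂ] W' →ₗ[ℂ] ℂ} {z z' : ℂ}
  {S : Sys0 s s' ρ ρ' β}

/-- exchange of `A` and `B` -/
def swap (T : Sys2 z z' S) : Sys2 z z' S.swap :=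
  ⟨T.B, T.A, T.B', T.A', T.eB, T.eA, T.eB', T.eA', T.adB, T.adA, T.BA, T.AB, T.BA', T.AB',
    T.iB, T.iA, T.iB', T.iA', T.qB, T.qA, T.qB', T.qA'⟩

/-- exchange of `ρ` and `ρ'` -/
def dual (T : Sys2 z z' S) : Sys2 z' z S.dual :=
  ⟨T.A', T.B', T.A, T.B, T.eA', T.eB', T.eA, T.eB,
    fun f f' => by rw [dblB_flip]; exact (T.adA f' f).symm,
    fun f f' => by rw [dblB_flip]; exact (T.adB f' f).symm, T.AB', T.BA', T.AB, T.BA,
    T.iA', T.iB', T.iA, T.iB, T.qA', T.qB', T.qA, T.qB⟩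

end Sys2

end

end PC.D4
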