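import Mathlib
import Pool.Agent.Lib.MP_ca1492_al.D4.Pos
import Pool.Agent.Lib.MP_ca1492_al.D4.Sys
import Pool.Agent.Lib.MP_ca1492_al.D4.TwoA
import Pool.Agent.Lib.MP_ca1492_al.D4.TwoB

/-!
# MP_ca1492_al, D4, AlphaA: the position theorem for a degenerate pair, `n = 2 d`, and the form `c`
-/

open Topology Pool.Agent.Lib.MP_ca1492_al.P

namespace PC.D4

noncomputable section

variable {F : Type} [Field F] [ValuativeRel F] [TopologicalSpace F]
  [IsNonarchimedeanLocalField F]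
variable {n d : ℕ} {W W' : Type} [AddCommGroup W] [Module ℂ W] [AddCommGroup W'] [Module ℂ W']

/-- a degenerate stable subspace with an invariant pairing without left kernel -/
structure DegP (ψ : AddChar F ℂ) (s s' : Bool) (τ : Representation ℂ (lev F (blk n d)) W)
    (τ' : Representation ℂ (lev F (blk n d)) W') (E : Submodule ℂ (XnS s' τ))
    (hE : Stab (InS s' τ) E) (E' : Submodule ℂ (XnS s τ')) (hE' : Stab (InS s τ') E')
    (b : E →ₗ[ℂ] E' →ₗ[ℂ] ℂ) : Prop where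
  inv : ∀ g (v : E) (v' : E'),
    b (subG (InS s' τ) E hE g v) (subG (InS s τ') E' hE' g v') = b v v'
  left : ∀ v, (∀ v', b v v' = 0) → v = 0
  ne : ∃ v : E, v ≠ 0
  deg : PC.DP.KK (V := E) ψ 1 (subG (InS s' τ) E hE) = ⊤

/-- the derivatives of index `m ≠ d`, `n - d` vanish -/
theorem dead_sub {ψ : AddChar F ℂ} (hψ : PC.DP.Std ψ) (hd : d ≤ n) (s : Bool)
    (τ : Representation ℂ (lev F (blk n d)) W) (hτ : IsSm τ) (hc : Cusp (blk n d) τ)
    (E : Submodule ℂ (XnS s τ)) (hE : Stab (InS s τ) E) (m : ℕ) (h1 : 1 ≤ m) (h2 : m < n)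
    (h3 : m ≠ d) (h4 : m ≠ n - d) : PC.DP.KT (V := E) ψ m (subG (InS s τ) E hE) = ⊤ := by
  rw [eq_top_iff]
  intro x _
  refine PC.DP.ex_KT hψ (toGL (InS s τ)) (toGL_smooth _ (InS_smooth s τ)) E _ x ?_
  refine kerJ_le_KT ψ m (InS s τ) ?_
  rw [dead hd s (nsg s τ) (nsg_smooth s τ hτ) (nsg_cusp s τ hc) m h1 h2 h3 h4]
  exact Submodule.mem_top

/-- a vanishing Jacquet module -/
theorem KT_sub_top {ψ : AddChar F ℂ} (hψ : PC.DP.Std ψ) (hd : d ≤ n) (s s₁ : Bool)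
    (τ : Representation ℂ (lev F (blk n d)) W)
    (E : Submodule ℂ (XnS s τ)) (hE : Stab (InS s τ) E)
    (h : ∀ x ∈ E, x ∈ (DS F n d s₁).kerJ (InS s τ)) :
    PC.DP.KT (V := E) ψ (idx n d s₁) (subG (InS s τ) E hE) = ⊤ := by
  rw [eq_top_iff]
  intro y _
  refine PC.DP.ex_KT hψ (toGL (InS s τ)) (toGL_smooth _ (InS_smooth s τ)) E _ y ?_
  have h1 := kerJ_KT ψ hd s₁ (InS s τ) (toGL (InS s τ) (gS F n d hd s₁)⁻¹ y.1)
    (h _ (hE _ _ y.2))
  rw [← Module.End.mul_apply, ← map_mul, mul_inv_cancel, map_one, Module.End.one_apply] at h1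
  exact h1

/-- the position theorem: for `n ≠ 2 d` a degenerate pair does not exist -/
theorem alpha_n {ψ : AddChar F ℂ} (hψ : PC.DP.Std ψ) (hd1 : 1 ≤ d) (hd : d < n)
    (hn : n ≠ d + d) (s s' : Bool) (hs : s' = !s) (τ : Representation ℂ (lev F (blk n d)) W)
    (τ' : Representation ℂ (lev F (blk n d)) W') (hτ : IsSm τ) (hτ' : IsSm τ')
    (hc : Cusp (blk n d) τ) (hc' : Cusp (blk n d) τ') (E : Submodule ℂ (XnS s' τ))
    (hE : Stab (InS s' τ) E) (E' : Submodule ℂ (XnS s τ')) (hE' : Stab (InS s τ') E')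
    (b : E →ₗ[ℂ] E' →ₗ[ℂ] ℂ) (D : DegP ψ s s' τ τ' E hE E' hE' b)
    (h1 : ∀ x ∈ E, x ∈ (DS F n d s).kerJ (InS s' τ))
    (h2 : ∀ x ∈ E', x ∈ (DS F n d s').kerJ (InS s τ')) : False := by
  have hidx : ∀ t : Bool, 1 ≤ idx n d t ∧ idx n d t < n := by
    intro t
    unfold idx
    split_ifs <;> omega
  have hne : idx n d s' ≠ idx n d s := by
    subst hs
    cases s <;> simp only [idx, Bool.not_true, Bool.not_false, if_true] <;>
      simp <;> omega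
  have hcov : ∀ m, m ≠ idx n d s' → m ≠ idx n d s → m ≠ d ∧ m ≠ n - d := by
    subst hs
    intro m
    cases s <;> simp [idx] <;> tauto
  have := pos_eq (V := E) (V' := E') hψ (subG (InS s' τ) E hE) (subG (InS s τ') E' hE')
    (subG_smooth _ (InS_smooth s' τ) E hE) (subG_smooth _ (InS_smooth s τ') E' hE') b D.inv D.left
    D.ne D.deg (idx n d s') (idx n d s) (hidx s').1 (hidx s').2
    (fun m hm1 hm2 hm3 => by
      by_cases hm4 : m = idx n d s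
      · rw [hm4]
        exact KT_sub_top hψ hd.le s' s τ E hE h1
      · obtain ⟨h5, h6⟩ := hcov m hm3 hm4
        exact dead_sub hψ hd.le s' τ hτ hc E hE m hm1 hm2 h5 h6)
    (fun m hm1 hm2 hm3 => by
      by_cases hm4 : m = idx n d s'
      · rw [hm4]
        exact KT_sub_top (std_symm hψ) hd.le s s' τ' E' hE' h2
      · obtain ⟨h5, h6⟩ := hcov m hm4 hm3
        exact dead_sub (std_symm hψ) hd.le s τ' hτ' hc' E' hE' m hm1 hm2 h5 h6)
  exact hne this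

/-- the form `c` for `n = 2 d` -/
theorem alpha_c {ψ : AddChar F ℂ} (hψ : PC.DP.Std ψ) (hd1 : 1 ≤ d) (hd : d ≤ n)
    (hn : n = d + d) (s s' : Bool) (τ : Representation ℂ (lev F (blk n d)) W)
    (τ' : Representation ℂ (lev F (blk n d)) W') (hτ : IsSm τ)
    (hc : Cusp (blk n d) τ) (E : Submodule ℂ (XnS s' τ))
    (hE : Stab (InS s' τ) E) (E' : Submodule ℂ (XnS s τ')) (hE' : Stab (InS s τ') E')
    (b : E →ₗ[ℂ] E' →ₗ[ℂ] ℂ) (D : DegP ψ s s' τ τ' E hE E' hE' b)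
    (h1 : ∀ x ∈ E, evS s' τ x = 0 → x ∈ (DS F n d s').kerJ (InS s' τ))
    (h2 : ∀ x ∈ E', evS s τ' x = 0 → x ∈ (DS F n d s).kerJ (InS s τ')) :
    ∃ c : E →ₗ[ℂ] E' →ₗ[ℂ] ℂ,
      (∀ x : E, evS s' τ x.1 = 0 → ∀ x', c x x' = 0) ∧
      (∀ x' : E', evS s τ' x'.1 = 0 → ∀ x, c x x' = 0) ∧
      (∀ p ∈ PC.DP.GG F n d, ∀ x x',
        c (subG (InS s' τ) E hE ((gS F n d hd s')⁻¹ * p * gS F n d hd s') x)
          (subG (InS s τ') E' hE' ((gS F n d hd s)⁻¹ * p * gS F n d hd s) x') =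
        ((PC.DP.nrm F p.val.det : ℝ) : ℂ) ^ (n - (d + 1)) * c x x') ∧
      (∀ N : E →ₗ[ℂ] E, (∀ g v, N (subG (InS s' τ) E hE g v) = subG (InS s' τ) E hE g (N v)) →
        (∀ x x', c (N x) x' = 0) → N = 0) ∧
      (∀ (T : E →ₗ[ℂ] E) (T' : E' →ₗ[ℂ] E'),
        (∀ g v, T (subG (InS s' τ) E hE g v) = subG (InS s' τ) E hE g (T v)) →
        (∀ g v, T' (subG (InS s τ') E' hE' g v) = subG (InS s τ') E' hE' g (T' v)) →
        (∀ v v', b (T v) v' = b v (T' v')) → ∀ v v', c (T v) v' = c v (T' v')) := by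
  have hdn : d < n := by omega
  have hidx : ∀ t : Bool, idx n d t = d := by
    intro t
    unfold idx
    split_ifs <;> omega
  have hdead : ∀ m, 1 ≤ m → m < n → m ≠ d →
      PC.DP.KT (V := E) ψ m (subG (InS s' τ) E hE) = ⊤ := fun m hm1 hm2 hm3 =>
    dead_sub hψ hd s' τ hτ hc E hE m hm1 hm2 hm3 (by omega)
  obtain ⟨bm, b1, b2, b3, b4, b5, -⟩ := pos_pairing (V := E) (V' := E') hψ
    (subG (InS s' τ) E hE) (subG (InS s τ') E' hE') (subG_smooth _ (InS_smooth s' τ) E hE)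
    (subG_smooth _ (InS_smooth s τ') E' hE') b D.inv D.left D.ne D.deg d hd1 hdn hdead
  set g₁ := gS F n d hd s' with hg₁
  set g₂ := gS F n d hd s with hg₂
  set π₁ := subG (InS s' τ) E hE with hπ₁
  set π₂ := subG (InS s τ') E' hE' with hπ₂
  have k1 : ∀ x : E, evS s' τ x.1 = 0 → π₁ g₁ x ∈ PC.DP.KT (V := E) ψ d π₁ := by
    intro x hx
    refine PC.DP.ex_KT hψ (toGL (InS s' τ)) (toGL_smooth _ (InS_smooth s' τ)) E _ _ ?_
    have := kerJ_KT ψ hd s' (InS s' τ) x.1 (h1 x.1 x.2 hx)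
    rw [hidx] at this
    exact this
  have k2 : ∀ x' : E', evS s τ' x'.1 = 0 → π₂ g₂ x' ∈ PC.DP.KT (V := E') ψ⁻¹ d π₂ := by
    intro x hx
    refine PC.DP.ex_KT (std_symm hψ) (toGL (InS s τ')) (toGL_smooth _ (InS_smooth s τ')) E' _ _ ?_
    have := kerJ_KT ψ⁻¹ hd s (InS s τ') x.1 (h2 x.1 x.2 hx)
    rw [hidx] at this
    exact this
  have inv₁ : ∀ (g h : GL (Fin n) F) (x : E), π₁ g (π₁ h x) = π₁ (g * h) x := by
    intro g h x
    rw [map_mul, Module.End.mul_apply]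
  have inv₂ : ∀ (g h : GL (Fin n) F) (x : E'), π₂ g (π₂ h x) = π₂ (g * h) x := by
    intro g h x
    rw [map_mul, Module.End.mul_apply]
  refine ⟨bm.compl₁₂ (π₁ g₁) (π₂ g₂), ?_, ?_, ?_, ?_, ?_⟩
  · intro x hx x'
    rw [LinearMap.compl₁₂_apply]
    exact b1 _ (k1 x hx) _
  · intro x' hx' x
    rw [LinearMap.compl₁₂_apply]
    exact b2 _ _ (k2 x' hx')
  · intro p hp x x'
    rw [LinearMap.compl₁₂_apply, LinearMap.compl₁₂_apply, ← b3 p hp, inv₁, inv₂, inv₁, inv₂]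
    congr 3 <;> group
  · intro N hN hNc
    refine pos_faith (V := E) hψ π₁ (subG_smooth _ (InS_smooth s' τ) E hE) D.deg d hd1 hdn hdead N hN ?_
    intro v
    refine b4 _ fun v' => ?_
    have e := hNc (π₁ g₁⁻¹ v) (π₂ g₂⁻¹ v')
    rw [LinearMap.compl₁₂_apply, ← hN, inv₁, inv₂, mul_inv_cancel, mul_inv_cancel, map_one,
      map_one, Module.End.one_apply, Module.End.one_apply] at e
    exact e
  · intro T T' hT hT' hTT v v'
    rw [LinearMap.compl₁₂_apply, LinearMap.compl₁₂_apply, ← hT, ← hT']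
    exact b5 T T' hT hT' hTT _ _

end

end PC.D4
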