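import Mathlib
import Pool.Agent.Lib.MP_ca1492_al.D4.DPair
import Pool.Agent.Lib.MP_ca1492_al.D4.TwoA
import Pool.Agent.Lib.MP_ca1492_al.D4.TwoG
import Pool.Agent.Lib.MP_ca1492_al.P.CuspAdm

/-!
# MP_ca1492_al, D4, Delta: values of the modulus character on `diag(g, 1)`, central elements

* `GG_lev`: clear.
* `gS_conj_lev`: conjugation by the swap preserves the Levi subgroup for `n = 2 d`
  (`permG_conj_mem`, `wsw_swap`).
* `dlh_gS`: `dlh_conj` (for `s = false`; `wG = permG w⁻¹ = permG w` for `n = 2 d`), trivial for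
  `s = true`.
* `dlt_GG`: `dlt_vl` with `e` = the value of `dg (patO (one n) (od n d))` on the blocks: this is
  (number of `j` with `o i < o j`) minus (number of `j` with `o j < o i`), up to the sign convention of
  `P/Pat.lean` (check `dg`): on the first block `∓ (n - d)`; `vl` of `diag(g, 1)` is
  `(ordF (det g), 0)`, `det p = det g`, `nrm x = q ^ (-ordF x)`.
* `zz`: the central element `ϖ` on the block `t`, `1` on the other block; `zz_val`: conjugation.
-/

open Topology Pool.Agent.Lib.MP_ca1492_al.P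

namespace PC.D4

noncomputable section

variable {F : Type} [Field F] [ValuativeRel F] [TopologicalSpace F]
  [IsNonarchimedeanLocalField F]
variable {n d : ℕ} {W : Type} [AddCommGroup W] [Module ℂ W]

theorem GG_lev {p : GL (Fin n) F} (hp : p ∈ PC.DP.GG F n d) : p ∈ lev F (blk n d) := by
  intro i j hij
  have h : d ≤ i.1 ∨ d ≤ j.1 := by
    by_contra h
    push Not at h
    apply hij
    simp [blk, h.1, h.2]
  rw [hp i j h, Matrix.one_apply_ne]
  rintro rfl
  exact hij rfl

theorem Delta_blk (hd : d ≤ n) (hn : n = d + d) (i : Fin n) :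
    blk n d ((wsw n d hd)⁻¹ i) = !(blk n d i) := by
  subst hn
  have h0 : (wsw (d + d) d hd)⁻¹ i = (wsw (d + d) d hd).symm i := rfl
  rw [h0]
  by_cases h : i.1 < d
  · simp [blk, wsw, h]
  · have h1 : i.1 - d < d := by omega
    simp [blk, wsw, h, h1]

theorem Delta_wG (hd : d ≤ n) : wG F n d hd = (permG F (wsw n d hd))⁻¹ := by
  unfold wG
  rw [eq_inv_iff_mul_eq_one, ← permG_mul, inv_mul_cancel, permG_one]

theorem gS_conj_lev (hd : d ≤ n) (hn : n = d + d) (s : Bool) {p : GL (Fin n) F}
    (hp : p ∈ lev F (blk n d)) : (gS F n d hd s)⁻¹ * p * gS F n d hd s ∈ lev F (blk n d) := by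
  cases s
  · show (permG F (wsw n d hd)⁻¹)⁻¹ * p * permG F (wsw n d hd)⁻¹ ∈ lev F (blk n d)
    intro i j hij
    rw [permG_conj_apply]
    refine hp _ _ ?_
    rw [Delta_blk hd hn, Delta_blk hd hn]
    exact fun h => hij (Bool.not_inj h)
  · have e : gS F n d hd true = 1 := rfl
    rw [e, inv_one, one_mul, mul_one]
    exact hp

theorem dlh_gS (hd : d ≤ n) (hn : n = d + d) (s : Bool) (p m : lev F (blk n d))
    (hm : m.1 = (gS F n d hd s)⁻¹ * p.1 * gS F n d hd s) :
    dlh (blk n d) (one n) (odS n d s) (blkS_iff n d s) m =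
      dlh (blk n d) (one n) (odS n d true) (blkS_iff n d true) p := by
  cases s
  · have h := dlh_conj (F := F) hd hn true p m ?_
    · exact h
    · rw [hm]
      show (wG F n d hd)⁻¹ * p.1 * wG F n d hd = _
      rw [Delta_wG, inv_inv]
  · have e : m = p := by
      apply Subtype.ext
      rw [hm]
      show (1 : GL (Fin n) F)⁻¹ * p.1 * 1 = p.1
      rw [inv_one, one_mul, mul_one]
    rw [e]

theorem Delta_card (hd : d ≤ n) :
    (Finset.univ.filter fun i : Fin n => i.1 < d).card = d := by
  have h : (Finset.univ.filter fun i : Fin n => i.1 < d) =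
      Finset.univ.map (Fin.castLEEmb hd) := by
    ext i
    simp only [Finset.mem_filter, Finset.mem_univ, true_and, Finset.mem_map]
    constructor
    · intro h
      exact ⟨⟨i.1, h⟩, rfl⟩
    · rintro ⟨j, rfl⟩
      exact j.2
  rw [h, Finset.card_map, Finset.card_univ, Fintype.card_fin]

theorem Delta_card' (hd : d ≤ n) :
    (Finset.univ.filter fun i : Fin n => ¬ i.1 < d).card = n - d := by
  have h := Finset.card_filter_add_card_filter_not (s := (Finset.univ : Finset (Fin n)))
    (fun i : Fin n => i.1 < d)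
  rw [Delta_card hd, Finset.card_univ, Fintype.card_fin] at h
  omega

theorem Delta_dg (hd : d ≤ n) (i : Fin n) :
    (fun x : Bool => if x = true then ((n - d : ℕ) : ℤ) else -(d : ℤ)) (blk n d i) =
      dg (patO (one n) (odS n d true)) i := by
  classical
  unfold dg
  by_cases h : i.1 < d
  · have h1 : (Finset.univ.filter fun j => (patO (one n) (odS n d true)).r i j) =
        Finset.univ.filter fun i : Fin n => ¬ i.1 < d := by
      refine Finset.filter_congr fun j _ => ?_
      by_cases hj : j.1 < d <;> simp [patO, one, odS, od, h, hj]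
    have h2 : (Finset.univ.filter fun j => (patO (one n) (odS n d true)).r j i) = ∅ := by
      refine Finset.filter_false_of_mem fun j _ => ?_
      by_cases hj : j.1 < d <;> simp [patO, one, odS, od, h, hj]
    rw [h1, h2, Delta_card' hd]
    simp [blk, h]
  · have h1 : (Finset.univ.filter fun j => (patO (one n) (odS n d true)).r i j) = ∅ := by
      refine Finset.filter_false_of_mem fun j _ => ?_
      by_cases hj : j.1 < d <;> simp [patO, one, odS, od, h, hj]
    have h2 : (Finset.univ.filter fun j => (patO (one n) (odS n d true)).r j i) =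
        Finset.univ.filter fun i : Fin n => i.1 < d := by
      refine Finset.filter_congr fun j _ => ?_
      by_cases hj : j.1 < d <;> simp [patO, one, odS, od, h, hj]
    rw [h1, h2, Delta_card hd]
    simp [blk, h]

theorem Delta_empty (c : Fin n → Bool) (x : Bool) (g : GL (Fin n) F)
    (h : x ∉ Finset.univ.image c) : vl c g x = 0 := by
  have h1 : IsEmpty {i // c i = x} := by
    rw [isEmpty_subtype]
    exact fun i hi => h (Finset.mem_image.2 ⟨i, Finset.mem_univ i, hi⟩)
  unfold vl bdet
  rw [Matrix.det_isEmpty, ordF_one]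

theorem Delta_vl_false {p : GL (Fin n) F} (hp : p ∈ PC.DP.GG F n d) :
    vl (blk n d) p false = 0 := by
  unfold vl bdet
  have h1 : ((p : Matrix (Fin n) (Fin n) F).submatrix
      (Subtype.val : {i // blk n d i = false} → Fin n)
      (Subtype.val : {i // blk n d i = false} → Fin n)) = 1 := by
    ext i j
    have hi : d ≤ i.1.1 := by
      have := i.2
      simpa [blk] using this
    rw [Matrix.submatrix_apply]
    have h2 : (p : Matrix (Fin n) (Fin n) F) i.1 j.1 = (1 : Matrix (Fin n) (Fin n) F) i.1 j.1 :=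
      hp i.1 j.1 (Or.inl hi)
    rw [h2, Matrix.one_apply, Matrix.one_apply]
    congr 1
    exact propext ⟨fun h => Subtype.ext h, fun h => by rw [h]⟩
  rw [h1, Matrix.det_one, ordF_one]

theorem Delta_vl_true {p : GL (Fin n) F} (hp : p ∈ PC.DP.GG F n d) :
    vl (blk n d) p true = ordF F p.val.det := by
  have h1 := Matrix.twoBlockTriangular_det p.val (fun i => blk n d i = true) (by
    intro i hi j hj
    have hi' : d ≤ i.1 := by
      simpa [blk] using hi
    have h2 : p.val i j = (1 : Matrix (Fin n) (Fin n) F) i j := hp i j (Or.inl hi')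
    rw [h2, Matrix.one_apply_ne]
    rintro rfl
    exact hi hj)
  have h3 : (p.val.toSquareBlockProp fun i => ¬ blk n d i = true) = 1 := by
    ext i j
    have hi : d ≤ i.1.1 := by
      have := i.2
      simpa [blk] using this
    have h2 : p.val i.1 j.1 = (1 : Matrix (Fin n) (Fin n) F) i.1 j.1 := hp i.1 j.1 (Or.inl hi)
    show p.val i.1 j.1 = _
    rw [h2, Matrix.one_apply, Matrix.one_apply]
    congr 1
    exact propext ⟨fun h => Subtype.ext h, fun h => by rw [h]⟩
  rw [h3, Matrix.det_one, mul_one] at h1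
  unfold vl bdet
  rw [h1]
  rfl

theorem dlt_GG (hd : d ≤ n) (p : lev F (blk n d)) (hp : p.1 ∈ PC.DP.GG F n d) :
    (dlt (blk n d) (one n) (odS n d true) (blkS_iff n d true) p : ℂ) =
      ((PC.DP.nrm F p.1.val.det : ℝ) : ℂ) ^ (n - d) := by
  rw [dlt_vl (blk n d) (one n) (odS n d true) (blkS_iff n d true)
    (fun x : Bool => if x = true then ((n - d : ℕ) : ℤ) else -(d : ℤ)) (Delta_dg hd) p]
  have h1 : ∑ x ∈ Finset.univ.image (blk n d),
      (fun x : Bool => if x = true then ((n - d : ℕ) : ℤ) else -(d : ℤ)) x *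
        vl (blk n d) p.1 x = ((n - d : ℕ) : ℤ) * ordF F p.1.val.det := by
    rw [Finset.sum_subset (Finset.subset_univ _)]
    · rw [Fintype.sum_bool, Delta_vl_true hp, Delta_vl_false hp, mul_zero, add_zero]
      simp
    · intro x _ hx
      rw [Delta_empty _ _ _ hx, mul_zero]
  have hdet : p.1.val.det ≠ 0 := by
    have h2 : IsUnit p.1.val.det := (Matrix.isUnit_iff_isUnit_det _).1 p.1.isUnit
    exact h2.ne_zero
  rw [h1]
  unfold PC.DP.nrm
  rw [if_neg hdet, ← Complex.ofReal_pow]
  congr 1
  rw [← zpow_natCast, ← zpow_mul]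
  congr 1
  ring

/-- the central element with `ϖ` on the block `t` -/
def zz (F : Type) [Field F] [ValuativeRel F] [TopologicalSpace F]
    [IsNonarchimedeanLocalField F] (n d : ℕ) (t : Bool) : lev F (blk n d) :=
  dial F (blk n d) (fun i => (fun x : Bool => if x = t then (1 : ℤ) else 0) (blk n d i))

theorem Delta_zz_apply (t : Bool) (i j : Fin n) : (zz F n d t).1.val i j =
    if i = j then unifF F ^ (if blk n d i = t then (1 : ℤ) else 0) else 0 := by
  show ((dia F _ : GL (Fin n) F) : Matrix (Fin n) (Fin n) F) i j = _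
  rw [dia_apply]

theorem zz_GG : (zz F n d true).1 ∈ PC.DP.GG F n d := by
  intro i j hij
  rw [Delta_zz_apply, Matrix.one_apply]
  by_cases h : i = j
  · subst h
    have h1 : ¬ i.1 < d := by omega
    simp [blk, h1]
  · rw [if_neg h, if_neg h]

theorem zz_conj (hd : d ≤ n) (hn : n = d + d) (s : Bool) :
    (gS F n d hd s)⁻¹ * (zz F n d true).1 * gS F n d hd s = (zz F n d s).1 := by
  cases s
  · show (permG F (wsw n d hd)⁻¹)⁻¹ * (zz F n d true).1 * permG F (wsw n d hd)⁻¹ = _
    apply Units.ext
    ext i j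
    rw [permG_conj_apply, Delta_zz_apply, Delta_zz_apply, Delta_blk hd hn]
    simp only [EmbeddingLike.apply_eq_iff_eq]
    congr 2
    cases blk n d i <;> simp
  · show (1 : GL (Fin n) F)⁻¹ * (zz F n d true).1 * 1 = _
    rw [inv_one, one_mul, mul_one]

theorem zz_vl (hd : d ≤ n) (hn : n = d + d) (t : Bool) :
    vl (blk n d) (zz F n d t).1 t = d ∧ vl (blk n d) (zz F n d t).1 (!t) = 0 := by
  have h0 : ∀ x, vl (blk n d) (zz F n d t).1 x =
      ∑ i ∈ Finset.univ.filter (fun i => blk n d i = x),
        (fun x : Bool => if x = t then (1 : ℤ) else 0) (blk n d i) := fun x => vl_dia _ _ x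
  constructor
  · rw [h0, Finset.sum_congr rfl (g := fun _ => (1 : ℤ))]
    · rw [Finset.sum_const, nsmul_eq_mul, mul_one]
      cases t
      · have e : (Finset.univ.filter fun i : Fin n => blk n d i = false) =
            Finset.univ.filter fun i : Fin n => ¬ i.1 < d := by
          refine Finset.filter_congr fun i _ => ?_
          simp [blk]
        rw [e, Delta_card' hd]
        omega
      · have e : (Finset.univ.filter fun i : Fin n => blk n d i = true) =
            Finset.univ.filter fun i : Fin n => i.1 < d := by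
          refine Finset.filter_congr fun i _ => ?_
          simp [blk]
        rw [e, Delta_card hd]
    · intro i hi
      simp only [(Finset.mem_filter.1 hi).2, if_true]
  · rw [h0]
    refine Finset.sum_eq_zero fun i hi => ?_
    simp only [(Finset.mem_filter.1 hi).2]
    cases t <;> simp

/-- central character -/
theorem zz_scalar (ρ : Representation ℂ (lev F (blk n d)) W) (hρ : IsSm ρ) (hi : Irr ρ)
    (hc : Cusp (blk n d) ρ) (t : Bool) :
    ∃ z : ℂ, z ≠ 0 ∧ ∀ v, ρ (zz F n d t) v = z • v :=
  cusp_central (blk n d) ρ hρ hi hc (fun x : Bool => if x = t then (1 : ℤ) else 0)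

/-- conjugation by the swap of the blocks -/
theorem Delta_cj (hd : d ≤ n) (hn : n = d + d) (m : lev F (blk n d)) :
    permG F (wsw n d hd) * m.1 * (permG F (wsw n d hd))⁻¹ ∈ lev F (blk n d) := by
  have h := gS_conj_lev hd hn false m.2
  have e : gS F n d hd false = (permG F (wsw n d hd))⁻¹ := Delta_wG hd
  rw [e, inv_inv] at h
  exact h

/-- conjugation by the swap of the blocks as a homomorphism -/
def Delta_H (hd : d ≤ n) (hn : n = d + d) : lev F (blk n d) →* lev F (blk n d) where
  toFun m := ⟨permG F (wsw n d hd) * m.1 * (permG F (wsw n d hd))⁻¹, Delta_cj hd hn m⟩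
  map_one' := by
    apply Subtype.ext
    show permG F (wsw n d hd) * 1 * (permG F (wsw n d hd))⁻¹ = 1
    rw [mul_one, mul_inv_cancel]
  map_mul' := by
    intro a b
    apply Subtype.ext
    show permG F (wsw n d hd) * (a.1 * b.1) * (permG F (wsw n d hd))⁻¹ =
      permG F (wsw n d hd) * a.1 * (permG F (wsw n d hd))⁻¹ *
        (permG F (wsw n d hd) * b.1 * (permG F (wsw n d hd))⁻¹)
    group

theorem Delta_H_val (hd : d ≤ n) (hn : n = d + d) (m : lev F (blk n d)) :
    (Delta_H hd hn m).1 = permG F (wsw n d hd) * m.1 * (permG F (wsw n d hd))⁻¹ := rfl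

theorem Delta_H_H (hd : d ≤ n) (hn : n = d + d) (m : lev F (blk n d)) :
    Delta_H hd hn (Delta_H hd hn m) = m := by
  apply Subtype.ext
  rw [Delta_H_val, Delta_H_val]
  have h := permG_wsw_sq (F := F) hd hn
  have h2 : (permG F (wsw n d hd))⁻¹ = permG F (wsw n d hd) := inv_eq_of_mul_eq_one_left h
  rw [h2]
  calc permG F (wsw n d hd) * (permG F (wsw n d hd) * m.1 * permG F (wsw n d hd)) *
        permG F (wsw n d hd)
      = (permG F (wsw n d hd) * permG F (wsw n d hd)) * m.1 *
        (permG F (wsw n d hd) * permG F (wsw n d hd)) := by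
        simp only [mul_assoc]
    _ = m.1 := by rw [h, one_mul, mul_one]

theorem Delta_H_cont (hd : d ≤ n) (hn : n = d + d) :
    Continuous (Delta_H (F := F) hd hn) :=
  Continuous.subtype_mk ((continuous_const.mul continuous_subtype_val).mul continuous_const) _

/-- `n = 2 d`: non isomorphism for the dual -/
theorem niso_dual (hd : d ≤ n) (hn : n = d + d) {W' : Type} [AddCommGroup W'] [Module ℂ W']
    (ρ : Representation ℂ (lev F (blk n d)) W) (ρ' : Representation ℂ (lev F (blk n d)) W')
    (hρ : IsSm ρ) (hρ' : IsSm ρ') (ha' : Adm ρ') (β : W →ₗ[ℂ] W' →ₗ[ℂ] ℂ)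
    (hβ : ∀ g v v', β (ρ g v) (ρ' g v') = β v v') (hl : ∀ v, (∀ v', β v v' = 0) → v = 0)
    (hr : ∀ v', (∀ v, β v v' = 0) → v' = 0) (h : NIso hd ρ) : NIso hd ρ' := by
  intro T' hT'
  have hTT : ∀ m e, T' (ρ' m e) = ρ' (Delta_H hd hn m) (T' e) := fun m e =>
    hT' m (Delta_H hd hn m) rfl e
  have hPai : Pai ρ' ρ β.flip := ⟨fun g v' v => hβ g v v', hr, hl⟩
  have huniq : ∀ x y, (∀ v', β x v' = β y v') → x = y := by
    intro x y hxy
    refine sub_eq_zero.1 (hl _ fun v' => ?_)
    rw [map_sub, LinearMap.sub_apply, hxy v', sub_self]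
  have hex : ∀ v : W, ∃ x : W, ∀ v', β v (T' v') = β x v' := by
    intro v
    have hmem : (β v) ∘ₗ T' ∈ dualSp ρ' := by
      refine ⟨(stabV ρ v).comap (Delta_H hd hn), ?_, fun u hu v' => ?_⟩
      · exact (show IsOpen (stabV ρ v : Set (lev F (blk n d))) from hρ v).preimage
          (Delta_H_cont hd hn)
      · show β v (T' (ρ' u v')) = β v (T' v')
        have h1 : ρ (Delta_H hd hn u) v = v := hu
        rw [hTT]
        conv_lhs => rw [← h1]
        rw [hβ]
    obtain ⟨x, hx⟩ := pai_surj (lev_hasCO (blk n d)) ρ' ρ hρ' hρ ha' β.flip hPai ⟨_, hmem⟩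
    exact ⟨x, fun v' => hx v'⟩
  choose T0 hT0 using hex
  obtain ⟨T, hT⟩ : ∃ T : W →ₗ[ℂ] W, ∀ v, T v = T0 v := by
    refine ⟨{ toFun := T0
              map_add' := fun a b => huniq _ _ fun v' => ?_
              map_smul' := fun c a => huniq _ _ fun v' => ?_ }, fun v => rfl⟩
    · rw [← hT0, map_add, map_add, LinearMap.add_apply, LinearMap.add_apply, hT0, hT0]
    · rw [← hT0, RingHom.id_apply, map_smul, map_smul, LinearMap.smul_apply,
        LinearMap.smul_apply, hT0]
  have hz : T = 0 := by
    refine h T fun m m' hm e => ?_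
    rw [hT, hT]
    have hm' : m' = Delta_H hd hn m := Subtype.ext hm
    have hm2 : Delta_H hd hn m' = m := by rw [hm', Delta_H_H]
    refine huniq _ _ fun v' => ?_
    have e1 : v' = ρ' m' (ρ' m'⁻¹ v') := by
      rw [← Module.End.mul_apply, ← map_mul, mul_inv_cancel, map_one, Module.End.one_apply]
    have e2 : T' v' = ρ' m (ρ' m⁻¹ (T' v')) := by
      rw [← Module.End.mul_apply, ← map_mul, mul_inv_cancel, map_one, Module.End.one_apply]
    have e3 : β (ρ m' (T0 e)) v' = β (T0 e) (ρ' m'⁻¹ v') := by
      conv_lhs => rw [e1]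
      rw [hβ]
    rw [e3, ← hT0, ← hT0, hTT, map_inv, hm2, e2, hβ]
    rw [← e2]
  refine LinearMap.ext fun v' => hr _ fun v => ?_
  rw [hT0, ← hT, hz, LinearMap.zero_apply, map_zero, LinearMap.zero_apply]

end

end PC.D4
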