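import Mathlib
import Pool.Agent.Lib.MP_ca1492_al.D4.TwoD
import Pool.Agent.Lib.MP_ca1492_al.D4.TwoE
import Pool.Agent.Lib.MP_ca1492_al.D4.TwoG

/-!
# MP_ca1492_al, D4, TwoF: stable subspaces killed by an intertwining map

`Φ = evS (!s) ρ ∘ B` kills `kerJ_{!s}` (`PD.kerJ_map`, `evS_kerJ`).
`tcA`: by `LatA.b` (`latA_X`) `R ≤ kerJ_{!s}` or `R ⊔ kerJ_{!s} = ⊤`; in the second case `Φ = 0` (it kills `R`
and `kerJ_{!s}`) and `B = 0` (`evS_zero`).
`tcB`: put `Φ_w x = Φ (π w x)`, `w = permG (wsw n d hd)`, `π = InS s ρ`; it kills `kerJ_s` (`kerJ_conj'` for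
`!s`), and it kills `R`. By `LatB.b` (`latB_X`) `R ⊓ N ≤ K` or `N ≤ R ⊔ K`. In the second case
`Φ_w` kills `N = ker ev`, so `Φ_w = θ ∘ ev` (`evS_surj`), `θ (nsg s ρ m e) = nsg (!s) ρ (w m w⁻¹) (θ e)`;
`dlh` for `!s` at `w m w⁻¹` is `dlh` for `s` at `m` (`dlh_conj`), so `θ (ρ m e) = ρ (w m w⁻¹) (θ e)` and
`θ = 0` by `NIso`, `Φ = 0`, `B = 0`.
-/

open Topology Pool.Agent.Lib.MP_ca1492_al.P

namespace PC.D4

noncomputable section

variable {F : Type} [Field F] [ValuativeRel F] [TopologicalSpace F]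
  [IsNonarchimedeanLocalField F]
variable {n d : ℕ} {W : Type} [AddCommGroup W] [Module ℂ W]

theorem tcA (hd1 : 1 ≤ d) (hd : d < n) (hn : n ≠ d + d) (s : Bool)
    (ρ : Representation ℂ (lev F (blk n d)) W) (hρ : IsSm ρ) (hi : Irr ρ)
    (hc : Cusp (blk n d) ρ) (B : XnS s ρ →ₗ[ℂ] XnS (!s) ρ) (hB : Equi (InS s ρ) (InS (!s) ρ) B)
    (hB0 : B ≠ 0) (R : Submodule ℂ (XnS s ρ)) (hR : Stab (InS s ρ) R) (hBR : ∀ x ∈ R, B x = 0) :
    R ≤ (DS F n d (!s)).kerJ (InS s ρ) := by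
  rcases (latA_X hd1 hd hn s ρ hρ hi hc).b R hR with h | h
  · exact h
  · exfalso
    apply hB0
    apply LinearMap.ext
    intro v
    refine evS_zero (!s) ρ (InS s ρ) B hB v fun g => ?_
    have h1 : InS s ρ g v ∈ R ⊔ (DS F n d (!s)).kerJ (InS s ρ) := by
      rw [h]
      exact Submodule.mem_top
    obtain ⟨r, hr, k, hk, e⟩ := Submodule.mem_sup.1 h1
    rw [← e, map_add, hBR r hr, zero_add]
    have h2 := Submodule.mem_comap.1 ((DS F n d (!s)).kerJ_map _ _ B hB hk)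
    exact evS_kerJ (!s) ρ _ h2

theorem tcB (hd1 : 1 ≤ d) (hd : d ≤ n) (hn : n = d + d) (s : Bool)
    (ρ : Representation ℂ (lev F (blk n d)) W) (hρ : IsSm ρ) (hi : Irr ρ)
    (hc : Cusp (blk n d) ρ) (hni : NIso hd ρ) (B : XnS s ρ →ₗ[ℂ] XnS (!s) ρ)
    (hB : Equi (InS s ρ) (InS (!s) ρ) B) (hB0 : B ≠ 0) (R : Submodule ℂ (XnS s ρ))
    (hR : Stab (InS s ρ) R) (hBR : ∀ x ∈ R, B x = 0) (x : XnS s ρ) (hx : x ∈ R)
    (hx0 : evS s ρ x = 0) : x ∈ (DS F n d s).kerJ (InS s ρ) := by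
  have L := latB_X hd1 hd hn s ρ hρ hi hc hni
  rcases L.b R hR with h | h
  · exact h ⟨hx, hx0⟩
  · exfalso
    obtain ⟨w, hw⟩ : ∃ w : GL (Fin n) F, w = permG F (wsw n d hd) := ⟨_, rfl⟩
    -- the map
    obtain ⟨Φ, hΦa⟩ : ∃ Φ : XnS s ρ →ₗ[ℂ] W, ∀ v, Φ v = evS (!s) ρ (B (InS s ρ (toTop w) v)) :=
      ⟨evS (!s) ρ ∘ₗ B ∘ₗ InS s ρ (toTop w), fun v => rfl⟩
    have hK : ∀ v ∈ (DS F n d s).kerJ (InS s ρ), Φ v = 0 := by
      intro v hv
      rw [hΦa]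
      have h1 : v ∈ (DS F n d (!(!s))).kerJ (InS s ρ) := by
        rw [Bool.not_not]
        exact hv
      have h2 := (kerJ_conj' hd hn (!s) (InS s ρ) v).1 h1
      rw [← hw] at h2
      have h3 := Submodule.mem_comap.1 ((DS F n d (!s)).kerJ_map _ _ B hB h2)
      exact evS_kerJ (!s) ρ _ h3
    have hRz : ∀ v ∈ R, Φ v = 0 := by
      intro v hv
      rw [hΦa, hBR _ (hR _ v hv), map_zero]
    have hN : ∀ v, evS s ρ v = 0 → Φ v = 0 := by
      intro v hv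
      obtain ⟨r, hr, k, hk, e⟩ := Submodule.mem_sup.1 (h (LinearMap.mem_ker.2 hv))
      rw [← e, map_add, hRz r hr, hK k hk, zero_add]
    obtain ⟨g, hg⟩ := (evS s ρ).exists_rightInverse_of_surjective
      (LinearMap.range_eq_top.2 (evS_surj s ρ hρ))
    have hg' : ∀ e, evS s ρ (g e) = e := fun e => LinearMap.congr_fun hg e
    obtain ⟨θ, hΦθ⟩ : ∃ θ : W →ₗ[ℂ] W, ∀ v, Φ v = θ (evS s ρ v) := by
      refine ⟨Φ ∘ₗ g, fun v => ?_⟩
      have h1 : Φ (v - g (evS s ρ v)) = 0 := hN _ (by rw [map_sub, hg', sub_self])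
      rw [map_sub, sub_eq_zero] at h1
      exact h1
    have hθ0 : θ = 0 := by
      apply hni θ
      intro m m' hm e
      have hdl := dlh_conj hd hn s m m' hm
      rw [← hw] at hm
      obtain ⟨v, rfl⟩ := evS_surj s ρ hρ e
      have h1 : θ (nsg s ρ m (evS s ρ v)) = nsg (!s) ρ m' (θ (evS s ρ v)) := by
        rw [← evS_equi, ← hΦθ, ← hΦθ, hΦa, hΦa]
        have e1 : toTop w * ⟨m.1, (DS F n d s).hM m.2⟩ =
            (⟨m'.1, (DS F n d (!s)).hM m'.2⟩ : lev F (one n)) * toTop w := by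
          apply Subtype.ext
          show w * m.1 = m'.1 * w
          rw [hm, inv_mul_cancel_right]
        have e2 : InS s ρ (toTop w) (InS s ρ ⟨m.1, (DS F n d s).hM m.2⟩ v) =
            InS s ρ ⟨m'.1, (DS F n d (!s)).hM m'.2⟩ (InS s ρ (toTop w) v) := by
          rw [← Module.End.mul_apply, ← map_mul, e1, map_mul, Module.End.mul_apply]
        rw [e2, hB, evS_equi]
      have h2 : θ ((dlh (blk n d) (one n) (odS n d s) (blkS_iff n d s) m : ℂ) •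
          ρ m (evS s ρ v)) = (dlh (blk n d) (one n) (odS n d (!s)) (blkS_iff n d (!s)) m' : ℂ) •
          ρ m' (θ (evS s ρ v)) := h1
      rw [hdl, map_smul] at h2
      exact smul_right_injective _ (Units.ne_zero _) h2
    apply hB0
    apply LinearMap.ext
    intro v
    refine evS_zero (!s) ρ (InS s ρ) B hB v fun k => ?_
    have h1 := hΦθ (InS s ρ (toTop w)⁻¹ (InS s ρ k v))
    rw [hθ0, LinearMap.zero_apply, hΦa] at h1
    have e2 : InS s ρ (toTop w) (InS s ρ (toTop w)⁻¹ (InS s ρ k v)) = InS s ρ k v := by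
      rw [← Module.End.mul_apply, ← map_mul, mul_inv_cancel, map_one, Module.End.one_apply]
    rw [e2] at h1
    exact h1

end

end PC.D4
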