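import Mathlib
import Pool.Agent.Lib.MP_ca1492_al.D4.AlphaA
import Pool.Agent.Lib.MP_ca1492_al.D4.Delta
import Pool.Agent.Lib.MP_ca1492_al.D4.TwoF

/-!
# MP_ca1492_al, D4, AlphaB: the conclusion (i-a) in the degenerate case
-/

open Topology Pool.Agent.Lib.MP_ca1492_al.P

namespace PC.D4

noncomputable section

variable {F : Type} [Field F] [ValuativeRel F] [TopologicalSpace F]
  [IsNonarchimedeanLocalField F]
variable {n d : ℕ} {W W' : Type} [AddCommGroup W] [Module ℂ W] [AddCommGroup W'] [Module ℂ W']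

/-- the standing hypotheses on the two representations of the Levi subgroup -/
structure Dual2 (hd : d ≤ n) (ρ : Representation ℂ (lev F (blk n d)) W)
    (ρ' : Representation ℂ (lev F (blk n d)) W') (β : W →ₗ[ℂ] W' →ₗ[ℂ] ℂ) : Prop where
  pai : Pai ρ ρ' β
  sm : IsSm ρ
  sm' : IsSm ρ'
  irr : Irr ρ
  irr' : Irr ρ'
  cusp : Cusp (blk n d) ρ
  cusp' : Cusp (blk n d) ρ'
  ni : n = d + d → NIso hd ρ
  ni' : n = d + d → NIso hd ρ'

theorem Dual2.flip {hd : d ≤ n} {ρ : Representation ℂ (lev F (blk n d)) W}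
    {ρ' : Representation ℂ (lev F (blk n d)) W'} {β : W →ₗ[ℂ] W' →ₗ[ℂ] ℂ}
    (H : Dual2 hd ρ ρ' β) : Dual2 hd ρ' ρ β.flip :=
  ⟨H.pai.flip, H.sm', H.sm, H.irr', H.irr, H.cusp', H.cusp, H.ni', H.ni⟩

/-- `E ⊓ ker ev ≤ kerJ` for a stable subspace killed by a nonzero intertwining map (`n = 2 d`) -/
theorem tc0 (hd1 : 1 ≤ d) (hd : d ≤ n) (hn : n = d + d) (s s' : Bool) (hs : s' = !s)
    (ρ : Representation ℂ (lev F (blk n d)) W) (hρ : IsSm ρ) (hi : Irr ρ)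
    (hc : Cusp (blk n d) ρ) (hni : NIso hd ρ) (B : XnS s ρ →ₗ[ℂ] XnS s' ρ)
    (hB : Equi (InS s ρ) (InS s' ρ) B) (hB0 : B ≠ 0) (R : Submodule ℂ (XnS s ρ))
    (hR : Stab (InS s ρ) R) (hBR : ∀ x ∈ R, B x = 0) (x : XnS s ρ) (hx : x ∈ R)
    (hx0 : evS s ρ x = 0) : x ∈ (DS F n d s).kerJ (InS s ρ) := by
  subst hs
  exact tcB hd1 hd hn s ρ hρ hi hc hni B hB hB0 R hR hBR x hx hx0

theorem tc1 (hd1 : 1 ≤ d) (hd : d < n) (hn : n ≠ d + d) (s s' : Bool) (hs : s' = !s)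
    (ρ : Representation ℂ (lev F (blk n d)) W) (hρ : IsSm ρ) (hi : Irr ρ)
    (hc : Cusp (blk n d) ρ) (B : XnS s ρ →ₗ[ℂ] XnS s' ρ) (hB : Equi (InS s ρ) (InS s' ρ) B)
    (hB0 : B ≠ 0) (R : Submodule ℂ (XnS s ρ)) (hR : Stab (InS s ρ) R) (hBR : ∀ x ∈ R, B x = 0) :
    R ≤ (DS F n d s').kerJ (InS s ρ) := by
  subst hs
  exact tcA hd1 hd hn s ρ hρ hi hc B hB hB0 R hR hBR

/-- the degenerate pair of a `Sys0` -/
theorem Sys0.degP {hd : d ≤ n} {s s' : Bool} {ρ : Representation ℂ (lev F (blk n d)) W}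
    {ρ' : Representation ℂ (lev F (blk n d)) W'} {β : W →ₗ[ℂ] W' →ₗ[ℂ] ℂ}
    (H : Dual2 hd ρ ρ' β) (S : Sys0 s s' ρ ρ' β) {ψ : AddChar F ℂ} (hD : S.Dg ψ) :
    ∃ b, DegP ψ s s' ρ ρ' (LinearMap.range S.A) (stab_range S.eA) (LinearMap.range S.A')
      (stab_range S.eA') b := by
  obtain ⟨b, hb, -⟩ := imB (InS s ρ) (InS s ρ') (InS s' ρ) (InS s' ρ') (bS s ρ ρ' β)
    (bS s' ρ ρ' β) (pai_ind s ρ ρ' H.sm H.sm' β H.pai) (pai_ind s' ρ ρ' H.sm H.sm' β H.pai)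
    S.A S.A' S.eA S.eA' S.adA
  refine ⟨b, ⟨fun g v v' => hb.inv (toTop g) v v', hb.left, ?_, hD⟩⟩
  by_contra hall
  push Not at hall
  apply S.A0
  apply LinearMap.ext
  intro v
  exact congrArg Subtype.val (hall ⟨S.A v, v, rfl⟩)

/-- the form on the representations of the Levi subgroup -/
theorem alpha_beta {ψ : AddChar F ℂ} (hψ : PC.DP.Std ψ) (hd1 : 1 ≤ d) (hd : d ≤ n)
    (hn : n = d + d) (s s' : Bool) (ρ : Representation ℂ (lev F (blk n d)) W)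
    (ρ' : Representation ℂ (lev F (blk n d)) W') (hρ : IsSm ρ) (hi : Irr ρ) (hi' : Irr ρ')
    (hc : Cusp (blk n d) ρ) (E : Submodule ℂ (XnS s' ρ))
    (hE : Stab (InS s' ρ) E) (E' : Submodule ℂ (XnS s ρ')) (hE' : Stab (InS s ρ') E')
    (hE0 : E ≠ ⊥) (hE0' : E' ≠ ⊥)
    (b : E →ₗ[ℂ] E' →ₗ[ℂ] ℂ) (D : DegP ψ s s' ρ ρ' E hE E' hE' b)
    (h1 : ∀ x ∈ E, evS s' ρ x = 0 → x ∈ (DS F n d s').kerJ (InS s' ρ))
    (h2 : ∀ x ∈ E', evS s ρ' x = 0 → x ∈ (DS F n d s).kerJ (InS s ρ')) :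
    ∃ β₀ : W →ₗ[ℂ] W' →ₗ[ℂ] ℂ, β₀ ≠ 0 ∧
      ∀ p ∈ PC.DP.GG F n d, ∀ m₁ m₂ : lev F (blk n d),
        m₁.1 = (gS F n d hd s')⁻¹ * p * gS F n d hd s' →
        m₂.1 = (gS F n d hd s)⁻¹ * p * gS F n d hd s →
        ∀ e e', ((PC.DP.nrm F p.val.det : ℝ) : ℂ) * β₀ (ρ m₁ e) (ρ' m₂ e') = β₀ e e' := by
  obtain ⟨c, c1, c2, c3, c4, -⟩ := alpha_c hψ hd1 hd hn s s' ρ ρ' hρ hc E hE E' hE' b D h1 h2
  -- evaluations are onto
  set ev1 : E →ₗ[ℂ] W := evS s' ρ ∘ₗ E.subtype with hev1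
  set ev2 : E' →ₗ[ℂ] W' := evS s ρ' ∘ₗ E'.subtype with hev2
  have s1 : Function.Surjective ev1 := by
    intro e
    obtain ⟨f, hf, hfe⟩ := evS_irr s' ρ hi E hE hE0 e
    exact ⟨⟨f, hf⟩, hfe⟩
  have s2 : Function.Surjective ev2 := by
    intro e
    obtain ⟨f, hf, hfe⟩ := evS_irr s ρ' hi' E' hE' hE0' e
    exact ⟨⟨f, hf⟩, hfe⟩
  obtain ⟨r1, hr1⟩ := LinearMap.exists_rightInverse_of_surjective ev1
    (LinearMap.range_eq_top.2 s1)
  obtain ⟨r2, hr2⟩ := LinearMap.exists_rightInverse_of_surjective ev2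
    (LinearMap.range_eq_top.2 s2)
  have hr1' : ∀ e, ev1 (r1 e) = e := fun e => LinearMap.congr_fun hr1 e
  have hr2' : ∀ e, ev2 (r2 e) = e := fun e => LinearMap.congr_fun hr2 e
  have key : ∀ x x', c (r1 (ev1 x)) (r2 (ev2 x')) = c x x' := by
    intro x x'
    have e1 : c (r1 (ev1 x) - x) (r2 (ev2 x')) = 0 := by
      refine c1 _ ?_ _
      have := LinearMap.map_sub ev1 (r1 (ev1 x)) x
      rw [hr1', sub_self] at this
      exact this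
    have e2 : c x (r2 (ev2 x') - x') = 0 := by
      refine c2 _ ?_ _
      have := LinearMap.map_sub ev2 (r2 (ev2 x')) x'
      rw [hr2', sub_self] at this
      exact this
    have e3 : c (r1 (ev1 x)) (r2 (ev2 x')) - c x (r2 (ev2 x')) = 0 :=
      (LinearMap.congr_fun (LinearMap.map_sub c (r1 (ev1 x)) x) (r2 (ev2 x'))).symm.trans e1
    have e4 : c x (r2 (ev2 x')) - c x x' = 0 :=
      (LinearMap.map_sub (c x) (r2 (ev2 x')) x').symm.trans e2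
    rw [sub_eq_zero.1 e3, sub_eq_zero.1 e4]
  refine ⟨c.compl₁₂ r1 r2, ?_, ?_⟩
  · intro h0
    have h1 : (LinearMap.id : E →ₗ[ℂ] E) = 0 := by
      refine c4 LinearMap.id (fun _ _ => rfl) fun x x' => ?_
      rw [LinearMap.id_apply, ← key]
      have := LinearMap.congr_fun (LinearMap.congr_fun h0 (ev1 x)) (ev2 x')
      exact this
    obtain ⟨v, hv⟩ := D.ne
    exact hv (LinearMap.congr_fun h1 v)
  · intro p hp m₁ m₂ h₁ h₂ e e'
    have hk := c3 p hp (r1 e) (r2 e')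
    rw [← key] at hk
    have e1 : ev1 (subG (InS s' ρ) E hE
        ((gS F n d hd s')⁻¹ * p * gS F n d hd s') (r1 e)) =
        (dlh (blk n d) (one n) (odS n d s') (blkS_iff n d s') m₁ : ℂ) • ρ m₁ e := by
      have := evS_equi s' ρ m₁ (r1 e).1
      have e3 : (⟨m₁.1, (DS F n d s').hM m₁.2⟩ : lev F (one n)) =
          toTop ((gS F n d hd s')⁻¹ * p * gS F n d hd s') := Subtype.ext h₁
      rw [e3] at this
      refine this.trans ?_
      have e4 : evS s' ρ (r1 e).1 = e := hr1' e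
      rw [e4]
      rfl
    have e2 : ev2 (subG (InS s ρ') E' hE'
        ((gS F n d hd s)⁻¹ * p * gS F n d hd s) (r2 e')) =
        (dlh (blk n d) (one n) (odS n d s) (blkS_iff n d s) m₂ : ℂ) • ρ' m₂ e' := by
      have := evS_equi s ρ' m₂ (r2 e').1
      have e3 : (⟨m₂.1, (DS F n d s).hM m₂.2⟩ : lev F (one n)) =
          toTop ((gS F n d hd s)⁻¹ * p * gS F n d hd s) := Subtype.ext h₂
      rw [e3] at this
      refine this.trans ?_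
      have e4 : evS s ρ' (r2 e').1 = e' := hr2' e'
      rw [e4]
      rfl
    have hpl : p ∈ lev F (blk n d) := GG_lev hp
    rw [e1, e2, dlh_gS hd hn s' ⟨p, hpl⟩ m₁ h₁, dlh_gS hd hn s ⟨p, hpl⟩ m₂ h₂] at hk
    simp only [map_smul, LinearMap.smul_apply, smul_eq_mul] at hk
    have hsq := dlh_sq (blk n d) (one n) (odS n d true) (blkS_iff n d true) (⟨p, hpl⟩ : lev F _)
    have hsq' := congrArg (fun u : ℂˣ => (u : ℂ)) hsq
    simp only [Units.val_mul] at hsq'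
    rw [dlt_GG hd ⟨p, hpl⟩ hp] at hsq'
    rw [← mul_assoc, hsq'] at hk
    show ((PC.DP.nrm F p.val.det : ℝ) : ℂ) * c (r1 (ρ m₁ e)) (r2 (ρ' m₂ e')) = c (r1 e) (r2 e')
    have hne : ((PC.DP.nrm F p.val.det : ℝ) : ℂ) ≠ 0 := by
      have hdet : p.val.det ≠ 0 := by
        have := p.isUnit
        rw [Matrix.isUnit_iff_isUnit_det] at this
        exact this.ne_zero
      rw [Complex.ofReal_ne_zero]
      exact (PC.DP.nrm_pos hdet).ne'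
    have e5 : n - d = (n - (d + 1)) + 1 := by omega
    rw [e5, pow_succ, mul_assoc] at hk
    exact mul_left_cancel₀ (pow_ne_zero _ hne) hk

/-- (i-a) in the degenerate case -/
theorem alpha0 {ψ : AddChar F ℂ} (hψ : PC.DP.Std ψ) (hd1 : 1 ≤ d) (hd : d < n) {s s' : Bool}
    (hs : s' = !s) {ρ : Representation ℂ (lev F (blk n d)) W}
    {ρ' : Representation ℂ (lev F (blk n d)) W'} {β : W →ₗ[ℂ] W' →ₗ[ℂ] ℂ}
    (H : Dual2 hd.le ρ ρ' β) (S : Sys0 s s' ρ ρ' β) (hD : S.Dg ψ) :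
    n = d + d ∧ ∃ β₀ : W →ₗ[ℂ] W' →ₗ[ℂ] ℂ, β₀ ≠ 0 ∧
      ∀ p ∈ PC.DP.GG F n d, ∀ m₁ m₂ : lev F (blk n d),
        m₁.1 = (gS F n d hd.le s')⁻¹ * p * gS F n d hd.le s' →
        m₂.1 = (gS F n d hd.le s)⁻¹ * p * gS F n d hd.le s →
        ∀ e e', ((PC.DP.nrm F p.val.det : ℝ) : ℂ) * β₀ (ρ m₁ e) (ρ' m₂ e') = β₀ e e' := by
  have hs' : s = !s' := by
    rw [hs, Bool.not_not]
  obtain ⟨b, D⟩ := S.degP H hD
  have hn : n = d + d := by
    by_contra hn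
    refine alpha_n hψ hd1 hd hn s s' hs ρ ρ' H.sm H.sm' H.cusp H.cusp' _ _ _ _ b D ?_ ?_
    · refine tc1 hd1 hd hn s' s hs' ρ H.sm H.irr H.cusp S.B S.eB S.B0 _ (stab_range S.eA) ?_
      rintro _ ⟨v, rfl⟩
      exact S.BA v
    · refine tc1 hd1 hd hn s s' hs ρ' H.sm' H.irr' H.cusp' S.B' S.eB' S.B0' _
        (stab_range S.eA') ?_
      rintro _ ⟨v, rfl⟩
      exact S.BA' v
  refine ⟨hn, alpha_beta hψ hd1 hd.le hn s s' ρ ρ' H.sm H.irr H.irr' H.cusp _ _ _ _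
    (fun h => S.A0 (LinearMap.range_eq_bot.1 h)) (fun h => S.A0' (LinearMap.range_eq_bot.1 h))
    b D ?_ ?_⟩
  · intro x hx hx0
    refine tc0 hd1 hd.le hn s' s hs' ρ H.sm H.irr H.cusp (H.ni hn) S.B S.eB S.B0 _
      (stab_range S.eA) ?_ x hx hx0
    rintro _ ⟨v, rfl⟩
    exact S.BA v
  · intro x hx hx0
    refine tc0 hd1 hd.le hn s s' hs ρ' H.sm' H.irr' H.cusp' (H.ni' hn) S.B' S.eB' S.B0' _
      (stab_range S.eA') ?_ x hx hx0
    rintro _ ⟨v, rfl⟩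
    exact S.BA' v

end

end PC.D4
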