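import Mathlib
import Pool.Agent.Lib.MP_ca1492_al.D4.AlphaB

/-!
# MP_ca1492_al, D4, AlphaC: the contradiction (i-b) in the degenerate case
-/

open Topology Pool.Agent.Lib.MP_ca1492_al.P

namespace PC.D4

noncomputable section

section Abs

variable {G : Type} [Group G] {V V' : Type} [AddCommGroup V] [Module ℂ V]
  [AddCommGroup V'] [Module ℂ V']

theorem Ksp_surj (π : Representation ℂ G V) (π' : Representation ℂ G V')
    (S : Set G) (χ : G → ℂ) (T : V →ₗ[ℂ] V') (hT : Equi π π' T) (hs : Function.Surjective T)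
    (x' : V') (hx : x' ∈ PC.DP.Ksp π' S χ) : ∃ x ∈ PC.DP.Ksp π S χ, T x = x' := by
  have h : PC.DP.Ksp π' S χ ≤ (PC.DP.Ksp π S χ).map T := by
    refine Submodule.span_le.2 ?_
    rintro w ⟨u, hu, v', rfl⟩
    obtain ⟨v, rfl⟩ := hs v'
    refine ⟨π u v - χ u • v, Submodule.subset_span ⟨u, hu, v, rfl⟩, ?_⟩
    rw [map_sub, map_smul, hT]
  obtain ⟨x, hx, e⟩ := h hx
  exact ⟨x, hx, e⟩

theorem Ksp_ext (π : Representation ℂ G V) (π' : Representation ℂ G V')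
    (S : Set G) (χ : G → ℂ) (P : V →ₗ[ℂ] V') (hP : Equi π π' P) (hs : Function.Surjective P)
    (I : V' →ₗ[ℂ] V) (hI : Equi π' π I) (hex : ∀ x, P x = 0 → ∃ y, I y = x)
    (h : PC.DP.Ksp π' S χ = ⊤) : PC.DP.Ksp π S χ = ⊤ := by
  rw [eq_top_iff]
  intro y _
  obtain ⟨k, hk, hky⟩ := Ksp_surj π π' S χ P hP hs (P y) (by
    rw [h]
    exact Submodule.mem_top)
  obtain ⟨x0, hx0⟩ := hex (y - k) (by rw [map_sub, hky, sub_self])
  have h4 := Ksp_map π' π S χ I hI x0 (by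
    rw [h]
    exact Submodule.mem_top)
  have h5 : y = I x0 + k := by
    rw [hx0, sub_add_cancel]
  rw [h5]
  exact Submodule.add_mem _ h4 hk

/-- abstract form of `Sys2.dg` -/
theorem dg_abs {U₀ U₂ V₀ V₂ X₀ X₂ : Type} [AddCommGroup U₀] [Module ℂ U₀] [AddCommGroup U₂]
    [Module ℂ U₂] [AddCommGroup V₀] [Module ℂ V₀] [AddCommGroup V₂] [Module ℂ V₂]
    [AddCommGroup X₀] [Module ℂ X₀] [AddCommGroup X₂] [Module ℂ X₂]
    (π₀ : Representation ℂ G V₀) (π₂ : Representation ℂ G V₂) (A₀ : U₀ →ₗ[ℂ] V₀)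
    (A₂ : U₂ →ₗ[ℂ] V₂) (B₀ : V₀ →ₗ[ℂ] X₀) (B₂ : V₂ →ₗ[ℂ] X₂) (i : V₀ →ₗ[ℂ] V₂)
    (q : V₂ →ₗ[ℂ] V₀) (iU : U₀ →ₗ[ℂ] U₂) (qU : U₂ →ₗ[ℂ] U₀) (iX : X₀ →ₗ[ℂ] X₂)
    (hi : Equi π₀ π₂ i) (hq : Equi π₂ π₀ q) (hqU : Function.Surjective qU)
    (hiX : Function.Injective iX) (hker : ∀ x, q x = 0 → ∃ y, i y = x)
    (h₀ : Stab π₀ (LinearMap.range A₀)) (h₂ : Stab π₂ (LinearMap.range A₂))
    (hiA : ∀ f, A₂ (iU f) = i (A₀ f)) (hqA : ∀ f, q (A₂ f) = A₀ (qU f))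
    (hiB : ∀ f, B₂ (i f) = iX (B₀ f)) (hBA : ∀ f, B₂ (A₂ f) = 0)
    (hex : ∀ x, B₀ x = 0 → ∃ f, A₀ f = x) (S : Set G) (χ : G → ℂ)
    (h : PC.DP.Ksp (V := LinearMap.range A₀) (subRep π₀ _ h₀) S χ = ⊤) :
    PC.DP.Ksp (V := LinearMap.range A₂) (subRep π₂ _ h₂) S χ = ⊤ := by
  have hPm : ∀ x ∈ LinearMap.range A₂, q x ∈ LinearMap.range A₀ := by
    rintro _ ⟨f, rfl⟩
    exact ⟨qU f, (hqA f).symm⟩
  have hIm : ∀ x ∈ LinearMap.range A₀, i x ∈ LinearMap.range A₂ := by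
    rintro _ ⟨f, rfl⟩
    exact ⟨iU f, hiA f⟩
  refine Ksp_ext (V := LinearMap.range A₂) (V' := LinearMap.range A₀)
    (subRep π₂ _ h₂) (subRep π₀ _ h₀) S χ (q.restrict hPm) ?_ ?_ (i.restrict hIm) ?_ ?_ h
  · intro g x
    exact Subtype.ext (hq g x.1)
  · rintro ⟨_, ⟨f, rfl⟩⟩
    obtain ⟨f', rfl⟩ := hqU f
    exact ⟨⟨A₂ f', f', rfl⟩, Subtype.ext (hqA f')⟩
  · intro g x
    exact Subtype.ext (hi g x.1)
  · intro x hx
    obtain ⟨x0, hx0⟩ := hker x.1 (congrArg Subtype.val hx)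
    have h2 : B₀ x0 = 0 := by
      apply hiX
      rw [← hiB, hx0, map_zero]
      obtain ⟨_, ⟨f, rfl⟩⟩ := x
      exact hBA f
    obtain ⟨f0, hf0⟩ := hex x0 h2
    exact ⟨⟨x0, f0, hf0⟩, Subtype.ext hx0⟩

end Abs

variable {F : Type} [Field F] [ValuativeRel F] [TopologicalSpace F]
  [IsNonarchimedeanLocalField F]
variable {n d : ℕ} {W W' : Type} [AddCommGroup W] [Module ℂ W] [AddCommGroup W'] [Module ℂ W']

/-- the operator `t` -/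
def tS (s : Bool) (z : ℂ) (ρ : Representation ℂ (lev F (blk n d)) W) :
    XnS s (dbl z ρ) →ₗ[ℂ] XnS s (dbl z ρ) := inlS s z ρ ∘ₗ qS s z ρ

theorem tS_equi (s : Bool) (z : ℂ) (ρ : Representation ℂ (lev F (blk n d)) W) :
    Equi (InS s (dbl z ρ)) (InS s (dbl z ρ)) (tS s z ρ) := by
  intro g f
  show inlS s z ρ (qS s z ρ (InS s (dbl z ρ) g f)) = InS s (dbl z ρ) g (inlS s z ρ (qS s z ρ f))
  rw [qS_equi, inlS_equi]

theorem evS_tS (s : Bool) (z : ℂ) (ρ : Representation ℂ (lev F (blk n d)) W)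
    (f : XnS s (dbl z ρ)) : evS s (dbl z ρ) (tS s z ρ f) = ((evS s (dbl z ρ) f).2, 0) := rfl

theorem tS_adj (s : Bool) (z z' : ℂ) (ρ : Representation ℂ (lev F (blk n d)) W)
    (ρ' : Representation ℂ (lev F (blk n d)) W') (β : W →ₗ[ℂ] W' →ₗ[ℂ] ℂ)
    (f : XnS s (dbl z ρ)) (f' : XnS s (dbl z' ρ')) :
    bS s (dbl z ρ) (dbl z' ρ') (dblB β) (tS s z ρ f) f' =
      bS s (dbl z ρ) (dbl z' ρ') (dblB β) f (tS s z' ρ' f') := by
  have h1 := bS_inl s z z' ρ ρ' β (qS s z ρ f) f'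
  have h2 := bS_inl s z' z ρ' ρ β.flip (qS s z' ρ' f') f
  rw [dblB_flip] at h2
  exact h1.trans h2.symm

/-- `E ⊓ ker ev ≤ kerJ` for the self-extension -/
theorem tc2 (hd1 : 1 ≤ d) (hd : d ≤ n) (hn : n = d + d) (s s' : Bool) (hs : s' = !s) (z : ℂ)
    (ρ : Representation ℂ (lev F (blk n d)) W) (hρ : IsSm ρ) (hi : Irr ρ)
    (hc : Cusp (blk n d) ρ) (hni : NIso hd ρ) (B : XnS s ρ →ₗ[ℂ] XnS s' ρ)
    (hB : Equi (InS s ρ) (InS s' ρ) B) (hB0 : B ≠ 0)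
    (B₂ : XnS s (dbl z ρ) →ₗ[ℂ] XnS s' (dbl z ρ))
    (hiB : ∀ f, B₂ (inlS s z ρ f) = inlS s' z ρ (B f))
    (hqB : ∀ f, qS s' z ρ (B₂ f) = B (qS s z ρ f)) (E : Submodule ℂ (XnS s (dbl z ρ)))
    (hE : Stab (InS s (dbl z ρ)) E) (hEB : ∀ x ∈ E, B₂ x = 0) (x : XnS s (dbl z ρ))
    (hx : x ∈ E) (hx0 : evS s (dbl z ρ) x = 0) : x ∈ (DS F n d s).kerJ (InS s (dbl z ρ)) := by
  refine lin_L ((DS F n d s).kerJ (InS s (dbl z ρ))) (LinearMap.ker (evS s (dbl z ρ))) E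
    (LinearMap.ker (qS s z ρ) ⊓ LinearMap.ker B₂) (tS s z ρ) ?_ ?_ ?_ ?_ ?_ ?_ x hx
    (LinearMap.mem_ker.2 hx0)
  · intro y hy
    exact LinearMap.mem_ker.2 (evS_kerJ s (dbl z ρ) y hy)
  · intro y hy
    rw [LinearMap.mem_ker] at hy ⊢
    rw [evS_tS, hy]
    rfl
  · intro y hy hty
    exact kerJ_lift (DS F n d s) _ _ (InS_smooth s _) (InS_smooth s _) (tS s z ρ)
      (tS_equi s z ρ) E hE y hy hty
  · intro y hy hty
    refine ⟨LinearMap.mem_ker.2 (inlS_inj s z ρ (hty.trans (map_zero _).symm)),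
      LinearMap.mem_ker.2 (hEB y hy)⟩
  · intro y hy
    refine ⟨LinearMap.mem_ker.2 (qS_inlS s z ρ _), LinearMap.mem_ker.2 ?_⟩
    show B₂ (inlS s z ρ (qS s z ρ y)) = 0
    rw [hiB, ← hqB, hEB y hy, map_zero, map_zero]
  · rintro y ⟨hy1, hy2⟩ hy3
    obtain ⟨y0, rfl⟩ := qS_ker s z ρ y (LinearMap.mem_ker.1 hy1)
    have h1 : B y0 = 0 := by
      have h2 := LinearMap.mem_ker.1 hy2
      rw [hiB] at h2
      exact inlS_inj s' z ρ (h2.trans (map_zero _).symm)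
    have h3 : evS s ρ y0 = 0 := by
      have h4 := LinearMap.mem_ker.1 hy3
      rw [evS_inlS] at h4
      exact congrArg Prod.fst h4
    have h5 := tc0 hd1 hd hn s s' hs ρ hρ hi hc hni B hB hB0 (LinearMap.ker B) (stab_ker hB)
      (fun x hx => LinearMap.mem_ker.1 hx) y0 (LinearMap.mem_ker.2 h1) h3
    exact (DS F n d s).kerJ_map (InS s ρ) (InS s (dbl z ρ)) (inlS s z ρ) (inlS_equi s z ρ) h5

/-- the image of the lifted map is degenerate -/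
theorem Sys2.dg {s s' : Bool} {ρ : Representation ℂ (lev F (blk n d)) W}
    {ρ' : Representation ℂ (lev F (blk n d)) W'} {β : W →ₗ[ℂ] W' →ₗ[ℂ] ℂ} {z z' : ℂ}
    {S : Sys0 s s' ρ ρ' β} (T : Sys2 z z' S) (hρ : IsSm ρ)
    (hex : ∀ x, S.B x = 0 → ∃ f, S.A f = x) {ψ : AddChar F ℂ} (hD : S.Dg ψ) :
    PC.DP.KK (V := LinearMap.range T.A) ψ 1 (subG (InS s' (dbl z ρ)) _ (stab_range T.eA)) = ⊤ :=
  dg_abs (toGL (InS s' ρ)) (toGL (InS s' (dbl z ρ))) S.A T.A S.B T.B (inlS s' z ρ)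
    (qS s' z ρ) (inlS s z ρ) (qS s z ρ) (inlS s z ρ) (fun g v => inlS_equi s' z ρ (toTop g) v)
    (fun g v => qS_equi s' z ρ (toTop g) v) (qS_surj s z ρ hρ) (inlS_inj s z ρ)
    (qS_ker s' z ρ) ((toGL_stab _ _).2 (stab_range S.eA)) ((toGL_stab _ _).2 (stab_range T.eA))
    T.iA T.qA T.iB T.BA hex (PC.DP.UU F n 1) (PC.DP.psi ψ n 1) hD

end

end PC.D4
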