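import Mathlib
import Pool.Agent.Lib.MP_ca1492_al.D4.AlphaC

/-!
# MP_ca1492_al, D4, AlphaD: the contradiction (i-b) in the degenerate case
-/

open Topology Pool.Agent.Lib.MP_ca1492_al.P

namespace PC.D4

noncomputable section

section Abs

variable {E E' : Type} [AddCommGroup E] [Module ℂ E] [AddCommGroup E'] [Module ℂ E']

theorem c_left (c : E →ₗ[ℂ] E' →ₗ[ℂ] ℂ) (a b : E) (x' : E') (h : c (a - b) x' = 0) :
    c a x' = c b x' := by
  rw [map_sub, LinearMap.sub_apply, sub_eq_zero] at h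
  exact h

theorem c_right (c : E →ₗ[ℂ] E' →ₗ[ℂ] ℂ) (x : E) (a b : E') (h : c x (a - b) = 0) :
    c x a = c x b := by
  rw [map_sub, sub_eq_zero] at h
  exact h

/-- the final computation -/
theorem alpha2_abs (c : E →ₗ[ℂ] E' →ₗ[ℂ] ℂ) (t Z : E →ₗ[ℂ] E) (t' Z' : E' →ₗ[ℂ] E')
    (k₁ k₂ μ₁ μ₂ c₀ : ℂ) (ht : ∀ x, t (t x) = 0)
    (hZ : ∀ x x', c (Z x) x' = c (k₁ • (x + μ₁ • t x)) x')
    (hZ' : ∀ x x', c x (Z' x') = c x (k₂ • (x' + μ₂ • t' x')))
    (hc : ∀ x x', c (Z x) (Z' x') = c₀ * c x x')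
    (hadj : ∀ x x', c (t x) x' = c x (t' x'))
    (hf : ∀ a b : ℂ, (∀ x x', c ((a • LinearMap.id + b • t : E →ₗ[ℂ] E) x) x' = 0) →
      (a • LinearMap.id + b • t : E →ₗ[ℂ] E) = 0)
    (hk₁ : k₁ ≠ 0) (hk₂ : k₂ ≠ 0) (hμ : μ₁ + μ₂ ≠ 0) : t = 0 := by
  have h1 : ∀ x x', c₀ * c x x' = k₁ * k₂ * (c x x' + (μ₁ + μ₂) * c (t x) x') := by
    intro x x'
    rw [← hc, hZ, hZ']
    simp only [map_add, map_smul, LinearMap.add_apply, LinearMap.smul_apply, smul_eq_mul]
    rw [← hadj x x', ← hadj (t x) x', ht, map_zero, LinearMap.zero_apply]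
    ring
  have h2 := hf (k₁ * k₂ - c₀) (k₁ * k₂ * (μ₁ + μ₂)) (by
    intro x x'
    simp only [LinearMap.add_apply, LinearMap.smul_apply, LinearMap.id_apply, map_add, map_smul,
      smul_eq_mul]
    linear_combination -h1 x x')
  have h3 : ∀ x, (k₁ * k₂ - c₀) • t x = 0 := by
    intro x
    have := LinearMap.congr_fun h2 (t x)
    simpa only [LinearMap.add_apply, LinearMap.smul_apply, LinearMap.id_apply, ht, smul_zero,
      add_zero, LinearMap.zero_apply] using this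
  by_cases hk : k₁ * k₂ - c₀ = 0
  · rw [hk, zero_smul, zero_add] at h2
    exact (smul_eq_zero.1 h2).resolve_left (mul_ne_zero (mul_ne_zero hk₁ hk₂) hμ)
  · ext x
    exact (smul_eq_zero.1 (h3 x)).resolve_left hk

end Abs

variable {F : Type} [Field F] [ValuativeRel F] [TopologicalSpace F]
  [IsNonarchimedeanLocalField F]
variable {n d : ℕ} {W W' : Type} [AddCommGroup W] [Module ℂ W] [AddCommGroup W'] [Module ℂ W']

/-- the action of a central element on the values at `1` -/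
theorem ev_zz (s : Bool) (z : ℂ) (ρ : Representation ℂ (lev F (blk n d)) W) (k : ℂ)
    (m : lev F (blk n d)) (hk : ∀ v, ρ m v = k • v) (x : XnS s (dbl z ρ)) :
    evS s (dbl z ρ) (InS s (dbl z ρ) ⟨m.1, (DS F n d s).hM m.2⟩ x -
      ((dlh (blk n d) (one n) (odS n d s) (blkS_iff n d s) m : ℂ) * k) •
        (x + (z * (lam m : ℂ)) • tS s z ρ x)) = 0 := by
  rw [map_sub, evS_equi, map_smul, map_add, map_smul, evS_tS]
  obtain ⟨v, w⟩ : W × W := evS s (dbl z ρ) x
  show (dlh (blk n d) (one n) (odS n d s) (blkS_iff n d s) m : ℂ) • (dbl z ρ m (v, w)) - _ = 0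
  rw [dbl_apply, hk, hk]
  have : ((k • v + (z * (lam m : ℂ)) • k • w, k • w) -
      k • ((v, w) + (z * (lam m : ℂ)) • ((w, 0) : W × W)) : W × W) = 0 := by
    refine Prod.ext ?_ ?_
    · show (k • v + (z * (lam m : ℂ)) • k • w) - k • (v + (z * (lam m : ℂ)) • w) = 0
      rw [smul_add, smul_comm k, sub_self]
    · show k • w - k • (w + (z * (lam m : ℂ)) • (0 : W)) = 0
      rw [smul_zero, add_zero, sub_self]
  set δ : ℂ := (dlh (blk n d) (one n) (odS n d s) (blkS_iff n d s) m : ℂ)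
  have h2 : δ • ((k • v + (z * (lam m : ℂ)) • k • w, k • w) : W × W) -
      (δ * k) • ((v, w) + (z * (lam m : ℂ)) • ((w, 0) : W × W)) = 0 := by
    rw [← smul_smul δ k, ← smul_sub, this, smul_zero]
  exact h2

theorem lam_zz (hd : d ≤ n) (hn : n = d + d) (s : Bool) :
    lam (zz F n d s) = if s = true then (d : ℤ) else -(d : ℤ) := by
  unfold lam
  have h := zz_vl (F := F) hd hn s
  cases s
  · simp only [Bool.not_false] at h
    rw [h.1, h.2]
    simp
  · simp only [Bool.not_true] at h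
    rw [h.1, h.2]
    simp

end

end PC.D4
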