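import Mathlib
import Pool.Agent.Lib.MP_ca1492_al.D4.AlphaD

/-!
# MP_ca1492_al, D4, AlphaE: the contradiction (i-b) in the degenerate case
-/

open Topology Pool.Agent.Lib.MP_ca1492_al.P

namespace PC.D4

noncomputable section

variable {F : Type} [Field F] [ValuativeRel F] [TopologicalSpace F]
  [IsNonarchimedeanLocalField F]
variable {n d : ℕ} {W W' : Type} [AddCommGroup W] [Module ℂ W] [AddCommGroup W'] [Module ℂ W']

/-- `t = 0` on a degenerate stable subspace -/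
theorem alpha2_core {ψ : AddChar F ℂ} (hψ : PC.DP.Std ψ) (hd1 : 1 ≤ d) (hd : d ≤ n)
    (hn : n = d + d) (s s' : Bool) (hs : s' = !s) (z z' : ℂ) (hz : z + z' = 0) (hz0 : z ≠ 0)
    (ρ : Representation ℂ (lev F (blk n d)) W) (ρ' : Representation ℂ (lev F (blk n d)) W')
    (hρ : IsSm ρ) (hρ' : IsSm ρ') (hi : Irr ρ) (hi' : Irr ρ') (hc : Cusp (blk n d) ρ)
    (hc' : Cusp (blk n d) ρ') (E : Submodule ℂ (XnS s' (dbl z ρ)))
    (hE : Stab (InS s' (dbl z ρ)) E) (E' : Submodule ℂ (XnS s (dbl z' ρ')))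
    (hE' : Stab (InS s (dbl z' ρ')) E')
    (b : E →ₗ[ℂ] E' →ₗ[ℂ] ℂ) (D : DegP ψ s s' (dbl z ρ) (dbl z' ρ') E hE E' hE' b)
    (h1 : ∀ x ∈ E, evS s' (dbl z ρ) x = 0 → x ∈ (DS F n d s').kerJ (InS s' (dbl z ρ)))
    (h2 : ∀ x ∈ E', evS s (dbl z' ρ') x = 0 → x ∈ (DS F n d s).kerJ (InS s (dbl z' ρ')))
    (ht : ∀ x ∈ E, tS s' z ρ x ∈ E) (ht' : ∀ x ∈ E', tS s z' ρ' x ∈ E')
    (hbt : ∀ (x : E) (x' : E'), b ((tS s' z ρ).restrict ht x) x' =
      b x ((tS s z' ρ').restrict ht' x')) :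
    (tS s' z ρ).restrict ht = 0 := by
  obtain ⟨c, c1, c2, c3, c4, c5⟩ := alpha_c hψ hd1 hd hn s s' (dbl z ρ) (dbl z' ρ')
    (dbl_smooth z ρ hρ) (dbl_cusp z ρ hc) E hE E' hE' b D h1 h2
  obtain ⟨k, hk0, hk⟩ := zz_scalar ρ hρ hi hc s'
  obtain ⟨k', hk0', hk'⟩ := zz_scalar ρ' hρ' hi' hc' s
  have et : ∀ (g : GL (Fin n) F) (v : E), (tS s' z ρ).restrict ht
      (subG (InS s' (dbl z ρ)) E hE g v) = subG (InS s' (dbl z ρ)) E hE g
        ((tS s' z ρ).restrict ht v) := by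
    intro g v
    exact Subtype.ext (tS_equi s' z ρ (toTop g) v.1)
  have et' : ∀ (g : GL (Fin n) F) (v : E'), (tS s z' ρ').restrict ht'
      (subG (InS s (dbl z' ρ')) E' hE' g v) = subG (InS s (dbl z' ρ')) E' hE' g
        ((tS s z' ρ').restrict ht' v) := by
    intro g v
    exact Subtype.ext (tS_equi s z' ρ' (toTop g) v.1)
  refine alpha2_abs (E := E) (E' := E') c ((tS s' z ρ).restrict ht)
    (subG (InS s' (dbl z ρ)) E hE (zz F n d s').1) ((tS s z' ρ').restrict ht')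
    (subG (InS s (dbl z' ρ')) E' hE' (zz F n d s).1)
    ((dlh (blk n d) (one n) (odS n d s') (blkS_iff n d s') (zz F n d s') : ℂ) * k)
    ((dlh (blk n d) (one n) (odS n d s) (blkS_iff n d s) (zz F n d s) : ℂ) * k')
    (z * (lam (zz F n d s') : ℂ)) (z' * (lam (zz F n d s) : ℂ))
    (((PC.DP.nrm F (zz F n d true).1.val.det : ℝ) : ℂ) ^ (n - (d + 1)))
    ?_ ?_ ?_ ?_ ?_ ?_ ?_ ?_ ?_
  · intro x
    exact Subtype.ext rfl
  · intro x x'
    have h3 := c1 (subG (InS s' (dbl z ρ)) E hE (zz F n d s').1 x -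
      ((dlh (blk n d) (one n) (odS n d s') (blkS_iff n d s') (zz F n d s') : ℂ) * k) •
        (x + (z * (lam (zz F n d s') : ℂ)) • (tS s' z ρ).restrict ht x))
      (ev_zz s' z ρ k (zz F n d s') hk x.1) x'
    exact c_left (E := E) (E' := E') c _ _ x' h3
  · intro x x'
    have h3 := c2 (subG (InS s (dbl z' ρ')) E' hE' (zz F n d s).1 x' -
      ((dlh (blk n d) (one n) (odS n d s) (blkS_iff n d s) (zz F n d s) : ℂ) * k') •
        (x' + (z' * (lam (zz F n d s) : ℂ)) • (tS s z' ρ').restrict ht' x'))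
      (ev_zz s z' ρ' k' (zz F n d s) hk' x'.1) x
    exact c_right (E := E) (E' := E') c x _ _ h3
  · intro x x'
    have h3 := c3 (zz F n d true).1 zz_GG x x'
    rw [zz_conj hd hn s', zz_conj hd hn s] at h3
    exact h3
  · exact c5 _ _ et et' hbt
  · intro a b' hab
    refine c4 _ ?_ hab
    intro g v
    simp only [LinearMap.add_apply, LinearMap.smul_apply, LinearMap.id_apply, map_add, map_smul,
      et]
  · exact mul_ne_zero (Units.ne_zero _) hk0
  · exact mul_ne_zero (Units.ne_zero _) hk0'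
  · have hz' : z' = -z := by linear_combination hz
    rw [lam_zz hd hn, lam_zz hd hn, hz', hs]
    have hd0 : (d : ℂ) ≠ 0 := Nat.cast_ne_zero.2 (by omega)
    cases s
    · have e : z * (((if (!false) = true then (d : ℤ) else -(d : ℤ)) : ℤ) : ℂ) +
          -z * (((if false = true then (d : ℤ) else -(d : ℤ)) : ℤ) : ℂ) = 2 * z * d := by
        simp only [Bool.not_false, if_true]
        push_cast
        simp
        ring
      rw [e]
      exact mul_ne_zero (mul_ne_zero two_ne_zero hz0) hd0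
    · have e : z * (((if (!true) = true then (d : ℤ) else -(d : ℤ)) : ℤ) : ℂ) +
          -z * (((if true = true then (d : ℤ) else -(d : ℤ)) : ℤ) : ℂ) = -(2 * z * d) := by
        simp only [Bool.not_true, if_true]
        push_cast
        simp
        ring
      rw [e]
      exact neg_ne_zero.2 (mul_ne_zero (mul_ne_zero two_ne_zero hz0) hd0)

end

end PC.D4
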