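import Mathlib
import Pool.Agent.Lib.MP_ca1492_al.D4.AlphaE

/-!
# MP_ca1492_al, D4, AlphaF: (i-b) in the degenerate case, final form
-/

open Topology Pool.Agent.Lib.MP_ca1492_al.P

namespace PC.D4

noncomputable section

variable {F : Type} [Field F] [ValuativeRel F] [TopologicalSpace F]
  [IsNonarchimedeanLocalField F]
variable {n d : ℕ} {W W' : Type} [AddCommGroup W] [Module ℂ W] [AddCommGroup W'] [Module ℂ W']

namespace Sys2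

variable {s s' : Bool} {ρ : Representation ℂ (lev F (blk n d)) W}
  {ρ' : Representation ℂ (lev F (blk n d)) W'} {β : W →ₗ[ℂ] W' →ₗ[ℂ] ℂ} {z z' : ℂ}
  {S : Sys0 s s' ρ ρ' β}

theorem tA (T : Sys2 z z' S) (f : XnS s (dbl z ρ)) : tS s' z ρ (T.A f) = T.A (tS s z ρ f) := by
  show inlS s' z ρ (qS s' z ρ (T.A f)) = T.A (inlS s z ρ (qS s z ρ f))
  rw [T.qA, T.iA]

theorem tA' (T : Sys2 z z' S) (f : XnS s' (dbl z' ρ')) :
    tS s z' ρ' (T.A' f) = T.A' (tS s' z' ρ' f) := by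
  show inlS s z' ρ' (qS s z' ρ' (T.A' f)) = T.A' (inlS s' z' ρ' (qS s' z' ρ' f))
  rw [T.qA', T.iA']

theorem st (T : Sys2 z z' S) : ∀ x ∈ LinearMap.range T.A, tS s' z ρ x ∈ LinearMap.range T.A := by
  rintro _ ⟨f, rfl⟩
  exact ⟨tS s z ρ f, (T.tA f).symm⟩

theorem st' (T : Sys2 z z' S) :
    ∀ x ∈ LinearMap.range T.A', tS s z' ρ' x ∈ LinearMap.range T.A' := by
  rintro _ ⟨f, rfl⟩
  exact ⟨tS s' z' ρ' f, (T.tA' f).symm⟩

theorem ne0 (T : Sys2 z z' S) : T.A ≠ 0 := by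
  intro h
  apply S.A0
  apply LinearMap.ext
  intro f
  apply inlS_inj s' z ρ
  rw [← T.iA, h, LinearMap.zero_apply, LinearMap.zero_apply, map_zero]

/-- the degenerate pair -/
theorem degP (T : Sys2 z z' S) {hd : d ≤ n} (H : Dual2 hd ρ ρ' β) (hz : z + z' = 0)
    (hex : ∀ x, S.B x = 0 → ∃ f, S.A f = x) {ψ : AddChar F ℂ} (hD : S.Dg ψ) :
    ∃ b, DegP ψ s s' (dbl z ρ) (dbl z' ρ') (LinearMap.range T.A) (stab_range T.eA)
      (LinearMap.range T.A') (stab_range T.eA') b ∧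
      ∀ x x', b ((tS s' z ρ).restrict T.st x) x' = b x ((tS s z' ρ').restrict T.st' x') := by
  obtain ⟨b, hb, hbf⟩ := imB (InS s (dbl z ρ)) (InS s (dbl z' ρ')) (InS s' (dbl z ρ))
    (InS s' (dbl z' ρ')) (bS s (dbl z ρ) (dbl z' ρ') (dblB β))
    (bS s' (dbl z ρ) (dbl z' ρ') (dblB β))
    (pai_ind s _ _ (dbl_smooth z ρ H.sm) (dbl_smooth z' ρ' H.sm') _ (dbl_pai z z' hz ρ ρ' β H.pai))
    (pai_ind s' _ _ (dbl_smooth z ρ H.sm) (dbl_smooth z' ρ' H.sm') _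
      (dbl_pai z z' hz ρ ρ' β H.pai))
    T.A T.A' T.eA T.eA' T.adA
  refine ⟨b, ⟨fun g v v' => hb.inv (toTop g) v v', hb.left, ?_, T.dg H.sm hex hD⟩, ?_⟩
  · by_contra hall
    push Not at hall
    apply T.ne0
    apply LinearMap.ext
    intro v
    exact congrArg Subtype.val (hall ⟨T.A v, v, rfl⟩)
  · rintro ⟨_, ⟨v, rfl⟩⟩ ⟨_, ⟨v', rfl⟩⟩
    have e1 : (tS s' z ρ).restrict T.st ⟨T.A v, v, rfl⟩ = ⟨T.A (tS s z ρ v), _, rfl⟩ :=
      Subtype.ext (T.tA v)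
    have e2 : (tS s z' ρ').restrict T.st' ⟨T.A' v', v', rfl⟩ =
        ⟨T.A' (tS s' z' ρ' v'), _, rfl⟩ := Subtype.ext (T.tA' v')
    rw [e1, e2, hbf, hbf, ← T.tA]
    exact tS_adj s' z z' ρ ρ' β (T.A v) v'

end Sys2

/-- (i-b) in the degenerate case -/
theorem alpha2 {ψ : AddChar F ℂ} (hψ : PC.DP.Std ψ) (hd1 : 1 ≤ d) (hd : d < n) {s s' : Bool}
    (hs : s' = !s) {ρ : Representation ℂ (lev F (blk n d)) W}
    {ρ' : Representation ℂ (lev F (blk n d)) W'} {β : W →ₗ[ℂ] W' →ₗ[ℂ] ℂ}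
    (H : Dual2 hd.le ρ ρ' β) {S : Sys0 s s' ρ ρ' β} {z z' : ℂ} (T : Sys2 z z' S)
    (hz : z + z' = 0) (hz0 : z ≠ 0) (hex : ∀ x, S.B x = 0 → ∃ f, S.A f = x) (hD : S.Dg ψ) :
    False := by
  have hs' : s = !s' := by
    rw [hs, Bool.not_not]
  have hn := (alpha0 hψ hd1 hd hs H S hD).1
  obtain ⟨b, D, hbt⟩ := T.degP H hz hex hD
  have h0 := alpha2_core hψ hd1 hd.le hn s s' hs z z' hz hz0 ρ ρ' H.sm H.sm' H.irr H.irr' H.cusp
    H.cusp' _ _ _ _ b D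
    (fun x hx hx0 => tc2 hd1 hd.le hn s' s hs' z ρ H.sm H.irr H.cusp (H.ni hn) S.B S.eB S.B0 T.B
      T.iB T.qB _ (stab_range T.eA) (by
        rintro _ ⟨v, rfl⟩
        exact T.BA v) x hx hx0)
    (fun x hx hx0 => tc2 hd1 hd.le hn s s' hs z' ρ' H.sm' H.irr' H.cusp' (H.ni' hn) S.B' S.eB'
      S.B0' T.B' T.iB' T.qB' _ (stab_range T.eA') (by
        rintro _ ⟨v, rfl⟩
        exact T.BA' v) x hx hx0)
    T.st T.st' hbt
  apply S.A0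
  apply LinearMap.ext
  intro f
  obtain ⟨g, rfl⟩ := qS_surj s z ρ H.sm f
  apply inlS_inj s' z ρ
  have h1 := congrArg Subtype.val (LinearMap.congr_fun h0 ⟨T.A g, g, rfl⟩)
  have h2 : tS s' z ρ (T.A g) = 0 := h1
  have h3 : inlS s' z ρ (qS s' z ρ (T.A g)) = 0 := h2
  rw [T.qA] at h3
  rw [h3, LinearMap.zero_apply, map_zero]

end

end PC.D4
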