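import Mathlib
import Pool.Agent.Lib.MP_ca1492_al.D4.DPDefs

/-!
# MP_ca1492_al, D4, DPPsi: existence of a standard character

`A = F ⧸ lat F 0` (additive group), `x` with `ordF x = -1` (`ordF_surj`) is nonzero in `A`.
`CharacterModule.exists_character_apply_ne_zero_of_ne_zero` (`ℚ / ℤ` is injective) gives a
homomorphism `c : A →+ AddCircle (1 : ℚ)` with `c x ≠ 0`; compose with the injective homomorphism
`AddCircle (1 : ℚ) → ℂˣ`, `t ↦ exp (2 π i t)` (for instance lift `ℚ → ℝ` to
`AddCircle (1 : ℚ) → AddCircle (1 : ℝ)` and use `AddCircle.toCircle`; it is enough to have an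
injective homomorphism). An `AddChar F ℂ` is a function with `ψ 0 = 1`, `ψ (x + y) = ψ x * ψ y`.
-/

open Topology Matrix ValuativeRel

namespace PC.DP

open Pool.Agent.Lib.MP_ca1492_al.P

/-- the embedding of `ℚ / ℤ` into the circle -/
noncomputable def DPPsi_emb : AddCircle (1 : ℚ) →+ Additive Circle :=
  AddMonoidHom.comp
    { toFun := fun t : AddCircle (1 : ℝ) => Additive.ofMul (AddCircle.toCircle t)
      map_zero' := by
        rw [AddCircle.toCircle_zero]
        rfl
      map_add' := fun a b => by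
        rw [AddCircle.toCircle_add]
        rfl }
    (QuotientAddGroup.map (AddSubgroup.zmultiples (1 : ℚ)) (AddSubgroup.zmultiples (1 : ℝ))
      (Rat.castHom ℝ : ℚ →+* ℝ).toAddMonoidHom (by
        rintro y ⟨n, rfl⟩
        exact ⟨n, by simp⟩))

theorem DPPsi_emb_inj : Function.Injective DPPsi_emb := by
  rw [injective_iff_map_eq_zero]
  intro t ht
  induction t using QuotientAddGroup.induction_on with
  | H q =>
    have h1 : AddCircle.toCircle ((((q : ℚ) : ℝ)) : AddCircle (1 : ℝ)) = 1 := ht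
    have h2 : ((((q : ℚ) : ℝ)) : AddCircle (1 : ℝ)) = 0 := by
      apply AddCircle.injective_toCircle one_ne_zero
      rw [h1, AddCircle.toCircle_zero]
    rw [AddCircle.coe_eq_zero_iff] at h2
    obtain ⟨n, hn⟩ := h2
    refine (AddCircle.coe_eq_zero_iff (1 : ℚ)).2 ⟨n, ?_⟩
    have h3 : ((n • (1 : ℚ) : ℚ) : ℝ) = (q : ℝ) := by
      rw [← hn]
      simp
    exact_mod_cast h3

theorem exists_std (F : Type) [Field F] [ValuativeRel F] [TopologicalSpace F]
    [IsNonarchimedeanLocalField F] : ∃ ψ : AddChar F ℂ, Std ψ := by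
  obtain ⟨x, hx0, hx⟩ := ordF_surj (F := F) (-1)
  have hxne : (QuotientAddGroup.mk x : F ⧸ lat F 0) ≠ 0 := by
    intro h
    rw [QuotientAddGroup.eq_zero_iff, mem_lat, hx] at h
    rcases h with h | h
    · exact hx0 h
    · omega
  obtain ⟨c, hc⟩ := CharacterModule.exists_character_apply_ne_zero_of_ne_zero hxne
  refine ⟨⟨fun y => ((DPPsi_emb (c (QuotientAddGroup.mk y : F ⧸ lat F 0))).toMul : ℂ), ?_, ?_⟩, ?_, ?_⟩
  · have h1 : (QuotientAddGroup.mk (0 : F) : F ⧸ lat F 0) = 0 := rfl
    rw [h1, map_zero, map_zero]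
    rfl
  · intro a b
    have h1 : (QuotientAddGroup.mk (a + b) : F ⧸ lat F 0) =
        QuotientAddGroup.mk a + QuotientAddGroup.mk b := rfl
    rw [h1, map_add, map_add, toMul_add]
    rfl
  · intro y hy
    have h1 : (QuotientAddGroup.mk y : F ⧸ lat F 0) = 0 :=
      (QuotientAddGroup.eq_zero_iff y).2 hy
    show ((DPPsi_emb (c (QuotientAddGroup.mk y : F ⧸ lat F 0))).toMul : ℂ) = 1
    rw [h1, map_zero, map_zero]
    rfl
  · refine ⟨x, Or.inr (by rw [hx]), ?_⟩
    intro h
    apply hc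
    apply DPPsi_emb_inj
    rw [map_zero]
    apply_fun Additive.toMul
    exact Circle.ext h

theorem std_continuous {F : Type} [Field F] [ValuativeRel F] [TopologicalSpace F]
    [IsNonarchimedeanLocalField F] {ψ : AddChar F ℂ} (hψ : Std ψ) :
    IsLocallyConstant (ψ : F → ℂ) := by
  have := IsValuativeTopology.isTopologicalRing (R := F)
  rw [IsLocallyConstant.iff_exists_open]
  intro x
  refine ⟨(fun y => y - x) ⁻¹' (lat F 0 : Set F), ?_, ?_, ?_⟩
  · exact (lat_isOpen 0).preimage (by fun_prop)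
  · simp [(lat F 0).zero_mem]
  · intro y hy
    have h1 : ψ (y - x) = 1 := hψ.triv _ hy
    have h2 : ψ (x + (y - x)) = ψ x * ψ (y - x) := AddChar.map_add_eq_mul ψ x (y - x)
    rw [h1, mul_one, add_sub_cancel] at h2
    exact h2

end PC.DP
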