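import Mathlib
import Pool.Agent.Lib.MP_ca1492_al.P.Dual2

/-!
# MP_ca1492_al, D4, GKLin: duality in finite dimension, averages and the smooth dual

`lin_dual`: linear algebra. `w ↦ (i ↦ φ i w)` is a linear map from a finite dimensional space to
`ι → ℂ`; if `c` is not in its (finite dimensional) range there is a finitely supported `x` which
kills the range but not `c`. Or: the map `Σ x_i φ_i ↦ Σ x_i c_i` is a well defined functional on
the span of the `φ i` in `Module.Dual ℂ E`; extend it to `Module.Dual ℂ E` and use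
`Module.evalEquiv`.

`avg_dual`: for `λ ∈ dualSp π` and `v ∈ V`: `(avg (dual π) K λ) v = λ (avg π K v)`: the form
`L = avg (dual π) K λ` is `K`-invariant, so `L v = L (avg π K v)` (`Dual2_form`), and on the
`K`-invariant vector `avg π K v` the forms `L` and `λ` agree (`Dual2_ev`).
-/

open Topology Pool.Agent.Lib.MP_ca1492_al.P

namespace PC.D4

theorem lin_dual {E : Type} [AddCommGroup E] [Module ℂ E] [FiniteDimensional ℂ E] {ι : Type}
    (φ : ι → E →ₗ[ℂ] ℂ) (c : ι → ℂ)
    (h : ∀ x : ι →₀ ℂ, (∀ w, (x.sum fun i t => t * φ i w) = 0) →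
      (x.sum fun i t => t * c i) = 0) : ∃ w, ∀ i, φ i w = c i := by
  let T : (ι →₀ ℂ) →ₗ[ℂ] Module.Dual ℂ E := Finsupp.linearCombination ℂ φ
  let C : Module.Dual ℂ (ι →₀ ℂ) := Finsupp.linearCombination ℂ c
  have hC : C ∈ (LinearMap.ker T).dualAnnihilator := by
    rw [Submodule.mem_dualAnnihilator]
    intro x hx
    have hx' : T x = 0 := hx
    show Finsupp.linearCombination ℂ c x = 0
    rw [Finsupp.linearCombination_apply]
    refine h x fun w => ?_
    have h1 : T x w = 0 := by rw [hx']; rfl
    have h2 : T x w = x.sum fun i t => t * φ i w := by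
      show (Finsupp.linearCombination ℂ φ x) w = _
      rw [Finsupp.linearCombination_apply, Finsupp.sum, LinearMap.sum_apply]
      rfl
    rw [← h2, h1]
  rw [← LinearMap.range_dualMap_eq_dualAnnihilator_ker] at hC
  obtain ⟨F, hF⟩ := hC
  refine ⟨(Module.evalEquiv ℂ E).symm F, fun i => ?_⟩
  have h3 : φ i ((Module.evalEquiv ℂ E).symm F) = F (φ i) :=
    Module.apply_evalEquiv_symm_apply ℂ E (φ i) F
  have h4 : F (T (Finsupp.single i 1)) = C (Finsupp.single i 1) := by
    rw [← hF]
    rfl
  rw [h3]
  have h5 : T (Finsupp.single i 1) = φ i := by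
    show Finsupp.linearCombination ℂ φ (Finsupp.single i 1) = φ i
    rw [Finsupp.linearCombination_single, one_smul]
  have h6 : C (Finsupp.single i 1) = c i := by
    show Finsupp.linearCombination ℂ c (Finsupp.single i 1) = c i
    rw [Finsupp.linearCombination_single, one_smul]
  rw [h5, h6] at h4
  exact h4

variable {G : Type} [Group G] [TopologicalSpace G] [IsTopologicalGroup G] {V : Type}
  [AddCommGroup V] [Module ℂ V]

theorem avg_dual (π : Representation ℂ G V) (hπ : IsSm π) (K : Subgroup G)
    (hK : IsOpen (K : Set G)) (hK' : IsCompact (K : Set G)) (l : dualSp π) (v : V) :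
    (avg (dual π) K l).1 v = l.1 (avg π K v) := by
  have h1 := Dual2_form π hπ K hK' (avg (dual π) K l).1
    (Dual2_fix π K (avg (dual π) K l) (avg_mem_fix (dual π) (dual_smooth π) K hK' l)) v
  have h2 := Dual2_ev π K hK' l (avg π K v) (avg_mem_fix π hπ K hK' v)
  rw [← h1, h2]

end PC.D4
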