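import Mathlib
import Pool.Agent.Lib.MP_ca1492_al.D4.GKLin

/-!
# MP_ca1492_al, D4, GKAlg: the algebraic part of the Gelfand-Kazhdan argument

`gk_alg`: Step 1: if `Σ x_g l1 (π g v) = 0` for all `v` then `Σ x_g l0 (π g v) = 0` for all `v`
(`x` finitely supported). Put `y = Σ x_g π (σ g) v0`. For all `h`:
`l1 (π (σ h) y) = Σ x_g l1 (π (σ (g h)) v0) = Σ x_g l1 (π (g h) v0) = 0` by `s1`, and `σ` is
surjective, so `y = 0` (`hsep`). Then `0 = l0 (π (σ h) y) = Σ x_g l0 (π g (π h v0))` by `s0`, and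
the `π h v0` span `V` (`hcyc`).
Step 2: if `Σ x_g l1 (π g v) = 0` for all `v ∈ fix π K` then `Σ x_g l0 (π g v) = 0` for all
`v ∈ fix π K`. The functionals `l_i ∘ π g` are in `dualSp π` (invariant under `g⁻¹ K g`), and
`(l_i ∘ π g) (avg π K v) = (avg (dual π) K (l_i ∘ π g)) v` (`avg_dual`), which is (`avg_sum` with a
common open subgroup for the finitely many `g` and `i = 0, 1`) a finite combination
`Σ_{k ∈ s} |s|⁻¹ l_i (π (g k⁻¹) v)` with the same `s` for `i = 0, 1`. Apply Step 1 to the new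
combination, then put `v ∈ fix π K`, `avg π K v = v`.
Step 3: `lin_dual` with `E = fix π K`, `ι = G`, `φ g = l1 ∘ π g`, `c g = l0 (π g v0)` gives
`w ∈ fix π K` with `l1 (π g w) = l0 (π g v0)` for all `g`.
Step 4: the set of `v` for which there is `v'` with `l1 (π g v') = l0 (π g v)` for all `g` is a
stable subspace which contains `v0`, hence everything; `v'` is unique by `hsep`; put `T v = v'`.
-/

open Topology Pool.Agent.Lib.MP_ca1492_al.P

namespace PC.D4

variable {G : Type} [Group G] [TopologicalSpace G] [IsTopologicalGroup G] {V : Type}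
  [AddCommGroup V] [Module ℂ V]

/-- Step 1 -/
theorem GKAlg_step1 (π : Representation ℂ G V) (σ : G → G)
    (hσ : ∀ g h, σ (g * h) = σ h * σ g) (hσ' : ∀ g, σ (σ g) = g) (l0 l1 : V →ₗ[ℂ] ℂ)
    (v0 : V) (hcyc : ∀ U : Submodule ℂ V, Stab π U → v0 ∈ U → U = ⊤)
    (hsep : ∀ v, (∀ g, l1 (π g v) = 0) → v = 0)
    (s0 : ∀ g, l0 (π (σ g) v0) = l0 (π g v0)) (s1 : ∀ g, l1 (π (σ g) v0) = l1 (π g v0))
    {ι : Type} (s : Finset ι) (a : ι → ℂ) (γ : ι → G)
    (h : ∀ v, ∑ i ∈ s, a i * l1 (π (γ i) v) = 0) (v : V) :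
    ∑ i ∈ s, a i * l0 (π (γ i) v) = 0 := by
  have hkey : ∀ (l : V →ₗ[ℂ] ℂ), (∀ g, l (π (σ g) v0) = l (π g v0)) → ∀ h' : G,
      l (π (σ h') (∑ i ∈ s, a i • π (σ (γ i)) v0)) = ∑ i ∈ s, a i * l (π (γ i) (π h' v0)) := by
    intro l hl h'
    rw [map_sum, map_sum]
    apply Finset.sum_congr rfl
    intro i _
    rw [map_smul, map_smul, smul_eq_mul]
    congr 1
    rw [← Module.End.mul_apply, ← map_mul, ← hσ, hl, map_mul, Module.End.mul_apply]
  have hy : ∑ i ∈ s, a i • π (σ (γ i)) v0 = 0 := by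
    apply hsep
    intro g
    have h1 := hkey l1 s1 (σ g)
    rw [hσ'] at h1
    rw [h1]
    exact h _
  have h2 : ∀ h' : G, ∑ i ∈ s, a i * l0 (π (γ i) (π h' v0)) = 0 := by
    intro h'
    rw [← hkey l0 s0 h', hy, map_zero, map_zero]
  let U : Submodule ℂ V :=
    { carrier := {w | ∀ h' : G, ∑ i ∈ s, a i * l0 (π (γ i) (π h' w)) = 0}
      add_mem' := by
        intro b c hb hc h'
        simp only [map_add, mul_add, Finset.sum_add_distrib]
        rw [hb h', hc h', add_zero]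
      zero_mem' := by
        intro h'
        simp
      smul_mem' := by
        intro c b hb h'
        have h3 : ∀ i ∈ s, a i * l0 (π (γ i) (π h' (c • b)))
            = c * (a i * l0 (π (γ i) (π h' b))) := by
          intro i _
          rw [map_smul, map_smul, map_smul, smul_eq_mul]
          ring
        rw [Finset.sum_congr rfl h3, ← Finset.mul_sum, hb h', mul_zero] }
  have hU : U = ⊤ := by
    apply hcyc U
    · intro g w hw h'
      have h3 := hw (h' * g)
      simp only [map_mul, Module.End.mul_apply] at h3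
      exact h3
    · exact h2
  have h4 : v ∈ U := by
    rw [hU]
    exact Submodule.mem_top
  have h5 := h4 1
  simpa using h5

/-- Step 2, the average as a combination of translates with the same coefficients -/
theorem GKAlg_avg (π : Representation ℂ G V) (hπ : IsSm π)
    (K : Subgroup G) (hK : IsOpen (K : Set G)) (hK' : IsCompact (K : Set G))
    (l0 l1 : V →ₗ[ℂ] ℂ)
    (h0 : ∀ k ∈ K, ∀ v, l0 (π k v) = l0 v) (h1 : ∀ k ∈ K, ∀ v, l1 (π k v) = l1 v)
    (A : Finset G) : ∃ s : Finset G, ∀ g ∈ A, ∀ v,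
      (l0 (π g (avg π K v)) = ∑ k ∈ s, (s.card : ℂ)⁻¹ * l0 (π (g * k⁻¹) v)) ∧
      (l1 (π g (avg π K v)) = ∑ k ∈ s, (s.card : ℂ)⁻¹ * l1 (π (g * k⁻¹) v)) := by
  classical
  let L0 : dualSp π := ⟨l0, K, hK, h0⟩
  let L1 : dualSp π := ⟨l1, K, hK, h1⟩
  obtain ⟨U, hU, hfix⟩ := exists_open_fix (dual π) (dual_smooth π)
    (A.image (fun g => dual π g⁻¹ L0) ∪ A.image (fun g => dual π g⁻¹ L1))
  obtain ⟨s, _, _, _, hs⟩ := avg_sum K hK' U hU
  refine ⟨s, fun g hg v => ?_⟩
  have hgen : ∀ L : dualSp π, dual π g⁻¹ L ∈ fix (dual π) U →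
      L.1 (π g (avg π K v)) = ∑ k ∈ s, (s.card : ℂ)⁻¹ * L.1 (π (g * k⁻¹) v) := by
    intro L hL
    have e1 := avg_dual π hπ K hK hK' (dual π g⁻¹ L) v
    have e2 : (dual π g⁻¹ L).1 (avg π K v) = L.1 (π g (avg π K v)) := by
      show L.1 (π g⁻¹⁻¹ (avg π K v)) = L.1 (π g (avg π K v))
      rw [inv_inv]
    rw [← e2, ← e1, hs _ (dual π) _ hL, ← Finset.mul_sum]
    have e3 : ((s.card : ℂ)⁻¹ • ∑ k ∈ s, dual π k (dual π g⁻¹ L) : dualSp π).1 v
        = (s.card : ℂ)⁻¹ * ((∑ k ∈ s, dual π k (dual π g⁻¹ L) : dualSp π).1 v) := rfl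
    rw [e3]
    congr 1
    have e4 : (∑ k ∈ s, dual π k (dual π g⁻¹ L) : dualSp π).1
        = ∑ k ∈ s, (dual π k (dual π g⁻¹ L)).1 := by
      exact map_sum (dualSp π).subtype _ _
    rw [e4, LinearMap.sum_apply]
    apply Finset.sum_congr rfl
    intro k _
    show L.1 (π g⁻¹⁻¹ (π k⁻¹ v)) = L.1 (π (g * k⁻¹) v)
    rw [inv_inv, map_mul, Module.End.mul_apply]
  constructor
  · exact hgen L0 (hfix _ (Finset.mem_union_left _ (Finset.mem_image_of_mem _ hg)))
  · exact hgen L1 (hfix _ (Finset.mem_union_right _ (Finset.mem_image_of_mem _ hg)))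

theorem gk_alg (π : Representation ℂ G V) (hπ : IsSm π) (σ : G → G)
    (hσ : ∀ g h, σ (g * h) = σ h * σ g) (hσ' : ∀ g, σ (σ g) = g)
    (K : Subgroup G) (hK : IsOpen (K : Set G)) (hK' : IsCompact (K : Set G))
    (hf : FiniteDimensional ℂ (fix π K)) (l0 l1 : V →ₗ[ℂ] ℂ)
    (h0 : ∀ k ∈ K, ∀ v, l0 (π k v) = l0 v) (h1 : ∀ k ∈ K, ∀ v, l1 (π k v) = l1 v)
    (v0 : V) (hv : v0 ∈ fix π K) (hcyc : ∀ U : Submodule ℂ V, Stab π U → v0 ∈ U → U = ⊤)
    (hsep : ∀ v, (∀ g, l1 (π g v) = 0) → v = 0)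
    (s0 : ∀ g, l0 (π (σ g) v0) = l0 (π g v0)) (s1 : ∀ g, l1 (π (σ g) v0) = l1 (π g v0)) :
    ∃ T : V →ₗ[ℂ] V, Equi π π T ∧ ∀ g v, l1 (π g (T v)) = l0 (π g v) := by
  classical
  -- Step 2
  have step2 : ∀ x : G →₀ ℂ, (∀ w ∈ fix π K, (x.sum fun g t => t * l1 (π g w)) = 0) →
      ∀ w ∈ fix π K, (x.sum fun g t => t * l0 (π g w)) = 0 := by
    intro x hx w hw
    obtain ⟨s, hs⟩ := GKAlg_avg π hπ K hK hK' l0 l1 h0 h1 x.support
    have hA : ∀ v : V, ∑ p ∈ x.support ×ˢ s, (x p.1 * (s.card : ℂ)⁻¹) *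
        l1 (π (p.1 * p.2⁻¹) v) = 0 := by
      intro v
      rw [Finset.sum_product, ← hx (avg π K v) (avg_mem_fix π hπ K hK' v)]
      apply Finset.sum_congr rfl
      intro g hg
      show _ = x g * l1 (π g (avg π K v))
      rw [(hs g hg v).2, Finset.mul_sum]
      apply Finset.sum_congr rfl
      intro k _
      ring
    have hB := GKAlg_step1 π σ hσ hσ' l0 l1 v0 hcyc hsep s0 s1 (x.support ×ˢ s)
      (fun p => x p.1 * (s.card : ℂ)⁻¹) (fun p => p.1 * p.2⁻¹) hA w
    rw [← hB, Finset.sum_product]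
    apply Finset.sum_congr rfl
    intro g hg
    have e1 := (hs g hg w).1
    rw [avg_of_mem_fix π K w hw] at e1
    show x g * l0 (π g w) = _
    rw [e1, Finset.mul_sum]
    apply Finset.sum_congr rfl
    intro k _
    ring
  -- Step 3
  obtain ⟨w, hw⟩ := lin_dual (E := fix π K) (ι := G)
    (fun g => (l1 ∘ₗ π g).domRestrict (fix π K)) (fun g => l0 (π g v0))
    (fun x hx => step2 x (fun w hw => hx ⟨w, hw⟩) v0 hv)
  -- Step 4
  let U : Submodule ℂ V :=
    { carrier := {v | ∃ v', ∀ g, l1 (π g v') = l0 (π g v)}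
      add_mem' := by
        rintro a b ⟨a', ha⟩ ⟨b', hb⟩
        refine ⟨a' + b', fun g => ?_⟩
        simp only [map_add]
        rw [ha g, hb g]
      zero_mem' := ⟨0, fun g => by simp⟩
      smul_mem' := by
        rintro c a ⟨a', ha⟩
        refine ⟨c • a', fun g => ?_⟩
        simp only [map_smul]
        rw [ha g] }
  have hU : U = ⊤ := by
    apply hcyc U
    · rintro g v ⟨v', hv'⟩
      refine ⟨π g v', fun h => ?_⟩
      have h3 := hv' (h * g)
      simpa only [map_mul, Module.End.mul_apply] using h3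
    · exact ⟨w.1, fun g => hw g⟩
  have hex : ∀ v, ∃ v', ∀ g, l1 (π g v') = l0 (π g v) := by
    intro v
    have h4 : v ∈ U := by
      rw [hU]
      exact Submodule.mem_top
    exact h4
  choose T hT using hex
  have huniq : ∀ a b : V, (∀ g, l1 (π g a) = l1 (π g b)) → a = b := by
    intro a b hab
    apply sub_eq_zero.1
    apply hsep
    intro g
    rw [map_sub, map_sub, hab g, sub_self]
  refine ⟨{ toFun := T
            map_add' := ?_
            map_smul' := ?_ }, ?_, fun g v => hT v g⟩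
  · intro a b
    apply huniq
    intro g
    simp only [map_add]
    rw [hT, hT, hT, map_add, map_add]
  · intro c a
    apply huniq
    intro g
    simp only [map_smul, RingHom.id_apply]
    rw [hT, hT, map_smul, map_smul]
  · intro g v
    apply huniq
    intro h
    show l1 (π h (T (π g v))) = l1 (π h (π g (T v)))
    have e1 := hT v (h * g)
    simp only [map_mul, Module.End.mul_apply] at e1
    rw [hT, e1]

end PC.D4
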