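import Mathlib
import Pool.Agent.Lib.MP_ca1492_al.D4.WhDefs
import Pool.Agent.Lib.MP_ca1492_al.P.Dual2

/-!
# MP_ca1492_al, D4, WhFam: the generalised vector of a functional on the smooth dual

`m` is a functional on `dualSp π` with `m (dual π a ξ) = (χ a)⁻¹ * m ξ`, `a ∈ N`. For `K` compact
open the functional `ξ ↦ m (avg (dual π) K ξ)` is in `dualSp (dual π)`, so it is the evaluation at
a vector `w K` (`biDual_bij`).
* `compat`: `ξ (avg π K (w K')) = (avg (dual π) K ξ) (w K') = m (avg (dual π) K' (avg (dual π) K ξ))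
  = m (avg (dual π) K ξ)` (`avg_of_mem_fix`: `avg (dual π) K ξ` is fixed by `K' ≤ K`).
* `equi`: `ξ (π a (w K)) = (dual π a⁻¹ ξ) (w K) = m (avg (dual π) K (dual π a⁻¹ ξ))
  = m (dual π a⁻¹ (avg (dual π) (a K a⁻¹) ξ))` (`avg_conj`) `= χ a * ξ (w (a K a⁻¹))`.
-/

open Topology Pool.Agent.Lib.MP_ca1492_al.P

namespace PC.D4

variable {G : Type} [Group G] [TopologicalSpace G] [IsTopologicalGroup G] {V : Type}
  [AddCommGroup V] [Module ℂ V]

theorem WhFam_avg_dual (π : Representation ℂ G V) (hπ : IsSm π) (K : Subgroup G)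
    (hK : IsCompact (K : Set G)) (ξ : dualSp π) (v : V) :
    ξ.1 (avg π K v) = (avg (dual π) K ξ).1 v := by
  rw [← Dual2_form π hπ K hK (avg (dual π) K ξ).1
      (Dual2_fix π K _ (avg_mem_fix (dual π) (dual_smooth π) K hK ξ)) v,
    Dual2_ev π K hK ξ _ (avg_mem_fix π hπ K hK v)]

theorem WhFam_ext (hB : HasCO G) (π : Representation ℂ G V) (hπ : IsSm π) (v v' : V)
    (h : ∀ ξ : dualSp π, ξ.1 v = ξ.1 v') : v = v' := by
  by_contra hne
  obtain ⟨l, hl⟩ := dual_sep hB π hπ (v - v') (sub_ne_zero.2 hne)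
  apply hl
  rw [map_sub, h l, sub_self]

theorem WhFam_map_open (K : Subgroup G) (hK : IsOpen (K : Set G)) (g : G) :
    IsOpen ((K.map (MulAut.conj g).toMonoidHom : Subgroup G) : Set G) := by
  have : ((K.map (MulAut.conj g).toMonoidHom : Subgroup G) : Set G) =
      (fun x => g⁻¹ * x * g) ⁻¹' (K : Set G) := by
    ext x
    simp only [Subgroup.coe_map, Set.mem_image, Set.mem_preimage, SetLike.mem_coe]
    constructor
    · rintro ⟨y, hy, rfl⟩
      simpa [MulAut.conj_apply, mul_assoc] using hy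
    · intro hx
      exact ⟨_, hx, by simp [MulAut.conj_apply, mul_assoc]⟩
  rw [this]
  exact hK.preimage (by fun_prop)

theorem WhFam_map_compact (K : Subgroup G) (hK : IsCompact (K : Set G)) (g : G) :
    IsCompact ((K.map (MulAut.conj g).toMonoidHom : Subgroup G) : Set G) := by
  have : ((K.map (MulAut.conj g).toMonoidHom : Subgroup G) : Set G) =
      (fun x => g * x * g⁻¹) '' (K : Set G) := by
    ext x
    simp [MulAut.conj_apply]
  rw [this]
  exact hK.image (by fun_prop)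

theorem WhFam_compact_of_le (K K' : Subgroup G) (hK : IsCompact (K : Set G))
    (hK' : IsOpen (K' : Set G)) (h : K' ≤ K) : IsCompact (K' : Set G) := by
  have h1 : IsClosed (K' : Set G) := Subgroup.isClosed_of_isOpen K' hK'
  exact hK.of_isClosed_subset h1 h

theorem fam_exists (hB : HasCO G) (π : Representation ℂ G V) (hπ : IsSm π) (ha : Adm π)
    (N : Subgroup G) (χ : G → ℂ) (hχ : ∀ a ∈ N, χ a ≠ 0) (hχ' : ∀ a ∈ N, χ a⁻¹ = (χ a)⁻¹)
    (m : dualSp π →ₗ[ℂ] ℂ) (hm : ∀ a ∈ N, ∀ ξ, m (dual π a ξ) = (χ a)⁻¹ * m ξ) :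
    ∃ w : Fam π N χ, ∀ K : Subgroup G, IsOpen (K : Set G) → IsCompact (K : Set G) →
      ∀ ξ : dualSp π, ξ.1 (w.w K) = m (avg (dual π) K ξ) := by
  classical
  obtain ⟨e, -, he⟩ := biDual_bij hB π hπ ha
  have hex : ∀ K : Subgroup G, IsOpen (K : Set G) → IsCompact (K : Set G) →
      ∃ v : V, ∀ ξ : dualSp π, ξ.1 v = m (avg (dual π) K ξ) := by
    intro K hK hKc
    let l : dualSp (dual π) := ⟨m ∘ₗ avgL (dual π) (dual_smooth π) K hKc, K, hK, by
      intro k hk ξ
      show m (avg (dual π) K (dual π k ξ)) = m (avg (dual π) K ξ)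
      rw [avg_apply_of_mem (dual π) K k hk ξ]⟩
    refine ⟨e.symm l, fun ξ => ?_⟩
    rw [← he, LinearEquiv.apply_symm_apply]
    rfl
  choose! w hw using hex
  refine ⟨⟨w, ?_, ?_, ?_⟩, fun K hK hKc ξ => hw K hK hKc ξ⟩
  · intro K hK hKc k hk
    apply WhFam_ext hB π hπ
    intro ξ
    have h1 : ξ.1 (π k (w K)) = (dual π k⁻¹ ξ).1 (w K) := by
      show ξ.1 (π k (w K)) = ξ.1 (π (k⁻¹)⁻¹ (w K))
      rw [inv_inv]
    rw [h1, hw K hK hKc, hw K hK hKc, avg_apply_of_mem (dual π) K k⁻¹ (K.inv_mem hk) ξ]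
  · intro K K' hK hKc hK' hle
    have hKc' : IsCompact (K' : Set G) := WhFam_compact_of_le K K' hKc hK' hle
    apply WhFam_ext hB π hπ
    intro ξ
    rw [WhFam_avg_dual π hπ K hKc ξ, hw K' hK' hKc', hw K hK hKc]
    congr 1
    refine avg_of_mem_fix (dual π) K' _ ?_
    intro k hk
    exact avg_mem_fix (dual π) (dual_smooth π) K hKc ξ k (hle hk)
  · intro a haN K hK hKc
    apply WhFam_ext hB π hπ
    intro ξ
    have hK1 := WhFam_map_open K hK a
    have hK2 := WhFam_map_compact K hKc a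
    have h1 : ξ.1 (π a (w K)) = (dual π a⁻¹ ξ).1 (w K) := by
      show ξ.1 (π a (w K)) = ξ.1 (π (a⁻¹)⁻¹ (w K))
      rw [inv_inv]
    have h2 : avg (dual π) K (dual π a⁻¹ ξ) =
        dual π a⁻¹ (avg (dual π) (K.map (MulAut.conj a).toMonoidHom) ξ) := by
      have h3 := avg_conj (dual π) (dual_smooth π) K hKc a (dual π a⁻¹ ξ)
      have h4 : dual π a (dual π a⁻¹ ξ) = ξ := by
        rw [← Module.End.mul_apply, ← map_mul, mul_inv_cancel, map_one, Module.End.one_apply]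
      rw [h4] at h3
      rw [← h3, ← Module.End.mul_apply, ← map_mul, inv_mul_cancel, map_one, Module.End.one_apply]
    rw [h1, hw K hK hKc, h2, hm a⁻¹ (N.inv_mem haN), hχ' a haN, inv_inv, map_smul, smul_eq_mul,
      hw _ hK1 hK2]

end PC.D4
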