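import Mathlib
import Pool.Agent.Lib.MP_ca1492_al.D4.GKDefs
import Pool.Agent.Lib.MP_ca1492_al.D4.GLDefs

/-!
# MP_ca1492_al, D4, Fix: relevant monomial matrices are fixed by `sg`

Let `m = dg t * pm w` (entry `t (w j)` at the place `(w j, j)`), relevant. For `i < j` with
`w i < w j` and `x : F` put `b = 1 + x E_{i j}` and `a = m * b⁻¹ * m⁻¹ = 1 - x (t (w i) / t (w j)) E_{w i, w j}`,
both in `N`, `a * m * b = m`. Relevance: `ψ(x [j = i+1] - x (t (w i) / t (w j)) [w j = w i + 1]) = 1`
for all `x`. As `ψ` is nontrivial (`hψ`) and `x` is arbitrary: `j = i + 1 ↔ w j = w i + 1`, and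
then `t (w i) = t (w j)`. So: (A) for every `i`: `w (i+1) < w i` or `w (i+1) = w i + 1` and
`t (w (i+1)) = t (w i)`; (B) if `i < j` and `w j = w i + 1` then `j = i + 1`.
CLAIM: `w (i) = rev (w⁻¹ (rev i))`, that is: `w j = i` iff `w (rev i) = rev j`, and
`t (w j) = t (rev j)`. Indeed `w` is made of maximal runs of consecutive increasing values
(blocks of positions), and the runs decrease: if a run ends at position `i` with value `e`, the
next run starts at `i + 1` with a value `s < e`; the values of the next run are `s, s+1, ...` and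
by (A) it contains no value of the first run and cannot pass over it, so it lies completely below.
Hence the first run has the `k` largest values `n-k, ..., n-1` at the positions `0, ..., k-1`
(by (B) no value above can come later), and so on: `w` is the antidiagonal block matrix with
identity blocks, and `t` is constant on the blocks of rows. Then `sg m = m` since
`sg m i j = m (rev j) (rev i)`. A formal way: show by strong induction on `i` that the run
containing position `i` occupies positions `[a, b]` and has values `[n - 1 - b, n - 1 - a]`,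
`w i = n - 1 - b + (i - a)`. (Equivalently `w i + (number of positions) ...`.)
-/

open Matrix

namespace PC.GK

variable {F : Type} [Field F] {n : ℕ}

/-- structure of a permutation such that `u j + 1 = u i`, `i < j` implies `j = i + 1` -/
theorem Fix_block_aux (u : Equiv.Perm (Fin n))
    (hB : ∀ i j : Fin n, i < j → (u j).val + 1 = (u i).val → j.val = i.val + 1) :
    ∀ m i : ℕ, n - i = m → (∀ j : Fin n, j.val < i → (u j).val < i) →
      (∀ j : Fin n, (u j).val < i → j.val < i) →
      ∀ j : Fin n, i ≤ j.val → ∃ i e : ℕ, i ≤ j.val ∧ j.val ≤ e ∧ e < n ∧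
        ∀ l : Fin n, i ≤ l.val → l.val ≤ e → (u l).val + l.val = i + e := by
  intro m
  induction m using Nat.strong_induction_on with
  | _ m ih =>
    intro i hm h1 h2 j hj
    have hin : i < n := lt_of_le_of_lt hj j.2
    obtain ⟨e, he⟩ : ∃ e : ℕ, (u ⟨i, hin⟩).val = e := ⟨_, rfl⟩
    have hen : e < n := by
      rw [← he]
      exact (u ⟨i, hin⟩).2
    have hie : i ≤ e := by
      by_contra hlt
      have h3 := h2 ⟨i, hin⟩ (by omega)
      exact lt_irrefl _ h3
    have hk : ∀ k : ℕ, ∀ h : i + k < n, i + k ≤ e → (u ⟨i + k, h⟩).val + k = e := by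
      intro k
      induction k using Nat.strong_induction_on with
      | _ k ihk =>
        intro h hke
        rcases Nat.eq_zero_or_pos k with rfl | hkpos
        · simpa using he
        · obtain ⟨k', rfl⟩ : ∃ k', k = k' + 1 := ⟨k - 1, by omega⟩
          have hprev := ihk k' (by omega) (by omega) (by omega)
          have hv : e - (k' + 1) < n := by omega
          have hup : u (u.symm ⟨e - (k' + 1), hv⟩) = ⟨e - (k' + 1), hv⟩ :=
            Equiv.apply_symm_apply _ _
          generalize u.symm ⟨e - (k' + 1), hv⟩ = p at hup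
          have hupv : (u p).val = e - (k' + 1) := by rw [hup]
          have hpi : i ≤ p.val := by
            by_contra hlt
            have := h1 p (by omega)
            omega
          have hpk : i + k' < p.val := by
            by_contra hle
            obtain ⟨q, hq⟩ : ∃ q, p.val = i + q := ⟨p.val - i, by omega⟩
            have h4 := ihk q (by omega) (by omega) (by omega)
            have h5 : (⟨i + q, by omega⟩ : Fin n) = p := Fin.ext hq.symm
            rw [h5] at h4
            omega
          have h6 := hB ⟨i + k', by omega⟩ p (by rw [Fin.lt_def]; exact hpk)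
            (by rw [hupv]; omega)
          have h7 : (⟨i + (k' + 1), h⟩ : Fin n) = p := Fin.ext (by simp only [] at h6 ⊢; omega)
          rw [h7, hupv]
          omega
    have hblock : ∀ l : Fin n, i ≤ l.val → l.val ≤ e → (u l).val + l.val = i + e := by
      intro l hl1 hl2
      obtain ⟨q, hq⟩ : ∃ q, l.val = i + q := ⟨l.val - i, by omega⟩
      have h4 := hk q (by omega) (by omega)
      have h5 : (⟨i + q, by omega⟩ : Fin n) = l := Fin.ext hq.symm
      rw [h5] at h4
      omega
    rcases le_or_gt j.val e with hje | hje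
    · exact ⟨i, e, hj, hje, hen, hblock⟩
    · apply ih (n - (e + 1)) (by omega) (e + 1) rfl _ _ j (by omega)
      · intro l hl
        rcases lt_or_ge l.val i with h | h
        · have := h1 l h
          omega
        · have := hblock l h (by omega)
          omega
      · intro l hl
        rcases lt_or_ge (u l).val i with h | h
        · have := h2 l h
          omega
        · by_contra hlt
          have h8 := hblock ⟨i + e - (u l).val, by omega⟩ (by simp only []; omega)
            (by simp only []; omega)
          simp only [] at h8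
          have h9 : u ⟨i + e - (u l).val, by omega⟩ = u l := Fin.ext (by omega)
          have h10 := u.injective h9
          have h11 : i + e - (u l).val = l.val := congrArg Fin.val h10
          omega

theorem Fix_block (u : Equiv.Perm (Fin n))
    (hB : ∀ i j : Fin n, i < j → (u j).val + 1 = (u i).val → j.val = i.val + 1) (j : Fin n) :
    ∃ i e : ℕ, i ≤ j.val ∧ j.val ≤ e ∧ e < n ∧
        ∀ l : Fin n, i ≤ l.val → l.val ≤ e → (u l).val + l.val = i + e :=
  Fix_block_aux u hB (n - 0) 0 rfl (fun _ h => absurd h (Nat.not_lt_zero _))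
    (fun _ h => absurd h (Nat.not_lt_zero _)) j (Nat.zero_le _)

/-- elementary unipotent matrix -/
def Fix_el (i j : Fin n) (h : i ≠ j) (x : F) : GL (Fin n) F where
  val := Matrix.transvection i j x
  inv := Matrix.transvection i j (-x)
  val_inv := by
    rw [Matrix.transvection_mul_transvection_same i j h, add_neg_cancel, Matrix.transvection_zero]
  inv_val := by
    rw [Matrix.transvection_mul_transvection_same i j h, neg_add_cancel, Matrix.transvection_zero]

theorem Fix_el_apply (i j : Fin n) (h : i ≠ j) (x : F) (k l : Fin n) :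
    (Fix_el i j h x).1 k l = (if k = l then 1 else 0) + (if i = k ∧ j = l then x else 0) := by
  change (1 + Matrix.single i j x : Matrix (Fin n) (Fin n) F) k l = _
  rw [Matrix.add_apply, Matrix.one_apply, Matrix.single_apply]

theorem Fix_el_inv (i j : Fin n) (h : i ≠ j) (x : F) :
    (Fix_el i j h x)⁻¹ = Fix_el i j h (-x) := by
  apply Units.ext
  rfl

theorem Fix_el_mem (i j : Fin n) (h : i < j) (x : F) :
    Fix_el i j (ne_of_lt h) x ∈ NN F n := by
  have hup : ∀ y : F, ∀ k l : Fin n, l < k → (Fix_el i j (ne_of_lt h) y).1 k l = 0 := by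
    intro y k l hkl
    rw [Fix_el_apply, if_neg (ne_of_gt hkl), if_neg, add_zero]
    rintro ⟨rfl, rfl⟩
    exact absurd (lt_trans h hkl) (lt_irrefl _)
  refine ⟨⟨hup x, ?_⟩, ?_⟩
  · rw [Fix_el_inv]
    exact hup (-x)
  · intro k
    rw [Fix_el_apply, if_pos rfl, if_neg, add_zero]
    rintro ⟨rfl, h2⟩
    exact absurd h2.symm (ne_of_lt h)

theorem Fix_sd (i j : Fin n) (h : i < j) (x : F) :
    sd (Fix_el i j (ne_of_lt h) x) = if j.val = i.val + 1 then x else 0 := by
  unfold sd
  rw [Finset.sum_eq_single i]
  · by_cases hj : j.val = i.val + 1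
    · have hlt : i.val + 1 < n := by rw [← hj]; exact j.2
      rw [dif_pos hlt, Fix_el_apply, if_neg, if_pos, if_pos hj, zero_add]
      · exact ⟨rfl, Fin.ext hj⟩
      · intro h'
        have := congrArg Fin.val h'
        simp only [] at this
        omega
    · rw [if_neg hj]
      split_ifs with hlt
      · rw [Fix_el_apply, if_neg, if_neg, add_zero]
        · rintro ⟨-, h'⟩
          exact hj (congrArg Fin.val h')
        · intro h'
          have := congrArg Fin.val h'
          simp only [] at this
          omega
      · rfl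
  · intro k _ hk
    split_ifs with hlt
    · rw [Fix_el_apply, if_neg, if_neg, add_zero]
      · rintro ⟨h', -⟩
        exact hk h'.symm
      · intro h'
        have := congrArg Fin.val h'
        simp only [] at this
        omega
    · rfl
  · intro h'
    exact absurd (Finset.mem_univ i) h'

theorem Fix_entry (t : Fin n → Fˣ) (w : Equiv.Perm (Fin n)) (k l : Fin n) :
    (dg t * pm F w : GL (Fin n) F).1 k l = if k = w l then (t k : F) else 0 := by
  rw [Units.val_mul]
  change (Matrix.diagonal (fun i => (t i : F)) *
    Matrix.of (fun i j => if i = w j then (1 : F) else 0)) k l = _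
  rw [Matrix.diagonal_mul, Matrix.of_apply]
  split_ifs <;> simp

theorem Fix_conj (t : Fin n → Fˣ) (w : Equiv.Perm (Fin n)) (i j : Fin n) (hij : i ≠ j)
    (hw : w i ≠ w j) (x : F) :
    Fix_el (w i) (w j) hw (-(x * (t (w i) : F) * ((t (w j) : F))⁻¹)) * (dg t * pm F w) *
      Fix_el i j hij x = dg t * pm F w := by
  have key : Fix_el (w i) (w j) hw (-(x * (t (w i) : F) * ((t (w j) : F))⁻¹)) *
      (dg t * pm F w) = (dg t * pm F w) * Fix_el i j hij (-x) := by
    apply Units.ext
    rw [Units.val_mul, Units.val_mul]
    change (1 + Matrix.single (w i) (w j) (-(x * (t (w i) : F) * ((t (w j) : F))⁻¹))) *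
      (dg t * pm F w : GL (Fin n) F).1 = (dg t * pm F w : GL (Fin n) F).1 *
      (1 + Matrix.single i j (-x))
    rw [add_mul, mul_add, one_mul, mul_one]
    congr 1
    ext k l
    have hleft : (Matrix.single (w i) (w j) (-(x * (t (w i) : F) * ((t (w j) : F))⁻¹)) *
        (dg t * pm F w : GL (Fin n) F).1) k l =
        if k = w i then -(x * (t (w i) : F) * ((t (w j) : F))⁻¹) *
          (dg t * pm F w : GL (Fin n) F).1 (w j) l else 0 := by
      rw [Matrix.mul_apply, Finset.sum_eq_single (w j)]
      · rw [Matrix.single_apply]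
        by_cases hk : k = w i
        · rw [if_pos ⟨hk.symm, rfl⟩, if_pos hk]
        · rw [if_neg (fun h => hk h.1.symm), if_neg hk, zero_mul]
      · intro p _ hp
        rw [Matrix.single_apply, if_neg (fun h => hp h.2.symm), zero_mul]
      · intro h
        exact absurd (Finset.mem_univ _) h
    have hright : ((dg t * pm F w : GL (Fin n) F).1 * Matrix.single i j (-x)) k l =
        if l = j then (dg t * pm F w : GL (Fin n) F).1 k i * (-x) else 0 := by
      rw [Matrix.mul_apply, Finset.sum_eq_single i]
      · rw [Matrix.single_apply]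
        by_cases hl : l = j
        · rw [if_pos ⟨rfl, hl.symm⟩, if_pos hl]
        · rw [if_neg (fun h => hl h.2.symm), if_neg hl, mul_zero]
      · intro p _ hp
        rw [Matrix.single_apply, if_neg (fun h => hp h.1.symm), mul_zero]
      · intro h
        exact absurd (Finset.mem_univ _) h
    rw [hleft, hright, Fix_entry, Fix_entry]
    by_cases hk : k = w i
    · by_cases hl : l = j
      · subst hl
        rw [if_pos hk, if_pos rfl, if_pos rfl, if_pos hk, hk]
        have h0 : (t (w l) : F) ≠ 0 := (t (w l)).ne_zero
        field_simp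
      · rw [if_pos hk, if_neg (fun h => hl (w.injective h).symm), if_neg hl, mul_zero]
    · rw [if_neg hk]
      by_cases hl : l = j
      · rw [if_pos hl, if_neg hk, zero_mul]
      · rw [if_neg hl]
  rw [key, mul_assoc]
  have h1 : Fix_el i j hij (-x) * Fix_el i j hij x = (1 : GL (Fin n) F) := by
    rw [← Fix_el_inv, inv_mul_cancel]
  rw [h1, mul_one]

theorem Fix_rel (ψ : AddChar F ℂ) (hψ : ∃ x, ψ x ≠ 1) (t : Fin n → Fˣ) (w : Equiv.Perm (Fin n))
    (hr : Rel (NN F n) (psi ψ) (dg t * pm F w)) (i j : Fin n) (hij : i < j) (hw : w i < w j) :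
    ((w j).val = (w i).val + 1 → j.val = i.val + 1) ∧
      ((w j).val = (w i).val + 1 → t (w i) = t (w j)) := by
  have h1 : ∀ x : F, ψ ((if (w j).val = (w i).val + 1 then
      -(x * (t (w i) : F) * ((t (w j) : F))⁻¹) else 0) +
      (if j.val = i.val + 1 then x else 0)) = 1 := by
    intro x
    have h2 := hr _ (Fix_el_mem (w i) (w j) hw (-(x * (t (w i) : F) * ((t (w j) : F))⁻¹)))
      _ (Fix_el_mem i j hij x) (Fix_conj t w i j (ne_of_lt hij) (ne_of_lt hw) x)
    unfold psi at h2
    rw [Fix_sd _ _ hw, Fix_sd _ _ hij] at h2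
    rw [AddChar.map_add_eq_mul]
    exact h2
  obtain ⟨z, hz⟩ := hψ
  have hi0 : (t (w i) : F) ≠ 0 := (t (w i)).ne_zero
  have hj0 : (t (w j) : F) ≠ 0 := (t (w j)).ne_zero
  constructor
  · intro hw1
    by_contra hne
    apply hz
    have h3 := h1 (-(z * (t (w j) : F) * ((t (w i) : F))⁻¹))
    rw [if_pos hw1, if_neg hne, add_zero] at h3
    have h4 : -(-(z * (t (w j) : F) * ((t (w i) : F))⁻¹) * (t (w i) : F) *
        ((t (w j) : F))⁻¹) = z := by
      field_simp
    rwa [h4] at h3
  · intro hw1
    by_contra hne
    have hne' : (t (w j) : F) - (t (w i) : F) ≠ 0 := by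
      intro h
      apply hne
      apply Units.ext
      exact (sub_eq_zero.mp h).symm
    apply hz
    by_cases hj : j.val = i.val + 1
    · have h3 := h1 (z * (t (w j) : F) * ((t (w j) : F) - (t (w i) : F))⁻¹)
      rw [if_pos hw1, if_pos hj] at h3
      have h4 : -(z * (t (w j) : F) * ((t (w j) : F) - (t (w i) : F))⁻¹ * (t (w i) : F) *
          ((t (w j) : F))⁻¹) + z * (t (w j) : F) * ((t (w j) : F) - (t (w i) : F))⁻¹ = z := by
        field_simp
        ring
      rwa [h4] at h3
    · have h3 := h1 (-(z * (t (w j) : F) * ((t (w i) : F))⁻¹))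
      rw [if_pos hw1, if_neg hj, add_zero] at h3
      have h4 : -(-(z * (t (w j) : F) * ((t (w i) : F))⁻¹) * (t (w i) : F) *
          ((t (w j) : F))⁻¹) = z := by
        field_simp
      rwa [h4] at h3

theorem fix_MM (ψ : AddChar F ℂ) (hψ : ∃ x, ψ x ≠ 1) (m : GL (Fin n) F) (hm : m ∈ MM F n)
    (hr : Rel (NN F n) (psi ψ) m) : sg m = m := by
  obtain ⟨t, w, rfl⟩ := hm
  have hrel := Fix_rel ψ hψ t w hr
  have hu : ∀ i : Fin n, ((w.trans Fin.revPerm) i).val + (w i).val + 1 = n := by
    intro i
    rw [Equiv.trans_apply, Fin.revPerm_apply, Fin.val_rev]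
    have := (w i).2
    omega
  have hB : ∀ i j : Fin n, i < j → ((w.trans Fin.revPerm) j).val + 1 =
      ((w.trans Fin.revPerm) i).val → j.val = i.val + 1 := by
    intro i j hij h
    have h1 := hu i
    have h2 := hu j
    exact (hrel i j hij (by rw [Fin.lt_def]; omega)).1 (by omega)
  have hmain : ∀ j : Fin n, w (w j).rev = j.rev ∧ t (w j) = t j.rev := by
    intro j
    obtain ⟨i, e, hij, hje, hen, hbl⟩ := Fix_block (w.trans Fin.revPerm) hB j
    have hrev : ((w j).rev).val + j.val = i + e := by
      have := hbl j hij hje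
      exact this
    have hw2 : w (w j).rev = j.rev := by
      have h1 := hbl (w j).rev (by omega) (by omega)
      have h2 := hu (w j).rev
      apply Fin.ext
      rw [Fin.val_rev]
      have := j.2
      omega
    refine ⟨hw2, ?_⟩
    have hconst : ∀ k : ℕ, ∀ h : i + k < n, i + k ≤ e → t (w ⟨i + k, h⟩) = t (w ⟨i, by omega⟩) := by
      intro k
      induction k with
      | zero => intro h _; rfl
      | succ k ih =>
        intro h hke
        rw [← ih (by omega) (by omega)]
        have h1 := hbl ⟨i + k, by omega⟩ (by simp only []; omega) (by simp only []; omega)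
        have h2 := hbl ⟨i + (k + 1), h⟩ (by simp only []; omega) (by simp only []; omega)
        have h3 := hu ⟨i + k, by omega⟩
        have h4 := hu ⟨i + (k + 1), h⟩
        simp only [] at h1 h2
        have h5 := hrel ⟨i + k, by omega⟩ ⟨i + (k + 1), h⟩ (by rw [Fin.lt_def]; simp only []; omega)
          (by rw [Fin.lt_def]; omega)
        exact (h5.2 (by omega)).symm
    have hconst' : ∀ l : Fin n, i ≤ l.val → l.val ≤ e → t (w l) = t (w ⟨i, by omega⟩) := by
      intro l hl1 hl2
      obtain ⟨q, hq⟩ : ∃ q, l.val = i + q := ⟨l.val - i, by omega⟩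
      have h4 := hconst q (by omega) (by omega)
      have h5 : (⟨i + q, by omega⟩ : Fin n) = l := Fin.ext hq.symm
      rwa [h5] at h4
    rw [← hw2, hconst' j hij hje, hconst' (w j).rev (by omega) (by omega)]
  apply Units.ext
  ext k l
  change (dg t * pm F w : GL (Fin n) F).1 l.rev k.rev = _
  rw [Fix_entry, Fix_entry]
  by_cases h : k = w l
  · rw [if_pos h, h, (hmain l).1, if_pos rfl, (hmain l).2]
  · rw [if_neg h, if_neg]
    intro h1
    apply h
    have h2 := (hmain k.rev).1
    rw [← h1, Fin.rev_rev, Fin.rev_rev] at h2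
    exact h2.symm

end PC.GK
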