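import Mathlib
import Pool.Agent.Lib.MP_ca1492_al.D4.GKDefs

/-!
# MP_ca1492_al, D4, GKOpen: open orbits (Baire)

`exists_open`: `X` closed and nonempty, stable under `B × N`. It is a locally compact space, hence
Baire. It is the union of the orbits of the finitely many `w ∈ W` with `w ∈ X` (an orbit meeting
`X` is contained in `X`), each orbit is the continuous image of `B × N`, a countable union of
compact sets. By Baire one of these compact (closed) sets has nonempty interior in `X`, so one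
orbit has nonempty interior in `X`; as the homeomorphisms `y ↦ b * y * n` of `X` act transitively
on the orbit, it is open in `X`.
`op_of_open`: an orbit which is open in the closed set `X` is locally compact, so Baire; the group
`B × N` (closed subgroups of a sigma-compact group, hence sigma-compact) acts continuously and
transitively on it, so `isOpenMap_smul_of_sigmaCompact` gives `Op`. (Action of `(b, n)`:
`y ↦ b * y * n⁻¹`.)
-/

open Topology

namespace PC.GK

variable {G : Type*} [Group G] [TopologicalSpace G] [IsTopologicalGroup G] [LocallyCompactSpace G]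
  [T2Space G] [SigmaCompactSpace G]

omit [IsTopologicalGroup G] [LocallyCompactSpace G] [T2Space G] [SigmaCompactSpace G]
  [TopologicalSpace G] in
theorem gkOpen_mul_mem {B N : Subgroup G} {x y : G} (h : y ∈ orb B N x) {b n : G} (hb : b ∈ B)
    (hn : n ∈ N) : b * y * n ∈ orb B N x := by
  obtain ⟨b', hb', n', hn', rfl⟩ := h
  exact ⟨b * b', B.mul_mem hb hb', n' * n, N.mul_mem hn' hn, by group⟩

theorem gkOpen_symm {B N : Subgroup G} {x y : G} (h : y ∈ orb B N x) : x ∈ orb B N y := by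
  obtain ⟨b, hb, n, hn, rfl⟩ := h
  exact ⟨b⁻¹, B.inv_mem hb, n⁻¹, N.inv_mem hn, by group⟩

theorem gkOpen_trans {B N : Subgroup G} {x y z : G} (h : y ∈ orb B N x) (h' : z ∈ orb B N y) :
    z ∈ orb B N x := by
  obtain ⟨b, hb, n, hn, rfl⟩ := h'
  exact gkOpen_mul_mem h hb hn

theorem exists_open (B N : Subgroup G) (hB : IsClosed (B : Set G)) (hN : IsClosed (N : Set G))
    (W : Finset G) (hW : ∀ g, ∃ w ∈ W, g ∈ orb B N w) (X : Set G) (hX : IsClosed X)
    (hS : Stab B N X) (hne : X.Nonempty) :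
    ∃ x ∈ X, ∃ V : Set G, IsOpen V ∧ V ∩ X = orb B N x := by
  have hBs : SigmaCompactSpace B := hB.sigmaCompactSpace
  have hNs : SigmaCompactSpace N := hN.sigmaCompactSpace
  have hXl : LocallyCompactSpace X := hX.isLocallyClosed.locallyCompactSpace
  have hXn : Nonempty X := hne.to_subtype
  have hXb : BaireSpace X := inferInstance
  have hcl : ∀ i : W × ℕ, IsClosed {x : X | (x : G) ∈ (fun p : B × N => (p.1 : G) * (i.1 : G) *
      (p.2 : G)) '' compactCovering (B × N) i.2} := by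
    intro i
    have hK : IsCompact ((fun p : B × N => (p.1 : G) * (i.1 : G) * (p.2 : G)) ''
        compactCovering (B × N) i.2) :=
      (isCompact_compactCovering (B × N) i.2).image (by fun_prop)
    exact hK.isClosed.preimage continuous_subtype_val
  have hun : ⋃ i : W × ℕ, {x : X | (x : G) ∈ (fun p : B × N => (p.1 : G) * (i.1 : G) *
      (p.2 : G)) '' compactCovering (B × N) i.2} = Set.univ := by
    refine Set.eq_univ_of_forall fun x => ?_
    obtain ⟨w, hw, b, hb, n, hn, e⟩ := hW x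
    obtain ⟨k, hk⟩ := exists_mem_compactCovering ((⟨b, hb⟩, ⟨n, hn⟩) : B × N)
    exact Set.mem_iUnion.mpr ⟨(⟨w, hw⟩, k), (⟨b, hb⟩, ⟨n, hn⟩), hk, e.symm⟩
  obtain ⟨⟨w, k⟩, x, hx⟩ := nonempty_interior_of_iUnion_of_closed hcl hun
  obtain ⟨O, hOs, hO, hxO⟩ := mem_interior.mp hx
  obtain ⟨O', hO', rfl⟩ := isOpen_induced_iff.mp hO
  have hmem : ∀ y ∈ X, y ∈ O' → y ∈ orb B N (w : G) := by
    intro y hy hyO
    obtain ⟨p, _, hp⟩ := hOs (show (⟨y, hy⟩ : X) ∈ Subtype.val ⁻¹' O' from hyO)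
    exact ⟨p.1, p.1.2, p.2, p.2.2, hp.symm⟩
  have hxw : (x : G) ∈ orb B N (w : G) := hmem x x.2 hxO
  refine ⟨x, x.2, {y | ∃ b ∈ B, ∃ n ∈ N, b * y * n ∈ O'}, ?_, ?_⟩
  · have e : {y : G | ∃ b ∈ B, ∃ n ∈ N, b * y * n ∈ O'} =
        ⋃ b ∈ B, ⋃ n ∈ N, (fun y : G => b * y * n) ⁻¹' O' := by
      ext y
      simp only [Set.mem_setOf_eq, Set.mem_iUnion, Set.mem_preimage, exists_prop]
    rw [e]
    refine isOpen_biUnion fun b _ => isOpen_biUnion fun n _ => ?_
    exact hO'.preimage (by fun_prop)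
  · ext y
    constructor
    · rintro ⟨⟨b, hb, n, hn, hyO⟩, hyX⟩
      have h1 : b * y * n ∈ orb B N (w : G) := hmem _ (hS y hyX b hb n hn) hyO
      have h2 : b * y * n ∈ orb B N (x : G) := gkOpen_trans (gkOpen_symm hxw) h1
      have h3 := gkOpen_mul_mem h2 (B.inv_mem hb) (N.inv_mem hn)
      rwa [show b⁻¹ * (b * y * n) * n⁻¹ = y by group] at h3
    · rintro ⟨b, hb, n, hn, rfl⟩
      refine ⟨⟨b⁻¹, B.inv_mem hb, n⁻¹, N.inv_mem hn, ?_⟩, hS x x.2 b hb n hn⟩
      rw [show b⁻¹ * (b * (x : G) * n) * n⁻¹ = x by group]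
      exact hxO

/-- the action of `B × N` on the orbit of `x` -/
def gkOpenAct (B N : Subgroup G) (x : G) : MulAction (B × N) (orb B N x) where
  smul p y := ⟨(p.1 : G) * (y : G) * (p.2 : G)⁻¹, gkOpen_mul_mem y.2 p.1.2 (N.inv_mem p.2.2)⟩
  one_smul y := Subtype.ext (by
    show ((1 : B) : G) * (y : G) * ((1 : N) : G)⁻¹ = y
    rw [Subgroup.coe_one, Subgroup.coe_one, inv_one, one_mul, mul_one])
  mul_smul p q y := Subtype.ext (by
    show ((p.1 * q.1 : B) : G) * (y : G) * ((p.2 * q.2 : N) : G)⁻¹ =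
      (p.1 : G) * ((q.1 : G) * (y : G) * (q.2 : G)⁻¹) * (p.2 : G)⁻¹
    rw [Subgroup.coe_mul, Subgroup.coe_mul]
    group)

theorem op_of_open (B N : Subgroup G) (hB : IsClosed (B : Set G)) (hN : IsClosed (N : Set G))
    (X : Set G) (hX : IsClosed X) (x : G) (V : Set G) (hV : IsOpen V)
    (h : V ∩ X = orb B N x) : Op B N X x := by
  have hBs : SigmaCompactSpace B := hB.sigmaCompactSpace
  have hNs : SigmaCompactSpace N := hN.sigmaCompactSpace
  have hYl : LocallyCompactSpace (orb B N x) := by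
    have h1 : IsLocallyClosed (orb B N x) := by
      rw [← h]
      exact hV.isLocallyClosed.inter hX.isLocallyClosed
    exact h1.locallyCompactSpace
  have hYb : BaireSpace (orb B N x) := inferInstance
  let _ : MulAction (B × N) (orb B N x) := gkOpenAct B N x
  have hsm : ∀ (p : B × N) (y : orb B N x),
      ((p • y : orb B N x) : G) = (p.1 : G) * (y : G) * (p.2 : G)⁻¹ := fun _ _ => rfl
  have hcs : ContinuousSMul (B × N) (orb B N x) := by
    constructor
    refine Continuous.subtype_mk (f := fun p : (B × N) × (orb B N x) =>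
      (p.1.1 : G) * (p.2 : G) * (p.1.2 : G)⁻¹) ?_ _
    fun_prop
  have hpt : MulAction.IsPretransitive (B × N) (orb B N x) := by
    constructor
    rintro y z
    obtain ⟨b, hb, n, hn, e⟩ := gkOpen_trans (gkOpen_symm y.2) z.2
    refine ⟨(⟨b, hb⟩, ⟨n⁻¹, N.inv_mem hn⟩), Subtype.ext ?_⟩
    rw [hsm]
    show b * (y : G) * (n⁻¹)⁻¹ = z
    rw [inv_inv, e]
  intro U hU
  have hxx : x ∈ orb B N x := ⟨1, B.one_mem, 1, N.one_mem, by simp⟩
  have hU' : {p : B × N | (p.1 : G) ∈ U ∧ (p.2 : G)⁻¹ ∈ U} ∈ 𝓝 (1 : B × N) := by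
    have c1 : Filter.Tendsto (fun p : B × N => (p.1 : G)) (𝓝 1) (𝓝 (1 : G)) := by
      have : Continuous (fun p : B × N => (p.1 : G)) := by fun_prop
      exact this.tendsto' 1 1 rfl
    have c2 : Filter.Tendsto (fun p : B × N => (p.2 : G)⁻¹) (𝓝 1) (𝓝 (1 : G)) := by
      have : Continuous (fun p : B × N => (p.2 : G)⁻¹) := by fun_prop
      exact this.tendsto' 1 1 (by simp)
    exact Filter.inter_mem (c1 hU) (c2 hU)
  have key := smul_singleton_mem_nhds_of_sigmaCompact (G := B × N) (X := orb B N x) hU' ⟨x, hxx⟩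
  rw [nhds_subtype_eq_comap, Filter.mem_comap] at key
  obtain ⟨V₁, hV₁, hsub⟩ := key
  have hxV : x ∈ V := by
    have : x ∈ V ∩ X := by rw [h]; exact hxx
    exact this.1
  refine ⟨V₁ ∩ V, Filter.inter_mem hV₁ (hV.mem_nhds hxV), ?_⟩
  rintro y ⟨hy1, hyV⟩ hyX
  have hyo : y ∈ orb B N x := by rw [← h]; exact ⟨hyV, hyX⟩
  have hy2 := hsub (show (⟨y, hyo⟩ : orb B N x) ∈ Subtype.val ⁻¹' V₁ from hy1)
  rw [Set.mem_smul] at hy2
  obtain ⟨p, hp, z, hz, e⟩ := hy2
  rw [Set.mem_singleton_iff] at hz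
  have e2 := congrArg Subtype.val e
  rw [hsm, hz] at e2
  exact ⟨p.1, p.1.2, hp.1, (p.2 : G)⁻¹, N.inv_mem p.2.2, hp.2, e2.symm⟩

end PC.GK
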