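import Mathlib
import Pool.Agent.Lib.MP_ca1492_al.D4.GKDefs

/-!
# MP_ca1492_al, D4, GKCpt: compact subsets of an orbit come from compact sets of the group

Proof. Let `U` be a compact neighbourhood of `1`. For `y ∈ Ω` write `y = b * w * n` and let `V`
be the neighbourhood of `y` given by `Op` for `U`: every `z ∈ V ∩ X` is
`(b' * b) * w * (n * n')` with `b' ∈ B ∩ U`, `n' ∈ N ∩ U`. Finitely many `V` cover `Ω`, and `K` is
the finite union of the compact sets `{(b' * b, n * n')}`.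
-/

open Topology

namespace PC.GK

variable {G : Type*} [Group G] [TopologicalSpace G] [IsTopologicalGroup G] [LocallyCompactSpace G]
  [T2Space G]

theorem cpt (B N : Subgroup G) (hB : IsClosed (B : Set G)) (hN : IsClosed (N : Set G))
    (X : Set G) (w : G) (Ω : Set G) (hΩ : IsCompact Ω) (hΩX : Ω ⊆ X) (hΩw : Ω ⊆ orb B N w)
    (hO : ∀ x ∈ Ω, Op B N X x) :
    ∃ K : Set (G × G), IsCompact K ∧ (∀ p ∈ K, p.1 ∈ B ∧ p.2 ∈ N) ∧
      ∀ x ∈ Ω, ∃ p ∈ K, x = p.1 * w * p.2 := by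
  classical
  obtain ⟨U, hUc, hU⟩ := exists_compact_mem_nhds (1 : G)
  have h1 : ∀ y : G, y ∈ Ω → ∃ b ∈ B, ∃ n ∈ N, y = b * w * n := fun y hy => hΩw hy
  choose! b hbB n hnN hbn using h1
  have h2 : ∀ y : G, y ∈ Ω → ∃ V ∈ 𝓝 y, ∀ z ∈ V, z ∈ X →
      ∃ b ∈ B, b ∈ U ∧ ∃ n ∈ N, n ∈ U ∧ z = b * y * n := fun y hy => hO y hy U hU
  choose! V hV hVX using h2
  obtain ⟨t, htΩ, htc⟩ := hΩ.elim_nhds_subcover V hV
  refine ⟨⋃ y ∈ t, (fun u : G × G => (u.1 * b y, n y * u.2)) ''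
    ((U ∩ (B : Set G)) ×ˢ (U ∩ (N : Set G))), ?_, ?_, ?_⟩
  · refine t.isCompact_biUnion fun y _ => ?_
    refine ((hUc.inter_right hB).prod (hUc.inter_right hN)).image ?_
    fun_prop
  · intro p hp
    simp only [Set.mem_iUnion] at hp
    obtain ⟨y, hyt, u, hu, rfl⟩ := hp
    have hyΩ := htΩ y hyt
    exact ⟨B.mul_mem hu.1.2 (hbB y hyΩ), N.mul_mem (hnN y hyΩ) hu.2.2⟩
  · intro x hx
    have hx' := htc hx
    simp only [Set.mem_iUnion] at hx'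
    obtain ⟨y, hyt, hxV⟩ := hx'
    have hyΩ := htΩ y hyt
    obtain ⟨b', hb'B, hb'U, n', hn'N, hn'U, hxe⟩ := hVX y hyΩ x hxV (hΩX hx)
    refine ⟨(b' * b y, n y * n'), ?_, ?_⟩
    · simp only [Set.mem_iUnion]
      exact ⟨y, hyt, (b', n'), ⟨⟨hb'U, hb'B⟩, ⟨hn'U, hn'N⟩⟩, rfl⟩
    · have h3 := hbn y hyΩ
      calc x = b' * y * n' := hxe
        _ = b' * (b y * w * n y) * n' := by rw [← h3]
        _ = (b' * b y) * w * (n y * n') := by group

end PC.GK
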