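import Mathlib
import Pool.Agent.Lib.MP_ca1492_al.D4.GKDefs

/-!
# MP_ca1492_al, D4, GKAvg: averaging operators

`av ψ σ R f x = |R|⁻² ∑_{a, b ∈ R} ψ a * ψ b * f (a * x * σ b)`.
* `reps`: `N' / (N' ∩ C)` is finite because `N'` is compact and `C` is open: choose
  representatives of the right cosets `(N' ∩ C) r`.
* `av_sigma`: `f (a * σ x * σ b) = f (σ (b * x * σ a))`; exchange the two sums.
* `av_D`: linearity and equivariance (all translates of `f` are again in the class `IsS`: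
  hypothesis `hT`), `ψ (σ b) = ψ b`.
* `av_equiv`: replace `a` by the representative of `a * a₀`: `a * a₀ = c * r` with
  `c ∈ N' ∩ C`, `f (c * y) = f y`, `ψ (a * a₀) = ψ r`; the map `a ↦ r` is a bijection of `R`.
  On the right the same after applying `σ`.
-/

open Topology

namespace PC.GK

variable {G : Type*} [Group G] [TopologicalSpace G] [IsTopologicalGroup G]

theorem reps (N' : Subgroup G) (hN : IsCompact (N' : Set G)) (C : OpenSubgroup G) :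
    ∃ R : Finset G, R.Nonempty ∧ (∀ r ∈ R, r ∈ N') ∧ ∀ a ∈ N', ∃! r, r ∈ R ∧ a * r⁻¹ ∈ C := by
  classical
  haveI : CompactSpace N' := isCompact_iff_compactSpace.1 hN
  let H : Subgroup N' := (C : Subgroup G).subgroupOf N'
  have hH : IsOpen (H : Set N') := C.isOpen.preimage continuous_subtype_val
  haveI : Finite (N' ⧸ H) := H.quotient_finite_of_isOpen hH
  haveI : Fintype (N' ⧸ H) := Fintype.ofFinite _
  let g : N' ⧸ H → G := fun q => ((q.out : N') : G)⁻¹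
  refine ⟨Finset.univ.image g, ?_, ?_, ?_⟩
  · exact ⟨g (QuotientGroup.mk 1), Finset.mem_image_of_mem _ (Finset.mem_univ _)⟩
  · intro r hr
    obtain ⟨q, -, rfl⟩ := Finset.mem_image.1 hr
    exact N'.inv_mem q.out.2
  · intro a ha
    let a' : N' := ⟨a, ha⟩
    have key : ∀ q : N' ⧸ H, a * (g q)⁻¹ ∈ C ↔ (QuotientGroup.mk (a'⁻¹) : N' ⧸ H) = q := by
      intro q
      have h1 : (QuotientGroup.mk (a'⁻¹) : N' ⧸ H) = q ↔ (a'⁻¹)⁻¹ * q.out ∈ H := by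
        conv_lhs => rw [← QuotientGroup.out_eq' q]
        exact QuotientGroup.eq
      rw [h1]
      have h2 : a * (g q)⁻¹ = (((a'⁻¹)⁻¹ * q.out : N') : G) := by
        simp only [g, inv_inv]
        rfl
      rw [h2]
      exact Iff.rfl
    refine ⟨g (QuotientGroup.mk (a'⁻¹)), ⟨Finset.mem_image_of_mem _ (Finset.mem_univ _),
      (key _).2 rfl⟩, ?_⟩
    rintro r ⟨hr, hr2⟩
    obtain ⟨q, -, rfl⟩ := Finset.mem_image.1 hr
    rw [(key q).1 hr2]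

theorem av_sigma (ψ : G → ℂ) (σ : G → G) (hσ : ∀ g, σ (σ g) = g)
    (hσm : ∀ g h, σ (g * h) = σ h * σ g) (R : Finset G) (f : G → ℂ) (x : G) :
    av ψ σ R f (σ x) = av ψ σ R (fun y => f (σ y)) x := by
  unfold av
  congr 1
  rw [Finset.sum_comm]
  refine Finset.sum_congr rfl fun a _ => Finset.sum_congr rfl fun b _ => ?_
  have h1 : σ (a * x * σ b) = b * σ x * σ a := by
    rw [hσm, hσm, hσ, mul_assoc]
  change ψ b * ψ a * f (b * σ x * σ a) = ψ a * ψ b * f (σ (a * x * σ b))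
  rw [h1, mul_comm (ψ b)]

theorem GKAvg_ne (d : Data G) {a : G} (ha : a ∈ d.N) : d.ψ a ≠ 0 := by
  intro h
  have h1 := d.ψ_mul a ha a⁻¹ (d.N.inv_mem ha)
  rw [mul_inv_cancel, d.ψ_one, h, zero_mul] at h1
  exact one_ne_zero h1

theorem av_D (d : Data G) (D : (G → ℂ) →ₗ[ℂ] ℂ) (hD : Equi d.N d.ψ D) (R : Finset G)
    (hR : R.Nonempty) (hRN : ∀ r ∈ R, r ∈ d.N) (f : G → ℂ) (hf : IsS f)
    (hT : ∀ a : G, IsS (fun x => f (a * x))) : D (av d.ψ d.σ R f) = D f := by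
  have h1 : av d.ψ d.σ R f = ((R.card : ℂ)⁻¹) ^ 2 • ∑ a ∈ R, ∑ b ∈ R,
      (d.ψ a * d.ψ b) • (fun x => f (a * x * d.σ b)) := by
    funext x
    unfold av
    simp only [Pi.smul_apply, Finset.sum_apply, smul_eq_mul]
  have h2 : ∀ a ∈ R, ∀ b ∈ R, (d.ψ a * d.ψ b) • D (fun x => f (a * x * d.σ b)) = D f := by
    intro a ha b hb
    have h3 := (hD (fun x => f (a * x)) (hT a) (d.σ b) (d.σ_N b (hRN b hb))).2
    have h4 := (hD f hf a (hRN a ha)).1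
    have h5 : (fun x => f (a * x * d.σ b)) = fun x => (fun x => f (a * x)) (x * d.σ b) := by
      funext x
      rw [mul_assoc]
    rw [h5, h3, h4, d.ψ_σ b (hRN b hb), smul_eq_mul]
    have ha' := GKAvg_ne d (hRN a ha)
    have hb' := GKAvg_ne d (hRN b hb)
    field_simp
  have hc : (R.card : ℂ) ≠ 0 := by
    exact_mod_cast (Finset.card_pos.2 hR).ne'
  rw [h1, map_smul, map_sum]
  have h6 : ∀ a ∈ R, D (∑ b ∈ R, (d.ψ a * d.ψ b) • (fun x => f (a * x * d.σ b))) =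
      (R.card : ℂ) * D f := by
    intro a ha
    rw [map_sum, Finset.sum_congr rfl fun b hb => by rw [map_smul, h2 a ha b hb],
      Finset.sum_const, nsmul_eq_mul]
  rw [Finset.sum_congr rfl h6, Finset.sum_const, nsmul_eq_mul, smul_eq_mul]
  field_simp

theorem GKAvg_sum (N' C : Subgroup G) (R : Finset G) (hRN : ∀ r ∈ R, r ∈ N')
    (hR : ∀ a ∈ N', ∃! r, r ∈ R ∧ a * r⁻¹ ∈ C) {a₀ : G} (ha₀ : a₀ ∈ N') (Φ F : G → ℂ)
    (h : ∀ a ∈ R, ∀ r ∈ R, a * a₀ * r⁻¹ ∈ C → Φ a = F r) :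
    ∑ a ∈ R, Φ a = ∑ r ∈ R, F r := by
  classical
  have hex : ∀ a : G, ∃ r : G, a ∈ R → (r ∈ R ∧ a * a₀ * r⁻¹ ∈ C) := by
    intro a
    by_cases ha : a ∈ R
    · obtain ⟨r, hr, -⟩ := hR (a * a₀) (N'.mul_mem (hRN a ha) ha₀)
      exact ⟨r, fun _ => hr⟩
    · exact ⟨1, fun h => absurd h ha⟩
  choose ρ hρ using hex
  have hmaps : ∀ a ∈ R, ρ a ∈ R := fun a ha => (hρ a ha).1
  have hinj : Set.InjOn ρ (R : Set G) := by
    intro a ha b hb hab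
    have h1 := (hρ a ha).2
    have h2 := (hρ b hb).2
    rw [hab] at h1
    have h3 : a * b⁻¹ ∈ C := by
      have h4 := C.mul_mem h1 (C.inv_mem h2)
      have h5 : a * a₀ * (ρ b)⁻¹ * (b * a₀ * (ρ b)⁻¹)⁻¹ = a * b⁻¹ := by group
      rwa [h5] at h4
    have h6 : a * a⁻¹ ∈ C := by
      rw [mul_inv_cancel]
      exact C.one_mem
    exact (hR a (hRN a ha)).unique ⟨ha, h6⟩ ⟨hb, h3⟩
  have hsurj : Set.SurjOn ρ (R : Set G) (R : Set G) :=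
    Finset.surjOn_of_injOn_of_card_le ρ hmaps hinj le_rfl
  exact Finset.sum_nbij ρ hmaps hinj hsurj fun a ha => h a ha (ρ a) (hmaps a ha) (hρ a ha).2

theorem av_equiv (d : Data G) (N' : Subgroup G) (hN' : Good d.N d.σ N') (C : Subgroup G)
    (hψ : ∀ a ∈ d.N, a ∈ C → d.ψ a = 1) (hσC : ∀ c ∈ C, d.σ c ∈ C) (R : Finset G)
    (hRN : ∀ r ∈ R, r ∈ N') (hR : ∀ a ∈ N', ∃! r, r ∈ R ∧ a * r⁻¹ ∈ C) (f : G → ℂ)
    (hf : ∀ c ∈ C, ∀ x, f (c * x) = f x ∧ f (x * c) = f x) :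
    ∀ a ∈ N', ∀ c ∈ N', ∀ x,
      av d.ψ d.σ R f (a * x * c) = (d.ψ a)⁻¹ * (d.ψ c)⁻¹ * av d.ψ d.σ R f x := by
  intro a₀ ha₀ c₀ hc₀ x
  have hle := hN'.1
  have hψr : ∀ g₀ ∈ N', ∀ g ∈ R, ∀ r ∈ R, g * g₀ * r⁻¹ ∈ C →
      d.ψ g = (d.ψ g₀)⁻¹ * d.ψ r := by
    intro g₀ hg₀ g hg r hr hc
    have h1 : g * g₀ * r⁻¹ ∈ d.N := d.N.mul_mem
      (d.N.mul_mem (hle (hRN g hg)) (hle hg₀)) (d.N.inv_mem (hle (hRN r hr)))
    have h2 := hψ _ h1 hc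
    have h3 := d.ψ_mul _ h1 r (hle (hRN r hr))
    rw [h2, one_mul, inv_mul_cancel_right, d.ψ_mul g (hle (hRN g hg)) g₀ (hle hg₀)] at h3
    rw [← h3, mul_comm (d.ψ g), ← mul_assoc, inv_mul_cancel₀ (GKAvg_ne d (hle hg₀)), one_mul]
  have hin : ∀ y : G, ∑ b ∈ R, d.ψ b * f (y * c₀ * d.σ b) =
      ∑ r ∈ R, (d.ψ c₀)⁻¹ * (d.ψ r * f (y * d.σ r)) := by
    intro y
    refine GKAvg_sum N' C R hRN hR (hN'.2.2 c₀ hc₀) _ _ fun b hb r hr hc => ?_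
    have h1 := hψr _ (hN'.2.2 c₀ hc₀) b hb r hr hc
    rw [d.ψ_σ c₀ (hle hc₀)] at h1
    have h2 : c₀ * d.σ b = d.σ r * d.σ (b * d.σ c₀ * r⁻¹) := by
      rw [← d.σ_mul, inv_mul_cancel_right, d.σ_mul, d.σ_inv]
    rw [h1, mul_assoc y, h2, ← mul_assoc y, (hf _ (hσC _ hc) _).2]
    ring
  have hout : ∀ y : G, ∑ a ∈ R, d.ψ a * ∑ b ∈ R, d.ψ b * f (a * (a₀ * y) * d.σ b) =
      ∑ r ∈ R, (d.ψ a₀)⁻¹ * (d.ψ r * ∑ b ∈ R, d.ψ b * f (r * y * d.σ b)) := by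
    intro y
    refine GKAvg_sum N' C R hRN hR ha₀ _ _ fun a ha r hr hc => ?_
    have h1 := hψr _ ha₀ a ha r hr hc
    have h2 : ∀ b, f (a * (a₀ * y) * d.σ b) = f (r * y * d.σ b) := by
      intro b
      have h3 : a * (a₀ * y) * d.σ b = (a * a₀ * r⁻¹) * (r * y * d.σ b) := by group
      rw [h3, (hf _ hc _).1]
    simp only [h2]
    rw [h1]
    ring
  have e1 : ∀ z : G, av d.ψ d.σ R f z = ((R.card : ℂ)⁻¹) ^ 2 *
      ∑ a ∈ R, d.ψ a * ∑ b ∈ R, d.ψ b * f (a * z * d.σ b) := by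
    intro z
    unfold av
    congr 1
    refine Finset.sum_congr rfl fun a _ => ?_
    rw [Finset.mul_sum]
    refine Finset.sum_congr rfl fun b _ => ?_
    ring
  have e2 : ∀ a : G, ∑ b ∈ R, d.ψ b * f (a * (a₀ * x * c₀) * d.σ b) =
      (d.ψ c₀)⁻¹ * ∑ b ∈ R, d.ψ b * f (a * (a₀ * x) * d.σ b) := by
    intro a
    have h1 := hin (a * (a₀ * x))
    rw [← Finset.mul_sum] at h1
    rw [← h1]
    refine Finset.sum_congr rfl fun b _ => ?_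
    simp only [mul_assoc]
  rw [e1, e1, Finset.sum_congr rfl fun a _ => by rw [e2 a]]
  have e3 : ∑ a ∈ R, d.ψ a * ((d.ψ c₀)⁻¹ * ∑ b ∈ R, d.ψ b * f (a * (a₀ * x) * d.σ b)) =
      (d.ψ c₀)⁻¹ * ∑ a ∈ R, d.ψ a * ∑ b ∈ R, d.ψ b * f (a * (a₀ * x) * d.σ b) := by
    rw [Finset.mul_sum]
    refine Finset.sum_congr rfl fun a _ => ?_
    ring
  rw [e3, hout x, ← Finset.mul_sum]
  ring

theorem av_ne (ψ : G → ℂ) (σ : G → G) (R : Finset G) (f : G → ℂ) (x : G)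
    (h : av ψ σ R f x ≠ 0) : ∃ a ∈ R, ∃ b ∈ R, f (a * x * σ b) ≠ 0 := by
  by_contra hne
  apply h
  unfold av
  have h1 : ∑ a ∈ R, ∑ b ∈ R, ψ a * ψ b * f (a * x * σ b) = 0 := by
    refine Finset.sum_eq_zero fun a ha => Finset.sum_eq_zero fun b hb => ?_
    have h2 : f (a * x * σ b) = 0 := by
      by_contra h3
      exact hne ⟨a, ha, b, hb, h3⟩
    rw [h2, mul_zero]
  rw [h1, mul_zero]

end PC.GK
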