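import Mathlib
import Pool.Agent.Lib.MP_ca1492_al.D4.GKDefs

/-!
# MP_ca1492_al, D4, GKBasic: elementary facts on locally constant compactly supported functions

`unif`: cover the compact support `K` by the generalized tube lemma: the set
`{(c, x) | f (c * x) = f x}` is open and contains `{1} × K`, so there is a neighbourhood `U` of `1`
with `f (c * x) = f x` for `c ∈ U`, `x ∈ K`. Take an open subgroup inside `U`
(`NonarchimedeanGroup.is_nonarchimedean`). For `x ∉ K` with `f (c * x) ≠ 0` put `y = c * x ∈ K`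
and use `f (c⁻¹ * y) = f y`, so `f x = f y ≠ 0`, contradiction. The same on the right, intersect
the two subgroups.
`ns_compact`: `{x | f x ≠ 0}` is closed (locally constant) inside the compact support.
-/

open Topology

namespace PC.GK

theorem IsS.zero {X : Type*} [TopologicalSpace X] : IsS (fun _ : X => (0 : ℂ)) := by
  refine ⟨IsLocallyConstant.const 0, ?_⟩
  have h : HasCompactSupport (0 : X → ℂ) := HasCompactSupport.zero
  exact h

theorem IsS.add {X : Type*} [TopologicalSpace X] {f g : X → ℂ} (hf : IsS f) (hg : IsS g) :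
    IsS (fun x => f x + g x) := by
  have h1 : IsLocallyConstant (f + g) := hf.1.add hg.1
  have h2 : HasCompactSupport (f + g) := hf.2.add hg.2
  exact ⟨h1, h2⟩

theorem IsS.smul {X : Type*} [TopologicalSpace X] {f : X → ℂ} (hf : IsS f) (c : ℂ) :
    IsS (fun x => c * f x) := by
  have h1 : IsLocallyConstant ((fun z => c * z) ∘ f) := hf.1.comp _
  have h2 : HasCompactSupport ((fun _ => c) * f) := hf.2.mul_left
  exact ⟨h1, h2⟩

theorem IsS.sub {X : Type*} [TopologicalSpace X] {f g : X → ℂ} (hf : IsS f) (hg : IsS g) :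
    IsS (fun x => f x - g x) := by
  have h := hf.add (hg.smul (-1))
  have e : (fun x => f x - g x) = (fun x => f x + (-1) * g x) := by
    funext x
    ring
  rw [e]
  exact h

theorem IsS.sum {X : Type*} [TopologicalSpace X] {ι : Type*} (s : Finset ι) {f : ι → X → ℂ}
    (hf : ∀ i ∈ s, IsS (f i)) : IsS (fun x => ∑ i ∈ s, f i x) := by
  classical
  induction s using Finset.induction_on with
  | empty =>
    simp only [Finset.sum_empty]
    exact IsS.zero
  | insert a s ha ih =>
    have e : (fun x => ∑ i ∈ insert a s, f i x) = (fun x => f a x + ∑ i ∈ s, f i x) := by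
      funext x
      exact Finset.sum_insert ha
    rw [e]
    exact (hf a (Finset.mem_insert_self a s)).add
      (ih (fun i hi => hf i (Finset.mem_insert_of_mem hi)))

/-- composition with a continuous involution-like map (a homeomorphism with inverse `τ`) -/
theorem IsS.comp {X : Type*} [TopologicalSpace X] {f : X → ℂ} (hf : IsS f) (σ τ : X → X)
    (hσ : Continuous σ) (hτ : Continuous τ) (h1 : ∀ x, σ (τ x) = x) (h2 : ∀ x, τ (σ x) = x) :
    IsS (fun x => f (σ x)) := by
  obtain ⟨φ, hφ⟩ : ∃ φ : X ≃ₜ X, ∀ x, φ x = σ x :=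
    ⟨{ toFun := σ, invFun := τ, left_inv := h2, right_inv := h1, continuous_toFun := hσ,
       continuous_invFun := hτ }, fun x => rfl⟩
  have e : (fun x => f (σ x)) = f ∘ φ := by
    funext x
    show f (σ x) = f (φ x)
    rw [hφ]
  rw [e]
  exact ⟨hf.1.comp_continuous φ.continuous, hf.2.comp_homeomorph φ⟩

theorem IsS.left {G : Type*} [Group G] [TopologicalSpace G] [IsTopologicalGroup G] {f : G → ℂ}
    (hf : IsS f) (a : G) : IsS (fun x => f (a * x)) :=
  hf.comp (fun x => a * x) (fun x => a⁻¹ * x) (continuous_const.mul continuous_id)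
    (continuous_const.mul continuous_id) (fun x => by simp) (fun x => by simp)

theorem IsS.right {G : Type*} [Group G] [TopologicalSpace G] [IsTopologicalGroup G] {f : G → ℂ}
    (hf : IsS f) (a : G) : IsS (fun x => f (x * a)) :=
  hf.comp (fun x => x * a) (fun x => x * a⁻¹) (continuous_id.mul continuous_const)
    (continuous_id.mul continuous_const) (fun x => by simp) (fun x => by simp)

theorem unif {G : Type*} [Group G] [TopologicalSpace G] [IsTopologicalGroup G]
    [NonarchimedeanGroup G] {f : G → ℂ} (hf : IsS f) :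
    ∃ C : OpenSubgroup G, ∀ c ∈ C, ∀ x, f (c * x) = f x ∧ f (x * c) = f x := by
  have hK : IsCompact (tsupport f) := hf.2
  have hz : ∀ x, x ∉ tsupport f → f x = 0 := fun x hx => image_eq_zero_of_notMem_tsupport hx
  have key : ∀ m : G × G → G, Continuous m → (∀ x, m (1, x) = x) →
      ∃ u : Set G, IsOpen u ∧ (1 : G) ∈ u ∧ ∀ c ∈ u, ∀ x ∈ tsupport f, f (m (c, x)) = f x := by
    intro m hm h1
    have hl : IsLocallyConstant (fun p : G × G => (f (m p), f p.2)) :=
      (hf.1.comp_continuous hm).prodMk (hf.1.comp_continuous continuous_snd)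
    have hopen : IsOpen {p : G × G | f (m p) = f p.2} := hl {z : ℂ × ℂ | z.1 = z.2}
    have hsub : ({1} : Set G) ×ˢ tsupport f ⊆ {p : G × G | f (m p) = f p.2} := by
      rintro ⟨c, x⟩ ⟨hc, -⟩
      have hc' : c = 1 := hc
      show f (m (c, x)) = f x
      rw [hc', h1]
    obtain ⟨u, v, hu, -, h1u, hKv, huv⟩ :=
      generalized_tube_lemma isCompact_singleton hK hopen hsub
    refine ⟨u, hu, h1u rfl, ?_⟩
    intro c hc x hx
    exact huv (Set.mk_mem_prod hc (hKv hx))
  obtain ⟨u1, hu1, h11, H1⟩ := key (fun p => p.1 * p.2) continuous_mul (fun x => one_mul x)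
  obtain ⟨u2, hu2, h12, H2⟩ := key (fun p => p.2 * p.1)
    (continuous_snd.mul continuous_fst) (fun x => mul_one x)
  obtain ⟨C, hC⟩ := NonarchimedeanGroup.is_nonarchimedean (u1 ∩ u2)
    ((hu1.inter hu2).mem_nhds ⟨h11, h12⟩)
  refine ⟨C, fun c hc x => ⟨?_, ?_⟩⟩
  · by_cases hx : x ∈ tsupport f
    · exact H1 c (hC hc).1 x hx
    · by_cases hy : c * x ∈ tsupport f
      · have hc' : c⁻¹ ∈ C := C.inv_mem hc
        have h := H1 c⁻¹ (hC hc').1 (c * x) hy
        simp only [inv_mul_cancel_left] at h
        exact h.symm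
      · rw [hz _ hx, hz _ hy]
  · by_cases hx : x ∈ tsupport f
    · exact H2 c (hC hc).2 x hx
    · by_cases hy : x * c ∈ tsupport f
      · have hc' : c⁻¹ ∈ C := C.inv_mem hc
        have h := H2 c⁻¹ (hC hc').2 (x * c) hy
        simp only [mul_inv_cancel_right] at h
        exact h.symm
      · rw [hz _ hx, hz _ hy]

theorem ns_compact {X : Type*} [TopologicalSpace X] {f : X → ℂ} (hf : IsS f) {A : Set X}
    (hA : IsClosed A) : IsCompact {x | x ∈ A ∧ f x ≠ 0} := by
  have h1 : IsClosed {x | f x ≠ 0} := by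
    have h : IsOpen {x | f x = 0} := hf.1 {0}
    exact h.isClosed_compl
  have h2 : IsClosed {x | x ∈ A ∧ f x ≠ 0} := hA.inter h1
  refine IsCompact.of_isClosed_subset hf.2 h2 ?_
  rintro x ⟨-, hx⟩
  exact subset_tsupport f hx

end PC.GK
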