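import Mathlib
import Pool.Agent.Lib.MP_ca1492_al.D4.GKAvg
import Pool.Agent.Lib.MP_ca1492_al.D4.GKBasic

/-!
# MP_ca1492_al, D4, GKAvMain: the packaged averaging statement

For `f` of class `IsS` and a good subgroup `N'` there is a function `g` of class `IsS` with
`D g = D f` and `D (g ∘ σ) = D (f ∘ σ)` for every equivariant `D`, which is `ψ⁻¹`-equivariant under
`N'` on both sides and whose support comes from the support of `f`.
Proof: `C` from `unif`, intersected with the neighbourhood where `ψ = 1` (an open subgroup by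
`NonarchimedeanGroup`) and with its image under `σ`; `R` from `reps`; `g = av ψ σ R f`.
-/

open Topology

namespace PC.GK

variable {G : Type*} [Group G] [TopologicalSpace G] [IsTopologicalGroup G] [NonarchimedeanGroup G]

omit [TopologicalSpace G] [IsTopologicalGroup G] [NonarchimedeanGroup G] in
theorem GKAvMain_one (σ : G → G) (hσ : ∀ g, σ (σ g) = g)
    (hσm : ∀ g h, σ (g * h) = σ h * σ g) : σ 1 = 1 := by
  have h := hσm 1 1
  rw [mul_one] at h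
  exact mul_left_cancel (a := σ 1) (by rw [← h, mul_one])

omit [TopologicalSpace G] [IsTopologicalGroup G] [NonarchimedeanGroup G] in
theorem GKAvMain_inv (σ : G → G) (hσ : ∀ g, σ (σ g) = g)
    (hσm : ∀ g h, σ (g * h) = σ h * σ g) (g : G) : σ g⁻¹ = (σ g)⁻¹ := by
  apply eq_inv_of_mul_eq_one_left
  rw [← hσm, mul_inv_cancel, GKAvMain_one σ hσ hσm]

omit [IsTopologicalGroup G] [NonarchimedeanGroup G] in
/-- the largest `σ`-stable subgroup of an open subgroup -/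
theorem GKAvMain_stab (σ : G → G) (hc : Continuous σ) (hσ : ∀ g, σ (σ g) = g)
    (hσm : ∀ g h, σ (g * h) = σ h * σ g) (C : OpenSubgroup G) :
    ∃ C' : OpenSubgroup G, (∀ c ∈ C', c ∈ C) ∧ ∀ c ∈ C', σ c ∈ C' := by
  refine ⟨⟨{ carrier := {g | g ∈ C ∧ σ g ∈ C}
             mul_mem' := ?_
             one_mem' := ?_
             inv_mem' := ?_ }, ?_⟩, ?_, ?_⟩
  · rintro a b ⟨ha, ha'⟩ ⟨hb, hb'⟩
    refine ⟨mul_mem ha hb, ?_⟩
    rw [hσm]
    exact mul_mem hb' ha'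
  · refine ⟨one_mem C, ?_⟩
    rw [GKAvMain_one σ hσ hσm]
    exact one_mem C
  · rintro a ⟨ha, ha'⟩
    refine ⟨inv_mem ha, ?_⟩
    rw [GKAvMain_inv σ hσ hσm]
    exact inv_mem ha'
  · exact C.isOpen.inter (C.isOpen.preimage hc)
  · rintro c ⟨h1, -⟩
    exact h1
  · rintro c ⟨h1, h2⟩
    exact ⟨h2, by rw [hσ]; exact h1⟩

omit [NonarchimedeanGroup G] in
theorem GKAvMain_isS (ψ : G → ℂ) (σ : G → G) (R : Finset G) (f : G → ℂ) (hf : IsS f) :
    IsS (av ψ σ R f) := by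
  unfold av
  refine IsS.smul (IsS.sum R fun a _ => IsS.sum R fun b _ => IsS.smul ?_ _) _
  have h := (hf.left a).right (σ b)
  simpa only [mul_assoc] using h

theorem avMain (d : Data G) (N' : Subgroup G) (hN' : Good d.N d.σ N') (f : G → ℂ) (hf : IsS f) :
    ∃ g : G → ℂ, IsS g ∧
      (∀ D : (G → ℂ) →ₗ[ℂ] ℂ, Equi d.N d.ψ D →
        D g = D f ∧ D (fun x => g (d.σ x)) = D (fun x => f (d.σ x))) ∧
      (∀ a ∈ N', ∀ c ∈ N', ∀ x, g (a * x * c) = (d.ψ a)⁻¹ * (d.ψ c)⁻¹ * g x) ∧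
      (∀ x, g x ≠ 0 → ∃ a ∈ N', ∃ c ∈ N', f (a * x * c) ≠ 0) ∧
      (∀ x, g (d.σ x) ≠ 0 → ∃ a ∈ N', ∃ c ∈ N', f (d.σ (a * x * c)) ≠ 0) := by
  obtain ⟨C₁, hC₁⟩ := unif hf
  obtain ⟨U, hU, hψU⟩ := d.ψ_loc
  obtain ⟨C₂, hC₂⟩ := NonarchimedeanGroup.is_nonarchimedean U hU
  obtain ⟨C, hC, hCσ⟩ := GKAvMain_stab d.σ d.σ_cont d.σ_inv d.σ_mul (C₁ ⊓ C₂)
  have hC1 : ∀ c ∈ C, c ∈ C₁ := fun c hc => (OpenSubgroup.mem_inf.mp (hC c hc)).1
  have hC2 : ∀ c ∈ C, c ∈ C₂ := fun c hc => (OpenSubgroup.mem_inf.mp (hC c hc)).2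
  obtain ⟨R, hRne, hRN, hR⟩ := reps N' hN'.2.1 C
  have hfσ : IsS (fun x => f (d.σ x)) :=
    hf.comp d.σ d.σ d.σ_cont d.σ_cont d.σ_inv d.σ_inv
  have hsig : ∀ x, av d.ψ d.σ R f (d.σ x) = av d.ψ d.σ R (fun y => f (d.σ y)) x := fun x =>
    av_sigma d.ψ d.σ d.σ_inv d.σ_mul R f x
  refine ⟨av d.ψ d.σ R f, GKAvMain_isS _ _ _ _ hf, ?_, ?_, ?_, ?_⟩
  · intro D hD
    refine ⟨av_D d D hD R hRne (fun r hr => hN'.1 (hRN r hr)) f hf fun a => hf.left a, ?_⟩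
    have h1 : (fun x => av d.ψ d.σ R f (d.σ x)) = av d.ψ d.σ R (fun y => f (d.σ y)) := funext hsig
    rw [h1]
    exact av_D d D hD R hRne (fun r hr => hN'.1 (hRN r hr)) _ hfσ fun a => hfσ.left a
  · exact av_equiv d N' hN' (C : Subgroup G)
      (fun a ha haC => hψU a ha (hC₂ (hC2 a haC))) hCσ R hRN hR f
      (fun c hc x => hC₁ c (hC1 c hc) x)
  · intro x hx
    obtain ⟨a, ha, b, hb, hab⟩ := av_ne d.ψ d.σ R f x hx
    exact ⟨a, hRN a ha, d.σ b, hN'.2.2 b (hRN b hb), hab⟩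
  · intro x hx
    rw [hsig] at hx
    obtain ⟨a, ha, b, hb, hab⟩ := av_ne d.ψ d.σ R _ x hx
    exact ⟨a, hRN a ha, d.σ b, hN'.2.2 b (hRN b hb), hab⟩

end PC.GK
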