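import Mathlib
import Pool.Agent.Lib.MP_ca1492_al.D4.GKAvMain

/-!
# MP_ca1492_al, D4, GKIrr: functions supported (on `X`) in the irrelevant part are killed

Proof. `Ω = {x ∈ X, f x ≠ 0}` is compact. Each `x ∈ Ω` has `LI`: finitely many neighbourhoods
cover `Ω`; the union `K` of the compact sets is compact in `N`; take a good `N' ⊇ K` (`d.exh`)
and `g` from `avMain`. For `x ∈ X` with `g x ≠ 0` there are `a, c ∈ N'` with
`y = a * x * c ∈ Ω`, and `a', b' ∈ K ⊆ N'` with `a' * y * b' = y`, `ψ a' * ψ b' ≠ 1`; so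
`g y = (ψ a' ψ b')⁻¹ g y`, `g y = 0`, and `g y = (ψ a ψ c)⁻¹ g x` with `ψ a ψ c ≠ 0`:
contradiction.
Hence `g = 0` on `X` and `D f = D g = 0`.
-/

open Topology

namespace PC.GK

variable {G : Type*} [Group G] [TopologicalSpace G] [IsTopologicalGroup G] [NonarchimedeanGroup G]

omit [IsTopologicalGroup G] [NonarchimedeanGroup G] in
theorem GKIrr_ne (d : Data G) {a : G} (ha : a ∈ d.N) : d.ψ a ≠ 0 := by
  intro h
  have h1 := d.ψ_mul a ha a⁻¹ (d.N.inv_mem ha)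
  rw [mul_inv_cancel, d.ψ_one, h, zero_mul] at h1
  exact one_ne_zero h1

theorem irr (d : Data G) (X : Set G) (hX : IsClosed X) (hS : Stab d.B d.N X)
    (D : (G → ℂ) →ₗ[ℂ] ℂ) (hD : Equi d.N d.ψ D) (hDX : Supp X D) (f : G → ℂ) (hf : IsS f)
    (hL : ∀ x ∈ X, f x ≠ 0 → LI d.N d.ψ X x) : D f = 0 := by
  have hΩ : IsCompact {x | x ∈ X ∧ f x ≠ 0} := ns_compact hf hX
  have h : ∀ x, x ∈ {x | x ∈ X ∧ f x ≠ 0} → ∃ K V : Set G, IsCompact K ∧ K ⊆ d.N ∧ V ∈ 𝓝 x ∧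
      ∀ y ∈ V, y ∈ X → ∃ a ∈ K, ∃ b ∈ K, a * y * b = y ∧ d.ψ a * d.ψ b ≠ 1 := by
    intro x hx
    obtain ⟨K, hK, hKN, V, hV, hy⟩ := hL x hx.1 hx.2
    exact ⟨K, V, hK, hKN, hV, hy⟩
  choose! K V hK hKN hV hy using h
  obtain ⟨t, ht, hcov⟩ := hΩ.elim_nhds_subcover V hV
  have hK0 : IsCompact (⋃ x ∈ t, K x) := t.isCompact_biUnion fun x hx => hK x (ht x hx)
  have hK0N : (⋃ x ∈ t, K x) ⊆ (d.N : Set G) := by
    intro a ha
    simp only [Set.mem_iUnion] at ha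
    obtain ⟨x, hx, hax⟩ := ha
    exact hKN x (ht x hx) hax
  obtain ⟨N', hN', hKN'⟩ := d.exh _ hK0 hK0N
  obtain ⟨g, hg, hgD, hgE, hgs, -⟩ := avMain d N' hN' f hf
  rw [← (hgD D hD).1]
  apply hDX g hg
  intro x hx
  by_contra hne
  obtain ⟨a, ha, c, hc, hfy⟩ := hgs x hne
  have haN := hN'.1 ha
  have hcN := hN'.1 hc
  have hyX : a * x * c ∈ X := hS x hx a (d.N_le haN) c hcN
  have hyΩ : a * x * c ∈ ⋃ x ∈ t, V x := hcov ⟨hyX, hfy⟩
  simp only [Set.mem_iUnion] at hyΩ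
  obtain ⟨x0, hx0, hyV⟩ := hyΩ
  obtain ⟨a', ha', b', hb', hfix, hψ⟩ := hy x0 (ht x0 hx0) _ hyV hyX
  have hsub : K x0 ⊆ (N' : Set G) := fun z hz => hKN' (Set.mem_biUnion hx0 hz)
  have ha'N := hN'.1 (hsub ha')
  have hb'N := hN'.1 (hsub hb')
  have e1 := hgE a' (hsub ha') b' (hsub hb') (a * x * c)
  rw [hfix] at e1
  have e2 := hgE a ha c hc x
  have n1 := GKIrr_ne d haN
  have n2 := GKIrr_ne d hcN
  have n3 := GKIrr_ne d ha'N
  have n4 := GKIrr_ne d hb'N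
  have hgy : g (a * x * c) = 0 := by
    by_contra hgy
    apply hψ
    have e3 : d.ψ a' * d.ψ b' * g (a * x * c) = 1 * g (a * x * c) := by
      conv_lhs => rw [e1]
      field_simp
    exact mul_right_cancel₀ hgy e3
  rw [hgy] at e2
  have e4 : g x = 0 := by
    have e5 := mul_eq_zero.1 e2.symm
    rcases e5 with e5 | e5
    · exact absurd e5 (mul_ne_zero (inv_ne_zero n1) (inv_ne_zero n2))
    · exact e5
  exact hne e4

end PC.GK
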