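import Mathlib
import Pool.Agent.Lib.MP_ca1492_al.D4.GKDefs

/-!
# MP_ca1492_al, D4, GKLoc: an irrelevant point with open orbit map is locally irrelevant

Proof. Let `a₀ * x * b₀ = x`, `ψ a₀ * ψ b₀ ≠ 1`, `a₀, b₀ ∈ N`. For `b ∈ B` the element
`b * a₀ * b⁻¹ * a₀⁻¹` is in `N` and tends to `1` as `b → 1`, so there is a neighbourhood `U` of
`1`, which we take compact, such that `ψ (b * a₀ * b⁻¹) = ψ a₀` for `b ∈ B ∩ U`. For `n ∈ N`: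
`ψ (n⁻¹ * b₀ * n) = ψ b₀`. Let `K` be the union of the images of `B ∩ U` under
`b ↦ b * a₀ * b⁻¹` and of `N ∩ U` under `n ↦ n⁻¹ * b₀ * n` (compact, contained in `N`), and `V`
the neighbourhood of `x` given by `Op` for `U`. For `y = b * x * n` in `V ∩ X`:
`(b * a₀ * b⁻¹) * y * (n⁻¹ * b₀ * n) = b * a₀ * x * b₀ * n = y`.
-/

open Topology

namespace PC.GK

variable {G : Type*} [Group G] [TopologicalSpace G] [IsTopologicalGroup G] [LocallyCompactSpace G]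
  [T2Space G]

theorem loc (d : Data G) (X : Set G) (x : G) (hO : Op d.B d.N X x) (hr : ¬ Rel d.N d.ψ x) :
    LI d.N d.ψ X x := by
  unfold Rel at hr
  push Not at hr
  obtain ⟨a₀, ha₀, b₀, hb₀, hfix, hne⟩ := hr
  obtain ⟨U₀, hU₀, hψ⟩ := d.ψ_loc
  have h1 : {b : G | b * a₀ * b⁻¹ * a₀⁻¹ ∈ U₀} ∈ 𝓝 (1 : G) := by
    have hc : Continuous fun b : G => b * a₀ * b⁻¹ * a₀⁻¹ := by fun_prop
    have ht := hc.tendsto 1
    have he : (1 : G) * a₀ * (1 : G)⁻¹ * a₀⁻¹ = 1 := by group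
    rw [he] at ht
    exact ht hU₀
  have h2 : {n : G | n⁻¹ * b₀ * n * b₀⁻¹ ∈ U₀} ∈ 𝓝 (1 : G) := by
    have hc : Continuous fun n : G => n⁻¹ * b₀ * n * b₀⁻¹ := by fun_prop
    have ht := hc.tendsto 1
    have he : (1 : G)⁻¹ * b₀ * (1 : G) * b₀⁻¹ = 1 := by group
    rw [he] at ht
    exact ht hU₀
  obtain ⟨C, hC, hCs, hCc⟩ := local_compact_nhds (Filter.inter_mem h1 h2)
  have hBN : ∀ b ∈ d.B, b * a₀ * b⁻¹ ∈ d.N := fun b hb => d.norm b hb a₀ ha₀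
  have hNN : ∀ n ∈ d.N, n⁻¹ * b₀ * n ∈ d.N := fun n hn =>
    d.N.mul_mem (d.N.mul_mem (d.N.inv_mem hn) hb₀) hn
  refine ⟨(fun b => b * a₀ * b⁻¹) '' (C ∩ d.B) ∪ (fun n => n⁻¹ * b₀ * n) '' (C ∩ d.N), ?_, ?_, ?_⟩
  · refine IsCompact.union ?_ ?_
    · exact (hCc.inter_right d.B_closed).image (by fun_prop)
    · exact (hCc.inter_right d.N_closed).image (by fun_prop)
  · rintro y (⟨b, ⟨_, hb⟩, rfl⟩ | ⟨n, ⟨_, hn⟩, rfl⟩)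
    · exact hBN b hb
    · exact hNN n hn
  · obtain ⟨V, hV, hVy⟩ := hO C hC
    refine ⟨V, hV, fun y hy hyX => ?_⟩
    obtain ⟨b, hb, hbC, n, hn, hnC, rfl⟩ := hVy y hy hyX
    refine ⟨b * a₀ * b⁻¹, Or.inl ⟨b, ⟨hbC, hb⟩, rfl⟩, n⁻¹ * b₀ * n,
      Or.inr ⟨n, ⟨hnC, hn⟩, rfl⟩, ?_, ?_⟩
    · calc b * a₀ * b⁻¹ * (b * x * n) * (n⁻¹ * b₀ * n) = b * (a₀ * x * b₀) * n := by group
        _ = b * x * n := by rw [hfix]
    · have e1 : d.ψ (b * a₀ * b⁻¹) = d.ψ a₀ := by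
        have hc1 : b * a₀ * b⁻¹ * a₀⁻¹ ∈ d.N := d.N.mul_mem (hBN b hb) (d.N.inv_mem ha₀)
        have hc2 : b * a₀ * b⁻¹ = (b * a₀ * b⁻¹ * a₀⁻¹) * a₀ := by group
        rw [hc2, d.ψ_mul _ hc1 _ ha₀, hψ _ hc1 (hCs hbC).1, one_mul]
      have e2 : d.ψ (n⁻¹ * b₀ * n) = d.ψ b₀ := by
        have hc1 : n⁻¹ * b₀ * n * b₀⁻¹ ∈ d.N := d.N.mul_mem (hNN n hn) (d.N.inv_mem hb₀)
        have hc2 : n⁻¹ * b₀ * n = (n⁻¹ * b₀ * n * b₀⁻¹) * b₀ := by group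
        rw [hc2, d.ψ_mul _ hc1 _ hb₀, hψ _ hc1 (hCs hnC).2, one_mul]
      rw [e1, e2]
      exact hne

end PC.GK
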