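import Mathlib
import Pool.Agent.Lib.MP_ca1492_al.D4.GKCpt
import Pool.Agent.Lib.MP_ca1492_al.D4.GKIrr
import Pool.Agent.Lib.MP_ca1492_al.D4.GKLoc

/-!
# MP_ca1492_al, D4, GKRel: an open orbit stable under `σ`

`X` closed, stable under `B × N` and `σ`; `O = orb x₀ ⊆ X`, `Op` at all points of `O`, `σ O ⊆ O`,
`D` equivariant and supported on `X`, `f` of class `IsS` with `{x ∈ X, f x ≠ 0} ⊆ O`. Then
`D (f ∘ σ) = D f`.
Proof. Let `w ∈ W` with `x₀ ∈ orb w` (so `O = orb w`). `Ω = {x ∈ X, f x ≠ 0}`,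
`Ω' = {x ∈ X, f (σ x) ≠ 0}` are compact (`ns_compact`), contained in `O`
(`x ∈ Ω'`: `σ x ∈ X`, so `σ x ∈ O` and `x = σ (σ x) ∈ O`). By `cpt` applied to `Ω ∪ Ω'` and
`d.comp` there is a good `N'` with: every `x ∈ Ω ∪ Ω'` is `a * m * c`, `m ∈ M`, `a, c ∈ N'`.
Let `g` be given by `avMain`. CLAIM: if `x ∈ X` is relevant then `g (σ x) = g x`.
If `x = a₁ * y * c₁` with `y ∈ Ω ∪ Ω'`, `a₁, c₁ ∈ N'`, then `x = a * m * c` with `a, c ∈ N'`,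
`m ∈ M`; `m` is relevant (relevance is invariant under `N × N`), so `σ m = m` and
`σ x = σ c * m * σ a = (σ c * a⁻¹) * x * (c⁻¹ * σ a)`, whence
`g (σ x) = (ψ (σ c * a⁻¹) ψ (c⁻¹ * σ a))⁻¹ g x = g x`. Otherwise `g x = 0` and `g (σ x) = 0` by the
support clauses of `avMain` (`X` is stable). So `h = g - g ∘ σ` vanishes at the relevant points
of `X`, is of class `IsS`, and `h x ≠ 0`, `x ∈ X` implies `x ∈ O`; by `loc` and `irr`, `D h = 0`.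
Finally `D g = D f`, `D (g ∘ σ) = D (f ∘ σ)`.
-/

open Topology

namespace PC.GK

variable {G : Type*} [Group G] [TopologicalSpace G] [IsTopologicalGroup G] [NonarchimedeanGroup G]
  [LocallyCompactSpace G] [T2Space G]

omit [TopologicalSpace G] [IsTopologicalGroup G] [NonarchimedeanGroup G] [LocallyCompactSpace G]
  [T2Space G] in
theorem GKRel_orb {B N : Subgroup G} {x w y : G} (hx : x ∈ orb B N w) (hy : y ∈ orb B N x) :
    y ∈ orb B N w := by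
  obtain ⟨b, hb, n, hn, rfl⟩ := hx
  obtain ⟨b', hb', n', hn', rfl⟩ := hy
  exact ⟨b' * b, B.mul_mem hb' hb, n * n', N.mul_mem hn hn', by group⟩

omit [IsTopologicalGroup G] [NonarchimedeanGroup G] [LocallyCompactSpace G] [T2Space G] in
theorem GKRel_psi_inv (d : Data G) {a : G} (ha : a ∈ d.N) : d.ψ a * d.ψ a⁻¹ = 1 := by
  rw [← d.ψ_mul a ha a⁻¹ (d.N.inv_mem ha), mul_inv_cancel, d.ψ_one]

omit [IsTopologicalGroup G] [NonarchimedeanGroup G] [LocallyCompactSpace G] [T2Space G] in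
/-- relevance is invariant under `N × N` -/
theorem GKRel_rel (d : Data G) {a m c : G} (ha : a ∈ d.N) (hc : c ∈ d.N)
    (h : Rel d.N d.ψ (a * m * c)) : Rel d.N d.ψ m := by
  intro α hα β hβ hm
  have hai := d.N.inv_mem ha
  have hci := d.N.inv_mem hc
  have h1 := h (a * α * a⁻¹) (d.N.mul_mem (d.N.mul_mem ha hα) hai)
    (c⁻¹ * β * c) (d.N.mul_mem (d.N.mul_mem hci hβ) hc) (by
      have h2 : a * α * a⁻¹ * (a * m * c) * (c⁻¹ * β * c) = a * (α * m * β) * c := by group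
      rw [h2, hm])
  rw [d.ψ_mul _ (d.N.mul_mem ha hα) _ hai, d.ψ_mul _ ha _ hα,
    d.ψ_mul _ (d.N.mul_mem hci hβ) _ hc, d.ψ_mul _ hci _ hβ] at h1
  have h3 := GKRel_psi_inv d ha
  have h4 := GKRel_psi_inv d hc
  linear_combination h1 - d.ψ α * d.ψ β * d.ψ c * d.ψ c⁻¹ * h3 - d.ψ α * d.ψ β * h4

omit [IsTopologicalGroup G] [NonarchimedeanGroup G] [LocallyCompactSpace G] [T2Space G] in
/-- the symmetry at the relevant points -/
theorem GKRel_sym (d : Data G) (N' : Subgroup G) (hN' : Good d.N d.σ N') (g : G → ℂ)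
    (hg : ∀ a ∈ N', ∀ c ∈ N', ∀ x, g (a * x * c) = (d.ψ a)⁻¹ * (d.ψ c)⁻¹ * g x)
    {a m c : G} (ha : a ∈ N') (hc : c ∈ N') (hm : m ∈ d.M)
    (h : Rel d.N d.ψ (a * m * c)) : g (d.σ (a * m * c)) = g (a * m * c) := by
  have haN := hN'.1 ha
  have hcN := hN'.1 hc
  have hσm := d.fix m hm (GKRel_rel d haN hcN h)
  have e1 : d.σ (a * m * c) = (d.σ c * a⁻¹) * (a * m * c) * (c⁻¹ * d.σ a) := by
    rw [d.σ_mul, d.σ_mul, hσm]
    group
  have hσa := hN'.2.2 a ha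
  have hσc := hN'.2.2 c hc
  rw [e1, hg _ (N'.mul_mem hσc (N'.inv_mem ha)) _ (N'.mul_mem (N'.inv_mem hc) hσa)]
  have haiN := d.N.inv_mem haN
  have hciN := d.N.inv_mem hcN
  rw [d.ψ_mul _ (d.σ_N c hcN) _ haiN, d.ψ_mul _ hciN _ (d.σ_N a haN), d.ψ_σ c hcN, d.ψ_σ a haN]
  have h3 := GKRel_psi_inv d haN
  have h4 := GKRel_psi_inv d hcN
  have ha0 : d.ψ a ≠ 0 := left_ne_zero_of_mul_eq_one h3
  have hc0 : d.ψ c ≠ 0 := left_ne_zero_of_mul_eq_one h4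
  have ha1 : d.ψ a⁻¹ = (d.ψ a)⁻¹ := eq_inv_of_mul_eq_one_right h3
  have hc1 : d.ψ c⁻¹ = (d.ψ c)⁻¹ := eq_inv_of_mul_eq_one_right h4
  rw [ha1, hc1]
  field_simp

theorem rel_part (d : Data G) (X : Set G) (hX : IsClosed X) (hS : Stab d.B d.N X)
    (hσ : ∀ x ∈ X, d.σ x ∈ X) (x₀ : G) (hx₀ : x₀ ∈ X)
    (hO : ∀ x ∈ orb d.B d.N x₀, Op d.B d.N X x)
    (hσO : ∀ x ∈ orb d.B d.N x₀, d.σ x ∈ orb d.B d.N x₀)
    (D : (G → ℂ) →ₗ[ℂ] ℂ) (hD : Equi d.N d.ψ D) (hDX : Supp X D) (f : G → ℂ) (hf : IsS f)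
    (hfO : ∀ x ∈ X, f x ≠ 0 → x ∈ orb d.B d.N x₀) : D (fun x => f (d.σ x)) = D f := by
  obtain ⟨w, hw, hxw⟩ := d.fin x₀
  have hfσ : IsS (fun x => f (d.σ x)) := hf.comp d.σ d.σ d.σ_cont d.σ_cont d.σ_inv d.σ_inv
  have hc1 : IsCompact {x | x ∈ X ∧ f x ≠ 0} := ns_compact hf hX
  have hc2 : IsCompact {x | x ∈ X ∧ f (d.σ x) ≠ 0} := ns_compact hfσ hX
  set Ω : Set G := {x | x ∈ X ∧ f x ≠ 0} ∪ {x | x ∈ X ∧ f (d.σ x) ≠ 0} with hΩdef
  have hΩc : IsCompact Ω := hc1.union hc2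
  have hΩX : Ω ⊆ X := by
    rintro x (hx | hx)
    · exact hx.1
    · exact hx.1
  have hΩO : ∀ x ∈ Ω, x ∈ orb d.B d.N x₀ := by
    rintro x (hx | hx)
    · exact hfO x hx.1 hx.2
    · have h1 := hσO _ (hfO (d.σ x) (hσ x hx.1) hx.2)
      rwa [d.σ_inv] at h1
  obtain ⟨K, hK, hKB, hKx⟩ := cpt d.B d.N d.B_closed d.N_closed X w Ω hΩc hΩX
    (fun x hx => GKRel_orb hxw (hΩO x hx)) (fun x hx => hO x (hΩO x hx))
  obtain ⟨N', hN', hN'K⟩ := d.comp w hw K hK hKB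
  have hΩm : ∀ x ∈ Ω, ∃ m ∈ d.M, ∃ a ∈ N', ∃ c ∈ N', x = a * m * c := by
    intro x hx
    obtain ⟨p, hp, hxp⟩ := hKx x hx
    obtain ⟨m, hm, a, ha, c, hc, he⟩ := hN'K p hp
    exact ⟨m, hm, a, ha, c, hc, hxp.trans he⟩
  obtain ⟨g, hgS, hgD, hge, hgs, hgσ⟩ := avMain d N' hN' f hf
  have hstab : ∀ x ∈ X, ∀ a ∈ N', ∀ c ∈ N', a * x * c ∈ X := fun x hx a ha c hc =>
    hS x hx a (d.N_le (hN'.1 ha)) c (hN'.1 hc)
  -- points where `g` or `g ∘ σ` do not vanish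
  have hsup : ∀ x ∈ X, (g x ≠ 0 ∨ g (d.σ x) ≠ 0) → ∃ a ∈ N', ∃ c ∈ N', a * x * c ∈ Ω := by
    rintro x hx (h | h)
    · obtain ⟨a, ha, c, hc, h1⟩ := hgs x h
      exact ⟨a, ha, c, hc, Or.inl ⟨hstab x hx a ha c hc, h1⟩⟩
    · obtain ⟨a, ha, c, hc, h1⟩ := hgσ x h
      exact ⟨a, ha, c, hc, Or.inr ⟨hstab x hx a ha c hc, h1⟩⟩
  have hclaim : ∀ x ∈ X, Rel d.N d.ψ x → g (d.σ x) = g x := by
    intro x hx hr
    by_cases h : g x ≠ 0 ∨ g (d.σ x) ≠ 0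
    · obtain ⟨a, ha, c, hc, h1⟩ := hsup x hx h
      obtain ⟨m, hm, a', ha', c', hc', h2⟩ := hΩm _ h1
      have h3 : x = (a⁻¹ * a') * m * (c' * c⁻¹) := by
        have h4 : x = a⁻¹ * (a * x * c) * c⁻¹ := by group
        rw [h4, h2]
        group
      rw [h3] at hr ⊢
      exact GKRel_sym d N' hN' g hge (N'.mul_mem (N'.inv_mem ha) ha')
        (N'.mul_mem hc' (N'.inv_mem hc)) hm hr
    · push Not at h
      rw [h.1, h.2]
  -- the difference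
  have hgσS : IsS (fun x => g (d.σ x)) := hgS.comp d.σ d.σ d.σ_cont d.σ_cont d.σ_inv d.σ_inv
  have hh : IsS (fun x => g x - g (d.σ x)) := hgS.sub hgσS
  have hzero : D (fun x => g x - g (d.σ x)) = 0 := by
    refine irr d X hX hS D hD hDX _ hh fun x hx hne => ?_
    have h1 : g x ≠ 0 ∨ g (d.σ x) ≠ 0 := by
      by_contra hcon
      push Not at hcon
      apply hne
      rw [hcon.1, hcon.2, sub_zero]
    obtain ⟨a, ha, c, hc, h2⟩ := hsup x hx h1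
    have h3 : x ∈ orb d.B d.N x₀ := by
      refine GKRel_orb (hΩO _ h2) ⟨a⁻¹, d.B.inv_mem (d.N_le (hN'.1 ha)), c⁻¹,
        d.N.inv_mem (hN'.1 hc), ?_⟩
      group
    refine loc d X x (hO x h3) fun hr => ?_
    apply hne
    rw [hclaim x hx hr, sub_self]
  have hlin : D (fun x => g x - g (d.σ x)) = D g - D (fun x => g (d.σ x)) := by
    rw [← map_sub]
    rfl
  obtain ⟨hD1, hD2⟩ := hgD D hD
  rw [hlin, hD1, hD2] at hzero
  exact (sub_eq_zero.1 hzero).symm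

end PC.GK
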