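import Mathlib
import Pool.Agent.Lib.MP_ca1492_al.D4.GKOpen
import Pool.Agent.Lib.MP_ca1492_al.D4.GKRel

/-!
# MP_ca1492_al, D4, GKMain: the Gelfand-Kazhdan theorem (abstract form)

Induction on the number of `w ∈ W` in the closed stable set `X` supporting the odd functional
`E f = D f - D (f ∘ σ)`.
-/

open Topology

namespace PC.GK

variable {G : Type*} [Group G] [TopologicalSpace G] [IsTopologicalGroup G] [NonarchimedeanGroup G]
  [LocallyCompactSpace G] [T2Space G] [SigmaCompactSpace G]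

theorem IsS.sigma (d : Data G) {f : G → ℂ} (hf : IsS f) : IsS (fun x => f (d.σ x)) :=
  hf.comp d.σ d.σ d.σ_cont d.σ_cont d.σ_inv d.σ_inv

theorem mem_orb_self (B N : Subgroup G) (x : G) : x ∈ orb B N x :=
  ⟨1, B.one_mem, 1, N.one_mem, by simp⟩

theorem orb_eq_of_mem {B N : Subgroup G} {x y : G} (h : y ∈ orb B N x) :
    orb B N y = orb B N x := by
  obtain ⟨b, hb, n, hn, rfl⟩ := h
  ext z
  constructor
  · rintro ⟨b', hb', n', hn', rfl⟩
    exact ⟨b' * b, B.mul_mem hb' hb, n * n', N.mul_mem hn hn', by group⟩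
  · rintro ⟨b', hb', n', hn', rfl⟩
    exact ⟨b' * b⁻¹, B.mul_mem hb' (B.inv_mem hb), n⁻¹ * n', N.mul_mem (N.inv_mem hn) hn',
      by group⟩

theorem orb_sub {B N : Subgroup G} {X : Set G} (hS : Stab B N X) {x : G} (hx : x ∈ X) :
    orb B N x ⊆ X := by
  rintro y ⟨b, hb, n, hn, rfl⟩
  exact hS x hx b hb n hn

theorem sigma_orb (d : Data G) {x y : G} (h : y ∈ orb d.B d.N x) :
    d.σ y ∈ orb d.B d.N (d.σ x) := by
  obtain ⟨b, hb, n, hn, rfl⟩ := h
  exact d.σ_orb x b hb n hn

/-- relevance is invariant under `N × N` -/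
theorem rel_mul {N : Subgroup G} {ψ : G → ℂ} (hm : ∀ a ∈ N, ∀ b ∈ N, ψ (a * b) = ψ a * ψ b)
    (h1 : ψ 1 = 1) {g a c : G} (ha : a ∈ N) (hc : c ∈ N) (h : Rel N ψ (a * g * c)) :
    Rel N ψ g := by
  intro u hu v hv huv
  have hinv : ∀ x ∈ N, ψ x * ψ x⁻¹ = 1 := fun x hx => by
    rw [← hm x hx _ (N.inv_mem hx), mul_inv_cancel, h1]
  have h2 := h (a * u * a⁻¹) (N.mul_mem (N.mul_mem ha hu) (N.inv_mem ha)) (c⁻¹ * v * c)
    (N.mul_mem (N.mul_mem (N.inv_mem hc) hv) hc) (by
      calc a * u * a⁻¹ * (a * g * c) * (c⁻¹ * v * c) = a * (u * g * v) * c := by group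
        _ = a * g * c := by rw [huv])
  rw [hm _ (N.mul_mem ha hu) _ (N.inv_mem ha), hm _ ha _ hu,
    hm _ (N.mul_mem (N.inv_mem hc) hv) _ hc, hm _ (N.inv_mem hc) _ hv] at h2
  have e1 := hinv a ha
  have e2 := hinv c hc
  calc ψ u * ψ v = (ψ a * ψ a⁻¹) * (ψ c * ψ c⁻¹) * (ψ u * ψ v) := by rw [e1, e2]; ring
    _ = ψ a * ψ u * ψ a⁻¹ * (ψ c⁻¹ * ψ v * ψ c) := by ring
    _ = 1 := h2

/-- the odd part of a functional -/
noncomputable def odd (d : Data G) (D : (G → ℂ) →ₗ[ℂ] ℂ) : (G → ℂ) →ₗ[ℂ] ℂ where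
  toFun f := D f - D (fun x => f (d.σ x))
  map_add' f g := by
    have : (fun x => (f + g) (d.σ x)) = (fun x => f (d.σ x)) + fun x => g (d.σ x) := rfl
    rw [this, map_add, map_add]; ring
  map_smul' c f := by
    have : (fun x => (c • f) (d.σ x)) = c • fun x => f (d.σ x) := rfl
    rw [this, map_smul, map_smul]; simp [smul_sub, mul_sub]

theorem odd_sigma (d : Data G) (D : (G → ℂ) →ₗ[ℂ] ℂ) (f : G → ℂ) :
    odd d D (fun x => f (d.σ x)) = - odd d D f := by
  simp only [odd, LinearMap.coe_mk, AddHom.coe_mk, d.σ_inv]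
  ring

theorem odd_equi (d : Data G) (D : (G → ℂ) →ₗ[ℂ] ℂ) (hD : Equi d.N d.ψ D) :
    Equi d.N d.ψ (odd d D) := by
  intro f hf a ha
  have hs := IsS.sigma d hf
  simp only [odd, LinearMap.coe_mk, AddHom.coe_mk]
  constructor
  · have e : (fun x => f (a * d.σ x)) = fun x => (fun y => f (d.σ y)) (x * d.σ a) := by
      funext x; simp [d.σ_mul, d.σ_inv]
    rw [(hD f hf a ha).1, e, (hD _ hs _ (d.σ_N a ha)).2, d.ψ_σ a ha]; ring
  · have e : (fun x => f (d.σ x * a)) = fun x => (fun y => f (d.σ y)) (d.σ a * x) := by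
      funext x; simp [d.σ_mul, d.σ_inv]
    rw [(hD f hf a ha).2, e, (hD _ hs _ (d.σ_N a ha)).1, d.ψ_σ a ha]; ring

theorem core (d : Data G) (E : (G → ℂ) →ₗ[ℂ] ℂ) (hE : Equi d.N d.ψ E)
    (hodd : ∀ f, E (fun x => f (d.σ x)) = - E f) :
    ∀ k : ℕ, ∀ X : Set G, IsClosed X → Stab d.B d.N X → (∀ x ∈ X, d.σ x ∈ X) →
      (∀ S : Finset G, (∀ w ∈ S, w ∈ d.W ∧ w ∈ X) → S.card ≤ k) → Supp X E →
      ∀ f, IsS f → E f = 0 := by
  classical
  intro k
  induction k with
  | zero =>
    intro X hX hS _ hk hsupp f hf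
    apply hsupp f hf
    intro x hx
    exfalso
    obtain ⟨w, hw, b, hb, n, hn, e⟩ := d.fin x
    have hwX : w ∈ X := by
      have := hS x hx b⁻¹ (d.B.inv_mem hb) n⁻¹ (d.N.inv_mem hn)
      rwa [e, show b⁻¹ * (b * w * n) * n⁻¹ = w by group] at this
    have := hk {w} (by simp [hw, hwX])
    simp at this
  | succ k ih =>
    intro X hX hS hσ hk hsupp f hf
    by_cases hne : X.Nonempty
    swap
    · apply hsupp f hf
      intro x hx
      exact absurd ⟨x, hx⟩ hne
    obtain ⟨x₀, hx₀, V, hV, hVX⟩ := exists_open d.B d.N d.B_closed d.N_closed d.W d.fin X hX hS hne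
    -- the points of an open orbit have property `Op`
    have hOp : ∀ y (U : Set G), IsOpen U → U ∩ X = orb d.B d.N y → ∀ x ∈ orb d.B d.N y,
        Op d.B d.N X x := by
      intro y U hU hUX x hx
      exact op_of_open d.B d.N d.B_closed d.N_closed X hX x U hU
        (by rw [hUX, orb_eq_of_mem hx])
    -- closing argument
    have key : ∀ U : Set G, IsOpen U → x₀ ∈ U → (∀ x ∈ X \ U, d.σ x ∈ X \ U) →
        (∀ x ∈ X \ U, ∀ b ∈ d.B, ∀ n ∈ d.N, b * x * n ∈ X \ U) →
        (∀ g, IsS g → (∀ x ∈ X, g x ≠ 0 → x ∈ U) → E g = 0) → E f = 0 := by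
      intro U hU hx₀U h1 h2 h3
      refine ih (X \ U) (hX.sdiff hU) h2 h1 ?_ ?_ f hf
      · intro S hSW
        obtain ⟨w, hw, hwo⟩ := d.fin x₀
        have hwX : w ∈ X := by
          obtain ⟨b, hb, n, hn, e⟩ := hwo
          have := hS x₀ hx₀ b⁻¹ (d.B.inv_mem hb) n⁻¹ (d.N.inv_mem hn)
          rwa [e, show b⁻¹ * (b * w * n) * n⁻¹ = w by group] at this
        have hwU : w ∉ X \ U := by
          intro hw'
          obtain ⟨b, hb, n, hn, e⟩ := hwo
          have := h2 w hw' b hb n hn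
          rw [← e] at this
          exact this.2 hx₀U
        have := hk (insert w S) (by
          intro v hv
          rcases Finset.mem_insert.1 hv with rfl | hv
          · exact ⟨hw, hwX⟩
          · exact ⟨(hSW v hv).1, (hSW v hv).2.1⟩)
        rw [Finset.card_insert_of_notMem (fun h => hwU (hSW w h).2)] at this
        omega
      · intro g hg hg0
        apply h3 g hg
        intro x hx hgx
        by_contra hxU
        exact hgx (hg0 x ⟨hx, hxU⟩)
    by_cases hrel : ∃ y ∈ orb d.B d.N x₀, Rel d.N d.ψ y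
    · -- relevant orbit: stable under `σ`
      obtain ⟨y, hy, hry⟩ := hrel
      obtain ⟨w, hw, b, hb, n, hn, ey⟩ := d.fin y
      obtain ⟨N', hN', hcomp⟩ := d.comp w hw {(b, n)} isCompact_singleton (by
        intro p hp
        rw [Set.mem_singleton_iff] at hp
        subst hp
        exact ⟨hb, hn⟩)
      obtain ⟨m, hm, a, ha, c, hc, e⟩ := hcomp (b, n) rfl
      simp only at e
      rw [← ey] at e
      have ham : a ∈ d.N := hN'.1 ha
      have hcm : c ∈ d.N := hN'.1 hc
      have hrm : Rel d.N d.ψ m := rel_mul d.ψ_mul d.ψ_one ham hcm (e ▸ hry)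
      have hσm := d.fix m hm hrm
      have hmo : m ∈ orb d.B d.N x₀ := by
        rw [← orb_eq_of_mem hy]
        exact ⟨a⁻¹, d.N_le (d.N.inv_mem ham), c⁻¹, d.N.inv_mem hcm, by rw [e]; group⟩
      have hσO : ∀ x ∈ orb d.B d.N x₀, d.σ x ∈ orb d.B d.N x₀ := by
        intro x hx
        rw [← orb_eq_of_mem hmo] at hx ⊢
        have := sigma_orb d hx
        rwa [hσm] at this
      refine key V hV ?_ ?_ ?_ ?_
      · have : x₀ ∈ V ∩ X := by rw [hVX]; exact mem_orb_self _ _ _
        exact this.1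
      · rintro x ⟨hx, hxV⟩
        refine ⟨hσ x hx, fun h => hxV ?_⟩
        have h' : d.σ x ∈ V ∩ X := ⟨h, hσ x hx⟩
        rw [hVX] at h'
        have := hσO _ h'
        rw [d.σ_inv, ← hVX] at this
        exact this.1
      · rintro x ⟨hx, hxV⟩ b' hb' n' hn'
        refine ⟨hS x hx b' hb' n' hn', fun h => hxV ?_⟩
        have h' : b' * x * n' ∈ V ∩ X := ⟨h, hS x hx b' hb' n' hn'⟩
        rw [hVX] at h'
        have : x ∈ orb d.B d.N x₀ := by
          rw [← orb_eq_of_mem h']
          exact ⟨b'⁻¹, d.B.inv_mem hb', n'⁻¹, d.N.inv_mem hn', by group⟩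
        rw [← hVX] at this
        exact this.1
      · intro g hg hgV
        have := rel_part d X hX hS hσ x₀ hx₀ (hOp x₀ V hV hVX) hσO E hE hsupp g hg
          (fun x hx hgx => by rw [← hVX]; exact ⟨hgV x hx hgx, hx⟩)
        rw [hodd] at this
        have h2 : (2 : ℂ) * E g = 0 := by linear_combination -this
        simpa using h2
    · -- irrelevant orbit
      push Not at hrel
      have hreli : ∀ x ∈ orb d.B d.N (d.σ x₀), ¬ Rel d.N d.ψ x := by
        intro x hx hr
        have h1 : d.σ x ∈ orb d.B d.N x₀ := by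
          have := sigma_orb d hx
          rwa [d.σ_inv] at this
        refine hrel _ h1 ?_
        intro a ha b hb hab
        have e : d.σ b * x * d.σ a = x := by
          have := congrArg d.σ hab
          simp only [d.σ_mul, d.σ_inv] at this
          rw [← mul_assoc] at this
          exact this
        have := hr _ (d.σ_N b hb) _ (d.σ_N a ha) e
        rw [d.ψ_σ a ha, d.ψ_σ b hb] at this
        rw [mul_comm]; exact this
      have hV' : IsOpen (d.σ ⁻¹' V) := hV.preimage d.σ_cont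
      have hVX' : d.σ ⁻¹' V ∩ X = orb d.B d.N (d.σ x₀) := by
        ext x
        constructor
        · rintro ⟨hx, hxX⟩
          have : d.σ x ∈ V ∩ X := ⟨hx, hσ x hxX⟩
          rw [hVX] at this
          have := sigma_orb d this
          rwa [d.σ_inv] at this
        · intro hx
          have h1 : d.σ x ∈ orb d.B d.N x₀ := by
            have := sigma_orb d hx
            rwa [d.σ_inv] at this
          rw [← hVX] at h1
          refine ⟨h1.1, ?_⟩
          have := hσ _ h1.2
          rwa [d.σ_inv] at this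
      have hstab : ∀ (y : G) (U : Set G), U ∩ X = orb d.B d.N y → ∀ x ∈ X, x ∉ U →
          ∀ b ∈ d.B, ∀ n ∈ d.N, b * x * n ∉ U := by
        intro y U hUX x hx hxU b' hb' n' hn' h
        have h' : b' * x * n' ∈ U ∩ X := ⟨h, hS x hx b' hb' n' hn'⟩
        rw [hUX] at h'
        have : x ∈ orb d.B d.N y := by
          rw [← orb_eq_of_mem h']
          exact ⟨b'⁻¹, d.B.inv_mem hb', n'⁻¹, d.N.inv_mem hn', by group⟩
        rw [← hUX] at this
        exact hxU this.1
      refine key (V ∪ d.σ ⁻¹' V) (hV.union hV') ?_ ?_ ?_ ?_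
      · have : x₀ ∈ V ∩ X := by rw [hVX]; exact mem_orb_self _ _ _
        exact Or.inl this.1
      · rintro x ⟨hx, hxV⟩
        refine ⟨hσ x hx, ?_⟩
        rintro (h | h)
        · exact hxV (Or.inr h)
        · apply hxV
          left
          simpa [d.σ_inv] using h
      · rintro x ⟨hx, hxV⟩ b' hb' n' hn'
        refine ⟨hS x hx b' hb' n' hn', ?_⟩
        rintro (h | h)
        · exact hstab x₀ V hVX x hx (fun h' => hxV (Or.inl h')) b' hb' n' hn' h
        · exact hstab _ _ hVX' x hx (fun h' => hxV (Or.inr h')) b' hb' n' hn' h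
      · intro g hg hgV
        refine irr d X hX hS E hE hsupp g hg ?_
        intro x hx hgx
        rcases hgV x hx hgx with h | h
        · have hxo : x ∈ orb d.B d.N x₀ := by rw [← hVX]; exact ⟨h, hx⟩
          exact loc d X x (hOp x₀ V hV hVX x hxo) (hrel x hxo)
        · have hxo : x ∈ orb d.B d.N (d.σ x₀) := by rw [← hVX']; exact ⟨h, hx⟩
          exact loc d X x (hOp _ _ hV' hVX' x hxo) (hreli x hxo)

/-- the Gelfand-Kazhdan theorem, abstract form -/
theorem gk (d : Data G) (D : (G → ℂ) →ₗ[ℂ] ℂ) (hD : Equi d.N d.ψ D) (f : G → ℂ) (hf : IsS f) :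
    D (fun x => f (d.σ x)) = D f := by
  classical
  have h := core d (odd d D) (odd_equi d D hD) (odd_sigma d D) d.W.card Set.univ isClosed_univ
    (fun _ _ _ _ _ _ => Set.mem_univ _) (fun _ _ => Set.mem_univ _)
    (fun S hS => Finset.card_le_card (fun w hw => (hS w hw).1))
    (fun g _ hg0 => by
      have : g = 0 := funext fun x => hg0 x (Set.mem_univ x)
      rw [this, map_zero]) f hf
  simp only [odd, LinearMap.coe_mk, AddHom.coe_mk] at h
  linear_combination -h

end PC.GK
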