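import Mathlib
import Pool.Agent.Lib.MP_ca1492_al.D4.GKDefs
import Pool.Agent.Lib.MP_ca1492_al.D4.GLDefs

/-!
# MP_ca1492_al, D4, Bruhat: `GL_n(F) = ⋃ B w N`

Proof (Gauss elimination). Convention `pm F w` has the entries `1` at `(w j, j)`.
Process the rows from the bottom: claim by induction on `k ≤ n`: for every `g` there are `b ∈ B`,
`u ∈ N` such that for the last `k` rows `i` of `g' = b * g * u` there is a column `c i` with
`g' i (c i) = 1`, all other entries of row `i` are `0`, and all entries of column `c i` above row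
`i` are `0` (`c` is injective on these rows). Step: in row `i = n - k - 1` the entries in the
columns `c i'`, `i' > i`, are already `0`; let `c i` be the FIRST column with `g' i (c i) ≠ 0` (it
exists since `g'` is invertible); scale row `i` (left multiplication by a diagonal matrix in `B`);
add multiples of column `c i` to the LATER columns (right multiplication by an element of `N`) to
kill the other entries of row `i`; add multiples of row `i` to the rows ABOVE (left multiplication
by `N`) to kill the other entries of column `c i` above row `i`. Columns `c i'` and rows `i' > i`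
are not changed (column `c i` has entry `0` in the rows `i' > i`). For `k = n`, `g'` is a
permutation matrix. Alternatively: induction on `n`, removing the last row and the column `c`.
-/

namespace PC.GK

variable {F : Type} [Field F] {n : ℕ}

/-- `1 + v wᵗ` for `v a * w b = 0` whenever `b ≤ a`: an element of `N` -/
def Bruhat_T (v w : Fin n → F) (h : ∀ a b, b ≤ a → v a * w b = 0) : GL (Fin n) F where
  val := 1 + Matrix.vecMulVec v w
  inv := 1 - Matrix.vecMulVec v w
  val_inv := by
    have : Matrix.vecMulVec v w * Matrix.vecMulVec v w = 0 := by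
      ext a b
      rw [Matrix.mul_apply, Matrix.zero_apply]
      refine Finset.sum_eq_zero fun k _ => ?_
      rw [Matrix.vecMulVec_apply, Matrix.vecMulVec_apply]
      have := h k k le_rfl
      linear_combination (v a * w b) * this
    rw [add_mul, mul_sub, mul_sub, this]
    simp
  inv_val := by
    have : Matrix.vecMulVec v w * Matrix.vecMulVec v w = 0 := by
      ext a b
      rw [Matrix.mul_apply, Matrix.zero_apply]
      refine Finset.sum_eq_zero fun k _ => ?_
      rw [Matrix.vecMulVec_apply, Matrix.vecMulVec_apply]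
      have := h k k le_rfl
      linear_combination (v a * w b) * this
    rw [sub_mul, mul_add, mul_add, this]
    simp

theorem Bruhat_T_mem (v w : Fin n → F) (h : ∀ a b, b ≤ a → v a * w b = 0) :
    Bruhat_T v w h ∈ NN F n := by
  refine ⟨⟨fun i j hij => ?_, fun i j hij => ?_⟩, fun i => ?_⟩
  · change (1 + Matrix.vecMulVec v w) i j = 0
    rw [Matrix.add_apply, Matrix.one_apply_ne (ne_of_gt hij), Matrix.vecMulVec_apply,
      h i j hij.le, add_zero]
  · change (1 - Matrix.vecMulVec v w) i j = 0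
    rw [Matrix.sub_apply, Matrix.one_apply_ne (ne_of_gt hij), Matrix.vecMulVec_apply,
      h i j hij.le, sub_zero]
  · change (1 + Matrix.vecMulVec v w) i i = 1
    rw [Matrix.add_apply, Matrix.one_apply_eq, Matrix.vecMulVec_apply, h i i le_rfl, add_zero]

theorem Bruhat_dg_mem (t : Fin n → Fˣ) : dg t ∈ BB F n := by
  refine ⟨fun i j hij => ?_, fun i j hij => ?_⟩
  · change Matrix.diagonal (fun i => (t i : F)) i j = 0
    rw [Matrix.diagonal_apply_ne _ (ne_of_gt hij)]
  · change Matrix.diagonal (fun i => (((t i)⁻¹ : Fˣ) : F)) i j = 0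
    rw [Matrix.diagonal_apply_ne _ (ne_of_gt hij)]

theorem Bruhat_dg_mul (t : Fin n → Fˣ) (g : GL (Fin n) F) (i j : Fin n) :
    (dg t * g).1 i j = (t i : F) * g.1 i j := by
  rw [Units.val_mul]
  change (Matrix.diagonal (fun i => (t i : F)) * g.1) i j = _
  rw [Matrix.diagonal_mul]

theorem Bruhat_T_mul (v w : Fin n → F) (h : ∀ a b, b ≤ a → v a * w b = 0) (g : GL (Fin n) F)
    (i j : Fin n) : (Bruhat_T v w h * g).1 i j = g.1 i j + v i * ∑ k, w k * g.1 k j := by
  rw [Units.val_mul]
  change ((1 + Matrix.vecMulVec v w) * g.1) i j = _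
  rw [add_mul, one_mul, Matrix.add_apply, Matrix.mul_apply, Finset.mul_sum]
  congr 1
  exact Finset.sum_congr rfl fun k _ => by rw [Matrix.vecMulVec_apply]; ring

theorem Bruhat_mul_T (v w : Fin n → F) (h : ∀ a b, b ≤ a → v a * w b = 0) (g : GL (Fin n) F)
    (i j : Fin n) : (g * Bruhat_T v w h).1 i j = g.1 i j + (∑ k, g.1 i k * v k) * w j := by
  rw [Units.val_mul]
  change (g.1 * (1 + Matrix.vecMulVec v w)) i j = _
  rw [mul_add, mul_one, Matrix.add_apply, Matrix.mul_apply, Finset.sum_mul]
  congr 1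
  exact Finset.sum_congr rfl fun k _ => by rw [Matrix.vecMulVec_apply]; ring

/-- the last `k` rows are clean -/
def Bruhat_P (k : ℕ) (h : GL (Fin n) F) (c : Fin n → Fin n) : Prop :=
  ∀ i : Fin n, n ≤ i.1 + k →
    h.1 i (c i) = 1 ∧ (∀ j, j ≠ c i → h.1 i j = 0) ∧ ∀ i', i' < i → h.1 i' (c i) = 0

theorem Bruhat_step {k : ℕ} (hk : k < n) (h : GL (Fin n) F) (c : Fin n → Fin n)
    (hP : Bruhat_P k h c) :
    ∃ b ∈ BB F n, ∃ u ∈ NN F n, ∃ c', Bruhat_P (k + 1) (b * h * u) c' := by
  obtain ⟨i0, hi0⟩ : ∃ i0 : Fin n, i0.1 + (k + 1) = n := ⟨⟨n - k - 1, by omega⟩, by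
    change n - k - 1 + (k + 1) = n
    omega⟩
  have hbig : ∀ i : Fin n, i0 < i → n ≤ i.1 + k := by
    intro i hi
    have : i0.1 < i.1 := hi
    omega
  -- the first nonzero entry of the row `i0`
  have hne : ∃ j, h.1 i0 j ≠ 0 := by
    by_contra hcon
    push Not at hcon
    have h1 : (h * h⁻¹).1 i0 i0 = 1 := by rw [mul_inv_cancel, Units.val_one, Matrix.one_apply_eq]
    rw [Units.val_mul, Matrix.mul_apply, Finset.sum_eq_zero] at h1
    · exact zero_ne_one h1
    · intro j _
      rw [hcon j, zero_mul]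
  obtain ⟨c0, hc0, hmin⟩ : ∃ c0, h.1 i0 c0 ≠ 0 ∧ ∀ j, j < c0 → h.1 i0 j = 0 := by
    classical
    let S : Finset (Fin n) := Finset.univ.filter fun j => h.1 i0 j ≠ 0
    have hS : S.Nonempty := by
      obtain ⟨j, hj⟩ := hne
      exact ⟨j, by simp [S, hj]⟩
    refine ⟨S.min' hS, ?_, fun j hj => ?_⟩
    · have := S.min'_mem hS
      simpa [S] using this
    · by_contra hcon
      have : j ∈ S := by simp [S, hcon]
      exact absurd (S.min'_le j this) (not_le.2 hj)
  have hcne : ∀ i, i0 < i → c0 ≠ c i := by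
    intro i hi heq
    exact hc0 (heq ▸ (hP i (hbig i hi)).2.2 i0 hi)
  have hcol : ∀ i, i0 < i → h.1 i c0 = 0 := fun i hi => (hP i (hbig i hi)).2.1 c0 (hcne i hi)
  -- scaling
  let t : Fin n → Fˣ := fun i => if i = i0 then (Units.mk0 _ hc0)⁻¹ else 1
  let h1 : GL (Fin n) F := dg t * h
  have h1v : ∀ i j, h1.1 i j = if i = i0 then (h.1 i0 c0)⁻¹ * h.1 i0 j else h.1 i j := by
    intro i j
    change (dg t * h).1 i j = _
    rw [Bruhat_dg_mul]
    by_cases hi : i = i0
    · simp [t, hi]
    · simp [t, hi]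
  -- clearing the column
  let v1 : Fin n → F := fun a => if a < i0 then - h.1 a c0 else 0
  let w1 : Fin n → F := fun b => if b = i0 then 1 else 0
  have hvw1 : ∀ a b, b ≤ a → v1 a * w1 b = 0 := by
    intro a b hab
    by_cases hb : b = i0
    · have : ¬ a < i0 := not_lt.2 (hb ▸ hab)
      simp [v1, this]
    · simp [w1, hb]
  let T1 := Bruhat_T v1 w1 hvw1
  let h2 : GL (Fin n) F := T1 * h1
  have h2v : ∀ i j, h2.1 i j = h1.1 i j + v1 i * h1.1 i0 j := by
    intro i j
    change (Bruhat_T v1 w1 hvw1 * h1).1 i j = _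
    rw [Bruhat_T_mul]
    congr 2
    rw [Finset.sum_eq_single i0]
    · simp [w1]
    · intro b _ hb
      simp [w1, hb]
    · simp
  -- clearing the row
  let v2 : Fin n → F := fun a => if a = c0 then 1 else 0
  let w2 : Fin n → F := fun b => if c0 < b then - ((h.1 i0 c0)⁻¹ * h.1 i0 b) else 0
  have hvw2 : ∀ a b, b ≤ a → v2 a * w2 b = 0 := by
    intro a b hab
    by_cases ha : a = c0
    · have : ¬ c0 < b := not_lt.2 (ha ▸ hab)
      simp [w2, this]
    · simp [v2, ha]
  let T2 := Bruhat_T v2 w2 hvw2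
  let h3 : GL (Fin n) F := h2 * T2
  have h3v : ∀ i j, h3.1 i j = h2.1 i j + h2.1 i c0 * w2 j := by
    intro i j
    change (h2 * Bruhat_T v2 w2 hvw2).1 i j = _
    rw [Bruhat_mul_T]
    congr 2
    rw [Finset.sum_eq_single c0]
    · simp [v2]
    · intro b _ hb
      simp [v2, hb]
    · simp
  -- the entries of `h3`
  have row0 : ∀ j, h3.1 i0 j = if j = c0 then 1 else 0 := by
    intro j
    have hv : v1 i0 = 0 := by simp [v1]
    have e2 : ∀ j, h2.1 i0 j = (h.1 i0 c0)⁻¹ * h.1 i0 j := by
      intro j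
      rw [h2v, hv, zero_mul, add_zero, h1v, if_pos rfl]
    rw [h3v, e2, e2, inv_mul_cancel₀ hc0, one_mul]
    rcases lt_trichotomy j c0 with hj | hj | hj
    · rw [if_neg (ne_of_lt hj), hmin j hj]
      simp [w2, not_lt.2 hj.le]
    · subst hj
      simp [w2, inv_mul_cancel₀ hc0]
    · rw [if_neg (ne_of_gt hj)]
      simp [w2, hj]
  have rowbig : ∀ i, i0 < i → ∀ j, h3.1 i j = h.1 i j := by
    intro i hi j
    have hv : v1 i = 0 := by simp [v1, not_lt.2 hi.le]
    have e2 : ∀ j, h2.1 i j = h.1 i j := by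
      intro j
      rw [h2v, hv, zero_mul, add_zero, h1v, if_neg (ne_of_gt hi)]
    rw [h3v, e2, e2, hcol i hi, zero_mul, add_zero]
  have rowsmall : ∀ i, i < i0 → ∀ j,
      h3.1 i j = h.1 i j - h.1 i c0 * ((h.1 i0 c0)⁻¹ * h.1 i0 j) := by
    intro i hi j
    have hv : v1 i = - h.1 i c0 := by simp [v1, hi]
    have e2 : ∀ j, h2.1 i j = h.1 i j - h.1 i c0 * ((h.1 i0 c0)⁻¹ * h.1 i0 j) := by
      intro j
      rw [h2v, hv, h1v, if_neg (ne_of_lt hi), h1v, if_pos rfl]
      ring
    rw [h3v, e2, e2 c0, inv_mul_cancel₀ hc0]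
    ring
  refine ⟨T1 * dg t, (BB F n).mul_mem (Bruhat_T_mem _ _ _).1 (Bruhat_dg_mem t), T2,
    Bruhat_T_mem _ _ _, Function.update c i0 c0, ?_⟩
  have heq : T1 * dg t * h * T2 = h3 := by
    change _ = T1 * (dg t * h) * T2
    group
  rw [heq]
  intro i hi
  rcases lt_trichotomy i i0 with hlt | rfl | hgt
  · exfalso
    have : i.1 < i0.1 := hlt
    omega
  · rw [Function.update_self]
    refine ⟨by rw [row0, if_pos rfl], fun j hj => by rw [row0, if_neg hj], fun i' hi' => ?_⟩
    rw [rowsmall i' hi', inv_mul_cancel₀ hc0]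
    ring
  · rw [Function.update_of_ne (ne_of_gt hgt)]
    obtain ⟨p1, p2, p3⟩ := hP i (hbig i hgt)
    refine ⟨by rw [rowbig i hgt, p1], fun j hj => by rw [rowbig i hgt, p2 j hj], fun i' hi' => ?_⟩
    rcases lt_trichotomy i' i0 with hlt | rfl | hgt'
    · rw [rowsmall i' hlt, p3 i' hi', p3 i0 hgt]
      ring
    · rw [row0, if_neg (hcne i hgt).symm]
    · rw [rowbig i' hgt', p3 i' hi']

theorem Bruhat_all (g : GL (Fin n) F) : ∀ k, k ≤ n →
    ∃ b ∈ BB F n, ∃ u ∈ NN F n, ∃ c, Bruhat_P k (b * g * u) c := by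
  intro k
  induction k with
  | zero =>
    intro _
    refine ⟨1, (BB F n).one_mem, 1, (NN F n).one_mem, id, fun i hi => ?_⟩
    exfalso
    have := i.2
    omega
  | succ k ih =>
    intro hk
    obtain ⟨b, hb, u, hu, c, hP⟩ := ih (by omega)
    obtain ⟨b', hb', u', hu', c', hP'⟩ := Bruhat_step (by omega) _ c hP
    refine ⟨b' * b, (BB F n).mul_mem hb' hb, u * u', (NN F n).mul_mem hu hu', c', ?_⟩
    have : b' * b * g * (u * u') = b' * (b * g * u) * u' := by group
    rw [this]
    exact hP'

theorem bruhat (g : GL (Fin n) F) : ∃ w : Equiv.Perm (Fin n), g ∈ orb (BB F n) (NN F n) (pm F w) := by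
  obtain ⟨b, hb, u, hu, c, hP⟩ := Bruhat_all g n le_rfl
  have hinj : Function.Injective c := by
    intro i j hij
    by_contra hne
    rcases lt_or_gt_of_ne hne with h | h
    · have h1 := (hP j (by omega)).2.2 i h
      rw [← hij, (hP i (by omega)).1] at h1
      exact one_ne_zero h1
    · have h1 := (hP i (by omega)).2.2 j h
      rw [hij, (hP j (by omega)).1] at h1
      exact one_ne_zero h1
  let e : Equiv.Perm (Fin n) := Equiv.ofBijective c (Finite.injective_iff_bijective.1 hinj)
  refine ⟨e.symm, b⁻¹, (BB F n).inv_mem hb, u⁻¹, (NN F n).inv_mem hu, ?_⟩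
  have hpm : b * g * u = pm F e.symm := by
    apply Units.ext
    ext i j
    change _ = if i = e.symm j then (1 : F) else 0
    by_cases hj : j = c i
    · have : i = e.symm j := by rw [hj]; exact (e.symm_apply_apply i).symm
      rw [if_pos this, hj]
      exact (hP i (by omega)).1
    · have : ¬ i = e.symm j := by
        intro h
        apply hj
        rw [h]
        exact (e.apply_symm_apply j).symm
      rw [if_neg this]
      exact (hP i (by omega)).2.1 j hj
  rw [← hpm]
  group

end PC.GK
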