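import Mathlib
import Pool.Agent.Lib.MP_ca1492_al.D4.Bruhat
import Pool.Agent.Lib.MP_ca1492_al.D4.Exh
import Pool.Agent.Lib.MP_ca1492_al.D4.GLAlg

/-!
# MP_ca1492_al, D4, Orb: `sg` maps orbits to orbits; compact parts of orbits

`sg_orb`: `x = sg g = b₂ * pm w * n₂` (`bruhat`), `sg (b * g * n) = sg n * x * sg b` with
`sg n ∈ N`, `sg b ∈ B`; write `sg b = t * n₁` with `t` diagonal and `n₁ ∈ N`
(`B = T N`); `n₂ * t = t * n₂'`, `pm w * t = t' * pm w` with `t' = w t w⁻¹` diagonal; so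
`sg (b * g * n)` is in `orb (pm w) = orb x`.
`comp_NN`: for `(b, n) ∈ K` let `t` be the diagonal of `b` (units since `b` is upper triangular
and invertible): `b * pm w * n = (b * (dg t)⁻¹) * (dg t * pm w) * n`; the maps
`(b, n) ↦ b * (dg t)⁻¹` and `(b, n) ↦ n` are continuous on `K` with values in `N`; apply `exh_NN`
to the union of the two compact images. (Continuity of `b ↦ b * (dg t)⁻¹` into the units: the
entries of it and of its inverse `dg t * b⁻¹` are polynomials in the entries of `b` and `b⁻¹`,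
because `(t i)⁻¹ = b⁻¹ i i`.)
-/

open Topology

namespace PC.GK

variable {F : Type} [Field F] {n : ℕ}

theorem Orb_diag (b : GL (Fin n) F) (hb : b ∈ BB F n) (i : Fin n) :
    b.1 i i * b⁻¹.1 i i = 1 := by
  have h : (b * b⁻¹).1 i i = 1 := by rw [mul_inv_cancel, Units.val_one, Matrix.one_apply_eq]
  rw [Units.val_mul, Matrix.mul_apply, Finset.sum_eq_single i] at h
  · exact h
  · intro k _ hk
    rcases lt_or_gt_of_ne hk with h' | h'
    · rw [hb.1 i k h', zero_mul]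
    · rw [hb.2 k i h', mul_zero]
  · simp

/-- the diagonal of an upper triangular matrix -/
def Orb_T (b : GL (Fin n) F) (hb : b ∈ BB F n) : Fin n → Fˣ := fun i =>
  ⟨b.1 i i, b⁻¹.1 i i, Orb_diag b hb i, by rw [mul_comm]; exact Orb_diag b hb i⟩

theorem Orb_dg_mem (t : Fin n → Fˣ) : dg t ∈ BB F n :=
  ⟨fun _ _ hij => Matrix.diagonal_apply_ne _ (ne_of_gt hij),
    fun _ _ hij => Matrix.diagonal_apply_ne _ (ne_of_gt hij)⟩

theorem Orb_val (b : GL (Fin n) F) (hb : b ∈ BB F n) (i j : Fin n) :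
    (b * (dg (Orb_T b hb))⁻¹).1 i j = b.1 i j * b⁻¹.1 j j := by
  rw [Units.val_mul]
  exact Matrix.mul_diagonal _ _ _ _

theorem Orb_val_inv (b : GL (Fin n) F) (hb : b ∈ BB F n) (i j : Fin n) :
    (b * (dg (Orb_T b hb))⁻¹)⁻¹.1 i j = b.1 i i * b⁻¹.1 i j := by
  rw [_root_.mul_inv_rev, inv_inv, Units.val_mul]
  exact Matrix.diagonal_mul _ _ _ _

theorem Orb_mem (b : GL (Fin n) F) (hb : b ∈ BB F n) :
    b * (dg (Orb_T b hb))⁻¹ ∈ NN F n :=
  ⟨(BB F n).mul_mem hb ((BB F n).inv_mem (Orb_dg_mem _)), fun i => by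
    rw [Orb_val]; exact Orb_diag b hb i⟩

theorem Orb_pm_dg (w : Equiv.Perm (Fin n)) (t : Fin n → Fˣ) :
    pm F w * dg t = dg (fun i => t (w.symm i)) * pm F w := by
  ext i j
  rw [Units.val_mul, Units.val_mul]
  have h1 : ((pm F w).1 * (dg t).1) i j = (pm F w).1 i j * (t j : F) :=
    Matrix.mul_diagonal _ _ _ _
  have h2 : ((dg fun i => t (w.symm i)).1 * (pm F w).1) i j
      = (t (w.symm i) : F) * (pm F w).1 i j := Matrix.diagonal_mul _ _ _ _
  rw [h1, h2]
  show (if i = w j then (1 : F) else 0) * (t j : F)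
    = (t (w.symm i) : F) * (if i = w j then (1 : F) else 0)
  by_cases h : i = w j
  · rw [if_pos h, h, Equiv.symm_apply_apply, one_mul, mul_one]
  · rw [if_neg h, zero_mul, mul_zero]

/-- `b = t n` with `t` diagonal and `n` unitriangular -/
theorem Orb_left (b : GL (Fin n) F) (hb : b ∈ BB F n) :
    ∃ t : Fin n → Fˣ, ∃ a ∈ NN F n, b = dg t * a := by
  have h := Orb_mem b⁻¹ ((BB F n).inv_mem hb)
  set t := Orb_T b⁻¹ ((BB F n).inv_mem hb)
  refine ⟨fun i => (t i)⁻¹, (b⁻¹ * (dg t)⁻¹)⁻¹, (NN F n).inv_mem h, ?_⟩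
  have h1 : dg (fun i => (t i)⁻¹) = (dg t)⁻¹ := by
    rw [eq_inv_iff_mul_eq_one]
    ext i j
    rw [Units.val_mul]
    have h2 : ((dg fun i => (t i)⁻¹).1 * (dg t).1) i j
        = (dg fun i => (t i)⁻¹).1 i j * (t j : F) := Matrix.mul_diagonal _ _ _ _
    rw [h2, Units.val_one]
    show (Matrix.diagonal fun i => (((t i)⁻¹ : Fˣ) : F)) i j * (t j : F) = (1 : Matrix _ _ F) i j
    by_cases h3 : i = j
    · rw [h3, Matrix.diagonal_apply_eq, Matrix.one_apply_eq, Units.inv_mul]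
    · rw [Matrix.diagonal_apply_ne _ h3, Matrix.one_apply_ne h3, zero_mul]
  rw [h1]
  group

theorem sg_orb (g b : GL (Fin n) F) (hb : b ∈ BB F n) (u : GL (Fin n) F) (hu : u ∈ NN F n) :
    sg (b * g * u) ∈ orb (BB F n) (NN F n) (sg g) := by
  obtain ⟨w, b₂, hb₂, n₂, hn₂, hx⟩ := bruhat (sg g)
  obtain ⟨t, n₁, hn₁, hbt⟩ := Orb_left (sg b) (sg_BB b hb)
  have hPD := Orb_pm_dg (F := F) w t
  set D := dg t with hD
  set D' := dg (fun i => t (w.symm i)) with hD'
  set P := pm F w with hP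
  have hD'' : D' = P * D * P⁻¹ := by rw [hPD, mul_inv_cancel_right]
  refine ⟨sg u * b₂ * D' * b₂⁻¹, ?_, n₂⁻¹ * (D⁻¹ * n₂ * D) * n₁, ?_, ?_⟩
  · exact (BB F n).mul_mem ((BB F n).mul_mem ((BB F n).mul_mem (NN_le (sg_NN u hu)) hb₂)
      (Orb_dg_mem _)) ((BB F n).inv_mem hb₂)
  · refine (NN F n).mul_mem ((NN F n).mul_mem ((NN F n).inv_mem hn₂) ?_) hn₁
    have h := NN_norm D⁻¹ ((BB F n).inv_mem (Orb_dg_mem t)) n₂ hn₂
    rwa [inv_inv] at h
  · rw [sg_mul, sg_mul, hbt, hx, hD'']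
    group

theorem comp_NN [TopologicalSpace F] [IsTopologicalRing F] [T2Space F] (d : LFData F)
    (w : Equiv.Perm (Fin n)) (K : Set (GL (Fin n) F × GL (Fin n) F)) (hK : IsCompact K)
    (h : ∀ q ∈ K, q.1 ∈ BB F n ∧ q.2 ∈ NN F n) :
    ∃ N' : Subgroup (GL (Fin n) F), Good (NN F n) sg N' ∧
      ∀ q ∈ K, ∃ m ∈ MM F n, ∃ a ∈ N', ∃ c ∈ N', q.1 * pm F w * q.2 = a * m * c := by
  have hKc : CompactSpace K := isCompact_iff_compactSpace.1 hK
  let f : K → GL (Fin n) F := fun q => q.1.1 * (dg (Orb_T q.1.1 (h q.1 q.2).1))⁻¹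
  have hval : Continuous fun q : K => (q.1.1).1 :=
    Units.continuous_val.comp (continuous_fst.comp continuous_subtype_val)
  have hinv : Continuous fun q : K => ((q.1.1)⁻¹).1 :=
    Units.continuous_val.comp (continuous_inv.comp (continuous_fst.comp continuous_subtype_val))
  have hf : Continuous f := by
    rw [Units.continuous_iff]
    constructor
    · refine continuous_matrix fun i j => ?_
      have e : (fun q : K => (f q).1 i j) = fun q : K => (q.1.1).1 i j * ((q.1.1)⁻¹).1 j j := by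
        funext q
        exact Orb_val _ _ _ _
      show Continuous fun q : K => (f q).1 i j
      rw [e]
      exact (hval.matrix_elem i j).mul (hinv.matrix_elem j j)
    · refine continuous_matrix fun i j => ?_
      have e : (fun q : K => ((f q)⁻¹).1 i j) = fun q : K => (q.1.1).1 i i * ((q.1.1)⁻¹).1 i j := by
        funext q
        exact Orb_val_inv _ _ _ _
      show Continuous fun q : K => ((f q)⁻¹).1 i j
      rw [e]
      exact (hval.matrix_elem i i).mul (hinv.matrix_elem i j)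
  have hc1 : IsCompact (Set.range f) := isCompact_range hf
  have hc2 : IsCompact (Prod.snd '' K) := hK.image continuous_snd
  obtain ⟨N', hN', hsub⟩ := exh_NN d (Set.range f ∪ Prod.snd '' K) (hc1.union hc2) (by
    rintro x (⟨q, rfl⟩ | ⟨q, hq, rfl⟩)
    · exact Orb_mem _ _
    · exact (h q hq).2)
  refine ⟨N', hN', fun q hq => ?_⟩
  refine ⟨dg (Orb_T q.1 (h q hq).1) * pm F w, ⟨_, w, rfl⟩, f ⟨q, hq⟩, hsub (Or.inl ⟨_, rfl⟩), q.2,
    hsub (Or.inr ⟨q, hq, rfl⟩), ?_⟩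
  show q.1 * pm F w * q.2 = q.1 * (dg (Orb_T q.1 (h q hq).1))⁻¹ *
    (dg (Orb_T q.1 (h q hq).1) * pm F w) * q.2
  group

end PC.GK
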