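import Mathlib
import Pool.Agent.Lib.MP_ca1492_al.D4.Fix
import Pool.Agent.Lib.MP_ca1492_al.D4.GKMain
import Pool.Agent.Lib.MP_ca1492_al.D4.GLTop
import Pool.Agent.Lib.MP_ca1492_al.D4.Orb

/-!
# MP_ca1492_al, D4, GLMain: the Gelfand-Kazhdan theorem for `GL_n` of a local field
-/

open Topology

namespace PC.GK

variable {F : Type} [Field F] [TopologicalSpace F] [IsTopologicalRing F] [T2Space F] {n : ℕ}

/-- the data for `GL (Fin n) F` -/
noncomputable def glData (d : LFData F) (n : ℕ) (ψ : AddChar F ℂ) (h1 : ∃ x, ψ x ≠ 1)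
    (h2 : ∃ U ∈ 𝓝 (0 : F), ∀ x ∈ U, ψ x = 1) : Data (GL (Fin n) F) := by
  classical
  exact
  { N := NN F n
    B := BB F n
    ψ := psi ψ
    σ := sg
    M := MM F n
    W := Finset.univ.image (pm F)
    N_le := NN_le
    N_closed := NN_closed
    B_closed := BB_closed
    norm := NN_norm
    ψ_mul := psi_mul ψ
    ψ_one := psi_one ψ
    ψ_loc := psi_loc ψ h2
    σ_cont := sg_cont
    σ_inv := sg_sg
    σ_mul := sg_mul
    σ_N := sg_NN
    ψ_σ := psi_sg ψ
    exh := exh_NN d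
    fin := fun g => by
      obtain ⟨w, hw⟩ := bruhat g
      exact ⟨pm F w, by simp, hw⟩
    σ_orb := fun g b hb u hu => sg_orb g b hb u hu
    comp := fun w hw K hK h => by
      obtain ⟨v, _, rfl⟩ := Finset.mem_image.1 hw
      exact comp_NN d v K hK h
    fix := fix_MM ψ h1 }

/-- the Gelfand-Kazhdan theorem: a functional on the locally constant compactly supported
functions on `GL_n(F)` which is `ψ`-equivariant under `N` on both sides is invariant under `sg` -/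
theorem gk_GL (d : LFData F) (n : ℕ) (ψ : AddChar F ℂ) (h1 : ∃ x, ψ x ≠ 1)
    (h2 : ∃ U ∈ 𝓝 (0 : F), ∀ x ∈ U, ψ x = 1) (D : (GL (Fin n) F → ℂ) →ₗ[ℂ] ℂ)
    (hD : ∀ f : GL (Fin n) F → ℂ, IsS f → ∀ a ∈ NN F n,
      D (fun x => f (a * x)) = (psi ψ a)⁻¹ * D f ∧ D (fun x => f (x * a)) = (psi ψ a)⁻¹ * D f)
    (f : GL (Fin n) F → ℂ) (hf : IsS f) : D (fun x => f (sg x)) = D f := by
  haveI := gl_t2 (F := F) n
  haveI := gl_lc d n
  haveI := gl_sc d n
  haveI := gl_na d n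
  exact gk (glData d n ψ h1 h2) D hD f hf

end PC.GK
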