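import Mathlib
import Pool.Agent.Lib.MP_ca1492_al.D4.GLDefs

/-!
# MP_ca1492_al, D4, Unim: positive characters of `GL_n` of an infinite field which are trivial on
scalar matrices are trivial

A transvection `1 + x E_ij` (`i ≠ j`) is a commutator `[t, 1 + y E_ij]` with `t` diagonal
(entry `a` at `i`, `1` elsewhere, `a ≠ 0, 1`), `(a - 1) y = x`; so `Δ = 1` on it. Every matrix is
a product of transvections and a diagonal matrix
(`Matrix.Pivot.exists_list_transvec_mul_diagonal_mul_list_transvec` or
`Matrix.diagonal_transvection_induction_of_det_ne_zero`). On the diagonal matrix with the entry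
`t` at `i` and `1` elsewhere the value `χ t` does not depend on `i` (conjugation with a
permutation matrix); the product over all `i` is `1` (scalar matrix), so `χ t ^ n = 1`, `χ t = 1`
as it is positive. Hence `Δ = 1` on diagonal matrices.
-/

namespace PC.D4

open Matrix PC.GK

/-- diagonal matrices as a homomorphism -/
def Unim_dgH (F : Type) [Field F] (n : ℕ) : (Fin n → Fˣ) →* GL (Fin n) F where
  toFun := dg
  map_one' := by
    apply Units.ext
    show Matrix.diagonal _ = (1 : Matrix (Fin n) (Fin n) F)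
    rw [← Matrix.diagonal_one]
    rfl
  map_mul' s t := by
    apply Units.ext
    show Matrix.diagonal _ = Matrix.diagonal _ * Matrix.diagonal _
    rw [Matrix.diagonal_mul_diagonal]
    rfl

theorem Unim_pm_dg {F : Type} [Field F] {n : ℕ} (w : Equiv.Perm (Fin n)) (t : Fin n → Fˣ) :
    pm F w * dg t = dg (fun i => t (w.symm i)) * pm F w := by
  apply Units.ext
  rw [Units.val_mul, Units.val_mul]
  show (pm F w).1 * Matrix.diagonal (fun i => (t i : F)) =
    Matrix.diagonal (fun i => (t (w.symm i) : F)) * (pm F w).1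
  ext i j
  rw [Matrix.mul_diagonal, Matrix.diagonal_mul]
  show (if i = w j then (1 : F) else 0) * (t j : F) =
    (t (w.symm i) : F) * (if i = w j then (1 : F) else 0)
  by_cases h : i = w j
  · subst h
    simp
  · simp [h]

/-- transvections in `GL` -/
def Unim_tv {F : Type} [Field F] {n : ℕ} (i j : Fin n) (h : i ≠ j) (c : F) : GL (Fin n) F where
  val := Matrix.transvection i j c
  inv := Matrix.transvection i j (-c)
  val_inv := by rw [Matrix.transvection_mul_transvection_same _ _ h, add_neg_cancel,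
    Matrix.transvection_zero]
  inv_val := by rw [Matrix.transvection_mul_transvection_same _ _ h, neg_add_cancel,
    Matrix.transvection_zero]

theorem Unim_tv_one {F : Type} [Field F] [Infinite F] {n : ℕ} (Δ : GL (Fin n) F →* ℝ)
    (hpos : ∀ g, 0 < Δ g) (i j : Fin n) (h : i ≠ j) (c : F) : Δ (Unim_tv i j h c) = 1 := by
  classical
  obtain ⟨a, ha⟩ := Infinite.exists_notMem_finset ({0, 1} : Finset F)
  have ha0 : a ≠ 0 := fun h' => ha (by simp [h'])
  have ha1 : a ≠ 1 := fun h' => ha (by simp [h'])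
  have ha2 : a - 1 ≠ 0 := sub_ne_zero.2 ha1
  set y : F := c / (a - 1) with hy
  have hcy : c + y = a * y := by
    rw [hy]
    field_simp
    ring
  set t : Fin n → Fˣ := Pi.mulSingle i (Units.mk0 a ha0) with ht
  have hti : t i = Units.mk0 a ha0 := by rw [ht, Pi.mulSingle_eq_same]
  have htj : t j = 1 := by rw [ht, Pi.mulSingle_eq_of_ne (Ne.symm h)]
  have key : dg t * Unim_tv i j h y = Unim_tv i j h c * Unim_tv i j h y * dg t := by
    apply Units.ext
    rw [Units.val_mul, Units.val_mul, Units.val_mul]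
    show Matrix.diagonal (fun i => (t i : F)) * Matrix.transvection i j y =
      Matrix.transvection i j c * Matrix.transvection i j y * Matrix.diagonal (fun i => (t i : F))
    rw [Matrix.transvection_mul_transvection_same _ _ h, hcy]
    ext k l
    rw [Matrix.diagonal_mul, Matrix.mul_diagonal]
    simp only [Matrix.transvection, Matrix.add_apply, Matrix.one_apply, Matrix.single_apply]
    by_cases hk : i = k ∧ j = l
    · obtain ⟨rfl, rfl⟩ := hk
      rw [if_neg h, hti, htj]
      simp
    · rw [if_neg hk, if_neg hk, add_zero]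
      by_cases hkl : k = l
      · subst hkl
        ring
      · rw [if_neg hkl]
        ring
  have h1 := congrArg Δ key
  rw [map_mul, map_mul, map_mul] at h1
  have h2 := hpos (dg t)
  have h3 := hpos (Unim_tv i j h y)
  have h4 : (Δ (dg t) * Δ (Unim_tv i j h y)) * (Δ (Unim_tv i j h c) - 1) = 0 := by
    linear_combination (-1 : ℝ) * h1
  rcases mul_eq_zero.1 h4 with h5 | h5
  · exact absurd h5 (ne_of_gt (mul_pos h2 h3))
  · linarith

theorem Unim_dg_swap {F : Type} [Field F] {n : ℕ} (Δ : GL (Fin n) F →* ℝ)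
    (hpos : ∀ g, 0 < Δ g) (i j : Fin n) (a : Fˣ) :
    Δ (dg (Pi.mulSingle i a)) = Δ (dg (Pi.mulSingle j a)) := by
  have h1 := congrArg Δ (Unim_pm_dg (F := F) (Equiv.swap i j) (Pi.mulSingle i a))
  have h2 : (fun k => (Pi.mulSingle i a : Fin n → Fˣ) ((Equiv.swap i j).symm k)) =
      Pi.mulSingle j a := by
    funext k
    rw [Equiv.symm_swap]
    by_cases hk : k = j
    · subst hk
      rw [Equiv.swap_apply_right, Pi.mulSingle_eq_same, Pi.mulSingle_eq_same]
    · rw [Pi.mulSingle_eq_of_ne hk, Pi.mulSingle_eq_of_ne]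
      intro h
      have h' := congrArg (Equiv.swap i j) h
      rw [Equiv.swap_apply_self, Equiv.swap_apply_left] at h'
      exact hk h'
  rw [h2, map_mul, map_mul, mul_comm] at h1
  exact mul_right_cancel₀ (ne_of_gt (hpos _)) h1

theorem Unim_single {F : Type} [Field F] {n : ℕ} (Δ : GL (Fin n) F →* ℝ)
    (hpos : ∀ g, 0 < Δ g)
    (hc : ∀ z : GL (Fin n) F, (∀ g, z * g = g * z) → Δ z = 1) (i : Fin n) (a : Fˣ) :
    Δ (dg (Pi.mulSingle i a)) = 1 := by
  have hz : (Δ.comp (Unim_dgH F n)) (fun _ => a) = 1 := by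
    show Δ (Unim_dgH F n (fun _ => a)) = 1
    apply hc
    intro g
    apply Units.ext
    rw [Units.val_mul, Units.val_mul]
    show Matrix.diagonal (fun _ => (a : F)) * g.1 = g.1 * Matrix.diagonal (fun _ => (a : F))
    ext k l
    rw [Matrix.diagonal_mul, Matrix.mul_diagonal, mul_comm]
  have h1 : (fun _ => a : Fin n → Fˣ) = ∏ k, Pi.mulSingle k a :=
    (Finset.univ_prod_mulSingle (fun _ => a : Fin n → Fˣ)).symm
  rw [h1, map_prod] at hz
  have h2 : ∀ k : Fin n, (Δ.comp (Unim_dgH F n)) (Pi.mulSingle k a) =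
      Δ (dg (Pi.mulSingle i a)) :=
    fun k => Unim_dg_swap Δ hpos k i a
  rw [Finset.prod_congr rfl (fun k _ => h2 k), Finset.prod_const, Finset.card_univ,
    Fintype.card_fin] at hz
  have hn : n ≠ 0 := by
    rintro rfl
    exact i.elim0
  exact (pow_eq_one_iff_of_nonneg (le_of_lt (hpos _)) hn).1 hz

theorem Unim_dg {F : Type} [Field F] {n : ℕ} (Δ : GL (Fin n) F →* ℝ)
    (hpos : ∀ g, 0 < Δ g)
    (hc : ∀ z : GL (Fin n) F, (∀ g, z * g = g * z) → Δ z = 1) (t : Fin n → Fˣ) :
    Δ (dg t) = 1 := by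
  have h1 : t = ∏ k, Pi.mulSingle k (t k) := (Finset.univ_prod_mulSingle t).symm
  have h2 : (Δ.comp (Unim_dgH F n)) (∏ k, Pi.mulSingle k (t k)) = 1 := by
    rw [map_prod]
    exact Finset.prod_eq_one (fun k _ => Unim_single Δ hpos hc k (t k))
  rw [← h1] at h2
  exact h2

theorem unim {F : Type} [Field F] [Infinite F] {n : ℕ} (Δ : GL (Fin n) F →* ℝ)
    (hpos : ∀ g, 0 < Δ g)
    (hc : ∀ z : GL (Fin n) F, (∀ g, z * g = g * z) → Δ z = 1) (g : GL (Fin n) F) : Δ g = 1 := by
  have hdet : Matrix.det g.1 ≠ 0 := by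
    have h := g.isUnit
    exact ((Matrix.isUnit_iff_isUnit_det g.1).1 h).ne_zero
  refine Matrix.diagonal_transvection_induction_of_det_ne_zero
    (fun A => ∀ x : GL (Fin n) F, x.1 = A → Δ x = 1) g.1 hdet ?_ ?_ ?_ g rfl
  · intro D hD x hx
    have hD' : ∀ i, D i ≠ 0 := by
      rw [Matrix.det_diagonal, Finset.prod_ne_zero_iff] at hD
      exact fun i => hD i (Finset.mem_univ i)
    have h1 : x = dg (fun i => Units.mk0 (D i) (hD' i)) := by
      apply Units.ext
      rw [hx]
      rfl
    rw [h1]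
    exact Unim_dg Δ hpos hc _
  · intro t x hx
    have h1 : x = Unim_tv t.i t.j t.hij t.c := by
      apply Units.ext
      rw [hx]
      rfl
    rw [h1]
    exact Unim_tv_one Δ hpos t.i t.j t.hij t.c
  · intro A B hA hB hPA hPB x hx
    have h1 : x = Matrix.GeneralLinearGroup.mkOfDetNeZero A hA *
        Matrix.GeneralLinearGroup.mkOfDetNeZero B hB := by
      apply Units.ext
      rw [hx]
      rfl
    rw [h1, map_mul, hPA _ rfl, hPB _ rfl, one_mul]

end PC.D4
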