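import Mathlib
import Pool.Agent.Lib.MP_ca1492_al.D4.GKDefs
import Pool.Agent.Lib.MP_ca1492_al.D4.GLAlg
import Pool.Agent.Lib.MP_ca1492_al.D4.GLTop
import Pool.Agent.Lib.MP_ca1492_al.D4.Unim

/-!
# MP_ca1492_al, D4, HaarI: the Haar integral on `GL (Fin n) F`, bi-invariant and `sg`-invariant

Put the Borel σ-algebra on `G = GL (Fin n) F` (`borelize`), `μ = MeasureTheory.Measure.haar`
(`G` is locally compact and T2: `gl_lc`, `gl_t2`). `MeasureTheory.Measure.modularCharacter` is a
positive character; on central `z` it is `1` because `map (· * z) μ = map (z * ·) μ = μ`. By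
`unim` it is trivial, so `∫ f (x * a) dμ = ∫ f dμ` for `f` continuous with compact support
(see the proofs in `Mathlib/MeasureTheory/Group/ModularCharacter.lean`,
`integral_isMulLeftInvariant_eq_smul_of_hasCompactSupport`,
`modularCharacterFun_eq_haarScalarFactor`). For `sg`: `map sg μ` is left invariant by right
invariance of `μ`, so `∫ f ∘ sg = c ∫ f` with `c ≥ 0` (real and imaginary parts); applying it
twice `c ^ 2 = 1`, `c = 1`. The functional `f ↦ ∫ f` is linear on the functions with `IsS f`
(continuous with compact support, hence integrable), extend it to all functions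
(`LinearMap.exists_extend`). `I (1_X) = μ X ≠ 0` for nonempty compact open `X`.
`F` is infinite: `p ^ j ≠ p ^ k` for `j ≠ k`, otherwise `p` would be a root of unity and `d.small`
fails (`p ^ (j N) = 1`, choose a neighbourhood of `0` without `1`).
-/

open Topology

namespace PC.D4

open PC.GK (IsS LFData NN sg psi)

theorem infinite_of_lf {F : Type} [Field F] [TopologicalSpace F] [T2Space F] (d : LFData F) :
    Infinite F := by
  by_contra hcon
  have hfin : Finite F := not_infinite_iff_finite.1 hcon
  have hd : DiscreteTopology F := inferInstance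
  have hU : ({0} : Set F) ∈ 𝓝 (0 : F) := (isOpen_discrete _).mem_nhds rfl
  obtain ⟨j, hj⟩ := d.small {0} hU
  have h1 := hj 1 d.O.one_mem
  rw [mul_one] at h1
  exact pow_ne_zero j d.p_ne h1

open MeasureTheory MeasureTheory.Measure in
/-- the Haar integral of a unimodular group with an anti-involution -/
theorem HaarI_aux {G : Type} [Group G] [TopologicalSpace G] [IsTopologicalGroup G]
    [LocallyCompactSpace G] (hmod : ∀ g : G, modularCharacterFun g = 1)
    (s : G → G) (hs : Continuous s) (hss : ∀ g, s (s g) = g)
    (hsm : ∀ g h, s (g * h) = s h * s g) : ∃ I : (G → ℂ) →ₗ[ℂ] ℂ,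
      (∀ f, IsS f → ∀ a, I (fun x => f (a * x)) = I f) ∧
      (∀ f, IsS f → ∀ a, I (fun x => f (x * a)) = I f) ∧
      (∀ f, IsS f → I (fun x => f (s x)) = I f) ∧
      ∀ X : Set G, IsOpen X → IsCompact X → X.Nonempty →
        I (X.indicator fun _ => 1) ≠ 0 := by
  borelize G
  let μ : Measure G := MeasureTheory.Measure.haar
  have hreg : μ.Regular := inferInstanceAs (Regular (haarMeasure _))
  -- right invariance
  have hright : ∀ a : G, μ.map (· * a) = μ := by
    intro a
    have hr : (μ.map (· * a)).Regular := Regular.map (Homeomorph.mulRight a)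
    have h1 := isMulLeftInvariant_eq_smul_of_regular (μ.map (· * a)) μ
    rw [← modularCharacterFun_eq_haarScalarFactor μ a, hmod a, one_smul] at h1
    exact h1
  have hri : IsMulRightInvariant μ := ⟨hright⟩
  -- the anti-involution
  let sh : G ≃ₜ G :=
    { toFun := s
      invFun := s
      left_inv := hss
      right_inv := hss
      continuous_toFun := hs
      continuous_invFun := hs }
  have hsmeas : Measurable s := hs.measurable
  have hsinv : IsMulLeftInvariant (μ.map s) := by
    refine ⟨fun g => ?_⟩
    have e1 : ((g * ·) : G → G) ∘ s = s ∘ (· * s g) := by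
      funext x
      simp only [Function.comp_apply]
      rw [hsm, hss]
    rw [map_map (measurable_const_mul g) hsmeas, e1,
      ← map_map hsmeas (measurable_mul_const _), hright]
  have hsreg : (μ.map s).Regular := Regular.map sh
  have hsfin : IsFiniteMeasureOnCompacts (μ.map s) := inferInstance
  have hsmap : μ.map s = μ := by
    have h1 := isMulLeftInvariant_eq_smul_of_regular (μ.map s) μ
    set c := haarScalarFactor (μ.map s) μ with hc
    have h2 : μ = (c * c) • μ := by
      have h3 : (μ.map s).map s = μ := by
        rw [map_map hsmeas hsmeas]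
        have : s ∘ s = id := funext hss
        rw [this, map_id]
      have h4 : (μ.map s).map s = c • μ.map s := by
        conv_lhs => rw [h1]
        rw [Measure.map_smul]
      rw [h3, h1, smul_smul] at h4
      exact h4
    -- test on a compact neighbourhood
    obtain ⟨K, hK, hK1⟩ := exists_compact_mem_nhds (1 : G)
    have hpos : 0 < μ K := measure_pos_of_mem_nhds μ hK1
    have hfin : μ K ≠ ⊤ := hK.measure_lt_top.ne
    have h5 : μ K = (c * c : NNReal) * μ K := by
      conv_lhs => rw [h2]
      rfl
    have h6 : (c * c : NNReal) = 1 := by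
      have h7 : ((c * c : NNReal) : ENNReal) * μ K = 1 * μ K := by rw [one_mul]; exact h5.symm
      have h8 := (ENNReal.mul_left_inj hpos.ne' hfin).1 h7
      exact_mod_cast h8
    have h9 : c = 1 := by
      have h10 : (c : ℝ) * c = 1 := by exact_mod_cast h6
      have h11 : (0 : ℝ) ≤ c := c.2
      have h12 : ((c : ℝ) - 1) * (c + 1) = 0 := by linear_combination h10
      rcases mul_eq_zero.1 h12 with h | h
      · have h13 : (c : ℝ) = 1 := by linarith
        exact_mod_cast h13
      · exfalso
        linarith
    rw [h9, one_smul] at h1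
    exact h1
  -- the functional
  let S : Submodule ℂ (G → ℂ) :=
    { carrier := {f | Integrable f μ}
      add_mem' := fun ha hb => ha.add hb
      zero_mem' := integrable_zero _ _ _
      smul_mem' := fun c f hf => hf.smul c }
  let I0 : S →ₗ[ℂ] ℂ :=
    { toFun := fun f => ∫ x, f.1 x ∂μ
      map_add' := fun f g => integral_add f.2 g.2
      map_smul' := fun c f => integral_smul c f.1 }
  obtain ⟨I, hI⟩ := LinearMap.exists_extend I0
  have hIv : ∀ f : G → ℂ, Integrable f μ → I f = ∫ x, f x ∂μ := by
    intro f hf
    have := LinearMap.congr_fun hI ⟨f, hf⟩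
    exact this
  have hint : ∀ f : G → ℂ, IsS f → Integrable f μ := fun f hf =>
    hf.1.continuous.integrable_of_hasCompactSupport hf.2
  have hmps : MeasurePreserving s μ μ := ⟨hsmeas, hsmap⟩
  refine ⟨I, ?_, ?_, ?_, ?_⟩
  · intro f hf a
    rw [hIv _ ((hint f hf).comp_mul_left a), hIv f (hint f hf)]
    exact integral_mul_left_eq_self f a
  · intro f hf a
    rw [hIv _ ((hint f hf).comp_mul_right a), hIv f (hint f hf)]
    exact integral_mul_right_eq_self f a
  · intro f hf
    have h1 : Integrable (fun x => f (s x)) μ := hmps.integrable_comp_of_integrable (hint f hf)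
    rw [hIv _ h1, hIv f (hint f hf)]
    exact hmps.integral_comp sh.measurableEmbedding f
  · intro X hXo hXc hXn
    have hpos : 0 < μ X := hXo.measure_pos μ hXn
    have hfin : μ X ≠ ⊤ := hXc.measure_lt_top.ne
    have h1 : Integrable (X.indicator fun _ => (1 : ℂ)) μ := by
      rw [integrable_indicator_iff hXo.measurableSet]
      exact integrableOn_const hfin
    rw [hIv _ h1, integral_indicator hXo.measurableSet, setIntegral_const]
    simp only [mul_one, Complex.real_smul]
    intro h2
    have h3 : μ.real X = 0 := by exact_mod_cast h2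
    rw [measureReal_def, ENNReal.toReal_eq_zero_iff] at h3
    rcases h3 with h3 | h3
    · exact hpos.ne' h3
    · exact hfin h3

open MeasureTheory MeasureTheory.Measure in
theorem haarI {F : Type} [Field F] [TopologicalSpace F] [IsTopologicalRing F] [T2Space F]
    (d : LFData F) (n : ℕ) : ∃ I : (GL (Fin n) F → ℂ) →ₗ[ℂ] ℂ,
      (∀ f, IsS f → ∀ a, I (fun x => f (a * x)) = I f) ∧
      (∀ f, IsS f → ∀ a, I (fun x => f (x * a)) = I f) ∧
      (∀ f, IsS f → I (fun x => f (sg x)) = I f) ∧
      ∀ X : Set (GL (Fin n) F), IsOpen X → IsCompact X → X.Nonempty →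
        I (X.indicator fun _ => 1) ≠ 0 := by
  have hinf := infinite_of_lf d
  have hlc := PC.GK.gl_lc d n
  refine HaarI_aux ?_ sg PC.GK.sg_cont PC.GK.sg_sg PC.GK.sg_mul
  intro g
  let Δ : GL (Fin n) F →* ℝ :=
    (NNReal.toRealHom : NNReal →* ℝ).comp (modularCharacter (G := GL (Fin n) F))
  have h1 : Δ g = 1 := by
    refine unim Δ (fun g => ?_) (fun z hz => ?_) g
    · change (0 : ℝ) < (modularCharacterFun g : NNReal)
      exact_mod_cast modularCharacterFun_pos g
    · change ((modularCharacterFun z : NNReal) : ℝ) = 1
      borelize (GL (Fin n) F)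
      rw [modularCharacterFun_eq_haarScalarFactor MeasureTheory.Measure.haar z]
      have e1 : (fun x : GL (Fin n) F => x * z) = fun x => z * x := funext fun x => (hz x).symm
      have e2 : (MeasureTheory.Measure.haar : Measure (GL (Fin n) F)).map (fun x => x * z) =
          MeasureTheory.Measure.haar := by
        rw [e1]
        exact map_mul_left_eq_self _ z
      have e3 : ∀ (ν : Measure (GL (Fin n) F)) [IsHaarMeasure ν],
          ν = MeasureTheory.Measure.haar → haarScalarFactor ν MeasureTheory.Measure.haar = 1 := by
        rintro ν _ rfl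
        exact haarScalarFactor_self _
      rw [e3 _ e2]
      rfl
  have h2 : ((modularCharacterFun g : NNReal) : ℝ) = 1 := h1
  exact_mod_cast h2

end PC.D4
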