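import Mathlib
import Pool.Agent.Lib.MP_ca1492_al.D4.GKMain
import Pool.Agent.Lib.MP_ca1492_al.D4.GLDefs
import Pool.Agent.Lib.MP_ca1492_al.D4.WhDefs
import Pool.Agent.Lib.MP_ca1492_al.P.Dual

/-!
# MP_ca1492_al, D4, WhD: the distribution of a Whittaker functional and a generalised vector

`dist_exists`: for `f` with `IsS f` there is an open subgroup `K` with `f (x * k) = f x`
(`PC.GK.unif` in `D4/GKBasic.lean`), and it may be taken compact (intersect with a compact open
subgroup, `hB`). For such a pair put `D f = I (fun x => f x * l (π x (w K)))` (the function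
`x ↦ f x * l (π x (w K))` is `IsS`: `x ↦ l (π x v)` is locally constant for smooth `v`).
Independence of `K`: for `K' ≤ K`: `w K = avg π K (w K')` is a finite mean of `π k (w K')`, `k ∈ K`
(`avg_sum`), and `I (fun x => f x * l (π (x * k) v)) = I (fun x => f (x * k⁻¹) * l (π x v)) =
I (fun x => f x * l (π x v))` by right invariance of `I` and `f (x * k⁻¹) = f x`. For two groups
`K₁`, `K₂` compare with `K₁ ⊓ K₂`. So `D` is well defined and additive on the submodule of `IsS`
functions (for the sum of two functions take the intersection of the subgroups); extend it to all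
functions with `LinearMap.exists_extend`.

`dist_equi`: for `a ∈ N` and `f` right `K`-invariant: `x ↦ f (a * x)` is right `K`-invariant,
`D (f (a ·)) = I (fun x => f (a * x) * l (π x w)) = I (fun x => f x * l (π a⁻¹ (π x w)))` (left
invariance) `= χ a⁻¹ D f`; and `x ↦ f (x * a)` is right `a K a⁻¹`-invariant,
`D (f (· a)) = I (fun x => f (x * a) * l (π x (w (a K a⁻¹)))) = I (fun x => f x * l (π (x * a⁻¹)
(w (a K a⁻¹))))`, and `π a⁻¹ (w (a K a⁻¹)) = (χ a)⁻¹ • w K` by `Fam.equi`.
-/

open Topology Pool.Agent.Lib.MP_ca1492_al.P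

namespace PC.D4

open PC.GK (IsS LFData NN sg psi)

variable {G : Type} [Group G] [TopologicalSpace G] [IsTopologicalGroup G] [T2Space G]
  [LocallyCompactSpace G] [NonarchimedeanGroup G] {V : Type} [AddCommGroup V] [Module ℂ V]

omit [T2Space G] [LocallyCompactSpace G] [NonarchimedeanGroup G] in
/-- matrix coefficients of smooth vectors are locally constant -/
theorem WhD_lc (π : Representation ℂ G V) (hπ : IsSm π) (l : V →ₗ[ℂ] ℂ) (v : V) :
    IsLocallyConstant (fun x => l (π x v)) := by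
  intro s
  rw [isOpen_iff_forall_mem_open]
  intro x hx
  refine ⟨(fun y => x⁻¹ * y) ⁻¹' {g : G | π g v = v}, ?_,
    (hπ v).preimage (continuous_const.mul continuous_id), ?_⟩
  · intro y hy
    have h1 : π (x⁻¹ * y) v = v := hy
    have h2 : π y v = π x v := by
      calc π y v = π (x * (x⁻¹ * y)) v := by rw [mul_inv_cancel_left]
        _ = π x (π (x⁻¹ * y) v) := by rw [map_mul, Module.End.mul_apply]
        _ = π x v := by rw [h1]
    show l (π y v) ∈ s
    rw [h2]
    exact hx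
  · show π (x⁻¹ * x) v = v
    simp

omit [T2Space G] [LocallyCompactSpace G] [NonarchimedeanGroup G] in
theorem WhD_isS (π : Representation ℂ G V) (hπ : IsSm π) (l : V →ₗ[ℂ] ℂ) (v : V) {f : G → ℂ}
    (hf : IsS f) : IsS (fun x => f x * l (π x v)) := by
  have h1 : IsLocallyConstant (f * fun x => l (π x v)) := hf.1.mul (WhD_lc π hπ l v)
  have h2 : HasCompactSupport (f * fun x => l (π x v)) := hf.2.mul_right
  exact ⟨h1, h2⟩

omit [T2Space G] [LocallyCompactSpace G] [NonarchimedeanGroup G] in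
/-- passage to a smaller group -/
theorem WhD_le (I : (G → ℂ) →ₗ[ℂ] ℂ) (hI : ∀ f, IsS f → ∀ a, I (fun x => f (x * a)) = I f)
    (π : Representation ℂ G V) (hπ : IsSm π) (N : Subgroup G) (χ : G → ℂ) (l : V →ₗ[ℂ] ℂ)
    (w : Fam π N χ) (f : G → ℂ) (hf : IsS f) (K K' : Subgroup G) (hKo : IsOpen (K : Set G))
    (hKc : IsCompact (K : Set G)) (hKo' : IsOpen (K' : Set G)) (hKc' : IsCompact (K' : Set G))
    (hle : K' ≤ K) (hfK : ∀ x, ∀ k ∈ K, f (x * k) = f x) :
    I (fun x => f x * l (π x (w.w K))) = I (fun x => f x * l (π x (w.w K'))) := by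
  obtain ⟨s, hne, hsK, -, hs⟩ := avg_sum K hKc K' hKo'
  have h1 := hs V π (w.w K') (w.mem K' hKo' hKc')
  rw [w.compat K K' hKo hKc hKo' hle] at h1
  have hc : (s.card : ℂ) ≠ 0 := Nat.cast_ne_zero.2 (Finset.card_ne_zero.2 hne)
  have h2 : ∀ k ∈ s, I (fun x => f x * l (π (x * k) (w.w K'))) =
      I (fun x => f x * l (π x (w.w K'))) := by
    intro k hk
    have h3 := hI (fun x => f x * l (π x (w.w K'))) (WhD_isS π hπ l _ hf) k
    rw [← h3]
    congr 1
    funext x
    rw [hfK x k (hsK k hk)]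
  have h4 : (fun x => f x * l (π x (w.w K))) =
      ((s.card : ℂ))⁻¹ • ∑ k ∈ s, (fun x => f x * l (π (x * k) (w.w K'))) := by
    funext x
    rw [h1, Pi.smul_apply, Finset.sum_apply, map_smul, map_smul, map_sum, map_sum, smul_eq_mul,
      smul_eq_mul, mul_left_comm, Finset.mul_sum]
    congr 1
    refine Finset.sum_congr rfl fun k _ => ?_
    rw [map_mul, Module.End.mul_apply]
  rw [h4, map_smul, map_sum, Finset.sum_congr rfl h2, Finset.sum_const, nsmul_eq_mul, smul_eq_mul,
    ← mul_assoc, inv_mul_cancel₀ hc, one_mul]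

omit [LocallyCompactSpace G] [NonarchimedeanGroup G] in
theorem WhD_two (I : (G → ℂ) →ₗ[ℂ] ℂ) (hI : ∀ f, IsS f → ∀ a, I (fun x => f (x * a)) = I f)
    (π : Representation ℂ G V) (hπ : IsSm π) (N : Subgroup G) (χ : G → ℂ) (l : V →ₗ[ℂ] ℂ)
    (w : Fam π N χ) (f : G → ℂ) (hf : IsS f) (K K' : Subgroup G) (hKo : IsOpen (K : Set G))
    (hKc : IsCompact (K : Set G)) (hKo' : IsOpen (K' : Set G)) (hKc' : IsCompact (K' : Set G))
    (hfK : ∀ x, ∀ k ∈ K, f (x * k) = f x) (hfK' : ∀ x, ∀ k ∈ K', f (x * k) = f x) :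
    I (fun x => f x * l (π x (w.w K))) = I (fun x => f x * l (π x (w.w K'))) := by
  have ho : IsOpen ((K ⊓ K' : Subgroup G) : Set G) := hKo.inter hKo'
  have hc : IsCompact ((K ⊓ K' : Subgroup G) : Set G) := hKc.inter hKc'
  rw [WhD_le I hI π hπ N χ l w f hf K (K ⊓ K') hKo hKc ho hc inf_le_left hfK,
    WhD_le I hI π hπ N χ l w f hf K' (K ⊓ K') hKo' hKc' ho hc inf_le_right hfK']

omit [LocallyCompactSpace G] in
theorem WhD_grp (hB : HasCO G) (f : G → ℂ) (hf : IsS f) : ∃ K : Subgroup G,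
    IsOpen (K : Set G) ∧ IsCompact (K : Set G) ∧ ∀ x, ∀ k ∈ K, f (x * k) = f x := by
  obtain ⟨C, hC⟩ := PC.GK.unif hf
  obtain ⟨K, hKo, hKc, hK⟩ := hB (C : Set G) (C.isOpen.mem_nhds C.one_mem)
  exact ⟨K, hKo, hKc, fun x k hk => (hC k (hK hk) x).2⟩

theorem dist_exists (hB : HasCO G) (I : (G → ℂ) →ₗ[ℂ] ℂ)
    (hI : ∀ f, IsS f → ∀ a, I (fun x => f (x * a)) = I f)
    (π : Representation ℂ G V) (hπ : IsSm π) (N : Subgroup G) (χ : G → ℂ) (l : V →ₗ[ℂ] ℂ)
    (w : Fam π N χ) : ∃ D : (G → ℂ) →ₗ[ℂ] ℂ, ∀ f, IsS f → ∀ K : Subgroup G,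
      IsOpen (K : Set G) → IsCompact (K : Set G) → (∀ x, ∀ k ∈ K, f (x * k) = f x) →
      D f = I (fun x => f x * l (π x (w.w K))) := by
  classical
  let S : Submodule ℂ (G → ℂ) :=
    { carrier := {f | IsS f}
      add_mem' := fun {a b} ha hb => by
        show IsS (a + b)
        exact IsS.add ha hb
      zero_mem' := by
        show IsS (0 : G → ℂ)
        exact PC.GK.IsS.zero
      smul_mem' := fun c {a} ha => by
        show IsS (c • a)
        exact IsS.smul ha c }
  have hS : ∀ f : S, IsS (f : G → ℂ) := fun f => f.2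
  choose K hKo hKc hK using fun f : S => WhD_grp hB (f : G → ℂ) (hS f)
  have key : ∀ f : S, ∀ K' : Subgroup G, IsOpen (K' : Set G) → IsCompact (K' : Set G) →
      (∀ x, ∀ k ∈ K', (f : G → ℂ) (x * k) = (f : G → ℂ) x) →
      I (fun x => (f : G → ℂ) x * l (π x (w.w (K f)))) =
        I (fun x => (f : G → ℂ) x * l (π x (w.w K'))) := fun f K' h1 h2 h3 =>
    WhD_two I hI π hπ N χ l w f (hS f) (K f) K' (hKo f) (hKc f) h1 h2 (hK f) h3
  let D0 : S →ₗ[ℂ] ℂ :=
    { toFun := fun f => I (fun x => (f : G → ℂ) x * l (π x (w.w (K f))))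
      map_add' := by
        intro f g
        have ho : IsOpen ((K f ⊓ K g : Subgroup G) : Set G) := (hKo f).inter (hKo g)
        have hc : IsCompact ((K f ⊓ K g : Subgroup G) : Set G) := (hKc f).inter (hKc g)
        rw [key f (K f ⊓ K g) ho hc (fun x k hk => hK f x k hk.1),
          key g (K f ⊓ K g) ho hc (fun x k hk => hK g x k hk.2),
          key (f + g) (K f ⊓ K g) ho hc (fun x k hk => by
            show (f : G → ℂ) (x * k) + (g : G → ℂ) (x * k) = (f : G → ℂ) x + (g : G → ℂ) x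
            rw [hK f x k hk.1, hK g x k hk.2]), ← map_add]
        congr 1
        funext x
        show ((f : G → ℂ) x + (g : G → ℂ) x) * _ = (f : G → ℂ) x * _ + (g : G → ℂ) x * _
        ring
      map_smul' := by
        intro c f
        rw [key (c • f) (K f) (hKo f) (hKc f) (fun x k hk => by
            show c * (f : G → ℂ) (x * k) = c * (f : G → ℂ) x
            rw [hK f x k hk]), RingHom.id_apply, ← map_smul]
        congr 1
        funext x
        show (c * (f : G → ℂ) x) * _ = c * ((f : G → ℂ) x * _)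
        ring }
  obtain ⟨D, hD⟩ := LinearMap.exists_extend D0
  refine ⟨D, fun f hf K' h1 h2 h3 => ?_⟩
  have h4 : D f = D0 ⟨f, hf⟩ := by
    rw [← hD]
    rfl
  rw [h4]
  exact key ⟨f, hf⟩ K' h1 h2 h3

theorem dist_equi (hB : HasCO G) (I : (G → ℂ) →ₗ[ℂ] ℂ)
    (hI : ∀ f, IsS f → ∀ a, I (fun x => f (x * a)) = I f)
    (hI' : ∀ f, IsS f → ∀ a, I (fun x => f (a * x)) = I f)
    (π : Representation ℂ G V) (hπ : IsSm π) (N : Subgroup G) (χ : G → ℂ)
    (hχ : ∀ a ∈ N, χ a ≠ 0) (hχ' : ∀ a ∈ N, χ a⁻¹ = (χ a)⁻¹) (l : V →ₗ[ℂ] ℂ) (hl : Wh π N χ l)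
    (w : Fam π N χ) (D : (G → ℂ) →ₗ[ℂ] ℂ) (hD : ∀ f, IsS f → ∀ K : Subgroup G,
      IsOpen (K : Set G) → IsCompact (K : Set G) → (∀ x, ∀ k ∈ K, f (x * k) = f x) →
      D f = I (fun x => f x * l (π x (w.w K)))) (f : G → ℂ) (hf : IsS f) (a : G) (ha : a ∈ N) :
    D (fun x => f (a * x)) = (χ a)⁻¹ * D f ∧ D (fun x => f (x * a)) = (χ a)⁻¹ * D f := by
  obtain ⟨K, hKo, hKc, hK⟩ := WhD_grp hB f hf
  have hS : IsS (fun x => (χ a)⁻¹ * (f x * l (π x (w.w K)))) :=
    IsS.smul (WhD_isS π hπ l _ hf) _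
  have hlin : I (fun x => (χ a)⁻¹ * (f x * l (π x (w.w K)))) = (χ a)⁻¹ * D f := by
    rw [hD f hf K hKo hKc hK, ← smul_eq_mul, ← map_smul]
    rfl
  constructor
  · rw [hD (fun x => f (a * x)) (hf.left a) K hKo hKc (fun x k hk => by
      show f (a * (x * k)) = f (a * x)
      rw [← mul_assoc, hK (a * x) k hk]), ← hlin, ← hI' _ hS a]
    congr 1
    funext x
    have h1 : l (π x (w.w K)) = χ a⁻¹ * l (π (a * x) (w.w K)) := by
      rw [← hl a⁻¹ (N.inv_mem ha), ← Module.End.mul_apply, ← map_mul, inv_mul_cancel_left]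
    show f (a * x) * l (π x (w.w K)) = (χ a)⁻¹ * (f (a * x) * l (π (a * x) (w.w K)))
    rw [h1, hχ' a ha]
    ring
  · have ho : IsOpen ((K.map (MulAut.conj a).toMonoidHom : Subgroup G) : Set G) := by
      have h1 : ((K.map (MulAut.conj a).toMonoidHom : Subgroup G) : Set G) =
          (fun y => a⁻¹ * y * a) ⁻¹' (K : Set G) := by
        ext y
        constructor
        · rintro ⟨k, hk, rfl⟩
          show a⁻¹ * ((MulAut.conj a).toMonoidHom k) * a ∈ (K : Set G)
          have h2 : a⁻¹ * ((MulAut.conj a).toMonoidHom k) * a = k := by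
            simp [MulAut.conj_apply, mul_assoc]
          rw [h2]
          exact hk
        · intro hy
          exact ⟨a⁻¹ * y * a, hy, by simp [MulAut.conj_apply, mul_assoc]⟩
      rw [h1]
      exact hKo.preimage ((continuous_const.mul continuous_id).mul continuous_const)
    have hc : IsCompact ((K.map (MulAut.conj a).toMonoidHom : Subgroup G) : Set G) := by
      have h1 : ((K.map (MulAut.conj a).toMonoidHom : Subgroup G) : Set G) =
          (fun y => a * y * a⁻¹) '' (K : Set G) := by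
        ext y
        constructor
        · rintro ⟨k, hk, rfl⟩
          exact ⟨k, hk, by simp [MulAut.conj_apply]⟩
        · rintro ⟨k, hk, rfl⟩
          exact ⟨k, hk, by simp [MulAut.conj_apply]⟩
      rw [h1]
      exact hKc.image ((continuous_const.mul continuous_id).mul continuous_const)
    rw [hD (fun x => f (x * a)) (hf.right a) _ ho hc (fun x k hk => by
      obtain ⟨k', hk', rfl⟩ := hk
      show f (x * (MulAut.conj a).toMonoidHom k' * a) = f (x * a)
      have h2 : x * (MulAut.conj a).toMonoidHom k' * a = (x * a) * k' := by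
        simp [MulAut.conj_apply, mul_assoc]
      rw [h2, hK (x * a) k' hk']), ← hlin, ← hI _ hS a]
    congr 1
    funext x
    have h1 : l (π (x * a) (w.w K)) =
        χ a * l (π x (w.w (K.map (MulAut.conj a).toMonoidHom))) := by
      rw [map_mul, Module.End.mul_apply, w.equi a ha K hKo hKc, map_smul, map_smul, smul_eq_mul]
    show f (x * a) * l (π x (w.w (K.map (MulAut.conj a).toMonoidHom))) =
      (χ a)⁻¹ * (f (x * a) * l (π (x * a) (w.w K)))
    rw [h1]
    field_simp [hχ a ha]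

end PC.D4
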