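import Mathlib
import Pool.Agent.Lib.MP_ca1492_al.D4.GLMain
import Pool.Agent.Lib.MP_ca1492_al.D4.HaarI
import Pool.Agent.Lib.MP_ca1492_al.D4.SgBas
import Pool.Agent.Lib.MP_ca1492_al.D4.WhD

/-!
# MP_ca1492_al, D4, WhSym: symmetry of the generalised matrix coefficient

`psi_facts`: `psi ψ a ≠ 0` (`AddChar` values are units), `psi ψ a⁻¹ = (psi ψ a)⁻¹` for `a ∈ NN`
(`psi_mul`, `psi_one`).

`dist_double`: `f = 1_{K g K}` is `IsS` and right `K`-invariant, so
`D f = I (fun x => f x * l (π x (w K)))`. Put `φ x = f x * l (π x (w K))`; by left invariance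
`I φ = |s|⁻¹ Σ_{k ∈ s} I (fun x => φ (k * x))` for every finite nonempty `s ⊆ K`. Take `s` from
`avg_sum K U` where `U` is an open subgroup which fixes all vectors `π (k * g) (w K)`, `k ∈ K`
(this orbit is finite since `K ∩ stabilizer` has finite index in `K`; take a finite intersection).
For `x = k' g k''`: `|s|⁻¹ Σ_{k ∈ s} l (π (k k' g) (w K)) = l (avg π K (π (k' g) (w K))) =
l (avg π K (π g (w K)))` (`avg_apply_of_mem`); for `x ∉ K g K` both sides are `0`. So
`I φ = I f * l (avg π K (π g (w K)))`.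

`wh_sym`: by `haarI`, `dist_exists`, `dist_equi`, `gk_GL` (`D4/GLMain.lean`):
`D (f ∘ sg) = D f` for `f = 1_{K g K}`; `f ∘ sg = 1_{K (sg g) K}` since `sg K = K`; and
`I (f ∘ sg) = I f ≠ 0`.
-/

open Topology Pool.Agent.Lib.MP_ca1492_al.P

namespace PC.D4

open PC.GK (IsS LFData NN sg psi)

open scoped Pointwise

theorem psi_facts {F : Type} [Field F] {n : ℕ} (ψ : AddChar F ℂ) :
    (∀ a ∈ NN F n, psi ψ a ≠ 0) ∧ ∀ a ∈ NN F n, psi ψ a⁻¹ = (psi ψ a)⁻¹ := by
  refine ⟨fun a _ => (ψ.val_isUnit _).ne_zero, fun a ha => ?_⟩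
  have h1 := PC.GK.psi_mul ψ a ha a⁻¹ ((NN F n).inv_mem ha)
  rw [mul_inv_cancel, PC.GK.psi_one] at h1
  exact eq_inv_of_mul_eq_one_right h1.symm

theorem WhSym_indicator {X : Type*} [TopologicalSpace X] [T2Space X] {S : Set X} (h : IsOpen S)
    (h' : IsCompact S) : IsS (S.indicator fun _ => (1 : ℂ)) := by
  constructor
  · rw [IsLocallyConstant.iff_eventually_eq]
    intro x
    by_cases hx : x ∈ S
    · filter_upwards [h.mem_nhds hx] with y hy
      rw [Set.indicator_of_mem hy, Set.indicator_of_mem hx]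
    · filter_upwards [h'.isClosed.isOpen_compl.mem_nhds hx] with y hy
      rw [Set.indicator_of_notMem hy, Set.indicator_of_notMem hx]
  · exact HasCompactSupport.intro h' fun x hx => Set.indicator_of_notMem hx _

theorem dist_double {G : Type} [Group G] [TopologicalSpace G] [IsTopologicalGroup G] [T2Space G]
    [LocallyCompactSpace G] [NonarchimedeanGroup G] {V : Type} [AddCommGroup V] [Module ℂ V]
    (I : (G → ℂ) →ₗ[ℂ] ℂ) (hI' : ∀ f, IsS f → ∀ a, I (fun x => f (a * x)) = I f)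
    (π : Representation ℂ G V) (hπ : IsSm π) (N : Subgroup G) (χ : G → ℂ) (l : V →ₗ[ℂ] ℂ)
    (w : Fam π N χ) (D : (G → ℂ) →ₗ[ℂ] ℂ) (hD : ∀ f, IsS f → ∀ K : Subgroup G,
      IsOpen (K : Set G) → IsCompact (K : Set G) → (∀ x, ∀ k ∈ K, f (x * k) = f x) →
      D f = I (fun x => f x * l (π x (w.w K)))) (K : Subgroup G) (hK : IsOpen (K : Set G))
    (hK' : IsCompact (K : Set G)) (g : G) (X : Set G)
    (hX : X = {x | ∃ a ∈ K, ∃ b ∈ K, x = a * g * b}) :
    IsOpen X ∧ IsCompact X ∧ IsS (X.indicator fun _ => (1 : ℂ)) ∧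
      D (X.indicator fun _ => 1) =
        I (X.indicator fun _ => 1) * l (avg π K (π g (w.w K))) := by
  classical
  have hXm : X = ((K : Set G) * ({g} : Set G)) * (K : Set G) := by
    rw [hX]
    ext x
    constructor
    · rintro ⟨a, ha, b, hb, rfl⟩
      exact Set.mul_mem_mul (Set.mul_mem_mul ha rfl) hb
    · rintro ⟨y, ⟨a, ha, c, rfl, rfl⟩, b, hb, rfl⟩
      exact ⟨a, ha, b, hb, rfl⟩
  have hXo : IsOpen X := by
    rw [hXm]
    exact hK.mul_left
  have hXc : IsCompact X := by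
    rw [hXm]
    exact (hK'.mul isCompact_singleton).mul hK'
  have hS : IsS (X.indicator fun _ => (1 : ℂ)) := WhSym_indicator hXo hXc
  refine ⟨hXo, hXc, hS, ?_⟩
  have memX : ∀ x, x ∈ X ↔ ∃ a ∈ K, ∃ b ∈ K, x = a * g * b := fun x => by rw [hX]; rfl
  have hr : ∀ x, ∀ k ∈ K, (x * k ∈ X ↔ x ∈ X) := by
    intro x k hk
    rw [memX, memX]
    constructor
    · rintro ⟨a, ha, b, hb, h⟩
      exact ⟨a, ha, b * k⁻¹, K.mul_mem hb (K.inv_mem hk), by
        rw [← mul_assoc, ← h, mul_inv_cancel_right]⟩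
    · rintro ⟨a, ha, b, hb, h⟩
      exact ⟨a, ha, b * k, K.mul_mem hb hk, by rw [h, mul_assoc]⟩
  have hl' : ∀ x, ∀ k ∈ K, (k * x ∈ X ↔ x ∈ X) := by
    intro x k hk
    rw [memX, memX]
    constructor
    · rintro ⟨a, ha, b, hb, h⟩
      exact ⟨k⁻¹ * a, K.mul_mem (K.inv_mem hk) ha, b, hb, by
        rw [mul_assoc, mul_assoc, ← mul_assoc a, ← h, inv_mul_cancel_left]⟩
    · rintro ⟨a, ha, b, hb, h⟩
      exact ⟨k * a, K.mul_mem hk ha, b, hb, by rw [h]; simp only [mul_assoc]⟩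
  set f : G → ℂ := X.indicator fun _ => (1 : ℂ) with hf
  have f1 : ∀ x, x ∈ X → f x = 1 := fun x hx => Set.indicator_of_mem hx _
  have f0 : ∀ x, x ∉ X → f x = 0 := fun x hx => Set.indicator_of_notMem hx _
  have hfr : ∀ x, ∀ k ∈ K, f (x * k) = f x := by
    intro x k hk
    by_cases hx : x ∈ X
    · rw [f1 x hx, f1 _ ((hr x k hk).2 hx)]
    · rw [f0 x hx, f0 _ (fun h => hx ((hr x k hk).1 h))]
  rw [hD f hS K hK hK' hfr]
  set v := w.w K with hv
  have hvK : v ∈ fix π K := w.mem K hK hK'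
  have hφ : IsS (fun x => f x * l (π x v)) := by
    constructor
    · refine hS.1.mul ?_
      rw [IsLocallyConstant.iff_eventually_eq]
      intro x
      have h1 : (fun y => x⁻¹ * y) ⁻¹' {g : G | π g v = v} ∈ 𝓝 x := by
        refine ((hπ v).preimage (by fun_prop)).mem_nhds ?_
        simp
      filter_upwards [h1] with y hy
      have h2 : π (x⁻¹ * y) v = v := hy
      have h3 : π y v = π x v := by
        calc π y v = π x (π (x⁻¹ * y) v) := by
              rw [← Module.End.mul_apply, ← map_mul, mul_inv_cancel_left]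
          _ = π x v := by rw [h2]
      rw [h3]
    · refine HasCompactSupport.intro hXc fun x hx => ?_
      change f x * l (π x v) = 0
      rw [f0 x hx, zero_mul]
  have hfin := Avg_orb_finite π hπ K hK' (π g v)
  obtain ⟨U, hU, hUf⟩ := exists_open_fix π hπ hfin.toFinset
  obtain ⟨s, hne, hsK, -, hs⟩ := avg_sum K hK' U hU
  have hc : (s.card : ℂ) ≠ 0 := Nat.cast_ne_zero.2 (Finset.card_ne_zero.2 hne)
  have hpt : ((s.card : ℂ))⁻¹ • ∑ k ∈ s, (fun x => f (k * x) * l (π (k * x) v)) =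
      l (avg π K (π g v)) • f := by
    funext x
    rw [Pi.smul_apply, Pi.smul_apply, Finset.sum_apply, smul_eq_mul, smul_eq_mul]
    by_cases hx : x ∈ X
    · obtain ⟨a, ha, b, hb, rfl⟩ := (memX x).1 hx
      have h1 : ∀ k ∈ s, f (k * (a * g * b)) * l (π (k * (a * g * b)) v) =
          l (π k (π a (π g v))) := by
        intro k hk
        rw [f1 _ ((hl' _ k (hsK k hk)).2 hx), one_mul]
        simp only [map_mul, Module.End.mul_apply]
        rw [hvK b hb]
      rw [Finset.sum_congr rfl h1, f1 _ hx, mul_one, ← map_sum, ← smul_eq_mul, ← map_smul]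
      have h2 : π a (π g v) ∈ fix π U := by
        apply hUf
        rw [Set.Finite.mem_toFinset]
        exact ⟨a, ha, rfl⟩
      rw [← hs V π _ h2, avg_apply_of_mem π K a ha]
    · have h1 : ∀ k ∈ s, f (k * x) * l (π (k * x) v) = 0 := by
        intro k hk
        rw [f0 _ (fun h => hx ((hl' _ k (hsK k hk)).1 h)), zero_mul]
      rw [Finset.sum_congr rfl h1, Finset.sum_const_zero, mul_zero, f0 x hx, mul_zero]
  have h3 := congrArg I hpt
  rw [map_smul, map_smul, map_sum] at h3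
  have h4 : ∀ k ∈ s, I (fun x => f (k * x) * l (π (k * x) v)) =
      I (fun x => f x * l (π x v)) := fun k _ => hI' _ hφ k
  rw [Finset.sum_congr rfl h4, Finset.sum_const, ← Nat.cast_smul_eq_nsmul ℂ, smul_smul,
    inv_mul_cancel₀ hc, one_smul, smul_eq_mul] at h3
  rw [h3, mul_comm]

theorem wh_sym {F : Type} [Field F] [TopologicalSpace F] [IsTopologicalRing F] [T2Space F]
    (d : LFData F) {n : ℕ} (ψ : AddChar F ℂ) (h1 : ∃ x, ψ x ≠ 1)
    (h2 : ∃ U ∈ 𝓝 (0 : F), ∀ x ∈ U, ψ x = 1) {V : Type} [AddCommGroup V] [Module ℂ V]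
    (π : Representation ℂ (GL (Fin n) F) V) (hπ : IsSm π) (l : V →ₗ[ℂ] ℂ)
    (hl : Wh π (NN F n) (psi ψ) l) (w : Fam π (NN F n) (psi ψ))
    (K : Subgroup (GL (Fin n) F)) (hK : IsOpen (K : Set (GL (Fin n) F)))
    (hK' : IsCompact (K : Set (GL (Fin n) F))) (hs : ∀ k ∈ K, sg k ∈ K) (g : GL (Fin n) F) :
    l (avg π K (π (sg g) (w.w K))) = l (avg π K (π g (w.w K))) := by
  haveI := PC.GK.gl_t2 (F := F) n
  haveI := PC.GK.gl_lc d n
  haveI := PC.GK.gl_na d n
  obtain ⟨I, hIl, hIr, hIs, hIn⟩ := haarI d n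
  have hB := hasCO d n
  obtain ⟨D, hD⟩ := dist_exists hB I hIr π hπ (NN F n) (psi ψ) l w
  obtain ⟨p1, p2⟩ := psi_facts (n := n) ψ
  have hgk := PC.GK.gk_GL d n ψ h1 h2 D (fun f hf a ha =>
    dist_equi hB I hIr hIl π hπ (NN F n) (psi ψ) p1 p2 l hl w D hD f hf a ha)
  obtain ⟨a1, a2, a3, a4⟩ := dist_double I hIl π hπ (NN F n) (psi ψ) l w D hD K hK hK' g _ rfl
  obtain ⟨-, -, -, b4⟩ := dist_double I hIl π hπ (NN F n) (psi ψ) l w D hD K hK hK' (sg g) _ rfl
  set X : Set (GL (Fin n) F) := {x | ∃ a ∈ K, ∃ b ∈ K, x = a * g * b} with hX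
  set Y : Set (GL (Fin n) F) := {x | ∃ a ∈ K, ∃ b ∈ K, x = a * sg g * b} with hY
  have hXY : (fun x => X.indicator (fun _ => (1 : ℂ)) (sg x)) = Y.indicator fun _ => (1 : ℂ) := by
    funext x
    have hiff : sg x ∈ X ↔ x ∈ Y := by
      constructor
      · rintro ⟨a, ha, b, hb, h⟩
        refine ⟨sg b, hs b hb, sg a, hs a ha, ?_⟩
        rw [← PC.GK.sg_sg x, h, PC.GK.sg_mul, PC.GK.sg_mul, mul_assoc]
      · rintro ⟨a, ha, b, hb, h⟩
        refine ⟨sg b, hs b hb, sg a, hs a ha, ?_⟩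
        rw [h, PC.GK.sg_mul, PC.GK.sg_mul, PC.GK.sg_sg, mul_assoc]
    by_cases hx : x ∈ Y
    · rw [Set.indicator_of_mem hx, Set.indicator_of_mem (hiff.2 hx)]
    · rw [Set.indicator_of_notMem hx, Set.indicator_of_notMem (fun h => hx (hiff.1 h))]
  have e1 := hgk _ a3
  have e2 := hIs _ a3
  rw [hXY] at e1 e2
  rw [b4, a4, e2] at e1
  have hne : I (X.indicator fun _ => (1 : ℂ)) ≠ 0 :=
    hIn X a1 a2 ⟨g, 1, K.one_mem, 1, K.one_mem, by simp⟩
  exact mul_left_cancel₀ hne e1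

end PC.D4
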