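import Mathlib
import Pool.Agent.Lib.MP_ca1492_al.D4.GKAlg
import Pool.Agent.Lib.MP_ca1492_al.D4.WhFam
import Pool.Agent.Lib.MP_ca1492_al.D4.WhSym
import Pool.Agent.Lib.MP_ca1492_al.P.Schur

/-!
# MP_ca1492_al, D4, GKL: consequences of the Gelfand-Kazhdan theorem
-/

open Topology Pool.Agent.Lib.MP_ca1492_al.P

namespace PC.D4

open PC.GK (IsS LFData NN sg psi)

variable {F : Type} [Field F] [TopologicalSpace F] [IsTopologicalRing F] [T2Space F] {n : ℕ}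
  {V : Type} [AddCommGroup V] [Module ℂ V]

theorem gk_core (d : LFData F) (ψ : AddChar F ℂ) (h1 : ∃ x, ψ x ≠ 1)
    (h2 : ∃ U ∈ 𝓝 (0 : F), ∀ x ∈ U, ψ x = 1)
    (π : Representation ℂ (GL (Fin n) F) V) (hπ : IsSm π) (ha : Adm π) (l0 l1 : V →ₗ[ℂ] ℂ)
    (hl0 : Wh π (NN F n) (psi ψ) l0) (hl1 : Wh π (NN F n) (psi ψ) l1)
    (w : Fam π (NN F n) (psi ψ))
    (K : Subgroup (GL (Fin n) F)) (hK : IsOpen (K : Set (GL (Fin n) F)))
    (hK' : IsCompact (K : Set (GL (Fin n) F))) (hs : ∀ k ∈ K, sg k ∈ K)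
    (hcyc : ∀ U : Submodule ℂ V, Stab π U → w.w K ∈ U → U = ⊤)
    (hsep : ∀ v, (∀ g, l1 (avg π K (π g v)) = 0) → v = 0) :
    ∃ T : V →ₗ[ℂ] V, Equi π π T ∧
      ∀ g v, l1 (avg π K (π g (T v))) = l0 (avg π K (π g v)) := by
  have hinv : ∀ (l : V →ₗ[ℂ] ℂ), ∀ k ∈ K, ∀ v, (l ∘ₗ avgL π hπ K hK') (π k v) =
      (l ∘ₗ avgL π hπ K hK') v := by
    intro l k hk v
    show l (avg π K (π k v)) = l (avg π K v)
    rw [avg_apply_of_mem π K k hk v]
  exact gk_alg π hπ sg PC.GK.sg_mul PC.GK.sg_sg K hK hK' (ha K hK)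
    (l0 ∘ₗ avgL π hπ K hK') (l1 ∘ₗ avgL π hπ K hK') (hinv l0) (hinv l1) (w.w K)
    (w.mem K hK hK') hcyc hsep
    (fun g => wh_sym d ψ h1 h2 π hπ l0 hl0 w K hK hK' hs g)
    (fun g => wh_sym d ψ h1 h2 π hπ l1 hl1 w K hK hK' hs g)

/-- vectors are fixed by small `sg`-stable compact open subgroups -/
theorem small_sg (d : LFData F) (π : Representation ℂ (GL (Fin n) F) V) (hπ : IsSm π)
    (v : V) (U : Set (GL (Fin n) F)) (hU : U ∈ 𝓝 1) :
    ∃ K : Subgroup (GL (Fin n) F), IsOpen (K : Set (GL (Fin n) F)) ∧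
      IsCompact (K : Set (GL (Fin n) F)) ∧ (∀ k ∈ K, sg k ∈ K) ∧
      (K : Set (GL (Fin n) F)) ⊆ U ∧ v ∈ fix π K := by
  have h : {g : GL (Fin n) F | π g v = v} ∈ 𝓝 (1 : GL (Fin n) F) :=
    (hπ v).mem_nhds (by simp)
  obtain ⟨K, h1, h2, h3, h4⟩ := sg_bas d n (U ∩ {g | π g v = v}) (Filter.inter_mem hU h)
  exact ⟨K, h1, h2, h3, fun x hx => (h4 hx).1, fun k hk => (h4 hk).2⟩

/-- main consequence: `U` is contained in every nonzero stable subspace, every stable subspace not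
contained in `U` is everything, no nonzero endomorphism kills `U` -/
theorem whit_tri (d : LFData F) (ψ : AddChar F ℂ) (h1 : ∃ x, ψ x ≠ 1)
    (h2 : ∃ U ∈ 𝓝 (0 : F), ∀ x ∈ U, ψ x = 1)
    (π : Representation ℂ (GL (Fin n) F) V) (hπ : IsSm π) (ha : Adm π)
    (U : Submodule ℂ V) (hU : Stab π U)
    (hU1 : ∀ W : Submodule ℂ V, Stab π W → W = ⊥ ∨ U ≤ W)
    (hU2 : ∀ W : Submodule ℂ V, Stab π W → W ≤ U ∨ W = ⊤)
    (hT : ∀ T : V →ₗ[ℂ] V, Equi π π T → (∀ u ∈ U, T u = 0) → T = 0)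
    (l0 l1 : V →ₗ[ℂ] ℂ) (hl0 : Wh π (NN F n) (psi ψ) l0) (hl1 : Wh π (NN F n) (psi ψ) l1)
    (hl0U : ∀ u ∈ U, l0 u = 0) (hl1U : ∃ u ∈ U, l1 u ≠ 0)
    (m : dualSp π →ₗ[ℂ] ℂ) (hm : ∀ a ∈ NN F n, ∀ ξ, m (dual π a ξ) = (psi ψ a)⁻¹ * m ξ)
    (hmU : ∃ ξ : dualSp π, (∀ u ∈ U, ξ.1 u = 0) ∧ m ξ ≠ 0) : l0 = 0 := by
  obtain ⟨w, hw⟩ := fam_exists (hasCO d n) π hπ ha (NN F n) (psi ψ) (psi_facts ψ).1
    (psi_facts ψ).2 m hm
  obtain ⟨u1, hu1, hlu1⟩ := hl1U
  obtain ⟨ξ, hξ, hmξ⟩ := hmU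
  apply LinearMap.ext
  intro v
  have hn1 : {g : GL (Fin n) F | π g v = v} ∈ 𝓝 (1 : GL (Fin n) F) :=
    (hπ v).mem_nhds (by simp)
  have hn2 : {g : GL (Fin n) F | dual π g ξ = ξ} ∈ 𝓝 (1 : GL (Fin n) F) :=
    (dual_smooth π ξ).mem_nhds (by simp)
  obtain ⟨K, hK, hK', hKs, hKU, hKu⟩ := small_sg d π hπ u1 _ (Filter.inter_mem hn1 hn2)
  have hv : v ∈ fix π K := fun k hk => (hKU hk).1
  have hξK : ξ ∈ fix (dual π) K := fun k hk => (hKU hk).2
  have hwK : w.w K ∉ U := by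
    intro h
    have h3 := hw K hK hK' ξ
    rw [hξ _ h, avg_of_mem_fix (dual π) K ξ hξK] at h3
    exact hmξ h3.symm
  have havgU : ∀ u ∈ U, avg π K u ∈ U := by
    intro u hu
    obtain ⟨U', hU'o, hU'⟩ := exists_open_fix π hπ {u}
    obtain ⟨s, _, hsK, _, hs⟩ := avg_sum K hK' U' hU'o
    rw [hs V π u (hU' u (Finset.mem_singleton_self u))]
    exact U.smul_mem _ (U.sum_mem fun k _ => hU k u hu)
  let W : Submodule ℂ V :=
    { carrier := {y | ∀ g, l1 (avg π K (π g y)) = 0}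
      add_mem' := by
        intro a b ha' hb g
        rw [map_add, avg_add π hπ K hK', map_add, ha' g, hb g, add_zero]
      zero_mem' := by
        intro g
        rw [map_zero, avg_of_mem_fix π K 0 (fun k _ => map_zero _), map_zero]
      smul_mem' := by
        intro c a ha' g
        rw [map_smul, avg_smul π hπ K hK', map_smul, ha' g, smul_zero] }
  have hWst : Stab π W := by
    intro g y hy g'
    rw [← Module.End.mul_apply, ← map_mul]
    exact hy (g' * g)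
  have hW0 : W = ⊥ := by
    rcases hU1 W hWst with h | h
    · exact h
    · exfalso
      have h3 : l1 (avg π K (π 1 u1)) = 0 := h hu1 1
      rw [map_one, Module.End.one_apply, avg_of_mem_fix π K u1 hKu] at h3
      exact hlu1 h3
  obtain ⟨T, hTe, hTl⟩ := gk_core d ψ h1 h2 π hπ ha l0 l1 hl0 hl1 w K hK hK' hKs
    (fun W hW hwW => by
      rcases hU2 W hW with h | h
      · exact absurd (h hwW) hwK
      · exact h)
    (by
      intro x hx
      have h3 : x ∈ W := hx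
      rw [hW0] at h3
      exact (Submodule.mem_bot ℂ).1 h3)
  have hTU : ∀ u ∈ U, T u = 0 := by
    intro u hu
    have h3 : T u ∈ W := by
      intro g
      rw [hTl g u]
      exact hl0U _ (havgU _ (hU g u hu))
    rw [hW0] at h3
    exact (Submodule.mem_bot ℂ).1 h3
  have hT0 := hT T hTe hTU
  have h4 := hTl 1 v
  rw [map_one, Module.End.one_apply, Module.End.one_apply, avg_of_mem_fix π K v hv, hT0,
    LinearMap.zero_apply, avg_of_mem_fix π K 0 (fun k _ => map_zero _), map_zero] at h4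
  rw [← h4, LinearMap.zero_apply]

/-- uniqueness of Whittaker functionals -/
theorem whit_unique (d : LFData F) (ψ : AddChar F ℂ) (h1 : ∃ x, ψ x ≠ 1)
    (h2 : ∃ U ∈ 𝓝 (0 : F), ∀ x ∈ U, ψ x = 1)
    (π : Representation ℂ (GL (Fin n) F) V) (hπ : IsSm π) (ha : Adm π) (hi : Irr π)
    (l0 l1 : V →ₗ[ℂ] ℂ) (hl0 : Wh π (NN F n) (psi ψ) l0) (hl1 : Wh π (NN F n) (psi ψ) l1)
    (m : dualSp π →ₗ[ℂ] ℂ) (hm : ∀ a ∈ NN F n, ∀ ξ, m (dual π a ξ) = (psi ψ a)⁻¹ * m ξ)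
    (hm0 : m ≠ 0) (hl10 : l1 ≠ 0) : ∃ c : ℂ, l0 = c • l1 := by
  obtain ⟨w, hw⟩ := fam_exists (hasCO d n) π hπ ha (NN F n) (psi ψ) (psi_facts ψ).1
    (psi_facts ψ).2 m hm
  obtain ⟨u1, hlu1⟩ : ∃ u, l1 u ≠ 0 := by
    by_contra h
    push Not at h
    exact hl10 (LinearMap.ext h)
  obtain ⟨ξ, hmξ⟩ : ∃ ξ, m ξ ≠ 0 := by
    by_contra h
    push Not at h
    exact hm0 (LinearMap.ext h)
  -- the scalar for small subgroups
  have key : ∀ v : V, ∃ K : Subgroup (GL (Fin n) F), IsOpen (K : Set (GL (Fin n) F)) ∧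
      IsCompact (K : Set (GL (Fin n) F)) ∧ u1 ∈ fix π K ∧ v ∈ fix π K ∧
      ∃ c : ℂ, ∀ x ∈ fix π K, l0 x = c * l1 x := by
    intro v
    have hn1 : {g : GL (Fin n) F | π g v = v} ∈ 𝓝 (1 : GL (Fin n) F) :=
      (hπ v).mem_nhds (by simp)
    have hn2 : {g : GL (Fin n) F | dual π g ξ = ξ} ∈ 𝓝 (1 : GL (Fin n) F) :=
      (dual_smooth π ξ).mem_nhds (by simp)
    obtain ⟨K, hK, hK', hKs, hKU, hKu⟩ := small_sg d π hπ u1 _ (Filter.inter_mem hn1 hn2)
    have hv : v ∈ fix π K := fun k hk => (hKU hk).1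
    have hξK : ξ ∈ fix (dual π) K := fun k hk => (hKU hk).2
    have hwK : w.w K ≠ 0 := by
      intro h
      have h3 := hw K hK hK' ξ
      rw [h, map_zero, avg_of_mem_fix (dual π) K ξ hξK] at h3
      exact hmξ h3.symm
    let W : Submodule ℂ V :=
      { carrier := {y | ∀ g, l1 (avg π K (π g y)) = 0}
        add_mem' := by
          intro a b ha' hb g
          rw [map_add, avg_add π hπ K hK', map_add, ha' g, hb g, add_zero]
        zero_mem' := by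
          intro g
          rw [map_zero, avg_of_mem_fix π K 0 (fun k _ => map_zero _), map_zero]
        smul_mem' := by
          intro c a ha' g
          rw [map_smul, avg_smul π hπ K hK', map_smul, ha' g, smul_zero] }
    have hWst : Stab π W := by
      intro g y hy g'
      rw [← Module.End.mul_apply, ← map_mul]
      exact hy (g' * g)
    have hW0 : W = ⊥ := by
      rcases hi.2 W hWst with h | h
      · exact h
      · exfalso
        have h3 : l1 (avg π K (π 1 u1)) = 0 := (h ▸ Submodule.mem_top : u1 ∈ W) 1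
        rw [map_one, Module.End.one_apply, avg_of_mem_fix π K u1 hKu] at h3
        exact hlu1 h3
    obtain ⟨T, hTe, hTl⟩ := gk_core d ψ h1 h2 π hπ ha l0 l1 hl0 hl1 w K hK hK' hKs
      (fun W hW hwW => by
        rcases hi.2 W hW with h | h
        · rw [h] at hwW
          exact absurd ((Submodule.mem_bot ℂ).1 hwW) hwK
        · exact h)
      (by
        intro x hx
        have h3 : x ∈ W := hx
        rw [hW0] at h3
        exact (Submodule.mem_bot ℂ).1 h3)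
    obtain ⟨c, hc⟩ := schur π hπ hi ha T hTe
    refine ⟨K, hK, hK', hKu, hv, c, fun x hx => ?_⟩
    have h4 := hTl 1 x
    rw [map_one, Module.End.one_apply, Module.End.one_apply, avg_of_mem_fix π K x hx, hc x,
      avg_of_mem_fix π K (c • x) ((fix π K).smul_mem c hx), map_smul, smul_eq_mul] at h4
    exact h4.symm
  obtain ⟨c₁, hc₁⟩ : ∃ c₁, c₁ = l0 u1 / l1 u1 := ⟨_, rfl⟩
  refine ⟨c₁, LinearMap.ext fun v => ?_⟩
  obtain ⟨K, _, _, hu, hv, c, hc⟩ := key v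
  have h5 : c = c₁ := by
    rw [hc₁, hc u1 hu]
    field_simp
  rw [hc v hv, h5, LinearMap.smul_apply, smul_eq_mul]

end PC.D4
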