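import Mathlib
import Pool.Agent.Lib.MP_ca1492_al.D4.Conv
import Pool.Agent.Lib.MP_ca1492_al.D4.GKL

/-!
# MP_ca1492_al, D4, Tri: the trichotomy
-/

open Topology Pool.Agent.Lib.MP_ca1492_al.P

namespace PC.D4

noncomputable section

variable {F : Type} [Field F] [ValuativeRel F] [TopologicalSpace F]
  [IsNonarchimedeanLocalField F]
variable {n : ℕ} {V V' : Type} [AddCommGroup V] [Module ℂ V] [AddCommGroup V'] [Module ℂ V']

theorem tri {ψ : AddChar F ℂ} (hψ : PC.DP.Std ψ) (π : Representation ℂ (GL (Fin n) F) V)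
    (π' : Representation ℂ (GL (Fin n) F) V') (hπ : IsSm π) (hπ' : IsSm π') (ha : Adm π)
    (b : V →ₗ[ℂ] V' →ₗ[ℂ] ℂ) (hb : Pai π π' b) (U : Submodule ℂ V) (hU : Stab π U)
    (hU1 : ∀ W : Submodule ℂ V, Stab π W → W = ⊥ ∨ U ≤ W)
    (hU2 : ∀ W : Submodule ℂ V, Stab π W → W ≤ U ∨ W = ⊤)
    (hT : ∀ T : V →ₗ[ℂ] V, Equi π π T → (∀ u ∈ U, T u = 0) → T = 0)
    (E' : Submodule ℂ V') (hE' : Stab π' E') (hUE : ∀ u ∈ U, ∀ x ∈ E', b u x = 0) :
    U ⊔ PC.DP.KK ψ 1 π = ⊤ ∨ U ≤ PC.DP.KK ψ 1 π ∨ E' ≤ PC.DP.KK ψ⁻¹ 1 π' := by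
  by_contra hcon
  push Not at hcon
  obtain ⟨h1, h2, h3⟩ := hcon
  -- the functional `l0` on `V / U`
  obtain ⟨x0, hx0⟩ : ∃ x, x ∉ U ⊔ PC.DP.KK ψ 1 π := by
    by_contra h
    push Not at h
    exact h1 (eq_top_iff.2 fun x _ => h x)
  obtain ⟨l0, hl0, hl0x⟩ := sep_fun _ x0 hx0
  obtain ⟨x1, hx1U, hx1⟩ := Set.not_subset.1 h2
  obtain ⟨l1, hl1, hl1x⟩ := sep_fun _ x1 hx1
  obtain ⟨x2, hx2E, hx2⟩ := Set.not_subset.1 h3
  obtain ⟨m', hm', hm'x⟩ := sep_fun _ x2 hx2
  have hT2 : T2Space F := PC.GK.t2_of_local F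
  obtain ⟨dF⟩ := PC.GK.exists_LFData F
  have hB := hasCO dF n
  -- transport of `m'` to the dual
  have hsurj := fun l => pai_surj hB π π' hπ hπ' ha b hb l
  choose r hr using hsurj
  have huniq : ∀ (v' v'' : V'), (∀ v, b v v' = b v v'') → v' = v'' := by
    intro v' v'' h
    rw [← sub_eq_zero]
    refine hb.right _ fun v => ?_
    rw [map_sub, h, sub_self]
  let m : dualSp π →ₗ[ℂ] ℂ :=
    { toFun := fun l => m' (r l)
      map_add' := by
        intro l l'
        have : r (l + l') = r l + r l' := by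
          refine huniq _ _ fun v => ?_
          rw [map_add, ← hr, ← hr, ← hr]
          rfl
        rw [this, map_add]
      map_smul' := by
        intro c l
        have : r (c • l) = c • r l := by
          refine huniq _ _ fun v => ?_
          rw [map_smul, ← hr, ← hr]
          rfl
        rw [this, map_smul, RingHom.id_apply] }
  have hrd : ∀ g l, r (dual π g l) = π' g (r l) := by
    intro g l
    refine huniq _ _ fun v => ?_
    rw [← hr]
    have e : b v (π' g (r l)) = b (π g⁻¹ v) (r l) := by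
      rw [← hb.inv g (π g⁻¹ v) (r l), ← Module.End.mul_apply, ← map_mul, mul_inv_cancel, map_one,
        Module.End.one_apply]
    rw [e, ← hr]
    rfl
  have hmW : Wh π' (PC.GK.NN F n) (PC.GK.psi ψ⁻¹) m' := (wh_iff ψ⁻¹ π' m').2 hm'
  have hm : ∀ a ∈ PC.GK.NN F n, ∀ ξ, m (dual π a ξ) = (PC.GK.psi ψ a)⁻¹ * m ξ := by
    intro a ha' ξ
    show m' (r (dual π a ξ)) = _
    rw [hrd, hmW a ha']
    congr 1
    unfold PC.GK.psi
    exact AddChar.inv_apply' ψ _
  -- the vector of the dual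
  have hξm : (b.flip x2 : Module.Dual ℂ V) ∈ dualSp π := by
    have hsm : IsOpen {g : GL (Fin n) F | π' g x2 = x2} := hπ' x2
    let K : Subgroup (GL (Fin n) F) :=
      { carrier := {g | π' g x2 = x2}
        mul_mem' := by
          intro a c ha' hc'
          simp only [Set.mem_ofPred_eq] at *
          rw [map_mul, Module.End.mul_apply, hc', ha']
        one_mem' := by simp
        inv_mem' := by
          intro a ha'
          simp only [Set.mem_ofPred_eq] at *
          have h1 : π' a⁻¹ (π' a x2) = x2 := by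
            rw [← Module.End.mul_apply, ← map_mul]
            simp
          rwa [ha'] at h1 }
    refine ⟨K, hsm, fun k hk v => ?_⟩
    show b (π k v) x2 = b v x2
    have hk' : π' k x2 = x2 := hk
    conv_lhs => rw [← hk']
    exact hb.inv k v x2
  have hr2 : r ⟨b.flip x2, hξm⟩ = x2 := by
    refine huniq _ _ fun v => ?_
    rw [← hr]
    rfl
  have := whit_tri dF ψ (std_h1 hψ) (std_h2 hψ) π hπ ha U hU hU1 hU2 hT l0 l1
    ((wh_iff ψ π l0).2 fun x hx => hl0 x (Submodule.mem_sup_right hx))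
    ((wh_iff ψ π l1).2 hl1) (fun u hu => hl0 u (Submodule.mem_sup_left hu))
    ⟨x1, hx1U, hl1x⟩ m hm
    ⟨⟨b.flip x2, hξm⟩, fun u hu => hUE u hu x2 hx2E, by
      show m' (r _) ≠ 0
      rw [hr2]
      exact hm'x⟩
  apply hl0x
  rw [this, LinearMap.zero_apply]

end

end PC.D4
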