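import Mathlib
import Pool.Agent.Lib.MP_ca1492_al.D4.AlphaF
import Pool.Agent.Lib.MP_ca1492_al.D4.DPPsi
import Pool.Agent.Lib.MP_ca1492_al.D4.Tri

/-!
# MP_ca1492_al, D4, Rone: uniqueness of the proper stable subspace, the trichotomy, conclusions
-/

open Topology Pool.Agent.Lib.MP_ca1492_al.P

namespace PC.D4

noncomputable section

section Abs

variable {G : Type} [Group G] {V V' : Type} [AddCommGroup V] [Module ℂ V]
  [AddCommGroup V'] [Module ℂ V']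

theorem range_top_abs (π : Representation ℂ G V) (π' : Representation ℂ G V')
    (S : Set G) (χ : G → ℂ) (A : V →ₗ[ℂ] V') (hA : Equi π π' A)
    (hR : Stab π' (LinearMap.range A)) (h : LinearMap.ker A ⊔ PC.DP.Ksp π S χ = ⊤) :
    PC.DP.Ksp (V := LinearMap.range A) (subRep π' _ hR) S χ = ⊤ := by
  rw [eq_top_iff]
  rintro ⟨_, ⟨f, rfl⟩⟩ _
  have hf : f ∈ LinearMap.ker A ⊔ PC.DP.Ksp π S χ := by
    rw [h]
    exact Submodule.mem_top
  obtain ⟨u, hu, k, hk', rfl⟩ := Submodule.mem_sup.1 hf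
  have e : (⟨A (u + k), _, rfl⟩ : LinearMap.range A) = A.rangeRestrict k := by
    apply Subtype.ext
    show A (u + k) = A k
    rw [map_add, LinearMap.mem_ker.1 hu, zero_add]
  rw [e]
  exact Ksp_map (V' := LinearMap.range A) π (subRep π' _ hR) _ _ A.rangeRestrict
    (fun g v => Subtype.ext (hA g v)) k hk'

end Abs

variable {F : Type} [Field F] [ValuativeRel F] [TopologicalSpace F]
  [IsNonarchimedeanLocalField F]
variable {n d : ℕ} {W W' : Type} [AddCommGroup W] [Module ℂ W] [AddCommGroup W'] [Module ℂ W']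

/-- two proper nonzero stable subspaces are equal; an endomorphism which kills a nonzero stable
subspace is zero -/
theorem uniq_X (hd1 : 1 ≤ d) (hd : d < n) (s : Bool) (ρ : Representation ℂ (lev F (blk n d)) W)
    (hρ : IsSm ρ) (hi : Irr ρ) (hc : Cusp (blk n d) ρ) (hni : n = d + d → NIso hd.le ρ) :
    (∀ W₁ W₂ : Submodule ℂ (XnS s ρ), Stab (InS s ρ) W₁ → Stab (InS s ρ) W₂ → W₁ ≠ ⊥ → W₁ ≠ ⊤ →
      W₂ ≠ ⊥ → W₂ ≠ ⊤ → W₁ ≤ W₂) ∧
    (∀ U : Submodule ℂ (XnS s ρ), Stab (InS s ρ) U → U ≠ ⊥ → ∀ T : XnS s ρ →ₗ[ℂ] XnS s ρ,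
      Equi (InS s ρ) (InS s ρ) T → (∀ u ∈ U, T u = 0) → T = 0) := by
  by_cases hn : n = d + d
  · have L := latB_X hd1 hd.le hn s ρ hρ hi hc (hni hn)
    exact ⟨fun W₁ W₂ h₁ h₂ a b c e => latB_uniq' (InS s ρ) L W₁ W₂ h₁ h₂ a b c e,
      fun U hU h0 T hT hTU => latB_T (InS s ρ) L U hU h0 T hT hTU⟩
  · have L := latA_X hd1 hd hn s ρ hρ hi hc
    exact ⟨fun W₁ W₂ h₁ h₂ a b c _ => latA_uniq' (InS s ρ) L W₁ W₂ h₁ h₂ a b c,
      fun U hU h0 T hT hTU => latA_T (InS s ρ) L U hU h0 T hT hTU⟩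

namespace Sys0

variable {s s' : Bool} {ρ : Representation ℂ (lev F (blk n d)) W}
  {ρ' : Representation ℂ (lev F (blk n d)) W'} {β : W →ₗ[ℂ] W' →ₗ[ℂ] ℂ}

theorem ker_ne (S : Sys0 s s' ρ ρ' β) : LinearMap.ker S.A ≠ ⊥ ∧ LinearMap.ker S.A ≠ ⊤ := by
  refine ⟨fun h => S.B0 ?_, fun h => S.A0 (LinearMap.ker_eq_top.1 h)⟩
  apply LinearMap.ext
  intro f
  have h1 : S.B f ∈ LinearMap.ker S.A := LinearMap.mem_ker.2 (S.AB f)
  rw [h] at h1
  exact (Submodule.mem_bot ℂ).1 h1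

/-- `ker A = range B` -/
theorem exact (S : Sys0 s s' ρ ρ' β) (hd1 : 1 ≤ d) (hd : d < n) (H : Dual2 hd.le ρ ρ' β)
    (x : XnS s ρ) (hx : S.A x = 0) : ∃ f, S.B f = x := by
  have h1 := (uniq_X hd1 hd s ρ H.sm H.irr H.cusp H.ni).1 (LinearMap.ker S.A)
    (LinearMap.range S.B) (stab_ker S.eA) (stab_range S.eB) S.ker_ne.1 S.ker_ne.2
    (fun h => S.B0 (LinearMap.range_eq_bot.1 h)) (fun h => S.ker_ne.2 (by
      rw [eq_top_iff, ← h]
      rintro _ ⟨f, rfl⟩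
      exact LinearMap.mem_ker.2 (S.AB f)))
  exact h1 (LinearMap.mem_ker.2 hx)

/-- the trichotomy -/
theorem tri3 (S : Sys0 s s' ρ ρ' β) (hd1 : 1 ≤ d) (hd : d < n) (H : Dual2 hd.le ρ ρ' β)
    (ha : Adm ρ) {ψ : AddChar F ℂ} (hψ : PC.DP.Std ψ) :
    S.Dg ψ ∨ S.swap.Dg ψ ∨ S.dual.Dg ψ⁻¹ := by
  obtain ⟨u1, u2⟩ := uniq_X hd1 hd s ρ H.sm H.irr H.cusp H.ni
  have hk := stab_ker S.eA
  have hkGL : Stab (toGL (InS s ρ)) (LinearMap.ker S.A) := (toGL_stab _ _).2 hk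
  rcases tri hψ (toGL (InS s ρ)) (toGL (InS s ρ')) (toGL_smooth _ (InS_smooth s ρ))
    (toGL_smooth _ (InS_smooth s ρ')) (toGL_adm _ (InS_adm s ρ H.sm ha)) (bS s ρ ρ' β)
    (toGL_pai _ _ _ (pai_ind s ρ ρ' H.sm H.sm' β H.pai)) (LinearMap.ker S.A) hkGL
    (fun W hW => by
      by_cases h0 : W = ⊥
      · exact Or.inl h0
      · right
        by_cases h1 : W = ⊤
        · rw [h1]
          exact le_top
        · exact u1 _ _ hk ((toGL_stab _ _).1 hW) S.ker_ne.1 S.ker_ne.2 h0 h1)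
    (fun W hW => by
      by_cases h0 : W = ⊤
      · exact Or.inr h0
      · left
        by_cases h1 : W = ⊥
        · rw [h1]
          exact bot_le
        · exact u1 _ _ ((toGL_stab _ _).1 hW) hk h1 h0 S.ker_ne.1 S.ker_ne.2)
    (fun T hT hTU => u2 _ hk S.ker_ne.1 T ((toGL_equi _ _ T).1 hT) hTU)
    (LinearMap.range S.A') ((toGL_stab _ _).2 (stab_range S.eA'))
    (by
      rintro u hu _ ⟨f', rfl⟩
      rw [← S.adA, LinearMap.mem_ker.1 hu, map_zero, LinearMap.zero_apply]) with h | h | h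
  · left
    exact range_top_abs (toGL (InS s ρ)) (toGL (InS s' ρ)) (PC.DP.UU F n 1) (PC.DP.psi ψ n 1)
      S.A ((toGL_equi _ _ _).2 S.eA) ((toGL_stab _ _).2 (stab_range S.eA)) h
  · right; left
    show PC.DP.KK (V := LinearMap.range S.B) ψ 1 (subG (InS s ρ) _ (stab_range S.eB)) = ⊤
    rw [eq_top_iff]
    intro x _
    refine PC.DP.ex_KK hψ (toGL (InS s ρ)) (toGL_smooth _ (InS_smooth s ρ))
      (LinearMap.range S.B) _ x (h ?_)
    obtain ⟨_, ⟨f, rfl⟩⟩ := x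
    exact LinearMap.mem_ker.2 (S.AB f)
  · right; right
    show PC.DP.KK (V := LinearMap.range S.A') ψ⁻¹ 1 (subG (InS s ρ') _ (stab_range S.eA')) = ⊤
    rw [eq_top_iff]
    intro x _
    exact PC.DP.ex_KK (std_symm hψ) (toGL (InS s ρ')) (toGL_smooth _ (InS_smooth s ρ'))
      (LinearMap.range S.A') _ x (h x.2)

end Sys0

/-- (i-a) -/
theorem rank_one_a (hd1 : 1 ≤ d) (hd : d < n) {s s' : Bool}
    (hs : s' = !s) {ρ : Representation ℂ (lev F (blk n d)) W}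
    {ρ' : Representation ℂ (lev F (blk n d)) W'} {β : W →ₗ[ℂ] W' →ₗ[ℂ] ℂ}
    (H : Dual2 hd.le ρ ρ' β) (ha : Adm ρ) (S : Sys0 s s' ρ ρ' β) :
    n = d + d ∧ ∃ (t : Bool) (β₀ : W →ₗ[ℂ] W' →ₗ[ℂ] ℂ), β₀ ≠ 0 ∧
      ∀ p ∈ PC.DP.GG F n d, ∀ m₁ m₂ : lev F (blk n d),
        m₁.1 = (gS F n d hd.le t)⁻¹ * p * gS F n d hd.le t →
        m₂.1 = (gS F n d hd.le (!t))⁻¹ * p * gS F n d hd.le (!t) →
        ∀ e e', ((PC.DP.nrm F p.val.det : ℝ) : ℂ) * β₀ (ρ m₁ e) (ρ' m₂ e') = β₀ e e' := by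
  obtain ⟨ψ, hψ⟩ := PC.DP.exists_std F
  have hs' : s = !s' := by
    rw [hs, Bool.not_not]
  rcases S.tri3 hd1 hd H ha hψ with h | h | h
  · obtain ⟨hn, β₀, h0, h1⟩ := alpha0 hψ hd1 hd hs H S h
    refine ⟨hn, s', β₀, h0, fun p hp m₁ m₂ e₁ e₂ => h1 p hp m₁ m₂ e₁ ?_⟩
    rw [← hs'] at e₂
    exact e₂
  · obtain ⟨hn, β₀, h0, h1⟩ := alpha0 hψ hd1 hd hs' H S.swap h
    refine ⟨hn, s, β₀, h0, fun p hp m₁ m₂ e₁ e₂ => h1 p hp m₁ m₂ e₁ ?_⟩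
    rw [← hs] at e₂
    exact e₂
  · obtain ⟨hn, β₀, h0, h1⟩ := alpha0 (std_symm hψ) hd1 hd hs' H.flip S.dual h
    refine ⟨hn, s', β₀.flip, fun h => h0 ?_, fun p hp m₁ m₂ e₁ e₂ e e' => ?_⟩
    · ext x y
      exact LinearMap.congr_fun (LinearMap.congr_fun h y) x
    · rw [← hs'] at e₂
      exact h1 p hp m₂ m₁ e₂ e₁ e' e

/-- (i-b) -/
theorem rank_one_b (hd1 : 1 ≤ d) (hd : d < n) {s s' : Bool}
    (hs : s' = !s) {ρ : Representation ℂ (lev F (blk n d)) W}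
    {ρ' : Representation ℂ (lev F (blk n d)) W'} {β : W →ₗ[ℂ] W' →ₗ[ℂ] ℂ}
    (H : Dual2 hd.le ρ ρ' β) (ha : Adm ρ) {z z' : ℂ} (hz : z + z' = 0) (hz0 : z ≠ 0)
    {S : Sys0 s s' ρ ρ' β} (T : Sys2 z z' S) : False := by
  obtain ⟨ψ, hψ⟩ := PC.DP.exists_std F
  have hs' : s = !s' := by
    rw [hs, Bool.not_not]
  have hz' : z' ≠ 0 := by
    intro h
    rw [h, add_zero] at hz
    exact hz0 hz
  rcases S.tri3 hd1 hd H ha hψ with h | h | h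
  · exact alpha2 hψ hd1 hd hs H T hz hz0 (fun x hx => S.swap.exact hd1 hd H x hx) h
  · exact alpha2 hψ hd1 hd hs' H T.swap hz hz0 (fun x hx => S.exact hd1 hd H x hx) h
  · exact alpha2 (std_symm hψ) hd1 hd hs' H.flip T.dual (by rw [add_comm]; exact hz) hz'
      (fun x hx => S.dual.swap.exact hd1 hd H.flip x hx) h

end

end PC.D4
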