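import Mathlib
import Pool.Agent.Lib.MP_ca1492_al.D4.Rone

/-!
# MP_ca1492_al, D4, Mk: construction of the systems `Sys0`, `Sys2` from intertwining maps
-/

open Topology Pool.Agent.Lib.MP_ca1492_al.P

namespace PC.D4

noncomputable section

section Abs

variable {V₁ V₁' V₂ V₂' : Type} [AddCommGroup V₁] [Module ℂ V₁]
  [AddCommGroup V₁'] [Module ℂ V₁'] [AddCommGroup V₂] [Module ℂ V₂] [AddCommGroup V₂']
  [Module ℂ V₂']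

/-- the transposed map is not zero -/
theorem adj_ne (b₁ : V₁ →ₗ[ℂ] V₁' →ₗ[ℂ] ℂ) (b₂ : V₂ →ₗ[ℂ] V₂' →ₗ[ℂ] ℂ)
    (hl : ∀ v, (∀ v', b₂ v v' = 0) → v = 0) (A : V₁ →ₗ[ℂ] V₂) (A' : V₂' →ₗ[ℂ] V₁')
    (had : ∀ v v', b₂ (A v) v' = b₁ v (A' v')) (h : A ≠ 0) : A' ≠ 0 := by
  intro h0
  apply h
  apply LinearMap.ext
  intro v
  refine hl _ fun v' => ?_
  rw [had, h0, LinearMap.zero_apply, map_zero]

/-- compositions of the transposed maps -/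
theorem adj_comp (b₁ : V₁ →ₗ[ℂ] V₁' →ₗ[ℂ] ℂ) (b₂ : V₂ →ₗ[ℂ] V₂' →ₗ[ℂ] ℂ)
    (hr : ∀ v', (∀ v, b₁ v v' = 0) → v' = 0) (A : V₁ →ₗ[ℂ] V₂) (A' : V₂' →ₗ[ℂ] V₁')
    (B : V₂ →ₗ[ℂ] V₁) (B' : V₁' →ₗ[ℂ] V₂')
    (hA : ∀ v v', b₂ (A v) v' = b₁ v (A' v')) (hB : ∀ v v', b₁ (B v) v' = b₂ v (B' v'))
    (h : ∀ v, B (A v) = 0) (v' : V₁') : A' (B' v') = 0 := by
  refine hr _ fun v => ?_
  rw [← hA, ← hB, h, map_zero, LinearMap.zero_apply]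

end Abs

variable {F : Type} [Field F] [ValuativeRel F] [TopologicalSpace F]
  [IsNonarchimedeanLocalField F]
variable {n d : ℕ} {W W' : Type} [AddCommGroup W] [Module ℂ W] [AddCommGroup W'] [Module ℂ W']

theorem lev_hasCO : HasCO (lev F (one n)) := CGLa_lev_hasCO (one n)

/-- construction of the system -/
theorem mkSys0 (s s' : Bool) (ρ : Representation ℂ (lev F (blk n d)) W)
    (ρ' : Representation ℂ (lev F (blk n d)) W') (β : W →ₗ[ℂ] W' →ₗ[ℂ] ℂ) (hβ : Pai ρ ρ' β)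
    (hρ : IsSm ρ) (hρ' : IsSm ρ') (ha : Adm ρ) (A : XnS s ρ →ₗ[ℂ] XnS s' ρ)
    (B : XnS s' ρ →ₗ[ℂ] XnS s ρ) (eA : Equi (InS s ρ) (InS s' ρ) A)
    (eB : Equi (InS s' ρ) (InS s ρ) B) (A0 : A ≠ 0) (B0 : B ≠ 0) (AB : ∀ x, A (B x) = 0)
    (BA : ∀ x, B (A x) = 0) : ∃ S : Sys0 s s' ρ ρ' β, S.A = A ∧ S.B = B := by
  have p₁ := pai_ind s ρ ρ' hρ hρ' β hβ
  have p₂ := pai_ind s' ρ ρ' hρ hρ' β hβ
  obtain ⟨A', eA', hA'⟩ := pai_transp lev_hasCO (InS s ρ) (InS s ρ') (InS_smooth s ρ)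
    (InS_smooth s ρ') (InS_adm s ρ hρ ha) (bS s ρ ρ' β) p₁ (InS s' ρ) (InS s' ρ')
    (InS_smooth s' ρ') (bS s' ρ ρ' β) p₂ A eA
  obtain ⟨B', eB', hB'⟩ := pai_transp lev_hasCO (InS s' ρ) (InS s' ρ') (InS_smooth s' ρ)
    (InS_smooth s' ρ') (InS_adm s' ρ hρ ha) (bS s' ρ ρ' β) p₂ (InS s ρ) (InS s ρ')
    (InS_smooth s ρ') (bS s ρ ρ' β) p₁ B eB
  exact ⟨⟨A, B, A', B', eA, eB, eA', eB', hA', hB', A0, B0,
    adj_ne _ _ p₂.left A A' hA' A0, adj_ne _ _ p₁.left B B' hB' B0, AB, BA,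
    adj_comp _ _ p₁.right A A' B B' hA' hB' BA, adj_comp _ _ p₂.right B B' A A' hB' hA' AB⟩,
    rfl, rfl⟩

/-- restriction of a map commuting with `t` to the `t`-torsion -/
theorem mk_res (s s' : Bool) (z : ℂ) (ρ : Representation ℂ (lev F (blk n d)) W) (hρ : IsSm ρ)
    (A₂ : XnS s (dbl z ρ) →ₗ[ℂ] XnS s' (dbl z ρ))
    (eA : Equi (InS s (dbl z ρ)) (InS s' (dbl z ρ)) A₂)
    (ht : ∀ f, A₂ (tS s z ρ f) = tS s' z ρ (A₂ f)) :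
    ∃ A : XnS s ρ →ₗ[ℂ] XnS s' ρ, Equi (InS s ρ) (InS s' ρ) A ∧
      (∀ f, A₂ (inlS s z ρ f) = inlS s' z ρ (A f)) ∧
      (∀ f, qS s' z ρ (A₂ f) = A (qS s z ρ f)) := by
  have h1 : ∀ f, qS s' z ρ (A₂ (inlS s z ρ f)) = 0 := by
    intro f
    apply inlS_inj s' z ρ
    rw [map_zero]
    have h := ht (inlS s z ρ f)
    have h2 : tS s z ρ (inlS s z ρ f) = 0 := by
      show inlS s z ρ (qS s z ρ (inlS s z ρ f)) = 0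
      rw [qS_inlS, map_zero]
    rw [h2, map_zero] at h
    exact h.symm
  have h2 : ∀ f, ∃ g, inlS s' z ρ g = A₂ (inlS s z ρ f) := fun f => qS_ker s' z ρ _ (h1 f)
  choose r hr using h2
  have hi := inlS_inj s' z ρ
  refine ⟨{ toFun := r
            map_add' := fun a b => hi (by rw [hr, map_add, map_add, map_add, hr, hr])
            map_smul' := fun c a => hi (by
              rw [hr, map_smul, map_smul, map_smul, hr, RingHom.id_apply]) }, ?_, ?_, ?_⟩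
  · intro g f
    apply hi
    show inlS s' z ρ (r (InS s ρ g f)) = inlS s' z ρ (InS s' ρ g (r f))
    rw [hr, inlS_equi, inlS_equi, eA, hr]
  · intro f
    exact (hr f).symm
  · intro f
    apply hi
    show inlS s' z ρ (qS s' z ρ (A₂ f)) = inlS s' z ρ (r (qS s z ρ f))
    rw [hr]
    exact (ht f).symm

/-- construction of the lifted system -/
theorem mkSys2 (s s' : Bool) (z z' : ℂ) (hz : z + z' = 0)
    (ρ : Representation ℂ (lev F (blk n d)) W)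
    (ρ' : Representation ℂ (lev F (blk n d)) W') (β : W →ₗ[ℂ] W' →ₗ[ℂ] ℂ) (hβ : Pai ρ ρ' β)
    (hρ : IsSm ρ) (hρ' : IsSm ρ') (ha : Adm ρ)
    (A₂ : XnS s (dbl z ρ) →ₗ[ℂ] XnS s' (dbl z ρ)) (B₂ : XnS s' (dbl z ρ) →ₗ[ℂ] XnS s (dbl z ρ))
    (eA₂ : Equi (InS s (dbl z ρ)) (InS s' (dbl z ρ)) A₂)
    (eB₂ : Equi (InS s' (dbl z ρ)) (InS s (dbl z ρ)) B₂)
    (tA₂ : ∀ f, A₂ (tS s z ρ f) = tS s' z ρ (A₂ f))
    (tB₂ : ∀ f, B₂ (tS s' z ρ f) = tS s z ρ (B₂ f))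
    (A0 : ∃ f, A₂ (tS s z ρ f) ≠ 0) (B0 : ∃ f, B₂ (tS s' z ρ f) ≠ 0)
    (AB : ∀ x, A₂ (B₂ x) = 0) (BA : ∀ x, B₂ (A₂ x) = 0) :
    ∃ S : Sys0 s s' ρ ρ' β, Nonempty (Sys2 z z' S) := by
  have hd := dbl_pai z z' hz ρ ρ' β hβ
  have p₁ := pai_ind s ρ ρ' hρ hρ' β hβ
  have p₂ := pai_ind s' ρ ρ' hρ hρ' β hβ
  have q₁ := pai_ind s (dbl z ρ) (dbl z' ρ') (dbl_smooth z ρ hρ) (dbl_smooth z' ρ' hρ') _ hd
  have q₂ := pai_ind s' (dbl z ρ) (dbl z' ρ') (dbl_smooth z ρ hρ) (dbl_smooth z' ρ' hρ') _ hd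
  obtain ⟨A₂', eA₂', hA₂'⟩ := pai_transp lev_hasCO (InS s (dbl z ρ)) (InS s (dbl z' ρ'))
    (InS_smooth s _) (InS_smooth s _) (InS_adm s _ (dbl_smooth z ρ hρ) (dbl_adm z ρ ha))
    (bS s (dbl z ρ) (dbl z' ρ') (dblB β)) q₁ (InS s' (dbl z ρ)) (InS s' (dbl z' ρ'))
    (InS_smooth s' _) (bS s' (dbl z ρ) (dbl z' ρ') (dblB β)) q₂ A₂ eA₂
  obtain ⟨B₂', eB₂', hB₂'⟩ := pai_transp lev_hasCO (InS s' (dbl z ρ)) (InS s' (dbl z' ρ'))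
    (InS_smooth s' _) (InS_smooth s' _) (InS_adm s' _ (dbl_smooth z ρ hρ) (dbl_adm z ρ ha))
    (bS s' (dbl z ρ) (dbl z' ρ') (dblB β)) q₂ (InS s (dbl z ρ)) (InS s (dbl z' ρ'))
    (InS_smooth s _) (bS s (dbl z ρ) (dbl z' ρ') (dblB β)) q₁ B₂ eB₂
  -- the transposed maps commute with `t`
  have tA₂' : ∀ f, A₂' (tS s' z' ρ' f) = tS s z' ρ' (A₂' f) := by
    intro f
    rw [← sub_eq_zero]
    refine q₁.right _ fun v => ?_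
    rw [map_sub, ← hA₂', ← tS_adj s' z z' ρ ρ' β, ← tA₂, hA₂', tS_adj s z z' ρ ρ' β, sub_self]
  have tB₂' : ∀ f, B₂' (tS s z' ρ' f) = tS s' z' ρ' (B₂' f) := by
    intro f
    rw [← sub_eq_zero]
    refine q₂.right _ fun v => ?_
    rw [map_sub, ← hB₂', ← tS_adj s z z' ρ ρ' β, ← tB₂, hB₂', tS_adj s' z z' ρ ρ' β, sub_self]
  obtain ⟨A, eA, iA, qA⟩ := mk_res s s' z ρ hρ A₂ eA₂ tA₂
  obtain ⟨B, eB, iB, qB⟩ := mk_res s' s z ρ hρ B₂ eB₂ tB₂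
  obtain ⟨A', eA', iA', qA'⟩ := mk_res s' s z' ρ' hρ' A₂' eA₂' tA₂'
  obtain ⟨B', eB', iB', qB'⟩ := mk_res s s' z' ρ' hρ' B₂' eB₂' tB₂'
  have hA' : ∀ f f', bS s' ρ ρ' β (A f) f' = bS s ρ ρ' β f (A' f') := by
    intro f f'
    obtain ⟨g', rfl⟩ := qS_surj s' z' ρ' hρ' f'
    rw [← bS_inl s' z z' ρ ρ' β, ← iA, hA₂', bS_inl s z z' ρ ρ' β, qA']
  have hB' : ∀ f f', bS s ρ ρ' β (B f) f' = bS s' ρ ρ' β f (B' f') := by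
    intro f f'
    obtain ⟨g', rfl⟩ := qS_surj s z' ρ' hρ' f'
    rw [← bS_inl s z z' ρ ρ' β, ← iB, hB₂', bS_inl s' z z' ρ ρ' β, qB']
  have A0' : A ≠ 0 := by
    rintro rfl
    obtain ⟨f, hf⟩ := A0
    apply hf
    show A₂ (inlS s z ρ (qS s z ρ f)) = 0
    rw [iA, LinearMap.zero_apply, map_zero]
  have B0' : B ≠ 0 := by
    rintro rfl
    obtain ⟨f, hf⟩ := B0
    apply hf
    show B₂ (inlS s' z ρ (qS s' z ρ f)) = 0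
    rw [iB, LinearMap.zero_apply, map_zero]
  have AB' : ∀ x, A (B x) = 0 := by
    intro x
    apply inlS_inj s' z ρ
    rw [← iA, ← iB, AB, map_zero]
  have BA' : ∀ x, B (A x) = 0 := by
    intro x
    apply inlS_inj s z ρ
    rw [← iB, ← iA, BA, map_zero]
  refine ⟨⟨A, B, A', B', eA, eB, eA', eB', hA', hB', A0', B0', adj_ne _ _ p₂.left A A' hA' A0',
    adj_ne _ _ p₁.left B B' hB' B0', AB', BA', adj_comp _ _ p₁.right A A' B B' hA' hB' BA',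
    adj_comp _ _ p₂.right B B' A A' hB' hA' AB'⟩, ⟨⟨A₂, B₂, A₂', B₂', eA₂, eB₂, eA₂', eB₂', hA₂',
    hB₂', AB, BA, adj_comp _ _ q₁.right A₂ A₂' B₂ B₂' hA₂' hB₂' BA,
    adj_comp _ _ q₂.right B₂ B₂' A₂ A₂' hB₂' hA₂' AB, iA, iB, iA', iB', qA, qB, qA', qB'⟩⟩⟩

/-- the pairing with the contragredient -/
def evB (ρ : Representation ℂ (lev F (blk n d)) W) : W →ₗ[ℂ] dualSp ρ →ₗ[ℂ] ℂ :=
  LinearMap.mk₂ ℂ (fun v l => l.1 v) (fun v w l => map_add l.1 v w)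
    (fun c v l => map_smul l.1 c v) (fun v l l' => rfl) (fun c v l => rfl)

theorem evB_pai (ρ : Representation ℂ (lev F (blk n d)) W) (hρ : IsSm ρ) :
    Pai (V' := dualSp ρ) ρ (dual ρ) (evB ρ) where
  inv g v l := by
    show l.1 (ρ g⁻¹ (ρ g v)) = l.1 v
    rw [← Module.End.mul_apply, ← map_mul, inv_mul_cancel, map_one, Module.End.one_apply]
  left v hv := by
    by_contra h0
    obtain ⟨l, hl⟩ := dual_sep (CGLa_lev_hasCO (blk n d)) ρ hρ v h0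
    exact hl (hv l)
  right l hl := Subtype.ext (LinearMap.ext fun v => hl v)

/-- the standing hypotheses for the contragredient -/
theorem dual2_dual (hd : d ≤ n) (ρ : Representation ℂ (lev F (blk n d)) W) (hρ : IsSm ρ)
    (hi : Irr ρ) (hc : Cusp (blk n d) ρ) (hni : n = d + d → NIso hd ρ) :
    Dual2 (W' := dualSp ρ) hd ρ (dual ρ) (evB ρ) := by
  have ha := cusp_adm (blk n d) ρ hρ hi hc
  have hB := CGLa_lev_hasCO (F := F) (blk n d)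
  exact ⟨evB_pai ρ hρ, hρ, dual_smooth ρ, hi, dual_irr hB ρ hρ ha hi, hc, cusp_dual _ ρ hρ hi hc,
    hni, fun hn => niso_dual (W' := dualSp ρ) hd hn ρ (dual ρ) hρ (dual_smooth ρ)
      (dual_adm hB ρ hρ ha) (evB ρ) (evB_pai ρ hρ).inv (evB_pai ρ hρ).left (evB_pai ρ hρ).right
      (hni hn)⟩

/-- THEOREM (i-b) -/
theorem no_double (hd1 : 1 ≤ d) (hd : d < n) (s : Bool)
    (ρ : Representation ℂ (lev F (blk n d)) W) (hρ : IsSm ρ) (hi : Irr ρ)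
    (hc : Cusp (blk n d) ρ) (hni : n = d + d → NIso hd.le ρ) (z : ℂ) (hz : z ≠ 0)
    (A : XnS s (dbl z ρ) →ₗ[ℂ] XnS (!s) (dbl z ρ)) (B : XnS (!s) (dbl z ρ) →ₗ[ℂ] XnS s (dbl z ρ))
    (eA : Equi (InS s (dbl z ρ)) (InS (!s) (dbl z ρ)) A)
    (eB : Equi (InS (!s) (dbl z ρ)) (InS s (dbl z ρ)) B)
    (tA : ∀ f, A (tS s z ρ f) = tS (!s) z ρ (A f))
    (tB : ∀ f, B (tS (!s) z ρ f) = tS s z ρ (B f))
    (A0 : ∃ f, A (tS s z ρ f) ≠ 0) (B0 : ∃ f, B (tS (!s) z ρ f) ≠ 0)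
    (AB : ∀ x, A (B x) = 0) (BA : ∀ x, B (A x) = 0) : False := by
  have H := dual2_dual hd.le ρ hρ hi hc hni
  have ha := cusp_adm (blk n d) ρ hρ hi hc
  obtain ⟨S, ⟨T⟩⟩ := mkSys2 (W' := dualSp ρ) s (!s) z (-z) (add_neg_cancel z) ρ (dual ρ) (evB ρ)
    H.pai hρ H.sm' ha A B eA eB tA tB A0 B0 AB BA
  exact rank_one_b (W' := dualSp ρ) hd1 hd rfl H ha (add_neg_cancel z) hz T

/-- THEOREM (i-a) -/
theorem rank_one (hd1 : 1 ≤ d) (hd : d < n) (s : Bool)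
    (ρ : Representation ℂ (lev F (blk n d)) W) (ρ' : Representation ℂ (lev F (blk n d)) W')
    (β : W →ₗ[ℂ] W' →ₗ[ℂ] ℂ) (H : Dual2 hd.le ρ ρ' β) (A : XnS s ρ →ₗ[ℂ] XnS (!s) ρ)
    (B : XnS (!s) ρ →ₗ[ℂ] XnS s ρ) (eA : Equi (InS s ρ) (InS (!s) ρ) A)
    (eB : Equi (InS (!s) ρ) (InS s ρ) B) (A0 : A ≠ 0) (B0 : B ≠ 0) (AB : ∀ x, A (B x) = 0)
    (BA : ∀ x, B (A x) = 0) :
    n = d + d ∧ ∃ (t : Bool) (β₀ : W →ₗ[ℂ] W' →ₗ[ℂ] ℂ), β₀ ≠ 0 ∧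
      ∀ p ∈ PC.DP.GG F n d, ∀ m₁ m₂ : lev F (blk n d),
        m₁.1 = (gS F n d hd.le t)⁻¹ * p * gS F n d hd.le t →
        m₂.1 = (gS F n d hd.le (!t))⁻¹ * p * gS F n d hd.le (!t) →
        ∀ e e', ((PC.DP.nrm F p.val.det : ℝ) : ℂ) * β₀ (ρ m₁ e) (ρ' m₂ e') = β₀ e e' := by
  have ha := cusp_adm (blk n d) ρ H.sm H.irr H.cusp
  obtain ⟨S, -, -⟩ := mkSys0 s (!s) ρ ρ' β H.pai H.sm H.sm' ha A B eA eB A0 B0 AB BA
  exact rank_one_a hd1 hd rfl H ha S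

end

end PC.D4
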