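import Mathlib

/-!
# MP_ca1492_al, D4, RodDefs: Whittaker functionals on induced representations (Rodier), definitions

`G` a topological group, `P`, `N` subgroups, `τ p : W → W` an action of `P`. Functionals are defined
on all functions `G → W`, only their values on `IsInd P τ` matter.
-/

open Topology

namespace PC.D4

variable {G : Type} [Group G] [TopologicalSpace G] {W : Type} [AddCommGroup W] [Module ℂ W]

/-- the functions of the induced representation -/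
def IsInd (P : Subgroup G) (τ : G → W →ₗ[ℂ] W) (f : G → W) : Prop :=
  (∀ p ∈ P, ∀ g, f (p * g) = τ p (f g)) ∧
    ∃ U : Subgroup G, IsOpen (U : Set G) ∧ ∀ g, ∀ u ∈ U, f (g * u) = f g

/-- Whittaker functionals on the induced representation -/
def WhInd (P N : Subgroup G) (τ : G → W →ₗ[ℂ] W) (χ : G → ℂ) (l : (G → W) →ₗ[ℂ] ℂ) : Prop :=
  ∀ f, IsInd P τ f → ∀ a ∈ N, l (fun x => f (x * a)) = χ a * l f

/-- the data of the inducing representation and of the character -/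
structure RData (P N : Subgroup G) (τ : G → W →ₗ[ℂ] W) (χ : G → ℂ) : Prop where
  P_closed : IsClosed (P : Set G)
  N_closed : IsClosed (N : Set G)
  τ_mul : ∀ p ∈ P, ∀ q ∈ P, τ (p * q) = τ p ∘ₗ τ q
  τ_one : τ 1 = LinearMap.id
  /-- smoothness -/
  τ_loc : ∀ v, ∃ U ∈ 𝓝 (1 : G), ∀ p ∈ P, p ∈ U → τ p v = v
  χ_mul : ∀ a ∈ N, ∀ b ∈ N, χ (a * b) = χ a * χ b
  χ_one : χ 1 = 1
  χ_loc : ∃ U ∈ 𝓝 (1 : G), ∀ a ∈ N, a ∈ U → χ a = 1
  /-- `G` is compact modulo `P` -/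
  cpt : ∃ C : Set G, IsCompact C ∧ ∀ g, ∃ p ∈ P, ∃ c ∈ C, g = p * c
  /-- compact subsets of `N` lie in compact subgroups -/
  exh : ∀ C : Set G, IsCompact C → C ⊆ N → ∃ N' : Subgroup G, N' ≤ N ∧
    IsCompact (N' : Set G) ∧ C ⊆ N'

/-- the cell `P w A` -/
def cel (P A : Subgroup G) (w : G) : Set G := {g | ∃ p ∈ P, ∃ a ∈ A, g = p * w * a}

/-- the open cell: `P w A` is open and `(p, a) ↦ p w a` is a homeomorphism onto it; `y` is the
component in `A`; `N = B A`, `w B w⁻¹ ⊆ P`, `B` normalizes `A` -/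
structure Cell (P N A B : Subgroup G) (w : G) where
  y : G → G
  A_le : A ≤ N
  B_le : B ≤ N
  A_closed : IsClosed (A : Set G)
  dec : ∀ a ∈ N, ∃ b ∈ B, ∃ c ∈ A, a = b * c
  norm : ∀ b ∈ B, ∀ a ∈ A, b * a * b⁻¹ ∈ A
  conj : ∀ b ∈ B, w * b * w⁻¹ ∈ P
  uniq : ∀ a ∈ A, w * a * w⁻¹ ∈ P → a = 1
  op : IsOpen (cel P A w)
  cont : ContinuousOn y (cel P A w)
  y_mem : ∀ p ∈ P, ∀ a ∈ A, y (p * w * a) = a

end PC.D4
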