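import Mathlib
import Pool.Agent.Lib.MP_ca1492_al.D4.BlkDefs
import Pool.Agent.Lib.MP_ca1492_al.D4.GLAlg
import Pool.Agent.Lib.MP_ca1492_al.D4.RodDefs

/-!
# MP_ca1492_al, D4, RodCell: the open cell of `PP \ GL_n / NN`

`w = pm F (wsw n d hd)`, `m = n - d`, `σ = wsw n d hd`. For `g` put `H = w⁻¹ g`. If `g = p w a` with
`p ∈ PP F n d`, `a ∈ UU F n m` then `H = p' a` with `p' = w⁻¹ p w` block lower triangular (blocks `m`,
`d`), so the upper left block of `H` is that of `p'`, hence invertible, and `a = 1 + X` where `X` is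
the upper right block of `T⁻¹ H`, `T` the upper left block of `H` completed by the identity
(`RodCell_tl`). Conversely, if `det T ≠ 0` then `H (1 - X)` has upper right block zero. So the cell is
the open set `det T ≠ 0`. The same computation gives `dec`.
-/

open Topology Pool.Agent.Lib.MP_ca1492_al.P

namespace PC.D4

open PC.GK (NN sg psi pm)

section alg

variable {F : Type} [Field F] {n : ℕ}

/-- the upper left block of size `m`, completed by the identity -/
def RodCell_tl (m : ℕ) (H : Matrix (Fin n) (Fin n) F) : Matrix (Fin n) (Fin n) F :=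
  Matrix.of fun i j => if i.1 < m ∧ j.1 < m then H i j else if i = j then 1 else 0

/-- the upper right block, completed by zero -/
def RodCell_P (m : ℕ) (H : Matrix (Fin n) (Fin n) F) : Matrix (Fin n) (Fin n) F :=
  Matrix.of fun i j => if i.1 < m ∧ m ≤ j.1 then H i j else 0

theorem RodCell_tl_apply (m : ℕ) (H : Matrix (Fin n) (Fin n) F) (i j : Fin n) :
    RodCell_tl m H i j = if i.1 < m ∧ j.1 < m then H i j else if i = j then 1 else 0 := rfl

theorem RodCell_P_apply (m : ℕ) (H : Matrix (Fin n) (Fin n) F) (i j : Fin n) :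
    RodCell_P m H i j = if i.1 < m ∧ m ≤ j.1 then H i j else 0 := rfl

theorem RodCell_P_mul (m : ℕ) (H K : Matrix (Fin n) (Fin n) F) :
    RodCell_P m H * RodCell_P m K = 0 := by
  ext i j
  rw [Matrix.mul_apply, Matrix.zero_apply]
  refine Finset.sum_eq_zero fun k _ => ?_
  rw [RodCell_P_apply, RodCell_P_apply]
  by_cases h : k.1 < m
  · rw [if_neg (show ¬ (i.1 < m ∧ m ≤ k.1) by omega), zero_mul]
  · rw [if_neg (show ¬ (k.1 < m ∧ m ≤ j.1) by omega), mul_zero]

/-- the unit `1 + P` -/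
def RodCell_u (m : ℕ) (H : Matrix (Fin n) (Fin n) F) : GL (Fin n) F where
  val := 1 + RodCell_P m H
  inv := 1 - RodCell_P m H
  val_inv := by
    have e : (1 + RodCell_P m H) * (1 - RodCell_P m H) = 1 - RodCell_P m H * RodCell_P m H := by
      noncomm_ring
    rw [e, RodCell_P_mul, sub_zero]
  inv_val := by
    have e : (1 - RodCell_P m H) * (1 + RodCell_P m H) = 1 - RodCell_P m H * RodCell_P m H := by
      noncomm_ring
    rw [e, RodCell_P_mul, sub_zero]

/-- `T⁻¹ H` -/
noncomputable def RodCell_X (m : ℕ) (H : Matrix (Fin n) (Fin n) F) : Matrix (Fin n) (Fin n) F :=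
  (Matrix.det (RodCell_tl m H))⁻¹ • (Matrix.adjugate (RodCell_tl m H) * H)

theorem RodCell_X_eq (m : ℕ) (H : Matrix (Fin n) (Fin n) F) :
    RodCell_X m H = (RodCell_tl m H)⁻¹ * H := by
  unfold RodCell_X
  rw [Matrix.inv_def, Ring.inverse_eq_inv', Matrix.smul_mul]

theorem RodCell_kill (m : ℕ) (H : Matrix (Fin n) (Fin n) F)
    (h : Matrix.det (RodCell_tl m H) ≠ 0) (i j : Fin n) (hi : i.1 < m) (hj : m ≤ j.1) :
    (H * (1 - RodCell_P m (RodCell_X m H))) i j = 0 := by
  have e : (RodCell_tl m H * RodCell_X m H) i j = H i j := by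
    rw [RodCell_X_eq, ← Matrix.mul_assoc,
      Matrix.mul_nonsing_inv _ (isUnit_iff_ne_zero.2 h), Matrix.one_mul]
  have e2 : (H * RodCell_P m (RodCell_X m H)) i j = (RodCell_tl m H * RodCell_X m H) i j := by
    rw [Matrix.mul_apply, Matrix.mul_apply]
    refine Finset.sum_congr rfl fun k _ => ?_
    rw [RodCell_P_apply, RodCell_tl_apply]
    by_cases hk : k.1 < m
    · rw [if_pos (show k.1 < m ∧ m ≤ j.1 from ⟨hk, hj⟩),
        if_pos (show i.1 < m ∧ k.1 < m from ⟨hi, hk⟩)]
    · rw [if_neg (show ¬ (k.1 < m ∧ m ≤ j.1) by omega),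
        if_neg (show ¬ (i.1 < m ∧ k.1 < m) by omega), mul_zero, if_neg, zero_mul]
      rintro rfl
      omega
  rw [mul_sub, mul_one, Matrix.sub_apply, e2, e, sub_self]

theorem RodCell_tl_one (m : ℕ) : RodCell_tl m (1 : Matrix (Fin n) (Fin n) F) = 1 := by
  ext i j
  rw [RodCell_tl_apply, Matrix.one_apply]
  split_ifs <;> rfl

/-- lower block triangular times anything -/
theorem RodCell_tl_mul (m : ℕ) (p q : Matrix (Fin n) (Fin n) F)
    (hp : ∀ i j : Fin n, i.1 < m → m ≤ j.1 → p i j = 0 ∨ ∀ l : Fin n, l.1 < m → q j l = 0) :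
    RodCell_tl m p * RodCell_tl m q = RodCell_tl m (p * q) := by
  ext i j
  rw [Matrix.mul_apply, RodCell_tl_apply m (p * q)]
  by_cases hi : i.1 < m
  · by_cases hj : j.1 < m
    · rw [if_pos ⟨hi, hj⟩, Matrix.mul_apply]
      refine Finset.sum_congr rfl fun k _ => ?_
      rw [RodCell_tl_apply, RodCell_tl_apply]
      by_cases hk : k.1 < m
      · rw [if_pos (show i.1 < m ∧ k.1 < m from ⟨hi, hk⟩),
          if_pos (show k.1 < m ∧ j.1 < m from ⟨hk, hj⟩)]
      · rw [if_neg (show ¬ (i.1 < m ∧ k.1 < m) by omega), if_neg, zero_mul]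
        · rcases hp i k hi (by omega) with h | h
          · rw [h, zero_mul]
          · rw [h j hj, mul_zero]
        · rintro rfl
          omega
    · rw [if_neg (show ¬ (i.1 < m ∧ j.1 < m) by omega), if_neg]
      · refine Finset.sum_eq_zero fun k _ => ?_
        rw [RodCell_tl_apply, RodCell_tl_apply]
        by_cases hk : k.1 < m
        · have hkj : ¬ k = j := by
            rintro rfl
            omega
          rw [if_neg (show ¬ (k.1 < m ∧ j.1 < m) by omega), if_neg hkj, mul_zero]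
        · rw [if_neg (show ¬ (i.1 < m ∧ k.1 < m) by omega), if_neg, zero_mul]
          rintro rfl
          omega
      · rintro rfl
        omega
  · rw [if_neg (show ¬ (i.1 < m ∧ j.1 < m) by omega), Finset.sum_eq_single i]
    · rw [RodCell_tl_apply, RodCell_tl_apply, if_neg (show ¬ (i.1 < m ∧ i.1 < m) by omega),
        if_pos rfl, if_neg (show ¬ (i.1 < m ∧ j.1 < m) by omega), one_mul]
    · intro k _ hk
      rw [RodCell_tl_apply, if_neg (show ¬ (i.1 < m ∧ k.1 < m) by omega), if_neg (Ne.symm hk),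
        zero_mul]
    · intro h
      exact absurd (Finset.mem_univ _) h

theorem RodCell_det_ne (m : ℕ) (p q : Matrix (Fin n) (Fin n) F) (hpq : p * q = 1)
    (hp : ∀ i j : Fin n, i.1 < m → m ≤ j.1 → p i j = 0 ∨ ∀ l : Fin n, l.1 < m → q j l = 0) :
    Matrix.det (RodCell_tl m p) ≠ 0 ∧ (RodCell_tl m p)⁻¹ = RodCell_tl m q := by
  have h1 : RodCell_tl m p * RodCell_tl m q = 1 := by
    rw [RodCell_tl_mul m p q hp, hpq, RodCell_tl_one]
  refine ⟨?_, Matrix.inv_eq_right_inv h1⟩
  intro h0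
  have h2 := congrArg Matrix.det h1
  rw [Matrix.det_mul, h0, zero_mul, Matrix.det_one] at h2
  exact zero_ne_one h2

/-- the component in `UU` -/
theorem RodCell_comp (m : ℕ) (p q a : Matrix (Fin n) (Fin n) F) (hpq : p * q = 1)
    (hqp : q * p = 1) (hp : ∀ i j : Fin n, i.1 < m → m ≤ j.1 → p i j = 0)
    (hq : ∀ i j : Fin n, i.1 < m → m ≤ j.1 → q i j = 0)
    (ha : ∀ i j : Fin n, ¬ (i.1 < m ∧ m ≤ j.1) → a i j = (1 : Matrix (Fin n) (Fin n) F) i j) :
    Matrix.det (RodCell_tl m (p * a)) ≠ 0 ∧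
      ∀ i j : Fin n, i.1 < m → m ≤ j.1 → RodCell_X m (p * a) i j = a i j := by
  have h1 : RodCell_tl m (p * a) = RodCell_tl m p := by
    ext i j
    rw [RodCell_tl_apply, RodCell_tl_apply]
    by_cases h : i.1 < m ∧ j.1 < m
    · rw [if_pos h, if_pos h, Matrix.mul_apply, Finset.sum_eq_single j]
      · rw [ha j j (by omega), Matrix.one_apply_eq, mul_one]
      · intro k _ hk
        rw [ha k j (by omega), Matrix.one_apply_ne hk, mul_zero]
      · intro h'
        exact absurd (Finset.mem_univ _) h'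
    · rw [if_neg h, if_neg h]
  obtain ⟨h2, h3⟩ := RodCell_det_ne m p q hpq (fun i j hi hj => Or.inl (hp i j hi hj))
  refine ⟨by rw [h1]; exact h2, fun i j hi hj => ?_⟩
  rw [RodCell_X_eq, h1, h3]
  have h4 : (RodCell_tl m q * (p * a)) i j = (q * (p * a)) i j := by
    rw [Matrix.mul_apply, Matrix.mul_apply]
    refine Finset.sum_congr rfl fun k _ => ?_
    rw [RodCell_tl_apply]
    by_cases hk : k.1 < m
    · rw [if_pos (show i.1 < m ∧ k.1 < m from ⟨hi, hk⟩)]
    · rw [if_neg (show ¬ (i.1 < m ∧ k.1 < m) by omega), if_neg, hq i k hi (by omega)]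
      rintro rfl
      omega
  rw [h4, ← Matrix.mul_assoc, hqp, Matrix.one_mul]

theorem RodCell_mem_UU (m : ℕ) (g : GL (Fin n) F) :
    g ∈ UU F n m ↔ ∀ i j : Fin n, ¬ (i.1 < m ∧ m ≤ j.1) →
      g.1 i j = (1 : Matrix (Fin n) (Fin n) F) i j := by
  have ho : ∀ i : Fin n, od n m i = if i.1 < m then 0 else 1 := fun _ => rfl
  constructor
  · rintro ⟨⟨_, h1⟩, h2⟩ i j hij
    by_cases hi : i.1 < m
    · have hj : j.1 < m := by omega
      exact h2 i j (by rw [ho, ho, if_pos hi, if_pos hj])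
    · by_cases hj : j.1 < m
      · rw [h1 i j (by rw [ho, ho, if_neg hi, if_pos hj]; omega), Matrix.one_apply_ne]
        rintro rfl
        omega
      · exact h2 i j (by rw [ho, ho, if_neg hi, if_neg hj])
  · intro h
    refine ⟨⟨fun _ _ h' => absurd rfl h', fun i j hij => ?_⟩, fun i j hij => ?_⟩
    · rw [ho, ho] at hij
      by_cases hi : i.1 < m
      · rw [if_pos hi] at hij
        split_ifs at hij <;> omega
      · by_cases hj : j.1 < m
        · rw [h i j (by omega), Matrix.one_apply_ne]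
          rintro rfl
          omega
        · rw [if_neg hi, if_neg hj] at hij
          omega
    · rw [ho, ho] at hij
      refine h i j ?_
      rintro ⟨h1, h2⟩
      rw [if_pos h1, if_neg (by omega)] at hij
      omega

theorem RodCell_mem_PP (d : ℕ) (g : GL (Fin n) F) :
    g ∈ PP F n d ↔ ∀ i j : Fin n, j.1 < d → d ≤ i.1 → g.1 i j = 0 := by
  have ho : ∀ i : Fin n, od n d i = if i.1 < d then 0 else 1 := fun _ => rfl
  constructor
  · rintro ⟨_, h1⟩ i j hj hi
    exact h1 i j (by rw [ho, ho, if_pos hj, if_neg (by omega)]; omega)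
  · intro h
    refine ⟨fun _ _ h' => absurd rfl h', fun i j hij => ?_⟩
    rw [ho, ho] at hij
    by_cases hj : j.1 < d
    · by_cases hi : i.1 < d
      · rw [if_pos hi, if_pos hj] at hij
        omega
      · exact h i j hj (by omega)
    · rw [if_neg hj] at hij
      split_ifs at hij <;> omega

theorem RodCell_mem_lev (m : ℕ) (g : GL (Fin n) F) :
    g ∈ lev F (blk n m) ↔ ∀ i j : Fin n, (i.1 < m ∧ m ≤ j.1) ∨ (j.1 < m ∧ m ≤ i.1) →
      g.1 i j = 0 := by
  constructor
  · intro h i j hij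
    refine h i j ?_
    intro h'
    simp only [blk, decide_eq_decide] at h'
    omega
  · intro h i j hij
    refine h i j ?_
    by_contra hcon
    apply hij
    simp only [blk, decide_eq_decide]
    omega

theorem RodCell_u_mem (m : ℕ) (H : Matrix (Fin n) (Fin n) F) : RodCell_u m H ∈ UU F n m := by
  rw [RodCell_mem_UU]
  intro i j hij
  show (1 + RodCell_P m H) i j = _
  rw [Matrix.add_apply, RodCell_P_apply, if_neg hij, add_zero]

theorem RodCell_UU_le (m : ℕ) : UU F n m ≤ NN F n := by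
  have key : ∀ g ∈ UU F n m, ∀ i j : Fin n, j < i → g.1 i j = 0 := by
    intro g hg i j hij
    have h1 : j.1 < i.1 := hij
    rw [(RodCell_mem_UU m g).1 hg i j (by omega), Matrix.one_apply_ne (ne_of_gt hij)]
  intro g hg
  refine ⟨⟨key g hg, key g⁻¹ ((UU F n m).inv_mem hg)⟩, fun i => ?_⟩
  rw [(RodCell_mem_UU m g).1 hg i i (by omega), Matrix.one_apply_eq]

/-- the decomposition of unitriangular matrices -/
theorem RodCell_dec (m : ℕ) (a : GL (Fin n) F) (ha : a ∈ NN F n) :
    ∃ b ∈ NN F n ⊓ lev F (blk n m), ∃ c ∈ UU F n m, a = b * c := by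
  have hz : ∀ i j : Fin n, j.1 < m → m ≤ i.1 → a.1 i j = 0 := fun i j hj hi =>
    ha.1.1 i j (by rw [Fin.lt_def]; omega)
  have hz' : ∀ i j : Fin n, j.1 < m → m ≤ i.1 → a⁻¹.1 i j = 0 := fun i j hj hi =>
    ha.1.2 i j (by rw [Fin.lt_def]; omega)
  have hmul : a.1 * a⁻¹.1 = 1 := by
    rw [← Units.val_mul, mul_inv_cancel, Units.val_one]
  obtain ⟨h2, _⟩ := RodCell_det_ne m a.1 a⁻¹.1 hmul
    (fun i j _ hj => Or.inr fun l hl => hz' j l hl hj)
  set c := RodCell_u m (RodCell_X m a.1) with hc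
  have hcU : c ∈ UU F n m := RodCell_u_mem m _
  refine ⟨a * c⁻¹, ⟨(NN F n).mul_mem ha ((NN F n).inv_mem (RodCell_UU_le m hcU)), ?_⟩, c, hcU,
    by group⟩
  show a * c⁻¹ ∈ lev F (blk n m)
  rw [RodCell_mem_lev]
  rintro i j (⟨hi, hj⟩ | ⟨hj, hi⟩)
  · exact RodCell_kill m a.1 h2 i j hi hj
  · show (a.1 * (1 - RodCell_P m (RodCell_X m a.1))) i j = 0
    rw [mul_sub, mul_one, Matrix.sub_apply, hz i j hj hi, Matrix.mul_apply,
      Finset.sum_eq_zero, sub_zero]
    intro k _
    rw [RodCell_P_apply, if_neg (by omega), mul_zero]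

theorem RodCell_norm (m : ℕ) (b a : GL (Fin n) F) (hb : b ∈ lev F (blk n m))
    (ha : a ∈ UU F n m) : b * a * b⁻¹ ∈ UU F n m := by
  have hbi : b⁻¹ ∈ lev F (blk n m) := (lev F (blk n m)).inv_mem hb
  rw [RodCell_mem_lev] at hb hbi
  rw [RodCell_mem_UU] at ha ⊢
  intro i j hij
  have h1 : (b * a * b⁻¹).1 = 1 + b.1 * (a.1 - 1) * b⁻¹.1 := by
    have h2 : b.1 * b⁻¹.1 = 1 := by
      rw [← Units.val_mul, mul_inv_cancel, Units.val_one]
    rw [mul_sub, sub_mul, mul_one, h2, Units.val_mul, Units.val_mul]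
    abel
  rw [h1, Matrix.add_apply, Matrix.mul_apply, Finset.sum_eq_zero, add_zero]
  intro k _
  by_cases hkj : (k.1 < m ∧ m ≤ j.1) ∨ (j.1 < m ∧ m ≤ k.1)
  · rw [hbi k j hkj, mul_zero]
  · rw [Matrix.mul_apply, Finset.sum_eq_zero, zero_mul]
    intro l _
    by_cases hil : (i.1 < m ∧ m ≤ l.1) ∨ (l.1 < m ∧ m ≤ i.1)
    · rw [hb i l hil, zero_mul]
    · rw [Matrix.sub_apply, ha l k (by omega), sub_self, mul_zero]

/-! ### the permutation matrix -/

theorem RodCell_left (σ : Equiv.Perm (Fin n)) (g : GL (Fin n) F) (i j : Fin n) :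
    ((pm F σ)⁻¹ * g).1 i j = g.1 (σ i) j := by
  rw [Units.val_mul, Matrix.mul_apply, Finset.sum_eq_single (σ i)]
  · show (if σ i = σ i then (1 : F) else 0) * _ = _
    rw [if_pos rfl, one_mul]
  · intro k _ hk
    show (if k = σ i then (1 : F) else 0) * _ = _
    rw [if_neg hk, zero_mul]
  · intro h
    exact absurd (Finset.mem_univ _) h

theorem RodCell_right (σ : Equiv.Perm (Fin n)) (g : GL (Fin n) F) (i j : Fin n) :
    (g * pm F σ).1 i j = g.1 i (σ j) := by
  rw [Units.val_mul, Matrix.mul_apply, Finset.sum_eq_single (σ j)]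
  · show _ * (if σ j = σ j then (1 : F) else 0) = _
    rw [if_pos rfl, mul_one]
  · intro k _ hk
    show _ * (if k = σ j then (1 : F) else 0) = _
    rw [if_neg hk, mul_zero]
  · intro h
    exact absurd (Finset.mem_univ _) h

theorem RodCell_cj (σ : Equiv.Perm (Fin n)) (g : GL (Fin n) F) (i j : Fin n) :
    ((pm F σ)⁻¹ * g * pm F σ).1 i j = g.1 (σ i) (σ j) := by
  rw [RodCell_right, RodCell_left]

theorem RodCell_wsw (d : ℕ) (hd : d ≤ n) (i : Fin n) :
    (wsw n d hd i).1 < d ↔ n - d ≤ i.1 := by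
  have hi := i.2
  by_cases h : i.1 < n - d
  · have h1 : wsw n d hd i = ⟨i.1 + d, by omega⟩ := dif_pos h
    rw [h1]
    show i.1 + d < d ↔ _
    omega
  · have h1 : wsw n d hd i = ⟨i.1 - (n - d), by omega⟩ := dif_neg h
    rw [h1]
    show i.1 - (n - d) < d ↔ _
    omega

/-- `w g w⁻¹ ∈ PP` -/
theorem RodCell_conj_mem (d : ℕ) (hd : d ≤ n) (g : GL (Fin n) F) :
    pm F (wsw n d hd) * g * (pm F (wsw n d hd))⁻¹ ∈ PP F n d ↔
      ∀ i j : Fin n, i.1 < n - d → n - d ≤ j.1 → g.1 i j = 0 := by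
  have hg : g = (pm F (wsw n d hd))⁻¹ * (pm F (wsw n d hd) * g * (pm F (wsw n d hd))⁻¹) *
      pm F (wsw n d hd) := by group
  rw [RodCell_mem_PP]
  constructor
  · intro h i j hi hj
    rw [hg, RodCell_cj]
    refine h _ _ ((RodCell_wsw d hd j).2 hj) ?_
    have h1 := RodCell_wsw d hd i
    omega
  · intro h i j hj hi
    obtain ⟨i', rfl⟩ := (wsw n d hd).surjective i
    obtain ⟨j', rfl⟩ := (wsw n d hd).surjective j
    have h1 := RodCell_wsw d hd i'
    have h2 := RodCell_wsw d hd j'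
    have h3 := h i' j' (by omega) (by omega)
    rw [hg, RodCell_cj] at h3
    exact h3

end alg

/-- the component in `UU F n (n - d)` -/
noncomputable def RodCell_y {F : Type} [Field F] (n d : ℕ) (hd : d ≤ n) (g : GL (Fin n) F) :
    GL (Fin n) F :=
  RodCell_u (n - d) (RodCell_X (n - d) ((pm F (wsw n d hd))⁻¹ * g).1)

theorem RodCell_y_eq {F : Type} [Field F] (n d : ℕ) (hd : d ≤ n) (p a : GL (Fin n) F)
    (hp : p ∈ PP F n d) (ha : a ∈ UU F n (n - d)) :
    Matrix.det (RodCell_tl (n - d)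
      ((pm F (wsw n d hd))⁻¹ * (p * pm F (wsw n d hd) * a)).1) ≠ 0 ∧
    RodCell_y n d hd (p * pm F (wsw n d hd) * a) = a := by
  set w := pm F (wsw n d hd) with hw
  have hH : (w⁻¹ * (p * w * a)).1 = (w⁻¹ * p * w).1 * a.1 := by
    rw [← Units.val_mul]
    congr 1
    group
  have hpp : ∀ p' ∈ PP F n d, ∀ i j : Fin n, i.1 < n - d → n - d ≤ j.1 →
      (w⁻¹ * p' * w).1 i j = 0 := by
    intro p' hp'
    rw [← RodCell_conj_mem d hd (w⁻¹ * p' * w), ← hw]
    have e : w * (w⁻¹ * p' * w) * w⁻¹ = p' := by group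
    rw [e]
    exact hp'
  have h1 : (w⁻¹ * p * w).1 * (w⁻¹ * p⁻¹ * w).1 = 1 := by
    rw [← Units.val_mul, ← Units.val_one]
    congr 1
    group
  have h2 : (w⁻¹ * p⁻¹ * w).1 * (w⁻¹ * p * w).1 = 1 := by
    rw [← Units.val_mul, ← Units.val_one]
    congr 1
    group
  obtain ⟨h3, h4⟩ := RodCell_comp (n - d) _ _ a.1 h1 h2 (hpp p hp)
    (hpp p⁻¹ ((PP F n d).inv_mem hp)) ((RodCell_mem_UU (n - d) a).1 ha)
  rw [← hH] at h3 h4
  refine ⟨h3, Units.ext (Matrix.ext fun i j => ?_)⟩
  show (1 + RodCell_P (n - d) (RodCell_X (n - d) (w⁻¹ * (p * w * a)).1)) i j = a.1 i j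
  rw [Matrix.add_apply, RodCell_P_apply]
  by_cases hij : i.1 < n - d ∧ n - d ≤ j.1
  · rw [if_pos hij, h4 i j hij.1 hij.2, Matrix.one_apply_ne, zero_add]
    rintro rfl
    omega
  · rw [if_neg hij, add_zero, (RodCell_mem_UU (n - d) a).1 ha i j hij]

theorem RodCell_cel {F : Type} [Field F] [TopologicalSpace F] (n d : ℕ) (hd : d ≤ n) :
    cel (PP F n d) (UU F n (n - d)) (pm F (wsw n d hd)) =
      {g | Matrix.det (RodCell_tl (n - d) ((pm F (wsw n d hd))⁻¹ * g).1) ≠ 0} := by
  ext g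
  constructor
  · rintro ⟨p, hp, a, ha, rfl⟩
    exact (RodCell_y_eq n d hd p a hp ha).1
  · intro h
    have h' : Matrix.det (RodCell_tl (n - d) ((pm F (wsw n d hd))⁻¹ * g).1) ≠ 0 := h
    set w := pm F (wsw n d hd) with hw
    set a := RodCell_y n d hd g with ha
    refine ⟨g * a⁻¹ * w⁻¹, ?_, a, RodCell_u_mem _ _, by group⟩
    have e : g * a⁻¹ * w⁻¹ = w * (w⁻¹ * g * a⁻¹) * w⁻¹ := by group
    rw [e, hw, RodCell_conj_mem d hd, ← hw]
    intro i j hi hj
    rw [Units.val_mul]
    exact RodCell_kill (n - d) _ h' i j hi hj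

theorem rodCell {F : Type} [Field F] [TopologicalSpace F] [IsTopologicalRing F]
    [ContinuousInv₀ F] [T2Space F] (n d : ℕ) (hd : d ≤ n) :
    Nonempty (Cell (PP F n d) (NN F n) (UU F n (n - d)) (NN F n ⊓ lev F (blk n (n - d)))
      (pm F (wsw n d hd))) := by
  have cH : Continuous fun g : GL (Fin n) F => ((pm F (wsw n d hd))⁻¹ * g).1 :=
    (continuous_const (y := ((pm F (wsw n d hd))⁻¹).1)).matrix_mul Units.continuous_val
  have cT : Continuous fun g : GL (Fin n) F =>
      RodCell_tl (n - d) ((pm F (wsw n d hd))⁻¹ * g).1 := by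
    refine continuous_matrix fun i j => ?_
    by_cases h : i.1 < n - d ∧ j.1 < n - d
    · simp only [RodCell_tl_apply, if_pos h]
      exact cH.matrix_elem i j
    · simp only [RodCell_tl_apply, if_neg h]
      exact continuous_const
  refine ⟨{
    y := RodCell_y n d hd
    A_le := RodCell_UU_le _
    B_le := inf_le_left
    A_closed := ?_
    dec := fun a ha => RodCell_dec _ a ha
    norm := fun b hb a ha => RodCell_norm _ b a hb.2 ha
    conj := ?_
    uniq := ?_
    op := ?_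
    cont := ?_
    y_mem := fun p hp a ha => (RodCell_y_eq n d hd p a hp ha).2 }⟩
  · have e : (UU F n (n - d) : Set (GL (Fin n) F)) =
        ⋂ i : Fin n, ⋂ j : Fin n, ⋂ (_ : ¬ (i.1 < n - d ∧ n - d ≤ j.1)),
          {g | g.1 i j = (1 : Matrix (Fin n) (Fin n) F) i j} := by
      ext g
      simp only [Set.mem_iInter, Set.mem_ofPred_eq]
      exact RodCell_mem_UU (n - d) g
    rw [e]
    exact isClosed_iInter fun i => isClosed_iInter fun j => isClosed_iInter fun _ =>
      isClosed_eq (PC.GK.GLAlg_cont_val i j) continuous_const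
  · intro b hb
    rw [RodCell_conj_mem]
    intro i j hi hj
    exact (RodCell_mem_lev (n - d) b).1 hb.2 i j (Or.inl ⟨hi, hj⟩)
  · intro a ha h
    rw [RodCell_conj_mem] at h
    refine Units.ext (Matrix.ext fun i j => ?_)
    by_cases hij : i.1 < n - d ∧ n - d ≤ j.1
    · rw [h i j hij.1 hij.2, Units.val_one, Matrix.one_apply_ne]
      rintro rfl
      omega
    · rw [(RodCell_mem_UU (n - d) a).1 ha i j hij, Units.val_one]
  · rw [RodCell_cel]
    exact isOpen_ne.preimage cT.matrix_det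
  · rw [RodCell_cel, continuousOn_iff_continuous_domRestrict, Units.continuous_iff]
    have cX : ∀ i j : Fin n, Continuous fun x : {g : GL (Fin n) F |
        Matrix.det (RodCell_tl (n - d) ((pm F (wsw n d hd))⁻¹ * g).1) ≠ 0} =>
        RodCell_P (n - d) (RodCell_X (n - d) ((pm F (wsw n d hd))⁻¹ * x.1).1) i j := by
      intro i j
      by_cases hij : i.1 < n - d ∧ n - d ≤ j.1
      · simp only [RodCell_P_apply, if_pos hij]
        refine Continuous.mul ?_ ?_
        · exact (cT.matrix_det.comp continuous_subtype_val).inv₀ fun x => x.2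
        · exact ((cT.matrix_adjugate.matrix_mul cH).matrix_elem i j).comp continuous_subtype_val
      · simp only [RodCell_P_apply, if_neg hij]
        exact continuous_const
    refine ⟨continuous_matrix fun i j => ?_, continuous_matrix fun i j => ?_⟩
    · exact (continuous_const (y := (1 : Matrix (Fin n) (Fin n) F) i j)).add (cX i j)
    · exact (continuous_const (y := (1 : Matrix (Fin n) (Fin n) F) i j)).sub (cX i j)

end PC.D4
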