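import Mathlib
import Pool.Agent.Lib.MP_ca1492_al.D4.BlkDefs
import Pool.Agent.Lib.MP_ca1492_al.D4.RodDefs

/-!
# MP_ca1492_al, D4, RodComb: every cell `PP v NN` is open or dead

If there is `i` with `i + 1 < n`, `v i < d ≤ v (i + 1)`, take `u = 1 + x E_{i, i+1}` with `ψ x ≠ 1`
(`Matrix.transvection`, as an element of `GL`): `psi ψ u = ψ x` and
`pm v * u * (pm v)⁻¹ = 1 + x E_{v i, v (i+1)} ∈ UU F n d`. Otherwise `v i < d → v (i + 1) < d`, so the
indices `i` with `v i < d` form a final segment, of cardinality `d`: `v i < d ↔ n - d ≤ i`. Then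
`m = v * (wsw)⁻¹` preserves the two blocks `[0, d)`, `[d, n)`, `pm F m ∈ lev F (blk n d) ≤ PP`, and
`pm F v = pm F m * pm F wsw * 1`.
-/

open Topology Pool.Agent.Lib.MP_ca1492_al.P

namespace PC.D4

open PC.GK (NN sg psi pm)

/-- elementary matrix as an element of `GL` -/
def RodComb_tv {F : Type} [Field F] {n : ℕ} (a b : Fin n) (hab : a ≠ b) (x : F) :
    GL (Fin n) F where
  val := Matrix.transvection a b x
  inv := Matrix.transvection a b (-x)
  val_inv := by rw [Matrix.transvection_mul_transvection_same a b hab, add_neg_cancel,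
    Matrix.transvection_zero]
  inv_val := by rw [Matrix.transvection_mul_transvection_same a b hab, neg_add_cancel,
    Matrix.transvection_zero]

theorem RodComb_tv_apply {F : Type} [Field F] {n : ℕ} (a b : Fin n) (x : F) (i j : Fin n) :
    Matrix.transvection a b x i j = (if i = j then 1 else 0) + if a = i ∧ b = j then x else 0 := by
  rw [Matrix.transvection, Matrix.add_apply, Matrix.one_apply, Matrix.single_apply]

theorem RodComb_pm_mul {F : Type} [Field F] {n : ℕ} (a b : Equiv.Perm (Fin n)) :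
    pm F (a * b) = pm F a * pm F b := by
  apply Units.ext
  ext i j
  rw [Units.val_mul, Matrix.mul_apply]
  simp only [pm, Matrix.of_apply, mul_ite, mul_one, mul_zero]
  rw [Finset.sum_eq_single (b j)]
  · rw [if_pos rfl, Equiv.Perm.mul_apply]
  · intro k _ hk
    rw [if_neg hk]
  · simp

theorem RodComb_conj {F : Type} [Field F] {n : ℕ} (v : Equiv.Perm (Fin n)) (a b : Fin n)
    (hab : a ≠ b) (x : F) :
    pm F v * RodComb_tv a b hab x * (pm F v)⁻¹ =
      RodComb_tv (v a) (v b) (fun h => hab (v.injective h)) x := by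
  rw [mul_inv_eq_iff_eq_mul]
  apply Units.ext
  ext i j
  rw [Units.val_mul, Units.val_mul, Matrix.mul_apply, Matrix.mul_apply]
  simp only [pm, RodComb_tv, Matrix.of_apply, mul_ite, mul_one, mul_zero, ite_mul, one_mul, zero_mul]
  rw [Finset.sum_eq_single (v.symm i), Finset.sum_eq_single (v j)]
  · rw [if_pos (Equiv.apply_symm_apply v i).symm, if_pos rfl, RodComb_tv_apply, RodComb_tv_apply]
    have h1 : (v.symm i = j) ↔ (i = v j) := Equiv.symm_apply_eq v
    have h2 : (a = v.symm i ∧ b = j) ↔ (v a = i ∧ v b = v j) := by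
      rw [Equiv.eq_symm_apply, v.injective.eq_iff]
    simp only [h1, h2]
  · intro k _ hk
    rw [if_neg hk]
  · simp
  · intro k _ hk
    rw [if_neg]
    rintro rfl
    exact hk (Equiv.symm_apply_apply v k).symm
  · simp

theorem RodComb_mem_NN {F : Type} [Field F] {n : ℕ} (a b : Fin n) (hab : a < b) (x : F) :
    RodComb_tv a b hab.ne x ∈ NN F n := by
  have key : ∀ (y : F) (i j : Fin n), j < i → Matrix.transvection a b y i j = 0 := by
    intro y i j hij
    rw [RodComb_tv_apply, if_neg hij.ne', if_neg, add_zero]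
    rintro ⟨rfl, rfl⟩
    exact absurd hab (not_lt.mpr hij.le)
  refine ⟨⟨fun i j hij => key x i j hij, fun i j hij => key (-x) i j hij⟩, fun i => ?_⟩
  show Matrix.transvection a b x i i = 1
  rw [RodComb_tv_apply, if_pos rfl, if_neg, add_zero]
  rintro ⟨h1, h2⟩
  exact hab.ne (h1.trans h2.symm)

theorem RodComb_mem_UU {F : Type} [Field F] {n d : ℕ} (a b : Fin n) (hab : a ≠ b) (ha : a.1 < d)
    (hb : ¬ b.1 < d) (x : F) : RodComb_tv a b hab x ∈ UU F n d := by
  refine ⟨⟨fun i j hij => absurd rfl hij, fun i j hij => ?_⟩, fun i j hij => ?_⟩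
  · show Matrix.transvection a b x i j = 0
    rw [RodComb_tv_apply, if_neg, if_neg, add_zero]
    · rintro ⟨rfl, rfl⟩
      simp [od, ha, hb] at hij
    · rintro rfl
      exact lt_irrefl _ hij
  · show Matrix.transvection a b x i j = _
    rw [RodComb_tv_apply, Matrix.one_apply, if_neg (c := a = i ∧ b = j), add_zero]
    rintro ⟨rfl, rfl⟩
    simp [od, ha, hb] at hij

theorem RodComb_sd {F : Type} [Field F] {n : ℕ} (a : Fin n) (h : a.1 + 1 < n)
    (hab : a ≠ (⟨a.1 + 1, h⟩ : Fin n)) (x : F) : PC.GK.sd (RodComb_tv a ⟨a.1 + 1, h⟩ hab x) = x := by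
  unfold PC.GK.sd
  rw [Finset.sum_eq_single a]
  · rw [dif_pos h]
    show Matrix.transvection a ⟨a.1 + 1, h⟩ x a ⟨a.1 + 1, h⟩ = x
    rw [RodComb_tv_apply, if_neg hab, if_pos ⟨rfl, rfl⟩, zero_add]
  · intro k _ hk
    by_cases h' : k.1 + 1 < n
    · rw [dif_pos h']
      show Matrix.transvection a ⟨a.1 + 1, h⟩ x k ⟨k.1 + 1, h'⟩ = 0
      rw [RodComb_tv_apply, if_neg, if_neg, add_zero]
      · rintro ⟨h1, _⟩
        exact hk h1.symm
      · intro h1
        have := congrArg Fin.val h1
        simp at this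
    · rw [dif_neg h']
  · simp

/-- a permutation without the pattern maps exactly the last `d` indices into the first block -/
theorem RodComb_final {n d : ℕ} (hd : d ≤ n) (v : Equiv.Perm (Fin n))
    (h : ∀ (i : Fin n) (hi : i.1 + 1 < n), (v i).1 < d → (v ⟨i.1 + 1, hi⟩).1 < d) (i : Fin n) :
    (v i).1 < d ↔ n - d ≤ i.1 := by
  classical
  have hup : ∀ (k : ℕ) (i : Fin n) (hk : i.1 + k < n), (v i).1 < d → (v ⟨i.1 + k, hk⟩).1 < d := by
    intro k
    induction k with
    | zero => intro i _ hi; exact hi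
    | succ k ih =>
      intro i hk hi
      exact h ⟨i.1 + k, by omega⟩ (by show i.1 + k + 1 < n; omega) (ih i (by omega) hi)
  have hup' : ∀ i j : Fin n, i ≤ j → (v i).1 < d → (v j).1 < d := by
    intro i j hij hi
    have hle : i.1 ≤ j.1 := hij
    have h1 := hup (j.1 - i.1) i (by omega) hi
    have h2 : (⟨i.1 + (j.1 - i.1), by omega⟩ : Fin n) = j := Fin.ext (by show i.1 + (j.1 - i.1) = j.1; omega)
    rw [h2] at h1
    exact h1
  set S : Finset (Fin n) := Finset.univ.filter fun i => (v i).1 < d with hS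
  have hcard : S.card = d := by
    have h1 : S = (Finset.univ.filter fun j : Fin n => j.1 < d).map v.symm.toEmbedding := by
      ext j
      simp only [hS, Finset.mem_filter, Finset.mem_univ, true_and, Finset.mem_map,
        Equiv.coe_toEmbedding]
      constructor
      · intro hj
        exact ⟨v j, hj, Equiv.symm_apply_apply v j⟩
      · rintro ⟨k, hk, rfl⟩
        rwa [Equiv.apply_symm_apply]
    rw [h1, Finset.card_map, Fin.card_filter_val_lt]
    exact min_eq_right hd
  constructor
  · intro hi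
    have h1 : Finset.Ici i ⊆ S := by
      intro j hj
      rw [hS, Finset.mem_filter]
      exact ⟨Finset.mem_univ _, hup' i j (Finset.mem_Ici.mp hj) hi⟩
    have h2 := Finset.card_le_card h1
    rw [Fin.card_Ici, hcard] at h2
    omega
  · intro hi
    by_contra hc
    have h1 : S ⊆ Finset.Ioi i := by
      intro j hj
      rw [hS, Finset.mem_filter] at hj
      rw [Finset.mem_Ioi]
      by_contra hji
      exact hc (hup' j i (not_lt.mp hji) hj.2)
    have h2 := Finset.card_le_card h1
    rw [Fin.card_Ioi, hcard] at h2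
    have := i.2
    omega

theorem rod_comb {F : Type} [Field F] (n d : ℕ) (hd : d ≤ n) (ψ : AddChar F ℂ)
    (hψ : ∃ x, ψ x ≠ 1) (v : Equiv.Perm (Fin n)) :
    pm F v ∈ cel (PP F n d) (UU F n (n - d)) (pm F (wsw n d hd)) ∨
      ∃ u ∈ NN F n, pm F v * u * (pm F v)⁻¹ ∈ UU F n d ∧ psi ψ u ≠ 1 := by
  by_cases h : ∀ (i : Fin n) (hi : i.1 + 1 < n), (v i).1 < d → (v ⟨i.1 + 1, hi⟩).1 < d
  · left
    have hf := RodComb_final hd v h
    refine ⟨pm F (v * (wsw n d hd)⁻¹), ⟨fun i j hij => absurd rfl hij, fun i j hij => ?_⟩, 1,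
      (UU F n (n - d)).one_mem, ?_⟩
    · have hj : j.1 < d := by
        by_contra hj
        by_cases hi : i.1 < d <;> simp [od, hi, hj] at hij
      have hi : ¬ i.1 < d := by
        intro hi
        simp [od, hi, hj] at hij
      show (if i = (v * (wsw n d hd)⁻¹) j then (1 : F) else 0) = 0
      rw [if_neg]
      rintro rfl
      apply hi
      rw [Equiv.Perm.mul_apply, hf]
      show n - d ≤ ((wsw n d hd).symm j).1
      show n - d ≤ (if h : j.1 < d then (⟨j.1 + (n - d), by omega⟩ : Fin n)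
        else ⟨j.1 - d, by omega⟩).1
      rw [dif_pos hj]
      show n - d ≤ j.1 + (n - d)
      omega
    · rw [mul_one, ← RodComb_pm_mul, inv_mul_cancel_right]
  · right
    push Not at h
    obtain ⟨i, hi, hvi, hvi'⟩ := h
    obtain ⟨x, hx⟩ := hψ
    have hlt : i < (⟨i.1 + 1, hi⟩ : Fin n) := by
      show i.1 < i.1 + 1
      omega
    refine ⟨RodComb_tv i ⟨i.1 + 1, hi⟩ hlt.ne x, RodComb_mem_NN _ _ hlt x, ?_, ?_⟩
    · rw [RodComb_conj]
      exact RodComb_mem_UU _ _ _ hvi (not_lt.mpr hvi') x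
    · unfold PC.GK.psi
      rw [RodComb_sd]
      exact hx

theorem BB_le_PP {F : Type} [Field F] (n d : ℕ) : PC.GK.BB F n ≤ PP F n d := by
  intro g hg
  refine ⟨fun i j hij => absurd rfl hij, fun i j hij => hg.1 i j ?_⟩
  have hj : j.1 < d := by
    by_contra hj
    by_cases hi : i.1 < d <;> simp [od, hi, hj] at hij
  have hi : ¬ i.1 < d := by
    intro hi
    simp [od, hi, hj] at hij
  show j.1 < i.1
  omega

end PC.D4
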