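import Mathlib
import Pool.Agent.Lib.MP_ca1492_al.D4.GKCpt
import Pool.Agent.Lib.MP_ca1492_al.D4.GKOpen
import Pool.Agent.Lib.MP_ca1492_al.D4.RodDefs
import Pool.Agent.Lib.MP_ca1492_al.P.Avg

/-!
# MP_ca1492_al, D4, RodDead: a Whittaker functional lives off the dead cells

`X` closed, stable under `P` (left) and `N` (right), `O = P w N ⊆ X` with `V ∩ X = O` for an open
`V`; `u ∈ N` with `w u w⁻¹ ∈ P`, `τ (w u w⁻¹) = id`, `χ u ≠ 1`; `l = 0` on the `f ∈ IsInd` which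
vanish on `X`. Claim: `l = 0` on the `f ∈ IsInd` which vanish on `X \ V`.

Proof. (1) `f` is locally constant and `S = {g ∈ X | f g ≠ 0}` is closed in `G` (`{f ≠ 0}` is clopen
because of the right invariance under an open subgroup), contained in `O`, stable under `P` on the
left (`τ p` is invertible). With `C` from `RData.cpt`: `S ⊆ P (S ∩ C)` and `S ∩ C` is compact. By
`op_of_open` (`D4/GKOpen.lean`, with `B := P`) for every `x ∈ O` and every neighbourhood `U` of `1`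
there is a neighbourhood of `x` all of whose points in `X` are of the form `b x c`, `b ∈ P`,
`c ∈ N ∩ U`; take `U` compact (`G` locally compact), cover `S ∩ C` by finitely many of these
neighbourhoods: `S ⊆ P w C_N` with `C_N ⊆ N` compact.
(2) Take a compact subgroup `N₁ ≤ N` containing `C_N` and `u` (`RData.exh`). Let `U'` be an open
subgroup with `f (g * u') = f g` and `χ = 1` on `N ∩ U'`; `N₁ ∩ U'` has finite index in the compact
`N₁`; let `s` be a finite set of representatives of `N₁ / (N₁ ∩ U')` and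
`f' g = |s|⁻¹ Σ_{k ∈ s} (χ k)⁻¹ f (g * k)` (mean over `N₁`; the summand only depends on the coset).
Then `f' ∈ IsInd` (finite sum of right translates; a right translate by `k` is invariant under
`k U' k⁻¹`), `l f' = l f` (`WhInd`; `χ k ≠ 0`), `f' (g * n) = χ n * f' g` for `n ∈ N₁` (reindex the
cosets), and `f' (w * g)`: `f' w = |s|⁻¹ Σ (χ k)⁻¹ f (w * k)`; replacing `k` by `u k` (again a set of
representatives) and `f (w * u * k) = τ (w u w⁻¹) (f (w * k)) = f (w * k)` gives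
`f' w = (χ u)⁻¹ f' w`, so `f' w = 0`. For `g ∈ O` with `f' g ≠ 0` some `f (g * k) ≠ 0`, so
`g * k ∈ S ⊆ P w N₁`, `g = p * w * n`, `n ∈ N₁`, `f' g = χ n • τ p (f' w) = 0`. On `X \ O = X \ V`
(stable under `N`) `f' = 0`. So `f'` vanishes on `X` and `l f = l f' = 0`.
-/

open Topology Pool.Agent.Lib.MP_ca1492_al.P

namespace PC.D4

theorem RodDead_zero {G : Type} [Group G] [TopologicalSpace G] {W : Type} [AddCommGroup W]
    [Module ℂ W] {P : Subgroup G} {τ : G → W →ₗ[ℂ] W} : IsInd P τ (0 : G → W) := by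
  refine ⟨fun p _ g => ?_, ⊤, isOpen_univ, fun g u _ => rfl⟩
  rw [Pi.zero_apply, Pi.zero_apply, map_zero]

theorem RodDead_add {G : Type} [Group G] [TopologicalSpace G] {W : Type} [AddCommGroup W]
    [Module ℂ W] {P : Subgroup G} {τ : G → W →ₗ[ℂ] W} {f f' : G → W} (hf : IsInd P τ f)
    (hf' : IsInd P τ f') : IsInd P τ (f + f') := by
  obtain ⟨h1, U, hU, h2⟩ := hf
  obtain ⟨h1', U', hU', h2'⟩ := hf'
  refine ⟨fun p hp g => ?_, U ⊓ U', hU.inter hU', fun g u hu => ?_⟩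
  · rw [Pi.add_apply, Pi.add_apply, h1 p hp, h1' p hp, map_add]
  · rw [Pi.add_apply, Pi.add_apply, h2 g u hu.1, h2' g u hu.2]

theorem RodDead_smul {G : Type} [Group G] [TopologicalSpace G] {W : Type} [AddCommGroup W]
    [Module ℂ W] {P : Subgroup G} {τ : G → W →ₗ[ℂ] W} {f : G → W} (hf : IsInd P τ f) (c : ℂ) :
    IsInd P τ (c • f) := by
  obtain ⟨h1, U, hU, h2⟩ := hf
  refine ⟨fun p hp g => ?_, U, hU, fun g u hu => ?_⟩
  · rw [Pi.smul_apply, Pi.smul_apply, h1 p hp, map_smul]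
  · rw [Pi.smul_apply, Pi.smul_apply, h2 g u hu]

theorem RodDead_sum {G : Type} [Group G] [TopologicalSpace G] {W : Type} [AddCommGroup W]
    [Module ℂ W] {P : Subgroup G} {τ : G → W →ₗ[ℂ] W} {ι : Type} (s : Finset ι) (f : ι → G → W)
    (hf : ∀ i ∈ s, IsInd P τ (f i)) : IsInd P τ (∑ i ∈ s, f i) := by
  classical
  induction s using Finset.induction_on with
  | empty =>
    rw [Finset.sum_empty]
    exact RodDead_zero
  | insert a s ha ih =>
    rw [Finset.sum_insert ha]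
    exact RodDead_add (hf a (Finset.mem_insert_self a s))
      (ih (fun i hi => hf i (Finset.mem_insert_of_mem hi)))

theorem RodDead_trans {G : Type} [Group G] [TopologicalSpace G] [IsTopologicalGroup G] {W : Type}
    [AddCommGroup W] [Module ℂ W] {P : Subgroup G} {τ : G → W →ₗ[ℂ] W} {f : G → W}
    (hf : IsInd P τ f) (a : G) : IsInd P τ (fun x => f (x * a)) := by
  obtain ⟨h1, U, hU, h2⟩ := hf
  refine ⟨fun p hp g => ?_, U.comap (MulAut.conj a⁻¹).toMonoidHom, ?_, fun g u hu => ?_⟩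
  · show f (p * g * a) = τ p (f (g * a))
    rw [mul_assoc, h1 p hp]
  · have e : ((U.comap (MulAut.conj a⁻¹).toMonoidHom : Subgroup G) : Set G) =
        (fun x => a⁻¹ * x * a) ⁻¹' (U : Set G) := by
      ext x
      simp only [Subgroup.coe_comap, Set.mem_preimage, SetLike.mem_coe, MulEquiv.coe_toMonoidHom,
        MulAut.conj_apply, inv_inv]
    rw [e]
    exact hU.preimage (by fun_prop)
  · have hu' : a⁻¹ * u * a ∈ U := by
      have := Subgroup.mem_comap.1 hu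
      simpa [MulAut.conj_apply] using this
    show f (g * u * a) = f (g * a)
    have e : g * u * a = g * a * (a⁻¹ * u * a) := by group
    rw [e, h2 _ _ hu']

/-- reindexing of coset representatives -/
theorem RodDead_reindex {G : Type} [Group G] {W : Type} [AddCommGroup W] (K U : Subgroup G)
    (s : Finset G) (hsK : ∀ k ∈ s, k ∈ K) (hs : ∀ k ∈ K, ∃! x, x ∈ s ∧ x⁻¹ * k ∈ U) {n : G}
    (hn : n ∈ K) (Φ : G → W) (hΦ : ∀ k ∈ K, ∀ u ∈ U, u ∈ K → Φ (k * u) = Φ k) :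
    ∑ k ∈ s, Φ (n * k) = ∑ k ∈ s, Φ k := by
  classical
  have hex : ∀ k : G, ∃ x : G, k ∈ s → (x ∈ s ∧ x⁻¹ * (n * k) ∈ U) := by
    intro k
    by_cases hk : k ∈ s
    · obtain ⟨x, hx, -⟩ := hs (n * k) (K.mul_mem hn (hsK k hk))
      exact ⟨x, fun _ => hx⟩
    · exact ⟨1, fun h => absurd h hk⟩
  choose ρ hρ using hex
  have hmaps : ∀ k ∈ s, ρ k ∈ s := fun k hk => (hρ k hk).1
  have hinj : Set.InjOn ρ (s : Set G) := by
    intro a ha b hb hab
    have h1 := (hρ a ha).2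
    have h2 := (hρ b hb).2
    rw [hab] at h1
    have h3 : a⁻¹ * b ∈ U := by
      have h4 := U.mul_mem (U.inv_mem h1) h2
      have h5 : ((ρ b)⁻¹ * (n * a))⁻¹ * ((ρ b)⁻¹ * (n * b)) = a⁻¹ * b := by group
      rwa [h5] at h4
    have h6 : b⁻¹ * b ∈ U := by
      rw [inv_mul_cancel]
      exact U.one_mem
    exact (hs b (hsK b hb)).unique ⟨ha, h3⟩ ⟨hb, h6⟩
  have hsurj : Set.SurjOn ρ (s : Set G) (s : Set G) :=
    Finset.surjOn_of_injOn_of_card_le ρ hmaps hinj le_rfl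
  refine Finset.sum_nbij ρ hmaps hinj hsurj fun k hk => ?_
  have h1 := (hρ k hk).2
  have h2 : n * k = ρ k * ((ρ k)⁻¹ * (n * k)) := by group
  have h3 : (ρ k)⁻¹ * (n * k) ∈ K :=
    K.mul_mem (K.inv_mem (hsK _ (hρ k hk).1)) (K.mul_mem hn (hsK k hk))
  calc Φ (n * k) = Φ (ρ k * ((ρ k)⁻¹ * (n * k))) := by rw [← h2]
    _ = Φ (ρ k) := hΦ _ (hsK _ (hρ k hk).1) _ h1 h3

/-- step (1): the support in `X` of `f` lies in `P w C` with `C ⊆ N` compact -/
theorem RodDead_cpt {G : Type} [Group G] [TopologicalSpace G] [IsTopologicalGroup G]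
    [LocallyCompactSpace G] [SigmaCompactSpace G] [T2Space G]
    {W : Type} [AddCommGroup W] [Module ℂ W] {P N : Subgroup G} {τ : G → W →ₗ[ℂ] W} {χ : G → ℂ}
    (D : RData P N τ χ) (X : Set G) (hX : IsClosed X)
    (hS : ∀ x ∈ X, ∀ p ∈ P, ∀ a ∈ N, p * x * a ∈ X) (w : G) (V : Set G) (hV : IsOpen V)
    (hVX : V ∩ X = {x | ∃ p ∈ P, ∃ a ∈ N, x = p * w * a})
    (f : G → W) (hf : IsInd P τ f) (hfX : ∀ x ∈ X, x ∉ V → f x = 0) :
    ∃ C : Set G, IsCompact C ∧ C ⊆ N ∧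
      ∀ x ∈ X, f x ≠ 0 → ∃ p ∈ P, ∃ c ∈ C, x = p * w * c := by
  obtain ⟨C, hC, hPC⟩ := D.cpt
  obtain ⟨hf1, U, hU, hf2⟩ := hf
  have hcl : IsClosed {g : G | f g ≠ 0} := by
    have hop : IsOpen {g : G | f g = 0} := by
      rw [isOpen_iff_mem_nhds]
      intro g hg
      have h1 : (fun x : G => g⁻¹ * x) ⁻¹' (U : Set G) ∈ 𝓝 g := by
        refine (hU.preimage (by fun_prop)).mem_nhds ?_
        show g⁻¹ * g ∈ U
        rw [inv_mul_cancel]
        exact U.one_mem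
      refine Filter.mem_of_superset h1 ?_
      intro x hx
      have h2 := hf2 g (g⁻¹ * x) hx
      rw [mul_inv_cancel_left] at h2
      show f x = 0
      rw [h2]
      exact hg
    exact hop.isClosed_compl
  obtain ⟨Ω, hΩ⟩ : ∃ Ω : Set G, Ω = (X ∩ {g : G | f g ≠ 0}) ∩ C := ⟨_, rfl⟩
  have hΩc : IsCompact Ω := by
    rw [hΩ]
    exact hC.inter_left (hX.inter hcl)
  have hΩX : Ω ⊆ X := by
    rw [hΩ]
    exact fun x hx => hx.1.1
  have hΩV : Ω ⊆ V ∩ X := by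
    intro x hx
    refine ⟨?_, hΩX hx⟩
    rw [hΩ] at hx
    by_contra hxV
    exact hx.1.2 (hfX x hx.1.1 hxV)
  have hΩw : Ω ⊆ PC.GK.orb P N w := by
    intro x hx
    have h1 := hΩV hx
    rw [hVX] at h1
    exact h1
  have hO : ∀ x ∈ Ω, PC.GK.Op P N X x := by
    intro x hx
    refine PC.GK.op_of_open P N D.P_closed D.N_closed X hX x V hV ?_
    obtain ⟨b, hb, n, hn, e⟩ := hΩw hx
    rw [hVX]
    ext z
    constructor
    · rintro ⟨b', hb', n', hn', rfl⟩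
      exact ⟨b' * b⁻¹, P.mul_mem hb' (P.inv_mem hb), n⁻¹ * n', N.mul_mem (N.inv_mem hn) hn',
        by rw [e]; group⟩
    · rintro ⟨b', hb', n', hn', rfl⟩
      exact ⟨b' * b, P.mul_mem hb' hb, n * n', N.mul_mem hn hn', by rw [e]; group⟩
  obtain ⟨K, hK, hKPN, hKx⟩ := PC.GK.cpt P N D.P_closed D.N_closed X w Ω hΩc hΩX hΩw hO
  refine ⟨Prod.snd '' K, hK.image continuous_snd, ?_, ?_⟩
  · rintro _ ⟨q, hq, rfl⟩
    exact (hKPN q hq).2
  · intro x hx hfx
    obtain ⟨p, hp, c, hc, e⟩ := hPC x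
    have hcX : c ∈ X := by
      have h1 := hS x hx p⁻¹ (P.inv_mem hp) 1 N.one_mem
      rwa [e, show p⁻¹ * (p * c) * 1 = c by group] at h1
    have hfc : f c ≠ 0 := by
      intro h0
      apply hfx
      rw [e, hf1 p hp, h0, map_zero]
    have hcΩ : c ∈ Ω := by
      rw [hΩ]
      exact ⟨⟨hcX, hfc⟩, hc⟩
    obtain ⟨q, hq, e2⟩ := hKx c hcΩ
    refine ⟨p * q.1, P.mul_mem hp (hKPN q hq).1, q.2, ⟨q, hq, rfl⟩, ?_⟩
    rw [e, e2]
    group

theorem rod_dead {G : Type} [Group G] [TopologicalSpace G] [IsTopologicalGroup G]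
    [LocallyCompactSpace G] [SigmaCompactSpace G] [T2Space G] [NonarchimedeanGroup G]
    {W : Type} [AddCommGroup W] [Module ℂ W] {P N : Subgroup G} {τ : G → W →ₗ[ℂ] W} {χ : G → ℂ}
    (D : RData P N τ χ) (l : (G → W) →ₗ[ℂ] ℂ) (hl : WhInd P N τ χ l)
    (X : Set G) (hX : IsClosed X) (hS : ∀ x ∈ X, ∀ p ∈ P, ∀ a ∈ N, p * x * a ∈ X)
    (w : G) (hw : w ∈ X) (V : Set G) (hV : IsOpen V)
    (hVX : V ∩ X = {x | ∃ p ∈ P, ∃ a ∈ N, x = p * w * a})
    (u : G) (hu : u ∈ N) (huP : w * u * w⁻¹ ∈ P) (huτ : τ (w * u * w⁻¹) = LinearMap.id)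
    (huχ : χ u ≠ 1)
    (h : ∀ f, IsInd P τ f → (∀ x ∈ X, f x = 0) → l f = 0)
    (f : G → W) (hf : IsInd P τ f) (hfX : ∀ x ∈ X, x ∉ V → f x = 0) : l f = 0 := by
  classical
  obtain ⟨C, hC, hCN, hsupp⟩ := RodDead_cpt D X hX hS w V hV hVX f hf hfX
  obtain ⟨N₁, hN₁, hN₁c, hCu⟩ := D.exh (C ∪ {u}) (hC.union isCompact_singleton) (by
    rintro x (hx | hx)
    · exact hCN hx
    · have hx' : x = u := hx
      rw [hx']
      exact hu)
  have huN₁ : u ∈ N₁ := hCu (Or.inr rfl)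
  have hCN₁ : ∀ c ∈ C, c ∈ N₁ := fun c hc => hCu (Or.inl hc)
  obtain ⟨hf1, U₀, hU₀, hf2⟩ := hf
  obtain ⟨U₁, hU₁, hχ₁⟩ := D.χ_loc
  obtain ⟨U₂, hU₂⟩ := NonarchimedeanGroup.is_nonarchimedean U₁ hU₁
  obtain ⟨U, hUdef⟩ : ∃ U : Subgroup G, U = U₀ ⊓ (U₂ : Subgroup G) := ⟨_, rfl⟩
  have hUo : IsOpen (U : Set G) := by
    rw [hUdef]
    exact hU₀.inter U₂.isOpen
  have hUf : ∀ g, ∀ v ∈ U, f (g * v) = f g := by
    intro g v hv
    rw [hUdef] at hv
    exact hf2 g v hv.1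
  have hUχ : ∀ v ∈ U, v ∈ N → χ v = 1 := by
    intro v hv hvN
    rw [hUdef] at hv
    exact hχ₁ v hvN (hU₂ hv.2)
  have hχne : ∀ a ∈ N, χ a ≠ 0 := by
    intro a ha h0
    have h1 := D.χ_mul a ha a⁻¹ (N.inv_mem ha)
    rw [mul_inv_cancel, D.χ_one, h0, zero_mul] at h1
    exact one_ne_zero h1
  obtain ⟨s, hne, hsN₁, hs, -⟩ := avg_sum N₁ hN₁c U hUo
  have hc : (s.card : ℂ) ≠ 0 := Nat.cast_ne_zero.2 (Finset.card_ne_zero.2 hne)
  obtain ⟨f', hf'⟩ : ∃ f' : G → W, f' = (s.card : ℂ)⁻¹ • ∑ k ∈ s, (χ k)⁻¹ •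
    (fun x => f (x * k)) := ⟨_, rfl⟩
  have hfi : IsInd P τ f := ⟨hf1, U₀, hU₀, hf2⟩
  have hf'i : IsInd P τ f' := by
    rw [hf']
    exact RodDead_smul (RodDead_sum s _ fun k _ => RodDead_smul (RodDead_trans hfi k) _) _
  have hlf' : l f' = l f := by
    rw [hf', map_smul, map_sum]
    have h1 : ∀ k ∈ s, l ((χ k)⁻¹ • fun x => f (x * k)) = l f := by
      intro k hk
      have hkN := hN₁ (hsN₁ k hk)
      rw [map_smul, hl f hfi k hkN, smul_eq_mul, inv_mul_cancel_left₀ (hχne k hkN)]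
    rw [Finset.sum_congr rfl h1, Finset.sum_const, nsmul_eq_mul, smul_eq_mul,
      inv_mul_cancel_left₀ hc]
  have hval : ∀ g, f' g = (s.card : ℂ)⁻¹ • ∑ k ∈ s, (χ k)⁻¹ • f (g * k) := by
    intro g
    rw [hf', Pi.smul_apply, Finset.sum_apply]
    rfl
  have hequi : ∀ g, ∀ n ∈ N₁, f' (g * n) = χ n • f' g := by
    intro g n hn
    have hnN := hN₁ hn
    have h1 := RodDead_reindex N₁ U s hsN₁ hs hn (fun k => (χ k)⁻¹ • f (g * k)) (by
      intro k hk v hv hvN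
      show (χ (k * v))⁻¹ • f (g * (k * v)) = (χ k)⁻¹ • f (g * k)
      rw [D.χ_mul k (hN₁ hk) v (hN₁ hvN), hUχ v hv (hN₁ hvN), mul_one, ← mul_assoc, hUf _ v hv])
    have h1' : ∑ k ∈ s, (χ (n * k))⁻¹ • f (g * (n * k)) = ∑ k ∈ s, (χ k)⁻¹ • f (g * k) := h1
    have h2 : ∑ k ∈ s, (χ k)⁻¹ • f (g * n * k) = χ n • ∑ k ∈ s, (χ k)⁻¹ • f (g * k) := by
      rw [← h1', Finset.smul_sum]
      refine Finset.sum_congr rfl fun k hk => ?_
      rw [D.χ_mul n hnN k (hN₁ (hsN₁ k hk)), smul_smul, mul_inv,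
        mul_inv_cancel_left₀ (hχne n hnN), ← mul_assoc g]
    rw [hval, hval, h2, smul_comm]
  have hw0 : f' w = 0 := by
    have h1 := hequi w u huN₁
    have h2 : w * u = (w * u * w⁻¹) * w := by group
    rw [h2, hf'i.1 _ huP, huτ, LinearMap.id_apply] at h1
    have h3 : (1 - χ u) • f' w = 0 := by
      rw [sub_smul, one_smul, ← h1, sub_self]
    rcases smul_eq_zero.1 h3 with h4 | h4
    · exact absurd (sub_eq_zero.1 h4).symm huχ
    · exact h4
  rw [← hlf']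
  apply h f' hf'i
  intro x hx
  by_contra hne'
  have hex : ∃ k ∈ s, f (x * k) ≠ 0 := by
    by_contra hcon
    push Not at hcon
    apply hne'
    have h0 : ∑ k ∈ s, (χ k)⁻¹ • f (x * k) = 0 :=
      Finset.sum_eq_zero fun k hk => by rw [hcon k hk, smul_zero]
    rw [hval, h0, smul_zero]
  obtain ⟨k, hk, hfk⟩ := hex
  have hkN := hN₁ (hsN₁ k hk)
  have hxk : x * k ∈ X := by
    have h1 := hS x hx 1 P.one_mem k hkN
    rwa [one_mul] at h1
  obtain ⟨p, hp, c, hcC, e⟩ := hsupp (x * k) hxk hfk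
  have e2 : x = p * w * (c * k⁻¹) := by
    rw [← mul_assoc, ← e]
    group
  apply hne'
  rw [e2, hequi _ _ (N₁.mul_mem (hCN₁ c hcC) (N₁.inv_mem (hsN₁ k hk))), hf'i.1 p hp, hw0,
    map_zero, smul_zero]

end PC.D4
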