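import Mathlib
import Pool.Agent.Lib.MP_ca1492_al.D4.RodDefs

/-!
# MP_ca1492_al, D4, RodFun: functions supported on the open cell

`rod_fun`: for `v : W` and a compact subgroup `L ≤ A` open in `A` there is `f ∈ IsInd` with
`f (w a) = χ a • v` for `a ∈ L`, `f (w a) = 0` for `a ∈ A \ L`, and `f = 0` off the cell.
Definition: `f g = χ (y g) • τ (g (y g)⁻¹ w⁻¹) v` if `g ∈ P w L`, and `0` otherwise. For `g = p w a`:
`y g = a`, `g (y g)⁻¹ w⁻¹ = p`. `f` is locally constant: on the open cell since `y` is continuous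
there, `χ` is locally constant on `N`, `τ` is smooth (`τ (p' p) v` with `p' → 1`: write it as
`τ p (τ (p⁻¹ p' p) v)` hmm, or `τ (p q) v = τ p v` for `q ∈ P` near `1`, and `p'' = p q` with
`q = p⁻¹ p''`), and `L` is open in `A`; outside of the cell because `P w L` is closed (closed
subgroup times compact set) and `f = 0` off `P w L`. Left equivariance is clear. Uniform right
invariance: let `C` be as in `RData.cpt`; the set `{(g, u) | f (g u) = f g}` is open (locally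
constant) and contains `C × {1}`, so (tube lemma) there is an open subgroup `U` with
`f (c u) = f c` for `c ∈ C`, `u ∈ U`; then `f (p c u) = τ p (f (c u)) = f (p c)`.

`rod_unique`: two functions of `IsInd` which agree on `w A` and vanish off the cell are equal.

`rod_supp`: for `f ∈ IsInd` vanishing off the cell there is a compact subgroup `L ≤ A`, open in `A`,
with `f (w a) = 0` for `a ∈ A \ L`: `{f ≠ 0}` is clopen and contained in the cell;
`C' = {f ≠ 0} ∩ C` is compact, `y` is continuous on it, `y '' C' ⊆ A` is compact; if `f (w a) ≠ 0`,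
`w a = p c`, `c ∈ C'`, then `c = p⁻¹ w a`, `y c = a`. Add a compact neighbourhood of `1` in `A`
(`G` locally compact, `A` closed) and take a compact subgroup of `N` which contains everything
(`RData.exh`), intersect with `A`: it contains a neighbourhood of `1` in `A`, hence is open in `A`.

`rod_exh`: for compact `C ⊆ A` and `b ∈ B` there is a compact subgroup `L ≤ A`, open in `A`,
`C ⊆ L`, `b L b⁻¹ = L` (the same construction: `N' ∩ A` with `N'` containing `C`, `b` and a compact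
neighbourhood of `1` in `A`).
-/

open Topology Pointwise

namespace PC.D4

variable {G : Type} [Group G] [TopologicalSpace G] [IsTopologicalGroup G]
  [LocallyCompactSpace G] [T2Space G] [NonarchimedeanGroup G]
  {W : Type} [AddCommGroup W] [Module ℂ W] {P N A B : Subgroup G} {τ : G → W →ₗ[ℂ] W} {χ : G → ℂ}
  {w : G}

/-- `L` is a compact subgroup of `A`, open in `A` -/
def CoA (A L : Subgroup G) : Prop :=
  L ≤ A ∧ IsCompact (L : Set G) ∧ ∃ U ∈ 𝓝 (1 : G), ∀ a ∈ A, a ∈ U → a ∈ L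

theorem RodFun_loc {f : G → W} (hf : IsInd P τ f) (g : G) : ∀ᶠ x in 𝓝 g, f x = f g := by
  obtain ⟨-, U, hU, hu⟩ := hf
  have h1 : {x : G | g⁻¹ * x ∈ (U : Set G)} ∈ 𝓝 g := by
    apply (hU.preimage (continuous_const_mul g⁻¹)).mem_nhds
    show g⁻¹ * g ∈ (U : Set G)
    rw [inv_mul_cancel]
    exact U.one_mem
  filter_upwards [h1] with x hx
  have h2 := hu g (g⁻¹ * x) hx
  rwa [mul_inv_cancel_left] at h2

theorem rod_exh (D : RData P N τ χ) (c : Cell P N A B w) (C : Set G) (hC : IsCompact C)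
    (hCA : C ⊆ A) (b : G) (hb : b ∈ B) :
    ∃ L : Subgroup G, CoA A L ∧ C ⊆ L ∧ ∀ x, b * x * b⁻¹ ∈ L ↔ x ∈ L := by
  obtain ⟨K, hK, hK1⟩ := exists_compact_mem_nhds (1 : G)
  obtain ⟨N', hN', hN'c, hCN⟩ := D.exh (C ∪ (K ∩ A) ∪ {b})
    ((hC.union (hK.inter_right c.A_closed)).union isCompact_singleton) (by
      rintro x ((hx | hx) | hx)
      · exact c.A_le (hCA hx)
      · exact c.A_le hx.2
      · rw [Set.mem_singleton_iff.1 hx]
        exact c.B_le hb)
  have hbN : b ∈ N' := hCN (Or.inr rfl)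
  refine ⟨N' ⊓ A, ⟨inf_le_right, ?_, K, hK1, ?_⟩, ?_, ?_⟩
  · rw [Subgroup.coe_inf]
    exact hN'c.inter_right c.A_closed
  · intro a ha haK
    exact ⟨hCN (Or.inl (Or.inr ⟨haK, ha⟩)), ha⟩
  · intro x hx
    exact ⟨hCN (Or.inl (Or.inl hx)), hCA hx⟩
  · intro x
    constructor
    · rintro ⟨h1, h2⟩
      have e : x = b⁻¹ * (b * x * b⁻¹) * b := by group
      refine ⟨?_, ?_⟩
      · rw [e]
        exact N'.mul_mem (N'.mul_mem (N'.inv_mem hbN) h1) hbN
      · have h3 := c.norm b⁻¹ (B.inv_mem hb) _ h2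
        rw [inv_inv, ← e] at h3
        exact h3
    · rintro ⟨h1, h2⟩
      exact ⟨N'.mul_mem (N'.mul_mem hbN h1) (N'.inv_mem hbN), c.norm b hb x h2⟩

/-- uniform right invariance from local constancy -/
theorem RodFun_unif (D : RData P N τ χ) (f : G → W) (hl : ∀ p ∈ P, ∀ g, f (p * g) = τ p (f g))
    (hloc : ∀ g, ∀ᶠ x in 𝓝 g, f x = f g) : IsInd P τ f := by
  refine ⟨hl, ?_⟩
  obtain ⟨C, hC, hPC⟩ := D.cpt
  have key : ∃ U : Subgroup G, IsOpen (U : Set G) ∧ ∀ c ∈ C, ∀ u ∈ U, f (c * u) = f c := by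
    refine hC.induction_on (p := fun S => ∃ U : Subgroup G, IsOpen (U : Set G) ∧
      ∀ c ∈ S, ∀ u ∈ U, f (c * u) = f c) ?_ ?_ ?_ ?_
    · exact ⟨⊤, isOpen_univ, fun c hc => absurd hc (Set.notMem_empty c)⟩
    · rintro s t hst ⟨U, hU, h⟩
      exact ⟨U, hU, fun c hc => h c (hst hc)⟩
    · rintro s t ⟨U, hU, h⟩ ⟨U', hU', h'⟩
      refine ⟨U ⊓ U', by rw [Subgroup.coe_inf]; exact hU.inter hU', ?_⟩
      rintro c (hc | hc) u hu
      · exact h c hc u hu.1
      · exact h' c hc u hu.2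
    · intro x _
      have h1 : {g : G | f (x * g) = f x} ∈ 𝓝 (1 : G) := by
        have h2 : Filter.Tendsto (fun g : G => x * g) (𝓝 1) (𝓝 x) := by
          have h3 := (continuous_const_mul x).tendsto (1 : G)
          rwa [mul_one] at h3
        exact h2.eventually (hloc x)
      obtain ⟨V, hV⟩ := NonarchimedeanGroup.is_nonarchimedean _ h1
      refine ⟨{g : G | x⁻¹ * g ∈ (V : Set G)}, ?_, V.toSubgroup, V.isOpen, ?_⟩
      · apply mem_nhdsWithin_of_mem_nhds
        apply (V.isOpen.preimage (continuous_const_mul x⁻¹)).mem_nhds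
        show x⁻¹ * x ∈ (V : Set G)
        rw [inv_mul_cancel]
        exact V.toSubgroup.one_mem
      · intro g hg u hu
        have h4 : f (x * (x⁻¹ * g)) = f x := hV hg
        have h5 : f (x * (x⁻¹ * g * u)) = f x := hV (V.toSubgroup.mul_mem hg hu)
        rw [mul_inv_cancel_left] at h4
        rw [show x * (x⁻¹ * g * u) = g * u by group] at h5
        rw [h4, h5]
  obtain ⟨U, hU, h⟩ := key
  refine ⟨U, hU, ?_⟩
  intro g u hu
  obtain ⟨p, hp, c, hc, rfl⟩ := hPC g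
  rw [mul_assoc, hl p hp, hl p hp, h c hc u hu]

open Classical in
/-- the function -/
noncomputable def RodFun_f (P : Subgroup G) (τ : G → W →ₗ[ℂ] W) (χ : G → ℂ) (w : G) (y : G → G)
    (L : Subgroup G) (v : W) (g : G) : W :=
  if g ∈ cel P L w then χ (y g) • τ (g * (y g)⁻¹ * w⁻¹) v else 0

theorem RodFun_f_in (c : Cell P N A B w) (L : Subgroup G) (hL : L ≤ A) (v : W) (p : G)
    (hp : p ∈ P) (a : G) (ha : a ∈ L) : RodFun_f P τ χ w c.y L v (p * w * a) = χ a • τ p v := by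
  have h1 : p * w * a ∈ cel P L w := ⟨p, hp, a, ha, rfl⟩
  have h2 : p * w * a * a⁻¹ * w⁻¹ = p := by group
  rw [RodFun_f, if_pos h1, c.y_mem p hp a (hL ha), h2]

theorem RodFun_f_out (c : Cell P N A B w) (L : Subgroup G) (v : W) (g : G)
    (hg : g ∉ cel P L w) : RodFun_f P τ χ w c.y L v g = 0 := by
  rw [RodFun_f, if_neg hg]

theorem RodFun_closed (D : RData P N τ χ) (L : Subgroup G) (hL : IsCompact (L : Set G)) :
    IsClosed (cel P L w) := by
  have h1 : cel P L w = (P : Set G) * ((fun a => w * a) '' (L : Set G)) := by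
    ext g
    constructor
    · rintro ⟨p, hp, a, ha, rfl⟩
      exact ⟨p, hp, w * a, ⟨a, ha, rfl⟩, by rw [mul_assoc]⟩
    · rintro ⟨p, hp, _, ⟨a, ha, rfl⟩, rfl⟩
      exact ⟨p, hp, a, ha, by rw [mul_assoc]⟩
  rw [h1]
  exact D.P_closed.mul_right_of_isCompact (hL.image (continuous_const_mul w))

theorem RodFun_f_loc (D : RData P N τ χ) (c : Cell P N A B w) (L : Subgroup G) (hL : CoA A L)
    (v : W) (g : G) :
    ∀ᶠ x in 𝓝 g, RodFun_f P τ χ w c.y L v x = RodFun_f P τ χ w c.y L v g := by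
  obtain ⟨hLA, hLc, U₀, hU₀, hL₀⟩ := hL
  by_cases hg : g ∈ cel P L w
  · obtain ⟨p, hp, a, ha, rfl⟩ := hg
    have hcel : cel P A w ∈ 𝓝 (p * w * a) := c.op.mem_nhds ⟨p, hp, a, hLA ha, rfl⟩
    have hya : c.y (p * w * a) = a := c.y_mem p hp a (hLA ha)
    have hy : Filter.Tendsto c.y (𝓝 (p * w * a)) (𝓝 a) := by
      have h1 := c.cont.continuousAt hcel
      have h2 : Filter.Tendsto c.y (𝓝 (p * w * a)) (𝓝 (c.y (p * w * a))) := h1
      rwa [hya] at h2
    have hq : Filter.Tendsto (fun x : G => p⁻¹ * (x * (c.y x)⁻¹ * w⁻¹)) (𝓝 (p * w * a)) (𝓝 1) := by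
      have h3 : Filter.Tendsto (fun x : G => p⁻¹ * (x * (c.y x)⁻¹ * w⁻¹)) (𝓝 (p * w * a))
          (𝓝 (p⁻¹ * ((p * w * a) * a⁻¹ * w⁻¹))) :=
        ((Filter.tendsto_id.mul hy.inv).mul_const w⁻¹).const_mul p⁻¹
      have h4 : p⁻¹ * ((p * w * a) * a⁻¹ * w⁻¹) = 1 := by group
      rwa [h4] at h3
    have hz : Filter.Tendsto (fun x : G => a⁻¹ * c.y x) (𝓝 (p * w * a)) (𝓝 1) := by
      have h5 := hy.const_mul a⁻¹
      rwa [inv_mul_cancel] at h5
    obtain ⟨U₁, hU₁, h₁⟩ := D.τ_loc v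
    obtain ⟨U₂, hU₂, h₂⟩ := D.χ_loc
    filter_upwards [hcel, hq.eventually hU₁, hz.eventually hU₂, hz.eventually hU₀] with x hx k1 k2 k3
    obtain ⟨p', hp', a', ha', rfl⟩ := hx
    have hy' : c.y (p' * w * a') = a' := c.y_mem p' hp' a' ha'
    rw [hy'] at k1 k2 k3
    have e1 : p' * w * a' * a'⁻¹ * w⁻¹ = p' := by group
    rw [e1] at k1
    have hAa : a⁻¹ * a' ∈ A := A.mul_mem (A.inv_mem (hLA ha)) ha'
    have hLa : a' ∈ L := by
      have h6 := L.mul_mem ha (hL₀ _ hAa k3)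
      rwa [mul_inv_cancel_left] at h6
    rw [RodFun_f_in c L hLA v p' hp' a' hLa, RodFun_f_in c L hLA v p hp a ha]
    have e2 : χ a' = χ a := by
      have h7 := D.χ_mul a (c.A_le (hLA ha)) (a⁻¹ * a') (c.A_le hAa)
      rw [mul_inv_cancel_left, h₂ _ (c.A_le hAa) k2, mul_one] at h7
      exact h7
    have e3 : τ p' v = τ p v := by
      have hP : p⁻¹ * p' ∈ P := P.mul_mem (P.inv_mem hp) hp'
      have h8 := D.τ_mul p hp (p⁻¹ * p') hP
      rw [mul_inv_cancel_left] at h8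
      rw [h8, LinearMap.comp_apply, h₁ _ hP k1]
    rw [e2, e3]
  · have h1 : (cel P L w)ᶜ ∈ 𝓝 g := (RodFun_closed D L hLc).isOpen_compl.mem_nhds hg
    filter_upwards [h1] with x hx
    rw [RodFun_f_out c L v x hx, RodFun_f_out c L v g hg]

theorem rod_fun (D : RData P N τ χ) (c : Cell P N A B w) (L : Subgroup G) (hL : CoA A L) (v : W) :
    ∃ f : G → W, IsInd P τ f ∧ (∀ a ∈ L, f (w * a) = χ a • v) ∧
      (∀ a ∈ A, a ∉ L → f (w * a) = 0) ∧ ∀ g, g ∉ cel P A w → f g = 0 := by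
  refine ⟨RodFun_f P τ χ w c.y L v, RodFun_unif D _ ?_ (RodFun_f_loc D c L hL v), ?_, ?_, ?_⟩
  · intro p hp g
    by_cases hg : g ∈ cel P L w
    · obtain ⟨q, hq, a, ha, rfl⟩ := hg
      rw [show p * (q * w * a) = (p * q) * w * a by group,
        RodFun_f_in c L hL.1 v (p * q) (P.mul_mem hp hq) a ha, RodFun_f_in c L hL.1 v q hq a ha,
        map_smul, D.τ_mul p hp q hq, LinearMap.comp_apply]
    · have hg' : p * g ∉ cel P L w := by
        rintro ⟨q, hq, a, ha, h⟩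
        apply hg
        refine ⟨p⁻¹ * q, P.mul_mem (P.inv_mem hp) hq, a, ha, ?_⟩
        rw [mul_assoc, mul_assoc, ← mul_assoc q, ← h, inv_mul_cancel_left]
      rw [RodFun_f_out c L v _ hg', RodFun_f_out c L v _ hg, map_zero]
  · intro a ha
    have h1 := RodFun_f_in (τ := τ) (χ := χ) c L hL.1 v 1 P.one_mem a ha
    rw [one_mul, D.τ_one] at h1
    exact h1
  · intro a ha haL
    apply RodFun_f_out
    rintro ⟨q, hq, a', ha', h⟩
    apply haL
    have h1 := c.y_mem 1 P.one_mem a ha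
    have h2 := c.y_mem q hq a' (hL.1 ha')
    rw [one_mul, h, h2] at h1
    rw [← h1]
    exact ha'
  · intro g hg
    apply RodFun_f_out
    rintro ⟨q, hq, a', ha', h⟩
    exact hg ⟨q, hq, a', hL.1 ha', h⟩

theorem rod_unique (f f' : G → W) (hf : IsInd P τ f) (hf' : IsInd P τ f')
    (h : ∀ a ∈ A, f (w * a) = f' (w * a)) (h0 : ∀ g, g ∉ cel P A w → f g = 0)
    (h0' : ∀ g, g ∉ cel P A w → f' g = 0) : f = f' := by
  funext g
  by_cases hg : g ∈ cel P A w
  · obtain ⟨p, hp, a, ha, rfl⟩ := hg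
    rw [mul_assoc, hf.1 p hp, hf'.1 p hp, h a ha]
  · rw [h0 g hg, h0' g hg]

theorem rod_supp (D : RData P N τ χ) (c : Cell P N A B w) (f : G → W) (hf : IsInd P τ f)
    (h0 : ∀ g, g ∉ cel P A w → f g = 0) :
    ∃ L : Subgroup G, CoA A L ∧ ∀ a ∈ A, a ∉ L → f (w * a) = 0 := by
  obtain ⟨C, hC, hPC⟩ := D.cpt
  have hcl : IsClosed {g : G | f g ≠ 0} := by
    rw [← isOpen_compl_iff, isOpen_iff_mem_nhds]
    intro g hg
    have hg0 : f g = 0 := by
      by_contra h
      exact hg h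
    filter_upwards [RodFun_loc hf g] with x hx
    show ¬ (f x ≠ 0)
    rw [hx, hg0]
    exact fun h => h rfl
  have hsub : C ∩ {g : G | f g ≠ 0} ⊆ cel P A w := by
    rintro g ⟨-, hg⟩
    by_contra h
    exact hg (h0 g h)
  have hK : IsCompact (c.y '' (C ∩ {g : G | f g ≠ 0})) :=
    (hC.inter_right hcl).image_of_continuousOn (c.cont.mono hsub)
  obtain ⟨L, hL, hCL, -⟩ := rod_exh D c (c.y '' (C ∩ {g : G | f g ≠ 0})) hK (by
    rintro _ ⟨g, hg, rfl⟩
    obtain ⟨p, hp, a, ha, rfl⟩ := hsub hg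
    rw [c.y_mem p hp a ha]
    exact ha) 1 B.one_mem
  refine ⟨L, hL, ?_⟩
  intro a ha haL
  by_contra hne
  apply haL
  obtain ⟨p, hp, x, hx, hpx⟩ := hPC (w * a)
  have hfx : f x ≠ 0 := by
    intro h
    apply hne
    rw [hpx, hf.1 p hp, h, map_zero]
  have hx' : x = p⁻¹ * w * a := by
    rw [mul_assoc, hpx, inv_mul_cancel_left]
  have h1 : c.y x = a := by
    rw [hx']
    exact c.y_mem p⁻¹ (P.inv_mem hp) a ha
  apply hCL
  exact ⟨x, ⟨hx, hfx⟩, h1⟩

end PC.D4
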