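import Mathlib
import Pool.Agent.Lib.MP_ca1492_al.D4.RodFun

/-!
# MP_ca1492_al, D4, RodOpen: uniqueness of Whittaker functionals on the open cell

For `L` with `CoA A L` and `v : W` let `F L v` be the function of `rod_fun` (unique by
`rod_unique`, hence linear in `v`), `λ_L v = l (F L v)` (a linear functional on `W`).
(1) For `L ≤ L'`: `λ_{L'} = m λ_L` with `m = [L' : L]`: let `s` be a set of representatives of
`L' / L` (finite, `L'` compact and `L` open in it). `Σ_{k ∈ s} (χ k)⁻¹ (F L v)(· k) = F L' v` by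
`rod_unique`: at `w a`, `a ∈ L'`: `a k ∈ L` for exactly one `k ∈ s'` (take `s` such that the `k⁻¹`
represent the right cosets, i.e. `k ∈ a⁻¹ L`), the value is `(χ k)⁻¹ χ (a k) v = χ a v`; for `a ∉ L'`
it is `0`. Apply `l` and `WhInd`: `m λ_L v = λ_{L'} v`.
(2) For `b ∈ B`: `λ_L (τ (w b w⁻¹) v) = χ b λ_L v`. If `b L b⁻¹ = L`: `(F L v)(· b) =
F L (τ (w b w⁻¹) v)` by `rod_unique` (`w a b = (w b w⁻¹) w (b⁻¹ a b)`, `χ (b⁻¹ a b) = χ a`; the cell
is stable under right multiplication with `b`), apply `l`. For general `L` use `rod_exh` (with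
`C = L`) and (1).
(3) Every `f ∈ IsInd` which vanishes off the cell satisfies `l f = λ_L v_f` for some `L`, `v_f` which
do not depend on `l` : take `L` from `rod_supp`, an open subgroup `U` with `f (g u) = f g` and `χ = 1`
on `N ∩ U`, `s` representatives of `L / (L ∩ U)`, `v_f = |s|⁻¹ Σ_{k ∈ s} (χ k)⁻¹ f (w k)`; then
`|s|⁻¹ Σ_{k ∈ s} (χ k)⁻¹ f (· k) = F L v_f` (`rod_unique`; reindex the cosets `a k`), apply `l`.
(4) Given `l₁`, `l₂` choose any `L₀` (`rod_exh` with `C = ∅`, `b = 1`) and apply `hW` to the two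
functionals `λ_{L₀}`: `c₁ λ¹_{L₀} + c₂ λ²_{L₀} = 0`; by (1) (two groups `L`, `L₀` are contained in a
third one, `rod_exh` with `C = L ∪ L₀`) the same holds for all `L`, and (3) gives the claim.
-/

open Topology

namespace PC.D4

section helpers

set_option linter.unusedSectionVars false

variable {G : Type} [Group G] [TopologicalSpace G] [IsTopologicalGroup G]
  [LocallyCompactSpace G] [T2Space G] [NonarchimedeanGroup G]
  {W : Type} [AddCommGroup W] [Module ℂ W] {P N A B : Subgroup G} {τ : G → W →ₗ[ℂ] W} {χ : G → ℂ}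
  {w : G}

theorem RodOpen_fin (L L' : Subgroup G) (hc : IsCompact (L' : Set G))
    (h : ∃ U ∈ 𝓝 (1 : G), ∀ a ∈ L', a ∈ U → a ∈ L) : Finite (L' ⧸ L.subgroupOf L') := by
  obtain ⟨U, hU, hUL⟩ := h
  have : CompactSpace L' := isCompact_iff_compactSpace.mp hc
  refine Subgroup.quotient_finite_of_isOpen _ (Subgroup.isOpen_of_mem_nhds _ (g := 1) ?_)
  have h1 : (fun x : L' => (x : G)) ⁻¹' U ∈ 𝓝 (1 : L') :=
    continuous_subtype_val.continuousAt.preimage_mem_nhds (by simpa using hU)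
  refine Filter.mem_of_superset h1 ?_
  intro x hx
  exact hUL x x.2 hx

theorem RodOpen_add {f g : G → W} (hf : IsInd P τ f) (hg : IsInd P τ g) :
    IsInd P τ (f + g) := by
  obtain ⟨hf1, U, hU, hf2⟩ := hf
  obtain ⟨hg1, V, hV, hg2⟩ := hg
  refine ⟨fun p hp x => ?_, U ⊓ V, ?_, fun x u hu => ?_⟩
  · simp [hf1 p hp, hg1 p hp]
  · rw [Subgroup.coe_inf]; exact hU.inter hV
  · simp [hf2 x u hu.1, hg2 x u hu.2]

theorem RodOpen_smul {f : G → W} (c : ℂ) (hf : IsInd P τ f) : IsInd P τ (c • f) := by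
  obtain ⟨hf1, U, hU, hf2⟩ := hf
  refine ⟨fun p hp x => ?_, U, hU, fun x u hu => ?_⟩
  · simp [hf1 p hp]
  · simp [hf2 x u hu]

theorem RodOpen_zero : IsInd P τ (0 : G → W) := by
  refine ⟨fun p hp x => by simp, ⊤, ?_, fun x u hu => by simp⟩
  simp

theorem RodOpen_right {f : G → W} (a : G) (hf : IsInd P τ f) :
    IsInd P τ (fun x => f (x * a)) := by
  obtain ⟨hf1, U, hU, hf2⟩ := hf
  refine ⟨fun p hp x => ?_, U.comap (MulAut.conj a⁻¹).toMonoidHom, ?_, fun x u hu => ?_⟩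
  · simp only [mul_assoc]
    exact hf1 p hp _
  · rw [Subgroup.coe_comap]
    refine hU.preimage ?_
    show Continuous fun x : G => a⁻¹ * x * a⁻¹⁻¹
    fun_prop
  · have h1 : a⁻¹ * u * a ∈ U := by
      have := Subgroup.mem_comap.mp hu
      simpa using this
    have h2 := hf2 (x * a) _ h1
    show f (x * u * a) = f (x * a)
    rw [← h2]
    congr 1
    group

theorem RodOpen_sum {ι : Type} (s : Finset ι) (f : ι → G → W) (hf : ∀ i ∈ s, IsInd P τ (f i)) :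
    IsInd P τ (∑ i ∈ s, f i) := by
  classical
  induction s using Finset.induction_on with
  | empty => simpa using RodOpen_zero
  | insert i s hi ih =>
    rw [Finset.sum_insert hi]
    exact RodOpen_add (hf i (Finset.mem_insert_self _ _))
      (ih fun j hj => hf j (Finset.mem_insert_of_mem hj))

/-- the function attached to `L` and `v` -/
def RodOpen_S (P A : Subgroup G) (τ : G → W →ₗ[ℂ] W) (χ : G → ℂ) (w : G) (L : Subgroup G) (v : W)
    (f : G → W) : Prop :=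
  IsInd P τ f ∧ (∀ a ∈ L, f (w * a) = χ a • v) ∧
      (∀ a ∈ A, a ∉ L → f (w * a) = 0) ∧ ∀ g, g ∉ cel P A w → f g = 0

theorem RodOpen_uniq {L : Subgroup G} {v : W} {f f' : G → W}
    (hf : RodOpen_S P A τ χ w L v f) (hf' : RodOpen_S P A τ χ w L v f') (hunq : ∀ f f' : G → W,
      IsInd P τ f → IsInd P τ f' → (∀ a ∈ A, f (w * a) = f' (w * a)) →
      (∀ g, g ∉ cel P A w → f g = 0) → (∀ g, g ∉ cel P A w → f' g = 0) → f = f') : f = f' := by
  refine hunq f f' hf.1 hf'.1 (fun a ha => ?_) hf.2.2.2 hf'.2.2.2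
  by_cases h : a ∈ L
  · rw [hf.2.1 a h, hf'.2.1 a h]
  · rw [hf.2.2.1 a ha h, hf'.2.2.1 a ha h]

theorem RodOpen_chi0 (D : RData P N τ χ) {a : G} (ha : a ∈ N) : χ a ≠ 0 := by
  intro h
  have := D.χ_mul a ha a⁻¹ (inv_mem ha)
  rw [mul_inv_cancel, D.χ_one, h, zero_mul] at this
  exact one_ne_zero this

theorem RodOpen_cel {g a : G} (ha : a ∈ A) (hg : g ∉ cel P A w) : g * a ∉ cel P A w := by
  rintro ⟨p, hp, b, hb, h⟩
  refine hg ⟨p, hp, b * a⁻¹, mul_mem hb (inv_mem ha), ?_⟩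
  rw [← mul_assoc, ← h]; group

theorem RodOpen_unique {L : Subgroup G} {v : W} {f f' : G → W}
    (hf : RodOpen_S P A τ χ w L v f) (hf' : RodOpen_S P A τ χ w L v f') : f = f' := by
  refine rod_unique (w := w) (A := A) f f' hf.1 hf'.1 (fun a ha => ?_) hf.2.2.2 hf'.2.2.2
  by_cases h : a ∈ L
  · rw [hf.2.1 a h, hf'.2.1 a h]
  · rw [hf.2.2.1 a ha h, hf'.2.2.1 a ha h]

/-- step (1) -/
theorem RodOpen_index (D : RData P N τ χ) (hAN : A ≤ N) (L L' : Subgroup G) (hL : CoA A L)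
    (hL' : CoA A L') (hLL : L ≤ L') : ∃ m : ℂ, m ≠ 0 ∧ ∀ l : (G → W) →ₗ[ℂ] ℂ, WhInd P N τ χ l →
      ∀ v f f', RodOpen_S P A τ χ w L v f → RodOpen_S P A τ χ w L' v f' → l f' = m * l f := by
  classical
  have hfin : Finite (L' ⧸ L.subgroupOf L') := by
    refine RodOpen_fin L L' hL'.2.1 ?_
    obtain ⟨U, hU, h⟩ := hL.2.2
    exact ⟨U, hU, fun a ha => h a (hL'.1 ha)⟩
  have : Fintype (L' ⧸ L.subgroupOf L') := Fintype.ofFinite _
  refine ⟨(Fintype.card (L' ⧸ L.subgroupOf L') : ℂ), ?_, ?_⟩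
  · exact_mod_cast Fintype.card_ne_zero
  intro l hl v f f' hf hf'
  have hN : ∀ k : L', (k : G) ∈ N := fun k => hAN (hL'.1 k.2)
  have hS : RodOpen_S P A τ χ w L' v
      (∑ q : L' ⧸ L.subgroupOf L', (χ (q.out : L'))⁻¹ • fun x => f (x * (q.out : L'))) := by
    refine ⟨RodOpen_sum _ _ fun q _ => RodOpen_smul _ (RodOpen_right _ hf.1), fun a ha => ?_,
      fun a ha hna => ?_, fun g hg => ?_⟩
    · rw [Finset.sum_apply]
      have key : ∀ q : L' ⧸ L.subgroupOf L', a * (q.out : L') ∈ L ↔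
          q = QuotientGroup.mk (⟨a, ha⟩ : L')⁻¹ := by
        intro q
        constructor
        · intro h
          have h2 : (QuotientGroup.mk (⟨a, ha⟩ : L')⁻¹ : L' ⧸ L.subgroupOf L') =
              QuotientGroup.mk q.out := by
            rw [QuotientGroup.eq]
            rw [Subgroup.mem_subgroupOf]
            simpa using h
          rw [h2, QuotientGroup.out_eq']
        · intro h
          have h2 : (QuotientGroup.mk (⟨a, ha⟩ : L')⁻¹ : L' ⧸ L.subgroupOf L') =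
              QuotientGroup.mk q.out := by
            rw [QuotientGroup.out_eq', h]
          rw [QuotientGroup.eq, Subgroup.mem_subgroupOf] at h2
          simpa using h2
      rw [Finset.sum_eq_single (QuotientGroup.mk (⟨a, ha⟩ : L')⁻¹)]
      · obtain ⟨q, hq⟩ : ∃ q : L' ⧸ L.subgroupOf L', q = QuotientGroup.mk (⟨a, ha⟩ : L')⁻¹ :=
          ⟨_, rfl⟩
        rw [← hq]
        have h1 := (key q).2 hq
        rw [Pi.smul_apply]
        show (χ (q.out : L'))⁻¹ • f (w * a * (q.out : L')) = χ a • v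
        rw [mul_assoc, hf.2.1 _ h1, D.χ_mul a (hAN (hL'.1 ha)) _ (hN _), smul_smul]
        congr 1
        have := RodOpen_chi0 D (hN q.out)
        field_simp
      · intro q _ hq
        have h1 : a * (q.out : L') ∉ L := fun h => hq ((key q).1 h)
        rw [Pi.smul_apply]
        show (χ (q.out : L'))⁻¹ • f (w * a * (q.out : L')) = 0
        rw [mul_assoc, hf.2.2.1 _ (mul_mem (hL'.1 ha) (hL'.1 (q.out).2)) h1, smul_zero]
      · intro h
        exact absurd (Finset.mem_univ _) h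
    · rw [Finset.sum_apply]
      refine Finset.sum_eq_zero fun q _ => ?_
      rw [Pi.smul_apply]
      show (χ (q.out : L'))⁻¹ • f (w * a * (q.out : L')) = 0
      rw [mul_assoc, hf.2.2.1 _ (mul_mem ha (hL'.1 (q.out).2)), smul_zero]
      intro h
      exact hna ((Subgroup.mul_mem_cancel_right L' (q.out).2).1 (hLL h))
    · rw [Finset.sum_apply]
      refine Finset.sum_eq_zero fun q _ => ?_
      rw [Pi.smul_apply]
      show (χ (q.out : L'))⁻¹ • f (g * (q.out : L')) = 0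
      rw [hf.2.2.2 _ (RodOpen_cel (hL'.1 (q.out).2) hg), smul_zero]
  rw [RodOpen_unique hf' hS, map_sum]
  have h3 : ∀ q : L' ⧸ L.subgroupOf L',
      l ((χ (q.out : L'))⁻¹ • fun x => f (x * (q.out : L'))) = l f := by
    intro q
    rw [map_smul, hl f hf.1 _ (hN _), smul_eq_mul]
    have := RodOpen_chi0 D (hN q.out)
    field_simp
  rw [Finset.sum_congr rfl fun q _ => h3 q]
  simp

/-- step (2), for a group stable under `b` -/
theorem RodOpen_B1 (D : RData P N τ χ) (c : Cell P N A B w) (L : Subgroup G) (hL : CoA A L)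
    (b : G) (hb : b ∈ B) (hbL : ∀ x, b * x * b⁻¹ ∈ L ↔ x ∈ L) (v : W) (f : G → W)
    (hf : RodOpen_S P A τ χ w L v f) :
    RodOpen_S P A τ χ w L (τ (w * b * w⁻¹) v) fun x => f (x * b) := by
  have hbi : b⁻¹ ∈ B := inv_mem hb
  have hA : ∀ a ∈ A, b⁻¹ * a * b ∈ A := fun a ha => by simpa using c.norm _ hbi a ha
  have hA2 : ∀ a, a ∈ L ↔ b⁻¹ * a * b ∈ L := fun a => by
    rw [← hbL (b⁻¹ * a * b)]
    constructor <;> intro h
    · convert h using 1; group
    · convert h using 1; group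
  have hx : ∀ a ∈ A, f (w * a * b) = τ (w * b * w⁻¹) (f (w * (b⁻¹ * a * b))) := by
    intro a ha
    rw [← hf.1.1 _ (c.conj b hb)]
    congr 1; group
  refine ⟨RodOpen_right b hf.1, fun a ha => ?_, fun a ha hna => ?_, fun g hg => ?_⟩
  · show f (w * a * b) = _
    rw [hx a (hL.1 ha), hf.2.1 _ ((hA2 a).1 ha), map_smul]
    congr 1
    rw [D.χ_mul _ (mul_mem (inv_mem (c.B_le hb)) (c.A_le (hL.1 ha))) _ (c.B_le hb),
      D.χ_mul _ (inv_mem (c.B_le hb)) _ (c.A_le (hL.1 ha))]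
    have h1 : χ b⁻¹ * χ b = 1 := by
      rw [← D.χ_mul _ (inv_mem (c.B_le hb)) _ (c.B_le hb), inv_mul_cancel, D.χ_one]
    linear_combination χ a * h1
  · show f (w * a * b) = 0
    rw [hx a ha, hf.2.2.1 _ (hA a ha) (fun h => hna ((hA2 a).2 h)), map_zero]
  · show f (g * b) = 0
    refine hf.2.2.2 _ ?_
    rintro ⟨p, hp, a, ha, h⟩
    refine hg ⟨p * (w * b⁻¹ * w⁻¹), mul_mem hp (c.conj _ hbi), b * a * b⁻¹, c.norm b hb a ha, ?_⟩
    have : g = g * b * b⁻¹ := by group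
    rw [this, h]; group


/-- step (2) -/
theorem RodOpen_B2 (D : RData P N τ χ) (c : Cell P N A B w) (L : Subgroup G) (hL : CoA A L)
    (b : G) (hb : b ∈ B) (v : W) (f f' : G → W) (hf : RodOpen_S P A τ χ w L v f)
    (hf' : RodOpen_S P A τ χ w L (τ (w * b * w⁻¹) v) f') (l : (G → W) →ₗ[ℂ] ℂ)
    (hl : WhInd P N τ χ l) : l f' = χ b * l f := by
  obtain ⟨L', hL', hLL, hst⟩ := rod_exh D c (L : Set G) hL.2.1 hL.1 b hb
  obtain ⟨m, hm, hmul⟩ := RodOpen_index (w := w) D c.A_le L L' hL hL' hLL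
  obtain ⟨g, hg⟩ := rod_fun D c L' hL' v
  have hg2 := RodOpen_B1 D c L' hL' b hb hst v g hg
  have h1 := hmul l hl v f g hf hg
  have h2 := hmul l hl _ f' _ hf' hg2
  rw [hl g hg.1 b (c.B_le hb), h1] at h2
  have : m * (l f' - χ b * l f) = 0 := by linear_combination -h2
  rcases mul_eq_zero.1 this with h | h
  · exact absurd h hm
  · exact sub_eq_zero.1 h

/-- step (3) -/
theorem RodOpen_avg (D : RData P N τ χ) (c : Cell P N A B w) (f : G → W) (hf : IsInd P τ f)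
    (h0 : ∀ g, g ∉ cel P A w → f g = 0) : ∃ L : Subgroup G, CoA A L ∧ ∃ v : W,
      ∀ F : G → W, RodOpen_S P A τ χ w L v F → ∀ l : (G → W) →ₗ[ℂ] ℂ, WhInd P N τ χ l →
        l F = l f := by
  classical
  obtain ⟨L, hL, hLf⟩ := rod_supp D c f hf h0
  obtain ⟨U, hU, hUf⟩ := hf.2
  obtain ⟨U1, hU1, hχ⟩ := D.χ_loc
  obtain ⟨V, hV⟩ := NonarchimedeanGroup.is_nonarchimedean U1 hU1
  obtain ⟨K, hK⟩ : ∃ K : Subgroup G, K = U ⊓ V.toSubgroup := ⟨_, rfl⟩
  have hKf : ∀ g, ∀ u ∈ K, f (g * u) = f g := fun g u hu => hUf g u (by rw [hK] at hu; exact hu.1)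
  have hKχ : ∀ a ∈ N, a ∈ K → χ a = 1 := fun a ha hak => hχ a ha
    (hV (by rw [hK] at hak; exact hak.2))
  have hKo : (K : Set G) ∈ 𝓝 (1 : G) := by
    rw [hK, Subgroup.coe_inf]
    exact (hU.inter V.isOpen).mem_nhds ⟨one_mem _, one_mem _⟩
  have hfin : Finite (L ⧸ K.subgroupOf L) :=
    RodOpen_fin K L hL.2.1 ⟨K, hKo, fun a _ h => h⟩
  have : Fintype (L ⧸ K.subgroupOf L) := Fintype.ofFinite _
  have hN : ∀ k : L, (k : G) ∈ N := fun k => c.A_le (hL.1 k.2)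
  obtain ⟨φ, hφ⟩ : ∃ φ : L ⧸ K.subgroupOf L → W,
      φ = fun q => (χ (q.out : L))⁻¹ • f (w * (q.out : L)) := ⟨_, rfl⟩
  have hφ2 : ∀ k : L, φ (QuotientGroup.mk k) = (χ (k : G))⁻¹ • f (w * k) := by
    intro k
    obtain ⟨q, hq⟩ : ∃ q : L ⧸ K.subgroupOf L, q = QuotientGroup.mk k := ⟨_, rfl⟩
    have h2 : (QuotientGroup.mk k : L ⧸ K.subgroupOf L) = QuotientGroup.mk q.out := by
      rw [QuotientGroup.out_eq', hq]
    rw [QuotientGroup.eq, Subgroup.mem_subgroupOf] at h2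
    have h3 : ((q.out : L) : G) = k * ((k⁻¹ * q.out : L) : G) := by
      simp
    rw [← hq, hφ]
    show (χ (q.out : L))⁻¹ • f (w * (q.out : L)) = _
    rw [h3, D.χ_mul _ (hN k) _ (hN _), hKχ _ (hN _) h2, mul_one, ← mul_assoc, hKf _ _ h2]
  have hc0 : (Fintype.card (L ⧸ K.subgroupOf L) : ℂ) ≠ 0 := by
    exact_mod_cast Fintype.card_ne_zero
  refine ⟨L, hL, (Fintype.card (L ⧸ K.subgroupOf L) : ℂ)⁻¹ • ∑ q, φ q, fun F hF l hl => ?_⟩
  have hS : RodOpen_S P A τ χ w L ((Fintype.card (L ⧸ K.subgroupOf L) : ℂ)⁻¹ • ∑ q, φ q)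
      ((Fintype.card (L ⧸ K.subgroupOf L) : ℂ)⁻¹ • ∑ q : L ⧸ K.subgroupOf L,
        (χ (q.out : L))⁻¹ • fun x => f (x * (q.out : L))) := by
    refine ⟨RodOpen_smul _ (RodOpen_sum _ _ fun q _ => RodOpen_smul _ (RodOpen_right _ hf)),
      fun a ha => ?_, fun a ha hna => ?_, fun g hg => ?_⟩
    · rw [Pi.smul_apply, Finset.sum_apply, smul_comm]
      congr 1
      rw [Finset.smul_sum]
      refine Fintype.sum_equiv (MulAction.toPerm (⟨a, ha⟩ : L)) _ _ fun q => ?_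
      have h1 : (MulAction.toPerm (⟨a, ha⟩ : L)) q =
          (QuotientGroup.mk ((⟨a, ha⟩ : L) * q.out) : L ⧸ K.subgroupOf L) := by
        rw [MulAction.toPerm_apply]
        conv_lhs => rw [← QuotientGroup.out_eq' q]
        rfl
      rw [h1, hφ2, Pi.smul_apply]
      show (χ (q.out : L))⁻¹ • f (w * a * (q.out : L)) =
        χ a • (χ (a * (q.out : L)))⁻¹ • f (w * (a * (q.out : L)))
      rw [D.χ_mul a (hN ⟨a, ha⟩) _ (hN _), smul_smul, mul_assoc]
      congr 1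
      have e1 := RodOpen_chi0 D (hN q.out)
      have e2 := RodOpen_chi0 D (hN ⟨a, ha⟩)
      change χ a ≠ 0 at e2
      field_simp
    · rw [Pi.smul_apply, Finset.sum_apply]
      rw [Finset.sum_eq_zero, smul_zero]
      intro q _
      rw [Pi.smul_apply]
      show (χ (q.out : L))⁻¹ • f (w * a * (q.out : L)) = 0
      rw [mul_assoc, hLf _ (mul_mem ha (hL.1 (q.out).2)), smul_zero]
      intro h
      exact hna ((Subgroup.mul_mem_cancel_right L (q.out).2).1 h)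
    · rw [Pi.smul_apply, Finset.sum_apply]
      rw [Finset.sum_eq_zero, smul_zero]
      intro q _
      rw [Pi.smul_apply]
      show (χ (q.out : L))⁻¹ • f (g * (q.out : L)) = 0
      rw [h0 _ (RodOpen_cel (hL.1 (q.out).2) hg), smul_zero]
  rw [RodOpen_unique hF hS, map_smul, map_sum]
  have h3 : ∀ q : L ⧸ K.subgroupOf L,
      l ((χ (q.out : L))⁻¹ • fun x => f (x * (q.out : L))) = l f := by
    intro q
    rw [map_smul, hl f hf _ (hN _), smul_eq_mul]
    have := RodOpen_chi0 D (hN q.out)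
    field_simp
  rw [Finset.sum_congr rfl fun q _ => h3 q]
  rw [Finset.sum_const, Finset.card_univ, smul_eq_mul, nsmul_eq_mul]
  field_simp

/-- the linear family of the functions attached to `L` -/
theorem RodOpen_lin (D : RData P N τ χ) (c : Cell P N A B w) (L : Subgroup G) (hL : CoA A L) :
    ∃ F : W →ₗ[ℂ] (G → W), ∀ v, RodOpen_S P A τ χ w L v (F v) := by
  choose F hF using fun v => rod_fun (W := W) D c L hL v
  have hF' : ∀ v, RodOpen_S P A τ χ w L v (F v) := hF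
  refine ⟨{ toFun := F, map_add' := fun v v' => ?_, map_smul' := fun r v => ?_ }, hF'⟩
  · refine RodOpen_unique (hF' (v + v')) ⟨RodOpen_add (hF' v).1 (hF' v').1, ?_, ?_, ?_⟩
    · intro a ha
      rw [Pi.add_apply, (hF' v).2.1 a ha, (hF' v').2.1 a ha, smul_add]
    · intro a ha hna
      rw [Pi.add_apply, (hF' v).2.2.1 a ha hna, (hF' v').2.2.1 a ha hna, add_zero]
    · intro g hg
      rw [Pi.add_apply, (hF' v).2.2.2 g hg, (hF' v').2.2.2 g hg, add_zero]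
  · refine RodOpen_unique (hF' (r • v)) ⟨RodOpen_smul r (hF' v).1, ?_, ?_, ?_⟩
    · intro a ha
      rw [RingHom.id_apply, Pi.smul_apply, (hF' v).2.1 a ha, smul_comm]
    · intro a ha hna
      rw [RingHom.id_apply, Pi.smul_apply, (hF' v).2.2.1 a ha hna, smul_zero]
    · intro g hg
      rw [RingHom.id_apply, Pi.smul_apply, (hF' v).2.2.2 g hg, smul_zero]


end helpers

theorem rod_open {G : Type} [Group G] [TopologicalSpace G] [IsTopologicalGroup G]
    [LocallyCompactSpace G] [T2Space G] [NonarchimedeanGroup G]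
    {W : Type} [AddCommGroup W] [Module ℂ W] {P N A B : Subgroup G} {τ : G → W →ₗ[ℂ] W}
    {χ : G → ℂ} {w : G} (D : RData P N τ χ) (c : Cell P N A B w)
    (hW : ∀ m₁ m₂ : W →ₗ[ℂ] ℂ, (∀ b ∈ B, ∀ v, m₁ (τ (w * b * w⁻¹) v) = χ b * m₁ v) →
      (∀ b ∈ B, ∀ v, m₂ (τ (w * b * w⁻¹) v) = χ b * m₂ v) →
      ∃ c₁ c₂ : ℂ, (c₁ ≠ 0 ∨ c₂ ≠ 0) ∧ ∀ v, c₁ * m₁ v + c₂ * m₂ v = 0)
    (l₁ l₂ : (G → W) →ₗ[ℂ] ℂ) (h₁ : WhInd P N τ χ l₁) (h₂ : WhInd P N τ χ l₂) :
    ∃ c₁ c₂ : ℂ, (c₁ ≠ 0 ∨ c₂ ≠ 0) ∧ ∀ f, IsInd P τ f → (∀ g, g ∉ cel P A w → f g = 0) →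
      c₁ * l₁ f + c₂ * l₂ f = 0 := by
  obtain ⟨L₀, hL₀, -, -⟩ := rod_exh D c (∅ : Set G) isCompact_empty (Set.empty_subset _) 1
    (one_mem _)
  obtain ⟨F₀, hF₀⟩ := RodOpen_lin D c L₀ hL₀
  obtain ⟨c₁, c₂, hc, hcc⟩ := hW (l₁ ∘ₗ F₀) (l₂ ∘ₗ F₀)
    (fun b hb v => RodOpen_B2 D c L₀ hL₀ b hb v _ _ (hF₀ v) (hF₀ _) l₁ h₁)
    (fun b hb v => RodOpen_B2 D c L₀ hL₀ b hb v _ _ (hF₀ v) (hF₀ _) l₂ h₂)
  refine ⟨c₁, c₂, hc, fun f hf h0 => ?_⟩
  obtain ⟨L, hL, v, hv⟩ := RodOpen_avg D c f hf h0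
  obtain ⟨F, hF⟩ := rod_fun D c L hL v
  rw [← hv F hF l₁ h₁, ← hv F hF l₂ h₂]
  obtain ⟨L', hL', hLL, -⟩ := rod_exh D c ((L : Set G) ∪ L₀) (hL.2.1.union hL₀.2.1)
    (Set.union_subset hL.1 hL₀.1) 1 (one_mem _)
  obtain ⟨F', hF'⟩ := rod_fun D c L' hL' v
  obtain ⟨m, hm, hmul⟩ := RodOpen_index (w := w) D c.A_le L L' hL hL'
    (Set.union_subset_iff.1 hLL).1
  obtain ⟨m', hm', hmul'⟩ := RodOpen_index (w := w) D c.A_le L₀ L' hL₀ hL'
    (Set.union_subset_iff.1 hLL).2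
  have e1 := hmul l₁ h₁ v F F' hF hF'
  have e2 := hmul l₂ h₂ v F F' hF hF'
  have e3 := hmul' l₁ h₁ v _ F' (hF₀ v) hF'
  have e4 := hmul' l₂ h₂ v _ F' (hF₀ v) hF'
  have e5 := hcc v
  simp only [LinearMap.comp_apply] at e5
  have : m * (c₁ * l₁ F + c₂ * l₂ F) = 0 := by
    linear_combination -c₁ * e1 - c₂ * e2 + c₁ * e3 + c₂ * e4 + m' * e5
  rcases mul_eq_zero.1 this with h | h
  · exact absurd h hm
  · exact h

end PC.D4
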