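import Mathlib
import Pool.Agent.Lib.MP_ca1492_al.D4.RodDead
import Pool.Agent.Lib.MP_ca1492_al.D4.RodOpen

/-!
# MP_ca1492_al, D4, RodMain: Rodier's theorem, abstract form
-/

open Topology

namespace PC.D4

variable {G : Type} [Group G] [TopologicalSpace G] [IsTopologicalGroup G]
  [LocallyCompactSpace G] [SigmaCompactSpace G] [T2Space G] [NonarchimedeanGroup G]
  {W : Type} [AddCommGroup W] [Module ℂ W] {P N A B : Subgroup G} {τ : G → W →ₗ[ℂ] W}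
  {χ : G → ℂ} {w : G}

theorem rod_ind (D : RData P N τ χ) (R : Finset G)
    (hR : ∀ g, ∃ x ∈ R, g ∈ PC.GK.orb P N x) (O : Set G)
    (hd : ∀ x ∈ R, x ∈ O ∨ ∃ u ∈ N, x * u * x⁻¹ ∈ P ∧ τ (x * u * x⁻¹) = LinearMap.id ∧ χ u ≠ 1)
    (l : (G → W) →ₗ[ℂ] ℂ) (hl : WhInd P N τ χ l) :
    ∀ k : ℕ, ∀ X : Set G, IsClosed X → PC.GK.Stab P N X → (∀ x ∈ X, x ∉ O) →
      (∀ S : Finset G, (∀ x ∈ S, x ∈ R ∧ x ∈ X) → S.card ≤ k) →
      (∀ f, IsInd P τ f → (∀ x ∈ X, f x = 0) → l f = 0) → ∀ f, IsInd P τ f → l f = 0 := by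
  classical
  intro k
  induction k with
  | zero =>
    intro X hX hS _ hk h f hf
    apply h f hf
    intro x hx
    exfalso
    obtain ⟨w, hw, b, hb, n, hn, e⟩ := hR x
    have hwX : w ∈ X := by
      have := hS x hx b⁻¹ (P.inv_mem hb) n⁻¹ (N.inv_mem hn)
      rwa [e, show b⁻¹ * (b * w * n) * n⁻¹ = w by group] at this
    have := hk {w} (by simp [hw, hwX])
    simp at this
  | succ k ih =>
    intro X hX hS hXO hk h f hf
    by_cases hne : X.Nonempty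
    swap
    · apply h f hf
      intro x hx
      exact absurd ⟨x, hx⟩ hne
    obtain ⟨x₀, hx₀, V, hV, hVX⟩ :=
      PC.GK.exists_open P N D.P_closed D.N_closed R hR X hX hS hne
    obtain ⟨x, hxR, hxo⟩ := hR x₀
    have hxX : x ∈ X := by
      obtain ⟨b, hb, n, hn, e⟩ := hxo
      have := hS x₀ hx₀ b⁻¹ (P.inv_mem hb) n⁻¹ (N.inv_mem hn)
      rwa [e, show b⁻¹ * (b * x * n) * n⁻¹ = x by group] at this
    have horb : PC.GK.orb P N x₀ = PC.GK.orb P N x := by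
      obtain ⟨b, hb, n, hn, e⟩ := hxo
      ext z
      constructor
      · rintro ⟨b', hb', n', hn', rfl⟩
        exact ⟨b' * b, P.mul_mem hb' hb, n * n', N.mul_mem hn hn', by rw [e]; group⟩
      · rintro ⟨b', hb', n', hn', rfl⟩
        exact ⟨b' * b⁻¹, P.mul_mem hb' (P.inv_mem hb), n⁻¹ * n', N.mul_mem (N.inv_mem hn) hn',
          by rw [e]; group⟩
    rw [horb] at hVX
    have hxV : x ∈ V := by
      have : x ∈ V ∩ X := by
        rw [hVX]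
        exact ⟨1, P.one_mem, 1, N.one_mem, by group⟩
      exact this.1
    obtain ⟨u, hu, huP, huτ, huχ⟩ := (hd x hxR).resolve_left (hXO x hxX)
    have hstep : ∀ f, IsInd P τ f → (∀ z ∈ X \ V, f z = 0) → l f = 0 := by
      intro f hf hf0
      exact rod_dead D l hl X hX (fun z hz p hp a ha => hS z hz p hp a ha) x hxX V hV hVX u hu
        huP huτ huχ h f hf (fun z hz hzV => hf0 z ⟨hz, hzV⟩)
    refine ih (X \ V) (hX.sdiff hV) ?_ (fun z hz => hXO z hz.1) ?_ hstep f hf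
    · rintro z ⟨hz, hzV⟩ b' hb' n' hn'
      refine ⟨hS z hz b' hb' n' hn', fun h' => hzV ?_⟩
      have h3 : b' * z * n' ∈ V ∩ X := ⟨h', hS z hz b' hb' n' hn'⟩
      rw [hVX] at h3
      obtain ⟨b, hb, n, hn, e⟩ := h3
      have : z ∈ V ∩ X := by
        rw [hVX]
        refine ⟨b'⁻¹ * b, P.mul_mem (P.inv_mem hb') hb, n * n'⁻¹, N.mul_mem hn (N.inv_mem hn'), ?_⟩
        have : z = b'⁻¹ * (b' * z * n') * n'⁻¹ := by group
        rw [this, e]
        group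
      exact this.1
    · intro S hS'
      have := hk (insert x S) (by
        intro v hv
        rcases Finset.mem_insert.1 hv with rfl | hv
        · exact ⟨hxR, hxX⟩
        · exact ⟨(hS' v hv).1, (hS' v hv).2.1⟩)
      rw [Finset.card_insert_of_notMem (fun h => (hS' x h).2.2 hxV)] at this
      omega

/-- Rodier's theorem, abstract form -/
theorem rod_main (D : RData P N τ χ) (c : Cell P N A B w) (R : Finset G)
    (hR : ∀ g, ∃ x ∈ R, g ∈ PC.GK.orb P N x)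
    (hd : ∀ x ∈ R, x ∈ cel P A w ∨
      ∃ u ∈ N, x * u * x⁻¹ ∈ P ∧ τ (x * u * x⁻¹) = LinearMap.id ∧ χ u ≠ 1)
    (hW : ∀ m₁ m₂ : W →ₗ[ℂ] ℂ, (∀ b ∈ B, ∀ v, m₁ (τ (w * b * w⁻¹) v) = χ b * m₁ v) →
      (∀ b ∈ B, ∀ v, m₂ (τ (w * b * w⁻¹) v) = χ b * m₂ v) →
      ∃ c₁ c₂ : ℂ, (c₁ ≠ 0 ∨ c₂ ≠ 0) ∧ ∀ v, c₁ * m₁ v + c₂ * m₂ v = 0)
    (l₁ l₂ : (G → W) →ₗ[ℂ] ℂ) (h₁ : WhInd P N τ χ l₁) (h₂ : WhInd P N τ χ l₂) :
    ∃ c₁ c₂ : ℂ, (c₁ ≠ 0 ∨ c₂ ≠ 0) ∧ ∀ f, IsInd P τ f → c₁ * l₁ f + c₂ * l₂ f = 0 := by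
  obtain ⟨c₁, c₂, hc, h0⟩ := rod_open D c hW l₁ l₂ h₁ h₂
  refine ⟨c₁, c₂, hc, ?_⟩
  have hl : WhInd P N τ χ (c₁ • l₁ + c₂ • l₂) := by
    intro f hf a ha
    simp only [LinearMap.add_apply, LinearMap.smul_apply, smul_eq_mul]
    rw [h₁ f hf a ha, h₂ f hf a ha]
    ring
  have hst : PC.GK.Stab P N (cel P A w)ᶜ := by
    intro x hx b hb n hn h3
    apply hx
    obtain ⟨p, hp, a, ha, e⟩ := h3
    obtain ⟨b', hb', a', ha', e'⟩ := c.dec n⁻¹ (N.inv_mem hn)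
    refine ⟨b⁻¹ * p * (w * b' * w⁻¹), P.mul_mem (P.mul_mem (P.inv_mem hb) hp) (c.conj b' hb'),
      b'⁻¹ * a * b' * a', A.mul_mem ?_ ha', ?_⟩
    · have := c.norm b'⁻¹ (B.inv_mem hb') a ha
      rwa [inv_inv] at this
    · have e2 : x = b⁻¹ * (b * x * n) * n⁻¹ := by group
      rw [e2, e, e']
      group
  intro f hf
  have := rod_ind D R hR (cel P A w) hd (c₁ • l₁ + c₂ • l₂) hl R.card (cel P A w)ᶜ
    c.op.isClosed_compl hst (fun x hx => hx)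
    (fun S hS => Finset.card_le_card fun x hx => (hS x hx).1)
    (fun f hf hf0 => by
      have := h0 f hf (fun g hg => hf0 g hg)
      simpa only [LinearMap.add_apply, LinearMap.smul_apply, smul_eq_mul] using this) f hf
  simpa only [LinearMap.add_apply, LinearMap.smul_apply, smul_eq_mul] using this

end PC.D4
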