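import Mathlib
import Pool.Agent.Lib.MP_ca1492_al.D4.BlkDefs
import Pool.Agent.Lib.MP_ca1492_al.D4.Exh
import Pool.Agent.Lib.MP_ca1492_al.D4.GLAlg
import Pool.Agent.Lib.MP_ca1492_al.D4.RodDefs

/-!
# MP_ca1492_al, D4, RodTau: the data `RData` for two blocks

`tauOf_eq`: the decomposition `g = m u` is unique (`uni_disj`). `tauOf_mul`: `(m u) (m' u') =
(m m') ((m'⁻¹ u m') u')` (`uni_norm`). `ind_iff`: `f ∈ IsInd (PP F n d) (tauOf σ)` iff `f` satisfies the
conditions of `(D2 F n d).IndSp σ` (`upp_decomp`).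
`rodData`: `P_closed`, `N_closed`: `upp_isClosed` (`P/Cong.lean`), `NN_closed`; `τ_loc`: the block
diagonal part `m p` of `p ∈ PP` has the entries `p i j` (`blk i = blk j`) and `0`, and its inverse has
the entries `p⁻¹ i j`; so it is continuous in `p` and `m 1 = 1`; `σ` is smooth; `χ`: `psi_mul`,
`psi_one`, `psi_loc`; `cpt`: `iwasawa` with `cb = one n`, `C = Kc F (Fin n) 0` (`Kc_isCompact`);
`exh`: `exh_NN` (`Good` subgroups).
-/

open Topology Pool.Agent.Lib.MP_ca1492_al.P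

namespace PC.D4

open PC.GK (NN sg psi pm LFData)

variable {F : Type} [Field F] {n d : ℕ} {W : Type} [AddCommGroup W] [Module ℂ W]

section Alg

variable {κ : Type} [Fintype κ] [DecidableEq κ]

/-! The next statements are copies of statements of `P/ParD.lean`, for an arbitrary field. -/

theorem RodTau_lev_le {ι ι' : Type} (c : κ → ι) (cb : κ → ι')
    (h : ∀ i j, c i = c j → cb i = cb j) : lev F c ≤ lev F cb := by
  intro g hg i j hij
  exact hg i j (fun h' => hij (h i j h'))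

theorem RodTau_lev_le_upp {ι ι' : Type} (c : κ → ι) (cb : κ → ι') (o : κ → ℤ)
    (h : ∀ i j, c i = c j ↔ cb i = cb j ∧ o i = o j) : lev F c ≤ upp F cb o := by
  intro m hm
  refine ⟨RodTau_lev_le c cb (fun i j hij => ((h i j).1 hij).1) hm, fun i j hij => ?_⟩
  refine hm i j (fun h' => ?_)
  have := ((h i j).1 h').2
  omega

theorem RodTau_norm {ι ι' : Type} (c : κ → ι) (cb : κ → ι') (o : κ → ℤ)
    (h : ∀ i j, c i = c j ↔ cb i = cb j ∧ o i = o j) (m n : GL κ F) (hm : m ∈ lev F c)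
    (hn : n ∈ uni F cb o) : m * n * m⁻¹ ∈ uni F cb o := by
  have hmu := RodTau_lev_le_upp c cb o h hm
  refine ⟨(upp F cb o).mul_mem ((upp F cb o).mul_mem hmu hn.1) ((upp F cb o).inv_mem hmu),
    fun i j hij => ?_⟩
  have hmi : m⁻¹ ∈ lev F c := (lev F c).inv_mem hm
  have h1 : ((m * n * m⁻¹ : GL κ F) : Matrix κ κ F) =
      1 + (m : Matrix κ κ F) * ((n : Matrix κ κ F) - 1) * ((m⁻¹ : GL κ F) : Matrix κ κ F) := by
    have h2 : (m : Matrix κ κ F) * ((m⁻¹ : GL κ F) : Matrix κ κ F) = 1 := by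
      rw [← Units.val_mul]
      simp
    rw [mul_sub, sub_mul, mul_one, h2, Units.val_mul, Units.val_mul]
    abel
  rw [h1, Matrix.add_apply, Matrix.mul_apply, Finset.sum_eq_zero, add_zero]
  intro k _
  by_cases hkj : c k = c j
  · rw [Matrix.mul_apply, Finset.sum_eq_zero, zero_mul]
    intro l _
    by_cases hil : c i = c l
    · have h3 := ((h i l).1 hil).2
      have h4 := ((h k j).1 hkj).2
      rw [Matrix.sub_apply, hn.2 l k (by omega), sub_self, mul_zero]
    · rw [hm i l hil, zero_mul]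
  · rw [hmi k j hkj, mul_zero]

theorem RodTau_disj {ι ι' : Type} (c : κ → ι) (cb : κ → ι') (o : κ → ℤ)
    (h : ∀ i j, c i = c j ↔ cb i = cb j ∧ o i = o j) (g : GL κ F) (hm : g ∈ lev F c)
    (hn : g ∈ uni F cb o) : g = 1 := by
  refine Units.ext (Matrix.ext fun i j => ?_)
  by_cases hij : o i = o j
  · rw [hn.2 i j hij, Units.val_one]
  · have h1 : c i ≠ c j := fun h' => hij ((h i j).1 h').2
    rw [hm i j h1, Units.val_one, Matrix.one_apply_ne]
    rintro rfl
    exact hij rfl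

/-- the block part of a matrix -/
noncomputable def RodTau_blk {ι : Type} (c : κ → ι) (a : Matrix κ κ F) : Matrix κ κ F :=
  open Classical in Matrix.of fun i j => if c i = c j then a i j else 0

theorem RodTau_blk_mul {ι ι' : Type} (c : κ → ι) (cb : κ → ι') (o : κ → ℤ)
    (h : ∀ i j, c i = c j ↔ cb i = cb j ∧ o i = o j) (a b : GL κ F) (ha : a ∈ upp F cb o)
    (hb : b ∈ upp F cb o) :
    RodTau_blk c (a : Matrix κ κ F) * RodTau_blk c (b : Matrix κ κ F) =
      RodTau_blk c ((a : Matrix κ κ F) * (b : Matrix κ κ F)) := by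
  classical
  ext i j
  rw [Matrix.mul_apply]
  simp only [RodTau_blk, Matrix.of_apply]
  by_cases hij : c i = c j
  · rw [if_pos hij, Matrix.mul_apply]
    refine Finset.sum_congr rfl fun k _ => ?_
    by_cases hik : c i = c k
    · rw [if_pos hik, if_pos (hik.symm.trans hij)]
    · rw [if_neg hik, zero_mul]
      by_cases hb1 : cb i = cb k
      · have ho : o i ≠ o k := fun h' => hik ((h i k).2 ⟨hb1, h'⟩)
        have hoj := ((h i j).1 hij).2
        rcases lt_or_gt_of_ne ho with h1 | h1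
        · rw [hb.2 k j (by omega), mul_zero]
        · rw [ha.2 i k h1, zero_mul]
      · rw [ha.1 i k hb1, zero_mul]
  · rw [if_neg hij]
    refine Finset.sum_eq_zero fun k _ => ?_
    by_cases hik : c i = c k
    · rw [if_neg (fun h' => hij (hik.trans h')), mul_zero]
    · rw [if_neg hik, zero_mul]

theorem RodTau_blk_one {ι : Type} (c : κ → ι) :
    RodTau_blk c (1 : Matrix κ κ F) = 1 := by
  classical
  ext i j
  simp only [RodTau_blk, Matrix.of_apply]
  by_cases hij : i = j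
  · subst hij
    rw [if_pos rfl]
  · rw [Matrix.one_apply_ne hij]
    simp

theorem RodTau_decomp_aux {ι ι' : Type} (c : κ → ι) (cb : κ → ι') (o : κ → ℤ)
    (h : ∀ i j, c i = c j ↔ cb i = cb j ∧ o i = o j) (g : GL κ F) (hg : g ∈ upp F cb o) :
    ∃ m ∈ lev F c, ∃ n ∈ uni F cb o, g = m * n ∧
      ∀ i j, c i = c j → (m : Matrix κ κ F) i j = (g : Matrix κ κ F) i j := by
  classical
  have hgi : g⁻¹ ∈ upp F cb o := (upp F cb o).inv_mem hg
  have h1 : (g : Matrix κ κ F) * ((g⁻¹ : GL κ F) : Matrix κ κ F) = 1 := by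
    rw [← Units.val_mul]
    simp
  have h2 : ((g⁻¹ : GL κ F) : Matrix κ κ F) * (g : Matrix κ κ F) = 1 := by
    rw [← Units.val_mul]
    simp
  set m : GL κ F :=
    { val := RodTau_blk c (g : Matrix κ κ F)
      inv := RodTau_blk c ((g⁻¹ : GL κ F) : Matrix κ κ F)
      val_inv := by rw [RodTau_blk_mul c cb o h g g⁻¹ hg hgi, h1, RodTau_blk_one]
      inv_val := by rw [RodTau_blk_mul c cb o h g⁻¹ g hgi hg, h2, RodTau_blk_one] } with hmdef
  have hmv : ∀ i j, (m : Matrix κ κ F) i j = if c i = c j then (g : Matrix κ κ F) i j else 0 := by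
    intro i j
    rfl
  have hm : m ∈ lev F c := by
    intro i j hij
    rw [hmv, if_neg hij]
  have hmi : m⁻¹ ∈ lev F c := (lev F c).inv_mem hm
  refine ⟨m, hm, m⁻¹ * g, ⟨(upp F cb o).mul_mem (RodTau_lev_le_upp c cb o h hmi) hg,
    fun i j hij => ?_⟩, by group, fun i j hij => by rw [hmv, if_pos hij]⟩
  have h3 : ((m⁻¹ * g : GL κ F) : Matrix κ κ F) =
      1 + ((m⁻¹ : GL κ F) : Matrix κ κ F) * ((g : Matrix κ κ F) - (m : Matrix κ κ F)) := by
    have h4 : ((m⁻¹ : GL κ F) : Matrix κ κ F) * (m : Matrix κ κ F) = 1 := by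
      rw [← Units.val_mul]
      simp
    rw [mul_sub, h4, Units.val_mul]
    abel
  rw [h3, Matrix.add_apply, Matrix.mul_apply, Finset.sum_eq_zero, add_zero]
  intro k _
  by_cases hik : c i = c k
  · have h5 := ((h i k).1 hik).2
    rw [Matrix.sub_apply, hmv]
    by_cases hkj : c k = c j
    · rw [if_pos hkj, sub_self, mul_zero]
    · rw [if_neg hkj, sub_zero, hg.1 k j, mul_zero]
      intro h6
      exact hkj ((h k j).2 ⟨h6, by omega⟩)
  · rw [hmi i k hik, zero_mul]

/-- every element of `upp` is a product `m n` -/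
theorem RodTau_decomp {ι ι' : Type} (c : κ → ι) (cb : κ → ι') (o : κ → ℤ)
    (h : ∀ i j, c i = c j ↔ cb i = cb j ∧ o i = o j) (g : GL κ F) :
    g ∈ upp F cb o ↔ ∃ m ∈ lev F c, ∃ n ∈ uni F cb o, g = m * n := by
  constructor
  · intro hg
    obtain ⟨m, hm, n, hn, h1, _⟩ := RodTau_decomp_aux c cb o h g hg
    exact ⟨m, hm, n, hn, h1⟩
  · rintro ⟨m, hm, n, hn, rfl⟩
    exact (upp F cb o).mul_mem (RodTau_lev_le_upp c cb o h hm) hn.1

end Alg

theorem RodTau_mu {m u : GL (Fin n) F} (hm : m ∈ lev F (blk n d)) (hu : u ∈ UU F n d)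
    {i j : Fin n} (hij : blk n d i = blk n d j) :
    (m * u : GL (Fin n) F).1 i j = m.1 i j := by
  rw [Units.val_mul, Matrix.mul_apply, Finset.sum_eq_single j]
  · have h1 := hu.2 j j rfl
    rw [Matrix.one_apply_eq] at h1
    have h2 : (u : Matrix (Fin n) (Fin n) F) j j = 1 := h1
    rw [h2, mul_one]
  · intro k _ hk
    by_cases h : blk n d i = blk n d k
    · have h1 : od n d k = od n d j := ((blk_iff n d k j).1 (h.symm.trans hij)).2
      have h2 := hu.2 k j h1
      rw [Matrix.one_apply_ne hk] at h2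
      have h3 : (u : Matrix (Fin n) (Fin n) F) k j = 0 := h2
      rw [h3, mul_zero]
    · have h1 : (m : Matrix (Fin n) (Fin n) F) i k = 0 := hm i k h
      rw [h1, zero_mul]
  · intro h
    exact absurd (Finset.mem_univ j) h

theorem RodTau_um {m u : GL (Fin n) F} (hm : m ∈ lev F (blk n d)) (hu : u ∈ UU F n d)
    {i j : Fin n} (hij : blk n d i = blk n d j) :
    (u * m : GL (Fin n) F).1 i j = m.1 i j := by
  rw [Units.val_mul, Matrix.mul_apply, Finset.sum_eq_single i]
  · have h1 := hu.2 i i rfl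
    rw [Matrix.one_apply_eq] at h1
    have h2 : (u : Matrix (Fin n) (Fin n) F) i i = 1 := h1
    rw [h2, one_mul]
  · intro k _ hk
    by_cases h : blk n d k = blk n d j
    · have h1 : od n d i = od n d k := ((blk_iff n d i k).1 (hij.trans h.symm)).2
      have h2 := hu.2 i k h1
      rw [Matrix.one_apply_ne (Ne.symm hk)] at h2
      have h3 : (u : Matrix (Fin n) (Fin n) F) i k = 0 := h2
      rw [h3, zero_mul]
    · have h1 : (m : Matrix (Fin n) (Fin n) F) k j = 0 := hm k j h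
      rw [h1, mul_zero]
  · intro h
    exact absurd (Finset.mem_univ i) h

theorem tauOf_eq (σ : Representation ℂ (lev F (blk n d)) W) (m : lev F (blk n d))
    (u : GL (Fin n) F) (hu : u ∈ UU F n d) : tauOf σ (m.1 * u) = σ m := by
  classical
  have h : ∃ m' : lev F (blk n d), ∃ u' ∈ UU F n d, m.1 * u = m'.1 * u' := ⟨m, u, hu, rfl⟩
  have h1 : tauOf σ (m.1 * u) = σ h.choose := by
    unfold tauOf
    rw [dif_pos h]
  rw [h1]
  obtain ⟨u', hu', he⟩ := h.choose_spec
  generalize h.choose = m' at he ⊢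
  have h2 : m'.1⁻¹ * m.1 = u' * u⁻¹ := by
    rw [eq_mul_inv_iff_mul_eq, mul_assoc, he, inv_mul_cancel_left]
  have h3 : m'.1⁻¹ * m.1 ∈ lev F (blk n d) :=
    (lev F (blk n d)).mul_mem ((lev F (blk n d)).inv_mem m'.2) m.2
  have h4 : m'.1⁻¹ * m.1 ∈ UU F n d := by
    rw [h2]
    exact (UU F n d).mul_mem hu' ((UU F n d).inv_mem hu)
  have h5 := RodTau_disj (blk n d) (one n) (od n d) (blk_iff n d) _ h3 h4
  have h6 : m'.1 = m.1 := by
    rw [inv_mul_eq_one] at h5
    exact h5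
  rw [Subtype.ext h6]

theorem mem_PP (g : GL (Fin n) F) :
    g ∈ PP F n d ↔ ∃ m : lev F (blk n d), ∃ u ∈ UU F n d, g = m.1 * u := by
  rw [RodTau_decomp (blk n d) (one n) (od n d) (blk_iff n d) g]
  constructor
  · rintro ⟨m, hm, u, hu, h⟩
    exact ⟨⟨m, hm⟩, u, hu, h⟩
  · rintro ⟨m, u, hu, h⟩
    exact ⟨m.1, m.2, u, hu, h⟩

theorem RodTau_mul (σ : Representation ℂ (lev F (blk n d)) W) :
    ∀ p ∈ PP F n d, ∀ q ∈ PP F n d, tauOf σ (p * q) = tauOf σ p ∘ₗ tauOf σ q := by
  intro p hp q hq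
  obtain ⟨m, u, hu, rfl⟩ := (mem_PP p).1 hp
  obtain ⟨m', u', hu', rfl⟩ := (mem_PP q).1 hq
  have h1 : m.1 * u * (m'.1 * u') = (m * m').1 * ((m'.1⁻¹ * u * m'.1⁻¹⁻¹) * u') := by
    rw [Subgroup.coe_mul]
    group
  have h2 : m'.1⁻¹ * u * m'.1⁻¹⁻¹ ∈ UU F n d :=
    RodTau_norm (blk n d) (one n) (od n d) (blk_iff n d) _ _
      ((lev F (blk n d)).inv_mem m'.2) hu
  rw [h1, tauOf_eq σ _ _ ((UU F n d).mul_mem h2 hu'), tauOf_eq σ m u hu, tauOf_eq σ m' u' hu',
    map_mul]
  rfl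

theorem RodTau_closed [TopologicalSpace F] [IsTopologicalRing F] [T2Space F] :
    IsClosed (PP F n d : Set (GL (Fin n) F)) := by
  have h : (PP F n d : Set (GL (Fin n) F)) =
      ⋂ i, ⋂ j, ⋂ (_ : od n d j < od n d i), {g : GL (Fin n) F | g.1 i j = 0} := by
    ext g
    simp only [Set.mem_iInter]
    constructor
    · intro hg i j hij
      exact hg.2 i j hij
    · intro hg
      exact ⟨fun i j hij => absurd rfl hij, fun i j hij => hg i j hij⟩
  rw [h]
  exact isClosed_iInter fun i => isClosed_iInter fun j => isClosed_iInter fun _ =>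
    isClosed_eq (PC.GK.GLAlg_cont_val i j) continuous_const

/-- the block diagonal part of a matrix -/
def RodTau_B (n d : ℕ) (A : Matrix (Fin n) (Fin n) F) : Matrix (Fin n) (Fin n) F :=
  Matrix.of fun i j => if blk n d i = blk n d j then A i j else 0

theorem RodTau_B_one : RodTau_B n d (1 : Matrix (Fin n) (Fin n) F) = 1 := by
  ext i j
  unfold RodTau_B
  rw [Matrix.of_apply]
  by_cases h : i = j
  · subst h
    rw [if_pos rfl]
  · rw [Matrix.one_apply_ne h]
    split_ifs <;> rfl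

theorem RodTau_B_cont [TopologicalSpace F] :
    Continuous (RodTau_B n d : Matrix (Fin n) (Fin n) F → Matrix (Fin n) (Fin n) F) := by
  refine continuous_matrix fun i j => ?_
  unfold RodTau_B
  by_cases h : blk n d i = blk n d j
  · simp only [Matrix.of_apply, if_pos h]
    exact (continuous_apply j).comp (continuous_apply i)
  · simp only [Matrix.of_apply, if_neg h]
    exact continuous_const

theorem RodTau_B_val {m u : GL (Fin n) F} (hm : m ∈ lev F (blk n d)) (hu : u ∈ UU F n d) :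
    RodTau_B n d (m * u : GL (Fin n) F).1 = m.1 := by
  ext i j
  unfold RodTau_B
  rw [Matrix.of_apply]
  by_cases h : blk n d i = blk n d j
  · rw [if_pos h]
    exact RodTau_mu hm hu h
  · rw [if_neg h]
    exact (hm i j h).symm

theorem RodTau_B_inv {m u : GL (Fin n) F} (hm : m ∈ lev F (blk n d)) (hu : u ∈ UU F n d) :
    RodTau_B n d (m * u : GL (Fin n) F)⁻¹.1 = m⁻¹.1 := by
  have hm' := (lev F (blk n d)).inv_mem hm
  have hu' := (UU F n d).inv_mem hu
  have h1 : (m * u)⁻¹ = u⁻¹ * m⁻¹ := mul_inv_rev m u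
  rw [h1]
  ext i j
  unfold RodTau_B
  rw [Matrix.of_apply]
  by_cases h : blk n d i = blk n d j
  · rw [if_pos h]
    exact RodTau_um hm' hu' h
  · rw [if_neg h]
    exact (hm' i j h).symm

theorem RodTau_loc [TopologicalSpace F] [IsTopologicalRing F]
    (σ : Representation ℂ (lev F (blk n d)) W) (hσ : IsSm σ) (v : W) :
    ∃ U ∈ 𝓝 (1 : GL (Fin n) F), ∀ p ∈ PP F n d, p ∈ U → tauOf σ p v = v := by
  have h1 := hσ v
  obtain ⟨O, hO, hO'⟩ := isOpen_induced_iff.1 h1
  have h1O : (1 : GL (Fin n) F) ∈ O := by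
    have h2 : (1 : lev F (blk n d)) ∈ Subtype.val ⁻¹' O := by
      rw [hO']
      show σ 1 v = v
      rw [map_one]
      rfl
    exact h2
  obtain ⟨Wt, hWt, hWt'⟩ := isOpen_induced_iff.1 hO
  refine ⟨(fun g : GL (Fin n) F => (RodTau_B n d g.1, MulOpposite.op (RodTau_B n d g⁻¹.1))) ⁻¹' Wt,
    ?_, ?_⟩
  · refine (hWt.preimage ?_).mem_nhds ?_
    · refine Continuous.prodMk (RodTau_B_cont.comp Units.continuous_val) ?_
      exact MulOpposite.continuous_op.comp
        (RodTau_B_cont.comp (Units.continuous_val.comp continuous_inv))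
    · show (RodTau_B n d (1 : GL (Fin n) F).1, MulOpposite.op (RodTau_B n d (1 : GL (Fin n) F)⁻¹.1))
        ∈ Wt
      rw [inv_one, Units.val_one, RodTau_B_one]
      have h2 : (1 : GL (Fin n) F) ∈ (Units.embedProduct _) ⁻¹' Wt := by
        rw [hWt']
        exact h1O
      exact h2
  · intro p hp hpU
    obtain ⟨m, u, hu, rfl⟩ := (mem_PP p).1 hp
    rw [tauOf_eq σ m u hu]
    have h2 : (RodTau_B n d (m.1 * u : GL (Fin n) F).1,
        MulOpposite.op (RodTau_B n d (m.1 * u : GL (Fin n) F)⁻¹.1)) ∈ Wt := hpU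
    rw [RodTau_B_val m.2 hu, RodTau_B_inv m.2 hu] at h2
    have h3 : m.1 ∈ O := by
      rw [← hWt']
      exact h2
    have h4 : m ∈ {g : lev F (blk n d) | σ g v = v} := by
      rw [← hO']
      exact h3
    exact h4

theorem rodData [TopologicalSpace F] [IsTopologicalRing F] [T2Space F] (dF : LFData F)
    (hI : ∃ C : Set (GL (Fin n) F), IsCompact C ∧ ∀ g, ∃ p ∈ PP F n d, ∃ c ∈ C, g = p * c)
    (ψ : AddChar F ℂ) (h2 : ∃ U ∈ 𝓝 (0 : F), ∀ x ∈ U, ψ x = 1)
    (σ : Representation ℂ (lev F (blk n d)) W) (hσ : IsSm σ) :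
    RData (PP F n d) (NN F n) (tauOf σ) (psi ψ) where
  P_closed := RodTau_closed
  N_closed := PC.GK.NN_closed
  τ_mul := RodTau_mul σ
  τ_one := by
    have h1 := tauOf_eq σ (1 : lev F (blk n d)) 1 (UU F n d).one_mem
    rw [Subgroup.coe_one, mul_one] at h1
    rw [h1, map_one]
    rfl
  τ_loc := RodTau_loc σ hσ
  χ_mul := PC.GK.psi_mul ψ
  χ_one := PC.GK.psi_one ψ
  χ_loc := PC.GK.psi_loc ψ h2
  cpt := hI
  exh := by
    intro C hC hCN
    obtain ⟨N', hN', hC'⟩ := PC.GK.exh_NN dF C hC hCN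
    exact ⟨N', hN'.1, hN'.2.1, hC'⟩

theorem ind_iff [TopologicalSpace F]
    (σ : Representation ℂ (lev F (blk n d)) W) (f : GL (Fin n) F → W) :
    IsInd (PP F n d) (tauOf σ) f ↔
      (∀ (m : lev F (blk n d)) (u : GL (Fin n) F), u ∈ UU F n d → ∀ g,
        f (m.1 * u * g) = σ m (f g)) ∧
      ∃ U : Subgroup (GL (Fin n) F), IsOpen (U : Set (GL (Fin n) F)) ∧
        ∀ g, ∀ u ∈ U, f (g * u) = f g := by
  constructor
  · rintro ⟨h1, h2⟩
    refine ⟨fun m u hu g => ?_, h2⟩
    rw [h1 _ ((mem_PP _).2 ⟨m, u, hu, rfl⟩) g, tauOf_eq σ m u hu]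
  · rintro ⟨h1, h2⟩
    refine ⟨fun p hp g => ?_, h2⟩
    obtain ⟨m, u, hu, rfl⟩ := (mem_PP p).1 hp
    rw [h1 m u hu g, tauOf_eq σ m u hu]

end PC.D4
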