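import Mathlib
import Pool.Agent.Lib.MP_ca1492_al.D4.Bruhat
import Pool.Agent.Lib.MP_ca1492_al.D4.GLTop
import Pool.Agent.Lib.MP_ca1492_al.D4.LF
import Pool.Agent.Lib.MP_ca1492_al.D4.RodCell
import Pool.Agent.Lib.MP_ca1492_al.D4.RodComb
import Pool.Agent.Lib.MP_ca1492_al.D4.RodMain
import Pool.Agent.Lib.MP_ca1492_al.D4.RodTau
import Pool.Agent.Lib.MP_ca1492_al.D4.WhDefs
import Pool.Agent.Lib.MP_ca1492_al.P.Iwasawa

/-!
# MP_ca1492_al, D4, Rodier: Whittaker functionals on representations induced from two blocks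
-/

open Topology Pool.Agent.Lib.MP_ca1492_al.P

namespace PC.D4

open PC.GK (NN sg psi pm LFData)

variable {F : Type} [Field F] [ValuativeRel F] [TopologicalSpace F]
  [IsNonarchimedeanLocalField F] {n d : ℕ} {W : Type} [AddCommGroup W] [Module ℂ W]

/-- the functions on `GL (Fin n) F` of the induced representation -/
def toFn (σ : Representation ℂ (lev F (blk n d)) W) :
    (D2 F n d).IndSp σ →ₗ[ℂ] (GL (Fin n) F → W) where
  toFun f := fun g => f.1 (toTop g)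
  map_add' _ _ := rfl
  map_smul' _ _ := rfl

theorem toFn_inj (σ : Representation ℂ (lev F (blk n d)) W) : Function.Injective (toFn σ) := by
  intro f f' h
  apply Subtype.ext
  funext g
  exact congrFun h g.1

theorem toFn_isInd (σ : Representation ℂ (lev F (blk n d)) W) (f : (D2 F n d).IndSp σ) :
    IsInd (PP F n d) (tauOf σ) (toFn σ f) := by
  rw [ind_iff]
  obtain ⟨h1, U, hU, h2⟩ := f.2
  refine ⟨fun m u hu g => h1 m.1 m.2 u hu (toTop g), U.comap toTop, ?_, fun g u hu => ?_⟩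
  · have hc : Continuous (toTop : GL (Fin n) F → lev F (one n)) :=
      Continuous.subtype_mk continuous_id _
    exact hU.preimage hc
  · show f.1 (toTop (g * u)) = f.1 (toTop g)
    rw [map_mul]
    exact h2 (toTop g) (toTop u) hu

theorem toFn_surj (σ : Representation ℂ (lev F (blk n d)) W) (f : GL (Fin n) F → W)
    (hf : IsInd (PP F n d) (tauOf σ) f) : ∃ f' : (D2 F n d).IndSp σ, toFn σ f' = f := by
  rw [ind_iff] at hf
  obtain ⟨h1, U, hU, h2⟩ := hf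
  refine ⟨⟨fun g => f g.1, fun m hm u hu g => h1 ⟨m, hm⟩ u hu g.1, U.comap (lev F (one n)).subtype,
    hU.preimage continuous_subtype_val, fun g u hu => h2 g.1 u.1 hu⟩, ?_⟩
  funext g
  rfl

theorem toFn_act (σ : Representation ℂ (lev F (blk n d)) W) (f : (D2 F n d).IndSp σ)
    (a : GL (Fin n) F) :
    toFn σ (toGL ((D2 F n d).Ind σ) a f) = fun x => toFn σ f (x * a) := by
  funext g
  rfl

/-- Rodier's theorem for two blocks -/
theorem rodier (hd : d ≤ n) (ψ : AddChar F ℂ) (h1 : ∃ x, ψ x ≠ 1)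
    (h2 : ∃ U ∈ 𝓝 (0 : F), ∀ x ∈ U, ψ x = 1)
    (σ : Representation ℂ (lev F (blk n d)) W) (hσ : IsSm σ)
    (hW : ∀ m₁ m₂ : W →ₗ[ℂ] ℂ,
      (∀ b ∈ NN F n ⊓ lev F (blk n (n - d)), ∀ v,
        m₁ (tauOf σ (pm F (wsw n d hd) * b * (pm F (wsw n d hd))⁻¹) v) = psi ψ b * m₁ v) →
      (∀ b ∈ NN F n ⊓ lev F (blk n (n - d)), ∀ v,
        m₂ (tauOf σ (pm F (wsw n d hd) * b * (pm F (wsw n d hd))⁻¹) v) = psi ψ b * m₂ v) →
      ∃ c₁ c₂ : ℂ, (c₁ ≠ 0 ∨ c₂ ≠ 0) ∧ ∀ v, c₁ * m₁ v + c₂ * m₂ v = 0)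
    (l₁ l₂ : (D2 F n d).IndSp σ →ₗ[ℂ] ℂ)
    (hl₁ : Wh (toGL ((D2 F n d).Ind σ)) (NN F n) (psi ψ) l₁)
    (hl₂ : Wh (toGL ((D2 F n d).Ind σ)) (NN F n) (psi ψ) l₂) :
    ∃ c₁ c₂ : ℂ, (c₁ ≠ 0 ∨ c₂ ≠ 0) ∧ ∀ f, c₁ * l₁ f + c₂ * l₂ f = 0 := by
  classical
  have hT2 : T2Space F := PC.GK.t2_of_local F
  obtain ⟨dF⟩ := PC.GK.exists_LFData F
  have := PC.GK.gl_t2 (F := F) n
  have := PC.GK.gl_lc dF n
  have := PC.GK.gl_sc dF n
  have := PC.GK.gl_na dF n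
  have hI : ∃ C : Set (GL (Fin n) F), IsCompact C ∧
      ∀ g, ∃ p ∈ PP F n d, ∃ c ∈ C, g = p * c := by
    refine ⟨Kc F (Fin n) 0, Kc_isCompact 0, fun g => ?_⟩
    obtain ⟨p, hp, k, hk, _, e⟩ := iwasawa (one n) (od n d) g (fun _ _ h => absurd rfl h)
    exact ⟨p, hp, k, hk, e⟩
  have D := rodData dF hI ψ h2 σ hσ
  obtain ⟨c⟩ := rodCell (F := F) n d hd
  -- extension of functionals
  have hext : ∀ l : (D2 F n d).IndSp σ →ₗ[ℂ] ℂ,
      Wh (toGL ((D2 F n d).Ind σ)) (NN F n) (psi ψ) l →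
      ∃ L : (GL (Fin n) F → W) →ₗ[ℂ] ℂ, WhInd (PP F n d) (NN F n) (tauOf σ) (psi ψ) L ∧
        ∀ f, L (toFn σ f) = l f := by
    intro l hl
    obtain ⟨r, hr⟩ := LinearMap.exists_leftInverse_of_injective (toFn σ)
      (LinearMap.ker_eq_bot.2 (toFn_inj σ))
    have hL : ∀ f, (l ∘ₗ r) (toFn σ f) = l f := by
      intro f
      have := LinearMap.congr_fun hr f
      simp only [LinearMap.comp_apply, LinearMap.id_apply] at this ⊢
      rw [this]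
    refine ⟨l ∘ₗ r, ?_, hL⟩
    intro f hf a ha
    obtain ⟨f', rfl⟩ := toFn_surj σ f hf
    rw [← toFn_act, hL, hL]
    exact hl a ha f'
  obtain ⟨L₁, hL₁, e₁⟩ := hext l₁ hl₁
  obtain ⟨L₂, hL₂, e₂⟩ := hext l₂ hl₂
  obtain ⟨c₁, c₂, hc, h0⟩ := rod_main D c (Finset.univ.image (pm F))
    (fun g => by
      obtain ⟨v, b, hb, a, ha, e⟩ := PC.GK.bruhat g
      exact ⟨pm F v, by simp, b, BB_le_PP n d hb, a, ha, e⟩)
    (fun x hx => by
      obtain ⟨v, _, rfl⟩ := Finset.mem_image.1 hx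
      rcases rod_comb n d hd ψ h1 v with h | ⟨u, hu, hu', hu''⟩
      · exact Or.inl h
      · refine Or.inr ⟨u, hu, hu'.1, ?_, hu''⟩
        have := tauOf_eq σ 1 _ hu'
        rw [OneMemClass.coe_one, one_mul] at this
        rw [this, map_one]
        rfl)
    hW L₁ L₂ hL₁ hL₂
  refine ⟨c₁, c₂, hc, fun f => ?_⟩
  rw [← e₁, ← e₂]
  exact h0 _ (toFn_isInd σ f)

end PC.D4
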