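import Mathlib
import Pool.Agent.Lib.MP_ca1492_al.D4.Delta
import Pool.Agent.Lib.MP_ca1492_al.D4.TwoE

/-!
# MP_ca1492_al, D4, SelfA: equal central characters, the degenerate subquotients

`n = d + d`, `ρ` with `ρ (zz true) = ρ (zz false) = k`. On the Jacquet module of `XnS true ρ` the matrix
`zz true` acts with the only generalised eigenvalue `dlh (zz true) * k`; the same for the dual with
`k⁻¹`. By `pos_gen` no nonzero subquotient of `XnS true ρ` is degenerate.
-/

open Topology Pool.Agent.Lib.MP_ca1492_al.P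

namespace PC.D4

noncomputable section

variable {F : Type} [Field F] [ValuativeRel F] [TopologicalSpace F]
  [IsNonarchimedeanLocalField F]
variable {n d : ℕ} {W W' : Type} [AddCommGroup W] [Module ℂ W] [AddCommGroup W'] [Module ℂ W']

/-- the generalised eigenvalue of `zz true` -/
theorem sq_kerJ (hd1 : 1 ≤ d) (hd : d ≤ n) (hn : n = d + d)
    (ρ : Representation ℂ (lev F (blk n d)) W) (hρ : IsSm ρ) (hc : Cusp (blk n d) ρ) (k : ℂ)
    (hk : ∀ t v, ρ (zz F n d t) v = k • v) (f : XnS true ρ) :
    toGL (InS true ρ) (zz F n d true).1 (toGL (InS true ρ) (zz F n d true).1 f) -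
      (2 * ((dlh (blk n d) (one n) (odS n d true) (blkS_iff n d true) (zz F n d true) : ℂ) * k)) •
        toGL (InS true ρ) (zz F n d true).1 f +
      ((dlh (blk n d) (one n) (odS n d true) (blkS_iff n d true) (zz F n d true) : ℂ) * k) ^ 2 • f
      ∈ (DS F n d true).kerJ (InS true ρ) := by
  obtain ⟨Λ, h1, h2, h3⟩ := TwoE_lam hd1 hd hn true ρ hρ hc
  set c : ℂ := (dlh (blk n d) (one n) (odS n d true) (blkS_iff n d true) (zz F n d true) : ℂ) * k
    with hcdef
  set P := toGL (InS true ρ) (zz F n d true).1 with hP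
  have hzP : ∀ g, InS true ρ ⟨(zz F n d true).1, (DS F n d true).hM (zz F n d true).2⟩ g = P g :=
    fun g => rfl
  have ev1 : ∀ g, evS true ρ (P g) = c • evS true ρ g := by
    intro g
    have := evS_equi true ρ (zz F n d true) g
    refine this.trans ?_
    show (dlh (blk n d) (one n) (odS n d true) (blkS_iff n d true) (zz F n d true) : ℂ) •
      ρ (zz F n d true) (evS true ρ g) = c • evS true ρ g
    rw [hk, smul_smul]
  have hm : (zz F n d false).1 = permG F (wsw n d hd) * (zz F n d true).1 *
      (permG F (wsw n d hd))⁻¹ := by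
    have := zz_conj (F := F) hd hn false
    rw [← this]
    show (wG F n d hd)⁻¹ * _ * wG F n d hd = _
    rw [Delta_wG, inv_inv]
  have la : ∀ g, evS true ρ g = 0 → Λ (P g) = c • Λ g := by
    intro g hg
    obtain ⟨a, -, ha, h4⟩ := h3 g (zz F n d true) (zz F n d false) hm hg
    rw [hzP] at h4
    rw [h4]
    show a • ((dlh (blk n d) (one n) (odS n d true) (blkS_iff n d true) (zz F n d false) : ℂ) •
      ρ (zz F n d false) (Λ g)) = c • Λ g
    rw [hk, smul_smul, smul_smul, ha]
  have e0 : evS true ρ (P f - c • f) = 0 := by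
    rw [map_sub, map_smul, ev1, sub_self]
  have e1 : evS true ρ (P (P f - c • f) - c • (P f - c • f)) = 0 := by
    rw [map_sub, map_smul, ev1, sub_self]
  have e2 : Λ (P (P f - c • f) - c • (P f - c • f)) = 0 := by
    rw [map_sub, map_smul, la _ e0, sub_self]
  have e3 := (h2 _ e1).1 e2
  have e4 : P (P f) - (2 * c) • P f + c ^ 2 • f = P (P f - c • f) - c • (P f - c • f) := by
    rw [map_sub, map_smul, smul_sub, smul_smul, two_mul, add_smul, pow_two]
    abel
  rw [e4]
  exact e3

end

end PC.D4
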