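import Mathlib
import Pool.Agent.Lib.MP_ca1492_al.D4.DPRk
import Pool.Agent.Lib.MP_ca1492_al.D4.Delta

/-!
# MP_ca1492_al, D4, SelfB: no degenerate subquotients, irreducibility
-/

open Topology Pool.Agent.Lib.MP_ca1492_al.P

namespace PC.D4

noncomputable section

section Abs

variable {G : Type} [Group G] [TopologicalSpace G] [IsTopologicalGroup G]
  {V V' : Type} [AddCommGroup V] [Module ℂ V] [AddCommGroup V'] [Module ℂ V']

/-- the annihilator of a subspace -/
def perp (b : V →ₗ[ℂ] V' →ₗ[ℂ] ℂ) (U : Submodule ℂ V) : Submodule ℂ V' where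
  carrier := {v' | ∀ u ∈ U, b u v' = 0}
  add_mem' := by
    intro x y hx hy u hu
    rw [map_add, hx u hu, hy u hu, add_zero]
  zero_mem' := fun u _ => map_zero _
  smul_mem' := by
    intro c x hx u hu
    rw [map_smul, hx u hu, smul_zero]

theorem perp_stab (π : Representation ℂ G V) (π' : Representation ℂ G V')
    (b : V →ₗ[ℂ] V' →ₗ[ℂ] ℂ) (hb : Pai π π' b) (U : Submodule ℂ V) (hU : Stab π U) :
    Stab π' (perp b U) := by
  intro g v' hv' u hu
  have h1 := hb.inv g (π g⁻¹ u) v'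
  rw [← Module.End.mul_apply, ← map_mul, mul_inv_cancel, map_one, Module.End.one_apply] at h1
  rw [h1]
  exact hv' _ (hU _ u hu)

/-- the pairing of the quotient with the annihilator -/
def bq (b : V →ₗ[ℂ] V' →ₗ[ℂ] ℂ) (U : Submodule ℂ V) : (V ⧸ U) →ₗ[ℂ] perp b U →ₗ[ℂ] ℂ :=
  U.liftQ (b.compl₂ (perp b U).subtype) (by
    intro u hu
    rw [LinearMap.mem_ker]
    ext x
    exact x.2 u hu)

theorem bq_mk (b : V →ₗ[ℂ] V' →ₗ[ℂ] ℂ) (U : Submodule ℂ V) (v : V) (v' : perp b U) :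
    bq b U (U.mkQ v) v' = b v v'.1 := rfl

theorem bq_inv (π : Representation ℂ G V) (π' : Representation ℂ G V')
    (b : V →ₗ[ℂ] V' →ₗ[ℂ] ℂ) (hb : Pai π π' b) (U : Submodule ℂ V) (hU : Stab π U) (g : G)
    (v : V ⧸ U) (v' : perp b U) :
    bq b U (quoRep π U hU g v) (subRep π' (perp b U) (perp_stab π π' b hb U hU) g v') =
      bq b U v v' := by
  obtain ⟨v, rfl⟩ := U.mkQ_surjective v
  exact hb.inv g v v'.1

/-- the left kernel of the pairing of the quotient is zero -/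
theorem bq_left (hB : HasCO G) (π : Representation ℂ G V) (π' : Representation ℂ G V')
    (hπ : IsSm π) (hπ' : IsSm π') (ha : Adm π) (b : V →ₗ[ℂ] V' →ₗ[ℂ] ℂ) (hb : Pai π π' b)
    (U : Submodule ℂ V) (hU : Stab π U) (v : V ⧸ U) (h : ∀ v', bq b U v v' = 0) : v = 0 := by
  by_contra h0
  have hq : IsSm (quoRep π U hU) := smooth_quo π hπ U hU
  obtain ⟨l, hl⟩ := dual_sep hB (quoRep π U hU) hq v h0
  obtain ⟨v, rfl⟩ := U.mkQ_surjective v
  have hm : (l.1 ∘ₗ U.mkQ : Module.Dual ℂ V) ∈ dualSp π := by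
    obtain ⟨K, hK, hl2⟩ := l.2
    exact ⟨K, hK, fun k hk w => hl2 k hk (U.mkQ w)⟩
  obtain ⟨v', hv'⟩ := pai_surj hB π π' hπ hπ' ha b hb ⟨_, hm⟩
  have hv'p : v' ∈ perp b U := by
    intro u hu
    rw [← hv']
    show l.1 (U.mkQ u) = 0
    rw [(Submodule.Quotient.mk_eq_zero U).2 hu |> fun h => (h : U.mkQ u = 0), map_zero]
  apply hl
  have := h ⟨v', hv'p⟩
  rw [bq_mk, ← hv'] at this
  exact this

end Abs

variable {F : Type} [Field F] [ValuativeRel F] [TopologicalSpace F]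
  [IsNonarchimedeanLocalField F]
variable {n d : ℕ} {W W' : Type} [AddCommGroup W] [Module ℂ W] [AddCommGroup W'] [Module ℂ W']

/-- the absolute value of the determinant of `zz true` is not `1` -/
theorem zz_nrm (hd1 : 1 ≤ d) (hd : d ≤ n) (hn : n = d + d) :
    PC.DP.nrm F (zz F n d true).1.val.det ≠ 1 := by
  have h1 : ordF F (zz F n d true).1.val.det = d := by
    rw [← Delta_vl_true zz_GG]
    exact (zz_vl hd hn true).1
  have hdet : (zz F n d true).1.val.det ≠ 0 := by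
    have := (zz F n d true).1.isUnit
    rw [Matrix.isUnit_iff_isUnit_det] at this
    exact this.ne_zero
  unfold PC.DP.nrm
  rw [if_neg hdet, h1]
  have hq : (1 : ℝ) < (qF F : ℝ) := by exact_mod_cast one_lt_qF (F := F)
  have h2 : ((qF F : ℝ)) ^ (-(d : ℤ)) < 1 := by
    rw [zpow_neg, zpow_natCast]
    exact inv_lt_one_of_one_lt₀ (one_lt_pow₀ hq (by omega))
  exact h2.ne

/-- the numerical contradiction -/
theorem self_num (hd1 : 1 ≤ d) (hd : d ≤ n) (hn : n = d + d) (k k' : ℂ) (hkk : k * k' = 1)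
    (h : ((dlh (blk n d) (one n) (odS n d true) (blkS_iff n d true) (zz F n d true) : ℂ) * k) *
      ((dlh (blk n d) (one n) (odS n d true) (blkS_iff n d true) (zz F n d true) : ℂ) * k') =
      ((PC.DP.nrm F (zz F n d true).1.val.det : ℝ) : ℂ) ^ (n - (d + 1))) : False := by
  have hsq := dlh_sq (blk n d) (one n) (odS n d true) (blkS_iff n d true) (zz F n d true)
  have hsq' := congrArg (fun u : ℂˣ => (u : ℂ)) hsq
  simp only [Units.val_mul] at hsq'
  rw [dlt_GG hd (zz F n d true) zz_GG] at hsq'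
  set δ : ℂ := (dlh (blk n d) (one n) (odS n d true) (blkS_iff n d true) (zz F n d true) : ℂ)
  set r := PC.DP.nrm F (zz F n d true).1.val.det with hr
  have h1 : ((r : ℝ) : ℂ) ^ (n - d) = ((r : ℝ) : ℂ) ^ (n - (d + 1)) := by
    rw [← h, ← hsq']
    linear_combination (-δ * δ) * hkk
  have hdet : (zz F n d true).1.val.det ≠ 0 := by
    have := (zz F n d true).1.isUnit
    rw [Matrix.isUnit_iff_isUnit_det] at this
    exact this.ne_zero
  have hne : ((r : ℝ) : ℂ) ≠ 0 := Complex.ofReal_ne_zero.2 (PC.DP.nrm_pos hdet).ne'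
  have e5 : n - d = (n - (d + 1)) + 1 := by omega
  rw [e5, pow_succ] at h1
  have h2 : ((r : ℝ) : ℂ) = 1 := by
    have h3 : ((r : ℝ) : ℂ) ^ (n - (d + 1)) * ((r : ℝ) : ℂ) =
      ((r : ℝ) : ℂ) ^ (n - (d + 1)) * 1 := by rw [h1, mul_one]
    exact mul_left_cancel₀ (pow_ne_zero _ hne) h3
  exact zz_nrm (F := F) hd1 hd hn (by exact_mod_cast h2)

end

end PC.D4
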