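import Mathlib
import Pool.Agent.Lib.MP_ca1492_al.D4.Mk
import Pool.Agent.Lib.MP_ca1492_al.D4.Rodier
import Pool.Agent.Lib.MP_ca1492_al.D4.SelfA
import Pool.Agent.Lib.MP_ca1492_al.D4.SelfB

/-!
# MP_ca1492_al, D4, SelfC: irreducibility for equal central characters
-/

open Topology Pool.Agent.Lib.MP_ca1492_al.P

namespace PC.D4

noncomputable section

variable {F : Type} [Field F] [ValuativeRel F] [TopologicalSpace F]
  [IsNonarchimedeanLocalField F]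
variable {n d : ℕ} {W W' : Type} [AddCommGroup W] [Module ℂ W] [AddCommGroup W'] [Module ℂ W']

section Abs

variable {V V' : Type} [AddCommGroup V] [Module ℂ V] [AddCommGroup V'] [Module ℂ V']

/-- `pos_gen` for a stable subspace -/
theorem pos_gen_sub {ψ : AddChar F ℂ} (hψ : PC.DP.Std ψ) (π : Representation ℂ (GL (Fin n) F) V)
    (π' : Representation ℂ (GL (Fin n) F) V') (hπ : IsSm π) (hπ' : IsSm π')
    (b : V →ₗ[ℂ] V' →ₗ[ℂ] ℂ) (hb : Pai π π' b) (U : Submodule ℂ V) (hU : Stab π U) (h0 : U ≠ ⊥)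
    (hK : PC.DP.KK (V := U) ψ 1 (subRep π U hU) = ⊤) (a : ℕ) (ha : 1 ≤ a) (han : a < n)
    (hT : ∀ m, 1 ≤ m → m < n → m ≠ a → ∀ x, x ∈ PC.DP.KT ψ m π)
    (z : GL (Fin n) F) (hz : z ∈ PC.DP.GG F n a) (c c' : ℂ)
    (h1 : ∀ v, π z (π z v) - (2 * c) • π z v + c ^ 2 • v ∈ PC.DP.KT ψ a π)
    (h2 : ∀ v', π' z (π' z v') - (2 * c') • π' z v' + c' ^ 2 • v' ∈ PC.DP.KT ψ⁻¹ a π') :
    c * c' = ((PC.DP.nrm F z.val.det : ℝ) : ℂ) ^ (n - (a + 1)) := by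
  have hne : ∃ v : U, v ≠ 0 := by
    by_contra h
    push Not at h
    apply h0
    rw [eq_bot_iff]
    intro x hx
    exact (Submodule.mem_bot ℂ).2 (congrArg Subtype.val (h ⟨x, hx⟩))
  refine pos_gen (V := U) hψ (subRep π U hU) π' (smooth_sub π hπ U hU) hπ' (b ∘ₗ U.subtype)
    (fun g v v' => hb.inv g v.1 v') (fun v hv => Subtype.ext (hb.left v.1 hv)) hne hK a ha han
    (fun m hm1 hm2 hm3 => ?_) z hz c c' (fun v => ?_) h2
  · rw [eq_top_iff]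
    intro x _
    exact PC.DP.ex_KT hψ π hπ U hU x (hT m hm1 hm2 hm3 x.1)
  · exact PC.DP.ex_KT hψ π hπ U hU _ (h1 v.1)

/-- `pos_gen` for a quotient -/
theorem pos_gen_quo {ψ : AddChar F ℂ} (hψ : PC.DP.Std ψ) (π : Representation ℂ (GL (Fin n) F) V)
    (π' : Representation ℂ (GL (Fin n) F) V') (hπ : IsSm π) (hπ' : IsSm π') (hadm : Adm π)
    (b : V →ₗ[ℂ] V' →ₗ[ℂ] ℂ) (hb : Pai π π' b) (U : Submodule ℂ V) (hU : Stab π U) (h0 : U ≠ ⊤)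
    (hK : U ⊔ PC.DP.KK ψ 1 π = ⊤) (a : ℕ) (ha : 1 ≤ a) (han : a < n)
    (hT : ∀ m, 1 ≤ m → m < n → m ≠ a → ∀ x, x ∈ PC.DP.KT ψ m π)
    (z : GL (Fin n) F) (hz : z ∈ PC.DP.GG F n a) (c c' : ℂ)
    (h1 : ∀ v, π z (π z v) - (2 * c) • π z v + c ^ 2 • v ∈ PC.DP.KT ψ a π)
    (h2 : ∀ v', π' z (π' z v') - (2 * c') • π' z v' + c' ^ 2 • v' ∈ PC.DP.KT ψ⁻¹ a π') :
    c * c' = ((PC.DP.nrm F z.val.det : ℝ) : ℂ) ^ (n - (a + 1)) := by
  have hmk : Equi π (quoRep π U hU) U.mkQ := fun g v => rfl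
  have hne : ∃ v : V ⧸ U, v ≠ 0 := by
    by_contra h
    push Not at h
    apply h0
    rw [eq_top_iff]
    intro x _
    exact (Submodule.Quotient.mk_eq_zero U).1 (h (Submodule.Quotient.mk x))
  have hpp := perp_stab π π' b hb U hU
  refine pos_gen (V := V ⧸ U) (V' := perp b U) hψ (quoRep π U hU)
    (subRep π' (perp b U) hpp) (smooth_quo _ hπ U hU) (smooth_sub _ hπ' _ hpp) (bq b U)
    (fun g v v' => bq_inv π π' b hb U hU g v v')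
    (fun v hv => bq_left (GL_hasCO F n) π π' hπ hπ' hadm b hb U hU v hv) hne ?_ a ha han ?_
    z hz c c' ?_ ?_
  · rw [eq_top_iff]
    intro v _
    obtain ⟨v, rfl⟩ := U.mkQ_surjective v
    have hv : v ∈ U ⊔ PC.DP.KK ψ 1 π := by
      rw [hK]
      exact Submodule.mem_top
    obtain ⟨u, hu, y, hy, rfl⟩ := Submodule.mem_sup.1 hv
    have e : U.mkQ (u + y) = U.mkQ y := by
      rw [map_add]
      have : U.mkQ u = 0 := (Submodule.Quotient.mk_eq_zero U).2 hu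
      rw [this, zero_add]
    rw [e]
    exact Ksp_map _ _ _ _ U.mkQ hmk y hy
  · intro m hm1 hm2 hm3
    rw [eq_top_iff]
    intro v _
    obtain ⟨v, rfl⟩ := U.mkQ_surjective v
    exact Ksp_map _ _ _ _ U.mkQ hmk v (hT m hm1 hm2 hm3 v)
  · intro v
    obtain ⟨v, rfl⟩ := U.mkQ_surjective v
    exact Ksp_map _ _ _ _ U.mkQ hmk _ (h1 v)
  · intro v'
    exact PC.DP.ex_KT (std_symm hψ) π' hπ' (perp b U) hpp _ (h2 v'.1)

end Abs

/-- a nonzero stable subspace is not degenerate -/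
theorem nondeg_sub {ψ : AddChar F ℂ} (hψ : PC.DP.Std ψ) (hd1 : 1 ≤ d) (hd : d ≤ n)
    (hn : n = d + d) (ρ : Representation ℂ (lev F (blk n d)) W)
    (ρ' : Representation ℂ (lev F (blk n d)) W') (β : W →ₗ[ℂ] W' →ₗ[ℂ] ℂ) (hβ : Pai ρ ρ' β)
    (hρ : IsSm ρ) (hρ' : IsSm ρ') (hc : Cusp (blk n d) ρ) (hc' : Cusp (blk n d) ρ') (k k' : ℂ)
    (hkk : k * k' = 1) (hk : ∀ t v, ρ (zz F n d t) v = k • v)
    (hk' : ∀ t v, ρ' (zz F n d t) v = k' • v) (U : Submodule ℂ (XnS true ρ))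
    (hU : Stab (InS true ρ) U) (h0 : U ≠ ⊥)
    (hD : PC.DP.KK (V := U) ψ 1 (subG (InS true ρ) U hU) = ⊤) : False := by
  exact self_num (F := F) hd1 hd hn k k' hkk (pos_gen_sub hψ (toGL (InS true ρ))
    (toGL (InS true ρ')) (toGL_smooth _ (InS_smooth true ρ))
    (toGL_smooth _ (InS_smooth true ρ')) (bS true ρ ρ' β)
    (toGL_pai _ _ _ (pai_ind true ρ ρ' hρ hρ' β hβ)) U ((toGL_stab _ _).2 hU) h0 hD d hd1
    (by omega) (fun m hm1 hm2 hm3 x => kerJ_le_KT ψ m (InS true ρ) (by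
      rw [dead hd true (nsg true ρ) (nsg_smooth true ρ hρ) (nsg_cusp true ρ hc) m hm1 hm2 hm3
        (by omega)]
      exact Submodule.mem_top)) (zz F n d true).1 zz_GG _ _
    (fun v => kerJ_le_KT ψ d (InS true ρ) (sq_kerJ hd1 hd hn ρ hρ hc k hk v))
    (fun v' => kerJ_le_KT ψ⁻¹ d (InS true ρ') (sq_kerJ hd1 hd hn ρ' hρ' hc' k' hk' v')))

/-- a nonzero quotient is not degenerate -/
theorem nondeg_quo {ψ : AddChar F ℂ} (hψ : PC.DP.Std ψ) (hd1 : 1 ≤ d) (hd : d ≤ n)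
    (hn : n = d + d) (ρ : Representation ℂ (lev F (blk n d)) W)
    (ρ' : Representation ℂ (lev F (blk n d)) W') (β : W →ₗ[ℂ] W' →ₗ[ℂ] ℂ) (hβ : Pai ρ ρ' β)
    (hρ : IsSm ρ) (hρ' : IsSm ρ') (ha : Adm ρ) (hc : Cusp (blk n d) ρ)
    (hc' : Cusp (blk n d) ρ') (k k' : ℂ)
    (hkk : k * k' = 1) (hk : ∀ t v, ρ (zz F n d t) v = k • v)
    (hk' : ∀ t v, ρ' (zz F n d t) v = k' • v) (U : Submodule ℂ (XnS true ρ))
    (hU : Stab (InS true ρ) U) (h0 : U ≠ ⊤)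
    (hD : U ⊔ PC.DP.KK ψ 1 (toGL (InS true ρ)) = ⊤) : False := by
  exact self_num (F := F) hd1 hd hn k k' hkk (pos_gen_quo hψ (toGL (InS true ρ))
    (toGL (InS true ρ')) (toGL_smooth _ (InS_smooth true ρ))
    (toGL_smooth _ (InS_smooth true ρ')) (toGL_adm _ (InS_adm true ρ hρ ha)) (bS true ρ ρ' β)
    (toGL_pai _ _ _ (pai_ind true ρ ρ' hρ hρ' β hβ)) U ((toGL_stab _ _).2 hU) h0 hD d hd1
    (by omega) (fun m hm1 hm2 hm3 x => kerJ_le_KT ψ m (InS true ρ) (by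
      rw [dead hd true (nsg true ρ) (nsg_smooth true ρ hρ) (nsg_cusp true ρ hc) m hm1 hm2 hm3
        (by omega)]
      exact Submodule.mem_top)) (zz F n d true).1 zz_GG _ _
    (fun v => kerJ_le_KT ψ d (InS true ρ) (sq_kerJ hd1 hd hn ρ hρ hc k hk v))
    (fun v' => kerJ_le_KT ψ⁻¹ d (InS true ρ') (sq_kerJ hd1 hd hn ρ' hρ' hc' k' hk' v')))

/-- THEOREM (ii), with the uniqueness of Whittaker functionals for the Levi subgroup as a
hypothesis -/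
theorem self_irr (hd1 : 1 ≤ d) (hd : d ≤ n) (hn : n = d + d)
    (ρ : Representation ℂ (lev F (blk n d)) W) (hρ : IsSm ρ) (hi : Irr ρ)
    (hc : Cusp (blk n d) ρ) (k : ℂ) (hk : ∀ t v, ρ (zz F n d t) v = k • v) (ψ : AddChar F ℂ)
    (hψ : PC.DP.Std ψ)
    (hW : ∀ m₁ m₂ : W →ₗ[ℂ] ℂ,
      (∀ b ∈ PC.GK.NN F n ⊓ lev F (blk n (n - d)), ∀ v,
        m₁ (tauOf (nsg true ρ) (PC.GK.pm F (wsw n d hd) * b * (PC.GK.pm F (wsw n d hd))⁻¹) v) =
          PC.GK.psi ψ b * m₁ v) →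
      (∀ b ∈ PC.GK.NN F n ⊓ lev F (blk n (n - d)), ∀ v,
        m₂ (tauOf (nsg true ρ) (PC.GK.pm F (wsw n d hd) * b * (PC.GK.pm F (wsw n d hd))⁻¹) v) =
          PC.GK.psi ψ b * m₂ v) →
      ∃ c₁ c₂ : ℂ, (c₁ ≠ 0 ∨ c₂ ≠ 0) ∧ ∀ v, c₁ * m₁ v + c₂ * m₂ v = 0) :
    Irr (InS true ρ) := by
  have ha := cusp_adm (blk n d) ρ hρ hi hc
  have hB := CGLa_lev_hasCO (F := F) (blk n d)
  have hβ := evB_pai ρ hρ
  have hc' : Cusp (blk n d) (dual ρ) := cusp_dual _ ρ hρ hi hc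
  obtain ⟨w0, hw0⟩ := hi.1
  have hk0 : k ≠ 0 := by
    intro h
    have h1 := hk true w0
    rw [h, zero_smul] at h1
    apply hw0
    have h2 : ρ (zz F n d true)⁻¹ (ρ (zz F n d true) w0) = w0 := by
      rw [← Module.End.mul_apply, ← map_mul, inv_mul_cancel, map_one, Module.End.one_apply]
    rw [h1, map_zero] at h2
    exact h2.symm
  have hk' : ∀ t (v : dualSp ρ), dual ρ (zz F n d t) v = k⁻¹ • v := by
    intro t v
    apply Subtype.ext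
    apply LinearMap.ext
    intro w
    show v.1 (ρ (zz F n d t)⁻¹ w) = k⁻¹ * v.1 w
    have h1 : ρ (zz F n d t)⁻¹ w = k⁻¹ • w := by
      have h2 := hk t (ρ (zz F n d t)⁻¹ w)
      rw [← Module.End.mul_apply, ← map_mul, mul_inv_cancel, map_one, Module.End.one_apply] at h2
      rw [eq_inv_smul_iff₀ hk0]
      exact h2.symm
    rw [h1, map_smul, smul_eq_mul]
  refine ⟨?_, fun U hU => ?_⟩
  · obtain ⟨f, hf⟩ := evS_surj true ρ hρ w0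
    refine ⟨f, fun h => hw0 ?_⟩
    rw [← hf, h, map_zero]
  by_contra hcon
  push Not at hcon
  obtain ⟨h0, h1⟩ := hcon
  have n1 : PC.DP.KK (V := U) ψ 1 (subG (InS true ρ) U hU) ≠ ⊤ := fun hD =>
    nondeg_sub (W' := dualSp ρ) hψ hd1 hd hn ρ (dual ρ) (evB ρ) hβ hρ (dual_smooth ρ) hc hc' k k⁻¹
      (mul_inv_cancel₀ hk0) hk hk' U hU h0 hD
  have n2 : U ⊔ PC.DP.KK ψ 1 (toGL (InS true ρ)) ≠ ⊤ := fun hD =>
    nondeg_quo (W' := dualSp ρ) hψ hd1 hd hn ρ (dual ρ) (evB ρ) hβ hρ (dual_smooth ρ) ha hc hc' k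
      k⁻¹ (mul_inv_cancel₀ hk0) hk hk' U hU h1 hD
  obtain ⟨x0, hx0⟩ : ∃ x, x ∉ U ⊔ PC.DP.KK ψ 1 (toGL (InS true ρ)) := by
    by_contra h
    push Not at h
    exact n2 (eq_top_iff.2 fun x _ => h x)
  obtain ⟨u, hu⟩ : ∃ u : U, u.1 ∉ PC.DP.KK ψ 1 (toGL (InS true ρ)) := by
    by_contra h
    push Not at h
    apply n1
    rw [eq_top_iff]
    intro x _
    exact PC.DP.ex_KK hψ (toGL (InS true ρ)) (toGL_smooth _ (InS_smooth true ρ)) U _ x (h x)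
  obtain ⟨l0, hl0, hl0x⟩ := sep_fun _ x0 hx0
  obtain ⟨l1, hl1, hl1u⟩ := sep_fun _ u.1 hu
  obtain ⟨c₁, c₂, hcc, hl⟩ := rodier (F := F) hd ψ (std_h1 hψ) (std_h2 hψ) (nsg true ρ)
    (nsg_smooth true ρ hρ) hW l0 l1
    ((wh_iff ψ (toGL (InS true ρ)) l0).2 fun x hx => hl0 x (Submodule.mem_sup_right hx))
    ((wh_iff ψ (toGL (InS true ρ)) l1).2 hl1)
  have hc2 : c₂ = 0 := by
    have h2 : c₁ * l0 u.1 + c₂ * l1 u.1 = 0 := hl u.1
    have h3 : l0 u.1 = 0 := hl0 _ (Submodule.mem_sup_left u.2)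
    rw [h3, mul_zero, zero_add] at h2
    exact (mul_eq_zero.1 h2).resolve_right hl1u
  have hc1 : c₁ = 0 := by
    have h2 : c₁ * l0 x0 + c₂ * l1 x0 = 0 := hl x0
    rw [hc2, zero_mul, add_zero] at h2
    exact (mul_eq_zero.1 h2).resolve_right hl0x
  rcases hcc with h | h
  · exact h hc1
  · exact h hc2

end

end PC.D4
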