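import Mathlib
import Pool.Agent.Lib.MP_ca1492_al.D4.Conv
import Pool.Agent.Lib.MP_ca1492_al.D4.GKL
import Pool.Agent.Lib.MP_ca1492_al.D4.Pos
import Pool.Agent.Lib.MP_ca1492_al.D4.TwoA
import Pool.Agent.Lib.MP_ca1492_al.P.CuspDual
import Pool.Agent.Lib.MP_ca1492_al.P.LevT

/-!
# MP_ca1492_al, D4, WhOne: uniqueness of Whittaker functionals for cuspidal representations
-/

open Topology Pool.Agent.Lib.MP_ca1492_al.P
open Pool.Agent.Lib.MP_ca1492_al.Q (GLRep)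

namespace PC.D4

noncomputable section

variable {F : Type} [Field F] [ValuativeRel F] [TopologicalSpace F]
  [IsNonarchimedeanLocalField F]
variable {n : ℕ} {V : Type} [AddCommGroup V] [Module ℂ V]

/-- cuspidal representations are generic -/
theorem WhOne_gen {ψ : AddChar F ℂ} (hψ : PC.DP.Std ψ) (π : Representation ℂ (GL (Fin n) F) V)
    (hπ : IsSm π) (h0 : ∃ v : V, v ≠ 0) (hn : 1 ≤ n)
    (hT : ∀ m, 1 ≤ m → m < n → PC.DP.KT ψ m π = ⊤) :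
    ∃ m : V →ₗ[ℂ] ℂ, m ≠ 0 ∧ Wh π (PC.GK.NN F n) (PC.GK.psi ψ) m := by
  have h : ∃ v, v ∉ PC.DP.KK ψ 1 π := by
    by_contra h
    push Not at h
    exact pos_ne_top hψ π hπ h0 hn (eq_top_iff.2 fun x _ => h x) hT
  obtain ⟨v, hv⟩ := h
  obtain ⟨l, hl, hlv⟩ := sep_fun _ v hv
  refine ⟨l, ?_, (wh_iff ψ π l).2 hl⟩
  rintro rfl
  exact hlv rfl

theorem WhOne_cusp (π : Representation ℂ (lev F (one n)) V) (hc : Cusp (one n) π) (m : ℕ)
    (h1 : 1 ≤ m) (h2 : m < n) : (D2 F n m).kerJ π = ⊤ := by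
  rw [eq_top_iff, ← hc (od n m) ⟨⟨0, by omega⟩, ⟨m, h2⟩, rfl, by simp [od]; omega⟩]
  refine Submodule.span_le.2 ?_
  rintro x ⟨u, hu, v, rfl⟩
  exact Submodule.subset_span ⟨u, hu, v, rfl⟩

/-- the contragredients for the two groups -/
theorem WhOne_dual (π : Representation ℂ (lev F (one n)) V) :
    ∃ T : dualSp π →ₗ[ℂ] dualSp (toGL π), Function.Bijective T ∧
      Equi (V := dualSp π) (W := dualSp (toGL π)) (toGL (dual π)) (dual (toGL π)) T := by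
  have h : dualSp (toGL π) = dualSp π := by
    ext l
    constructor
    · rintro ⟨U, hU, hl⟩
      exact ⟨U.comap (lev F (one n)).subtype, hU.preimage continuous_subtype_val,
        fun u hu v => hl u.1 hu v⟩
    · rintro ⟨U, hU, hl⟩
      have hc : Continuous (toTop : GL (Fin n) F → lev F (one n)) :=
        Continuous.subtype_mk continuous_id _
      exact ⟨U.comap toTop, hU.preimage hc, fun u hu v => hl (toTop u) hu v⟩
  refine ⟨(LinearEquiv.ofEq _ _ h.symm).toLinearMap, (LinearEquiv.ofEq _ _ h.symm).bijective,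
    fun g l => Subtype.ext (LinearMap.ext fun v => ?_)⟩
  show l.1 (π (toTop g)⁻¹ v) = l.1 (π (toTop g⁻¹) v)
  rw [show (toTop g⁻¹ : lev F (one n)) = (toTop g)⁻¹ from map_inv toTop g]

theorem wh_one {ψ : AddChar F ℂ} (hψ : PC.DP.Std ψ) (hn : 1 ≤ n)
    (π : Representation ℂ (lev F (one n)) V) (hπ : IsSm π) (hi : Irr π) (hc : Cusp (one n) π)
    (l0 l1 : V →ₗ[ℂ] ℂ) (hl0 : Wh (toGL π) (PC.GK.NN F n) (PC.GK.psi ψ) l0)
    (hl1 : Wh (toGL π) (PC.GK.NN F n) (PC.GK.psi ψ) l1) :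
    ∃ c₁ c₂ : ℂ, (c₁ ≠ 0 ∨ c₂ ≠ 0) ∧ ∀ v, c₁ * l0 v + c₂ * l1 v = 0 := by
  by_cases h10 : l1 = 0
  · exact ⟨0, 1, Or.inr one_ne_zero, fun v => by rw [h10, LinearMap.zero_apply]; ring⟩
  have hT2 : T2Space F := PC.GK.t2_of_local F
  obtain ⟨dF⟩ := PC.GK.exists_LFData F
  have ha := cusp_adm (one n) π hπ hi hc
  obtain ⟨w0, hw0⟩ := hi.1
  obtain ⟨ξ, hξ⟩ := dual_sep (CGLa_lev_hasCO (F := F) (one n)) π hπ w0 hw0
  obtain ⟨T, hTb, hTe⟩ := WhOne_dual π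
  have hcd : Cusp (one n) (dual π) := cusp_dual _ π hπ hi hc
  obtain ⟨m, hm0, hm⟩ := WhOne_gen (V := dualSp (toGL π)) (std_symm hψ) (dual (toGL π))
    (dual_smooth _) ⟨T ξ, fun h => hξ (by
      have : ξ = 0 := hTb.1 (h.trans (map_zero T).symm)
      rw [this]
      rfl)⟩ hn (fun k hk1 hk2 => by
      rw [eq_top_iff]
      intro x _
      obtain ⟨y, rfl⟩ := hTb.2 x
      refine Ksp_map (V := dualSp π) (V' := dualSp (toGL π)) (toGL (dual π)) (dual (toGL π)) _ _ T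
        hTe y ?_
      refine kerJ_le_KT (V := dualSp π) ψ⁻¹ k (dual π) ?_
      rw [WhOne_cusp (V := dualSp π) (dual π) hcd k hk1 hk2]
      exact Submodule.mem_top)
  obtain ⟨c, hcc⟩ := whit_unique dF ψ (std_h1 hψ) (std_h2 hψ) (toGL π) (toGL_smooth π hπ)
    (toGL_adm π ha) ⟨hi.1, fun U hU => hi.2 U ((toGL_stab π U).1 hU)⟩ l0 l1 hl0 hl1 m
    (fun a ha' ξ => by
      rw [hm a ha' ξ]
      congr 1
      rw [← psi_eq, ← psi_eq, std_inv]) hm0 h10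
  refine ⟨1, -c, Or.inl one_ne_zero, fun v => ?_⟩
  rw [hcc, LinearMap.smul_apply, smul_eq_mul]
  ring

/-- the version for the representations `GLRep` -/
theorem wh_glrep {ψ : AddChar F ℂ} (hψ : PC.DP.Std ψ) (A : GLRep F) (hA : A.Cusp)
    (g : Fin n ≃ A.κ) (l0 l1 : A.V →ₗ[ℂ] ℂ)
    (hl0 : ∀ u ∈ PC.GK.NN F n, ∀ v, l0 (A.π (glT F g u) v) = PC.GK.psi ψ u * l0 v)
    (hl1 : ∀ u ∈ PC.GK.NN F n, ∀ v, l1 (A.π (glT F g u) v) = PC.GK.psi ψ u * l1 v) :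
    ∃ c₁ c₂ : ℂ, (c₁ ≠ 0 ∨ c₂ ≠ 0) ∧ ∀ v, c₁ * l0 v + c₂ * l1 v = 0 := by
  have hg : ∀ i j : Fin n, (fun _ : A.κ => ()) (g i) = (fun _ : A.κ => ()) (g j) ↔
      one n i = one n j := fun i j => ⟨fun _ => rfl, fun _ => rfl⟩
  have hn : 1 ≤ n := by
    obtain ⟨x⟩ := hA.2.2.1
    have := (g.symm x).2
    omega
  refine wh_one hψ hn (pull (levT F g hg) (GLRep.lev A)) ((pull_sm _ _).2 ?_)
    ((pull_irr _ _).2 ?_) ((cusp_T g hg _).2 (cusp_levC A hA)) l0 l1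
    (fun u hu v => hl0 u hu v) (fun u hu v => hl1 u hu v)
  · exact (pull_sm (levC F A.κ).symm A.π).2 hA.1
  · exact (pull_irr (levC F A.κ).symm A.π).2 hA.2.1

end

end PC.D4
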