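import Mathlib
import Pool.Agent.Lib.MP_ca1492_al.D4.Conv
import Pool.Agent.Lib.MP_ca1492_al.P.LevT
import Pool.Agent.Lib.MP_ca1492_al.P.TenDefs

/-!
# MP_ca1492_al, D4, WhBlk: unipotent matrices in one block
-/

open Topology Matrix Pool.Agent.Lib.MP_ca1492_al.P
open Pool.Agent.Lib.MP_ca1492_al.Q (GLRep)

namespace PC.D4

noncomputable section

variable {F : Type} [Field F] [ValuativeRel F] [TopologicalSpace F]
  [IsNonarchimedeanLocalField F]
variable {n : ℕ} {ι : Type} [Fintype ι] [DecidableEq ι] {K : ι → Type} [∀ a, Fintype (K a)]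
  [∀ a, DecidableEq (K a)]

omit [Fintype ι] [DecidableEq ι] [∀ a, Fintype (K a)] [∀ a, DecidableEq (K a)] in
/-- the index set of one block as an interval -/
theorem WhBlk_g (φ : Fin n ≃ Σ a, K a) (a : ι) (o k : ℕ) (hok : o + k ≤ n)
    (h : ∀ i : Fin n, (φ i).1 = a ↔ o ≤ i.1 ∧ i.1 < o + k) :
    ∃ g : Fin k ≃ K a, ∀ j : Fin k, φ ⟨o + j.1, by omega⟩ = ⟨a, g j⟩ := by
  have h1 : ∀ j : Fin k, ∃ x : K a, φ ⟨o + j.1, by omega⟩ = ⟨a, x⟩ := by
    intro j
    have h2 := (h ⟨o + j.1, by omega⟩).2 ⟨by simp, by simp⟩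
    generalize φ ⟨o + j.1, by omega⟩ = y at h2
    obtain ⟨b, y⟩ := y
    have h3 : b = a := h2
    subst h3
    exact ⟨y, rfl⟩
  choose f hf using h1
  refine ⟨Equiv.ofBijective f ⟨fun j j' hj => ?_, fun x => ?_⟩, fun j => hf j⟩
  · have h2 : φ ⟨o + j.1, by omega⟩ = φ ⟨o + j'.1, by omega⟩ := by rw [hf, hf, hj]
    have h3 := congrArg Fin.val (φ.injective h2)
    simp only at h3
    exact Fin.ext (by omega)
  · have h2 := (h (φ.symm ⟨a, x⟩)).1 (by rw [φ.apply_symm_apply])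
    refine ⟨⟨(φ.symm ⟨a, x⟩).1 - o, by omega⟩, ?_⟩
    have h3 := hf ⟨(φ.symm ⟨a, x⟩).1 - o, by omega⟩
    have h4 : (⟨o + ((φ.symm ⟨a, x⟩).1 - o), by omega⟩ : Fin n) = φ.symm ⟨a, x⟩ :=
      Fin.ext (by simp only; omega)
    rw [h4, φ.apply_symm_apply] at h3
    exact (eq_of_heq (Sigma.mk.inj h3).2).symm

/-- a matrix in one block -/
def ub (φ : Fin n ≃ Σ a, K a) (a : ι) {k : ℕ} (g : Fin k ≃ K a) (u : GL (Fin k) F) :
    GL (Fin n) F := (glT F φ).symm (inM F K a (glT F g u)).1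

theorem glT_ub (φ : Fin n ≃ Σ a, K a) (a : ι) {k : ℕ} (g : Fin k ≃ K a) (u : GL (Fin k) F) :
    glT F φ (ub φ a g u) = (inM F K a (glT F g u)).1 :=
  (glT F φ).apply_symm_apply _

theorem ub_apply (φ : Fin n ≃ Σ a, K a) (a : ι) {k : ℕ} (g : Fin k ≃ K a) (u : GL (Fin k) F)
    (i j : Fin n) : (ub φ a g u).val i j = ((inM F K a (glT F g u)).1 :
      Matrix (Σ a, K a) (Σ a, K a) F) (φ i) (φ j) := by
  rw [← glT_ub, glT_apply]

variable (φ : Fin n ≃ Σ a, K a) (a : ι) {o k : ℕ} (hok : o + k ≤ n)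
    (h : ∀ i : Fin n, (φ i).1 = a ↔ o ≤ i.1 ∧ i.1 < o + k) (g : Fin k ≃ K a)
    (hg : ∀ j : Fin k, φ ⟨o + j.1, by omega⟩ = ⟨a, g j⟩) (u : GL (Fin k) F)

include hg in
theorem ub_in (x y : Fin k) :
    (ub φ a g u).val ⟨o + x.1, by omega⟩ ⟨o + y.1, by omega⟩ = u.val x y := by
  rw [ub_apply, hg, hg]
  show (blkM F K a (inM F K a (glT F g u)) : Matrix (K a) (K a) F) (g x) (g y) = _
  rw [blkM_inM, glT_apply]

include h in
theorem ub_out (i j : Fin n) (hij : ¬ (o ≤ i.1 ∧ i.1 < o + k) ∨ ¬ (o ≤ j.1 ∧ j.1 < o + k)) :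
    (ub φ a g u).val i j = (1 : Matrix (Fin n) (Fin n) F) i j := by
  have h1 : (φ i).1 ≠ a ∨ (φ j).1 ≠ a := by
    rcases hij with h1 | h1
    · exact Or.inl fun h2 => h1 ((h i).1 h2)
    · exact Or.inr fun h2 => h1 ((h j).1 h2)
  have e1 : (1 : Matrix (Fin n) (Fin n) F) i j =
      (1 : Matrix (Σ a, K a) (Σ a, K a) F) (φ i) (φ j) := (LevT_one φ i j).symm
  rw [ub_apply, e1]
  have hl := (inM F K a (glT F g u)).2
  generalize φ i = x at h1
  generalize φ j = y at h1
  obtain ⟨b, x⟩ := x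
  obtain ⟨c, y⟩ := y
  by_cases hbc : b = c
  · subst hbc
    have hb : b ≠ a := by
      rcases h1 with h1 | h1
      · exact h1
      · exact h1
    show (blkM F K b (inM F K a (glT F g u)) : Matrix (K b) (K b) F) x y = _
    rw [blkM_inM_ne K a b hb, Units.val_one, Matrix.one_apply, Matrix.one_apply]
    congr 1
    exact propext ⟨fun h => by rw [h], fun h => eq_of_heq (Sigma.mk.inj h).2⟩
  · rw [hl _ _ hbc, Matrix.one_apply_ne]
    intro h'
    exact hbc (congrArg Sigma.fst h')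

include h hg hok in
theorem ub_NN (hu : u ∈ PC.GK.NN F k) : ub φ a g u ∈ PC.GK.NN F n := by
  rw [mem_NN_UU] at hu ⊢
  intro i j hij
  have hij' : j.1 ≤ i.1 := by
    rcases hij with h1 | h1
    · exact h1
    · omega
  by_cases h1 : (o ≤ i.1 ∧ i.1 < o + k) ∧ (o ≤ j.1 ∧ j.1 < o + k)
  · have ei : (⟨o + (i.1 - o), by omega⟩ : Fin n) = i := Fin.ext (by simp only; omega)
    have ej : (⟨o + (j.1 - o), by omega⟩ : Fin n) = j := Fin.ext (by simp only; omega)
    have h2 := ub_in φ a hok g hg u ⟨i.1 - o, by omega⟩ ⟨j.1 - o, by omega⟩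
    simp only [ei, ej] at h2
    rw [h2, hu _ _ (Or.inl (by rw [Fin.le_def]; simp only; omega)), Matrix.one_apply,
      Matrix.one_apply]
    congr 1
    apply propext
    constructor
    · intro h3
      have := congrArg Fin.val h3
      simp only at this
      exact Fin.ext (by omega)
    · rintro rfl
      rfl
  · rw [not_and_or] at h1
    exact ub_out φ a h g u i j h1

include h hg hok in
theorem ub_psi (ψ : AddChar F ℂ) : PC.GK.psi ψ (ub φ a g u) = PC.GK.psi ψ u := by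
  unfold PC.GK.psi
  congr 1
  unfold PC.GK.sd
  symm
  refine Finset.sum_of_injOn (fun x : Fin k => (⟨o + x.1, by omega⟩ : Fin n)) ?_ ?_ ?_ ?_
  · intro x _ y _ hxy
    have := congrArg Fin.val hxy
    simp only at this
    exact Fin.ext (by omega)
  · intro x _
    exact Finset.mem_coe.2 (Finset.mem_univ _)
  · intro i _ hi
    have h1 : ¬ (o ≤ i.1 ∧ i.1 < o + k) := by
      intro h2
      apply hi
      exact ⟨⟨i.1 - o, by omega⟩, Finset.mem_coe.2 (Finset.mem_univ _),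
        Fin.ext (by simp only; omega)⟩
    split_ifs with h2
    · rw [ub_out φ a h g u _ _ (Or.inl h1), Matrix.one_apply_ne]
      intro h3
      have := congrArg Fin.val h3
      simp only at this
      omega
    · rfl
  · intro x _
    by_cases h1 : x.1 + 1 < k
    · rw [dif_pos h1, dif_pos (show (⟨o + x.1, by omega⟩ : Fin n).1 + 1 < n by simp only; omega)]
      exact (ub_in φ a hok g hg u x ⟨x.1 + 1, h1⟩).symm
    · rw [dif_neg h1]
      split_ifs with h2
      · rw [ub_out φ a h g u _ _ (Or.inr (by simp only at h2 ⊢; omega)), Matrix.one_apply_ne]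
        intro h3
        have := congrArg Fin.val h3
        simp only at this
        omega
      · rfl

end

end PC.D4
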