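import Mathlib
import Pool.Agent.Lib.MP_ca1492_al.D4.RodTau
import Pool.Agent.Lib.MP_ca1492_al.D4.TwoB
import Pool.Agent.Lib.MP_ca1492_al.D4.WhBlk

/-!
# MP_ca1492_al, D4, WhTen: external tensor products of two cuspidal representations, uniqueness
of Whittaker functionals of the Levi subgroup
-/

open Topology Matrix TensorProduct Pool.Agent.Lib.MP_ca1492_al.P
open Pool.Agent.Lib.MP_ca1492_al.Q (GLRep)

namespace PC.D4

noncomputable section

section Abs

variable {A B W : Type} [AddCommGroup A] [Module ℂ A] [AddCommGroup B] [Module ℂ B]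
  [AddCommGroup W] [Module ℂ W]

/-- uniqueness for a pairing with dense image -/
theorem uniq_ten (T : A →ₗ[ℂ] B →ₗ[ℂ] W)
    (hT : ∀ m : W →ₗ[ℂ] ℂ, (∀ x y, m (T x y) = 0) → m = 0)
    (P : (A →ₗ[ℂ] ℂ) → Prop) (Q : (B →ₗ[ℂ] ℂ) → Prop)
    (hP : ∀ l l', P l → P l' → ∃ c₁ c₂ : ℂ, (c₁ ≠ 0 ∨ c₂ ≠ 0) ∧ ∀ v, c₁ * l v + c₂ * l' v = 0)
    (hQ : ∀ l l', Q l → Q l' → ∃ c₁ c₂ : ℂ, (c₁ ≠ 0 ∨ c₂ ≠ 0) ∧ ∀ v, c₁ * l v + c₂ * l' v = 0)
    (m₁ m₂ : W →ₗ[ℂ] ℂ) (p₁ : ∀ y, P (m₁ ∘ₗ T.flip y)) (p₂ : ∀ y, P (m₂ ∘ₗ T.flip y))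
    (q₁ : ∀ x, Q (m₁ ∘ₗ T x)) (q₂ : ∀ x, Q (m₂ ∘ₗ T x)) :
    ∃ c₁ c₂ : ℂ, (c₁ ≠ 0 ∨ c₂ ≠ 0) ∧ ∀ w, c₁ * m₁ w + c₂ * m₂ w = 0 := by
  by_cases h0 : m₁ = 0
  · exact ⟨1, 0, Or.inl one_ne_zero, fun w => by rw [h0, LinearMap.zero_apply]; ring⟩
  obtain ⟨x₀, y₀, h1⟩ : ∃ x y, m₁ (T x y) ≠ 0 := by
    by_contra h
    push Not at h
    exact h0 (hT m₁ h)
  -- a functional with the property `P` is a multiple of `m₁ (T · y₀)`
  have hP' : ∀ l, P l → ∀ x, l x * m₁ (T x₀ y₀) = l x₀ * m₁ (T x y₀) := by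
    intro l hl x
    obtain ⟨c₁, c₂, hc, h⟩ := hP l (m₁ ∘ₗ T.flip y₀) hl (p₁ y₀)
    have e1 : c₁ * l x + c₂ * m₁ (T x y₀) = 0 := h x
    have e0 : c₁ * l x₀ + c₂ * m₁ (T x₀ y₀) = 0 := h x₀
    have hc1 : c₁ ≠ 0 := by
      intro hc1
      rw [hc1, zero_mul, zero_add] at e0
      rcases hc with h2 | h2
      · exact h2 hc1
      · exact (mul_ne_zero h2 h1) e0
    apply mul_left_cancel₀ hc1
    linear_combination m₁ (T x₀ y₀) * e1 - m₁ (T x y₀) * e0
  have hQ' : ∀ l, Q l → ∀ y, l y * m₁ (T x₀ y₀) = l y₀ * m₁ (T x₀ y) := by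
    intro l hl y
    obtain ⟨c₁, c₂, hc, h⟩ := hQ l (m₁ ∘ₗ T x₀) hl (q₁ x₀)
    have e1 : c₁ * l y + c₂ * m₁ (T x₀ y) = 0 := h y
    have e0 : c₁ * l y₀ + c₂ * m₁ (T x₀ y₀) = 0 := h y₀
    have hc1 : c₁ ≠ 0 := by
      intro hc1
      rw [hc1, zero_mul, zero_add] at e0
      rcases hc with h2 | h2
      · exact h2 hc1
      · exact (mul_ne_zero h2 h1) e0
    apply mul_left_cancel₀ hc1
    linear_combination m₁ (T x₀ y₀) * e1 - m₁ (T x₀ y) * e0
  refine ⟨m₂ (T x₀ y₀), -m₁ (T x₀ y₀), Or.inr (neg_ne_zero.2 h1), ?_⟩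
  have key : (m₂ (T x₀ y₀)) • m₁ + (-m₁ (T x₀ y₀)) • m₂ = 0 := by
    refine hT _ fun x y => ?_
    have a1 : m₁ (T x y) * m₁ (T x₀ y₀) = m₁ (T x₀ y) * m₁ (T x y₀) :=
      hP' (m₁ ∘ₗ T.flip y) (p₁ y) x
    have a2 : m₂ (T x y) * m₁ (T x₀ y₀) = m₂ (T x₀ y) * m₁ (T x y₀) :=
      hP' (m₂ ∘ₗ T.flip y) (p₂ y) x
    have a3 : m₂ (T x₀ y) * m₁ (T x₀ y₀) = m₂ (T x₀ y₀) * m₁ (T x₀ y) :=
      hQ' (m₂ ∘ₗ T x₀) (q₂ x₀) y
    show m₂ (T x₀ y₀) * m₁ (T x y) + (-m₁ (T x₀ y₀)) * m₂ (T x y) = 0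
    apply mul_left_cancel₀ h1
    rw [mul_zero]
    linear_combination (m₂ (T x₀ y₀)) * a1 - (m₁ (T x₀ y₀)) * a2 - m₁ (T x y₀) * a3
  intro w
  exact LinearMap.congr_fun key w

end Abs

variable {F : Type} [Field F] [ValuativeRel F] [TopologicalSpace F]
  [IsNonarchimedeanLocalField F]

section Ten

variable (R : Bool → GLRep F)

/-- the pair of vectors -/
def vv (x : (R true).V) (y : (R false).V) : ∀ a, (R a).V
  | true => x
  | false => y

theorem vv_true (x x' : (R true).V) (y : (R false).V) :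
    Function.update (vv R x y) true x' = vv R x' y := by
  funext a
  cases a
  · rw [Function.update_of_ne (by simp)]
    rfl
  · rw [Function.update_self]
    rfl

theorem vv_false (x : (R true).V) (y y' : (R false).V) :
    Function.update (vv R x y) false y' = vv R x y' := by
  funext a
  cases a
  · rw [Function.update_self]
    rfl
  · rw [Function.update_of_ne (by simp)]
    rfl

theorem vv_eta (v : ∀ a, (R a).V) : vv R (v true) (v false) = v := by
  funext a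
  cases a <;> rfl

/-- pure tensors -/
def pT : (R true).V →ₗ[ℂ] (R false).V →ₗ[ℂ] ⨂[ℂ] a, (R a).V :=
  LinearMap.mk₂ ℂ (fun x y => PiTensorProduct.tprod ℂ (vv R x y))
    (fun x x' y => by
      have h := (PiTensorProduct.tprod ℂ (s := fun a => (R a).V)).map_update_add (vv R x y) true
        x x'
      rw [vv_true, vv_true, vv_true] at h
      exact h)
    (fun c x y => by
      have h := (PiTensorProduct.tprod ℂ (s := fun a => (R a).V)).map_update_smul (vv R x y) true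
        c x
      rw [vv_true, vv_true] at h
      exact h)
    (fun x y y' => by
      have h := (PiTensorProduct.tprod ℂ (s := fun a => (R a).V)).map_update_add (vv R x y) false
        y y'
      rw [vv_false, vv_false, vv_false] at h
      exact h)
    (fun c x y => by
      have h := (PiTensorProduct.tprod ℂ (s := fun a => (R a).V)).map_update_smul (vv R x y) false
        c y
      rw [vv_false, vv_false] at h
      exact h)

theorem pT_apply (x : (R true).V) (y : (R false).V) :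
    pT R x y = PiTensorProduct.tprod ℂ (vv R x y) := rfl

theorem pT_ext {W : Type} [AddCommGroup W] [Module ℂ W] (m : (⨂[ℂ] a, (R a).V) →ₗ[ℂ] W)
    (h : ∀ x y, m (pT R x y) = 0) : m = 0 := by
  refine PiTensorProduct.ext ?_
  ext v
  have h1 := h (v true) (v false)
  rw [pT_apply, vv_eta] at h1
  exact h1

theorem pT_act (m : lev F (sc R)) (x : (R true).V) (y : (R false).V) :
    tenRep R m (pT R x y) = pT R ((R true).π (blkM F (fun a => (R a).κ) true m) x)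
      ((R false).π (blkM F (fun a => (R a).κ) false m) y) := by
  rw [pT_apply, tenRep_tprod, pT_apply]
  congr 1
  funext a
  cases a <;> rfl

variable {n d : ℕ} (hd : d ≤ n) (e : Fin n ≃ sk R)
  (hc : ∀ i j, sc R (e i) = sc R (e j) ↔ blk n d i = blk n d j)

theorem WhTen_pm (w : Equiv.Perm (Fin n)) : PC.GK.pm F w = permG F w := by
  refine Units.ext (Matrix.ext fun i j => ?_)
  show (if i = w j then (1 : F) else 0) = if w j = i then 1 else 0
  congr 1
  exact propext eq_comm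

variable (a : Bool) {o k : ℕ} (hok : o + k ≤ n)
  (h : ∀ i : Fin n, (((wsw n d hd).trans e) i).1 = a ↔ o ≤ i.1 ∧ i.1 < o + k)
  (g : Fin k ≃ (R a).κ)
  (hg : ∀ j : Fin k, ((wsw n d hd).trans e) ⟨o + j.1, by omega⟩ = ⟨a, g j⟩)
  (u : GL (Fin k) F)

/-- the conjugate by the block swap -/
theorem WhTen_conj : glT F e (PC.GK.pm F (wsw n d hd) * ub ((wsw n d hd).trans e) a g u *
    (PC.GK.pm F (wsw n d hd))⁻¹) = (inM F (fun a => (R a).κ) a (glT F g u)).1 := by
  refine Units.ext (Matrix.ext fun x y => ?_)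
  obtain ⟨i, rfl⟩ := ((wsw n d hd).trans e).surjective x
  obtain ⟨j, rfl⟩ := ((wsw n d hd).trans e).surjective y
  rw [← ub_apply]
  show ((glT F e _ : GL (sk R) F) : Matrix (sk R) (sk R) F) (e (wsw n d hd i))
    (e (wsw n d hd j)) = _
  rw [glT_apply, WhTen_pm, permG_conj]

include hc in
theorem WhTen_lev : PC.GK.pm F (wsw n d hd) * ub ((wsw n d hd).trans e) a g u *
    (PC.GK.pm F (wsw n d hd))⁻¹ ∈ lev F (blk n d) := by
  rw [← lev_T e (blk n d) (sc R) hc, WhTen_conj]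
  exact (inM F (fun a => (R a).κ) a (glT F g u)).2

include h hg hok in
theorem WhTen_tau (hu : u ∈ PC.GK.NN F k) (v : ⨂[ℂ] a, (R a).V) :
    tauOf (nsg true (pull (levT F e hc) (tenRep R)))
      (PC.GK.pm F (wsw n d hd) * ub ((wsw n d hd).trans e) a g u *
        (PC.GK.pm F (wsw n d hd))⁻¹) v = tenRep R (inM F (fun a => (R a).κ) a (glT F g u)) v := by
  set p := PC.GK.pm F (wsw n d hd) * ub ((wsw n d hd).trans e) a g u *
        (PC.GK.pm F (wsw n d hd))⁻¹ with hp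
  have hl : p ∈ lev F (blk n d) := WhTen_lev R hd e hc a g u
  have hN := ub_NN ((wsw n d hd).trans e) a hok h g hg u hu
  have hpe : ∀ i j, p.val (wsw n d hd i) (wsw n d hd j) =
      (ub ((wsw n d hd).trans e) a g u).val i j := by
    intro i j
    rw [hp, WhTen_pm, permG_conj]
  have huni : p ∈ uni F (blk n d) (fun i => (((wsw n d hd).symm i).1 : ℤ)) := by
    rw [mem_NN_UU] at hN
    refine ⟨⟨hl, fun i j hij => ?_⟩, fun i j hij => ?_⟩
    · obtain ⟨i, rfl⟩ := (wsw n d hd).surjective i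
      obtain ⟨j, rfl⟩ := (wsw n d hd).surjective j
      simp only [Equiv.symm_apply_apply] at hij
      rw [hpe, hN i j (Or.inl (by rw [Fin.le_def]; omega)), Matrix.one_apply_ne]
      rintro rfl
      exact lt_irrefl _ hij
    · obtain ⟨i, rfl⟩ := (wsw n d hd).surjective i
      obtain ⟨j, rfl⟩ := (wsw n d hd).surjective j
      simp only [Equiv.symm_apply_apply] at hij
      have hij' : i = j := Fin.ext (by omega)
      subst hij'
      rw [hpe, hN i i (Or.inl le_rfl), Matrix.one_apply_eq, Matrix.one_apply_eq]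
  have h1 := tauOf_eq (nsg true (pull (levT F e hc) (tenRep R))) ⟨p, hl⟩ 1 (Subgroup.one_mem _)
  rw [mul_one] at h1
  have h2 : tauOf (nsg true (pull (levT F e hc) (tenRep R))) p v =
      nsg true (pull (levT F e hc) (tenRep R)) ⟨p, hl⟩ v := by
    rw [← h1]
  rw [h2]
  show ((dlh (blk n d) (one n) (odS n d true) (blkS_iff n d true) ⟨p, hl⟩ : ℂˣ) : ℂ) •
    tenRep R (levT F e hc ⟨p, hl⟩) v = _
  rw [TwoB_dlh_uni true _ p huni hl, Units.val_one, one_smul]
  congr 2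
  exact Subtype.ext (WhTen_conj R hd e a g u)

end Ten

end

end PC.D4
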