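import Mathlib
import Pool.Agent.Lib.MP_ca1492_al.D4.SelfC
import Pool.Agent.Lib.MP_ca1492_al.D4.WhOne
import Pool.Agent.Lib.MP_ca1492_al.D4.WhTen
import Pool.Agent.Lib.MP_ca1492_al.P.TenIrr

/-!
# MP_ca1492_al, D4, SelfD: the product of two isomorphic cuspidal representations is irreducible
-/

open Topology Matrix TensorProduct Pool.Agent.Lib.MP_ca1492_al.P
open Pool.Agent.Lib.MP_ca1492_al.Q (GLRep)

namespace PC.D4

noncomputable section

variable {F : Type} [Field F] [ValuativeRel F] [TopologicalSpace F]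
  [IsNonarchimedeanLocalField F]

/-- the central character at the uniformizer -/
theorem glk (A : GLRep F) (hA : A.Cusp) :
    ∃ k : ℂ, ∀ v, A.π (dia F (fun _ => (1 : ℤ))) v = k • v := by
  refine glcusp_scalar A hA (A.π (dia F (fun _ => (1 : ℤ)))) fun g v => ?_
  have h := dia_central (F := F) (fun _ : A.κ => ()) (fun _ => (1 : ℤ)) g
    (fun _ _ h => absurd rfl h)
  rw [← Module.End.mul_apply, ← Module.End.mul_apply, ← map_mul, ← map_mul, h]

theorem glRe_dia {κ κ' : Type} [Fintype κ] [DecidableEq κ] [Fintype κ'] [DecidableEq κ']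
    (e : κ ≃ κ') : GLRep.glRe (F := F) e (dia F (fun _ => (1 : ℤ))) =
      dia F (fun _ => (1 : ℤ)) := by
  refine Units.ext (Matrix.ext fun i j => ?_)
  rw [TrCusp_entry, dia_apply, dia_apply]
  simp only [EmbeddingLike.apply_eq_iff_eq]

/-- isomorphic representations have the same central character -/
theorem glk_iso (A B : GLRep F) (hA : A.Cusp) (h : A.Isom B) (k : ℂ)
    (hk : ∀ v, A.π (dia F (fun _ => (1 : ℤ))) v = k • v) :
    ∀ v, B.π (dia F (fun _ => (1 : ℤ))) v = k • v := by
  obtain ⟨e, f, hf⟩ := h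
  intro v
  obtain ⟨x, rfl⟩ := f.surjective v
  have h1 := hf (dia F (fun _ => (1 : ℤ))) x
  rw [glRe_dia, hk, map_smul] at h1
  exact h1.symm

variable (R : Bool → GLRep F) {n d : ℕ} (e : Fin n ≃ sk R)
  (he : ∀ i, sc R (e i) = blk n d i)

include he in
theorem SelfD_card (hd : d ≤ n) (hiso : (R true).Isom (R false)) : n = d + d := by
  obtain ⟨ε, -⟩ := hiso
  obtain ⟨g, -⟩ := WhBlk_g e true 0 d (by omega) (fun i => by
    have h2 : (e i).1 = true ↔ i.1 < d := by
      rw [show (e i).1 = blk n d i from he i]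
      exact decide_eq_true_iff
    rw [h2]
    omega)
  have h1 : Fintype.card (R true).κ = d := by
    rw [← Fintype.card_congr g, Fintype.card_fin]
  have h2 : Fintype.card (R false).κ = d := by
    rw [← Fintype.card_congr ε, h1]
  have h3 : n = Fintype.card (sk R) := by
    rw [← Fintype.card_congr e, Fintype.card_fin]
  rw [h3, Fintype.card_sigma, Fintype.sum_bool, h1, h2]

variable (hc : ∀ i j, sc R (e i) = sc R (e j) ↔ blk n d i = blk n d j)

include he in
theorem SelfD_zz (t : Bool) : levT F e hc (zz F n d t) =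
    inM F (fun a => (R a).κ) t (dia F (fun _ => (1 : ℤ))) := by
  apply Subtype.ext
  refine Units.ext (Matrix.ext fun x y => ?_)
  obtain ⟨i, rfl⟩ := e.surjective x
  obtain ⟨j, rfl⟩ := e.surjective y
  have h1 : ((levT F e hc (zz F n d t)).1 : Matrix (sk R) (sk R) F) (e i) (e j) =
      (zz F n d t).1.val i j := glT_apply e _ i j
  rw [h1, Delta_zz_apply, ← he i]
  have h4 : (i = j) = (e i = e j) := propext e.apply_eq_iff_eq.symm
  rw [show (if i = j then unifF F ^ (if sc R (e i) = t then (1 : ℤ) else 0) else 0) =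
    if e i = e j then unifF F ^ (if sc R (e i) = t then (1 : ℤ) else 0) else 0 by
      simp only [e.apply_eq_iff_eq]]
  have hl := (inM F (fun a => (R a).κ) t (dia F (fun _ => (1 : ℤ)))).2
  generalize e i = x
  generalize e j = y
  obtain ⟨b, x⟩ := x
  obtain ⟨b', y⟩ := y
  by_cases hb : b = b'
  · subst hb
    show _ = (blkM F (fun a => (R a).κ) b (inM F (fun a => (R a).κ) t
      (dia F (fun _ => (1 : ℤ)))) : Matrix (R b).κ (R b).κ F) x y
    by_cases hbt : b = t
    · subst hbt
      rw [blkM_inM, dia_apply]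
      have h5 : ((⟨b, x⟩ : sk R) = ⟨b, y⟩) ↔ x = y :=
        ⟨fun h => eq_of_heq (Sigma.mk.inj h).2, fun h => by rw [h]⟩
      simp only [h5, if_true]
    · rw [blkM_inM_ne (fun a => (R a).κ) t b hbt, Units.val_one, Matrix.one_apply]
      have h5 : ((⟨b, x⟩ : sk R) = ⟨b, y⟩) ↔ x = y :=
        ⟨fun h => eq_of_heq (Sigma.mk.inj h).2, fun h => by rw [h]⟩
      simp only [h5, hbt, if_false, zpow_zero]
  · rw [hl _ _ hb, if_neg]
    intro h'
    exact hb (congrArg Sigma.fst h')

theorem SelfD_inM (t : Bool) (k : ℂ)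
    (hk : ∀ v, (R t).π (dia F (fun _ => (1 : ℤ))) v = k • v) (v : ⨂[ℂ] a, (R a).V) :
    tenRep R (inM F (fun a => (R a).κ) t (dia F (fun _ => (1 : ℤ)))) v = k • v := by
  have h : tenRep R (inM F (fun a => (R a).κ) t (dia F (fun _ => (1 : ℤ)))) -
      k • LinearMap.id = 0 := by
    refine pT_ext R _ fun x y => ?_
    rw [LinearMap.sub_apply, pT_act, LinearMap.smul_apply, LinearMap.id_apply]
    cases t
    · rw [blkM_inM, blkM_inM_ne (fun a => (R a).κ) false true (by simp), map_one,
        Module.End.one_apply, hk, map_smul, sub_self]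
    · rw [blkM_inM, blkM_inM_ne (fun a => (R a).κ) true false (by simp), map_one,
        Module.End.one_apply, hk, map_smul, LinearMap.smul_apply, sub_self]
  have h2 := LinearMap.congr_fun h v
  exact sub_eq_zero.1 h2

include he in
/-- THEOREM (ii) for external tensor products -/
theorem self_irr_ten (hd1 : 1 ≤ d) (hd : d ≤ n) (hR : ∀ a, (R a).Cusp)
    (hiso : (R true).Isom (R false)) :
    Irr (InS true (pull (levT F e hc) (tenRep R))) := by
  have hn := SelfD_card R e he hd hiso
  obtain ⟨ψ, hψ⟩ := PC.DP.exists_std (F := F)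
  obtain ⟨k, hk⟩ := glk (R true) (hR true)
  have hk2 := glk_iso (R true) (R false) (hR true) hiso k hk
  have hφ : ∀ i : Fin n, (((wsw n d hd).trans e) i).1 = true ↔ ¬ i.1 < n - d := by
    intro i
    have h1 : (((wsw n d hd).trans e) i).1 = blk n d (wsw n d hd i) := he _
    rw [h1]
    have h2 := TwoG_blk hd hn i
    unfold blk
    rw [decide_eq_true_iff, h2]
    have : n - d = d := by omega
    rw [this]
  have hφt : ∀ i : Fin n, (((wsw n d hd).trans e) i).1 = true ↔
      (n - d) ≤ i.1 ∧ i.1 < (n - d) + d := by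
    intro i
    rw [hφ]
    have := i.2
    omega
  have hφf : ∀ i : Fin n, (((wsw n d hd).trans e) i).1 = false ↔
      0 ≤ i.1 ∧ i.1 < 0 + (n - d) := by
    intro i
    have h1 := hφ i
    have h2 : (((wsw n d hd).trans e) i).1 = false ↔
        ¬ (((wsw n d hd).trans e) i).1 = true := by simp
    rw [h2, h1]
    have := i.2
    omega
  obtain ⟨g₁, hg₁⟩ := WhBlk_g ((wsw n d hd).trans e) true (n - d) d (by omega) hφt
  obtain ⟨g₂, hg₂⟩ := WhBlk_g ((wsw n d hd).trans e) false 0 (n - d) (by omega) hφf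
  refine self_irr hd1 hd hn (pull (levT F e hc) (tenRep R))
    ((pull_sm _ _).2 (ten_smooth R fun a => (hR a).1)) ((pull_irr _ _).2 (ten_irr R hR))
    ((cusp_T e hc _).2 (ten_cusp R hR)) k (fun t v => ?_) ψ hψ fun m₁ m₂ h₁ h₂ => ?_
  · show tenRep R (levT F e hc (zz F n d t)) v = _
    rw [SelfD_zz R e he hc]
    cases t
    · exact SelfD_inM R false k hk2 v
    · exact SelfD_inM R true k hk v
  · have hb : ∀ (a : Bool) {o k : ℕ} (hok : o + k ≤ n)
        (h : ∀ i : Fin n, (((wsw n d hd).trans e) i).1 = a ↔ o ≤ i.1 ∧ i.1 < o + k)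
        (g : Fin k ≃ (R a).κ)
        (hg : ∀ j : Fin k, ((wsw n d hd).trans e) ⟨o + j.1, by omega⟩ = ⟨a, g j⟩)
        (u : GL (Fin k) F), u ∈ PC.GK.NN F k → ub ((wsw n d hd).trans e) a g u ∈
          PC.GK.NN F n ⊓ lev F (blk n (n - d)) := by
      intro a o k hok h g hg u hu
      refine ⟨ub_NN _ a hok h g hg u hu, ?_⟩
      intro i j hij
      rw [ub_apply]
      refine (inM F (fun a => (R a).κ) a (glT F g u)).2 _ _ fun h3 => hij ?_
      have h4 : blk n d (wsw n d hd i) = blk n d (wsw n d hd j) := by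
        rw [← he, ← he]
        exact h3
      have h5 := TwoG_blk hd hn i
      have h6 := TwoG_blk hd hn j
      unfold blk at h4 ⊢
      have h7 : n - d = d := by omega
      rw [h7]
      rw [decide_eq_decide, h5, h6] at h4
      rw [decide_eq_decide]
      exact not_iff_not.1 h4
    refine uniq_ten (pT R) (pT_ext R)
      (fun l => ∀ u ∈ PC.GK.NN F d, ∀ v, l ((R true).π (glT F g₁ u) v) = PC.GK.psi ψ u * l v)
      (fun l => ∀ u ∈ PC.GK.NN F (n - d), ∀ v,
        l ((R false).π (glT F g₂ u) v) = PC.GK.psi ψ u * l v)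
      (fun l l' hl hl' => wh_glrep hψ (R true) (hR true) g₁ l l' hl hl')
      (fun l l' hl hl' => wh_glrep hψ (R false) (hR false) g₂ l l' hl hl') m₁ m₂ ?_ ?_ ?_ ?_
    · intro y u hu x
      have h3 := h₁ _ (hb true (by omega) hφt g₁ hg₁ u hu) (pT R x y)
      rw [WhTen_tau R hd e hc true (by omega) hφt g₁ hg₁ u hu, pT_act, blkM_inM,
        blkM_inM_ne (fun a => (R a).κ) true false (by simp), map_one, Module.End.one_apply,
        ub_psi _ true (by omega) hφt g₁ hg₁ u] at h3
      exact h3
    · intro y u hu x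
      have h3 := h₂ _ (hb true (by omega) hφt g₁ hg₁ u hu) (pT R x y)
      rw [WhTen_tau R hd e hc true (by omega) hφt g₁ hg₁ u hu, pT_act, blkM_inM,
        blkM_inM_ne (fun a => (R a).κ) true false (by simp), map_one, Module.End.one_apply,
        ub_psi _ true (by omega) hφt g₁ hg₁ u] at h3
      exact h3
    · intro x u hu y
      have h3 := h₁ _ (hb false (by omega) hφf g₂ hg₂ u hu) (pT R x y)
      rw [WhTen_tau R hd e hc false (by omega) hφf g₂ hg₂ u hu, pT_act, blkM_inM,
        blkM_inM_ne (fun a => (R a).κ) false true (by simp), map_one, Module.End.one_apply,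
        ub_psi _ false (by omega) hφf g₂ hg₂ u] at h3
      exact h3
    · intro x u hu y
      have h3 := h₂ _ (hb false (by omega) hφf g₂ hg₂ u hu) (pT R x y)
      rw [WhTen_tau R hd e hc false (by omega) hφf g₂ hg₂ u hu, pT_act, blkM_inM,
        blkM_inM_ne (fun a => (R a).κ) false true (by simp), map_one, Module.End.one_apply,
        ub_psi _ false (by omega) hφf g₂ hg₂ u] at h3
      exact h3

end

end PC.D4
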